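import Pool.Agent.P.MP_e0a138_an.ADefs

-- part Pool.Agent.P.MP_e0a138_an.ADef2
section

set_option autoImplicit false
set_option linter.unusedSectionVars false

open MeasureTheory Filter Topology Metric Complex
open scoped ENNReal NNReal ContDiff InnerProductSpace ComplexConjugate

noncomputable section
namespace Pool.Agent.P.MP_e0a138_an.AD

section hilbert
variable {H : Type} [NormedAddCommGroup H] [InnerProductSpace ℂ H] [CompleteSpace H]

/-- symmetric graph -/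
def Sym (G : Set (H × H)) : Prop := ∀ a ∈ G, ∀ b ∈ G, ⟪a.2, b.1⟫_ℂ = ⟪a.1, b.2⟫_ℂ

/-- `v` lies in the closure of the domain -/
def InK (G : Set (H × H)) (v : H) : Prop := ∀ w, Perp G w → ⟪w, v⟫_ℂ = 0

/-- trace of `M T M` -/
def trA (M T : H →L[ℂ] H) : ℝ≥0∞ :=
  ⨆ (n : ℕ) (e : Fin n → H) (_ : Orthonormal ℂ e),
    ∑ j, ENNReal.ofReal (⟪M (e j), T (M (e j))⟫_ℂ).re

/-- the function applied to `R* R` -/
def Ff (f : ℝ → ℝ) (r : ℝ) : ℝ := if 0 < r then f √(r⁻¹ - 1) else 0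

/-- `f(D)` for real `f` -/
def fc (f : ℝ → ℝ) (R : H →L[ℂ] H) : H →L[ℂ] H :=
  cfc (fun r : ℝ => if 0 < r then f √(r⁻¹ - 1) else 0) (star R * R)

theorem fc_eq (f : ℝ → ℝ) (R : H →L[ℂ] H) : fc f R = cfc (Ff f) (star R * R) := rfl

variable {H₁ H₂ : Type} [NormedAddCommGroup H₁] [InnerProductSpace ℂ H₁] [CompleteSpace H₁]
  [NormedAddCommGroup H₂] [InnerProductSpace ℂ H₂] [CompleteSpace H₂] {ι : Type}

/-- `x h` converges to `v` in the sense of the approximate isometry `s a ↦ Wp a h` -/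
def Rel (l : Filter ℝ) (s : ι → H₂) (Wp : ι → ℝ → H₁) (x : ℝ → H₁) (v : H₂) : Prop :=
  v ∈ (Submodule.span ℂ (Set.range s)).topologicalClosure ∧
    Tendsto (fun h => ‖x h‖) l (𝓝 ‖v‖) ∧
    ∀ a, Tendsto (fun h => ⟪Wp a h, x h⟫_ℂ) l (𝓝 ⟪s a, v⟫_ℂ)

/-- approximate intertwining of the graphs `G₁ h` and `G₂` -/
structure Apx (l : Filter ℝ) (G₁ : ℝ → Set (H₁ × H₁)) (G₂ : Set (H₂ × H₂)) (s : ι → H₂)
    (Wp : ι → ℝ → H₁) (c : ℂ) : Prop where
  ne : c ≠ 0
  gram : ∀ a b, Tendsto (fun h => ⟪Wp a h, Wp b h⟫_ℂ) l (𝓝 ⟪s a, s b⟫_ℂ)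
  int : ∀ g ∈ G₂, ∃ a a', s a = c • g.1 ∧ s a' = c • g.2 ∧ ∃ w : ℝ → H₁,
    (∀ᶠ h in l, (Wp a h, w h) ∈ G₁ h) ∧ Tendsto (fun h => ‖w h - Wp a' h‖) l (𝓝 0)
  sub : ∀ a, InK G₂ (s a)

end hilbert

variable {N p q k : ℕ} {W : Type} [NormedAddCommGroup W] [InnerProductSpace ℂ W]
  [FiniteDimensional ℂ W] [CompleteSpace W]

/-- trace of `w T w` on `Lp` -/
def tr {S : Type} [MeasurableSpace S] {ν : Measure S} (w : S → ℝ)
    (T : Lp W 2 ν →L[ℂ] Lp W 2 ν) : ℝ≥0∞ :=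
  ⨆ (n : ℕ) (e : Fin n → Lp W 2 ν) (v : Fin n → Lp W 2 ν) (_ : Orthonormal ℂ e)
    (_ : ∀ j, v j =ᵐ[ν] fun s => (w s : ℂ) • e j s), ∑ j, ENNReal.ofReal (⟪v j, T (v j)⟫_ℂ).re

open Classical in
/-- the class of a function in `L²` -/
def toL {S : Type} [MeasurableSpace S] (ν : Measure S) (f : S → W) : Lp W 2 ν :=
  if h : MemLp f 2 ν then h.toLp f else 0

section chart
variable {E : Type} [NormedAddCommGroup E] [NormedSpace ℝ E] {κ : Type} [Fintype κ]

/-- a first order operator in a chart -/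
def op (b : κ → E) (A : κ → E → W →L[ℂ] W) (B : E → W →L[ℂ] W) (u : E → W) (x : E) : W :=
  ∑ a, A a x (fderiv ℝ u x (b a)) + B x (u x)

/-- test sections in a chart -/
def Tst (O : Set E) (P : E → W →L[ℂ] W) (a : E → W) : Prop :=
  ContDiff ℝ ∞ a ∧ HasCompactSupport a ∧ tsupport a ⊆ O ∧ ∀ x, P x (a x) = a x

/-- coefficients of a first order operator with skew symbol -/
structure Coef (O : Set E) (A : κ → E → W →L[ℂ] W) (B P : E → W →L[ℂ] W) (ρ : E → ℝ) : Prop where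
  isOpen : IsOpen O
  hA : ∀ a, ContDiffOn ℝ ∞ (A a) O
  hB : ContDiffOn ℝ ∞ B O
  hP : ContDiffOn ℝ ∞ P O
  hρ : ContDiffOn ℝ ∞ ρ O
  pos : ∀ x ∈ O, 0 < ρ x
  idem : ∀ x ∈ O, P x * P x = P x
  sa : ∀ x ∈ O, star (P x) = P x
  skew : ∀ a, ∀ x ∈ O, star (A a x) = -A a x
  comm : ∀ a, ∀ x ∈ O, A a x * P x = P x * A a x

variable [MeasureSpace E]

/-- weighted measure on a chart -/
def wm (O : Set E) (ρ : E → ℝ) : Measure E :=
  (volume.restrict O).withDensity fun x => ENNReal.ofReal (ρ x)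

/-- mollification -/
def mol (j : E → ℝ) (v : E → W) (x : E) : W := ∫ y, j (x - y) • v y

/-- `γ` identifies `(O, m)` with a piece of `(S, ν)` -/
structure Emb {S E : Type} [MeasurableSpace S] [MeasurableSpace E] (ν : Measure S) (m : Measure E)
    (O : Set E) (γ : E → S) : Prop where
  meas : MeasurableSet O
  conc : m Oᶜ = 0
  emb : MeasurableEmbedding (O.domRestrict γ)
  res : ν.restrict (γ '' O) = m.map γ

/-- a system of patches with cutoffs -/
structure Pat {S : Type} [MeasurableSpace S] (ν : Measure S) (J : Type) (b : κ → E)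
    (G : Set (Lp W 2 ν × Lp W 2 ν)) (Pg : S → W →L[ℂ] W) where
  O : J → Set E
  γ : J → E → S
  π : J → S → E
  A : J → κ → E → W →L[ℂ] W
  B : J → E → W →L[ℂ] W
  ρ : J → E → ℝ
  θ : J → S → ℝ
  K : J → Set E
  χ : ℕ → S → ℝ
  fs : ℕ → Finset J
  δ : ℕ → ℝ
  cnt : Countable J
  coef : ∀ P, Coef (O P) (A P) (B P) (fun x => Pg (γ P x)) (ρ P)
  emb : ∀ P, Emb ν (wm (O P) (ρ P)) (O P) (γ P)
  inv : ∀ P, ∀ x ∈ O P, π P (γ P x) = x
  cover : ∀ᵐ s ∂ν, ∃ P, s ∈ γ P '' O P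
  test : ∀ P a, Tst (O P) (fun x => Pg (γ P x)) a → ∃ g ∈ G,
    g.1 =ᵐ[ν] (γ P '' O P).indicator (fun s => a (π P s)) ∧
    g.2 =ᵐ[ν] (γ P '' O P).indicator fun s => op b (A P) (B P) a (π P s)
  val : ∀ g ∈ G, (∀ᵐ s ∂ν, Pg s (g.1 s) = g.1 s) ∧ ∀ᵐ s ∂ν, Pg s (g.2 s) = g.2 s
  sym : Sym G
  K_cpt : ∀ P, IsCompact (K P)
  K_sub : ∀ P, K P ⊆ O P
  θ_nonneg : ∀ P s, 0 ≤ θ P s
  θ_supp : ∀ P s, s ∉ γ P '' K P → θ P s = 0
  θ_smooth : ∀ P, ContDiffOn ℝ ∞ (fun x => θ P (γ P x)) (O P)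
  χ_smooth : ∀ n P, ContDiffOn ℝ ∞ (fun x => χ n (γ P x)) (O P)
  χ_mem : ∀ n, ∀ᵐ s ∂ν, 0 ≤ χ n s ∧ χ n s ≤ 1
  χ_sum : ∀ n, ∀ᵐ s ∂ν, ∑ P ∈ fs n, χ n s * θ P s = χ n s
  χ_lim : ∀ᵐ s ∂ν, Tendsto (fun n => χ n s) atTop (𝓝 1)
  δ_lim : Tendsto δ atTop (𝓝 0)
  grad : ∀ n P, ∀ x ∈ K P,
    ‖∑ a, ((fderiv ℝ (fun y => χ n (γ P y)) x (b a) : ℝ) : ℂ) • A P a x‖ ≤ δ n

end chart

/-- number operator -/
def num (ε : Eu N → W →L[ℂ] W) (S : Submodule ℝ (Eu N)) : W →L[ℂ] W :=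
  ∑ a, ε (S.starProjection (bs a)) * star (ε (S.starProjection (bs a)))

theorem deg_eq (ε : Eu N → W →L[ℂ] W) (S : Submodule ℝ (Eu N)) (j : ℕ) :
    deg ε S j = (num ε S - (j : ℂ) • 1 : W →L[ℂ] W).ker.starProjection := rfl

/-- `v ↦ -ι(v)` as a continuous linear map -/
def ioL (ε : Eu N →L[ℝ] W →L[ℂ] W) : Eu N →L[ℝ] W →L[ℂ] W :=
  -((starL' ℝ : (W →L[ℂ] W) ≃L[ℝ] (W →L[ℂ] W)) : (W →L[ℂ] W) →L[ℝ] (W →L[ℂ] W)) ∘L ε

@[simp] theorem ioL_apply (ε : Eu N →L[ℝ] W →L[ℂ] W) (v : Eu N) : ioL ε v = -star (ε v) := rfl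

/-- Clifford multiplication as a continuous linear map -/
def clL (ε : Eu N →L[ℝ] W →L[ℂ] W) : Eu N →L[ℝ] W →L[ℂ] W := ε + ioL ε

@[simp] theorem clL_apply (ε : Eu N →L[ℝ] W →L[ℂ] W) (v : Eu N) : clL ε v = cl ε v := by
  simp [clL, cl, sub_eq_add_neg]

/-- skew part of a product of Clifford multiplications -/
def Kc (ε : Eu N → W →L[ℂ] W) (v w : Eu N) : W →L[ℂ] W :=
  (-(1 / 2 : ℂ)) • (cl ε v * cl ε w - cl ε w * cl ε v)

/-- index of a plaque -/
abbrev Tr (q k : ℕ) : Type := Fin k × Eu q × Eu q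

/-- coordinate vectors -/
def cb : Fin p ⊕ Fin q → Eu p × Eu q := Sum.elim (fun b => (bs b, 0)) (fun b => (0, bs b))

/-- scaled coordinate vectors -/
def cbh (h : ℝ) : Fin p ⊕ Fin q → Eu p × Eu q :=
  Sum.elim (fun b => (bs b, 0)) (fun b => (0, h • bs b))

/-- coordinates -/
def crd (a : Fin p ⊕ Fin q) (z : Eu p × Eu q) : ℝ := 
  Sum.elim (fun b => ⟪bs b, z.1⟫_ℝ) (fun b => ⟪bs b, z.2⟫_ℝ) a

/-- the scale of the wave packets -/
def sc (h : ℝ) : ℝ := h ^ (3 / 4 : ℝ)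

/-- the window -/
def bw (β : Eu q → ℝ) (h : ℝ) (y : Eu q) (L : Eu q →L[ℝ] Eu q) (Y : Eu q) : ℝ :=
  (√(sc h ^ q))⁻¹ * β ((sc h)⁻¹ • L (Y - y))

/-- window times phase -/
def ph (β : Eu q → ℝ) (h : ℝ) (y η : Eu q) (L : Eu q →L[ℝ] Eu q) (Y : Eu q) : ℂ :=
  (bw β h y L Y : ℂ) * cexp (I * ((⟪η, Y - y⟫_ℝ / h : ℝ) : ℂ))

/-- Fourier transform on the product -/
def FT (G : Eu p × Eu q → W) (ζ : Eu p × Eu q) : W :=
  ∫ z, cexp (-(2 * Real.pi * I * ((⟪ζ.1, z.1⟫_ℝ + ⟪ζ.2, z.2⟫_ℝ : ℝ) : ℂ))) • G z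

/-- windowed Fourier transform -/
def Lam (β : Eu q → ℝ) (h : ℝ) (G : Eu p × Eu q → W) (o : Eu p × Eu q × Eu q) : W :=
  ∫ z, (conj (ph β h o.2.1 o.2.2 (ContinuousLinearMap.id ℝ _) z.2) *
    cexp (-(2 * Real.pi * I * ((⟪o.1, z.1⟫_ℝ : ℝ) : ℂ)))) • G z

/-- Jacobian -/
def jac (e : Eu q ≃L[ℝ] Eu q) : ℝ≥0 := ‖(e : Eu q →L[ℝ] Eu q).det‖₊

/-- `D_F + h D_H` -/
def Dh (DF DH : (Eu N → W) → Eu N → W) (h : ℝ) (u : Eu N → W) : Eu N → W :=
  DF u + (h : ℂ) • DH u

/-- the truncated phase space -/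
def Om (p q : ℕ) (K : ℕ) : Set (Eu p × Eu q × Eu q) :=
  closedBall 0 K ×ˢ (Set.univ ×ˢ closedBall 0 K)

namespace Atl
variable (A : Atl N p q k) (ε : Eu N →L[ℝ] W →L[ℂ] W)

/-- The graph of `D` on smooth forms. -/
def grM (μ : Measure (Eu N)) (D : (Eu N → W) → Eu N → W) : Set (Lp W 2 μ × Lp W 2 μ) :=
  {g | ∃ u, A.Form ε u ∧ g.1 =ᵐ[μ] u ∧ g.2 =ᵐ[μ] D u}

/-- The graph of the leaf operator on sections of the leaf supported in one plaque. -/
def grL (D : (Eu N → W) → Eu N → W) (t₀ : Fin k × Eu q × Eu q) (l : Measure (Eu N × Eu N)) :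
    Set (Lp W 2 l × Lp W 2 l) :=
  {g | ∃ t u, A.Reach t₀ t ∧ A.Form ε u ∧ A.Loc t.1 u ∧
    g.1 =ᵐ[l] (A.plq t).indicator (fun z => u z.1) ∧
    g.2 =ᵐ[l] (A.plq t).indicator fun z => D u z.1 + I • cl ε z.2 (u z.1)}

/-- projection onto tangential forms -/
def Pi (m : Eu N) : W →L[ℂ] W := deg ε (A.T m)ᗮ 0

/-- gradient of a coordinate -/
def gr (i : Fin k) (a : Fin p ⊕ Fin q) (m : Eu N) : Eu N :=
  A.shp m (gradient (fun n => crd a (A.φ i n)) m)

/-- `J` as a continuous linear map -/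
def JL (m : Eu N) : Eu N →L[ℝ] Eu N := LinearMap.toContinuousLinearMap ((A.J_lin m).mk' _)

/-- the differential of a chart, followed by the isometry `J` -/
def jd (i : Fin k) (z : Eu p × Eu q) : Eu p × Eu q →L[ℝ] Eu N :=
  A.JL (A.ψ i z) ∘L fderiv ℝ (A.ψ i) z

/-- symbol in a chart -/
def sy (c : Eu N →L[ℝ] W →L[ℂ] W) (Q : Eu N → Submodule ℝ (Eu N)) (i : Fin k)
    (a : Fin p ⊕ Fin q) (z : Eu p × Eu q) : W →L[ℂ] W :=
  c ((Q (A.ψ i z)).starProjection (A.gr i a (A.ψ i z)))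

/-- `D` is a first order operator with symbol `c ∘ P_Q` -/
def IsOp (c : Eu N →L[ℝ] W →L[ℂ] W) (Q : Eu N → Submodule ℝ (Eu N))
    (D : (Eu N → W) → Eu N → W) : Prop :=
  ∀ i, ∃ Z : Eu p × Eu q → W →L[ℂ] W, ContDiffOn ℝ ∞ Z (ball 0 1) ∧ ∀ u, A.Form ε u →
    ∀ z ∈ ball (0 : Eu p × Eu q) 1, D u (A.ψ i z) = op cb (A.sy c Q i) Z (fun z => u (A.ψ i z)) z

/-- a subbundle of the tangent bundle -/
def SubB (Q : Eu N → Submodule ℝ (Eu N)) : Prop :=
  ContDiffOn ℝ ∞ (fun m => (Q m).starProjection) A.M ∧ ∀ m ∈ A.M, Q m ≤ A.T m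

/-- the pair of signature operators -/
structure Dir (μ : Measure (Eu N)) (DF DH : (Eu N → W) → Eu N → W) : Prop where
  opF : A.IsOp ε (clL ε) A.F DF
  opH : A.IsOp ε (clL ε) A.H DH
  formF : ∀ u, A.Form ε u → A.Form ε (DF u)
  formH : ∀ u, A.Form ε u → A.Form ε (DH u)
  symF : ∀ u v, A.Form ε u → A.Form ε v → ∫ m, ⟪DF u m, v m⟫_ℂ ∂μ = ∫ m, ⟪u m, DF v m⟫_ℂ ∂μ
  symH : ∀ u v, A.Form ε u → A.Form ε v → ∫ m, ⟪DH u m, v m⟫_ℂ ∂μ = ∫ m, ⟪u m, DH v m⟫_ℂ ∂μ

/-- extension by zero from a chart -/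
def ext {G : Type} [Zero G] (i : Fin k) (a : Eu p × Eu q → G) : Eu N → G :=
  (A.U i).indicator fun m => a (A.φ i m)

/-- transverse part of a transition map -/
def tau (i j : Fin k) (z : Eu p × Eu q) : Eu q := (A.φ j (A.ψ i z)).2

/-- its transverse derivative -/
def dta (i j : Fin k) (z : Eu p × Eu q) : Eu q →L[ℝ] Eu q :=
  fderiv ℝ (fun Y => A.tau i j (z.1, Y)) z.2

/-- the plaque of the chart `j` through `z` -/
def tri (j : Fin k) (z : Eu N × Eu N) : Tr q k :=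
  (j, (A.φ j z.1).2, ContinuousLinearMap.adjoint
    (A.jd j (A.φ j z.1) ∘L ContinuousLinearMap.inr ℝ (Eu p) (Eu q)) z.2)

/-- compact part of a plaque -/
def kplq (r : ℝ) (t : Tr q k) : Set (Eu N × Eu N) :=
  A.gam t '' {x | (x, t.2.1) ∈ closedBall (0 : Eu p × Eu q) r}

/-- linear holonomy from the plaque `t₀`, independent of the chain -/
structure Hd (t₀ : Tr q k) (B : Tr q k → Eu q ≃L[ℝ] Eu q) : Prop where
  mem : t₀.2.1 ∈ ball (0 : Eu q) 1
  base : B t₀ = ContinuousLinearEquiv.refl ℝ _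
  cons : ∀ t t', A.Reach t₀ t → A.Reach t₀ t' → ∀ x ∈ ball (0 : Eu p) 1,
    A.ψ t.1 (x, t.2.1) ∈ A.U t'.1 → A.tau t.1 t'.1 (x, t.2.1) = t'.2.1 →
    t.2.2 = ContinuousLinearMap.adjoint (A.dta t.1 t'.1 (x, t.2.1)) t'.2.2 ∧
    (B t' : Eu q →L[ℝ] Eu q) = A.dta t.1 t'.1 (x, t.2.1) ∘L (B t : Eu q →L[ℝ] Eu q)

/-- wave packet -/
def pk (β : Eu q → ℝ) (h : ℝ) (t : Tr q k) (L : Eu q →L[ℝ] Eu q) (u : Eu N → W) (m : Eu N) : W :=
  ph β h t.2.1 t.2.2 L (A.φ t.1 m).2 • u m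

/-- the leaf operator applied to `u` -/
def lft (DF : (Eu N → W) → Eu N → W) (t : Tr q k) (u : Eu N → W) (m : Eu N) : W :=
  DF u m + I • cl ε (A.cov t.1 t.2.2 m) (u m)

/-- cutoff times the square root of the density -/
def kap (i : Fin k) : Eu p × Eu q → ℝ :=
  (ball 0 1).indicator fun z => A.χ i (A.ψ i z) * √(A.rho i z)

/-- localisation in a chart -/
def loc (i : Fin k) (v : Eu N → W) (z : Eu p × Eu q) : W := (A.kap i z : ℂ) • v (A.ψ i z)

/-- localised plane wave -/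
def uf (i : Fin k) (ξ : Eu p) (e : W) : Eu N → W :=
  A.ext i fun z => (((A.χ i (A.ψ i z) * (√(A.rho i z))⁻¹ : ℝ) : ℂ) *
    cexp (2 * Real.pi * I * ((⟪ξ, z.1⟫_ℝ : ℝ) : ℂ))) • A.Pi ε (A.ψ i z) e

/-- the frame on `M` -/
def wv (μ : Measure (Eu N)) (β : Eu q → ℝ) (h : ℝ) (j : Fin k × Fin (Module.finrank ℂ W))
    (o : Eu p × Eu q × Eu q) : Lp W 2 μ :=
  toL μ (A.pk β h (j.1, o.2) (ContinuousLinearMap.id ℝ _)
    (A.uf ε j.1 o.1 (stdOrthonormalBasis ℂ W j.2)))

/-- the section of the leaf given by `u` on the plaque `t` -/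
def sec (l : Measure (Eu N × Eu N)) (t : Tr q k) (u : Eu N → W) : Lp W 2 l :=
  toL l ((A.plq t).indicator fun z => u z.1)

/-- labels -/
def Lab (t₀ : Tr q k) : Type :=
  {a : Tr q k × (Eu N → W) // A.Reach t₀ a.1 ∧ A.Form ε a.2 ∧ A.Loc a.1.1 a.2}

/-- the vector in phase space direction `a` at scale `h` -/
def wh (h : ℝ) (i : Fin k) (a : Fin p ⊕ Fin q) (z : Eu p × Eu q) : Eu N :=
  Sum.elim (fun b => (A.F (A.ψ i z)).starProjection (A.gr i (.inl b) (A.ψ i z)) +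
    h • (A.H (A.ψ i z)).starProjection (A.gr i (.inl b) (A.ψ i z)))
    (fun b => A.gr i (.inr b) (A.ψ i z)) a

end Atl

end Pool.Agent.P.MP_e0a138_an.AD
end
end

-- part Pool.Agent.P.MP_e0a138_an.ABase
section

set_option autoImplicit false
set_option linter.unusedSectionVars false

open MeasureTheory Filter Topology Metric Complex
open scoped ENNReal NNReal ContDiff InnerProductSpace ComplexConjugate

noncomputable section
namespace Pool.Agent.P.MP_e0a138_an.AD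

variable {N p q k : ℕ} {W : Type} [NormedAddCommGroup W] [InnerProductSpace ℂ W]
  [FiniteDimensional ℂ W] [CompleteSpace W]

instance haarProd : (volume : Measure (Eu p × Eu q)).IsAddHaarMeasure :=
  Measure.prod.instIsAddHaarMeasure _ _

instance haarProd3 : (volume : Measure (Eu p × Eu q × Eu q)).IsAddHaarMeasure :=
  Measure.prod.instIsAddHaarMeasure _ _

section calc1
variable {E : Type} [NormedAddCommGroup E] [NormedSpace ℝ E]

/-- evaluation of a complex linear operator as a real bilinear map -/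
def evC (W : Type) [NormedAddCommGroup W] [InnerProductSpace ℂ W] :
    (W →L[ℂ] W) →L[ℝ] W →L[ℝ] W :=
  ContinuousLinearMap.restrictScalarsL ℂ W W ℝ ℝ

@[simp] theorem evC_apply (M : W →L[ℂ] W) (y : W) : evC W M y = M y := rfl

theorem contDiffOn_capp {n : WithTop ℕ∞} {M : E → W →L[ℂ] W} {f : E → W} {O : Set E}
    (hM : ContDiffOn ℝ n M O) (hf : ContDiffOn ℝ n f O) :
    ContDiffOn ℝ n (fun x => M x (f x)) O :=
  ((evC W).contDiff.comp_contDiffOn hM).clm_apply hf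

theorem contDiffAt_capp {n : WithTop ℕ∞} {M : E → W →L[ℂ] W} {f : E → W} {x : E}
    (hM : ContDiffAt ℝ n M x) (hf : ContDiffAt ℝ n f x) :
    ContDiffAt ℝ n (fun x => M x (f x)) x :=
  ((evC W).contDiff.contDiffAt.comp x hM).clm_apply hf

theorem continuousOn_capp {X : Type} [TopologicalSpace X] {M : X → W →L[ℂ] W} {f : X → W}
    {O : Set X} (hM : ContinuousOn M O) (hf : ContinuousOn f O) :
    ContinuousOn (fun x => M x (f x)) O := hM.clm_apply hf

theorem differentiableAt_capp {M : E → W →L[ℂ] W} {f : E → W} {x : E}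
    (hM : DifferentiableAt ℝ M x) (hf : DifferentiableAt ℝ f x) :
    DifferentiableAt ℝ (fun x => M x (f x)) x :=
  ((evC W).differentiableAt.comp x hM).clm_apply hf

theorem fderiv_capp {M : E → W →L[ℂ] W} {f : E → W} {x : E}
    (hM : DifferentiableAt ℝ M x) (hf : DifferentiableAt ℝ f x) (b : E) :
    fderiv ℝ (fun x => M x (f x)) x b = fderiv ℝ M x b (f x) + M x (fderiv ℝ f x b) := by
  have h := (((evC W).hasFDerivAt.comp x hM.hasFDerivAt).clm_apply hf.hasFDerivAt).fderiv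
  have h' : fderiv ℝ (fun x => M x (f x)) x = _ := h
  rw [h']
  simp [add_comm]

theorem fderiv_csmul {c : E → ℂ} {f : E → W} {x : E}
    (hc : DifferentiableAt ℝ c x) (hf : DifferentiableAt ℝ f x) (b : E) :
    fderiv ℝ (fun x => c x • f x) x b = fderiv ℝ c x b • f x + c x • fderiv ℝ f x b := by
  rw [show (fun x => c x • f x) = c • f from rfl, fderiv_smul hc hf]
  simp [add_comm]

theorem fderiv_ofReal {c : E → ℝ} {x : E} (hc : DifferentiableAt ℝ c x) (b : E) :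
    fderiv ℝ (fun x => (c x : ℂ)) x b = (fderiv ℝ c x b : ℝ) := by
  have h : fderiv ℝ (fun x => (c x : ℂ)) x = _ :=
    (ofRealCLM.hasFDerivAt.comp x hc.hasFDerivAt).fderiv
  rw [h]; simp

theorem contDiffOn_ofReal {n : WithTop ℕ∞} {c : E → ℝ} {O : Set E} (hc : ContDiffOn ℝ n c O) :
    ContDiffOn ℝ n (fun x => (c x : ℂ)) O := ofRealCLM.contDiff.comp_contDiffOn hc

theorem contDiffOn_star {n : WithTop ℕ∞} {M : E → W →L[ℂ] W} {O : Set E}
    (hM : ContDiffOn ℝ n M O) : ContDiffOn ℝ n (fun x => star (M x)) O :=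
  (starL' ℝ : (W →L[ℂ] W) ≃L[ℝ] (W →L[ℂ] W)).contDiff.comp_contDiffOn hM

theorem contDiffOn_fderiv_apply' {G : Type} [NormedAddCommGroup G] [NormedSpace ℝ G] {f : E → G}
    {O : Set E} (hO : IsOpen O) (hf : ContDiffOn ℝ ∞ f O) (b : E) :
    ContDiffOn ℝ ∞ (fun x => fderiv ℝ f x b) O :=
  (hf.fderiv_of_isOpen hO (m := ∞) (by simp)).clm_apply contDiffOn_const

theorem diffAt_of_contDiffOn {G : Type} [NormedAddCommGroup G] [NormedSpace ℝ G] {f : E → G}
    {O : Set E} (hO : IsOpen O) (hf : ContDiffOn ℝ ∞ f O) {x : E} (hx : x ∈ O) :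
    DifferentiableAt ℝ f x :=
  (hf.contDiffAt (hO.mem_nhds hx)).differentiableAt (by simp)

theorem contDiff_of_cpt {G : Type} [NormedAddCommGroup G] [NormedSpace ℝ G] {n : WithTop ℕ∞}
    {f : E → G} {O K : Set E} (hO : IsOpen O) (hK : IsClosed K) (hKO : K ⊆ O)
    (hf : ContDiffOn ℝ n f O) (h0 : ∀ x ∉ K, f x = 0) : ContDiff ℝ n f := by
  refine contDiff_iff_contDiffAt.2 fun x => ?_
  by_cases hx : x ∈ K
  · exact hf.contDiffAt (hO.mem_nhds (hKO hx))
  · refine (contDiffAt_const (c := (0 : G))).congr_of_eventuallyEq ?_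
    filter_upwards [hK.isOpen_compl.mem_nhds hx] with y hy using h0 y hy

theorem continuous_of_cpt {X G : Type} [TopologicalSpace X] [TopologicalSpace G] [Zero G]
    {f : X → G} {O K : Set X} (hO : IsOpen O) (hK : IsClosed K) (hKO : K ⊆ O)
    (hf : ContinuousOn f O) (h0 : ∀ x ∉ K, f x = 0) : Continuous f := by
  refine continuous_iff_continuousAt.2 fun x => ?_
  by_cases hx : x ∈ K
  · exact hf.continuousAt (hO.mem_nhds (hKO hx))
  · refine (continuousAt_const (y := (0 : G))).congr ?_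
    filter_upwards [hK.isOpen_compl.mem_nhds hx] with y hy using (h0 y hy).symm

theorem fderiv_eq_zero_of_closed {G : Type} [NormedAddCommGroup G] [NormedSpace ℝ G]
    {f : E → G} {O K : Set E} (hO : IsOpen O) (hK : IsClosed K)
    (h0 : ∀ x ∈ O, x ∉ K → f x = 0) {x : E} (hx : x ∈ O) (hxK : x ∉ K) : fderiv ℝ f x = 0 := by
  have : f =ᶠ[𝓝 x] fun _ => 0 := by
    filter_upwards [hK.isOpen_compl.mem_nhds hxK, hO.mem_nhds hx] with y hy hy' using h0 y hy' hy
  rw [this.fderiv_eq]; simp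

theorem contDiffOn_op {κ : Type} [Fintype κ] {b : κ → E} {A : κ → E → W →L[ℂ] W}
    {B : E → W →L[ℂ] W} {u : E → W} {O : Set E} (hO : IsOpen O)
    (hA : ∀ a, ContDiffOn ℝ ∞ (A a) O) (hB : ContDiffOn ℝ ∞ B O) (hu : ContDiffOn ℝ ∞ u O) :
    ContDiffOn ℝ ∞ (op b A B u) O :=
  (ContDiffOn.sum fun a _ => contDiffOn_capp (hA a) (contDiffOn_fderiv_apply' hO hu _)).add
    (contDiffOn_capp hB hu)

theorem op_congr {κ : Type} [Fintype κ] {b : κ → E} {A : κ → E → W →L[ℂ] W}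
    {B : E → W →L[ℂ] W} {u v : E → W} {x : E} (h : u =ᶠ[𝓝 x] v) :
    op b A B u x = op b A B v x := by
  simp only [op, h.fderiv_eq, h.eq_of_nhds]

theorem op_eq_zero {κ : Type} [Fintype κ] {b : κ → E} {A : κ → E → W →L[ℂ] W}
    {B : E → W →L[ℂ] W} {u : E → W} {O K : Set E} (hO : IsOpen O) (hK : IsClosed K)
    (h0 : ∀ x ∈ O, x ∉ K → u x = 0) {x : E} (hx : x ∈ O) (hxK : x ∉ K) : op b A B u x = 0 := by
  simp [op, fderiv_eq_zero_of_closed hO hK h0 hx hxK, h0 x hx hxK]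

theorem op_smul {κ : Type} [Fintype κ] {b : κ → E} {A : κ → E → W →L[ℂ] W}
    {B : E → W →L[ℂ] W} {c : E → ℂ} {u : E → W} {x : E} (hc : DifferentiableAt ℝ c x)
    (hu : DifferentiableAt ℝ u x) :
    op b A B (fun y => c y • u y) x =
      c x • op b A B u x + ∑ a, fderiv ℝ c x (b a) • A a x (u x) := by
  simp only [op, fderiv_csmul hc hu, map_add, map_smul, Finset.sum_add_distrib, smul_add,
    Finset.smul_sum]
  abel

theorem op_add {κ : Type} [Fintype κ] {b : κ → E} {A : κ → E → W →L[ℂ] W}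
    {B : E → W →L[ℂ] W} {u v : E → W} {x : E} (hu : DifferentiableAt ℝ u x)
    (hv : DifferentiableAt ℝ v x) :
    op b A B (fun y => u y + v y) x = op b A B u x + op b A B v x := by
  have : fderiv ℝ (fun y => u y + v y) x = fderiv ℝ u x + fderiv ℝ v x := fderiv_add hu hv
  simp only [op, this, add_apply, map_add, Finset.sum_add_distrib]
  abel

end calc1

theorem sc_pos {h : ℝ} (hh : 0 < h) : 0 < sc h := Real.rpow_pos_of_pos hh _

theorem tendsto_rpow_zero {c : ℝ} (hc : 0 < c) :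
    Tendsto (fun h : ℝ => h ^ c) (𝓝[>] 0) (𝓝 0) := by
  have := (Real.continuousAt_rpow_const 0 c (Or.inr hc.le)).tendsto
  rw [Real.zero_rpow hc.ne'] at this
  exact this.mono_left nhdsWithin_le_nhds

theorem sc_tendsto : Tendsto sc (𝓝[>] 0) (𝓝 0) := tendsto_rpow_zero (by norm_num)

theorem div_sc {h : ℝ} (hh : 0 < h) : h / sc h = h ^ (1 / 4 : ℝ) := by
  rw [sc, div_eq_iff (Real.rpow_pos_of_pos hh _).ne', ← Real.rpow_add hh]; norm_num

theorem sc_sq_div {h : ℝ} (hh : 0 < h) : sc h ^ 2 / h = h ^ (1 / 2 : ℝ) := by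
  rw [sc, div_eq_iff hh.ne', ← Real.rpow_natCast, ← Real.rpow_mul hh.le,
    ← Real.rpow_add_one hh.ne']
  norm_num

theorem div_sc_tendsto : Tendsto (fun h => h / sc h) (𝓝[>] 0) (𝓝 0) :=
  (tendsto_rpow_zero (c := 1 / 4) (by norm_num)).congr'
    (eventually_mem_nhdsWithin.mono fun _ hh => (div_sc hh).symm)

theorem sc_sq_div_tendsto : Tendsto (fun h => sc h ^ 2 / h) (𝓝[>] 0) (𝓝 0) :=
  (tendsto_rpow_zero (c := 1 / 2) (by norm_num)).congr'
    (eventually_mem_nhdsWithin.mono fun _ hh => (sc_sq_div hh).symm)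

theorem div_sc_le_one {h : ℝ} (hh : 0 < h) (h1 : h ≤ 1) : h / sc h ≤ 1 := by
  rw [div_sc hh]; exact Real.rpow_le_one hh.le h1 (by norm_num)

/-- the standard basis as an orthonormal basis -/
def bsB (n : ℕ) : OrthonormalBasis (Fin n) ℝ (Eu n) := EuclideanSpace.basisFun (Fin n) ℝ

theorem bsB_apply {n : ℕ} (a : Fin n) : bsB n a = bs a := EuclideanSpace.basisFun_apply _ _ a

theorem coe_bsB (n : ℕ) : ⇑(bsB n) = bs := funext bsB_apply

theorem finrank_Eu (n : ℕ) : Module.finrank ℝ (Eu n) = n := by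
  simpa using Module.finrank_eq_card_basis (bsB n).toBasis

theorem orthonormal_bs (n : ℕ) : Orthonormal ℝ (bs : Fin n → Eu n) :=
  coe_bsB n ▸ (bsB n).orthonormal

theorem norm_bs {n : ℕ} (a : Fin n) : ‖bs a‖ = 1 := (orthonormal_bs n).1 a

theorem sum_bs {n : ℕ} (v : Eu n) : ∑ a, ⟪bs a, v⟫_ℝ • bs a = v := by
  simpa [bsB_apply] using (bsB n).sum_repr' v

theorem inner_bs_bs {n : ℕ} (a b : Fin n) : ⟪bs a, bs b⟫_ℝ = if a = b then 1 else 0 :=
  orthonormal_iff_ite.1 (orthonormal_bs n) a b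

theorem sum_inner_bs {n : ℕ} (v w : Eu n) : ∑ a, ⟪bs a, v⟫_ℝ * ⟪bs a, w⟫_ℝ = ⟪v, w⟫_ℝ := by
  simpa [bsB_apply, real_inner_comm] using (bsB n).sum_inner_mul_inner v w

theorem norm_sq_bs {n : ℕ} (v : Eu n) : ‖v‖ ^ 2 = ∑ a, ⟪bs a, v⟫_ℝ ^ 2 := by
  rw [← real_inner_self_eq_norm_sq, ← sum_inner_bs]; simp [sq]

theorem sum_cb (w : Eu p × Eu q) : ∑ a, crd a w • cb a = w := by
  simp only [Fintype.sum_sum_type, crd, cb, Sum.elim_inl, Sum.elim_inr]
  ext1 <;> simp [Prod.fst_sum, Prod.snd_sum, sum_bs]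

theorem norm_cbh_le {h : ℝ} (h0 : 0 ≤ h) (h1 : h ≤ 1) (a : Fin p ⊕ Fin q) : ‖cbh h a‖ ≤ 1 := by
  rcases a with a | a <;> simp [cbh, norm_bs, norm_smul, abs_of_nonneg h0, h1]

theorem norm_cb_le (a : Fin p ⊕ Fin q) : ‖cb a‖ ≤ 1 := by
  rcases a with a | a <;> simp [cb, norm_bs]

/-- a coordinate as a continuous linear map -/
def crdL (a : Fin p ⊕ Fin q) : Eu p × Eu q →L[ℝ] ℝ :=
  Sum.elim (fun b => innerSL ℝ (bs b) ∘L ContinuousLinearMap.fst ℝ _ _)
    (fun b => innerSL ℝ (bs b) ∘L ContinuousLinearMap.snd ℝ _ _) a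

@[simp] theorem crdL_apply (a : Fin p ⊕ Fin q) (z : Eu p × Eu q) : crdL a z = crd a z := by
  rcases a with a | a <;> rfl

theorem mem_ball_prod {r : ℝ} {x : Eu p} {y : Eu q} :
    (x, y) ∈ ball (0 : Eu p × Eu q) r ↔ x ∈ ball (0 : Eu p) r ∧ y ∈ ball (0 : Eu q) r := by
  simp [Prod.norm_def]

theorem mem_closedBall_prod {r : ℝ} {x : Eu p} {y : Eu q} :
    (x, y) ∈ closedBall (0 : Eu p × Eu q) r ↔
      x ∈ closedBall (0 : Eu p) r ∧ y ∈ closedBall (0 : Eu q) r := by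
  simp [Prod.norm_def]

theorem dom_eq {y : Eu q} (hy : y ∈ ball (0 : Eu q) 1) :
    {x : Eu p | (x, y) ∈ ball (0 : Eu p × Eu q) 1} = ball 0 1 := by
  ext x; simp only [Set.mem_ofPred_eq, mem_ball_prod, hy, and_true]

theorem norm_ph (β : Eu q → ℝ) (h : ℝ) (y η : Eu q) (L : Eu q →L[ℝ] Eu q) (Y : Eu q) :
    ‖ph β h y η L Y‖ = |bw β h y L Y| := by
  rw [ph, norm_mul, mul_comm I, Complex.norm_exp_ofReal_mul_I, mul_one, Complex.norm_real,
    Real.norm_eq_abs]

theorem contDiff_bw {n : WithTop ℕ∞} {β : Eu q → ℝ} (hβ : ContDiff ℝ n β) (h : ℝ) (y : Eu q)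
    (L : Eu q →L[ℝ] Eu q) : ContDiff ℝ n (bw β h y L) :=
  contDiff_const.mul (hβ.comp ((L.contDiff.comp (contDiff_id.sub contDiff_const)).const_smul _))

theorem contDiff_ph {n : WithTop ℕ∞} {β : Eu q → ℝ} (hβ : ContDiff ℝ n β) (h : ℝ) (y η : Eu q)
    (L : Eu q →L[ℝ] Eu q) : ContDiff ℝ n (ph β h y η L) :=
  (ofRealCLM.contDiff.comp (contDiff_bw hβ h y L)).mul (Complex.contDiff_exp.comp
    (contDiff_const.mul (ofRealCLM.contDiff.comp
      ((contDiff_const.inner ℝ (contDiff_id.sub contDiff_const)).div_const _))))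

theorem jac_ne_zero (e : Eu q ≃L[ℝ] Eu q) : jac e ≠ 0 := by
  have := e.toLinearEquiv.isUnit_det'.ne_zero
  simpa [jac, ContinuousLinearMap.det] using this

theorem jac_refl : jac (ContinuousLinearEquiv.refl ℝ (Eu q)) = 1 := by
  simp [jac, ContinuousLinearMap.det]

theorem exists_window : ∃ β : Eu q → ℝ, ContDiff ℝ ∞ β ∧ HasCompactSupport β ∧
    ∫ y, β y ^ 2 = 1 := by
  let f : ContDiffBump (0 : Eu q) := ⟨1, 2, one_pos, one_lt_two⟩
  have hc : Continuous fun y => f y ^ 2 := f.continuous.pow 2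
  have hs : HasCompactSupport fun y => f y ^ 2 :=
    f.hasCompactSupport.comp_left (g := fun t : ℝ => t ^ 2) (by simp)
  have hp : 0 < ∫ y, f y ^ 2 := hc.integral_pos_of_hasCompactSupport_nonneg_nonzero hs
    (fun y => sq_nonneg _) (x := 0) (by simp [f.one_of_mem_closedBall (mem_closedBall_self zero_le_one)])
  refine ⟨fun y => (√(∫ y, f y ^ 2))⁻¹ * f y, contDiff_const.mul f.contDiff,
    f.hasCompactSupport.mul_left, ?_⟩
  simp only [mul_pow, integral_const_mul, inv_pow, Real.sq_sqrt hp.le]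
  exact inv_mul_cancel₀ hp.ne'

end Pool.Agent.P.MP_e0a138_an.AD
end
end

-- part Pool.Agent.P.MP_e0a138_an.GE1a
section

set_option autoImplicit false
set_option linter.unusedSectionVars false
set_option linter.unusedVariables false

open MeasureTheory Filter Topology Metric Complex
open scoped ENNReal NNReal ContDiff InnerProductSpace ComplexConjugate

noncomputable section
namespace Pool.Agent.P.MP_e0a138_an.AD

variable {N p q k : ℕ} {W : Type} [NormedAddCommGroup W] [InnerProductSpace ℂ W]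
  [FiniteDimensional ℂ W] [CompleteSpace W]
variable {A : Atl N p q k}

namespace Atl

theorem ψ_mem (i : Fin k) {z : Eu p × Eu q} (hz : z ∈ ball (0 : Eu p × Eu q) 1) :
    A.ψ i z ∈ A.M ∧ A.ψ i z ∈ A.U i := by
  have : A.ψ i z ∈ A.M ∩ A.U i := A.image i ▸ Set.mem_image_of_mem _ hz
  exact this

theorem φ_mem {i : Fin k} {m : Eu N} (hm : m ∈ A.M) (hU : m ∈ A.U i) :
    A.φ i m ∈ ball (0 : Eu p × Eu q) 1 ∧ A.ψ i (A.φ i m) = m := by
  have : m ∈ A.ψ i '' ball 0 1 := (A.image i).symm ▸ ⟨hm, hU⟩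
  obtain ⟨z, hz, rfl⟩ := this
  rw [A.left_inv i z hz]
  exact ⟨hz, rfl⟩

theorem mem_U_of_χ {i : Fin k} {m : Eu N} (hm : m ∈ A.M) (h : A.χ i m ≠ 0) : m ∈ A.U i := by
  obtain ⟨r, hr, h1⟩ := A.χ_supp i
  obtain ⟨z, hz, rfl⟩ : m ∈ A.ψ i '' closedBall 0 r := by_contra fun e => h (h1 m hm e)
  exact (ψ_mem i (closedBall_subset_ball hr hz)).2

theorem exists_χ {m : Eu N} (hm : m ∈ A.M) : ∃ i, A.χ i m ≠ 0 := by
  by_contra h
  push Not at h
  have := A.χ_sum m hm
  simp [h] at this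

theorem exists_chart {m : Eu N} (hm : m ∈ A.M) :
    ∃ i, ∃ z ∈ ball (0 : Eu p × Eu q) 1, A.ψ i z = m := by
  obtain ⟨i, hi⟩ := exists_χ hm
  have := φ_mem hm (mem_U_of_χ hm hi)
  exact ⟨i, _, this.1, this.2⟩

theorem exists_r (A : Atl N p q k) : ∃ r : ℝ, 0 < r ∧ r < 1 ∧
    ∀ i, ∀ m ∈ A.M, m ∉ A.ψ i '' closedBall 0 r → A.χ i m = 0 := by
  choose r hr h using A.χ_supp
  have h1 : ∀ᶠ s in 𝓝[<] (1 : ℝ), 0 < s ∧ s < 1 ∧ ∀ i, r i ≤ s :=
    Filter.Eventually.and (nhdsWithin_le_nhds (lt_mem_nhds one_pos))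
      (Filter.Eventually.and self_mem_nhdsWithin
      (eventually_all.2 fun i => nhdsWithin_le_nhds (le_mem_nhds (hr i))))
  obtain ⟨s, h0, h2, h3⟩ := h1.exists
  exact ⟨s, h0, h2, fun i m hm e => h i m hm fun e' =>
    e (Set.image_mono (closedBall_subset_closedBall (h3 i)) e')⟩

theorem isCompact_M (A : Atl N p q k) : IsCompact A.M := by
  obtain ⟨r, -, hr, h⟩ := A.exists_r
  have : ProperSpace (Eu p × Eu q) := FiniteDimensional.proper_real _
  have e : A.M = ⋃ i, A.ψ i '' closedBall 0 r := by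
    refine Set.Subset.antisymm (fun m hm => ?_) (Set.iUnion_subset fun i => ?_)
    · obtain ⟨i, hi⟩ := exists_χ hm
      exact Set.mem_iUnion.2 ⟨i, by_contra fun e => hi (h i m hm e)⟩
    · rintro _ ⟨z, hz, rfl⟩
      exact (ψ_mem i (closedBall_subset_ball hr hz)).1
  rw [e]
  exact isCompact_iUnion fun i => (isCompact_closedBall _ _).image (A.ψ_smooth i).continuous

theorem χ_sq_le {m : Eu N} (hm : m ∈ A.M) (i : Fin k) : A.χ i m ^ 2 ≤ 1 :=
  A.χ_sum m hm ▸ Finset.single_le_sum (f := fun i => A.χ i m ^ 2) (fun _ _ => sq_nonneg _)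
    (Finset.mem_univ i)

theorem injOn_ψ (i : Fin k) : Set.InjOn (A.ψ i) (ball 0 1) := fun z hz w hw e => by
  rw [← A.left_inv i z hz, e, A.left_inv i w hw]

theorem chart_zero {G : Type} [Zero G] {i : Fin k} {r : ℝ} (hr : r < 1) {u : Eu N → G}
    (h : ∀ m ∈ A.M, m ∉ A.ψ i '' closedBall 0 r → u m = 0) :
    (∀ z ∈ ball (0 : Eu p × Eu q) 1, z ∉ closedBall (0 : Eu p × Eu q) r → u (A.ψ i z) = 0) ∧
      ∀ m ∈ A.M, m ∉ A.U i → u m = 0 := by
  refine ⟨fun z hz e => h _ (ψ_mem i hz).1 ?_, fun m hm e => h m hm ?_⟩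
  · rintro ⟨w, hw, e'⟩
    exact e (injOn_ψ i (closedBall_subset_ball hr hw) hz e' ▸ hw)
  · rintro ⟨w, hw, rfl⟩
    exact e (ψ_mem i (closedBall_subset_ball hr hw)).2

end Atl

theorem exists_closedBall_of_cpt {E : Type} [NormedAddCommGroup E] {K : Set E} (hK : IsCompact K)
    (h : K ⊆ ball 0 1) : ∃ r : ℝ, 0 < r ∧ r < 1 ∧ K ⊆ closedBall 0 r := by
  rcases K.eq_empty_or_nonempty with rfl | hne
  · exact ⟨1 / 2, by norm_num, by norm_num, Set.empty_subset _⟩
  · obtain ⟨x, hx, hm⟩ := hK.exists_isMaxOn hne continuous_norm.continuousOn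
    refine ⟨max (1 / 2) ‖x‖, lt_max_of_lt_left (by norm_num),
      max_lt (by norm_num) (mem_ball_zero_iff.1 (h hx)), fun y hy => ?_⟩
    exact mem_closedBall_zero_iff.2 (le_max_of_le_right (hm hy))

end Pool.Agent.P.MP_e0a138_an.AD
end
end

-- part Pool.Agent.P.MP_e0a138_an.GE1
section

set_option autoImplicit false
set_option linter.unusedSectionVars false
set_option linter.unusedVariables false

open MeasureTheory Filter Topology Metric Complex
open scoped ENNReal NNReal ContDiff InnerProductSpace ComplexConjugate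

noncomputable section
namespace Pool.Agent.P.MP_e0a138_an.AD

variable {N p q k : ℕ} {W : Type} [NormedAddCommGroup W] [InnerProductSpace ℂ W]
  [FiniteDimensional ℂ W] [CompleteSpace W]
variable {A : Atl N p q k}

namespace Atl

theorem GE1_dψ (i : Fin k) (z : Eu p × Eu q) : DifferentiableAt ℝ (A.ψ i) z :=
  (A.ψ_smooth i).differentiable (by simp) z

theorem GE1_dφ (i : Fin k) (m : Eu N) : DifferentiableAt ℝ (A.φ i) m :=
  (A.φ_smooth i).differentiable (by simp) m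

theorem GE1_within {G : Type} [NormedAddCommGroup G] [NormedSpace ℝ G] {i : Fin k}
    {a : Eu p × Eu q → G} (ha : ContDiffOn ℝ ∞ a (ball 0 1)) {f : Eu N → G} {m : Eu N}
    (hm : m ∈ A.M) (hU : m ∈ A.U i) (e : ∀ n ∈ A.M, n ∈ A.U i → f n = a (A.φ i n)) :
    ContDiffWithinAt ℝ ∞ f A.M m := by
  have h1 : ContDiffAt ℝ ∞ (fun n => a (A.φ i n)) m :=
    (ha.contDiffAt (isOpen_ball.mem_nhds (φ_mem hm hU).1)).comp m (A.φ_smooth i).contDiffAt
  refine h1.contDiffWithinAt.congr_of_eventuallyEq ?_ (e m hm hU)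
  filter_upwards [self_mem_nhdsWithin, mem_nhdsWithin_of_mem_nhds ((A.U_open i).mem_nhds hU)]
    with n h2 h3 using e n h2 h3

theorem contDiffOn_iff {G : Type} [NormedAddCommGroup G] [NormedSpace ℝ G] {f : Eu N → G} :
    ContDiffOn ℝ ∞ f A.M ↔ ∀ i, ContDiffOn ℝ ∞ (fun z => f (A.ψ i z)) (ball 0 1) := by
  refine ⟨fun h i => h.comp (A.ψ_smooth i).contDiffOn fun z hz => (ψ_mem i hz).1,
    fun h m hm => ?_⟩
  obtain ⟨i, hi⟩ := exists_χ hm
  exact GE1_within (h i) hm (mem_U_of_χ hm hi) fun n h1 h2 => by rw [(φ_mem h1 h2).2]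

theorem continuousOn_chart {G : Type} [TopologicalSpace G] {f : Eu N → G}
    (hf : ContinuousOn f A.M) (i : Fin k) : ContinuousOn (fun z => f (A.ψ i z)) (ball 0 1) := by
  exact hf.comp (A.ψ_smooth i).continuous.continuousOn fun z hz => (ψ_mem i hz).1

theorem dφ_dψ (i : Fin k) {z : Eu p × Eu q} (hz : z ∈ ball (0 : Eu p × Eu q) 1) (w : Eu p × Eu q) :
    fderiv ℝ (A.φ i) (A.ψ i z) (fderiv ℝ (A.ψ i) z w) = w := by
  have h1 : (fun z => A.φ i (A.ψ i z)) =ᶠ[𝓝 z] id := by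
    filter_upwards [isOpen_ball.mem_nhds hz] with y hy using A.left_inv i y hy
  have h2 := ((GE1_dφ (A := A) i (A.ψ i z)).hasFDerivAt.comp z (GE1_dψ i z).hasFDerivAt).unique
    ((hasFDerivAt_id z).congr_of_eventuallyEq h1)
  exact DFunLike.congr_fun h2 w

theorem dψ_inj (i : Fin k) {z : Eu p × Eu q} (hz : z ∈ ball (0 : Eu p × Eu q) 1) :
    Function.Injective (fderiv ℝ (A.ψ i) z) := by
  exact Function.LeftInverse.injective (dφ_dψ i hz)

theorem fderivWithin_chart {G : Type} [NormedAddCommGroup G] [NormedSpace ℝ G] {u : Eu N → G}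
    (hu : ContDiffOn ℝ ∞ u A.M) (i : Fin k) {z : Eu p × Eu q} (hz : z ∈ ball (0 : Eu p × Eu q) 1)
    (w : Eu p × Eu q) : fderivWithin ℝ u A.M (A.ψ i z) (fderiv ℝ (A.ψ i) z w) =
      fderiv ℝ (fun z => u (A.ψ i z)) z w := by
  have h1 := ((hu _ (ψ_mem i hz).1).differentiableWithinAt (by simp)).hasFDerivWithinAt
  have h2 := (h1.comp z (GE1_dψ i z).hasFDerivAt.hasFDerivWithinAt
    (fun y hy => (ψ_mem i hy).1 : Set.MapsTo (A.ψ i) (ball 0 1) A.M)).hasFDerivAt
    (isOpen_ball.mem_nhds hz)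
  exact (DFunLike.congr_fun h2.fderiv w).symm

theorem trans_ev {i j : Fin k} {z : Eu p × Eu q} (hz : z ∈ ball (0 : Eu p × Eu q) 1)
    (hj : A.ψ i z ∈ A.U j) : ∀ᶠ z' in 𝓝 z, z' ∈ ball (0 : Eu p × Eu q) 1 ∧ A.ψ i z' ∈ A.U j ∧
      A.φ j (A.ψ i z') ∈ ball (0 : Eu p × Eu q) 1 ∧ A.ψ j (A.φ j (A.ψ i z')) = A.ψ i z' := by
  filter_upwards [isOpen_ball.mem_nhds hz,
    (A.ψ_smooth i).continuous.continuousAt ((A.U_open j).mem_nhds hj)] with y h1 h2
  exact ⟨h1, h2, φ_mem (ψ_mem i h1).1 h2⟩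

theorem dψ_trans {i j : Fin k} {z : Eu p × Eu q} (hz : z ∈ ball (0 : Eu p × Eu q) 1)
    (hj : A.ψ i z ∈ A.U j) (w : Eu p × Eu q) : fderiv ℝ (A.ψ i) z w =
      fderiv ℝ (A.ψ j) (A.φ j (A.ψ i z)) (fderiv ℝ (fun z => A.φ j (A.ψ i z)) z w) := by
  have h1 : A.ψ i =ᶠ[𝓝 z] fun y => A.ψ j (A.φ j (A.ψ i y)) :=
    (trans_ev hz hj).mono fun y hy => hy.2.2.2.symm
  have h2 : DifferentiableAt ℝ (fun y => A.φ j (A.ψ i y)) z := (GE1_dφ j _).comp z (GE1_dψ i z)
  have h3 := ((GE1_dψ (A := A) j (A.φ j (A.ψ i z))).hasFDerivAt.comp z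
    h2.hasFDerivAt).congr_of_eventuallyEq h1
  exact DFunLike.congr_fun h3.fderiv w

theorem ext_chart {G : Type} [Zero G] (i : Fin k) (a : Eu p × Eu q → G) {z : Eu p × Eu q}
    (hz : z ∈ ball (0 : Eu p × Eu q) 1) : A.ext i a (A.ψ i z) = a z := by
  rw [ext, Set.indicator_of_mem (ψ_mem i hz).2, A.left_inv i z hz]

theorem ext_zero {G : Type} [Zero G] (i : Fin k) {a : Eu p × Eu q → G} {r : ℝ}
    (h0 : ∀ z ∈ ball (0 : Eu p × Eu q) 1, z ∉ closedBall (0 : Eu p × Eu q) r → a z = 0) :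
    ∀ m ∈ A.M, m ∉ A.ψ i '' closedBall 0 r → A.ext i a m = 0 := by
  intro m hm h
  by_cases hU : m ∈ A.U i
  · rw [ext, Set.indicator_of_mem hU]
    exact h0 _ (φ_mem hm hU).1 fun h1 => h ⟨_, h1, (φ_mem hm hU).2⟩
  · rw [ext, Set.indicator_of_notMem hU]

theorem ext_smooth {G : Type} [NormedAddCommGroup G] [NormedSpace ℝ G] (i : Fin k)
    {a : Eu p × Eu q → G} (ha : ContDiffOn ℝ ∞ a (ball 0 1)) {r : ℝ} (hr : r < 1)
    (h0 : ∀ z ∈ ball (0 : Eu p × Eu q) 1, z ∉ closedBall (0 : Eu p × Eu q) r → a z = 0) :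
    ContDiffOn ℝ ∞ (A.ext i a) A.M := by
  intro m hm
  by_cases hU : m ∈ A.U i
  · exact GE1_within ha hm hU fun n _ h2 => by rw [ext, Set.indicator_of_mem h2]
  · have hc : IsClosed (A.ψ i '' closedBall 0 r) :=
      ((isCompact_closedBall _ _).image (A.ψ_smooth i).continuous).isClosed
    have hn : m ∉ A.ψ i '' closedBall 0 r := by
      rintro ⟨z, hz, rfl⟩
      exact hU (ψ_mem i (closedBall_subset_ball hr hz)).2
    refine (contDiffWithinAt_const (c := (0 : G))).congr_of_eventuallyEq ?_ (ext_zero i h0 m hm hn)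
    filter_upwards [self_mem_nhdsWithin, mem_nhdsWithin_of_mem_nhds (hc.isOpen_compl.mem_nhds hn)]
      with n h2 h3 using ext_zero i h0 n h2 h3

end Atl

end Pool.Agent.P.MP_e0a138_an.AD
end
end

-- part Pool.Agent.P.MP_e0a138_an.AN12
section

set_option autoImplicit false
set_option linter.unusedSectionVars false
set_option linter.unusedVariables false

open MeasureTheory Filter Topology Metric Complex
open scoped ENNReal NNReal ContDiff InnerProductSpace ComplexConjugate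

noncomputable section
namespace Pool.Agent.P.MP_e0a138_an.AD

variable {N p q k : ℕ} {W : Type} [NormedAddCommGroup W] [InnerProductSpace ℂ W]
  [FiniteDimensional ℂ W] [CompleteSpace W]

theorem ae_fderiv_eq {f g : Eu q → Eu q} (hf : Differentiable ℝ f) (hg : Differentiable ℝ g) :
    ∀ᵐ y, f y = g y → fderiv ℝ f y = fderiv ℝ g y := by
  have hs : MeasurableSet {y | f y = g y} :=
    (isClosed_eq hf.continuous hg.continuous).measurableSet
  have h1 : ApproximatesLinearOn (fun y => f y - g y) (0 : Eu q →L[ℝ] Eu q) {y | f y = g y} 0 := by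
    intro x hx y hy
    have hx' : f x = g x := hx
    have hy' : f y = g y := hy
    simp [hx', hy']
  have h2 := h1.norm_fderiv_sub_le volume hs (fun y => fderiv ℝ f y - fderiv ℝ g y)
    fun y _ => ((hf y).hasFDerivAt.sub (hg y).hasFDerivAt).hasFDerivWithinAt
  filter_upwards [(ae_restrict_iff' hs).1 h2] with y hy h
  have h3 := hy h
  rwa [sub_zero, nonpos_iff_eq_zero, nnnorm_eq_zero, sub_eq_zero] at h3

theorem AN12_equiv {n : ℕ} {L : Eu n →L[ℝ] Eu N} (h : Function.Injective L) :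
    ∃ e : Eu n ≃L[ℝ] Eu n, (e : Eu n →L[ℝ] Eu n) = ContinuousLinearMap.adjoint L ∘L L := by
  have h1 : Function.Injective (ContinuousLinearMap.adjoint L ∘L L) := by
    refine (injective_iff_map_eq_zero _).2 fun x hx => h ?_
    have h2 : ⟪L x, L x⟫_ℝ = 0 := by
      rw [← ContinuousLinearMap.adjoint_inner_left]
      rw [ContinuousLinearMap.comp_apply] at hx
      rw [hx, inner_zero_left]
    rw [map_zero]
    exact inner_self_eq_zero.1 h2
  exact ⟨(LinearEquiv.ofInjectiveEndo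
    (ContinuousLinearMap.adjoint L ∘L L : Eu n →L[ℝ] Eu n).toLinearMap h1).toContinuousLinearEquiv,
    ContinuousLinearMap.ext fun _ => rfl⟩

theorem AN12_proj {n : ℕ} {L : Eu n →L[ℝ] Eu N} (h : Function.Injective L) :
    L.range.starProjection = L ∘L (ContinuousLinearMap.adjoint L ∘L L).inverse ∘L
      ContinuousLinearMap.adjoint L := by
  obtain ⟨e, he⟩ := AN12_equiv h
  refine ContinuousLinearMap.ext fun u => ?_
  refine Submodule.eq_starProjection_of_mem_of_inner_eq_zero ⟨_, rfl⟩ ?_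
  rintro _ ⟨x, rfl⟩
  have h1 : ∀ y, ContinuousLinearMap.adjoint L (L (e.symm y)) = y := fun y => by
    have := congrArg (fun A : Eu n →L[ℝ] Eu n => A (e.symm y)) he
    simpa using this.symm
  rw [← he, ContinuousLinearMap.inverse_equiv]
  change ⟪u - L (e.symm (ContinuousLinearMap.adjoint L u)), L x⟫_ℝ = 0
  rw [← ContinuousLinearMap.adjoint_inner_left, map_sub, h1, sub_self, inner_zero_left]

theorem AN12_adj {n : ℕ} : ContDiff ℝ ∞ fun L : Eu n →L[ℝ] Eu N => ContinuousLinearMap.adjoint L :=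
  (LinearMap.toContinuousLinearMap
    ({ toFun := fun L => ContinuousLinearMap.adjoint L
       map_add' := fun a b => map_add _ a b
       map_smul' := fun c a => by simp } :
      (Eu n →L[ℝ] Eu N) →ₗ[ℝ] (Eu N →L[ℝ] Eu n))).contDiff

theorem contDiffOn_starProjection {E : Type} [NormedAddCommGroup E] [NormedSpace ℝ E] {n : ℕ}
    {L : E → Eu n →L[ℝ] Eu N} {O : Set E} (hL : ContDiffOn ℝ ∞ L O)
    (inj : ∀ x ∈ O, Function.Injective (L x)) :
    ContDiffOn ℝ ∞ (fun x => (L x).range.starProjection) O := by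
  have hA : ContDiffOn ℝ ∞ (fun x => ContinuousLinearMap.adjoint (L x)) O :=
    AN12_adj.comp_contDiffOn hL
  have hG : ContDiffOn ℝ ∞ (fun x => ContinuousLinearMap.adjoint (L x) ∘L L x) O :=
    hA.clm_comp hL
  have hI : ContDiffOn ℝ ∞ (fun x => (ContinuousLinearMap.adjoint (L x) ∘L L x).inverse) O := by
    intro x hx
    obtain ⟨e, he⟩ := AN12_equiv (inj x hx)
    have h1 := contDiffAt_map_inverse (n := ∞) e
    rw [he] at h1
    exact h1.comp_contDiffWithinAt x (hG x hx)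
  exact (hL.clm_comp (hI.clm_comp hA)).congr fun x hx => AN12_proj (inj x hx)

/-- the coordinate basis of the product -/
def AN12_B (p q : ℕ) : Module.Basis (Fin p ⊕ Fin q) ℝ (Eu p × Eu q) :=
  (bsB p).toBasis.prod (bsB q).toBasis

theorem AN12_B_apply (a : Fin p ⊕ Fin q) : AN12_B p q a = cb a := by
  cases a <;> simp [AN12_B, cb, Module.Basis.prod_apply, bsB_apply]

theorem det_block {L : Eu p × Eu q →L[ℝ] Eu p × Eu q} (h : ∀ x, (L (x, 0)).2 = 0) :
    L.det = (ContinuousLinearMap.fst ℝ _ _ ∘L L ∘L ContinuousLinearMap.inl ℝ _ _).det *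
      (ContinuousLinearMap.snd ℝ _ _ ∘L L ∘L ContinuousLinearMap.inr ℝ _ _).det := by
  unfold ContinuousLinearMap.det
  rw [← LinearMap.det_toMatrix (AN12_B p q), ← LinearMap.det_toMatrix (bsB p).toBasis,
    ← LinearMap.det_toMatrix (bsB q).toBasis,
    ← Matrix.fromBlocks_toBlocks (LinearMap.toMatrix (AN12_B p q) (AN12_B p q) _)]
  have h0 : (LinearMap.toMatrix (AN12_B p q) (AN12_B p q)
      (L : Eu p × Eu q →ₗ[ℝ] Eu p × Eu q)).toBlocks₂₁ = 0 := by
    ext i j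
    simp [Matrix.toBlocks₂₁, LinearMap.toMatrix_apply, AN12_B, Module.Basis.prod_apply, h]
  rw [h0, Matrix.det_fromBlocks_zero₂₁]
  congr 2
  · ext i j
    simp [Matrix.toBlocks₁₁, LinearMap.toMatrix_apply, AN12_B, Module.Basis.prod_apply]
  · ext i j
    simp [Matrix.toBlocks₂₂, LinearMap.toMatrix_apply, AN12_B, Module.Basis.prod_apply]

theorem det_gram_comp (L : Eu p × Eu q →L[ℝ] Eu N) (T : Eu p × Eu q →L[ℝ] Eu p × Eu q) :
    (Matrix.gram ℝ fun a : Fin p ⊕ Fin q => L (T (cb a))).det =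
      (Matrix.gram ℝ fun a : Fin p ⊕ Fin q => L (cb a)).det * T.det ^ 2 := by
  set J := LinearMap.toMatrix (AN12_B p q) (AN12_B p q) (T : Eu p × Eu q →ₗ[ℝ] Eu p × Eu q) with hJ
  have h1 : ∀ a, L (T (cb a)) = ∑ b, J b a • L (cb b) := fun a => by
    conv_lhs => rw [← (AN12_B p q).sum_repr (T (cb a))]
    simp only [map_sum, map_smul, hJ, LinearMap.toMatrix_apply, AN12_B_apply,
      ContinuousLinearMap.coe_coe]
  have h2 : (Matrix.gram ℝ fun a : Fin p ⊕ Fin q => L (T (cb a))) =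
      J.transpose * (Matrix.gram ℝ fun a : Fin p ⊕ Fin q => L (cb a)) * J := by
    ext a b
    simp only [Matrix.gram_apply, h1, Matrix.mul_apply, Matrix.transpose_apply, inner_sum,
      sum_inner, real_inner_smul_left, real_inner_smul_right, Finset.sum_mul]
    exact Finset.sum_congr rfl fun _ _ => Finset.sum_congr rfl fun _ _ => by ring
  rw [h2, Matrix.det_mul, Matrix.det_mul, Matrix.det_transpose, hJ, LinearMap.det_toMatrix]
  unfold ContinuousLinearMap.det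
  ring

theorem det_gram_pos {L : Eu p × Eu q →L[ℝ] Eu N} (h : Function.Injective L) :
    0 < (Matrix.gram ℝ fun a : Fin p ⊕ Fin q => L (cb a)).det := by
  refine (Matrix.posDef_gram_iff_linearIndependent.2 ?_).det_pos
  have h1 := (AN12_B p q).linearIndependent.map' (L : Eu p × Eu q →ₗ[ℝ] Eu N)
    (LinearMap.ker_eq_bot.2 h)
  have h2 : (fun a : Fin p ⊕ Fin q => L (cb a)) =
      (L : Eu p × Eu q →ₗ[ℝ] Eu N) ∘ AN12_B p q := funext fun a => by simp [AN12_B_apply]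
  rwa [h2]

end Pool.Agent.P.MP_e0a138_an.AD
end
end

-- part Pool.Agent.P.MP_e0a138_an.AL1
section

set_option autoImplicit false
set_option linter.unusedSectionVars false
set_option linter.unusedVariables false
set_option linter.deprecated false

open MeasureTheory Filter Topology Metric Complex
open scoped ENNReal NNReal ContDiff InnerProductSpace ComplexConjugate

noncomputable section
namespace Pool.Agent.P.MP_e0a138_an.AD

variable {N p q k : ℕ} {W : Type} [NormedAddCommGroup W] [InnerProductSpace ℂ W]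
  [FiniteDimensional ℂ W] [CompleteSpace W]

variable {ε : Eu N →L[ℝ] W →L[ℂ] W}

theorem cl_star (v : Eu N) : star (cl ε v) = -cl ε v := by
  simp only [cl, star_sub, star_star, neg_sub]

theorem cl_mul (hε : IsCAR ε) (v w : Eu N) :
    cl ε v * cl ε w + cl ε w * cl ε v = ((-(2 * ⟪v, w⟫_ℝ) : ℝ) : ℂ) • 1 := by
  have h1 := (hε.2 v w).1
  have h2 := (hε.2 v w).2
  have h3 := (hε.2 w v).2
  have h4 : star (ε v) * star (ε w) + star (ε w) * star (ε v) = 0 := by
    have := congrArg star h1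
    rw [star_add, star_mul, star_mul, star_zero, add_comm] at this
    exact this
  rw [real_inner_comm] at h3
  have e : cl ε v * cl ε w + cl ε w * cl ε v = (ε v * ε w + ε w * ε v) +
      (star (ε v) * star (ε w) + star (ε w) * star (ε v)) -
      (star (ε v) * ε w + ε w * star (ε v)) - (star (ε w) * ε v + ε v * star (ε w)) := by
    simp only [cl]; noncomm_ring
  rw [e, h1, h2, h3, h4]
  push_cast
  module

theorem eps_smul (t : ℝ) (v : Eu N) : ε (t • v) = (t : ℂ) • ε v := by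
  rw [map_smul, Complex.coe_smul]

theorem cl_smul (t : ℝ) (v : Eu N) : cl ε (t • v) = (t : ℂ) • cl ε v := by
  simp only [cl, eps_smul, star_smul, smul_sub, Complex.star_def, Complex.conj_ofReal]

theorem num_star (S : Submodule ℝ (Eu N)) : star (num ε S) = num ε S := by
  simp only [num, star_sum, star_mul, star_star]

theorem num_comm (hε : IsCAR ε) (S : Submodule ℝ (Eu N)) (v : Eu N) :
    num ε S * ε v - ε v * num ε S = ε (S.starProjection v) := by
  have key : ∀ x : Eu N, ε x * star (ε x) * ε v - ε v * (ε x * star (ε x)) =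
      ((⟪x, v⟫_ℝ : ℝ) : ℂ) • ε x := by
    intro x
    have h1 := (hε.2 x v).1
    have h2 := (hε.2 x v).2
    have e : ε x * star (ε x) * ε v - ε v * (ε x * star (ε x)) =
        ε x * (star (ε x) * ε v + ε v * star (ε x)) - (ε x * ε v + ε v * ε x) * star (ε x) := by
      noncomm_ring
    rw [e, h1, h2, zero_mul, sub_zero, mul_smul_comm, mul_one]
  have hs : S.starProjection v =
      ∑ a, ⟪S.starProjection (bs a), v⟫_ℝ • S.starProjection (bs a) := by
    have h1 : S.starProjection v = S.starProjection (S.starProjection v) :=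
      (Submodule.starProjection_eq_self_iff.2 (S.starProjection_apply_mem v)).symm
    rw [h1, ← sum_bs (S.starProjection v), map_sum]
    refine Finset.sum_congr rfl fun a _ => ?_
    rw [map_smul, Submodule.inner_starProjection_left_eq_right]
  rw [hs, map_sum, num, Finset.sum_mul, Finset.mul_sum, ← Finset.sum_sub_distrib]
  refine Finset.sum_congr rfl fun a _ => ?_
  rw [key, eps_smul]

theorem num_comm_star (hε : IsCAR ε) (S : Submodule ℝ (Eu N)) (v : Eu N) :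
    star (ε v) * num ε S - num ε S * star (ε v) = star (ε (S.starProjection v)) := by
  have := congrArg star (num_comm hε S v)
  rwa [star_sub, star_mul, star_mul, num_star] at this

theorem AL1_inner_num (S : Submodule ℝ (Eu N)) (x : W) :
    (⟪x, num ε S x⟫_ℂ).re = ∑ a, ‖star (ε (S.starProjection (bs a))) x‖ ^ 2 := by
  rw [num, ContinuousLinearMap.sum_apply, inner_sum, Complex.re_sum]
  refine Finset.sum_congr rfl fun a _ => ?_
  rw [ContinuousLinearMap.mul_apply, ← ContinuousLinearMap.adjoint_inner_left,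
    ← ContinuousLinearMap.star_eq_adjoint, inner_self_eq_norm_sq_to_K]
  norm_cast

theorem AL1_norm_le (hε : IsCAR ε) (v : Eu N) (hv : ‖v‖ ≤ 1) (x : W) :
    ‖star (ε v) x‖ ^ 2 ≤ ‖x‖ ^ 2 := by
  have h2 := (hε.2 v v).2
  have h3 := congrArg (fun T : W →L[ℂ] W => (⟪x, T x⟫_ℂ).re) h2
  simp only [ContinuousLinearMap.add_apply, ContinuousLinearMap.mul_apply, inner_add_right,
    ContinuousLinearMap.smul_apply, ContinuousLinearMap.one_apply, inner_smul_right,
    Complex.add_re] at h3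
  have a1 : (⟪x, star (ε v) (ε v x)⟫_ℂ).re = ‖ε v x‖ ^ 2 := by
    rw [ContinuousLinearMap.star_eq_adjoint, ContinuousLinearMap.adjoint_inner_right,
      inner_self_eq_norm_sq_to_K]
    norm_cast
  have a2 : (⟪x, ε v (star (ε v) x)⟫_ℂ).re = ‖star (ε v) x‖ ^ 2 := by
    rw [← ContinuousLinearMap.adjoint_inner_left, ← ContinuousLinearMap.star_eq_adjoint,
      inner_self_eq_norm_sq_to_K]
    norm_cast
  have a3 : (((⟪v, v⟫_ℝ : ℝ) : ℂ) * ⟪x, x⟫_ℂ).re = ‖v‖ ^ 2 * ‖x‖ ^ 2 := by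
    rw [Complex.re_ofReal_mul, real_inner_self_eq_norm_sq, inner_self_eq_norm_sq_to_K]
    norm_cast
  rw [a1, a2, a3] at h3
  have h4 : ‖v‖ ^ 2 ≤ 1 := by nlinarith [norm_nonneg v]
  nlinarith [sq_nonneg ‖ε v x‖, sq_nonneg ‖x‖]

theorem AL1_re_bounds (hε : IsCAR ε) (S : Submodule ℝ (Eu N)) {c : ℂ} {x : W} (hx : x ≠ 0)
    (h : num ε S x = c • x) : 0 ≤ c.re ∧ c.re ≤ N := by
  have h1 := AL1_inner_num (ε := ε) S x
  have h2 : (⟪x, c • x⟫_ℂ).re = c.re * ‖x‖ ^ 2 := by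
    rw [inner_smul_right, inner_self_eq_norm_sq_to_K]
    have : ((‖x‖ : ℂ) ^ 2) = ((‖x‖ ^ 2 : ℝ) : ℂ) := by norm_cast
    simp only [Complex.coe_algebraMap, this, Complex.mul_re, Complex.ofReal_re, Complex.ofReal_im,
      mul_zero, sub_zero]
  rw [h, h2] at h1
  have hp : 0 < ‖x‖ ^ 2 := by positivity
  have h3 : 0 ≤ ∑ a, ‖star (ε (S.starProjection (bs a))) x‖ ^ 2 :=
    Finset.sum_nonneg fun a _ => sq_nonneg _
  have h4 : ∑ a, ‖star (ε (S.starProjection (bs a))) x‖ ^ 2 ≤ N * ‖x‖ ^ 2 := by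
    calc _ ≤ ∑ _a : Fin N, ‖x‖ ^ 2 := Finset.sum_le_sum fun a _ =>
            AL1_norm_le hε _ ((S.norm_starProjection_apply_le _).trans (norm_bs a).le) x
      _ = _ := by simp
  rw [← h1] at h3 h4
  exact ⟨nonneg_of_mul_nonneg_left h3 hp, le_of_mul_le_mul_right h4 hp⟩

theorem AL1_descent (hε : IsCAR ε) (S : Submodule ℝ (Eu N)) (m : ℕ) :
    ∀ {c : ℂ} {x : W}, x ≠ 0 → num ε S x = c • x → c.re < m → ∃ j : ℕ, c = j := by
  induction m with
  | zero =>
    intro c x hx h hm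
    have := (AL1_re_bounds hε S hx h).1
    simp only [Nat.cast_zero] at hm
    linarith
  | succ m ih =>
    intro c x hx h hm
    by_cases h0 : ∀ a, star (ε (S.starProjection (bs a))) x = 0
    · have : num ε S x = 0 := by
        rw [num, ContinuousLinearMap.sum_apply]
        refine Finset.sum_eq_zero fun a _ => ?_
        rw [ContinuousLinearMap.mul_apply, h0, map_zero]
      rw [this] at h
      exact ⟨0, by simpa [hx] using h.symm⟩
    · push Not at h0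
      obtain ⟨a, ha⟩ := h0
      have h1 := num_comm_star hε S (S.starProjection (bs a))
      rw [Submodule.starProjection_eq_self_iff.2 (S.starProjection_apply_mem _)] at h1
      have h2 := congrArg (fun T : W →L[ℂ] W => T x) h1
      simp only [ContinuousLinearMap.sub_apply, ContinuousLinearMap.mul_apply, h, map_smul] at h2
      have h3 : num ε S (star (ε (S.starProjection (bs a))) x) =
          (c - 1) • star (ε (S.starProjection (bs a))) x := by
        rw [sub_smul, one_smul]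
        exact (sub_eq_iff_eq_add.2 (by rw [add_comm]; exact sub_eq_iff_eq_add.1 h2 |>.trans (add_comm _ _) |>.trans (add_comm _ _))).symm
      obtain ⟨j, hj⟩ := ih ha h3 (by
        simp only [Complex.sub_re, Complex.one_re]
        push_cast at hm
        linarith)
      exact ⟨j + 1, by push_cast; rw [← hj]; ring⟩

theorem num_eigen (hε : IsCAR ε) (S : Submodule ℝ (Eu N)) {c : ℂ} {x : W} (hx : x ≠ 0)
    (h : num ε S x = c • x) : ∃ j ≤ N, c = (j : ℕ) := by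
  have hb := (AL1_re_bounds hε S hx h).2
  obtain ⟨j, hj⟩ := AL1_descent hε S (N + 1) hx h (by push_cast; linarith)
  refine ⟨j, ?_, hj⟩
  rw [hj, Complex.natCast_re] at hb
  exact_mod_cast hb

theorem ext_eigen (hε : IsCAR ε) (S : Submodule ℝ (Eu N)) {A B : W →L[ℂ] W}
    (h : ∀ j ≤ N, ∀ x, num ε S x = ((j : ℕ) : ℂ) • x → A x = B x) : A = B := by
  have hsym : (num ε S : W →ₗ[ℂ] W).IsSymmetric :=
    ContinuousLinearMap.isSelfAdjoint_iff_isSymmetric.1 (num_star S)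
  have htop : (⨆ μ, Module.End.eigenspace (num ε S : W →ₗ[ℂ] W) μ) = ⊤ :=
    Submodule.orthogonal_eq_bot_iff.1 hsym.orthogonalComplement_iSup_eigenspaces_eq_bot
  ext x
  have hx : x ∈ ⨆ μ, Module.End.eigenspace (num ε S : W →ₗ[ℂ] W) μ := htop ▸ Submodule.mem_top
  refine Submodule.iSup_induction _ (motive := fun x => A x = B x) hx ?_ (by simp) ?_
  · intro c y hy
    have hy' : num ε S y = c • y := Module.End.mem_eigenspace_iff.1 hy
    by_cases h0 : y = 0
    · simp [h0]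
    · obtain ⟨j, hj, rfl⟩ := num_eigen hε S h0 hy'
      exact h j hj y hy'
  · intro y z hy hz
    rw [map_add, map_add, hy, hz]

end Pool.Agent.P.MP_e0a138_an.AD
end
end

-- part Pool.Agent.P.MP_e0a138_an.AL2
section

set_option autoImplicit false
set_option linter.unusedSectionVars false
set_option linter.unusedVariables false

open MeasureTheory Filter Topology Metric Complex
open scoped ENNReal NNReal ContDiff InnerProductSpace ComplexConjugate

noncomputable section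
namespace Pool.Agent.P.MP_e0a138_an.AD

variable {N p q k : ℕ} {W : Type} [NormedAddCommGroup W] [InnerProductSpace ℂ W]
  [FiniteDimensional ℂ W] [CompleteSpace W]

variable {ε : Eu N →L[ℝ] W →L[ℂ] W}

theorem al2_mem (S : Submodule ℝ (Eu N)) (j : ℕ) (x : W) :
    x ∈ (num ε S - (j : ℂ) • 1 : W →L[ℂ] W).ker ↔ num ε S x = (j : ℂ) • x := by
  rw [LinearMap.mem_ker]
  change num ε S x - (j : ℂ) • x = 0 ↔ _
  rw [sub_eq_zero]

theorem deg_idem (S : Submodule ℝ (Eu N)) (j : ℕ) : deg ε S j * deg ε S j = deg ε S j :=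
  Submodule.isIdempotentElem_starProjection _

theorem deg_star (S : Submodule ℝ (Eu N)) (j : ℕ) : star (deg ε S j) = deg ε S j :=
  isSelfAdjoint_starProjection _

theorem num_deg (S : Submodule ℝ (Eu N)) (j : ℕ) (x : W) :
    num ε S (deg ε S j x) = (j : ℂ) • deg ε S j x :=
  (al2_mem S j _).1 (Submodule.starProjection_apply_mem _ x)

theorem deg_eigen (S : Submodule ℝ (Eu N)) {i : ℕ} (j : ℕ) {x : W} (hx : num ε S x = (i : ℂ) • x) :
    deg ε S j x = if i = j then x else 0 := by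
  split_ifs with h
  · subst h
    exact Submodule.starProjection_eq_self_iff.2 ((al2_mem S i x).2 hx)
  · refine (Submodule.starProjection_apply_eq_zero_iff _).2 fun w hw => ?_
    have hw' := (al2_mem S j w).1 hw
    have h1 : ⟪num ε S w, x⟫_ℂ = ⟪w, num ε S x⟫_ℂ := by
      rw [← ContinuousLinearMap.adjoint_inner_right, ← ContinuousLinearMap.star_eq_adjoint,
        num_star]
    rw [hw', hx, inner_smul_left, inner_smul_right, map_natCast] at h1
    have h2 : ((j : ℂ) - i) * ⟪w, x⟫_ℂ = 0 := by rw [sub_mul, h1, sub_self]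
    refine (mul_eq_zero.1 h2).resolve_left fun h3 => h ?_
    exact_mod_cast (sub_eq_zero.1 h3).symm

theorem sum_deg (hε : IsCAR ε) (S : Submodule ℝ (Eu N)) :
    ∑ j ∈ Finset.range (N + 1), deg ε S j = 1 := by
  refine ext_eigen hε S fun i hi x hx => ?_
  rw [sum_apply]
  simp only [deg_eigen S _ hx]
  rw [Finset.sum_ite_eq, if_pos (Finset.mem_range.2 (Nat.lt_succ_of_le hi))]
  rfl

theorem deg_comm (hε : IsCAR ε) (S : Submodule ℝ (Eu N)) (j : ℕ) {A : W →L[ℂ] W}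
    (h : num ε S * A = A * num ε S) : deg ε S j * A = A * deg ε S j := by
  refine ext_eigen hε S fun i hi x hx => ?_
  have h1 : num ε S (A x) = (i : ℂ) • A x := by
    have := congrArg (fun B : W →L[ℂ] W => B x) h
    simp only [mul_apply_eq_comp] at this
    rw [this, hx, map_smul]
  simp only [mul_apply_eq_comp]
  rw [deg_eigen S j h1, deg_eigen S j hx]
  split_ifs
  · rfl
  · rw [map_zero]

theorem al2_comm (hε : IsCAR ε) {S : Submodule ℝ (Eu N)} {v : Eu N} (hv : v ∈ Sᗮ) :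
    num ε S * ε v = ε v * num ε S ∧ num ε S * star (ε v) = star (ε v) * num ε S := by
  have h0 : S.starProjection v = 0 := (Submodule.starProjection_apply_eq_zero_iff S).2 hv
  have h1 := num_comm hε S v
  have h2 := num_comm_star hε S v
  rw [h0, map_zero] at h1 h2
  rw [star_zero] at h2
  exact ⟨sub_eq_zero.1 h1, (sub_eq_zero.1 h2).symm⟩

theorem al2_keep (hε : IsCAR ε) (S : Submodule ℝ (Eu N)) (v : Eu N) {i : ℕ} {x : W}
    (hx : num ε S x = (i : ℂ) • x) :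
    num ε S (ε (v - S.starProjection v) x) = (i : ℂ) • ε (v - S.starProjection v) x := by
  have h := congrArg (fun A : W →L[ℂ] W => A x)
    (al2_comm hε (S.sub_starProjection_mem_orthogonal v)).1
  simp only [mul_apply_eq_comp] at h
  rw [h, hx, map_smul]

theorem al2_raise (hε : IsCAR ε) (S : Submodule ℝ (Eu N)) (v : Eu N) {i : ℕ} {x : W}
    (hx : num ε S x = (i : ℂ) • x) :
    num ε S (ε (S.starProjection v) x) = ((i + 1 : ℕ) : ℂ) • ε (S.starProjection v) x := by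
  have h := congrArg (fun A : W →L[ℂ] W => A x) (num_comm hε S (S.starProjection v))
  have e : S.starProjection (S.starProjection v) = S.starProjection v :=
    Submodule.starProjection_eq_self_iff.2 (S.starProjection_apply_mem v)
  simp only [sub_apply, mul_apply_eq_comp] at h
  rw [e, hx, map_smul, sub_eq_iff_eq_add] at h
  rw [h]
  push_cast
  rw [add_smul, one_smul, add_comm]

theorem al2_sum (hε : IsCAR ε) (S : Submodule ℝ (Eu N)) (v : Eu N) (r : ℕ) {i : ℕ} (hi : i ≤ N)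
    {x : W} (hx : num ε S x = (i : ℂ) • x) :
    (∑ j ∈ Finset.range (N + 1), deg ε S (j + r) * ε v * deg ε S j) x =
      (if i = i + r then ε (v - S.starProjection v) x else 0) +
        if i + 1 = i + r then ε (S.starProjection v) x else 0 := by
  rw [sum_apply, Finset.sum_eq_single i]
  · have e : ε v x = ε (v - S.starProjection v) x + ε (S.starProjection v) x := by
      rw [map_sub, sub_apply, sub_add_cancel]
    simp only [mul_apply_eq_comp]
    rw [deg_eigen S i hx, if_pos rfl, e, map_add, deg_eigen S _ (al2_keep hε S v hx),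
      deg_eigen S _ (al2_raise hε S v hx)]
  · intro j _ hj
    simp only [mul_apply_eq_comp]
    rw [deg_eigen S j hx, if_neg hj.symm, map_zero, map_zero]
  · intro h
    exact absurd (Finset.mem_range.2 (Nat.lt_succ_of_le hi)) h

theorem sum_deg_eps0 (hε : IsCAR ε) (S : Submodule ℝ (Eu N)) (v : Eu N) :
    ∑ j ∈ Finset.range (N + 1), deg ε S (j + 0) * ε v * deg ε S j =
      ε (v - S.starProjection v) := by
  refine ext_eigen hε S fun i hi x hx => ?_
  rw [al2_sum hε S v 0 hi hx, if_pos (add_zero i).symm, if_neg (by omega), add_zero]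

theorem sum_deg_eps1 (hε : IsCAR ε) (S : Submodule ℝ (Eu N)) (v : Eu N) :
    ∑ j ∈ Finset.range (N + 1), deg ε S (j + 1) * ε v * deg ε S j =
      ε (S.starProjection v) := by
  refine ext_eigen hε S fun i hi x hx => ?_
  rw [al2_sum hε S v 1 hi hx, if_neg (by omega), if_pos rfl, zero_add]

theorem deg_comm_eps (hε : IsCAR ε) {S : Submodule ℝ (Eu N)} (j : ℕ) {v : Eu N} (hv : v ∈ Sᗮ) :
    deg ε S j * ε v = ε v * deg ε S j ∧ deg ε S j * star (ε v) = star (ε v) * deg ε S j ∧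
      deg ε S j * cl ε v = cl ε v * deg ε S j := by
  have h1 := deg_comm hε S j (al2_comm hε hv).1
  have h2 := deg_comm hε S j (al2_comm hε hv).2
  refine ⟨h1, h2, ?_⟩
  rw [cl, mul_sub, sub_mul, h1, h2]

theorem deg_comm_deg (hε : IsCAR ε) {S S' : Submodule ℝ (Eu N)} (h : S' ≤ Sᗮ) (i j : ℕ) :
    deg ε S i * deg ε S' j = deg ε S' j * deg ε S i := by
  have h1 : num ε S * num ε S' = num ε S' * num ε S := by
    rw [show num ε S' = ∑ a, ε (S'.starProjection (bs a)) * star (ε (S'.starProjection (bs a)))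
      from rfl, Finset.mul_sum, Finset.sum_mul]
    refine Finset.sum_congr rfl fun a _ => ?_
    obtain ⟨h2, h3⟩ := al2_comm hε (h (S'.starProjection_apply_mem (bs a)))
    rw [← mul_assoc, h2, mul_assoc, h3, mul_assoc]
  exact (deg_comm hε S' j (deg_comm hε S i h1).symm).symm

end Pool.Agent.P.MP_e0a138_an.AD
end
end

-- part Pool.Agent.P.MP_e0a138_an.AL3
section

set_option autoImplicit false
set_option linter.unusedSectionVars false
set_option linter.unusedVariables false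

open MeasureTheory Filter Topology Metric Complex
open scoped ENNReal NNReal ContDiff InnerProductSpace ComplexConjugate

noncomputable section
namespace Pool.Agent.P.MP_e0a138_an.AD

variable {N p q k : ℕ} {W : Type} [NormedAddCommGroup W] [InnerProductSpace ℂ W]
  [FiniteDimensional ℂ W] [CompleteSpace W]

variable {ε : Eu N →L[ℝ] W →L[ℂ] W}

/-- Interpolation polynomial evaluated at an operator. -/
def al3P (j : ℕ) (T : W →L[ℂ] W) : ℕ → W →L[ℂ] W
  | 0 => 1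
  | n + 1 => (if n = j then 1 else ((j : ℂ) - n)⁻¹ • (T - (n : ℂ) • 1)) * al3P j T n

theorem al3P_eigen (j : ℕ) {T : W →L[ℂ] W} {c : ℂ} {x : W} (hx : T x = c • x) (n : ℕ) :
    al3P j T n x =
      (∏ l ∈ Finset.range n, if l = j then 1 else ((j : ℂ) - l)⁻¹ * (c - l)) • x := by
  induction n with
  | zero => simp [al3P]
  | succ n ih =>
    rw [al3P, ContinuousLinearMap.mul_apply, ih, Finset.prod_range_succ, map_smul, mul_smul]
    congr 1
    split_ifs
    · simp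
    · rw [ContinuousLinearMap.smul_apply, ContinuousLinearMap.sub_apply, hx,
        ContinuousLinearMap.smul_apply, ContinuousLinearMap.one_apply, ← sub_smul, mul_smul]

theorem al3_deg (hε : IsCAR ε) (S : Submodule ℝ (Eu N)) (j : ℕ) :
    deg ε S j = al3P j (num ε S) (N + 1) := by
  refine ext_eigen hε S fun i hi x hx => ?_
  rw [deg_eigen S j hx, al3P_eigen j hx]
  split_ifs with h
  · subst h
    rw [Finset.prod_eq_one, one_smul]
    intro l _
    split_ifs with h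
    · rfl
    · refine inv_mul_cancel₀ (sub_ne_zero.2 ?_)
      exact_mod_cast Ne.symm h
  · rw [Finset.prod_eq_zero (Finset.mem_range.2 (Nat.lt_succ_of_le hi)), zero_smul]
    rw [if_neg h, sub_self, mul_zero]

theorem al3P_smooth {E : Type} [NormedAddCommGroup E] [NormedSpace ℝ E] {T : E → W →L[ℂ] W}
    {O : Set E} (h : ContDiffOn ℝ ∞ T O) (j n : ℕ) :
    ContDiffOn ℝ ∞ (fun x => al3P j (T x) n) O := by
  induction n with
  | zero => exact contDiffOn_const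
  | succ n ih =>
    simp only [al3P]
    refine ContDiffOn.mul ?_ ih
    split_ifs
    · exact contDiffOn_const
    · exact (h.sub contDiffOn_const).const_smul _

theorem contDiffOn_num {E : Type} [NormedAddCommGroup E] [NormedSpace ℝ E]
    {S : E → Submodule ℝ (Eu N)} {O : Set E}
    (h : ContDiffOn ℝ ∞ (fun x => (S x).starProjection) O) :
    ContDiffOn ℝ ∞ (fun x => num ε (S x)) O := by
  have h1 : ∀ a, ContDiffOn ℝ ∞ (fun x => ε ((S x).starProjection (bs a))) O := fun a =>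
    ε.contDiff.comp_contDiffOn (h.clm_apply contDiffOn_const)
  exact ContDiffOn.sum fun a _ => (h1 a).mul (contDiffOn_star (h1 a))

theorem contDiffOn_deg (hε : IsCAR ε) {E : Type} [NormedAddCommGroup E] [NormedSpace ℝ E]
    {S : E → Submodule ℝ (Eu N)} {O : Set E}
    (h : ContDiffOn ℝ ∞ (fun x => (S x).starProjection) O) (j : ℕ) :
    ContDiffOn ℝ ∞ (fun x => deg ε (S x) j) O := by
  simp only [al3_deg hε]
  exact al3P_smooth (contDiffOn_num h) j _

end Pool.Agent.P.MP_e0a138_an.AD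
end
end

-- part Pool.Agent.P.MP_e0a138_an.GE2
section

set_option autoImplicit false
set_option linter.unusedSectionVars false
set_option linter.unusedVariables false

open MeasureTheory Filter Topology Metric Complex
open scoped ENNReal NNReal ContDiff InnerProductSpace ComplexConjugate

noncomputable section
namespace Pool.Agent.P.MP_e0a138_an.AD

variable {N p q k : ℕ} {W : Type} [NormedAddCommGroup W] [InnerProductSpace ℂ W]
  [FiniteDimensional ℂ W] [CompleteSpace W]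
variable {A : Atl N p q k} {ε : Eu N →L[ℝ] W →L[ℂ] W}

namespace Atl

theorem JL_smooth (A : Atl N p q k) : ContDiff ℝ ∞ A.JL := contDiff_clm_apply_iff.2 A.J_smooth

theorem jd_apply (i : Fin k) (z w : Eu p × Eu q) :
    A.jd i z w = A.JL (A.ψ i z) (fderiv ℝ (A.ψ i) z w) := rfl

theorem jd_smooth (i : Fin k) : ContDiff ℝ ∞ (A.jd i) :=
  (A.JL_smooth.comp (A.ψ_smooth i)).clm_comp ((A.ψ_smooth i).fderiv_right (m := ∞) (by simp))

theorem jd_inj (i : Fin k) {z : Eu p × Eu q} (hz : z ∈ ball (0 : Eu p × Eu q) 1) :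
    Function.Injective (A.jd i z) := fun _ _ h => dψ_inj i hz (A.J_inj _ h)

theorem jd_trans {i j : Fin k} {z : Eu p × Eu q} (hz : z ∈ ball (0 : Eu p × Eu q) 1)
    (hj : A.ψ i z ∈ A.U j) (w : Eu p × Eu q) : A.jd i z w =
      A.jd j (A.φ j (A.ψ i z)) (fderiv ℝ (fun z => A.φ j (A.ψ i z)) z w) := by
  rw [jd_apply, jd_apply, (φ_mem (ψ_mem i hz).1 hj).2, dψ_trans hz hj]

theorem T_eq' (i : Fin k) {z : Eu p × Eu q} (hz : z ∈ ball (0 : Eu p × Eu q) 1) :
    A.T (A.ψ i z) = (A.jd i z).range := Submodule.ext (A.T_eq i z hz)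

theorem F_eq' (i : Fin k) {z : Eu p × Eu q} (hz : z ∈ ball (0 : Eu p × Eu q) 1) :
    A.F (A.ψ i z) = (A.jd i z ∘L ContinuousLinearMap.inl ℝ (Eu p) (Eu q)).range :=
  Submodule.ext (A.F_eq i z hz)

theorem J_surj (m : Eu N) : Function.Surjective (A.JL m) :=
  LinearMap.injective_iff_surjective.1 (show Function.Injective (A.JL m : Eu N →ₗ[ℝ] Eu N) from
    A.J_inj m)

theorem adjJ_inv (m : Eu N) : (ContinuousLinearMap.adjoint (A.JL m)).IsInvertible := by
  have h : Function.Injective (ContinuousLinearMap.adjoint (A.JL m)) := by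
    refine (injective_iff_map_eq_zero _).2 fun v hv => ?_
    obtain ⟨w, rfl⟩ := J_surj (A := A) m v
    have h1 := ContinuousLinearMap.adjoint_inner_left (A.JL m) w (A.JL m w)
    rw [hv, inner_zero_left] at h1
    exact inner_self_eq_zero.1 h1.symm
  exact ⟨(LinearEquiv.ofInjectiveEndo (ContinuousLinearMap.adjoint (A.JL m)).toLinearMap
    h).toContinuousLinearEquiv, ContinuousLinearMap.ext fun _ => rfl⟩

theorem inner_inv (m ξ v : Eu N) :
    ⟪(ContinuousLinearMap.adjoint (A.JL m)).inverse ξ, A.JL m v⟫_ℝ = ⟪ξ, v⟫_ℝ := by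
  rw [← ContinuousLinearMap.adjoint_inner_left, (adjJ_inv m).self_apply_inverse]

theorem inv_smooth (A : Atl N p q k) :
    ContDiff ℝ ∞ fun m => (ContinuousLinearMap.adjoint (A.JL m)).inverse := by
  have hA : ContDiff ℝ ∞ fun m => ContinuousLinearMap.adjoint (A.JL m) := AN12_adj.comp A.JL_smooth
  refine contDiff_iff_contDiffAt.2 fun m => ?_
  obtain ⟨e, he⟩ := adjJ_inv (A := A) m
  have h1 := contDiffAt_map_inverse (n := ∞) e
  rw [he] at h1
  exact h1.comp m hA.contDiffAt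

theorem F_le_T {m : Eu N} (hm : m ∈ A.M) : A.F m ≤ A.T m := by
  obtain ⟨i, z, hz, rfl⟩ := exists_chart hm
  rw [F_eq' i hz, T_eq' i hz]
  rintro _ ⟨x, rfl⟩
  exact ⟨_, rfl⟩

theorem projT_eq {m : Eu N} (hm : m ∈ A.M) (v : Eu N) :
    (A.T m).starProjection v = (A.F m).starProjection v + (A.H m).starProjection v := by
  have hF := F_le_T hm
  have h1 : (A.H m).starProjection v =
      (A.T m).starProjection v - (A.F m).starProjection v := by
    refine Submodule.eq_starProjection_of_mem_of_inner_eq_zero ⟨?_, ?_⟩ fun w hw => ?_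
    · refine (Submodule.mem_orthogonal' _ _).2 fun w hw => ?_
      have a1 := Submodule.starProjection_inner_eq_zero (K := A.T m) v w (hF hw)
      have a2 := Submodule.starProjection_inner_eq_zero (K := A.F m) v w hw
      rw [inner_sub_left] at a1 a2 ⊢
      linarith
    · exact (A.T m).sub_mem (Submodule.starProjection_apply_mem _ _)
        (hF (Submodule.starProjection_apply_mem _ _))
    · have a1 := Submodule.starProjection_inner_eq_zero (K := A.T m) v w hw.2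
      have a2 : ⟪(A.F m).starProjection v, w⟫_ℝ = 0 :=
        (Submodule.mem_orthogonal _ _).1 hw.1 _ (Submodule.starProjection_apply_mem _ _)
      rw [inner_sub_left] at a1
      rw [inner_sub_left, inner_sub_left]
      linarith
  rw [h1]
  abel

theorem sub_projH {m : Eu N} (hm : m ∈ A.M) {v : Eu N} (hv : v ∈ A.T m) :
    v - (A.H m).starProjection v = (A.F m).starProjection v := by
  have h := projT_eq hm v
  rw [(Submodule.starProjection_eq_self_iff).2 hv] at h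
  exact sub_eq_iff_eq_add.2 h

theorem subB_F (A : Atl N p q k) : A.SubB A.F := by
  refine ⟨contDiffOn_iff.2 fun i => ?_, fun m hm => F_le_T hm⟩
  have h1 : ContDiffOn ℝ ∞ (fun z => A.jd i z ∘L
      ContinuousLinearMap.inl ℝ (Eu p) (Eu q)) (ball 0 1) :=
    ((jd_smooth i).clm_comp contDiff_const).contDiffOn
  refine (contDiffOn_starProjection h1 fun z hz a b hab => ?_).congr fun z hz => ?_
  · exact (Prod.ext_iff.1 (jd_inj i hz hab)).1
  · simp only [F_eq' i hz]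

theorem subB_T (A : Atl N p q k) : A.SubB A.T := by
  refine ⟨contDiffOn_iff.2 fun i => ?_, fun m hm => le_rfl⟩
  let e : Eu (p + q) ≃L[ℝ] Eu p × Eu q := ContinuousLinearEquiv.ofFinrankEq
    (by rw [Module.finrank_prod, finrank_Eu, finrank_Eu, finrank_Eu])
  have h1 : ContDiffOn ℝ ∞ (fun z => A.jd i z ∘L
      (e : Eu (p + q) →L[ℝ] Eu p × Eu q)) (ball 0 1) :=
    ((jd_smooth i).clm_comp contDiff_const).contDiffOn
  refine (contDiffOn_starProjection h1 fun z hz a b hab => ?_).congr fun z hz => ?_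
  · exact e.injective (jd_inj i hz hab)
  · have h2 : A.T (A.ψ i z) =
        (A.jd i z ∘L (e : Eu (p + q) →L[ℝ] Eu p × Eu q)).range := by
      rw [T_eq' i hz]
      apply le_antisymm
      · rintro _ ⟨x, rfl⟩
        exact ⟨e.symm x, by simp⟩
      · rintro _ ⟨x, rfl⟩
        exact ⟨_, rfl⟩
    simp only [h2]

theorem subB_H (A : Atl N p q k) : A.SubB A.H := by
  refine ⟨(A.subB_T.1.sub A.subB_F.1).congr fun m hm => ?_, fun m hm => inf_le_right⟩
  ext1 v
  change _ = (A.T m).starProjection v - (A.F m).starProjection v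
  rw [projT_eq hm v]
  abel

theorem smooth_Pi (A : Atl N p q k) (hε : IsCAR ε) : ContDiffOn ℝ ∞ (A.Pi ε) A.M := by
  refine contDiffOn_deg hε (S := fun m => (A.T m)ᗮ) ?_ 0
  refine ((contDiffOn_const (c := (1 : Eu N →L[ℝ] Eu N))).sub A.subB_T.1).congr fun m _ => ?_
  exact Submodule.starProjection_orthogonal' _

theorem smooth_degH (A : Atl N p q k) (hε : IsCAR ε) (j : ℕ) :
    ContDiffOn ℝ ∞ (fun m => deg ε (A.H m) j) A.M := contDiffOn_deg hε A.subB_H.1 j

theorem Pi_idem (m : Eu N) : A.Pi ε m * A.Pi ε m = A.Pi ε m := deg_idem _ _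

theorem Pi_star (m : Eu N) : star (A.Pi ε m) = A.Pi ε m := deg_star _ _

theorem Pi_comm (hε : IsCAR ε) {m v : Eu N} (hv : v ∈ A.T m) :
    A.Pi ε m * ε v = ε v * A.Pi ε m ∧ A.Pi ε m * ioL ε v = ioL ε v * A.Pi ε m ∧
      A.Pi ε m * cl ε v = cl ε v * A.Pi ε m := by
  obtain ⟨h1, h2, h3⟩ := deg_comm_eps hε (S := (A.T m)ᗮ) 0 ((A.T m).le_orthogonal_orthogonal hv)
  refine ⟨h1, ?_, h3⟩
  rw [ioL_apply, mul_neg, neg_mul]
  exact congrArg Neg.neg h2

theorem Pi_comm_degH (hε : IsCAR ε) (m : Eu N) (j : ℕ) :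
    A.Pi ε m * deg ε (A.H m) j = deg ε (A.H m) j * A.Pi ε m := deg_comm_deg hε (S := (A.T m)ᗮ) (S' := A.H m)
      (inf_le_right.trans (A.T m).le_orthogonal_orthogonal) 0 j

end Atl

end Pool.Agent.P.MP_e0a138_an.AD
end
end

-- part Pool.Agent.P.MP_e0a138_an.GE3
section

set_option autoImplicit false
set_option linter.unusedSectionVars false
set_option linter.unusedVariables false

open MeasureTheory Filter Topology Metric Complex
open scoped ENNReal NNReal ContDiff InnerProductSpace ComplexConjugate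

noncomputable section
namespace Pool.Agent.P.MP_e0a138_an.AD

variable {N p q k : ℕ} {W : Type} [NormedAddCommGroup W] [InnerProductSpace ℂ W]
  [FiniteDimensional ℂ W] [CompleteSpace W]
variable {A : Atl N p q k} {ε : Eu N →L[ℝ] W →L[ℂ] W}

namespace Atl

theorem GE3_eq_of_inner {S : Submodule ℝ (Eu N)} {t t' : Eu N} (ht : t ∈ S) (ht' : t' ∈ S)
    (h : ∀ w ∈ S, ⟪t, w⟫_ℝ = ⟪t', w⟫_ℝ) : t = t' := by
  have h1 := h (t - t') (S.sub_mem ht ht')
  rw [← sub_eq_zero, ← inner_sub_left, inner_self_eq_zero] at h1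
  exact sub_eq_zero.1 h1

theorem inner_shp0 {m t : Eu N} (ξ : Eu N) (ht : A.JL m t ∈ A.T m) :
    ⟪(A.T m).starProjection ((ContinuousLinearMap.adjoint (A.JL m)).inverse ξ), A.JL m t⟫_ℝ =
      ⟪ξ, t⟫_ℝ := by
  rw [Submodule.inner_starProjection_left_eq_right, Submodule.starProjection_eq_self_iff.2 ht,
    inner_inv]

theorem shp_spec (m ξ : Eu N) :
    A.shp m ξ ∈ A.T m ∧ ∀ v, A.J m v ∈ A.T m → ⟪A.shp m ξ, A.J m v⟫_ℝ = ⟪ξ, v⟫_ℝ :=
  Classical.epsilon_spec (p := fun t => t ∈ A.T m ∧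
    ∀ v, A.J m v ∈ A.T m → ⟪t, A.J m v⟫_ℝ = ⟪ξ, v⟫_ℝ)
    ⟨_, Submodule.starProjection_apply_mem _ _, fun _ hv => inner_shp0 ξ hv⟩

theorem shp_mem (m ξ : Eu N) : A.shp m ξ ∈ A.T m := (shp_spec m ξ).1

theorem inner_shp {m t : Eu N} (ξ : Eu N) (ht : A.JL m t ∈ A.T m) :
    ⟪A.shp m ξ, A.JL m t⟫_ℝ = ⟪ξ, t⟫_ℝ := (shp_spec m ξ).2 t ht

theorem shp_eq (m ξ : Eu N) :
    A.shp m ξ = (A.T m).starProjection ((ContinuousLinearMap.adjoint (A.JL m)).inverse ξ) := by
  refine GE3_eq_of_inner (shp_mem m ξ) (Submodule.starProjection_apply_mem _ _) fun w hw => ?_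
  obtain ⟨w, rfl⟩ := J_surj (A := A) m w
  rw [inner_shp _ hw, inner_shp0 _ hw]

theorem smooth_shp {f : Eu N → Eu N} (hf : ContDiffOn ℝ ∞ f A.M) :
    ContDiffOn ℝ ∞ (fun m => A.shp m (f m)) A.M :=
  (A.subB_T.1.clm_apply (A.inv_smooth.contDiffOn.clm_apply hf)).congr fun m _ => shp_eq m _

theorem gr_mem (i : Fin k) (a : Fin p ⊕ Fin q) (m : Eu N) : A.gr i a m ∈ A.T m :=
  shp_mem _ _

theorem cov_mem (i : Fin k) (η : Eu q) (m : Eu N) : A.cov i η m ∈ A.T m :=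
  shp_mem _ _

theorem dψ_mem (i : Fin k) {z : Eu p × Eu q} (hz : z ∈ ball (0 : Eu p × Eu q) 1)
    (w : Eu p × Eu q) : A.jd i z w ∈ A.T (A.ψ i z) := by
  rw [T_eq' i hz]
  exact ⟨w, rfl⟩

theorem dψ_mem' (i : Fin k) {z : Eu p × Eu q} (hz : z ∈ ball (0 : Eu p × Eu q) 1)
    (w : Eu p × Eu q) : A.JL (A.ψ i z) (fderiv ℝ (A.ψ i) z w) ∈ A.T (A.ψ i z) := dψ_mem i hz w

theorem GE3_fderiv (j : Fin k) (L : Eu p × Eu q →L[ℝ] ℝ) (m : Eu N) :
    fderiv ℝ (fun n => L (A.φ j n)) m = L ∘L fderiv ℝ (A.φ j) m :=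
  (L.hasFDerivAt.comp m
    (((A.φ_smooth j).differentiable (by simp)).differentiableAt.hasFDerivAt)).fderiv

theorem GE3_inner (j : Fin k) (L : Eu p × Eu q →L[ℝ] ℝ) {m t : Eu N} (ht : A.JL m t ∈ A.T m) :
    ⟪A.shp m (gradient (fun n => L (A.φ j n)) m), A.JL m t⟫_ℝ =
      L (fderiv ℝ (A.φ j) m t) := by
  rw [inner_shp _ ht, inner_gradient_left, GE3_fderiv]
  rfl

theorem GE3_gr (i : Fin k) (a : Fin p ⊕ Fin q) (m : Eu N) :
    A.gr i a m = A.shp m (gradient (fun n => crdL a (A.φ i n)) m) := by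
  simp only [gr, crdL_apply]

theorem GE3_cov (i : Fin k) (η : Eu q) (m : Eu N) :
    A.cov i η m = A.shp m (gradient (fun n =>
      (innerSL ℝ η ∘L ContinuousLinearMap.snd ℝ (Eu p) (Eu q)) (A.φ i n)) m) := rfl

theorem GE3_inner_gr (i : Fin k) (a : Fin p ⊕ Fin q) {m t : Eu N} (ht : A.JL m t ∈ A.T m) :
    ⟪A.gr i a m, A.JL m t⟫_ℝ = crd a (fderiv ℝ (A.φ i) m t) := by
  rw [GE3_gr, GE3_inner i _ ht, crdL_apply]

theorem inner_gr (i : Fin k) (a : Fin p ⊕ Fin q) {z : Eu p × Eu q}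
    (hz : z ∈ ball (0 : Eu p × Eu q) 1) (w : Eu p × Eu q) :
    ⟪A.gr i a (A.ψ i z), A.jd i z w⟫_ℝ = crd a w := by
  rw [jd_apply, GE3_inner_gr i a (dψ_mem' i hz w), dφ_dψ i hz]

theorem inner_cov_gen (j : Fin k) (η : Eu q) {m t : Eu N} (ht : A.JL m t ∈ A.T m) :
    ⟪A.cov j η m, A.JL m t⟫_ℝ = ⟪η, (fderiv ℝ (A.φ j) m t).2⟫_ℝ := by
  rw [GE3_cov, GE3_inner j _ ht]
  rfl

theorem inner_cov (i : Fin k) (η : Eu q) {z : Eu p × Eu q} (hz : z ∈ ball (0 : Eu p × Eu q) 1)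
    (w : Eu p × Eu q) : ⟪A.cov i η (A.ψ i z), A.jd i z w⟫_ℝ = ⟪η, w.2⟫_ℝ := by
  rw [jd_apply, inner_cov_gen i η (dψ_mem' i hz w), dφ_dψ i hz]

theorem eq_of_inner_dψ (i : Fin k) {z : Eu p × Eu q} (hz : z ∈ ball (0 : Eu p × Eu q) 1)
    {t t' : Eu N} (ht : t ∈ A.T (A.ψ i z)) (ht' : t' ∈ A.T (A.ψ i z))
    (h : ∀ w, ⟪t, A.jd i z w⟫_ℝ = ⟪t', A.jd i z w⟫_ℝ) : t = t' := by
  refine GE3_eq_of_inner ht ht' fun w hw => ?_
  rw [T_eq' i hz] at hw
  obtain ⟨w', rfl⟩ := hw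
  exact h w'

theorem cov_eq_sum (i : Fin k) (η : Eu q) (m : Eu N) :
    A.cov i η m = ∑ l, ⟪bs l, η⟫_ℝ • A.gr i (.inr l) m := by
  refine GE3_eq_of_inner (S := A.T m) (cov_mem i η m)
    (Submodule.sum_mem _ fun l _ => Submodule.smul_mem _ _ (gr_mem i _ m)) fun w hw => ?_
  obtain ⟨w, rfl⟩ := J_surj (A := A) m w
  rw [inner_cov_gen i η hw, sum_inner, ← sum_inner_bs]
  refine Finset.sum_congr rfl fun l _ => ?_
  rw [real_inner_smul_left, GE3_inner_gr i _ hw]
  rfl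

theorem tangent_eq (i : Fin k) {z : Eu p × Eu q} (hz : z ∈ ball (0 : Eu p × Eu q) 1) {t : Eu N}
    (ht : t ∈ A.T (A.ψ i z)) :
    t = A.jd i z (∑ a, ⟪A.gr i a (A.ψ i z), t⟫_ℝ • cb a) := by
  rw [T_eq' i hz] at ht
  obtain ⟨w, rfl⟩ := ht
  have h : ∀ a, ⟪A.gr i a (A.ψ i z), (A.jd i z : _ →ₗ[ℝ] _) w⟫_ℝ = crd a w :=
    fun a => inner_gr i a hz w
  simp only [h, sum_cb]
  rfl

theorem gr_inr_mem_H (i : Fin k) (l : Fin q) {z : Eu p × Eu q}
    (hz : z ∈ ball (0 : Eu p × Eu q) 1) : A.gr i (.inr l) (A.ψ i z) ∈ A.H (A.ψ i z) := by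
  refine ⟨?_, gr_mem i _ _⟩
  rw [F_eq' i hz]
  refine (Submodule.mem_orthogonal' _ _).2 ?_
  rintro u ⟨x, rfl⟩
  have h := inner_gr (A := A) i (.inr l) hz (x, 0)
  have h0 : crd (p := p) (.inr l) (x, 0) = 0 := by simp [crd]
  rw [h0] at h
  exact h

theorem sy_F_inr (c : Eu N →L[ℝ] W →L[ℂ] W) (i : Fin k) (l : Fin q) {z : Eu p × Eu q}
    (hz : z ∈ ball (0 : Eu p × Eu q) 1) : A.sy c A.F i (.inr l) z = 0 := by
  have h : (A.F (A.ψ i z)).starProjection (A.gr i (.inr l) (A.ψ i z)) = 0 :=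
    (Submodule.starProjection_apply_eq_zero_iff _).2 (gr_inr_mem_H i l hz).1
  rw [sy, h, map_zero]

theorem sy_H_inr (c : Eu N →L[ℝ] W →L[ℂ] W) (i : Fin k) (l : Fin q) {z : Eu p × Eu q}
    (hz : z ∈ ball (0 : Eu p × Eu q) 1) :
    A.sy c A.H i (.inr l) z = c (A.gr i (.inr l) (A.ψ i z)) := by
  rw [sy, Submodule.starProjection_eq_self_iff.2 (gr_inr_mem_H i l hz)]

theorem GE3_smooth (i : Fin k) (L : Eu p × Eu q →L[ℝ] ℝ) : ContDiffOn ℝ ∞
    (fun m => A.shp m (gradient (fun n => L (A.φ i n)) m)) A.M := by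
  have h1 : ContDiff ℝ ∞ (fun n => L (A.φ i n)) := L.contDiff.comp (A.φ_smooth i)
  have h2 : ContDiff ℝ ∞ (fderiv ℝ (fun n => L (A.φ i n))) := h1.fderiv_right (by simp)
  have h3 : ContDiff ℝ ∞ (fun m => gradient (fun n => L (A.φ i n)) m) :=
    (InnerProductSpace.toDual ℝ (Eu N)).symm.toContinuousLinearEquiv.contDiff.comp h2
  exact smooth_shp h3.contDiffOn

theorem smooth_gr (i : Fin k) (a : Fin p ⊕ Fin q) : ContDiffOn ℝ ∞ (A.gr i a) A.M :=
  (GE3_smooth i (crdL a)).congr fun m _ => GE3_gr i a m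

theorem smooth_cov (i : Fin k) (η : Eu q) : ContDiffOn ℝ ∞ (A.cov i η) A.M :=
  (GE3_smooth i _).congr fun m _ => GE3_cov i η m

theorem smooth_sy (c : Eu N →L[ℝ] W →L[ℂ] W) {Q : Eu N → Submodule ℝ (Eu N)} (hQ : A.SubB Q)
    (i : Fin k) (a : Fin p ⊕ Fin q) : ContDiffOn ℝ ∞ (A.sy c Q i a) (ball 0 1) := by
  have h : ContDiffOn ℝ ∞ (fun m => c ((Q m).starProjection (A.gr i a m))) A.M :=
    c.contDiff.comp_contDiffOn (hQ.1.clm_apply (smooth_gr i a))
  exact contDiffOn_iff.1 h i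

theorem sy_comm (hε : IsCAR ε) {Q : Eu N → Submodule ℝ (Eu N)} (hQ : A.SubB Q) (i : Fin k)
    (a : Fin p ⊕ Fin q) {z : Eu p × Eu q} (hz : z ∈ ball (0 : Eu p × Eu q) 1) :
    A.Pi ε (A.ψ i z) * A.sy ε Q i a z = A.sy ε Q i a z * A.Pi ε (A.ψ i z) ∧
    A.Pi ε (A.ψ i z) * A.sy (ioL ε) Q i a z = A.sy (ioL ε) Q i a z * A.Pi ε (A.ψ i z) ∧
    A.Pi ε (A.ψ i z) * A.sy (clL ε) Q i a z = A.sy (clL ε) Q i a z * A.Pi ε (A.ψ i z) := by
  have hv : (Q (A.ψ i z)).starProjection (A.gr i a (A.ψ i z)) ∈ A.T (A.ψ i z) :=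
    hQ.2 _ (ψ_mem i hz).1 (Submodule.starProjection_apply_mem _ _)
  have h := Pi_comm (A := A) hε hv
  refine ⟨h.1, h.2.1, ?_⟩
  rw [sy, clL_apply]
  exact h.2.2

end Atl

end Pool.Agent.P.MP_e0a138_an.AD
end
end

-- part Pool.Agent.P.MP_e0a138_an.GE4
section

set_option autoImplicit false
set_option linter.unusedSectionVars false
set_option linter.unusedVariables false

open MeasureTheory Filter Topology Metric Complex
open scoped ENNReal NNReal ContDiff InnerProductSpace ComplexConjugate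

noncomputable section
namespace Pool.Agent.P.MP_e0a138_an.AD

variable {N p q k : ℕ} {W : Type} [NormedAddCommGroup W] [InnerProductSpace ℂ W]
  [FiniteDimensional ℂ W] [CompleteSpace W]
variable {A : Atl N p q k}

namespace Atl

theorem GE4_chain (i j : Fin k) (z w : Eu p × Eu q) :
    fderiv ℝ (fun z => A.φ j (A.ψ i z)) z w =
      fderiv ℝ (A.φ j) (A.ψ i z) (fderiv ℝ (A.ψ i) z w) := by
  have h : fderiv ℝ (fun z => A.φ j (A.ψ i z)) z = _ :=
    fderiv_comp z ((A.φ_smooth j).differentiable (by simp) _)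
      ((A.ψ_smooth i).differentiable (by simp) z)
  rw [h]
  rfl

theorem GE4_has (i j : Fin k) (z : Eu p × Eu q) : HasFDerivAt (A.tau i j)
    (ContinuousLinearMap.snd ℝ (Eu p) (Eu q) ∘L fderiv ℝ (fun z => A.φ j (A.ψ i z)) z) z :=
  (((A.φ_smooth j).comp (A.ψ_smooth i)).differentiable (by simp) z).hasFDerivAt.snd

theorem GE4_dta (i j : Fin k) (z : Eu p × Eu q) (v : Eu q) :
    A.dta i j z v = (fderiv ℝ (fun z => A.φ j (A.ψ i z)) z (0, v)).2 := by
  have h : fderiv ℝ (fun Y => A.tau i j (z.1, Y)) z.2 = _ :=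
    ((GE4_has (A := A) i j (z.1, z.2)).comp z.2 (hasFDerivAt_prodMk_right z.1 z.2)).fderiv
  rw [dta, h]
  rfl

theorem GE4_mem {i : Fin k} {z : Eu p × Eu q} (hz : z ∈ ball (0 : Eu p × Eu q) 1) {v : Eu N} :
    v ∈ A.F (A.ψ i z) ↔ ∃ x, A.jd i z (x, 0) = v := by
  rw [F_eq' i hz]
  exact Iff.rfl

theorem tau_smooth (i j : Fin k) : ContDiff ℝ ∞ (A.tau i j) :=
  contDiff_snd.comp ((A.φ_smooth j).comp (A.ψ_smooth i))

theorem dtrans_fst {i j : Fin k} {z : Eu p × Eu q} (hz : z ∈ ball (0 : Eu p × Eu q) 1)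
    (hj : A.ψ i z ∈ A.U j) (x : Eu p) :
    (fderiv ℝ (fun z => A.φ j (A.ψ i z)) z (x, 0)).2 = 0 := by
  obtain ⟨h1, h2⟩ := φ_mem (ψ_mem i hz).1 hj
  have h3 : A.jd i z (x, 0) ∈ A.F (A.ψ j (A.φ j (A.ψ i z))) := by
    rw [h2]
    exact (GE4_mem hz).2 ⟨x, rfl⟩
  obtain ⟨x', hx'⟩ := (GE4_mem h1).1 h3
  rw [jd_trans hz hj] at hx'
  rw [← jd_inj j h1 hx']

theorem dtrans_snd {i j : Fin k} {z : Eu p × Eu q} (hz : z ∈ ball (0 : Eu p × Eu q) 1)
    (hj : A.ψ i z ∈ A.U j) (w : Eu p × Eu q) :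
    (fderiv ℝ (fun z => A.φ j (A.ψ i z)) z w).2 = A.dta i j z w.2 := by
  have e : w = (w.1, 0) + (0, w.2) := by simp
  rw [GE4_dta]
  conv_lhs => rw [e, map_add, Prod.snd_add, dtrans_fst hz hj, zero_add]

theorem tau_loc {i j : Fin k} {z : Eu p × Eu q} (hz : z ∈ ball (0 : Eu p × Eu q) 1)
    (hj : A.ψ i z ∈ A.U j) : ∀ᶠ x in 𝓝 z.1, (x, z.2) ∈ ball (0 : Eu p × Eu q) 1 ∧
      A.ψ i (x, z.2) ∈ A.U j ∧ (∀ᶠ Y in 𝓝 z.2, A.tau i j (x, Y) = A.tau i j (z.1, Y)) ∧
      A.tau i j (x, z.2) = A.tau i j z ∧ A.dta i j (x, z.2) = A.dta i j z := by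
  obtain ⟨δ, hδ, hb⟩ := Metric.eventually_nhds_iff_ball.1 (trans_ev hz hj)
  have hm : ∀ x ∈ ball z.1 δ, ∀ Y ∈ ball z.2 δ, (x, Y) ∈ ball z δ := fun x hx Y hY => by
    have e : ball z.1 δ ×ˢ ball z.2 δ = ball z δ := ball_prod_same z.1 z.2 δ
    rw [← e]
    exact ⟨hx, hY⟩
  have hc : ∀ Y ∈ ball z.2 δ, ∀ x ∈ ball z.1 δ, A.tau i j (x, Y) = A.tau i j (z.1, Y) := by
    intro Y hY x hx
    have hd := fun x : Eu p =>
      (GE4_has (A := A) i j (x, Y)).comp x (hasFDerivAt_prodMk_left (𝕜 := ℝ) x Y)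
    refine isOpen_ball.is_const_of_fderiv_eq_zero (𝕜 := ℝ) (convex_ball z.1 δ).isPreconnected
      (f := fun x => A.tau i j (x, Y)) (fun x _ => (hd x).differentiableAt.differentiableWithinAt)
      (fun x hx => ?_) hx (mem_ball_self hδ)
    refine (hd x).fderiv.trans ?_
    ext v
    exact dtrans_fst (hb _ (hm x hx Y hY)).1 (hb _ (hm x hx Y hY)).2.1 v
  filter_upwards [ball_mem_nhds z.1 hδ] with x hx
  have h1 := hb _ (hm x hx z.2 (mem_ball_self hδ))
  have h2 : ∀ᶠ Y in 𝓝 z.2, A.tau i j (x, Y) = A.tau i j (z.1, Y) := by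
    filter_upwards [ball_mem_nhds z.2 hδ] with Y hY using hc Y hY x hx
  exact ⟨h1.1, h1.2.1, h2, h2.self_of_nhds, Filter.EventuallyEq.fderiv_eq h2⟩

theorem dta_equiv {i j : Fin k} {z : Eu p × Eu q} (hz : z ∈ ball (0 : Eu p × Eu q) 1)
    (hj : A.ψ i z ∈ A.U j) :
    ∃ e : Eu q ≃L[ℝ] Eu q, (e : Eu q →L[ℝ] Eu q) = A.dta i j z := by
  have hinj : Function.Injective (A.dta i j z) := by
    refine (injective_iff_map_eq_zero _).2 fun w hw => ?_
    obtain ⟨h1, h2⟩ := φ_mem (ψ_mem i hz).1 hj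
    rw [GE4_dta] at hw
    have h3 : A.jd i z (0, w) ∈ A.F (A.ψ j (A.φ j (A.ψ i z))) := by
      refine (GE4_mem h1).2 ⟨(fderiv ℝ (fun z => A.φ j (A.ψ i z)) z (0, w)).1, ?_⟩
      rw [jd_trans hz hj, ← hw]
    rw [h2] at h3
    obtain ⟨x, hx⟩ := (GE4_mem hz).1 h3
    exact (congrArg Prod.snd (jd_inj i hz hx)).symm
  exact ⟨(LinearEquiv.ofInjectiveEndo (A.dta i j z).toLinearMap hinj).toContinuousLinearEquiv,
    ContinuousLinearMap.ext fun _ => rfl⟩

theorem tau_self (i : Fin k) {z : Eu p × Eu q} (hz : z ∈ ball (0 : Eu p × Eu q) 1) :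
    A.tau i i z = z.2 ∧ A.dta i i z = ContinuousLinearMap.id ℝ _ := by
  refine ⟨congrArg Prod.snd (A.left_inv i z hz), ContinuousLinearMap.ext fun v => ?_⟩
  rw [GE4_dta, GE4_chain, dφ_dψ i hz]
  rfl

theorem cov_trans {i j : Fin k} {z : Eu p × Eu q} (hz : z ∈ ball (0 : Eu p × Eu q) 1)
    (hj : A.ψ i z ∈ A.U j) (η : Eu q) : A.cov j η (A.ψ i z) =
      A.cov i (ContinuousLinearMap.adjoint (A.dta i j z) η) (A.ψ i z) := by
  refine eq_of_inner_dψ i hz (cov_mem _ _ _) (cov_mem _ _ _) fun w => ?_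
  rw [inner_cov i _ hz, jd_apply, inner_cov_gen j η (dψ_mem' i hz w), ← GE4_chain,
    dtrans_snd hz hj, ContinuousLinearMap.adjoint_inner_left]

theorem cov_inj {i : Fin k} {z : Eu p × Eu q} (hz : z ∈ ball (0 : Eu p × Eu q) 1) {η η' : Eu q}
    (h : A.cov i η (A.ψ i z) = A.cov i η' (A.ψ i z)) : η = η' := by
  refine ext_inner_right ℝ fun v => ?_
  rw [← inner_cov (A := A) i η hz (0, v), h, inner_cov i η' hz]

end Atl

end Pool.Agent.P.MP_e0a138_an.AD
end
end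

-- part Pool.Agent.P.MP_e0a138_an.AB1
section

set_option autoImplicit false
set_option linter.unusedSectionVars false
set_option linter.unusedVariables false

open MeasureTheory Filter Topology Metric Complex
open scoped ENNReal NNReal ContDiff InnerProductSpace ComplexConjugate

noncomputable section
namespace Pool.Agent.P.MP_e0a138_an.AD

variable {H : Type} [NormedAddCommGroup H] [InnerProductSpace ℂ H] [CompleteSpace H]

theorem mem_closure_of_perp (T : Set H) (v : H)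
    (h : ∀ w, (∀ s ∈ T, ⟪s, w⟫_ℂ = 0) → ⟪w, v⟫_ℂ = 0) :
    v ∈ (Submodule.span ℂ T).topologicalClosure := by
  rw [← Submodule.orthogonal_orthogonal_eq_closure, Submodule.mem_orthogonal]
  intro w hw
  exact h w fun s hs => Submodule.inner_right_of_mem_orthogonal (Submodule.subset_span hs) hw

theorem AB1_decomp (T : Set H) (v : H) :
    ∃ v₁ v₂, v = v₁ + v₂ ∧ v₁ ∈ (Submodule.span ℂ T).topologicalClosure ∧
      (∀ s ∈ T, ⟪s, v₂⟫_ℂ = 0) ∧ ‖v₁‖ ≤ ‖v‖ := by
  set K := (Submodule.span ℂ T).topologicalClosure with hK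
  have : CompleteSpace K := (Submodule.isClosed_topologicalClosure _).completeSpace_coe
  refine ⟨K.starProjection v, v - K.starProjection v, by abel, K.starProjection_apply_mem v,
    fun s hs => ?_, K.norm_starProjection_apply_le v⟩
  exact Submodule.inner_right_of_mem_orthogonal
    (Submodule.le_topologicalClosure _ (Submodule.subset_span hs))
    (K.sub_starProjection_mem_orthogonal v)

theorem ext_perp {H' : Type} [NormedAddCommGroup H'] [NormedSpace ℂ H'] (T : Set H)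
    (A B : H →L[ℂ] H') (h1 : ∀ s ∈ T, A s = B s)
    (h2 : ∀ v, (∀ s ∈ T, ⟪s, v⟫_ℂ = 0) → A v = B v) : A = B := by
  ext v
  obtain ⟨v₁, v₂, rfl, hv₁, hv₂⟩ := AB1_decomp T v
  have hle : (Submodule.span ℂ T).topologicalClosure ≤ LinearMap.ker (A - B : H →L[ℂ] H').toLinearMap := by
    refine Submodule.topologicalClosure_minimal _ (Submodule.span_le.2 fun s hs => ?_)
      (A - B).isClosed_ker
    simp [h1 s hs]
  have h3 : A v₁ = B v₁ := by simpa [sub_eq_zero] using hle hv₁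
  rw [map_add, map_add, h3, h2 v₂ hv₂.1]

theorem Sym.span {G : Set (H × H)} (hG : Sym G) : Sym (Submodule.span ℂ G : Set (H × H)) := by
  intro a ha b hb
  induction ha using Submodule.span_induction with
  | mem a ha =>
    induction hb using Submodule.span_induction with
    | mem b hb => exact hG a ha b hb
    | zero => simp
    | add x y _ _ hx hy => simp [inner_add_right, hx, hy]
    | smul c x _ hx => simp [inner_smul_right, hx]
  | zero => simp
  | add x y _ _ hx hy => simp [inner_add_left, hx, hy]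
  | smul c x _ hx => simp [inner_smul_left, hx]

theorem Sym.norm_sq {G : Set (H × H)} (hG : Sym G) {a : H × H} (ha : a ∈ Submodule.span ℂ G)
    {s : ℂ} (hs : s ∈ ({I, -I} : Set ℂ)) : ‖a.2 + s • a.1‖ ^ 2 = ‖a.1‖ ^ 2 + ‖a.2‖ ^ 2 := by
  have h1 : ⟪a.2, a.1⟫_ℂ = ⟪a.1, a.2⟫_ℂ := hG.span a ha a ha
  have h2 : (⟪a.2, a.1⟫_ℂ).im = 0 := by
    rw [← Complex.conj_eq_iff_im, inner_conj_symm, h1]
  rw [@norm_add_sq ℂ, inner_smul_right, norm_smul]
  rcases hs with rfl | rfl <;> simp [h2, add_comm]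

theorem inK_fst {G : Set (H × H)} {g : H × H} (hg : g ∈ G) : InK G g.1 := fun w hw => by
  rw [← inner_conj_symm, hw g hg, map_zero]

theorem inK_of_mem_closure {G : Set (H × H)} {T : Set H} (hT : ∀ t ∈ T, InK G t) {v : H}
    (hv : v ∈ (Submodule.span ℂ T).topologicalClosure) : InK G v := fun w hw => by
  have hle : (Submodule.span ℂ T).topologicalClosure ≤ LinearMap.ker (innerSL ℂ w).toLinearMap :=
    Submodule.topologicalClosure_minimal _ (Submodule.span_le.2 fun t ht => hT t ht w hw)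
      (innerSL ℂ w).isClosed_ker
  exact hle hv

theorem exists_decomp (G : Set (H × H)) (v : H) :
    ∃ v₁ v₂, v = v₁ + v₂ ∧ InK G v₁ ∧ Perp G v₂ ∧ ‖v₁‖ ≤ ‖v‖ := by
  obtain ⟨v₁, v₂, h, hv₁, hv₂, hn⟩ := AB1_decomp (Prod.fst '' G) v
  refine ⟨v₁, v₂, h, inK_of_mem_closure ?_ hv₁, fun g hg => hv₂ _ ⟨g, hg, rfl⟩, hn⟩
  rintro _ ⟨g, hg, rfl⟩
  exact inK_fst hg

theorem EssSA.approx {G : Set (H × H)} (hG : EssSA G) {s : ℂ} (hs : s ∈ ({I, -I} : Set ℂ))
    {v : H} (hv : InK G v) {e : ℝ} (he : 0 < e) :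
    ∃ a ∈ Submodule.span ℂ G, ‖a.2 + s • a.1 - v‖ < e := by
  let L : (H × H) →ₗ[ℂ] H := LinearMap.snd ℂ H H + s • LinearMap.fst ℂ H H
  have h1 : v ∈ (Submodule.span ℂ (L '' G)).topologicalClosure :=
    mem_closure_of_perp _ v fun w hw =>
      hv w ((hG.2 s hs w).1 fun g hg => hw _ ⟨g, hg, rfl⟩)
  rw [← Submodule.map_span] at h1
  obtain ⟨_, ⟨a, ha, rfl⟩, hd⟩ := Metric.mem_closure_iff.1 h1 e he
  refine ⟨a, ha, ?_⟩
  rw [dist_comm, dist_eq_norm] at hd
  exact hd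

end Pool.Agent.P.MP_e0a138_an.AD
end
end

-- part Pool.Agent.P.MP_e0a138_an.AB7
section

set_option autoImplicit false
set_option linter.unusedSectionVars false
set_option linter.unusedVariables false

open MeasureTheory Filter Topology Metric Complex
open scoped ENNReal NNReal ContDiff InnerProductSpace ComplexConjugate

noncomputable section
namespace Pool.Agent.P.MP_e0a138_an.AD

variable {N p q k : ℕ} {W : Type} [NormedAddCommGroup W] [InnerProductSpace ℂ W]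
  [FiniteDimensional ℂ W] [CompleteSpace W]

variable {S : Type} [MeasurableSpace S] {ν : Measure S}

theorem toL_ae {f : S → W} (h : MemLp f 2 ν) : toL ν f =ᵐ[ν] f := by
  unfold toL
  rw [dif_pos h]
  exact h.coeFn_toLp

theorem memLp_of_ae {a : Lp W 2 ν} {f : S → W} (h : a =ᵐ[ν] f) : MemLp f 2 ν :=
  (memLp_congr_ae h).1 (Lp.memLp a)

theorem inner_eq_of_ae {a b : Lp W 2 ν} {f g : S → W} (ha : a =ᵐ[ν] f) (hb : b =ᵐ[ν] g) :
    ⟪a, b⟫_ℂ = ∫ s, ⟪f s, g s⟫_ℂ ∂ν := by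
  rw [L2.inner_def]
  refine integral_congr_ae ?_
  filter_upwards [ha, hb] with s h1 h2
  rw [h1, h2]

theorem AB7_eLp_sq (f : S → W) : eLpNorm f 2 ν ^ 2 = ∫⁻ s, ‖f s‖ₑ ^ 2 ∂ν := by
  rw [eLpNorm_eq_lintegral_rpow_enorm_toReal (by norm_num) (by norm_num)]
  simp only [ENNReal.toReal_ofNat]
  rw [← ENNReal.rpow_natCast, ← ENNReal.rpow_mul]
  norm_num

theorem enorm_sq_eq_of_ae {a : Lp W 2 ν} {f : S → W} (ha : a =ᵐ[ν] f) :
    ‖a‖ₑ ^ 2 = ∫⁻ s, ‖f s‖ₑ ^ 2 ∂ν := by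
  rw [Lp.enorm_def, eLpNorm_congr_ae ha, AB7_eLp_sq]

theorem memLp_two_iff {f : S → W} :
    MemLp f 2 ν ↔ AEStronglyMeasurable f ν ∧ ∫⁻ s, ‖f s‖ₑ ^ 2 ∂ν ≠ ⊤ := by
  rw [← AB7_eLp_sq]
  constructor
  · intro h
    exact ⟨h.1, ENNReal.pow_ne_top h.2.ne⟩
  · rintro ⟨h1, h2⟩
    refine ⟨h1, lt_top_iff_ne_top.2 fun h => h2 ?_⟩
    rw [h]
    simp

theorem AB7_meas {A : S → W →L[ℂ] W} (hA : AEStronglyMeasurable A ν) {f : S → W}
    (hf : AEStronglyMeasurable f ν) : AEStronglyMeasurable (fun s => A s (f s)) ν := by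
  have hc : Continuous fun z : (W →L[ℂ] W) × W => z.1 z.2 := by fun_prop
  exact hc.comp_aestronglyMeasurable (hA.prodMk hf)

theorem AB7_le {A : S → W →L[ℂ] W} {C : ℝ} (hC : ∀ᵐ s ∂ν, ‖A s‖ ≤ C) (f : S → W) :
    ∀ᵐ s ∂ν, ‖A s (f s)‖ ≤ C * ‖f s‖ := by
  filter_upwards [hC] with s hs
  exact ((A s).le_opNorm _).trans (mul_le_mul_of_nonneg_right hs (norm_nonneg _))

theorem AB7_mem {A : S → W →L[ℂ] W} (hA : AEStronglyMeasurable A ν) {C : ℝ}
    (hC : ∀ᵐ s ∂ν, ‖A s‖ ≤ C) (v : Lp W 2 ν) : MemLp (fun s => A s (v s)) 2 ν :=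
  MemLp.of_le_mul (Lp.memLp v) (AB7_meas hA (Lp.aestronglyMeasurable v)) (AB7_le hC v)

theorem exists_mul {A : S → W →L[ℂ] W} (hA : AEStronglyMeasurable A ν) {C : ℝ}
    (hC : ∀ᵐ s ∂ν, ‖A s‖ ≤ C) :
    ∃ M : Lp W 2 ν →L[ℂ] Lp W 2 ν, ∀ v, M v =ᵐ[ν] fun s => A s (v s) := by
  let L : Lp W 2 ν →ₗ[ℂ] Lp W 2 ν :=
    { toFun := fun v => (AB7_mem hA hC v).toLp _
      map_add' := fun v w => by
        refine Lp.ext ?_
        filter_upwards [(AB7_mem hA hC (v + w)).coeFn_toLp, (AB7_mem hA hC v).coeFn_toLp,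
          (AB7_mem hA hC w).coeFn_toLp, Lp.coeFn_add v w,
          Lp.coeFn_add ((AB7_mem hA hC v).toLp _) ((AB7_mem hA hC w).toLp _)] with s h1 h2 h3 h4 h5
        rw [h1, h5, Pi.add_apply, h2, h3, h4, Pi.add_apply, map_add]
      map_smul' := fun c v => by
        refine Lp.ext ?_
        filter_upwards [(AB7_mem hA hC (c • v)).coeFn_toLp, (AB7_mem hA hC v).coeFn_toLp,
          Lp.coeFn_smul c v, Lp.coeFn_smul c ((AB7_mem hA hC v).toLp _)] with s h1 h2 h3 h4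
        rw [h1, RingHom.id_apply, h4, Pi.smul_apply, h2, h3, Pi.smul_apply, map_smul] }
  have hL : ∀ v, L v =ᵐ[ν] fun s => A s (v s) := fun v => (AB7_mem hA hC v).coeFn_toLp
  refine ⟨L.mkContinuous C fun v => ?_, hL⟩
  refine Lp.norm_le_mul_norm_of_ae_le_mul ?_
  filter_upwards [hL v, AB7_le hC v] with s h1 h2
  rw [h1]
  exact h2

theorem AB7_tr {w : S → ℝ} {M : Lp W 2 ν →L[ℂ] Lp W 2 ν}
    (hM : ∀ v, M v =ᵐ[ν] fun s => (w s : ℂ) • v s) (T : Lp W 2 ν →L[ℂ] Lp W 2 ν) :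
    tr w T = trA M T := by
  unfold tr trA
  refine le_antisymm ?_ ?_
  · refine iSup_le fun n => iSup_le fun e => iSup_le fun v => iSup_le fun he => iSup_le fun hv => ?_
    have : ∀ j, v j = M (e j) := fun j => Lp.ext ((hv j).trans (hM (e j)).symm)
    refine le_iSup_of_le n (le_iSup_of_le e (le_iSup_of_le he (le_of_eq ?_)))
    simp only [this]
  · refine iSup_le fun n => iSup_le fun e => iSup_le fun he => ?_
    exact le_iSup_of_le n (le_iSup_of_le e (le_iSup_of_le (fun j => M (e j))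
      (le_iSup_of_le he (le_iSup_of_le (fun j => hM (e j)) le_rfl))))

theorem exists_mul_real {w : S → ℝ} (hw : AEStronglyMeasurable w ν) {C : ℝ}
    (hC : ∀ᵐ s ∂ν, |w s| ≤ C) :
    ∃ M : Lp W 2 ν →L[ℂ] Lp W 2 ν, star M = M ∧ (∀ v, M v =ᵐ[ν] fun s => (w s : ℂ) • v s) ∧
      ∀ T, tr w T = trA M T := by
  have hc : Continuous fun r : ℝ => ((r : ℂ) • (1 : W →L[ℂ] W)) := by fun_prop
  have hA : AEStronglyMeasurable (fun s => ((w s : ℂ) • (1 : W →L[ℂ] W))) ν :=
    hc.comp_aestronglyMeasurable hw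
  have hb : ∀ᵐ s ∂ν, ‖((w s : ℂ) • (1 : W →L[ℂ] W))‖ ≤ C := by
    filter_upwards [hC] with s hs
    rw [norm_smul, Complex.norm_real, Real.norm_eq_abs]
    refine le_trans ?_ hs
    have h1 : ‖(1 : W →L[ℂ] W)‖ ≤ 1 := ContinuousLinearMap.norm_id_le
    exact mul_le_of_le_one_right (abs_nonneg _) h1
  obtain ⟨M, hM⟩ := exists_mul hA hb
  have hM' : ∀ v, M v =ᵐ[ν] fun s => (w s : ℂ) • v s := hM
  refine ⟨M, ?_, hM', AB7_tr hM'⟩
  rw [ContinuousLinearMap.star_eq_adjoint]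
  symm
  rw [ContinuousLinearMap.eq_adjoint_iff]
  intro x y
  rw [inner_eq_of_ae (hM' x) (ae_eq_refl _), inner_eq_of_ae (ae_eq_refl _) (hM' y)]
  refine integral_congr_ae (Eventually.of_forall fun s => ?_)
  simp only [inner_smul_left, inner_smul_right, Complex.conj_ofReal]

theorem tr_one (T : Lp W 2 ν →L[ℂ] Lp W 2 ν) : tr (fun _ => 1) T = trA 1 T := by
  refine AB7_tr (fun v => Eventually.of_forall fun s => ?_) T
  simp

theorem norm_proj_le {P : W →L[ℂ] W} (h1 : P * P = P) (h2 : star P = P) : ‖P‖ ≤ 1 := by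
  have h3 : ‖P‖ * ‖P‖ = ‖P‖ := by
    rw [← CStarRing.norm_star_mul_self, h2, h1]
  by_contra h
  push Not at h
  nlinarith

theorem AB7_proj {P : W →L[ℂ] W} (h2 : star P = P) (x y : W) : ⟪P x, y⟫_ℂ = ⟪x, P y⟫_ℂ := by
  conv_lhs => rw [← h2]
  rw [ContinuousLinearMap.star_eq_adjoint, ContinuousLinearMap.adjoint_inner_left]

theorem proj_val {G : Set (Lp W 2 ν × Lp W 2 ν)} {P : S → W →L[ℂ] W}
    (hP : AEStronglyMeasurable P ν) (hP2 : ∀ᵐ s ∂ν, P s * P s = P s ∧ star (P s) = P s)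
    (hG : ∀ g ∈ G, ∀ᵐ s ∂ν, P s (g.1 s) = g.1 s) {v : Lp W 2 ν} (hv : InK G v) :
    ∀ᵐ s ∂ν, P s (v s) = v s := by
  have hb : ∀ᵐ s ∂ν, ‖P s‖ ≤ 1 := by
    filter_upwards [hP2] with s hs
    exact norm_proj_le hs.1 hs.2
  obtain ⟨M, hM⟩ := exists_mul hP hb
  have hw : (v - M v : Lp W 2 ν) =ᵐ[ν] fun s => v s - P s (v s) := by
    filter_upwards [Lp.coeFn_sub v (M v), hM v] with s h1 h2
    rw [h1, Pi.sub_apply, h2]
  have key : ∀ u : Lp W 2 ν, (∀ᵐ s ∂ν, P s (u s) = u s) → ⟪u, v - M v⟫_ℂ = 0 := by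
    intro u hu
    rw [inner_eq_of_ae (ae_eq_refl _) hw]
    refine integral_eq_zero_of_ae ?_
    filter_upwards [hu, hP2] with s h1 h2
    rw [inner_sub_right, ← AB7_proj h2.2, h1, sub_self, Pi.zero_apply]
  have h1 : ⟪v - M v, v⟫_ℂ = 0 := hv _ fun g hg => key _ (hG g hg)
  have h2 : ⟪M v, v - M v⟫_ℂ = 0 := by
    refine key _ ?_
    filter_upwards [hM v, hP2] with s h1 h2
    rw [h1, ← mul_apply_eq_comp, h2.1]
  have h3 : ⟪v - M v, v - M v⟫_ℂ = 0 := by
    rw [inner_sub_right, h1, ← inner_conj_symm, h2]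
    simp
  have h4 : v - M v = 0 := inner_self_eq_zero.1 h3
  have h5 : M v = v := (sub_eq_zero.1 h4).symm
  have h6 := hM v
  rw [h5] at h6
  filter_upwards [h6] with s hs
  exact hs.symm

end Pool.Agent.P.MP_e0a138_an.AD
end
end

-- part Pool.Agent.P.MP_e0a138_an.AN1
section

set_option autoImplicit false
set_option linter.unusedSectionVars false
set_option linter.unusedVariables false

open MeasureTheory Filter Topology Metric Complex
open scoped ENNReal NNReal ContDiff InnerProductSpace ComplexConjugate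

noncomputable section
namespace Pool.Agent.P.MP_e0a138_an.AD

variable {N p q k : ℕ} {W : Type} [NormedAddCommGroup W] [InnerProductSpace ℂ W]
  [FiniteDimensional ℂ W] [CompleteSpace W]
variable {E : Type} [NormedAddCommGroup E] [NormedSpace ℝ E] [FiniteDimensional ℝ E]
  [MeasureSpace E] [BorelSpace E] [(volume : Measure E).IsAddHaarMeasure] {κ : Type} [Fintype κ]

theorem wm_ae {O : Set E} (hO : MeasurableSet O) {ρ : E → ℝ} : ∀ᵐ x ∂wm O ρ, x ∈ O := by
  exact (withDensity_absolutelyContinuous _ _).ae_le (ae_restrict_mem hO)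

theorem wm_compl {O : Set E} (hO : MeasurableSet O) {ρ : E → ℝ} : wm O ρ Oᶜ = 0 := by
  exact wm_ae hO

theorem an1_aem {O : Set E} (hO : MeasurableSet O) {ρ : E → ℝ} (hρ : ContinuousOn ρ O) :
    AEMeasurable (fun x => ENNReal.ofReal (ρ x)) (volume.restrict O) :=
  (hρ.aemeasurable hO).ennreal_ofReal

theorem lintegral_wm {O : Set E} (hO : MeasurableSet O) {ρ : E → ℝ} (hρ : ContinuousOn ρ O)
    (f : E → ℝ≥0∞) : ∫⁻ x, f x ∂wm O ρ = ∫⁻ x in O, ENNReal.ofReal (ρ x) * f x := by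
  exact lintegral_withDensity_eq_lintegral_mul_non_measurable₀ _ (an1_aem hO hρ)
    (Eventually.of_forall fun _ => ENNReal.ofReal_lt_top) f

theorem integral_wm {F : Type} [NormedAddCommGroup F] [NormedSpace ℝ F] {O : Set E}
    (hO : MeasurableSet O) {ρ : E → ℝ} (hρ : ContinuousOn ρ O) (h0 : ∀ x ∈ O, 0 ≤ ρ x)
    (f : E → F) : ∫ x, f x ∂wm O ρ = ∫ x in O, ρ x • f x := by
  rw [wm, integral_withDensity_eq_integral_toReal_smul₀ (an1_aem hO hρ)
    (Eventually.of_forall fun _ => ENNReal.ofReal_lt_top) f]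
  exact setIntegral_congr_fun hO fun x hx => by
    simp only [ENNReal.toReal_ofReal (h0 x hx)]

theorem ae_wm_iff {O : Set E} (hO : MeasurableSet O) {ρ : E → ℝ} (hρ : ContinuousOn ρ O)
    (h0 : ∀ x ∈ O, 0 < ρ x) {P : E → Prop} : (∀ᵐ x ∂wm O ρ, P x) ↔ ∀ᵐ x, x ∈ O → P x := by
  rw [wm, ae_withDensity_iff' (an1_aem hO hρ), ae_restrict_iff'₀ hO.nullMeasurableSet]
  refine eventually_congr (Eventually.of_forall fun x => forall_congr' fun hx => ?_)
  exact ⟨fun h => h (ENNReal.ofReal_pos.2 (h0 x hx)).ne', fun h _ => h⟩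

theorem aesm_wm {F : Type} [NormedAddCommGroup F] {O : Set E} (hO : MeasurableSet O) {ρ : E → ℝ}
    {f : E → F} (hf : ContinuousOn f O) : AEStronglyMeasurable f (wm O ρ) := by
  exact (hf.aestronglyMeasurable hO).mono_ac (withDensity_absolutelyContinuous _ _)

theorem an1_restr {O K : Set E} (hK : MeasurableSet K) (hKO : K ⊆ O) (ρ : E → ℝ) :
    (wm O ρ).restrict K = (volume.restrict K).withDensity fun x => ENNReal.ofReal (ρ x) := by
  rw [wm, restrict_withDensity hK, Measure.restrict_restrict_of_subset hKO]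

theorem an1_up {O K : Set E} (hK : IsCompact K) (hKO : K ⊆ O) {ρ : E → ℝ}
    (hρ : ContinuousOn ρ O) :
    ∃ C : ℝ≥0, (wm O ρ).restrict K ≤ (C : ℝ≥0∞) • (volume : Measure E).restrict K := by
  obtain ⟨C, hC⟩ := hK.exists_bound_of_continuousOn (hρ.mono hKO)
  refine ⟨C.toNNReal, ?_⟩
  rw [an1_restr hK.measurableSet hKO, ← withDensity_const]
  refine withDensity_mono ?_
  filter_upwards [ae_restrict_mem hK.measurableSet] with x hx
  exact ENNReal.ofReal_le_ofReal ((le_abs_self _).trans (hC x hx))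

theorem an1_low {O K : Set E} (hK : IsCompact K) (hKO : K ⊆ O) {ρ : E → ℝ}
    (hρ : ContinuousOn ρ O) (h0 : ∀ x ∈ O, 0 < ρ x) :
    ∃ C : ℝ≥0∞, C ≠ ⊤ ∧ (volume : Measure E).restrict K ≤ C • (wm O ρ).restrict K := by
  rcases K.eq_empty_or_nonempty with rfl | hne
  · exact ⟨0, ENNReal.zero_ne_top, by simp⟩
  obtain ⟨x0, hx0, hm⟩ := hK.exists_isMinOn hne (hρ.mono hKO)
  have hp : ENNReal.ofReal (ρ x0) ≠ 0 := (ENNReal.ofReal_pos.2 (h0 x0 (hKO hx0))).ne'
  have h1 : ENNReal.ofReal (ρ x0) • (volume : Measure E).restrict K ≤ (wm O ρ).restrict K := by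
    rw [an1_restr hK.measurableSet hKO, ← withDensity_const]
    refine withDensity_mono ?_
    filter_upwards [ae_restrict_mem hK.measurableSet] with x hx
    exact ENNReal.ofReal_le_ofReal (hm hx)
  refine ⟨(ENNReal.ofReal (ρ x0))⁻¹, ENNReal.inv_ne_top.2 hp, fun s => ?_⟩
  have h2 := h1 s
  rw [Measure.smul_apply, smul_eq_mul] at h2 ⊢
  calc (volume : Measure E).restrict K s
      = (ENNReal.ofReal (ρ x0))⁻¹ * (ENNReal.ofReal (ρ x0) * (volume : Measure E).restrict K s) := by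
        rw [← mul_assoc, ENNReal.inv_mul_cancel hp ENNReal.ofReal_ne_top, one_mul]
    _ ≤ _ := by gcongr

theorem memLp_wm_iff {O K : Set E} (hO : MeasurableSet O) (hK : IsCompact K) (hKO : K ⊆ O)
    {ρ : E → ℝ} (hρ : ContinuousOn ρ O) (h0 : ∀ x ∈ O, 0 < ρ x) {v : E → W}
    (hv : ∀ x ∉ K, v x = 0) : MemLp v 2 (wm O ρ) ↔ MemLp v 2 volume := by
  have e : v = K.indicator v := by
    funext x
    by_cases hx : x ∈ K
    · rw [Set.indicator_of_mem hx]
    · rw [Set.indicator_of_notMem hx, hv x hx]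
  obtain ⟨C, hC⟩ := an1_up hK hKO hρ
  obtain ⟨c, hc, hc'⟩ := an1_low hK hKO hρ h0
  rw [e, memLp_indicator_iff_restrict hK.measurableSet,
    memLp_indicator_iff_restrict hK.measurableSet]
  exact ⟨fun h => h.of_measure_le_smul hc hc', fun h => h.of_measure_le_smul ENNReal.coe_ne_top hC⟩

theorem lintegral_wm_le {O K : Set E} (hO : MeasurableSet O) (hK : IsCompact K) (hKO : K ⊆ O)
    {ρ : E → ℝ} (hρ : ContinuousOn ρ O) : ∃ C : ℝ≥0, ∀ f : E → ℝ≥0∞,
      (∀ x ∈ O, x ∉ K → f x = 0) → ∫⁻ x, f x ∂wm O ρ ≤ C * ∫⁻ x in K, f x := by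
  obtain ⟨C, hC⟩ := an1_up hK hKO hρ
  refine ⟨C, fun f hf => ?_⟩
  have e : f =ᵐ[wm O ρ] K.indicator f := by
    filter_upwards [wm_ae hO] with x hxO
    by_cases hx : x ∈ K
    · rw [Set.indicator_of_mem hx]
    · rw [Set.indicator_of_notMem hx, hf x hxO hx]
  rw [lintegral_congr_ae e, lintegral_indicator hK.measurableSet]
  refine (lintegral_mono' hC le_rfl).trans (le_of_eq ?_)
  rw [lintegral_smul_measure, smul_eq_mul]

theorem memLp_wm_of_cpt {O K : Set E} (hO : MeasurableSet O) (hK : IsCompact K) (hKO : K ⊆ O)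
    {ρ : E → ℝ} (hρ : ContinuousOn ρ O) {v : E → W} (hc : ContinuousOn v O)
    (hv : ∀ x ∈ O, x ∉ K → v x = 0) : MemLp v 2 (wm O ρ) := by
  obtain ⟨C, hC⟩ := an1_up hK hKO hρ
  have e : v =ᵐ[wm O ρ] K.indicator v := by
    filter_upwards [wm_ae hO] with x hxO
    by_cases hx : x ∈ K
    · rw [Set.indicator_of_mem hx]
    · rw [Set.indicator_of_notMem hx, hv x hxO hx]
  rw [memLp_congr_ae e, memLp_indicator_iff_restrict hK.measurableSet]
  refine MemLp.of_measure_le_smul ENNReal.coe_ne_top hC ?_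
  obtain ⟨B, hB⟩ := hK.exists_bound_of_continuousOn (hc.mono hKO)
  have : IsFiniteMeasure ((volume : Measure E).restrict K) :=
    isFiniteMeasure_restrict.2 hK.measure_lt_top.ne
  exact MemLp.of_bound ((hc.mono hKO).aestronglyMeasurable hK.measurableSet) B
    ((ae_restrict_mem hK.measurableSet).mono hB)

end Pool.Agent.P.MP_e0a138_an.AD
end
end

-- part Pool.Agent.P.MP_e0a138_an.AN14
section

set_option autoImplicit false
set_option linter.unusedSectionVars false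
set_option linter.unusedVariables false

open MeasureTheory Filter Topology Metric Complex
open scoped ENNReal NNReal ContDiff InnerProductSpace ComplexConjugate

noncomputable section
namespace Pool.Agent.P.MP_e0a138_an.AD

variable {N p q k : ℕ} {W : Type} [NormedAddCommGroup W] [InnerProductSpace ℂ W]
  [FiniteDimensional ℂ W] [CompleteSpace W]
variable {E : Type} [NormedAddCommGroup E] [NormedSpace ℝ E] [FiniteDimensional ℝ E]
  [MeasureSpace E] [BorelSpace E] [(volume : Measure E).IsAddHaarMeasure] {κ : Type} [Fintype κ]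

variable {S : Type} [MeasurableSpace S]

theorem change_var {S₁ S₂ : Set E} (h₁ : MeasurableSet S₁) (h₂ : MeasurableSet S₂) {T : E → E}
    {T' : E → E →L[ℝ] E} (hT : ∀ x ∈ S₁, HasFDerivWithinAt T (T' x) S₁ x) (inj : Set.InjOn T S₁)
    (img : T '' S₁ = S₂) {ρ₁ ρ₂ : E → ℝ} (c₁ : ContinuousOn ρ₁ S₁) (c₂ : ContinuousOn ρ₂ S₂)
    (hρ : ∀ x ∈ S₁, ρ₁ x = ρ₂ (T x) * |(T' x).det|) {γ₁ γ₂ : E → S}
    (m₁ : AEMeasurable γ₁ (volume.restrict S₁)) (m₂ : AEMeasurable γ₂ (volume.restrict S₂))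
    (hγ : ∀ x ∈ S₁, γ₁ x = γ₂ (T x)) : (wm S₁ ρ₁).map γ₁ = (wm S₂ ρ₂).map γ₂ := by
  ext s hs
  have a₁ : AEMeasurable γ₁ (wm S₁ ρ₁) := m₁.mono_ac (withDensity_absolutelyContinuous _ _)
  have a₂ : AEMeasurable γ₂ (wm S₂ ρ₂) := m₂.mono_ac (withDensity_absolutelyContinuous _ _)
  have n₁ : NullMeasurableSet (γ₁ ⁻¹' s) (volume.restrict S₁) := m₁.nullMeasurable hs
  have n₂ : NullMeasurableSet (γ₂ ⁻¹' s) (volume.restrict S₂) := m₂.nullMeasurable hs
  rw [Measure.map_apply_of_aemeasurable a₁ hs, Measure.map_apply_of_aemeasurable a₂ hs, wm, wm,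
    withDensity_apply₀ _ n₁, withDensity_apply₀ _ n₂, ← lintegral_indicator₀ n₁,
    ← lintegral_indicator₀ n₂, ← img,
    lintegral_image_eq_lintegral_abs_det_fderiv_mul volume h₁ hT inj]
  refine setLIntegral_congr_fun h₁ fun x hx => ?_
  by_cases hxs : γ₂ (T x) ∈ s
  · have h1 : x ∈ γ₁ ⁻¹' s := by rw [Set.mem_preimage, hγ x hx]; exact hxs
    have h2 : T x ∈ γ₂ ⁻¹' s := hxs
    simp only [Set.indicator_of_mem h1, Set.indicator_of_mem h2]
    rw [hρ x hx, ENNReal.ofReal_mul' (abs_nonneg _), mul_comm]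
  · have h1 : x ∉ γ₁ ⁻¹' s := by rw [Set.mem_preimage, hγ x hx]; exact hxs
    have h2 : T x ∉ γ₂ ⁻¹' s := hxs
    simp only [Set.indicator_of_notMem h1, Set.indicator_of_notMem h2, mul_zero]

theorem restrict_map_wm {O : Set E} (hO : MeasurableSet O) {ρ : E → ℝ} {γ : E → S}
    (hγ : AEMeasurable γ (volume.restrict O)) {Q : Set S} (hQ : MeasurableSet Q)
    (hQ' : MeasurableSet (O ∩ γ ⁻¹' Q)) :
    ((wm O ρ).map γ).restrict Q = (wm (O ∩ γ ⁻¹' Q) ρ).map γ := by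
  have a : AEMeasurable γ (wm O ρ) := hγ.mono_ac (withDensity_absolutelyContinuous _ _)
  have e : wm (O ∩ γ ⁻¹' Q) ρ = (wm O ρ).restrict (O ∩ γ ⁻¹' Q) := by
    rw [wm, wm, restrict_withDensity hQ', Measure.restrict_restrict hQ',
      Set.inter_eq_left.2 Set.inter_subset_left]
  ext t ht
  rw [e, Measure.restrict_apply ht, Measure.map_apply_of_aemeasurable a (ht.inter hQ),
    Measure.map_apply_of_aemeasurable a.restrict ht, Measure.restrict_apply' hQ']
  refine measure_congr ?_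
  filter_upwards [wm_ae (ρ := ρ) hO] with x hx
  refine propext ⟨fun h => ⟨h.1, hx, h.2⟩, fun h => ⟨h.1, h.2.2⟩⟩

theorem smul_wm (O : Set E) (ρ : E → ℝ) (c : ℝ≥0) :
    c • wm O ρ = wm O fun x => (c : ℝ) * ρ x := by
  have e : (fun x => ENNReal.ofReal ((c : ℝ) * ρ x))
      = (c : ℝ≥0∞) • fun x => ENNReal.ofReal (ρ x) := by
    funext x
    rw [ENNReal.ofReal_mul c.coe_nonneg, ENNReal.ofReal_coe_nnreal]
    rfl
  rw [wm, wm, e, withDensity_smul' _ _ ENNReal.coe_ne_top]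
  rfl

theorem glue {J : Type} [Countable J] {Q : J → Set S} (hQ : ∀ i, MeasurableSet (Q i))
    {m : J → Measure S} (hm : ∀ i, m i (Q i)ᶜ = 0)
    (hc : ∀ i j, (m i).restrict (Q j) = (m j).restrict (Q i)) :
    ∃ l : Measure S, l (⋃ i, Q i)ᶜ = 0 ∧ ∀ i, l.restrict (Q i) = m i := by
  obtain ⟨f, hf⟩ := exists_injective_nat J
  let D : J → Set S := fun i => Q i \ ⋃ j, ⋃ (_ : f j < f i), Q j
  have hD : ∀ i, MeasurableSet (D i) := fun i =>
    (hQ i).diff (MeasurableSet.iUnion fun j => MeasurableSet.iUnion fun _ => hQ j)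
  have hDQ : ∀ i, D i ⊆ Q i := fun i => Set.sdiff_subset
  have hlt : ∀ i j, f j < f i → Disjoint (D i) (D j) := by
    intro i j h
    rw [Set.disjoint_left]
    intro x hx hx'
    exact hx.2 (Set.mem_iUnion₂.2 ⟨j, h, hx'.1⟩)
  have hdis : Pairwise (Function.onFun Disjoint D) := by
    intro i j hij
    rcases lt_or_gt_of_ne (hf.ne hij) with h | h
    · exact (hlt j i h).symm
    · exact hlt i j h
  have hcov : ∀ n, ∀ i, f i = n → ∀ x ∈ Q i, x ∈ ⋃ j, D j := by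
    intro n
    induction n using Nat.strong_induction_on with
    | _ n ih =>
      intro i hi x hx
      by_cases h : x ∈ ⋃ j, ⋃ (_ : f j < f i), Q j
      · obtain ⟨j, hj, hxj⟩ := Set.mem_iUnion₂.1 h
        exact ih (f j) (hi ▸ hj) j rfl x hxj
      · exact Set.mem_iUnion.2 ⟨i, hx, h⟩
  refine ⟨Measure.sum fun i => (m i).restrict (D i), ?_, fun i => ?_⟩
  · rw [Measure.sum_apply _ (MeasurableSet.iUnion hQ).compl, ENNReal.tsum_eq_zero]
    intro i
    rw [Measure.restrict_apply (MeasurableSet.iUnion hQ).compl]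
    have : (⋃ i, Q i)ᶜ ∩ D i = ∅ :=
      Set.eq_empty_of_forall_notMem fun x hx => hx.1 (Set.mem_iUnion.2 ⟨i, hDQ i hx.2⟩)
    rw [this, measure_empty]
  · have e : ∀ j, ((m j).restrict (D j)).restrict (Q i) = (m i).restrict (D j) := by
      intro j
      rw [Measure.restrict_comm (hQ i), ← hc i j, Measure.restrict_restrict (hD j),
        Set.inter_eq_left.2 (hDQ j)]
    rw [Measure.restrict_sum _ (hQ i)]
    simp only [e]
    rw [← Measure.restrict_iUnion hdis hD]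
    refine Measure.restrict_eq_self_of_ae_mem ?_
    have : ∀ᵐ x ∂m i, x ∈ Q i := hm i
    filter_upwards [this] with x hx using hcov _ i rfl x hx

end Pool.Agent.P.MP_e0a138_an.AD
end
end

-- part Pool.Agent.P.MP_e0a138_an.AN13
section

set_option autoImplicit false
set_option linter.unusedSectionVars false
set_option linter.unusedVariables false

open MeasureTheory Filter Topology Metric Complex
open scoped ENNReal NNReal ContDiff InnerProductSpace ComplexConjugate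

noncomputable section
namespace Pool.Agent.P.MP_e0a138_an.AD

variable {N p q k : ℕ} {W : Type} [NormedAddCommGroup W] [InnerProductSpace ℂ W]
  [FiniteDimensional ℂ W] [CompleteSpace W]

variable {S E : Type} [MeasurableSpace S] [MeasurableSpace E] {ν : Measure S} {m : Measure E}
  {O : Set E} {γ : E → S}

theorem AN13_m (h : Emb ν m O γ) :
    m = (m.comap (Subtype.val : O → E)).map (Subtype.val : O → E) := by
  rw [map_comap_subtype_coe h.meas]
  exact (Measure.restrict_eq_self_of_ae_mem (mem_ae_iff.2 h.conc)).symm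

theorem Emb.of_continuousOn [TopologicalSpace S] [PolishSpace S] [BorelSpace S]
    [TopologicalSpace E] [PolishSpace E] [BorelSpace E] (hO : MeasurableSet O) (hm : m Oᶜ = 0)
    (hγ : ContinuousOn γ O) (inj : Set.InjOn γ O) (res : ν.restrict (γ '' O) = m.map γ) :
    Emb ν m O γ := by
  have := hO.standardBorel
  exact ⟨hO, hm, (continuousOn_iff_continuous_domRestrict.1 hγ).measurable.measurableEmbedding
    (Set.injOn_iff_injective.1 inj), res⟩

theorem Emb.measurableSet (h : Emb ν m O γ) : MeasurableSet (γ '' O) := by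
  have h1 := h.emb.measurableSet_range
  have h2 : Set.range (O.domRestrict γ) = γ '' O := by
    ext s
    constructor
    · rintro ⟨x, rfl⟩
      exact ⟨x.1, x.2, rfl⟩
    · rintro ⟨x, hx, rfl⟩
      exact ⟨⟨x, hx⟩, rfl⟩
  rwa [h2] at h1

theorem Emb.aemeasurable (h : Emb ν m O γ) : AEMeasurable γ m := by
  rw [AN13_m h, (MeasurableEmbedding.subtype_coe h.meas).aemeasurable_map_iff]
  exact h.emb.measurable.aemeasurable

theorem AN13_res (h : Emb ν m O γ) :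
    ν.restrict (γ '' O) = (m.comap (Subtype.val : O → E)).map (O.domRestrict γ) := by
  have h1 : AEMeasurable γ ((m.comap (Subtype.val : O → E)).map (Subtype.val : O → E)) := by
    rw [← AN13_m h]
    exact h.aemeasurable
  have h2 := AEMeasurable.map_map_of_aemeasurable h1
    (measurable_subtype_coe.aemeasurable (μ := m.comap (Subtype.val : O → E)))
  rw [← AN13_m h] at h2
  rw [h.res, h2]
  rfl

theorem Emb.lintegral (h : Emb ν m O γ) (f : S → ℝ≥0∞) :
    ∫⁻ s in γ '' O, f s ∂ν = ∫⁻ x, f (γ x) ∂m := by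
  rw [AN13_res h, h.emb.lintegral_map]
  conv_rhs => rw [AN13_m h, (MeasurableEmbedding.subtype_coe h.meas).lintegral_map]
  rfl

theorem Emb.integral {F : Type} [NormedAddCommGroup F] [NormedSpace ℝ F] (h : Emb ν m O γ)
    (f : S → F) : ∫ s in γ '' O, f s ∂ν = ∫ x, f (γ x) ∂m := by
  rw [AN13_res h, h.emb.integral_map]
  conv_rhs => rw [AN13_m h, (MeasurableEmbedding.subtype_coe h.meas).integral_map]
  rfl

theorem Emb.ae_iff (h : Emb ν m O γ) {P : S → Prop} :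
    (∀ᵐ s ∂ν, s ∈ γ '' O → P s) ↔ ∀ᵐ x ∂m, P (γ x) := by
  rw [← ae_restrict_iff' h.measurableSet, AN13_res h, h.emb.ae_map_iff]
  conv_rhs => rw [AN13_m h, (MeasurableEmbedding.subtype_coe h.meas).ae_map_iff]
  rfl

theorem Emb.aesm_iff {F : Type} [NormedAddCommGroup F] (h : Emb ν m O γ) {f : S → F} :
    AEStronglyMeasurable f (ν.restrict (γ '' O)) ↔ AEStronglyMeasurable (fun x => f (γ x)) m := by
  rw [AN13_res h, h.emb.aestronglyMeasurable_map_iff]
  conv_rhs =>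
    rw [AN13_m h, (MeasurableEmbedding.subtype_coe h.meas).aestronglyMeasurable_map_iff]
  rfl

theorem AN13_memLp (h : Emb ν m O γ) {f : S → W} :
    MemLp f 2 (ν.restrict (γ '' O)) ↔ MemLp (fun x => f (γ x)) 2 m := by
  rw [AN13_res h, h.emb.memLp_map_measure_iff]
  conv_rhs => rw [AN13_m h, (MeasurableEmbedding.subtype_coe h.meas).memLp_map_measure_iff]
  rfl

theorem Emb.memLp_comp (h : Emb ν m O γ) {f : S → W} (hf : MemLp f 2 ν) :
    MemLp (fun x => f (γ x)) 2 m := (AN13_memLp h).1 (hf.restrict _)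

theorem Emb.memLp_ind (h : Emb ν m O γ) {f : S → W} (hf : MemLp (fun x => f (γ x)) 2 m) :
    MemLp ((γ '' O).indicator f) 2 ν :=
  (memLp_indicator_iff_restrict h.measurableSet).2 ((AN13_memLp h).2 hf)

theorem Emb.inner_ind (h : Emb ν m O γ) (f g : S → W) :
    ∫ s, ⟪(γ '' O).indicator f s, g s⟫_ℂ ∂ν = ∫ x, ⟪f (γ x), g (γ x)⟫_ℂ ∂m := by
  rw [← h.integral fun s => ⟪f s, g s⟫_ℂ, ← integral_indicator h.measurableSet]
  refine integral_congr_ae (Eventually.of_forall fun s => ?_)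
  by_cases hs : s ∈ γ '' O
  · simp only [Set.indicator_of_mem hs]
  · simp only [Set.indicator_of_notMem hs, inner_zero_left]

theorem Emb.lintegral_ind (h : Emb ν m O γ) (f : S → W) :
    ∫⁻ s, ‖(γ '' O).indicator f s‖ₑ ^ 2 ∂ν = ∫⁻ x, ‖f (γ x)‖ₑ ^ 2 ∂m := by
  rw [← h.lintegral fun s => ‖f s‖ₑ ^ 2, ← lintegral_indicator h.measurableSet]
  refine lintegral_congr fun s => ?_
  by_cases hs : s ∈ γ '' O
  · simp only [Set.indicator_of_mem hs]
  · simp [Set.indicator_of_notMem hs]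

theorem aesm_of_cover {F J : Type} [NormedAddCommGroup F] [Countable J] {m : J → Measure E}
    {O : J → Set E} {γ : J → E → S} (h : ∀ j, Emb ν (m j) (O j) (γ j))
    (hc : ∀ᵐ s ∂ν, ∃ j, s ∈ γ j '' O j) {f : S → F}
    (hf : ∀ j, AEStronglyMeasurable (fun x => f (γ j x)) (m j)) : AEStronglyMeasurable f ν := by
  have h1 : ν.restrict (⋃ j, γ j '' O j) = ν :=
    Measure.restrict_eq_self_of_ae_mem (hc.mono fun s hs => Set.mem_iUnion.2 hs)
  rw [← h1, aestronglyMeasurable_iUnion_iff]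
  exact fun j => (h j).aesm_iff.2 (hf j)

theorem ae_of_cover {J : Type} [Countable J] {m : J → Measure E}
    {O : J → Set E} {γ : J → E → S} (h : ∀ j, Emb ν (m j) (O j) (γ j))
    (hc : ∀ᵐ s ∂ν, ∃ j, s ∈ γ j '' O j) {P : S → Prop}
    (hf : ∀ j, ∀ᵐ x ∂m j, P (γ j x)) : ∀ᵐ s ∂ν, P s := by
  have h1 : ∀ᵐ s ∂ν, ∀ j, s ∈ γ j '' O j → P s := ae_all_iff.2 fun j => (h j).ae_iff.2 (hf j)
  filter_upwards [hc, h1] with s hs h2
  obtain ⟨j, hj⟩ := hs
  exact h2 j hj

end Pool.Agent.P.MP_e0a138_an.AD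
end
end

-- part Pool.Agent.P.MP_e0a138_an.GE5
section

set_option autoImplicit false
set_option linter.unusedSectionVars false
set_option linter.unusedVariables false

open MeasureTheory Filter Topology Metric Complex
open scoped ENNReal NNReal ContDiff InnerProductSpace ComplexConjugate

noncomputable section
namespace Pool.Agent.P.MP_e0a138_an.AD

variable {N p q k : ℕ} {W : Type} [NormedAddCommGroup W] [InnerProductSpace ℂ W]
  [FiniteDimensional ℂ W] [CompleteSpace W]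
variable {A : Atl N p q k}

namespace Atl

theorem GE5_rho_eq (i : Fin k) (z : Eu p × Eu q) : A.rho i z =
    √(Matrix.gram ℝ fun a : Fin p ⊕ Fin q => A.jd i z (cb a)).det := rfl

theorem GE5_det_smooth (i : Fin k) : ContDiff ℝ ∞ fun z : Eu p × Eu q =>
    (Matrix.gram ℝ fun a : Fin p ⊕ Fin q => A.jd i z (cb a)).det := by
  have h : ∀ a : Fin p ⊕ Fin q,
      ContDiff ℝ ∞ fun z : Eu p × Eu q => A.jd i z (cb a) := fun a =>
    (jd_smooth i).clm_apply contDiff_const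
  simp only [Matrix.det_apply', Matrix.gram_apply]
  refine ContDiff.sum fun σ _ => contDiff_const.mul (contDiff_prod fun a _ => ?_)
  exact (h _).inner ℝ (h _)

theorem rho_pos (i : Fin k) {z : Eu p × Eu q} (hz : z ∈ ball (0 : Eu p × Eu q) 1) :
    0 < A.rho i z := by
  rw [GE5_rho_eq]
  exact Real.sqrt_pos.2 (det_gram_pos (jd_inj i hz))

theorem rho_nonneg (i : Fin k) (z : Eu p × Eu q) : 0 ≤ A.rho i z := Real.sqrt_nonneg _

theorem rho_continuous (i : Fin k) : Continuous (A.rho i) :=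
  (GE5_det_smooth (A := A) i).continuous.sqrt

theorem rho_smooth (i : Fin k) : ContDiffOn ℝ ∞ (A.rho i) (ball 0 1) :=
  (GE5_det_smooth (A := A) i).contDiffOn.sqrt fun _ hz => (det_gram_pos (jd_inj i hz)).ne'

theorem rho_bdd (i : Fin k) : ∃ C : ℝ≥0, ∀ z ∈ ball (0 : Eu p × Eu q) 1, A.rho i z ≤ C := by
  have : ProperSpace (Eu p × Eu q) := FiniteDimensional.proper ℝ _
  obtain ⟨C, hC⟩ := (isCompact_closedBall (0 : Eu p × Eu q) 1).exists_bound_of_continuousOn
    (rho_continuous (A := A) i).continuousOn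
  refine ⟨C.toNNReal, fun z hz => ?_⟩
  have h := hC z (ball_subset_closedBall hz)
  exact ((le_abs_self _).trans h).trans (Real.le_coe_toNNReal C)

theorem rho_trans {i j : Fin k} {z : Eu p × Eu q} (hz : z ∈ ball (0 : Eu p × Eu q) 1)
    (hj : A.ψ i z ∈ A.U j) : A.rho i z = A.rho j (A.φ j (A.ψ i z)) *
      |(fderiv ℝ (fun z => A.φ j (A.ψ i z)) z).det| := by
  have hm := (φ_mem (ψ_mem i hz).1 hj).1
  rw [GE5_rho_eq, GE5_rho_eq]
  simp only [jd_trans hz hj]
  rw [det_gram_comp, Real.sqrt_mul (det_gram_pos (jd_inj j hm)).le, Real.sqrt_sq_eq_abs]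

theorem rho_trans' {i j : Fin k} {x : Eu p} {y : Eu q} (hz : (x, y) ∈ ball (0 : Eu p × Eu q) 1)
    (hj : A.ψ i (x, y) ∈ A.U j) : A.rho i (x, y) = A.rho j (A.φ j (A.ψ i (x, y))) *
      |(fderiv ℝ (fun x => (A.φ j (A.ψ i (x, y))).1) x).det| * |(A.dta i j (x, y)).det| := by
  have hT : Differentiable ℝ fun z => A.φ j (A.ψ i z) :=
    ((A.φ_smooth j).comp (A.ψ_smooth i)).differentiable (by simp)
  have h1 : fderiv ℝ (fun x => (A.φ j (A.ψ i (x, y))).1) x =
      ContinuousLinearMap.fst ℝ _ _ ∘L fderiv ℝ (fun z => A.φ j (A.ψ i z)) (x, y) ∘L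
        ContinuousLinearMap.inl ℝ _ _ := by
    have h0 := (hT (x, y)).hasFDerivAt.comp x (hasFDerivAt_prodMk_left (𝕜 := ℝ) x y)
    have h3 := (ContinuousLinearMap.fst ℝ (Eu p) (Eu q)).hasFDerivAt.comp x h0
    exact h3.fderiv
  have h2 : A.dta i j (x, y) =
      ContinuousLinearMap.snd ℝ _ _ ∘L fderiv ℝ (fun z => A.φ j (A.ψ i z)) (x, y) ∘L
        ContinuousLinearMap.inr ℝ _ _ := by
    refine ContinuousLinearMap.ext fun w => ?_
    exact (dtrans_snd hz hj (0, w)).symm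
  rw [rho_trans hz hj, det_block (dtrans_fst hz hj), h1, h2, abs_mul, mul_assoc]

end Atl

end Pool.Agent.P.MP_e0a138_an.AD
end
end

-- part Pool.Agent.P.MP_e0a138_an.GE6
section

set_option autoImplicit false
set_option linter.unusedSectionVars false
set_option linter.unusedVariables false

open MeasureTheory Filter Topology Metric Complex
open scoped ENNReal NNReal ContDiff InnerProductSpace ComplexConjugate

noncomputable section
namespace Pool.Agent.P.MP_e0a138_an.AD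

variable {N p q k : ℕ} {W : Type} [NormedAddCommGroup W] [InnerProductSpace ℂ W]
  [FiniteDimensional ℂ W] [CompleteSpace W]
variable {A : Atl N p q k}

namespace Atl
variable {μ : Measure (Eu N)}

theorem IsVol.emb (hμ : A.IsVol μ) (i : Fin k) :
    Emb μ (wm (ball 0 1) (A.rho i)) (ball 0 1) (A.ψ i) := by
  refine Emb.of_continuousOn measurableSet_ball (wm_compl measurableSet_ball)
    (A.ψ_smooth i).continuous.continuousOn (injOn_ψ i) ?_
  rw [A.image i, wm, ← hμ.2 i]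
  refine Measure.restrict_congr_set ?_
  filter_upwards [(mem_ae_iff.2 hμ.1 : A.M ∈ ae μ)] with m hm
  exact propext ⟨fun h => h.2, fun h => ⟨hm, h⟩⟩

theorem IsVol.ae_mem (hμ : A.IsVol μ) : ∀ᵐ m ∂μ, m ∈ A.M := mem_ae_iff.2 hμ.1

theorem wm_finite (A : Atl N p q k) (i : Fin k) : IsFiniteMeasure (wm (ball 0 1) (A.rho i)) :=
  by
  obtain ⟨C, hC⟩ := rho_bdd (A := A) i
  refine ⟨?_⟩
  rw [← lintegral_one, lintegral_wm measurableSet_ball (rho_continuous i).continuousOn]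
  calc _ ≤ ∫⁻ _ in ball (0 : Eu p × Eu q) 1, (C : ℝ≥0∞) := by
        refine setLIntegral_mono' measurableSet_ball fun z hz => ?_
        rw [mul_one, ← ENNReal.ofReal_coe_nnreal]
        exact ENNReal.ofReal_le_ofReal (hC z hz)
    _ < ⊤ := by
        rw [setLIntegral_const]
        exact ENNReal.mul_lt_top ENNReal.coe_lt_top measure_ball_lt_top

theorem IsVol.finite (hμ : A.IsVol μ) : IsFiniteMeasure μ := by
  refine ⟨?_⟩
  have h1 : μ Set.univ ≤ μ (⋃ i, A.ψ i '' ball 0 1) := by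
    refine measure_mono_ae ?_
    filter_upwards [hμ.ae_mem] with m hm _
    obtain ⟨i, z, hz, rfl⟩ := exists_chart hm
    exact Set.mem_iUnion.2 ⟨i, z, hz, rfl⟩
  refine h1.trans_lt ((measure_iUnion_fintype_le _ _).trans_lt (ENNReal.sum_lt_top.2 fun i _ => ?_))
  have := A.wm_finite i
  rw [← setLIntegral_one, (hμ.emb i).lintegral, lintegral_one]
  exact measure_lt_top _ _

theorem IsVol.cover (hμ : A.IsVol μ) : ∀ᵐ m ∂μ, ∃ i, m ∈ A.ψ i '' ball 0 1 := by
  filter_upwards [hμ.ae_mem] with m hm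
  obtain ⟨i, z, hz, rfl⟩ := exists_chart hm
  exact ⟨i, z, hz, rfl⟩

theorem IsVol.aesm (hμ : A.IsVol μ) {F : Type} [NormedAddCommGroup F] {f : Eu N → F}
    (hf : ContinuousOn f A.M) : AEStronglyMeasurable f μ := by
  rw [← Measure.restrict_eq_self_of_ae_mem hμ.ae_mem]
  exact hf.aestronglyMeasurable A.isCompact_M.measurableSet

theorem IsVol.memLp (hμ : A.IsVol μ) {F : Type} [NormedAddCommGroup F] {f : Eu N → F}
    (hf : ContinuousOn f A.M) : MemLp f 2 μ := by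
  have := hμ.finite
  obtain ⟨C, hC⟩ := A.isCompact_M.exists_bound_of_continuousOn hf
  exact MemLp.of_bound (hμ.aesm hf) C (hμ.ae_mem.mono hC)

theorem IsVol.integrable (hμ : A.IsVol μ) {F : Type} [NormedAddCommGroup F] {f : Eu N → F}
    (hf : ContinuousOn f A.M) : Integrable f μ := by
  have := hμ.finite
  exact (hμ.memLp hf).integrable one_le_two

theorem IsVol.integral_loc (hμ : A.IsVol μ) {F : Type} [NormedAddCommGroup F] [NormedSpace ℝ F]
    (i : Fin k) {f : Eu N → F} (h : ∀ m ∈ A.M, m ∉ A.U i → f m = 0) :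
    ∫ m, f m ∂μ = ∫ z, f (A.ψ i z) ∂wm (ball 0 1) (A.rho i) := by
  rw [← (hμ.emb i).integral, setIntegral_eq_integral_of_ae_compl_eq_zero]
  filter_upwards [hμ.ae_mem] with m hm hm'
  exact h m hm fun hU => hm' (by rw [A.image i]; exact ⟨hm, hU⟩)

theorem IsVol.lintegral_loc (hμ : A.IsVol μ) (i : Fin k) {f : Eu N → ℝ≥0∞}
    (h : ∀ m ∈ A.M, m ∉ A.U i → f m = 0) :
    ∫⁻ m, f m ∂μ = ∫⁻ z, f (A.ψ i z) ∂wm (ball 0 1) (A.rho i) := by
  rw [← (hμ.emb i).lintegral, ← lintegral_indicator (hμ.emb i).measurableSet]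
  refine lintegral_congr_ae ?_
  filter_upwards [hμ.ae_mem] with m hm
  by_cases hU : m ∈ A.U i
  · rw [Set.indicator_of_mem (by rw [A.image i]; exact ⟨hm, hU⟩)]
  · rw [Set.indicator_of_notMem (by rw [A.image i]; exact fun h => hU h.2), h m hm hU]

theorem IsVol.lintegral_le (hμ : A.IsVol μ) (i : Fin k) (f : Eu N → ℝ≥0∞) :
    ∫⁻ z, f (A.ψ i z) ∂wm (ball 0 1) (A.rho i) ≤ ∫⁻ m, f m ∂μ := by
  rw [← (hμ.emb i).lintegral]
  exact setLIntegral_le_lintegral _ _

theorem IsVol.separable (hμ : A.IsVol μ) : TopologicalSpace.SeparableSpace (Lp W 2 μ) := by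
  have := hμ.finite
  have : Fact ((2 : ℝ≥0∞) ≠ ⊤) := ⟨by simp⟩
  have := FiniteDimensional.proper ℂ W
  infer_instance

end Atl

end Pool.Agent.P.MP_e0a138_an.AD
end
end

-- part Pool.Agent.P.MP_e0a138_an.GE7a
section

set_option autoImplicit false
set_option linter.unusedSectionVars false
set_option linter.unusedVariables false

open MeasureTheory Filter Topology Metric Complex
open scoped ENNReal NNReal ContDiff InnerProductSpace ComplexConjugate

noncomputable section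
namespace Pool.Agent.P.MP_e0a138_an.AD

variable {N p q k : ℕ} {W : Type} [NormedAddCommGroup W] [InnerProductSpace ℂ W]
  [FiniteDimensional ℂ W] [CompleteSpace W]
variable {A : Atl N p q k} {ε : Eu N →L[ℝ] W →L[ℂ] W}

namespace Atl
variable {c : Eu N →L[ℝ] W →L[ℂ] W} {Q : Eu N → Submodule ℝ (Eu N)}
  {D DF DH : (Eu N → W) → Eu N → W} {μ : Measure (Eu N)}

theorem Form.chart {u : Eu N → W} (hu : A.Form ε u) (i : Fin k) :
    ContDiffOn ℝ ∞ (fun z => u (A.ψ i z)) (ball 0 1) ∧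
      ∀ z ∈ ball (0 : Eu p × Eu q) 1, A.Pi ε (A.ψ i z) (u (A.ψ i z)) = u (A.ψ i z) :=
  ⟨contDiffOn_iff.1 hu.1 i, fun _ hz => hu.2 _ (ψ_mem i hz).1⟩

theorem Form.add {u v : Eu N → W} (hu : A.Form ε u) (hv : A.Form ε v) :
    A.Form ε (u + v) :=
  ⟨hu.1.add hv.1, fun m hm => by rw [Pi.add_apply, map_add, hu.2 m hm, hv.2 m hm]⟩

theorem Form.zero : A.Form ε (0 : Eu N → W) :=
  ⟨contDiffOn_const, fun m _ => map_zero _⟩

theorem Form.smul {u : Eu N → W} {g : Eu N → ℂ} (hg : ContDiffOn ℝ ∞ g A.M) (hu : A.Form ε u) :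
    A.Form ε fun m => g m • u m :=
  ⟨hg.smul hu.1, fun m hm => by rw [map_smul, hu.2 m hm]⟩

theorem Form.const_smul {u : Eu N → W} (c : ℂ) (hu : A.Form ε u) : A.Form ε (c • u) :=
  hu.smul (g := fun _ => c) contDiffOn_const

theorem Form.sum {J : Type} (s : Finset J) {u : J → Eu N → W} (hu : ∀ j ∈ s, A.Form ε (u j)) :
    A.Form ε fun m => ∑ j ∈ s, u j m :=
  ⟨ContDiffOn.sum fun j hj => (hu j hj).1, fun m hm => by
    rw [map_sum]; exact Finset.sum_congr rfl fun j hj => (hu j hj).2 m hm⟩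

theorem Form.clm {u : Eu N → W} {B : Eu N → W →L[ℂ] W} (hB : ContDiffOn ℝ ∞ B A.M)
    (hc : ∀ m ∈ A.M, A.Pi ε m * B m = B m * A.Pi ε m) (hu : A.Form ε u) :
    A.Form ε fun m => B m (u m) :=
  ⟨contDiffOn_capp hB hu.1, fun m hm => by
    have h1 := congrArg (fun T : W →L[ℂ] W => T (u m)) (hc m hm)
    have h2 : A.Pi ε m (u m) = u m := hu.2 m hm
    simp only [mul_apply_eq_comp, h2] at h1
    exact h1⟩

theorem ext_form (i : Fin k) {a : Eu p × Eu q → W} (ha : ContDiffOn ℝ ∞ a (ball 0 1)) {r : ℝ}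
    (hr : r < 1) (h0 : ∀ z ∈ ball (0 : Eu p × Eu q) 1, z ∉ closedBall (0 : Eu p × Eu q) r → a z = 0)
    (hP : ∀ z ∈ ball (0 : Eu p × Eu q) 1, A.Pi ε (A.ψ i z) (a z) = a z) :
    A.Form ε (A.ext i a) ∧ A.Loc i (A.ext i a) :=
  by
  refine ⟨⟨ext_smooth i ha hr h0, fun m hm => ?_⟩, r, hr, ext_zero i h0⟩
  by_cases hU : m ∈ A.U i
  · obtain ⟨h1, h2⟩ := φ_mem hm hU
    have := hP _ h1
    rw [← ext_chart (A := A) i a h1, h2] at this
    exact this
  · simp [ext, Set.indicator_of_notMem hU]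

theorem IsOp.zero (hD : A.IsOp ε c Q D) {u : Eu N → W} (hu : A.Form ε u) {K : Set (Eu N)}
    (hK : IsClosed K) (h : ∀ m ∈ A.M, m ∉ K → u m = 0) : ∀ m ∈ A.M, m ∉ K → D u m = 0 :=
  by
  intro m hm hK'
  obtain ⟨i, z, hz, rfl⟩ := exists_chart hm
  obtain ⟨Z, -, hZ⟩ := hD i
  rw [hZ u hu z hz]
  exact op_eq_zero isOpen_ball (hK.preimage (A.ψ_smooth i).continuous)
    (fun x hx hx' => h _ (ψ_mem i hx).1 hx') hz hK'

theorem IsOp.loc (hD : A.IsOp ε c Q D) {u : Eu N → W} (hu : A.Form ε u) {i : Fin k}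
    (h : A.Loc i u) : A.Loc i (D u) :=
  by
  obtain ⟨r, hr, h⟩ := h
  exact ⟨r, hr, hD.zero hu ((isCompact_closedBall _ _).image (A.ψ_smooth i).continuous).isClosed h⟩

theorem IsOp.add (hD : A.IsOp ε c Q D) {u v : Eu N → W} (hu : A.Form ε u) (hv : A.Form ε v) :
    ∀ m ∈ A.M, D (u + v) m = D u m + D v m :=
  by
  intro m hm
  obtain ⟨i, z, hz, rfl⟩ := exists_chart hm
  obtain ⟨Z, -, hZ⟩ := hD i
  rw [hZ u hu z hz, hZ v hv z hz, hZ _ (hu.add hv) z hz]
  exact op_add (diffAt_of_contDiffOn isOpen_ball (hu.chart i).1 hz)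
    (diffAt_of_contDiffOn isOpen_ball (hv.chart i).1 hz)

theorem IsOp.smul (hD : A.IsOp ε c Q D) {u : Eu N → W} (hu : A.Form ε u) (a : ℂ) :
    ∀ m ∈ A.M, D (a • u) m = a • D u m :=
  by
  intro m hm
  obtain ⟨i, z, hz, rfl⟩ := exists_chart hm
  obtain ⟨Z, -, hZ⟩ := hD i
  rw [hZ u hu z hz, hZ _ (hu.const_smul a) z hz]
  have := op_smul (b := cb) (A := A.sy c Q i) (B := Z) (c := fun _ => a)
    (differentiableAt_const a) (diffAt_of_contDiffOn isOpen_ball (hu.chart i).1 hz)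
  simpa using this

end Atl

end Pool.Agent.P.MP_e0a138_an.AD
end
end

-- part Pool.Agent.P.MP_e0a138_an.GE7
section

set_option autoImplicit false
set_option linter.unusedSectionVars false
set_option linter.unusedVariables false

open MeasureTheory Filter Topology Metric Complex
open scoped ENNReal NNReal ContDiff InnerProductSpace ComplexConjugate

noncomputable section
namespace Pool.Agent.P.MP_e0a138_an.AD

variable {N p q k : ℕ} {W : Type} [NormedAddCommGroup W] [InnerProductSpace ℂ W]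
  [FiniteDimensional ℂ W] [CompleteSpace W]
variable {A : Atl N p q k} {ε : Eu N →L[ℝ] W →L[ℂ] W}

namespace Atl
variable {DF DH : (Eu N → W) → Eu N → W} {μ : Measure (Eu N)}

theorem Dir.form (hD : A.Dir ε μ DF DH) (h : ℝ) {u : Eu N → W} (hu : A.Form ε u) :
    A.Form ε (Dh DF DH h u) :=
  (hD.formF u hu).add ((hD.formH u hu).const_smul _)

theorem Dir.grM_span (hD : A.Dir ε μ DF DH) (hμ : A.IsVol μ) (h : ℝ) :
    ∀ a ∈ Submodule.span ℂ (A.grM ε μ (Dh DF DH h)), a ∈ A.grM ε μ (Dh DF DH h) :=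
  by
  intro a ha
  induction ha using Submodule.span_induction with
  | mem x hx => exact hx
  | zero =>
    refine ⟨0, Form.zero, Lp.coeFn_zero _ _ _, ?_⟩
    filter_upwards [Lp.coeFn_zero W 2 μ, hμ.ae_mem] with m h1 hm
    have e1 := hD.opF.zero Form.zero isClosed_empty (fun _ _ _ => rfl) m hm (Set.notMem_empty _)
    have e2 := hD.opH.zero Form.zero isClosed_empty (fun _ _ _ => rfl) m hm (Set.notMem_empty _)
    rw [Prod.snd_zero, h1]
    simp [Dh, e1, e2]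
  | add x y _ _ hx hy =>
    obtain ⟨u, hu, x1, x2⟩ := hx
    obtain ⟨v, hv, y1, y2⟩ := hy
    refine ⟨u + v, hu.add hv, ?_, ?_⟩
    · filter_upwards [Lp.coeFn_add x.1 y.1, x1, y1] with m h1 h2 h3
      rw [Prod.fst_add, h1, Pi.add_apply, h2, h3, Pi.add_apply]
    · filter_upwards [Lp.coeFn_add x.2 y.2, x2, y2, hμ.ae_mem] with m h1 h2 h3 hm
      rw [Prod.snd_add, h1, Pi.add_apply, h2, h3]
      simp only [Dh, Pi.add_apply, Pi.smul_apply, hD.opF.add hu hv m hm, hD.opH.add hu hv m hm,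
        smul_add]
      abel
  | smul c x _ hx =>
    obtain ⟨u, hu, x1, x2⟩ := hx
    refine ⟨c • u, hu.const_smul c, ?_, ?_⟩
    · filter_upwards [Lp.coeFn_smul c x.1, x1] with m h1 h2
      rw [Prod.smul_fst, h1, Pi.smul_apply, h2, Pi.smul_apply]
    · filter_upwards [Lp.coeFn_smul c x.2, x2, hμ.ae_mem] with m h1 h2 hm
      rw [Prod.smul_snd, h1, Pi.smul_apply, h2]
      simp only [Dh, Pi.add_apply, Pi.smul_apply, hD.opF.smul hu c m hm, hD.opH.smul hu c m hm,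
        smul_add, smul_comm c]

theorem Dir.mem_grM (hD : A.Dir ε μ DF DH) (hμ : A.IsVol μ) (h : ℝ) {u : Eu N → W}
    (hu : A.Form ε u) : (toL μ u, toL μ (Dh DF DH h u)) ∈ A.grM ε μ (Dh DF DH h) :=
  ⟨u, hu, toL_ae (hμ.memLp hu.1.continuousOn), toL_ae (hμ.memLp (hD.form h hu).1.continuousOn)⟩

theorem Dir.sym (hD : A.Dir ε μ DF DH) (hμ : A.IsVol μ) (h : ℝ) :
    Sym (A.grM ε μ (Dh DF DH h)) :=
  by
  rintro a ⟨u, hu, a1, a2⟩ b ⟨v, hv, b1, b2⟩
  rw [inner_eq_of_ae a2 b1, inner_eq_of_ae a1 b2]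
  have i1 : ∀ {f g : Eu N → W}, A.Form ε f → A.Form ε g → Integrable (fun m => ⟪f m, g m⟫_ℂ) μ :=
    fun hf hg => hμ.integrable (hf.1.continuousOn.inner hg.1.continuousOn)
  simp only [Dh, Pi.add_apply, Pi.smul_apply, inner_add_left, inner_add_right, inner_smul_left,
    inner_smul_right, conj_ofReal]
  rw [integral_add (i1 (hD.formF u hu) hv) ((i1 (hD.formH u hu) hv).const_mul _),
    integral_add (i1 hu (hD.formF v hv)) ((i1 hu (hD.formH v hv)).const_mul _),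
    integral_const_mul, integral_const_mul, hD.symF u v hu hv, hD.symH u v hu hv]

theorem Dir.lft (hD : A.Dir ε μ DF DH) (hε : IsCAR ε) (t : Tr q k) {u : Eu N → W}
    (hu : A.Form ε u) (hl : A.Loc t.1 u) :
    A.Form ε (A.lft ε DF t u) ∧ A.Loc t.1 (A.lft ε DF t u) :=
  by
  have h1 : A.Form ε fun m => cl ε (A.cov t.1 t.2.2 m) (u m) :=
    hu.clm (B := fun m => cl ε (A.cov t.1 t.2.2 m))
      (((clL ε).contDiff.comp_contDiffOn (smooth_cov t.1 t.2.2)).congr fun m _ => by simp)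
      fun m _ => (Pi_comm hε (cov_mem _ _ _)).2.2
  refine ⟨(hD.formF u hu).add (h1.const_smul I), ?_⟩
  obtain ⟨r, hr, h0⟩ := hl
  refine ⟨r, hr, fun m hm hm' => ?_⟩
  have := hD.opF.zero hu
    ((isCompact_closedBall _ _).image (A.ψ_smooth t.1).continuous).isClosed h0 m hm hm'
  simp [Atl.lft, this, h0 m hm hm']

end Atl

end Pool.Agent.P.MP_e0a138_an.AD
end
end

-- part Pool.Agent.P.MP_e0a138_an.GE22a
section

set_option autoImplicit false
set_option linter.unusedSectionVars false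
set_option linter.unusedVariables false

open MeasureTheory Filter Topology Metric Complex
open scoped ENNReal NNReal ContDiff InnerProductSpace ComplexConjugate

noncomputable section
namespace Pool.Agent.P.MP_e0a138_an.AD

variable {N p q k : ℕ} {W : Type} [NormedAddCommGroup W] [InnerProductSpace ℂ W]
  [FiniteDimensional ℂ W] [CompleteSpace W]
variable {A : Atl N p q k} {ε : Eu N →L[ℝ] W →L[ℂ] W}

namespace Atl
variable {μ : Measure (Eu N)}

theorem ge22a_kap_ball (i : Fin k) {z : Eu p × Eu q} (hz : z ∈ ball (0 : Eu p × Eu q) 1) :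
    A.kap i z = A.χ i (A.ψ i z) * √(A.rho i z) := by
  simp only [kap, Set.indicator_of_mem hz]

theorem ge22a_kap_out (i : Fin k) {z : Eu p × Eu q} (hz : z ∉ ball (0 : Eu p × Eu q) 1) :
    A.kap i z = 0 := by
  simp only [kap, Set.indicator_of_notMem hz]

theorem ge22a_sqrt_smooth (i : Fin k) :
    ContDiffOn ℝ ∞ (fun z => √(A.rho i z)) (ball (0 : Eu p × Eu q) 1) :=
  (rho_smooth i).sqrt fun z hz => (rho_pos i hz).ne'

theorem ge22a_χ_smooth (i : Fin k) : ContDiff ℝ ∞ fun z => A.χ i (A.ψ i z) :=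
  (A.χ_smooth i).comp (A.ψ_smooth i)

theorem kap_props (A : Atl N p q k) : ∃ r : ℝ, 0 < r ∧ r < 1 ∧ ∀ i, ContDiff ℝ ∞ (A.kap i) ∧
    ∀ z ∉ closedBall (0 : Eu p × Eu q) r, A.kap i z = 0 := by
  obtain ⟨r, r0, r1, hr⟩ := A.exists_r
  refine ⟨r, r0, r1, fun i => ?_⟩
  have h0 : ∀ z ∉ closedBall (0 : Eu p × Eu q) r, A.kap i z = 0 := by
    intro z hz
    by_cases hb : z ∈ ball (0 : Eu p × Eu q) 1
    · rw [ge22a_kap_ball i hb, (chart_zero r1 (hr i)).1 z hb hz, zero_mul]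
    · exact ge22a_kap_out i hb
  refine ⟨contDiff_of_cpt isOpen_ball isClosed_closedBall (closedBall_subset_ball r1) ?_ h0, h0⟩
  exact ((ge22a_χ_smooth i).contDiffOn.mul (ge22a_sqrt_smooth i)).congr
    fun z hz => ge22a_kap_ball i hz

theorem kap_sq (i : Fin k) {z : Eu p × Eu q} (hz : z ∈ ball (0 : Eu p × Eu q) 1) :
    A.kap i z ^ 2 = A.rho i z * A.χ i (A.ψ i z) ^ 2 := by
  rw [ge22a_kap_ball i hz, mul_pow, Real.sq_sqrt (rho_nonneg i z), mul_comm]

theorem loc_smooth {u : Eu N → W} (hu : ContDiffOn ℝ ∞ u A.M) (i : Fin k) :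
    ContDiff ℝ ∞ (A.loc i u) ∧ HasCompactSupport (A.loc i u) := by
  obtain ⟨r, r0, r1, hr⟩ := A.kap_props
  have h0 : ∀ z ∉ closedBall (0 : Eu p × Eu q) r, A.loc i u z = 0 := by
    intro z hz
    simp only [loc, (hr i).2 z hz, ofReal_zero, zero_smul]
  refine ⟨contDiff_of_cpt isOpen_ball isClosed_closedBall (closedBall_subset_ball r1) ?_ h0,
    HasCompactSupport.intro (isCompact_closedBall _ _) h0⟩
  exact (contDiffOn_ofReal (hr i).1.contDiffOn).smul (contDiffOn_iff.1 hu i)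

theorem ge22a_loc_ind (i : Fin k) (v : Eu N → W) :
    A.loc i v = (ball (0 : Eu p × Eu q) 1).indicator (A.loc i v) := by
  funext z
  by_cases hb : z ∈ ball (0 : Eu p × Eu q) 1
  · rw [Set.indicator_of_mem hb]
  · rw [Set.indicator_of_notMem hb]
    simp only [loc, ge22a_kap_out i hb, ofReal_zero, zero_smul]

theorem ge22a_enorm_sq (c : ℝ) (x : W) :
    ‖(c : ℂ) • x‖ₑ ^ 2 = ENNReal.ofReal (c ^ 2) * ‖x‖ₑ ^ 2 := by
  rw [enorm_smul, mul_pow]
  congr 1
  rw [← ofReal_norm, ← ENNReal.ofReal_pow (norm_nonneg _), Complex.norm_real,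
    Real.norm_eq_abs, sq_abs]

theorem loc_lintegral (hμ : A.IsVol μ) (i : Fin k) (v : Eu N → W) :
    ∫⁻ z, ‖A.loc i v z‖ₑ ^ 2 = ∫⁻ m, ‖(A.χ i m : ℂ) • v m‖ₑ ^ 2 ∂μ := by
  have h1 : ∀ m ∈ A.M, m ∉ A.U i → ‖(A.χ i m : ℂ) • v m‖ₑ ^ 2 = 0 := by
    intro m hm hU
    have : A.χ i m = 0 := by
      by_contra h
      exact hU (mem_U_of_χ hm h)
    simp [this]
  rw [hμ.lintegral_loc i h1, lintegral_wm measurableSet_ball (rho_continuous i).continuousOn,
    ← lintegral_indicator measurableSet_ball]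
  refine lintegral_congr fun z => ?_
  by_cases hb : z ∈ ball (0 : Eu p × Eu q) 1
  · rw [Set.indicator_of_mem hb, loc, ge22a_enorm_sq, ge22a_enorm_sq, kap_sq i hb,
      ENNReal.ofReal_mul (rho_nonneg i z), mul_assoc]
  · rw [Set.indicator_of_notMem hb]
    simp [loc, ge22a_kap_out i hb]

theorem ge22a_ac (i : Fin k) : (volume : Measure (Eu p × Eu q)).restrict (ball 0 1) ≪
    wm (ball 0 1) (A.rho i) := by
  refine Measure.AbsolutelyContinuous.mk fun s hs h0 => ?_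
  have h1 : ∀ᵐ z ∂wm (ball (0 : Eu p × Eu q) 1) (A.rho i), z ∉ s := compl_mem_ae_iff.2 h0
  rw [ae_wm_iff measurableSet_ball (rho_continuous i).continuousOn
    (fun z hz => rho_pos i hz)] at h1
  exact compl_mem_ae_iff.1 ((ae_restrict_iff' measurableSet_ball).2 h1)

theorem loc_memLp (hμ : A.IsVol μ) (i : Fin k) {v : Eu N → W} (hv : MemLp v 2 μ) :
    MemLp (A.loc i v) 2 volume ∧ Integrable (A.loc i v) := by
  obtain ⟨r, r0, r1, hr⟩ := A.kap_props
  have h1 : AEStronglyMeasurable (fun z => v (A.ψ i z))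
      ((volume : Measure (Eu p × Eu q)).restrict (ball 0 1)) :=
    ((hμ.emb i).memLp_comp hv).1.mono_ac (ge22a_ac i)
  have h2 : AEStronglyMeasurable (A.loc i v) (volume : Measure (Eu p × Eu q)) := by
    rw [ge22a_loc_ind, aestronglyMeasurable_indicator_iff measurableSet_ball]
    exact (continuous_ofReal.comp (hr i).1.continuous).aestronglyMeasurable.smul h1
  have h3 : MemLp (A.loc i v) 2 volume := by
    refine memLp_two_iff.2 ⟨h2, ?_⟩
    rw [loc_lintegral hμ]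
    refine ne_top_of_le_ne_top (memLp_two_iff.1 hv).2 (lintegral_mono_ae ?_)
    filter_upwards [hμ.ae_mem] with m hm
    rw [ge22a_enorm_sq]
    exact mul_le_of_le_one_left zero_le (ENNReal.ofReal_le_one.2 (χ_sq_le hm i))
  refine ⟨h3, ?_⟩
  have : IsFiniteMeasure ((volume : Measure (Eu p × Eu q)).restrict (ball 0 1)) :=
    isFiniteMeasure_restrict.2 measure_ball_lt_top.ne
  rw [ge22a_loc_ind, integrable_indicator_iff measurableSet_ball]
  exact (h3.restrict (ball 0 1)).integrable one_le_two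

theorem loc_congr (hμ : A.IsVol μ) (i : Fin k) {v w : Eu N → W} (h : v =ᵐ[μ] w) :
    A.loc i v =ᵐ[volume] A.loc i w := by
  have h1 : ∀ᵐ z ∂wm (ball (0 : Eu p × Eu q) 1) (A.rho i), v (A.ψ i z) = w (A.ψ i z) :=
    (hμ.emb i).ae_iff.1 (h.mono fun s hs _ => hs)
  rw [ae_wm_iff measurableSet_ball (rho_continuous i).continuousOn
    (fun z hz => rho_pos i hz)] at h1
  filter_upwards [h1] with z hz
  by_cases hb : z ∈ ball (0 : Eu p × Eu q) 1
  · simp only [loc, hz hb]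
  · simp only [loc, ge22a_kap_out i hb, ofReal_zero, zero_smul]

theorem ge22a_norm_exp (t : ℝ) : ‖cexp (2 * Real.pi * I * (t : ℂ))‖ = 1 := by
  have : (2 * Real.pi * I * (t : ℂ) : ℂ) = ((2 * Real.pi * t : ℝ) : ℂ) * I := by
    push_cast; ring
  rw [this, norm_exp_ofReal_mul_I]

theorem uf_props (A : Atl N p q k) (hε : IsCAR ε) : ∃ (r : ℝ) (C : ℝ≥0), r < 1 ∧
    ∀ (i : Fin k) (ξ : Eu p) (e : W), A.Form ε (A.uf ε i ξ e) ∧ A.Loc i (A.uf ε i ξ e) ∧
      (∀ m ∈ A.M, m ∉ A.ψ i '' closedBall 0 r → A.uf ε i ξ e m = 0) ∧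
      (‖e‖ ≤ 1 → ∀ m ∈ A.M, ‖A.uf ε i ξ e m‖ ≤ C) := by
  obtain ⟨r, r0, r1, hr⟩ := A.exists_r
  have hg : ∀ i, ContDiffOn ℝ ∞ (fun z => A.χ i (A.ψ i z) * (√(A.rho i z))⁻¹)
      (ball (0 : Eu p × Eu q) 1) := fun i =>
    (ge22a_χ_smooth i).contDiffOn.mul ((ge22a_sqrt_smooth i).inv
      fun z hz => (Real.sqrt_pos.2 (rho_pos i hz)).ne')
  have hb : ∀ i, ∃ C : ℝ, ∀ z ∈ closedBall (0 : Eu p × Eu q) r,
      ‖A.χ i (A.ψ i z) * (√(A.rho i z))⁻¹‖ ≤ C := fun i =>
    (isCompact_closedBall _ _).exists_bound_of_continuousOn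
      ((hg i).continuousOn.mono (closedBall_subset_ball r1))
  choose C hC using hb
  refine ⟨r, ∑ i, ‖C i‖₊, r1, fun i ξ e => ?_⟩
  have hz0 := (chart_zero r1 (hr i)).1
  have h0 : ∀ z ∈ ball (0 : Eu p × Eu q) 1, z ∉ closedBall (0 : Eu p × Eu q) r →
      (((A.χ i (A.ψ i z) * (√(A.rho i z))⁻¹ : ℝ) : ℂ) *
        cexp (2 * Real.pi * I * ((⟪ξ, z.1⟫_ℝ : ℝ) : ℂ))) • A.Pi ε (A.ψ i z) e = 0 := by
    intro z hz hz'
    rw [hz0 z hz hz', zero_mul, ofReal_zero, zero_mul, zero_smul]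
  have hin : ContDiff ℝ ∞ fun z : Eu p × Eu q => (⟪ξ, z.1⟫_ℝ : ℝ) :=
    contDiff_const.inner ℝ contDiff_fst
  have hex : ContDiff ℝ ∞ fun z : Eu p × Eu q =>
      cexp (2 * Real.pi * I * ((⟪ξ, z.1⟫_ℝ : ℝ) : ℂ)) :=
    (contDiff_const.mul (ofRealCLM.contDiff.comp hin)).cexp
  have hs : ContDiffOn ℝ ∞ (fun z : Eu p × Eu q =>
      (((A.χ i (A.ψ i z) * (√(A.rho i z))⁻¹ : ℝ) : ℂ) *
        cexp (2 * Real.pi * I * ((⟪ξ, z.1⟫_ℝ : ℝ) : ℂ))) • A.Pi ε (A.ψ i z) e) (ball 0 1) :=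
    ((contDiffOn_ofReal (hg i)).mul hex.contDiffOn).smul
      (contDiffOn_capp (contDiffOn_iff.1 (A.smooth_Pi hε) i) contDiffOn_const)
  have hP : ∀ m, A.Pi ε m (A.Pi ε m e) = A.Pi ε m e := fun m => by
    rw [← mul_apply_eq_comp, Pi_idem]
  have hf := ext_form (ε := ε) i hs r1 h0 fun z hz => by rw [map_smul, hP]
  have hz := ext_zero (A := A) i h0
  refine ⟨hf.1, hf.2, hz, fun he m hm => ?_⟩
  by_cases hK : m ∈ A.ψ i '' closedBall 0 r
  · obtain ⟨z, hzr, rfl⟩ := hK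
    have hle : ‖C i‖₊ ≤ ∑ i, ‖C i‖₊ :=
      Finset.single_le_sum (f := fun i => ‖C i‖₊) (fun _ _ => zero_le) (Finset.mem_univ i)
    have hle' : ‖C i‖ ≤ ((∑ i, ‖C i‖₊ : ℝ≥0) : ℝ) := by exact_mod_cast hle
    have hPe : ‖A.Pi ε (A.ψ i z) e‖ ≤ 1 :=
      ((A.Pi ε (A.ψ i z)).le_opNorm e).trans
        (mul_le_one₀ (norm_proj_le (Pi_idem _) (Pi_star _)) (norm_nonneg _) he)
    rw [uf, ext_chart i _ (closedBall_subset_ball r1 hzr), norm_smul, norm_mul, ge22a_norm_exp,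
      mul_one, Complex.norm_real]
    calc _ ≤ ‖A.χ i (A.ψ i z) * (√(A.rho i z))⁻¹‖ := mul_le_of_le_one_right (norm_nonneg _) hPe
      _ ≤ C i := hC i z hzr
      _ ≤ _ := (le_abs_self _).trans hle'
  · rw [show A.uf ε i ξ e m = 0 from hz m hm hK, norm_zero]
    exact NNReal.coe_nonneg _

theorem uf_inner (i : Fin k) (ξ : Eu p) (e v : W) {z : Eu p × Eu q}
    (hz : z ∈ ball (0 : Eu p × Eu q) 1) : A.rho i z • ⟪A.uf ε i ξ e (A.ψ i z), v⟫_ℂ =
      ⟪e, cexp (-(2 * Real.pi * I * ((⟪ξ, z.1⟫_ℝ : ℝ) : ℂ))) •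
        (A.kap i z : ℂ) • A.Pi ε (A.ψ i z) v⟫_ℂ := by
  have hs : ⟪A.Pi ε (A.ψ i z) e, v⟫_ℂ = ⟪e, A.Pi ε (A.ψ i z) v⟫_ℂ := by
    conv_lhs => rw [← Pi_star, ContinuousLinearMap.star_eq_adjoint]
    exact ContinuousLinearMap.adjoint_inner_left _ _ _
  have hc : conj (cexp (2 * Real.pi * I * ((⟪ξ, z.1⟫_ℝ : ℝ) : ℂ))) =
      cexp (-(2 * Real.pi * I * ((⟪ξ, z.1⟫_ℝ : ℝ) : ℂ))) := by
    rw [← exp_conj]
    congr 1
    simp only [map_mul, conj_ofReal, conj_I, map_ofNat]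
    ring
  have hk : A.rho i z * (A.χ i (A.ψ i z) * (√(A.rho i z))⁻¹) = A.kap i z := by
    have h1 : √(A.rho i z) ≠ 0 := (Real.sqrt_pos.2 (rho_pos i hz)).ne'
    have h2 := Real.mul_self_sqrt (rho_nonneg (A := A) i z)
    rw [ge22a_kap_ball i hz]
    field_simp
    rw [sq, h2, mul_comm]
  rw [uf, ext_chart i _ hz, inner_smul_left, inner_smul_right, inner_smul_right, hs, map_mul, hc,
    conj_ofReal, ← hk, Complex.real_smul]
  push_cast
  ring

end Atl

end Pool.Agent.P.MP_e0a138_an.AD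
end
end

-- part Pool.Agent.P.MP_e0a138_an.AN8
section

set_option autoImplicit false
set_option linter.unusedSectionVars false
set_option linter.unusedVariables false

open MeasureTheory Filter Topology Metric Complex
open scoped ENNReal NNReal ContDiff InnerProductSpace ComplexConjugate

noncomputable section
namespace Pool.Agent.P.MP_e0a138_an.AD

variable {N p q k : ℕ} {W : Type} [NormedAddCommGroup W] [InnerProductSpace ℂ W]
  [FiniteDimensional ℂ W] [CompleteSpace W]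

section aux
open scoped FourierTransform
variable {E : Type} [NormedAddCommGroup E] [InnerProductSpace ℝ E]
  [FiniteDimensional ℝ E] [MeasurableSpace E] [BorelSpace E]

theorem an8_eq (G : E → W) (ξ : E) :
    ∫ x, cexp (-(2 * Real.pi * I * ((⟪ξ, x⟫_ℝ : ℝ) : ℂ))) • G x = 𝓕 G ξ := by
  rw [Real.fourier_eq']
  refine integral_congr_ae (Eventually.of_forall fun x => ?_)
  simp only
  rw [real_inner_comm]
  congr 2
  push_cast
  ring

theorem an8_cont {G : E → W} (h1 : Integrable G) : Continuous (𝓕 G) :=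
  VectorFourier.fourierIntegral_continuous Real.continuous_fourierChar
    (L := innerₗ E) continuous_inner h1

theorem an8_ae {G : E → W} (h1 : Integrable G) (h2 : MemLp G 2 volume) :
    ∀ᵐ ξ, (𝓕 (h2.toLp G) : Lp W 2 (volume : Measure E)) ξ = 𝓕 G ξ := by
  refine ae_eq_of_integral_contDiff_smul_eq
    ((Lp.memLp (𝓕 (h2.toLp G) : Lp W 2 (volume : Measure E))).locallyIntegrable (by norm_num))
    (an8_cont h1).locallyIntegrable fun φ hφ hs => ?_
  have hφ' : ContDiff ℝ (⊤ : ℕ∞) fun x => (φ x : ℂ) := Complex.ofRealCLM.contDiff.comp hφ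
  have hs' : HasCompactSupport fun x => (φ x : ℂ) := hs.comp_left (g := fun r : ℝ => (r : ℂ)) rfl
  set f : SchwartzMap E ℂ := hs'.toSchwartzMap hφ' with hf
  have hfx : ∀ x, f x = (φ x : ℂ) := fun x => rfl
  have e1 := congrArg (fun T : TemperedDistribution E W => T f)
    (Lp.fourier_toTemperedDistribution_eq (h2.toLp G))
  simp only [TemperedDistribution.fourier_apply, Lp.toTemperedDistribution_apply] at e1
  have e2 := VectorFourier.integral_fourierIntegral_smul_eq_flip (μ := volume) (ν := volume)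
    (L := innerₗ E) Real.continuous_fourierChar continuous_inner f.integrable h1
  rw [flip_innerₗ] at e2
  have e3 : ∫ x, (𝓕 f) x • (h2.toLp G : Lp W 2 (volume : Measure E)) x = ∫ x, f x • 𝓕 G x := by
    refine Eq.trans ?_ e2
    refine integral_congr_ae ?_
    filter_upwards [h2.coeFn_toLp] with x hx
    rw [hx]
    rfl
  simp only [← Complex.coe_smul, ← hfx]
  rw [← e1, e3]

theorem an8_sq (u : E → W) : ∫⁻ x, ‖u x‖ₑ ^ 2 = eLpNorm u 2 volume ^ 2 := by
  have := eLpNorm_nnreal_pow_eq_lintegral (f := u) (μ := volume) (p := 2) two_ne_zero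
  simpa using this.symm

end aux

theorem plancherel {E : Type} [NormedAddCommGroup E] [InnerProductSpace ℝ E]
    [FiniteDimensional ℝ E] [MeasurableSpace E] [BorelSpace E] {G : E → W} (h1 : Integrable G)
    (h2 : MemLp G 2 volume) :
    ∫⁻ ξ, ‖∫ x, cexp (-(2 * Real.pi * I * ((⟪ξ, x⟫_ℝ : ℝ) : ℂ))) • G x‖ₑ ^ 2 =
      ∫⁻ x, ‖G x‖ₑ ^ 2 := by
  simp only [an8_eq]
  rw [an8_sq, an8_sq, ← eLpNorm_congr_ae (an8_ae h1 h2), ← Lp.enorm_def, ← Lp.enorm_toLp h2,
    ← ofReal_norm, ← ofReal_norm, Lp.norm_fourier_eq]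

theorem fourier_continuous {E : Type} [NormedAddCommGroup E] [InnerProductSpace ℝ E]
    [FiniteDimensional ℝ E] [MeasurableSpace E] [BorelSpace E] {G : E → W} (h1 : Integrable G) :
    Continuous fun ξ : E => ∫ x, cexp (-(2 * Real.pi * I * ((⟪ξ, x⟫_ℝ : ℝ) : ℂ))) • G x := by
  simp only [an8_eq]
  exact an8_cont h1

end Pool.Agent.P.MP_e0a138_an.AD
end
end

-- part Pool.Agent.P.MP_e0a138_an.AN8b
section

set_option autoImplicit false
set_option linter.unusedSectionVars false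
set_option linter.unusedVariables false

open MeasureTheory Filter Topology Metric Complex
open scoped ENNReal NNReal ContDiff InnerProductSpace ComplexConjugate

noncomputable section
namespace Pool.Agent.P.MP_e0a138_an.AD

variable {N p q k : ℕ} {W : Type} [NormedAddCommGroup W] [InnerProductSpace ℂ W]
  [FiniteDimensional ℂ W] [CompleteSpace W]

theorem AN8b_FT (G : Eu p × Eu q → W) (ξ : WithLp 2 (Eu p × Eu q)) :
    FT G (WithLp.ofLp ξ) = ∫ x : WithLp 2 (Eu p × Eu q),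
      cexp (-(2 * Real.pi * I * ((⟪ξ, x⟫_ℝ : ℝ) : ℂ))) • G (WithLp.ofLp x) := by
  rw [FT, ← (WithLp.volume_preserving_ofLp (Eu p) (Eu q)).integral_comp
    (MeasurableEquiv.toLp 2 (Eu p × Eu q)).symm.measurableEmbedding]
  simp only [WithLp.prod_inner_apply]

theorem AN8b_int {G : Eu p × Eu q → W} (h1 : Integrable G) :
    Integrable fun x : WithLp 2 (Eu p × Eu q) => G (WithLp.ofLp x) :=
  (WithLp.volume_preserving_ofLp (Eu p) (Eu q)).integrable_comp_of_integrable h1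

theorem plancherel2 {G : Eu p × Eu q → W} (h1 : Integrable G) (h2 : MemLp G 2 volume) :
    ∫⁻ ζ, ‖FT G ζ‖ₑ ^ 2 = ∫⁻ z, ‖G z‖ₑ ^ 2 := by
  have hm := WithLp.volume_preserving_ofLp (Eu p) (Eu q)
  have he : MeasurableEmbedding (WithLp.ofLp : WithLp 2 (Eu p × Eu q) → Eu p × Eu q) :=
    (MeasurableEquiv.toLp 2 (Eu p × Eu q)).symm.measurableEmbedding
  rw [← hm.lintegral_comp_emb he, ← hm.lintegral_comp_emb he]
  simp only [AN8b_FT]
  exact plancherel (AN8b_int h1) (h2.comp_measurePreserving hm)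

theorem FT_continuous {G : Eu p × Eu q → W} (h1 : Integrable G) : Continuous (FT G) := by
  have h := (fourier_continuous (AN8b_int h1)).comp
    (WithLp.prod_continuous_toLp 2 (Eu p) (Eu q))
  refine h.congr fun ζ => ?_
  exact (AN8b_FT G (WithLp.toLp 2 ζ)).symm

theorem FT_fderiv {G : Eu p × Eu q → W} (hG : ContDiff ℝ ∞ G) (hc : HasCompactSupport G)
    (w ζ : Eu p × Eu q) : FT (fun z => fderiv ℝ G z w) ζ =
      (2 * Real.pi * I * ((⟪ζ.1, w.1⟫_ℝ + ⟪ζ.2, w.2⟫_ℝ : ℝ) : ℂ)) • FT G ζ := by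
  let L : Eu p × Eu q →L[ℝ] ℝ := innerSL ℝ ζ.1 ∘L ContinuousLinearMap.fst ℝ _ _ +
    innerSL ℝ ζ.2 ∘L ContinuousLinearMap.snd ℝ _ _
  have hL : ∀ z, L z = ⟪ζ.1, z.1⟫_ℝ + ⟪ζ.2, z.2⟫_ℝ := fun z => rfl
  let f : Eu p × Eu q → ℂ := fun z => cexp (-(2 * Real.pi * I * ((L z : ℝ) : ℂ)))
  have hf : ∀ z, HasFDerivAt f
      (f z • (-((2 * Real.pi * I : ℂ) • (ofRealCLM ∘L L)))) z := fun z =>
    ((((ofRealCLM ∘L L).hasFDerivAt (x := z)).const_mul (2 * Real.pi * I : ℂ)).neg).cexp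
  have hfd : ∀ z, fderiv ℝ f z w = -((2 * Real.pi * I * ((L w : ℝ) : ℂ)) * f z) := fun z => by
    rw [(hf z).fderiv]
    simp
    ring
  have hfc : Continuous f := continuous_iff_continuousAt.2 fun z => (hf z).continuousAt
  have hGd : Continuous fun z => fderiv ℝ G z w :=
    (hG.continuous_fderiv (by simp)).clm_apply continuous_const
  have h3 : Integrable fun z => f z • G z :=
    (hfc.smul hG.continuous).integrable_of_hasCompactSupport hc.smul_left
  have h2 : Integrable fun z => f z • fderiv ℝ G z w :=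
    (hfc.smul hGd).integrable_of_hasCompactSupport (hc.fderiv_apply ℝ w).smul_left
  have e : (fun z => fderiv ℝ f z w • G z) =
      fun z => (-(2 * Real.pi * I * ((L w : ℝ) : ℂ))) • (f z • G z) := by
    funext z
    rw [hfd, smul_smul, neg_mul]
  have h1 : Integrable fun z => fderiv ℝ f z w • G z := by
    rw [e]
    exact h3.smul _
  have key := integral_smul_fderiv_eq_neg_fderiv_smul_of_integrable h1 h2 h3
    (fun z _ => (hf z).differentiableAt) (fun z _ => hG.differentiable (by simp) z)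
  rw [e, integral_smul, neg_smul, neg_neg] at key
  exact key

end Pool.Agent.P.MP_e0a138_an.AD
end
end

-- part Pool.Agent.P.MP_e0a138_an.AN9a
section

set_option autoImplicit false
set_option linter.unusedSectionVars false
set_option linter.unusedVariables false

open MeasureTheory Filter Topology Metric Complex
open scoped ENNReal NNReal ContDiff InnerProductSpace ComplexConjugate

noncomputable section
namespace Pool.Agent.P.MP_e0a138_an.AD

variable {N p q k : ℕ} {W : Type} [NormedAddCommGroup W] [InnerProductSpace ℂ W]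
  [FiniteDimensional ℂ W] [CompleteSpace W]

theorem AN9a_lin (T : Eu q →ₗ[ℝ] Eu q) (hT : LinearMap.det T ≠ 0) {f : Eu q → ℝ≥0∞}
    (hf : Measurable f) :
    ∫⁻ Y, f (T Y) = ENNReal.ofReal |(LinearMap.det T)⁻¹| * ∫⁻ t, f t := by
  rw [← lintegral_map hf T.continuous_of_finiteDimensional.measurable,
    Measure.map_linearMap_addHaar_eq_smul_addHaar volume hT, lintegral_smul_measure, smul_eq_mul]

theorem AN9a_sq {a : ℝ} (ha : 0 < a) (b : ℝ) :
    ‖(√a)⁻¹ * b‖ₑ ^ 2 = ENNReal.ofReal a⁻¹ * ‖b‖ₑ ^ 2 := by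
  rw [enorm_mul, mul_pow, Real.enorm_eq_ofReal (by positivity),
    ← ENNReal.ofReal_pow (by positivity), inv_pow, Real.sq_sqrt ha.le]

theorem integral_bw_sq {β : Eu q → ℝ} (hβ : Continuous β) {h : ℝ} (hh : 0 < h) (y : Eu q)
    (e : Eu q ≃L[ℝ] Eu q) : ∫⁻ Y, ‖bw β h y (e.symm : Eu q →L[ℝ] Eu q) Y‖ₑ ^ 2 =
      jac e * ∫⁻ t, ‖β t‖ₑ ^ 2 := by
  have hs := sc_pos hh
  have hsq : 0 < sc h ^ q := pow_pos hs q
  have hf : Measurable fun t => ‖β t‖ₑ ^ 2 := hβ.measurable.enorm.pow_const 2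
  let T : Eu q →ₗ[ℝ] Eu q := (sc h)⁻¹ • (e.toLinearEquiv.symm : Eu q →ₗ[ℝ] Eu q)
  have hd : LinearMap.det (e.toLinearEquiv : Eu q →ₗ[ℝ] Eu q) ≠ 0 :=
    e.toLinearEquiv.isUnit_det'.ne_zero
  have hT : LinearMap.det T =
      (sc h ^ q)⁻¹ * (LinearMap.det (e.toLinearEquiv : Eu q →ₗ[ℝ] Eu q))⁻¹ := by
    rw [LinearMap.det_smul, finrank_Eu, LinearEquiv.det_coe_symm, inv_pow]
  have hT0 : LinearMap.det T ≠ 0 := by
    rw [hT]
    positivity
  have h1 : ∀ Y, ‖bw β h y (e.symm : Eu q →L[ℝ] Eu q) Y‖ₑ ^ 2 =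
      ENNReal.ofReal (sc h ^ q)⁻¹ * ‖β (T (Y - y))‖ₑ ^ 2 := fun Y => AN9a_sq hsq _
  simp only [h1]
  rw [lintegral_const_mul' _ _ ENNReal.ofReal_ne_top,
    lintegral_sub_right_eq_self (fun Y => ‖β (T Y)‖ₑ ^ 2) y, AN9a_lin T hT0 hf, ← mul_assoc,
    ← ENNReal.ofReal_mul (by positivity), hT, mul_inv, inv_inv, inv_inv, abs_mul, abs_of_pos hsq,
    inv_mul_cancel_left₀ hsq.ne', ← Real.norm_eq_abs, ofReal_norm]
  rfl

theorem integral_bw_sq' {β : Eu q → ℝ} (hβ : Continuous β) {h : ℝ} (hh : 0 < h) (Y : Eu q) :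
    ∫⁻ y, ‖bw β h y (ContinuousLinearMap.id ℝ _) Y‖ₑ ^ 2 = ∫⁻ t, ‖β t‖ₑ ^ 2 := by
  have h1 := integral_bw_sq hβ hh 0 (ContinuousLinearEquiv.refl ℝ (Eu q))
  rw [jac_refl, ENNReal.coe_one, one_mul] at h1
  rw [← h1, ← lintegral_sub_left_eq_self _ Y]
  refine lintegral_congr fun y => ?_
  simp [bw]

theorem lintegral_window {β : Eu q → ℝ} (hβ : Continuous β) (hc : HasCompactSupport β) :
    ∫⁻ t, ‖β t‖ₑ ^ 2 = ENNReal.ofReal (∫ t, β t ^ 2) := by
  have h1 : Integrable fun t => β t ^ 2 :=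
    (hβ.fun_pow 2).integrable_of_hasCompactSupport
      (HasCompactSupport.intro hc fun t ht => by rw [image_eq_zero_of_notMem_tsupport ht]; simp)
  rw [ofReal_integral_eq_lintegral_ofReal h1 (ae_of_all _ fun t => sq_nonneg _)]
  refine lintegral_congr fun t => ?_
  rw [← sq_abs, ENNReal.ofReal_pow (abs_nonneg _), Real.enorm_eq_ofReal_abs]

theorem norm_Lam (β : Eu q → ℝ) {h : ℝ} (hh : 0 < h) (G : Eu p × Eu q → W) (ξ : Eu p)
    (y η : Eu q) : ‖Lam β h G (ξ, y, η)‖ₑ =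
      ‖FT (fun z => (bw β h y (ContinuousLinearMap.id ℝ _) z.2 : ℂ) • G z)
        (ξ, (2 * Real.pi * h)⁻¹ • η)‖ₑ := by
  have h0 : (h : ℂ) ≠ 0 := ofReal_ne_zero.2 hh.ne'
  have hp : (Real.pi : ℂ) ≠ 0 := ofReal_ne_zero.2 Real.pi_ne_zero
  have h1 : Lam β h G (ξ, y, η) = cexp (((⟪η, y⟫_ℝ / h : ℝ) : ℂ) * I) •
      FT (fun z => (bw β h y (ContinuousLinearMap.id ℝ _) z.2 : ℂ) • G z)
        (ξ, (2 * Real.pi * h)⁻¹ • η) := by
    rw [Lam, FT, ← integral_smul]
    refine integral_congr_ae (ae_of_all _ fun z => ?_)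
    simp only [ph, smul_smul, map_mul, conj_ofReal, ← exp_conj, conj_I]
    refine congrArg (fun c : ℂ => c • G z) ?_
    rw [mul_assoc, ← Complex.exp_add, ← mul_assoc, ← Complex.exp_add, mul_comm]
    refine congrArg (fun c : ℂ => cexp c * _) ?_
    rw [inner_sub_right, real_inner_smul_left]
    push_cast
    field_simp
    ring
  rw [h1, enorm_smul, ← ofReal_norm, Complex.norm_exp_ofReal_mul_I, ENNReal.ofReal_one,
    one_mul]

theorem Lam_continuous {β : Eu q → ℝ} (hβ : Continuous β) (hc : HasCompactSupport β) (h : ℝ)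
    {G : Eu p × Eu q → W} (h1 : Integrable G) : Continuous (Lam β h G) := by
  obtain ⟨C, hC⟩ := hβ.bounded_above_of_compact_support hc
  have hcont : Continuous fun w : (Eu p × Eu q × Eu q) × (Eu p × Eu q) =>
      conj (ph β h w.1.2.1 w.1.2.2 (ContinuousLinearMap.id ℝ _) w.2.2) *
        cexp (-(2 * Real.pi * I * ((⟪w.1.1, w.2.1⟫_ℝ : ℝ) : ℂ))) := by
    simp only [ph, bw]
    fun_prop
  refine continuous_of_dominated (bound := fun z => (√(sc h ^ q))⁻¹ * C * ‖G z‖) (fun o => ?_)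
    (fun o => ae_of_all _ fun z => ?_) (h1.norm.const_mul _) (ae_of_all _ fun z => ?_)
  · exact (hcont.comp (continuous_const.prodMk continuous_id)).aestronglyMeasurable.smul
      h1.aestronglyMeasurable
  · have h2 : ∀ t : ℝ, ‖cexp (-(2 * Real.pi * I * (t : ℂ)))‖ = 1 := fun t => by
      rw [← Complex.norm_exp_ofReal_mul_I (-(2 * Real.pi * t))]
      push_cast
      ring_nf
    rw [norm_smul, norm_mul, h2, mul_one, RCLike.norm_conj, norm_ph, bw, abs_mul,
      abs_of_nonneg (by positivity)]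
    gcongr
    exact hC _
  · exact (hcont.comp (continuous_id.prodMk continuous_const)).smul continuous_const

end Pool.Agent.P.MP_e0a138_an.AD
end
end

-- part Pool.Agent.P.MP_e0a138_an.GE18
section

set_option autoImplicit false
set_option linter.unusedSectionVars false
set_option linter.unusedVariables false

open MeasureTheory Filter Topology Metric Complex
open scoped ENNReal NNReal ContDiff InnerProductSpace ComplexConjugate

noncomputable section
namespace Pool.Agent.P.MP_e0a138_an.AD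

variable {N p q k : ℕ} {W : Type} [NormedAddCommGroup W] [InnerProductSpace ℂ W]
  [FiniteDimensional ℂ W] [CompleteSpace W]
variable {A : Atl N p q k} {ε : Eu N →L[ℝ] W →L[ℂ] W}

namespace Atl
variable {μ : Measure (Eu N)}

theorem pk_form {β : Eu q → ℝ} (hβ : ContDiff ℝ ∞ β) (h : ℝ) (t : Tr q k) (L : Eu q →L[ℝ] Eu q)
    {u : Eu N → W} (hu : A.Form ε u) : A.Form ε (A.pk β h t L u) :=
  Form.smul (g := fun m => ph β h t.2.1 t.2.2 L (A.φ t.1 m).2)
    ((contDiff_ph hβ h t.2.1 t.2.2 L).comp (A.φ_smooth t.1).snd).contDiffOn hu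

theorem pk_continuousOn {β : Eu q → ℝ} (hβ : Continuous β) (h : ℝ) (t : Tr q k)
    (L : Eu q →L[ℝ] Eu q) {u : Eu N → W} (hu : ContinuousOn u A.M) :
    ContinuousOn (A.pk β h t L u) A.M :=
  (((contDiff_ph (contDiff_zero.2 hβ) h t.2.1 t.2.2 L).continuous.comp
    (A.φ_smooth t.1).continuous.snd).continuousOn).smul hu

theorem pk_bound (hμ : A.IsVol μ) {β : Eu q → ℝ} (hβ : Continuous β) (hc : HasCompactSupport β)
    (i : Fin k) (e : Eu q ≃L[ℝ] Eu q) : ∃ C : ℝ≥0, ∀ (u : Eu N → W) (C₀ : ℝ≥0) (h : ℝ)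
      (y η : Eu q), 0 < h → (∀ m ∈ A.M, ‖u m‖ ≤ C₀) → (∀ m ∈ A.M, m ∉ A.U i → u m = 0) →
      ∫⁻ m, ‖A.pk β h (i, y, η) (e.symm : Eu q →L[ℝ] Eu q) u m‖ₑ ^ 2 ∂μ ≤ C * C₀ ^ 2 := by
  obtain ⟨R, hR⟩ := A.rho_bdd i
  have hV : (volume (ball (0 : Eu p) 1)) ≠ ⊤ := measure_ball_lt_top.ne
  refine ⟨R * ((volume (ball (0 : Eu p) 1)).toNNReal * (jac e * (∫ t, β t ^ 2).toNNReal)), ?_⟩
  intro u C₀ h y η hh hu h0
  have hm : Measurable fun Y => ‖bw β h y (e.symm : Eu q →L[ℝ] Eu q) Y‖ₑ ^ 2 :=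
    (contDiff_bw (contDiff_zero.2 hβ) h y _).continuous.measurable.enorm.pow_const 2
  have hm2 : Measurable fun z : Eu p × Eu q =>
      ‖bw β h y (e.symm : Eu q →L[ℝ] Eu q) z.2‖ₑ ^ 2 := hm.comp measurable_snd
  rw [hμ.lintegral_loc i (fun m hm hU => by simp [pk, h0 m hm hU]),
    lintegral_wm measurableSet_ball (A.rho_continuous i).continuousOn]
  calc ∫⁻ z in ball (0 : Eu p × Eu q) 1, ENNReal.ofReal (A.rho i z) *
        ‖A.pk β h (i, y, η) (e.symm : Eu q →L[ℝ] Eu q) u (A.ψ i z)‖ₑ ^ 2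
      ≤ ∫⁻ z in ball (0 : Eu p × Eu q) 1,
          (R * C₀ ^ 2) * ‖bw β h y (e.symm : Eu q →L[ℝ] Eu q) z.2‖ₑ ^ 2 := by
        refine setLIntegral_mono' measurableSet_ball fun z hz => ?_
        rw [mul_assoc]
        refine mul_le_mul' (ENNReal.ofReal_le_coe.2 (hR z hz)) ?_
        rw [← mul_pow]
        refine pow_le_pow_left' ?_ 2
        have h1 : ‖ph β h y η (e.symm : Eu q →L[ℝ] Eu q) z.2‖ₑ =
            ‖bw β h y (e.symm : Eu q →L[ℝ] Eu q) z.2‖ₑ := by
          rw [← ofReal_norm, ← ofReal_norm, norm_ph, Real.norm_eq_abs]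
        have h2 : ‖u (A.ψ i z)‖ₑ ≤ C₀ := by
          rw [← ofReal_norm]
          exact ENNReal.ofReal_le_coe.2 (hu _ (A.ψ_mem i hz).1)
        simp only [pk, A.left_inv i z hz, enorm_smul, h1]
        rw [mul_comm]
        exact mul_le_mul' h2 le_rfl
    _ ≤ ∫⁻ z in ball (0 : Eu p) 1 ×ˢ (Set.univ : Set (Eu q)),
          (R * C₀ ^ 2) * ‖bw β h y (e.symm : Eu q →L[ℝ] Eu q) z.2‖ₑ ^ 2 :=
        lintegral_mono_set fun z hz => ⟨(mem_ball_prod.1 hz).1, trivial⟩
    _ = (R * C₀ ^ 2) * (volume (ball (0 : Eu p) 1) * (jac e * ∫⁻ t, ‖β t‖ₑ ^ 2)) := by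
        rw [lintegral_const_mul _ hm2, Measure.volume_eq_prod,
          ← Measure.prod_restrict, Measure.restrict_univ,
          lintegral_prod _ hm2.aemeasurable]
        simp only [integral_bw_sq hβ hh y e, lintegral_const, Measure.restrict_apply_univ]
        rw [mul_comm (volume _)]
    _ = _ := by
        rw [lintegral_window hβ hc]
        push_cast
        rw [ENNReal.coe_toNNReal hV, ENNReal.ofReal]
        ring

theorem pk_norm_bound (hμ : A.IsVol μ) {β : Eu q → ℝ} (hβ : Continuous β)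
    (hc : HasCompactSupport β) (t : Tr q k) (e : Eu q ≃L[ℝ] Eu q) {u : Eu N → W}
    (hu : ContinuousOn u A.M) (hl : A.Loc t.1 u) : ∃ C : ℝ, ∀ h : ℝ, 0 < h →
      ‖toL μ (A.pk β h t (e.symm : Eu q →L[ℝ] Eu q) u)‖ ≤ C := by
  obtain ⟨C, hC⟩ := pk_bound (W := W) hμ hβ hc t.1 e
  obtain ⟨B, hB⟩ := A.isCompact_M.exists_bound_of_continuousOn hu
  obtain ⟨r, hr, hl⟩ := hl
  refine ⟨√(C * B.toNNReal ^ 2 : ℝ≥0), fun h hh => ?_⟩
  have h1 := hC u B.toNNReal h t.2.1 t.2.2 hh (fun m hm => (hB m hm).trans (Real.le_coe_toNNReal B))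
    (chart_zero hr hl).2
  have h2 := enorm_sq_eq_of_ae
    (toL_ae (hμ.memLp (pk_continuousOn hβ h t (e.symm : Eu q →L[ℝ] Eu q) hu)))
  refine Real.le_sqrt_of_sq_le ?_
  have h3 := h2.trans_le h1
  rw [enorm_eq_nnnorm] at h3
  have h4 : ‖toL μ (A.pk β h t (e.symm : Eu q →L[ℝ] Eu q) u)‖₊ ^ 2 ≤ C * B.toNNReal ^ 2 := by
    exact_mod_cast h3
  exact_mod_cast h4

theorem pk_vanish {β : Eu q → ℝ} (hc : HasCompactSupport β) {r : ℝ} (hr : r < 1) :
    ∀ᶠ h in 𝓝[>] (0 : ℝ), ∀ (i : Fin k) (y η : Eu q) (u : Eu N → W), y ∉ ball (0 : Eu q) 1 →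
      (∀ m ∈ A.M, m ∉ A.ψ i '' closedBall 0 r → u m = 0) →
      ∀ m ∈ A.M, A.pk β h (i, y, η) (ContinuousLinearMap.id ℝ _) u m = 0 := by
  obtain ⟨R, hR0, hR⟩ := hc.isCompact.isBounded.subset_ball_lt 0 0
  have hev : ∀ᶠ h in 𝓝[>] (0 : ℝ), sc h < (1 - r) / R :=
    sc_tendsto.eventually (gt_mem_nhds (div_pos (by linarith) hR0))
  filter_upwards [hev, self_mem_nhdsWithin] with h h1 hh i y η u hy h0 m hm
  by_cases hm' : m ∈ A.ψ i '' closedBall 0 r
  · obtain ⟨z, hz, rfl⟩ := hm'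
    have hz1 : z ∈ ball (0 : Eu p × Eu q) 1 := closedBall_subset_ball hr hz
    have hs := sc_pos hh
    have h2 : ‖z.2‖ ≤ r := mem_closedBall_zero_iff.1 (mem_closedBall_prod.1 hz).2
    have h3 : 1 ≤ ‖y‖ := not_lt.1 fun h => hy (mem_ball_zero_iff.2 h)
    have h4 : 1 - r ≤ ‖z.2 - y‖ := by
      have := norm_sub_norm_le y z.2
      rw [norm_sub_rev] at this
      linarith
    have h5 : β ((sc h)⁻¹ • (z.2 - y)) = 0 := by
      refine image_eq_zero_of_notMem_tsupport fun hmem => ?_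
      have h6 := mem_ball_zero_iff.1 (hR hmem)
      rw [norm_smul, norm_inv, Real.norm_of_nonneg hs.le, inv_mul_lt_iff₀ hs] at h6
      rw [lt_div_iff₀ hR0] at h1
      linarith
    simp [pk, A.left_inv i z hz1, ph, bw, h5]
  · simp [pk, h0 m hm hm']

end Atl

end Pool.Agent.P.MP_e0a138_an.AD
end
end

-- part Pool.Agent.P.MP_e0a138_an.GE22b
section

set_option autoImplicit false
set_option linter.unusedSectionVars false
set_option linter.unusedVariables false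

open MeasureTheory Filter Topology Metric Complex
open scoped ENNReal NNReal ContDiff InnerProductSpace ComplexConjugate

noncomputable section
namespace Pool.Agent.P.MP_e0a138_an.AD

variable {N p q k : ℕ} {W : Type} [NormedAddCommGroup W] [InnerProductSpace ℂ W]
  [FiniteDimensional ℂ W] [CompleteSpace W]
variable {A : Atl N p q k} {ε : Eu N →L[ℝ] W →L[ℂ] W}

theorem sum_basis_enorm (x : W) :
    ∑ e, ‖⟪stdOrthonormalBasis ℂ W e, x⟫_ℂ‖ₑ ^ 2 = ‖x‖ₑ ^ 2 := by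
  have h := (stdOrthonormalBasis ℂ W).sum_sq_norm_inner_right x
  have h2 : ∀ {F : Type} [NormedAddCommGroup F] (y : F),
      ‖y‖ₑ ^ 2 = ENNReal.ofReal (‖y‖ ^ 2) := fun y => by
    rw [← ofReal_norm, ← ENNReal.ofReal_pow (norm_nonneg _)]
  simp only [h2]
  rw [← ENNReal.ofReal_sum_of_nonneg (fun _ _ => sq_nonneg _), h]

theorem GE22b_integrable {β : Eu q → ℝ} (hβ : Continuous β) (hc : HasCompactSupport β) (h : ℝ)
    {G : Eu p × Eu q → W} (hG : Integrable G) (o : Eu p × Eu q × Eu q) :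
    Integrable fun z : Eu p × Eu q =>
      (conj (ph β h o.2.1 o.2.2 (ContinuousLinearMap.id ℝ _) z.2) *
        cexp (-(2 * Real.pi * I * ((⟪o.1, z.1⟫_ℝ : ℝ) : ℂ)))) • G z := by
  obtain ⟨C, hC⟩ := hβ.bounded_above_of_compact_support hc
  have hph : Continuous (ph β h o.2.1 o.2.2 (ContinuousLinearMap.id ℝ _)) :=
    (contDiff_ph (n := 0) (contDiff_zero.2 hβ) h _ _ _).continuous
  have hcont : Continuous fun z : Eu p × Eu q =>
      (conj (ph β h o.2.1 o.2.2 (ContinuousLinearMap.id ℝ _) z.2) *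
        cexp (-(2 * Real.pi * I * ((⟪o.1, z.1⟫_ℝ : ℝ) : ℂ)))) :=
    (Complex.continuous_conj.comp (hph.comp continuous_snd)).mul
      (Complex.continuous_exp.comp ((continuous_const.mul (Complex.continuous_ofReal.comp
        (continuous_const.inner continuous_fst))).neg))
  refine hG.bdd_smul ((√(sc h ^ q))⁻¹ * C) hcont.aestronglyMeasurable
    (Eventually.of_forall fun z => ?_)
  have he : ‖cexp (-(2 * Real.pi * I * ((⟪o.1, z.1⟫_ℝ : ℝ) : ℂ)))‖ = 1 := by
    have : -(2 * Real.pi * I * ((⟪o.1, z.1⟫_ℝ : ℝ) : ℂ)) =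
        ((-(2 * Real.pi * ⟪o.1, z.1⟫_ℝ) : ℝ) : ℂ) * I := by push_cast; ring
    rw [this, Complex.norm_exp_ofReal_mul_I]
  rw [norm_mul, he, mul_one, Complex.norm_conj, norm_ph, bw, abs_mul,
    abs_of_nonneg (inv_nonneg.2 (Real.sqrt_nonneg _))]
  exact mul_le_mul_of_nonneg_left (hC _) (inv_nonneg.2 (Real.sqrt_nonneg _))

namespace Atl
variable {μ : Measure (Eu N)}

theorem memLp_Pi (hε : IsCAR ε) (hμ : A.IsVol μ) (v : Lp W 2 μ) :
    MemLp (fun m => A.Pi ε m (v m)) 2 μ := by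
  obtain ⟨M, hM⟩ := exists_mul (ν := μ) (A := A.Pi ε) (C := 1)
    (hμ.aesm (A.smooth_Pi hε).continuousOn)
    (Eventually.of_forall fun m => norm_proj_le (Pi_idem m) (Pi_star m))
  exact memLp_of_ae (hM v)

theorem wv_inner (hε : IsCAR ε) (hμ : A.IsVol μ) {β : Eu q → ℝ} (hβ : Continuous β)
    (hc : HasCompactSupport β) (h : ℝ) (j : Fin k × Fin (Module.finrank ℂ W))
    (o : Eu p × Eu q × Eu q) (v : Lp W 2 μ) : ⟪A.wv ε μ β h j o, v⟫_ℂ =
      ⟪stdOrthonormalBasis ℂ W j.2, Lam β h (A.loc j.1 fun m => A.Pi ε m (v m)) o⟫_ℂ := by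
  obtain ⟨r, C, hr, H⟩ := uf_props A hε
  obtain ⟨hF, -, h0, -⟩ := H j.1 o.1 (stdOrthonormalBasis ℂ W j.2)
  have hmem := hμ.memLp (pk_continuousOn hβ h (j.1, o.2) (ContinuousLinearMap.id ℝ _)
    hF.1.continuousOn)
  have hint := GE22b_integrable hβ hc h (loc_memLp hμ j.1 (memLp_Pi hε hμ v)).2 o
  rw [wv, inner_eq_of_ae (toL_ae hmem) (ae_eq_refl _), hμ.integral_loc j.1,
    integral_wm measurableSet_ball (rho_continuous j.1).continuousOn
      (fun z _ => rho_nonneg j.1 z), Lam, ← integral_inner hint,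
    ← setIntegral_eq_integral_of_forall_compl_eq_zero (s := ball (0 : Eu p × Eu q) 1)
      (f := fun z => ⟪stdOrthonormalBasis ℂ W j.2, _⟫_ℂ)]
  · refine setIntegral_congr_fun measurableSet_ball fun z hz => ?_
    have hu := uf_inner (A := A) (ε := ε) j.1 o.1 (stdOrthonormalBasis ℂ W j.2) (v (A.ψ j.1 z)) hz
    simp only [pk, loc, A.left_inv j.1 z hz]
    rw [inner_smul_left, mul_smul, inner_smul_right, ← hu, mul_smul_comm]
  · intro z hz
    simp [loc, kap, Set.indicator_of_notMem hz]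
  · intro m hm hU
    simp [pk, (chart_zero hr h0).2 m hm hU]

theorem wv_measurable (hε : IsCAR ε) (hμ : A.IsVol μ) {β : Eu q → ℝ} (hβ : Continuous β)
    (hc : HasCompactSupport β) (h : ℝ) (j : Fin k × Fin (Module.finrank ℂ W)) (v : Lp W 2 μ) :
    Measurable fun o => ⟪A.wv ε μ β h j o, v⟫_ℂ := by
  simp only [wv_inner hε hμ hβ hc]
  exact (continuous_const.inner
    (Lam_continuous hβ hc h (loc_memLp hμ j.1 (memLp_Pi hε hμ v)).2)).measurable

end Atl

end Pool.Agent.P.MP_e0a138_an.AD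
end
end

-- part Pool.Agent.P.MP_e0a138_an.GE11a
section

set_option autoImplicit false
set_option linter.unusedSectionVars false
set_option linter.unusedVariables false

open MeasureTheory Filter Topology Metric Complex
open scoped ENNReal NNReal ContDiff InnerProductSpace ComplexConjugate

noncomputable section
namespace Pool.Agent.P.MP_e0a138_an.AD

variable {N p q k : ℕ} {W : Type} [NormedAddCommGroup W] [InnerProductSpace ℂ W]
  [FiniteDimensional ℂ W] [CompleteSpace W]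
variable {A : Atl N p q k}

namespace Atl

theorem plq_eq {t : Tr q k} (ht : t.2.1 ∈ ball (0 : Eu q) 1) : A.plq t = A.gam t '' ball 0 1 := by
  rw [Atl.plq, dom_eq ht]

theorem mem_ball_of_plq {t : Tr q k} {z : Eu N × Eu N} (hz : z ∈ A.plq t) :
    t.2.1 ∈ ball (0 : Eu q) 1 := by
  obtain ⟨x, hx, -⟩ := hz
  exact (mem_ball_prod.1 hx).2

theorem Reach.mem {t₀ t : Tr q k} (h : A.Reach t₀ t) (h0 : t₀.2.1 ∈ ball (0 : Eu q) 1) :
    t.2.1 ∈ ball (0 : Eu q) 1 := by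
  induction h with
  | refl => exact h0
  | tail _ hbc _ =>
    obtain ⟨z, -, hz⟩ := hbc
    exact mem_ball_of_plq hz

theorem plq_fst {t : Tr q k} {z : Eu N × Eu N} (hz : z ∈ A.plq t) :
    z.1 ∈ A.M ∧ z.1 ∈ A.U t.1 ∧ z.2 = A.cov t.1 t.2.2 z.1 ∧ (A.φ t.1 z.1).2 = t.2.1 ∧
      A.gam t (A.φ t.1 z.1).1 = z := by
  obtain ⟨x, hx, rfl⟩ := hz
  have hx' : (x, t.2.1) ∈ ball (0 : Eu p × Eu q) 1 := hx
  have h1 : A.φ t.1 (A.gam t x).1 = (x, t.2.1) := A.left_inv t.1 _ hx'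
  refine ⟨(ψ_mem t.1 hx').1, (ψ_mem t.1 hx').2, rfl, ?_, ?_⟩
  · rw [h1]
  · rw [h1]

theorem gam_mem_iff {t t' : Tr q k} (ht : t.2.1 ∈ ball (0 : Eu q) 1) {x : Eu p}
    (hx : x ∈ ball (0 : Eu p) 1) : A.gam t x ∈ A.plq t' ↔ A.ψ t.1 (x, t.2.1) ∈ A.U t'.1 ∧
      A.tau t.1 t'.1 (x, t.2.1) = t'.2.1 ∧
      t.2.2 = ContinuousLinearMap.adjoint (A.dta t.1 t'.1 (x, t.2.1)) t'.2.2 := by
  have hz : (x, t.2.1) ∈ ball (0 : Eu p × Eu q) 1 := mem_ball_prod.2 ⟨hx, ht⟩
  constructor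
  · intro h
    obtain ⟨-, hU, hc, hy, -⟩ := plq_fst h
    have hU' : A.ψ t.1 (x, t.2.1) ∈ A.U t'.1 := hU
    refine ⟨hU', hy, cov_inj (A := A) (i := t.1) hz ?_⟩
    rw [← cov_trans hz hU']
    exact hc
  · rintro ⟨hU, hy, hc⟩
    obtain ⟨hb, hψ⟩ := φ_mem (ψ_mem (A := A) t.1 hz).1 hU
    have hpair : ((A.φ t'.1 (A.ψ t.1 (x, t.2.1))).1, t'.2.1) = A.φ t'.1 (A.ψ t.1 (x, t.2.1)) := by
      rw [← hy]; rfl
    refine ⟨(A.φ t'.1 (A.ψ t.1 (x, t.2.1))).1, ?_, ?_⟩
    · show ((A.φ t'.1 (A.ψ t.1 (x, t.2.1))).1, t'.2.1) ∈ ball (0 : Eu p × Eu q) 1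
      rw [hpair]; exact hb
    · simp only [Atl.gam]
      rw [hpair, hψ, cov_trans hz hU, ← hc]

theorem tri_eq {t : Tr q k} {z : Eu N × Eu N} (hz : z ∈ A.plq t) : A.tri t.1 z = t := by
  obtain ⟨x, hx, rfl⟩ := hz
  have hx' : (x, t.2.1) ∈ ball (0 : Eu p × Eu q) 1 := hx
  have h1 : A.φ t.1 (A.gam t x).1 = (x, t.2.1) := A.left_inv t.1 _ hx'
  refine Prod.ext rfl (Prod.ext ?_ ?_)
  · show (A.φ t.1 (A.gam t x).1).2 = t.2.1
    rw [h1]
  · show ContinuousLinearMap.adjoint (A.jd t.1 (A.φ t.1 (A.gam t x).1) ∘L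
      ContinuousLinearMap.inr ℝ (Eu p) (Eu q)) (A.gam t x).2 = t.2.2
    rw [h1]
    refine ext_inner_right ℝ fun v => ?_
    rw [ContinuousLinearMap.adjoint_inner_left]
    exact inner_cov t.1 t.2.2 hx' (0, v)

theorem mem_plq_tri {t : Tr q k} {z : Eu N × Eu N} (hz : z ∈ A.plq t) {j : Fin k}
    (hj : z.1 ∈ A.U j) : z ∈ A.plq (A.tri j z) := by
  have ht := mem_ball_of_plq hz
  obtain ⟨x, hx, rfl⟩ := hz
  have hx' : (x, t.2.1) ∈ ball (0 : Eu p × Eu q) 1 := hx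
  have hj' : A.ψ t.1 (x, t.2.1) ∈ A.U j := hj
  obtain ⟨e, he⟩ := dta_equiv hx' hj'
  have hη : t.2.2 = ContinuousLinearMap.adjoint (A.dta t.1 j (x, t.2.1))
      (ContinuousLinearMap.adjoint (e.symm : Eu q →L[ℝ] Eu q) t.2.2) := by
    refine ext_inner_right ℝ fun v => ?_
    rw [ContinuousLinearMap.adjoint_inner_left, ContinuousLinearMap.adjoint_inner_left, ← he]
    simp
  have hmem : A.gam t x ∈ A.plq (j, A.tau t.1 j (x, t.2.1),
      ContinuousLinearMap.adjoint (e.symm : Eu q →L[ℝ] Eu q) t.2.2) :=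
    (gam_mem_iff ht (mem_ball_prod.1 hx').1).2 ⟨hj', rfl, hη⟩
  have h2 := tri_eq hmem
  simp only at h2
  rw [h2]
  exact hmem

end Atl

end Pool.Agent.P.MP_e0a138_an.AD
end
end

-- part Pool.Agent.P.MP_e0a138_an.GE11
section

set_option autoImplicit false
set_option linter.unusedSectionVars false
set_option linter.unusedVariables false

open MeasureTheory Filter Topology Metric Complex
open scoped ENNReal NNReal ContDiff InnerProductSpace ComplexConjugate

noncomputable section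
namespace Pool.Agent.P.MP_e0a138_an.AD

variable {N p q k : ℕ} {W : Type} [NormedAddCommGroup W] [InnerProductSpace ℂ W]
  [FiniteDimensional ℂ W] [CompleteSpace W]
variable {A : Atl N p q k}

namespace Atl

theorem gam_mem_ev {t t' : Tr q k} (ht : t.2.1 ∈ ball (0 : Eu q) 1) {x : Eu p}
    (hx : x ∈ ball (0 : Eu p) 1) (h : A.gam t x ∈ A.plq t') :
    ∀ᶠ x' in 𝓝 x, A.gam t x' ∈ A.plq t' := by
  obtain ⟨h1, h2, h3⟩ := (gam_mem_iff ht hx).1 h
  filter_upwards [tau_loc (z := (x, t.2.1)) (mem_ball_prod.2 ⟨hx, ht⟩) h1] with x' ⟨a, b, _, c, d⟩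
  exact (gam_mem_iff ht (mem_ball_prod.1 a).1).2 ⟨b, c.trans h2, d ▸ h3⟩

theorem tri_ev {t : Tr q k} (ht : t.2.1 ∈ ball (0 : Eu q) 1) {x : Eu p}
    (hx : x ∈ ball (0 : Eu p) 1) {j : Fin k} (hj : A.ψ t.1 (x, t.2.1) ∈ A.U j) :
    ∀ᶠ x' in 𝓝 x, A.tri j (A.gam t x') = A.tri j (A.gam t x) := by
  have h1 : A.gam t x ∈ A.plq t := by
    rw [plq_eq ht]
    exact ⟨x, hx, rfl⟩
  filter_upwards [gam_mem_ev ht hx (mem_plq_tri h1 (j := j) hj)] with x' h
  exact tri_eq h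

theorem isOpen_overlap {t : Tr q k} (ht : t.2.1 ∈ ball (0 : Eu q) 1) (t' : Tr q k) :
    IsOpen (ball (0 : Eu p) 1 ∩ A.gam t ⁻¹' A.plq t') :=
  isOpen_iff_mem_nhds.2 fun _ hx =>
    inter_mem (isOpen_ball.mem_nhds hx.1) (gam_mem_ev ht hx.1 hx.2)

theorem gam_continuousOn {t : Tr q k} (ht : t.2.1 ∈ ball (0 : Eu q) 1) :
    ContinuousOn (A.gam t) (ball 0 1) := by
  have h1 : Continuous fun x : Eu p => A.ψ t.1 (x, t.2.1) :=
    (A.ψ_smooth t.1).continuous.comp (continuous_id.prodMk continuous_const)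
  exact h1.continuousOn.prodMk ((smooth_cov t.1 t.2.2).continuousOn.comp h1.continuousOn
    fun x hx => (ψ_mem t.1 (mem_ball_prod.2 ⟨hx, ht⟩)).1)

theorem gam_inv {t : Tr q k} (ht : t.2.1 ∈ ball (0 : Eu q) 1) {x : Eu p}
    (hx : x ∈ ball (0 : Eu p) 1) : (A.φ t.1 (A.gam t x).1).1 = x :=
  congrArg Prod.fst (A.left_inv t.1 (x, t.2.1) (mem_ball_prod.2 ⟨hx, ht⟩))

theorem measurableSet_plq (t : Tr q k) : MeasurableSet (A.plq t) := by
  by_cases ht : t.2.1 ∈ ball (0 : Eu q) 1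
  · rw [plq_eq ht]
    refine measurableSet_ball.image_of_continuousOn_injOn (gam_continuousOn ht)
      fun x hx y hy h => ?_
    rw [← gam_inv (A := A) ht hx, h, gam_inv ht hy]
  · rw [Set.eq_empty_of_forall_notMem fun z hz => ht (mem_ball_of_plq (A := A) hz)]
    exact MeasurableSet.empty

theorem GE11_nb (t : Tr q k) : {t' | (A.plq t ∩ A.plq t').Nonempty}.Countable := by
  refine (Set.countable_range fun a : Fin k × ℕ =>
    A.tri a.1 (A.gam t (TopologicalSpace.denseSeq (Eu p) a.2))).mono ?_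
  rintro t' ⟨z, h1, h2⟩
  have ht := mem_ball_of_plq h1
  rw [plq_eq ht] at h1
  obtain ⟨x, hx, rfl⟩ := h1
  obtain ⟨n, hn⟩ := (TopologicalSpace.denseRange_denseSeq (Eu p)).exists_mem_open
    (isOpen_overlap (A := A) ht t') ⟨x, hx, h2⟩
  exact ⟨(t'.1, n), tri_eq hn.2⟩

theorem countable_reach (t₀ : Tr q k) : {t | A.Reach t₀ t}.Countable := by
  let S : ℕ → Set (Tr q k) := fun n => Nat.rec {t₀}
    (fun _ T => ⋃ t ∈ T, {t' | (A.plq t ∩ A.plq t').Nonempty}) n
  have h1 : ∀ n, (S n).Countable := fun n => by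
    induction n with
    | zero => exact Set.countable_singleton _
    | succ n ih => exact ih.biUnion fun t _ => GE11_nb t
  refine (Set.countable_iUnion h1).mono fun t ht => ?_
  induction ht with
  | refl => exact Set.mem_iUnion.2 ⟨0, rfl⟩
  | tail _ h ih =>
    obtain ⟨n, hn⟩ := Set.mem_iUnion.1 ih
    exact Set.mem_iUnion.2 ⟨n + 1, Set.mem_biUnion hn h⟩

end Atl

end Pool.Agent.P.MP_e0a138_an.AD
end
end

-- part Pool.Agent.P.MP_e0a138_an.GE13a
section

set_option autoImplicit false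
set_option linter.unusedSectionVars false
set_option linter.unusedVariables false

open MeasureTheory Filter Topology Metric Complex
open scoped ENNReal NNReal ContDiff InnerProductSpace ComplexConjugate

noncomputable section
namespace Pool.Agent.P.MP_e0a138_an.AD

variable {N p q k : ℕ} {W : Type} [NormedAddCommGroup W] [InnerProductSpace ℂ W]
  [FiniteDimensional ℂ W] [CompleteSpace W]
variable {A : Atl N p q k}

namespace Atl
variable {l : Measure (Eu N × Eu N)}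

theorem pm_eq {t : Tr q k} (ht : t.2.1 ∈ ball (0 : Eu q) 1) :
    A.pm t = (wm (ball 0 1) fun x => A.rho t.1 (x, t.2.1)).map (A.gam t) := by
  unfold pm wm
  rw [dom_eq ht]

theorem emb_plq {t : Tr q k} (ht : t.2.1 ∈ ball (0 : Eu q) 1) {c : ℝ≥0}
    (h : l.restrict (A.plq t) = c • A.pm t) :
    Emb l (wm (ball 0 1) fun x => (c : ℝ) * A.rho t.1 (x, t.2.1)) (ball 0 1) (A.gam t) := by
  refine Emb.of_continuousOn measurableSet_ball (wm_compl measurableSet_ball)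
    (gam_continuousOn ht) (fun x hx y hy hxy => ?_) ?_
  · rw [← gam_inv (A := A) ht hx, hxy, gam_inv ht hy]
  · rw [← plq_eq ht, h, pm_eq ht, ← smul_wm, Measure.map_smul]

theorem GE13a_aem {t : Tr q k} (ht : t.2.1 ∈ ball (0 : Eu q) 1) (ρ : Eu p → ℝ) :
    AEMeasurable (A.gam t) (wm (ball 0 1) ρ) :=
  (aesm_wm measurableSet_ball (gam_continuousOn ht)).aemeasurable

theorem GE13a_wm_finite {t : Tr q k} (ht : t.2.1 ∈ ball (0 : Eu q) 1) (c : ℝ≥0) :
    IsFiniteMeasure (wm (ball (0 : Eu p) 1) fun x => (c : ℝ) * A.rho t.1 (x, t.2.1)) := by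
  obtain ⟨C, hC⟩ := rho_bdd (A := A) t.1
  refine ⟨?_⟩
  unfold wm
  rw [withDensity_apply _ MeasurableSet.univ, Measure.restrict_univ]
  calc ∫⁻ x in ball (0 : Eu p) 1, ENNReal.ofReal ((c : ℝ) * A.rho t.1 (x, t.2.1))
      ≤ ∫⁻ _x in ball (0 : Eu p) 1, ENNReal.ofReal ((c : ℝ) * C) := by
        refine setLIntegral_mono' measurableSet_ball fun x hx => ENNReal.ofReal_le_ofReal ?_
        exact mul_le_mul_of_nonneg_left (hC _ (mem_ball_prod.2 ⟨hx, ht⟩)) c.2
    _ < ⊤ := by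
        rw [setLIntegral_const]
        exact ENNReal.mul_lt_top ENNReal.ofReal_lt_top measure_ball_lt_top

theorem pm_finite {t : Tr q k} (ht : t.2.1 ∈ ball (0 : Eu q) 1) : IsFiniteMeasure (A.pm t) := by
  have h := GE13a_wm_finite (A := A) ht 1
  simp only [NNReal.coe_one, one_mul] at h
  rw [pm_eq ht]
  infer_instance

theorem pm_compl {t : Tr q k} (ht : t.2.1 ∈ ball (0 : Eu q) 1) : A.pm t (A.plq t)ᶜ = 0 := by
  rw [pm_eq ht, Measure.map_apply_of_aemeasurable (GE13a_aem ht _) (measurableSet_plq t).compl]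
  refine measure_mono_null (t := (ball (0 : Eu p) 1)ᶜ) (fun x hx hb => hx ?_)
    (wm_compl measurableSet_ball)
  rw [plq_eq ht]
  exact ⟨x, hb, rfl⟩

theorem pm_pos {t t' : Tr q k} (h : (A.plq t ∩ A.plq t').Nonempty) : A.pm t (A.plq t') ≠ 0 := by
  obtain ⟨z, hz, hz'⟩ := h
  have ht := mem_ball_of_plq hz
  rw [plq_eq ht] at hz
  obtain ⟨x, hx, rfl⟩ := hz
  intro h0
  rw [pm_eq ht, Measure.map_apply_of_aemeasurable (GE13a_aem ht _) (measurableSet_plq t')] at h0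
  have h1 : ∀ᵐ y ∂(wm (ball (0 : Eu p) 1) fun x => A.rho t.1 (x, t.2.1)),
      y ∉ A.gam t ⁻¹' A.plq t' := measure_eq_zero_iff_ae_notMem.1 h0
  have hc : ContinuousOn (fun x : Eu p => A.rho t.1 (x, t.2.1)) (ball 0 1) :=
    ((rho_continuous t.1).comp (continuous_id.prodMk continuous_const)).continuousOn
  rw [ae_wm_iff measurableSet_ball hc fun y hy => rho_pos t.1 (mem_ball_prod.2 ⟨hy, ht⟩)] at h1
  have h2 : (volume : Measure (Eu p)) (ball (0 : Eu p) 1 ∩ A.gam t ⁻¹' A.plq t') = 0 := by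
    refine measure_eq_zero_iff_ae_notMem.2 (h1.mono fun y hy hy' => hy hy'.1 hy'.2)
  exact ((isOpen_overlap ht t').measure_pos volume ⟨x, hx, hz'⟩).ne' h2

theorem IsLeaf.ae_mem {t₀ : Tr q k} (hl : A.IsLeaf t₀ l) :
    ∀ᵐ z ∂l, ∃ t, A.Reach t₀ t ∧ z ∈ A.plq t := by
  have h := measure_eq_zero_iff_ae_notMem.1 hl.1
  refine h.mono fun z hz => ?_
  simpa using hz

theorem IsLeaf.separable {t₀ : Tr q k} (h0 : t₀.2.1 ∈ ball (0 : Eu q) 1) (hl : A.IsLeaf t₀ l) :
    TopologicalSpace.SeparableSpace (Lp W 2 l) := by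
  have hσ : SigmaFinite l := by
    refine Measure.sigmaFinite_of_countable
      (S := insert (⋃ t ∈ {t | A.Reach t₀ t}, A.plq t)ᶜ (A.plq '' {t | A.Reach t₀ t}))
      (((countable_reach t₀).image _).insert _) ?_ ?_
    · rintro s (rfl | ⟨t, ht, rfl⟩)
      · rw [hl.1]; exact ENNReal.zero_lt_top
      · obtain ⟨c, -, hc⟩ := hl.2 t ht
        have := pm_finite (A := A) (Reach.mem ht h0)
        rw [← Measure.restrict_apply_univ, hc, Measure.smul_apply]
        exact ENNReal.mul_lt_top ENNReal.coe_lt_top (measure_lt_top _ _)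
    · rw [Set.sUnion_insert, Set.sUnion_image, Set.compl_union_self]
  have : Fact ((2 : ℝ≥0∞) ≠ ⊤) := ⟨by simp⟩
  have : ProperSpace W := FiniteDimensional.proper ℂ W
  infer_instance

theorem IsLeaf.aesm {t₀ : Tr q k} (h0 : t₀.2.1 ∈ ball (0 : Eu q) 1) (hl : A.IsLeaf t₀ l)
    {F : Type} [NormedAddCommGroup F] {f : Eu N → F} (hf : ContinuousOn f A.M) :
    AEStronglyMeasurable (fun z : Eu N × Eu N => f z.1) l := by
  have hM : MeasurableSet {z : Eu N × Eu N | z.1 ∈ A.M} :=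
    measurable_fst (isCompact_M A).measurableSet
  have h1 : ∀ᵐ z ∂l, z ∈ {z : Eu N × Eu N | z.1 ∈ A.M} :=
    hl.ae_mem.mono fun z ⟨t, _, hz⟩ => (plq_fst hz).1
  rw [← Measure.restrict_eq_self_of_ae_mem h1]
  refine ContinuousOn.aestronglyMeasurable ?_ hM
  exact hf.comp continuous_fst.continuousOn fun z hz => hz

theorem memLp_plq {t : Tr q k} (ht : t.2.1 ∈ ball (0 : Eu q) 1) {c : ℝ≥0}
    (h : l.restrict (A.plq t) = c • A.pm t) {u : Eu N → W} (hu : ContinuousOn u A.M) :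
    MemLp ((A.plq t).indicator fun z => u z.1) 2 l := by
  have he := emb_plq ht h
  rw [plq_eq ht]
  refine he.memLp_ind (f := fun z => u z.1) ?_
  obtain ⟨C, hC⟩ := (isCompact_M A).exists_bound_of_continuousOn hu
  have hm : ∀ x ∈ ball (0 : Eu p) 1, (A.gam t x).1 ∈ A.M := fun x hx =>
    (ψ_mem t.1 (mem_ball_prod.2 ⟨hx, ht⟩)).1
  have := GE13a_wm_finite (A := A) ht c
  refine MemLp.of_bound (aesm_wm measurableSet_ball ?_) C ?_
  · exact hu.comp (continuous_fst.comp_continuousOn (gam_continuousOn ht)) hm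
  · exact (wm_ae measurableSet_ball).mono fun x hx => hC _ (hm x hx)

end Atl

end Pool.Agent.P.MP_e0a138_an.AD
end
end

-- part Pool.Agent.P.MP_e0a138_an.GE17a
section

set_option autoImplicit false
set_option linter.unusedSectionVars false
set_option linter.unusedVariables false

open MeasureTheory Filter Topology Metric Complex
open scoped ENNReal NNReal ContDiff InnerProductSpace ComplexConjugate

noncomputable section
namespace Pool.Agent.P.MP_e0a138_an.AD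

variable {N p q k : ℕ} {W : Type} [NormedAddCommGroup W] [InnerProductSpace ℂ W]
  [FiniteDimensional ℂ W] [CompleteSpace W]
variable {A : Atl N p q k} {ε : Eu N →L[ℝ] W →L[ℂ] W}

namespace Atl
variable {DF DH : (Eu N → W) → Eu N → W} {μ : Measure (Eu N)} {l : Measure (Eu N × Eu N)}
  {t₀ : Tr q k}

theorem sec_ae (h0 : t₀.2.1 ∈ ball (0 : Eu q) 1) (hl : A.IsLeaf t₀ l) {t : Tr q k}
    (ht : A.Reach t₀ t) {u : Eu N → W} (hu : ContinuousOn u A.M) :
    A.sec l t u =ᵐ[l] (A.plq t).indicator fun z => u z.1 := by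
  obtain ⟨c, -, hc⟩ := hl.2 t ht
  exact toL_ae (memLp_plq (ht.mem h0) hc hu)

theorem ind_lft (DF : (Eu N → W) → Eu N → W) (t : Tr q k) (u : Eu N → W) :
    ((A.plq t).indicator fun z => DF u z.1 + I • cl ε z.2 (u z.1)) =
      (A.plq t).indicator fun z => A.lft ε DF t u z.1 := by
  funext z
  by_cases hz : z ∈ A.plq t
  · rw [Set.indicator_of_mem hz, Set.indicator_of_mem hz, lft, ← (plq_fst hz).2.2.1]
  · rw [Set.indicator_of_notMem hz, Set.indicator_of_notMem hz]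

theorem Dir.mem_grL (hD : A.Dir ε μ DF DH) (hε : IsCAR ε) (h0 : t₀.2.1 ∈ ball (0 : Eu q) 1)
    (hl : A.IsLeaf t₀ l) {t : Tr q k} (ht : A.Reach t₀ t) {u : Eu N → W} (hu : A.Form ε u)
    (hc : A.Loc t.1 u) : (A.sec l t u, A.sec l t (A.lft ε DF t u)) ∈ A.grL ε DF t₀ l := by
  refine ⟨t, u, ht, hu, hc, sec_ae h0 hl ht hu.1.continuousOn, ?_⟩
  rw [ind_lft]
  exact sec_ae h0 hl ht (hD.lft hε t hu hc).1.1.continuousOn

theorem Dir.of_mem_grL (hD : A.Dir ε μ DF DH) (hε : IsCAR ε) (h0 : t₀.2.1 ∈ ball (0 : Eu q) 1)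
    (hl : A.IsLeaf t₀ l) {g : Lp W 2 l × Lp W 2 l} (hg : g ∈ A.grL ε DF t₀ l) :
    ∃ t u, A.Reach t₀ t ∧ A.Form ε u ∧ A.Loc t.1 u ∧ g.1 = A.sec l t u ∧
      g.2 = A.sec l t (A.lft ε DF t u) := by
  obtain ⟨t, u, ht, hu, hc, h1, h2⟩ := hg
  rw [ind_lft] at h2
  exact ⟨t, u, ht, hu, hc, Lp.ext (h1.trans (sec_ae h0 hl ht hu.1.continuousOn).symm),
    Lp.ext (h2.trans (sec_ae h0 hl ht (hD.lft hε t hu hc).1.1.continuousOn).symm)⟩

theorem GE17a_val {t : Tr q k} {u : Eu N → W} (hu : A.Form ε u) {v : Lp W 2 l}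
    (hv : v =ᵐ[l] (A.plq t).indicator fun z => u z.1) : ∀ᵐ z ∂l, A.Pi ε z.1 (v z) = v z := by
  filter_upwards [hv] with z hz
  rw [hz]
  by_cases h : z ∈ A.plq t
  · rw [Set.indicator_of_mem h]
    exact hu.2 _ (plq_fst h).1
  · rw [Set.indicator_of_notMem h, map_zero]

theorem Dir.grL_val (hD : A.Dir ε μ DF DH) (hε : IsCAR ε) (h0 : t₀.2.1 ∈ ball (0 : Eu q) 1)
    (hl : A.IsLeaf t₀ l) : ∀ g ∈ A.grL ε DF t₀ l, (∀ᵐ z ∂l, A.Pi ε z.1 (g.1 z) = g.1 z) ∧
      ∀ᵐ z ∂l, A.Pi ε z.1 (g.2 z) = g.2 z := by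
  rintro g ⟨t, u, ht, hu, hc, h1, h2⟩
  rw [ind_lft] at h2
  exact ⟨GE17a_val hu h1, GE17a_val (hD.lft hε t hu hc).1 h2⟩

theorem Dir.inK_valL (hD : A.Dir ε μ DF DH) (hε : IsCAR ε) (h0 : t₀.2.1 ∈ ball (0 : Eu q) 1)
    (hl : A.IsLeaf t₀ l) {v : Lp W 2 l} (hv : InK (A.grL ε DF t₀ l) v) :
    ∀ᵐ z ∂l, A.Pi ε z.1 (v z) = v z := by
  exact proj_val (P := fun z : Eu N × Eu N => A.Pi ε z.1)
    (hl.aesm h0 (smooth_Pi A hε).continuousOn)
    (Eventually.of_forall fun z => ⟨Pi_idem _, Pi_star _⟩)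
    (fun g hg => (hD.grL_val hε h0 hl g hg).1) hv

end Atl

end Pool.Agent.P.MP_e0a138_an.AD
end
end

-- part Pool.Agent.P.MP_e0a138_an.GE26a
section

set_option autoImplicit false
set_option linter.unusedSectionVars false
set_option linter.unusedVariables false

open MeasureTheory Filter Topology Metric Complex
open scoped ENNReal NNReal ContDiff InnerProductSpace ComplexConjugate

noncomputable section
namespace Pool.Agent.P.MP_e0a138_an.AD

variable {N p q k : ℕ} {W : Type} [NormedAddCommGroup W] [InnerProductSpace ℂ W]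
  [FiniteDimensional ℂ W] [CompleteSpace W]
variable {A : Atl N p q k} {ε : Eu N →L[ℝ] W →L[ℂ] W}

namespace Atl
variable {l : Measure (Eu N × Eu N)} {t : Tr q k}

theorem leaf_loc (hε : IsCAR ε) (ht : t.2.1 ∈ ball (0 : Eu q) 1) (hl : A.IsLeaf t l) {c : ℝ≥0}
    (hc0 : c ≠ 0) (hc : l.restrict (A.plq t) = c • A.pm t) (v : Lp W 2 l) :
    ∃ g : Eu p → W, Integrable g ∧ MemLp g 2 volume ∧
      (∀ ξ e, ⟪A.sec l t (A.uf ε t.1 ξ e), v⟫_ℂ =
        (c : ℂ) * ⟪e, ∫ x, cexp (-(2 * Real.pi * I * ((⟪ξ, x⟫_ℝ : ℝ) : ℂ))) • g x⟫_ℂ) ∧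
      ((∀ᵐ z ∂l, A.Pi ε z.1 (v z) = v z) → c * ∫⁻ x, ‖g x‖ₑ ^ 2 =
        ∫⁻ z, ‖(((A.plq t).indicator (fun z => A.χ t.1 z.1) z : ℝ) : ℂ) • v z‖ₑ ^ 2 ∂l) := by
  have hE := emb_plq ht hc
  have hcp : (0 : ℝ) < c := NNReal.coe_pos.2 (pos_iff_ne_zero.2 hc0)
  have hO : MeasurableSet (ball (0 : Eu p) 1) := measurableSet_ball
  have hin : Continuous fun x : Eu p => (x, t.2.1) := by fun_prop
  have hmem : ∀ x ∈ ball (0 : Eu p) 1, (x, t.2.1) ∈ ball (0 : Eu p × Eu q) 1 :=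
    fun x hx => mem_ball_prod.2 ⟨hx, ht⟩
  have hρc : ContinuousOn (fun x : Eu p => (c : ℝ) * A.rho t.1 (x, t.2.1)) (ball 0 1) :=
    (continuous_const.mul ((rho_continuous t.1).comp hin)).continuousOn
  have hρ0 : ∀ x ∈ ball (0 : Eu p) 1, 0 < (c : ℝ) * A.rho t.1 (x, t.2.1) :=
    fun x hx => mul_pos hcp (rho_pos t.1 (hmem x hx))
  obtain ⟨r, hr0, hr1, hk⟩ := A.kap_props
  obtain ⟨hks, hk0⟩ := hk t.1
  have hKO : closedBall (0 : Eu p) r ⊆ ball 0 1 := closedBall_subset_ball hr1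
  have hk0' : ∀ x ∉ closedBall (0 : Eu p) r, A.kap t.1 (x, t.2.1) = 0 := fun x hx =>
    hk0 _ fun h => hx (mem_closedBall_prod.1 h).1
  have hkc : Continuous fun x : Eu p => A.kap t.1 (x, t.2.1) := hks.continuous.comp hin
  obtain ⟨C, hC⟩ := (isCompact_closedBall (0 : Eu p) r).exists_bound_of_continuousOn
    hkc.continuousOn
  set g : Eu p → W := fun x =>
    (A.kap t.1 (x, t.2.1) : ℂ) • A.Pi ε (A.ψ t.1 (x, t.2.1)) (v (A.gam t x)) with hg
  have hg0 : ∀ x ∉ closedBall (0 : Eu p) r, g x = 0 := fun x hx => by simp [hg, hk0' x hx]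
  have hv := hE.memLp_comp (Lp.memLp v)
  have hPc : ContinuousOn (fun x : Eu p => A.Pi ε (A.ψ t.1 (x, t.2.1))) (ball 0 1) :=
    (continuousOn_chart (A.smooth_Pi hε).continuousOn t.1).comp hin.continuousOn hmem
  have hgm : MemLp g 2 (wm (ball 0 1) fun x => (c : ℝ) * A.rho t.1 (x, t.2.1)) := by
    refine MemLp.of_le_mul (c := |C|) hv ?_ (Eventually.of_forall fun x => ?_)
    · refine AEStronglyMeasurable.smul
        (aesm_wm hO (Complex.continuous_ofReal.comp hkc).continuousOn) ?_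
      exact isBoundedBilinearMap_apply.continuous.comp_aestronglyMeasurable
        ((aesm_wm hO hPc).prodMk hv.1)
    · by_cases hx : x ∈ closedBall (0 : Eu p) r
      · rw [hg]
        simp only [norm_smul, Complex.norm_real]
        refine mul_le_mul ((hC x hx).trans (le_abs_self C)) ?_ (norm_nonneg _) (abs_nonneg C)
        refine (ContinuousLinearMap.le_opNorm _ _).trans ?_
        exact mul_le_of_le_one_left (norm_nonneg _) (norm_proj_le (Pi_idem _) (Pi_star _))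
      · rw [hg0 x hx, norm_zero]
        positivity
  have hg2 : MemLp g 2 volume :=
    (memLp_wm_iff hO (isCompact_closedBall 0 r) hKO hρc hρ0 hg0).1 hgm
  have hg1 : Integrable g := by
    have : IsFiniteMeasure ((volume : Measure (Eu p)).restrict (closedBall 0 r)) :=
      isFiniteMeasure_restrict.2 measure_closedBall_lt_top.ne
    have : IntegrableOn g (closedBall 0 r) := (hg2.restrict _).integrable one_le_two
    exact this.integrable_of_forall_notMem_eq_zero hg0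
  refine ⟨g, hg1, hg2, fun ξ e => ?_, fun hP => ?_⟩
  · obtain ⟨r', C', -, hu⟩ := A.uf_props hε
    have huc : ContinuousOn (A.uf ε t.1 ξ e) A.M := (hu t.1 ξ e).1.1.continuousOn
    have hI : Integrable fun x : Eu p =>
        cexp (-(2 * Real.pi * I * ((⟪ξ, x⟫_ℝ : ℝ) : ℂ))) • g x := by
      refine hg1.norm.mono' (AEStronglyMeasurable.smul ?_ hg1.1) (Eventually.of_forall fun x => ?_)
      · exact Continuous.aestronglyMeasurable (by fun_prop)
      · have : ‖cexp (-(2 * Real.pi * I * ((⟪ξ, x⟫_ℝ : ℝ) : ℂ)))‖ = 1 := by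
          rw [Complex.norm_exp]
          simp
        rw [norm_smul, this, one_mul]
    rw [inner_eq_of_ae (sec_ae ht hl Relation.ReflTransGen.refl huc) (ae_eq_refl _), plq_eq ht,
      hE.inner_ind, integral_wm hO hρc fun x hx => (hρ0 x hx).le, ← integral_inner hI,
      ← integral_const_mul]
    refine Eq.trans (setIntegral_congr_fun hO fun x hx => ?_)
      (setIntegral_eq_integral_of_forall_compl_eq_zero (s := ball (0 : Eu p) 1)
        (fun x hx => by simp [hg0 x fun h => hx (hKO h)]))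
    have h1 := uf_inner (A := A) (ε := ε) t.1 ξ e (v (A.gam t x)) (hmem x hx)
    simp only [mul_smul]
    rw [show (A.gam t x).1 = A.ψ t.1 (x, t.2.1) from rfl, h1, Complex.real_smul]
  · have h1 : ∀ z, (((A.plq t).indicator (fun z => A.χ t.1 z.1) z : ℝ) : ℂ) • v z =
        (A.gam t '' ball 0 1).indicator (fun z => (A.χ t.1 z.1 : ℂ) • v z) z := by
      intro z
      rw [plq_eq ht]
      by_cases hz : z ∈ A.gam t '' ball 0 1
      · rw [Set.indicator_of_mem hz, Set.indicator_of_mem hz]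
      · rw [Set.indicator_of_notMem hz, Set.indicator_of_notMem hz]
        simp
    simp only [h1]
    have h2 := (ae_wm_iff hO hρc hρ0).1 (hE.ae_iff.1 (hP.mono fun z hz _ => hz))
    rw [hE.lintegral_ind, lintegral_wm hO hρc, ← lintegral_const_mul' _ _ ENNReal.coe_ne_top,
      ← setLIntegral_eq_of_support_subset (s := ball (0 : Eu p) 1) ?_]
    · refine setLIntegral_congr_fun_ae hO (h2.mono fun x hx hxO => ?_)
      have h3 := hx hxO
      have h4 := kap_sq (A := A) t.1 (hmem x hxO)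
      rw [show (A.gam t x).1 = A.ψ t.1 (x, t.2.1) from rfl] at h3 ⊢
      simp only [hg, h3]
      rw [← ofReal_norm, ← ofReal_norm, ← ENNReal.ofReal_pow (norm_nonneg _),
        ← ENNReal.ofReal_pow (norm_nonneg _), ← ENNReal.ofReal_mul (hρ0 x hxO).le,
        ← ENNReal.ofReal_coe_nnreal, ← ENNReal.ofReal_mul hcp.le]
      congr 1
      simp only [norm_smul, Complex.norm_real, mul_pow, Real.norm_eq_abs, sq_abs, h4]
      ring
    · intro x hx
      by_contra hxO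
      exact hx (by simp [hg0 x fun h => hxO (hKO h)])

end Atl

end Pool.Agent.P.MP_e0a138_an.AD
end
end

-- part Pool.Agent.P.MP_e0a138_an.AB3
section

set_option autoImplicit false
set_option linter.unusedSectionVars false
set_option linter.unusedVariables false

open MeasureTheory Filter Topology Metric Complex
open scoped ENNReal NNReal ContDiff InnerProductSpace ComplexConjugate

noncomputable section
namespace Pool.Agent.P.MP_e0a138_an.AD

variable {H : Type} [NormedAddCommGroup H] [InnerProductSpace ℂ H] [CompleteSpace H]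

theorem Ff_props {f : ℝ → ℝ} (hf : Continuous f) (hc : HasCompactSupport f) (h0 : ∀ x, 0 ≤ f x) :
    Continuous (Ff f) ∧ ∃ r₀ C : ℝ, 0 < r₀ ∧ (∀ r < r₀, Ff f r = 0) ∧
      ∀ r, 0 ≤ Ff f r ∧ Ff f r ≤ C := by
  obtain ⟨L, hL0, hL⟩ := hc.exists_pos_le_norm
  obtain ⟨C, hC⟩ := hf.bounded_above_of_compact_support hc
  have hr : 0 < (1 + L ^ 2)⁻¹ := by positivity
  have hz : ∀ r < (1 + L ^ 2)⁻¹, Ff f r = 0 := fun r h => by
    unfold Ff
    split_ifs with h1
    · refine hL _ ?_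
      rw [lt_inv_comm₀ h1 (by positivity)] at h
      rw [Real.norm_of_nonneg (Real.sqrt_nonneg _)]
      exact Real.le_sqrt_of_sq_le (by linarith)
    · rfl
  refine ⟨continuous_iff_continuousAt.2 fun r => ?_, _, C, hr, hz, fun r => ?_⟩
  · rcases lt_or_ge r (1 + L ^ 2)⁻¹ with h | h
    · refine (continuousAt_const (y := (0 : ℝ))).congr ?_
      filter_upwards [Iio_mem_nhds h] with x hx using (hz x hx).symm
    · have h1 : 0 < r := hr.trans_le h
      have h2 : ContinuousAt (fun r : ℝ => f √(r⁻¹ - 1)) r :=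
        hf.continuousAt.comp (Real.continuous_sqrt.continuousAt.comp
          ((continuousAt_inv₀ h1.ne').sub continuousAt_const))
      refine h2.congr ?_
      filter_upwards [Ioi_mem_nhds h1] with x hx using (if_pos hx).symm
  · unfold Ff
    split_ifs
    · exact ⟨h0 _, (le_abs_self _).trans (hC _)⟩
    · exact ⟨le_rfl, (norm_nonneg _).trans (hC 0)⟩

theorem fc_sqrt {f : ℝ → ℝ} (hf : Continuous f) (hc : HasCompactSupport f) (h0 : ∀ x, 0 ≤ f x) :
    ∃ C : ℝ≥0, ∀ (H : Type) [NormedAddCommGroup H] [InnerProductSpace ℂ H] [CompleteSpace H]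
      (R : H →L[ℂ] H), R * star R = star R * R →
      ∃ S : H →L[ℂ] H, star S = S ∧ S * S = fc f R ∧ ‖S‖ ≤ C ∧
        ∀ e, ∃ v, S e = R v ∧ ‖v‖ ≤ C * ‖S e‖ := by
  obtain ⟨hF, r₀, C, hr, hz, hb⟩ := Ff_props hf hc h0
  refine ⟨⟨max √C √r₀⁻¹, le_max_of_le_left (Real.sqrt_nonneg _)⟩, fun H _ _ _ R hR => ?_⟩
  have hQ : IsSelfAdjoint (star R * R) := IsSelfAdjoint.star_mul_self R
  have hs : Continuous fun r => √(Ff f r) := Real.continuous_sqrt.comp hF
  have hm : ∀ r, 0 < max r r₀ := fun r => lt_max_of_lt_right hr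
  have hg : Continuous fun r : ℝ => (max r r₀)⁻¹ :=
    (continuous_id.max continuous_const).inv₀ fun r => (hm r).ne'
  have hg' : Continuous fun r : ℝ => r * (max r r₀)⁻¹ := continuous_id'.mul hg
  set Q := star R * R with hQd
  set S := cfc (fun r => √(Ff f r)) Q with hS
  set G := cfc (fun r : ℝ => (max r r₀)⁻¹) Q with hG
  have hGs : star G = G := (cfc_predicate (fun r : ℝ => (max r r₀)⁻¹) Q : IsSelfAdjoint G)
  have hQG : Q * G = cfc (fun r : ℝ => r * (max r r₀)⁻¹) Q := by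
    rw [cfc_mul _ _ Q continuous_id'.continuousOn hg.continuousOn, cfc_id' ℝ Q]
  have h1 : Q * G * S = S := by
    rw [hQG, hS, ← cfc_mul _ _ Q hg'.continuousOn hs.continuousOn]
    refine cfc_congr fun r _ => ?_
    rcases lt_or_ge r r₀ with h | h
    · simp [hz r h]
    · simp [max_eq_left h, (hr.trans_le h).ne']
  have h2 : ‖star R * G‖ ≤ √r₀⁻¹ := by
    refine Real.le_sqrt_of_sq_le ?_
    rw [sq, ← CStarRing.norm_star_mul_self, star_mul, star_star, hGs, mul_assoc, ← mul_assoc R,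
      hR, hQG, hG, ← cfc_mul _ _ Q hg.continuousOn hg'.continuousOn]
    refine norm_cfc_le (by positivity) fun r hr' => ?_
    have h3 : 0 ≤ r := spectrum_star_mul_self_nonneg r hr'
    have h4 := hm r
    rw [Real.norm_of_nonneg (by positivity)]
    refine (mul_le_of_le_one_right (by positivity) ?_).trans (inv_anti₀ hr (le_max_right _ _))
    exact mul_inv_le_one_of_le₀ (le_max_left _ _) h4.le
  refine ⟨S, (cfc_predicate (fun r => √(Ff f r)) Q : IsSelfAdjoint S), ?_, ?_, fun e =>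
    ⟨(star R * G) (S e), ?_, ?_⟩⟩
  · rw [fc_eq, hS, ← cfc_mul _ _ Q hs.continuousOn hs.continuousOn]
    exact cfc_congr fun r _ => Real.mul_self_sqrt (hb r).1
  · refine le_max_of_le_left (norm_cfc_le (Real.sqrt_nonneg _) fun r _ => ?_)
    rw [Real.norm_of_nonneg (Real.sqrt_nonneg _)]
    exact Real.sqrt_le_sqrt (hb r).2
  · have h5 : R * (star R * G) * S = S := by rw [← mul_assoc R, hR, h1]
    exact (congrArg (· e) h5).symm
  · exact ((star R * G).le_opNorm _).trans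
      (mul_le_mul_of_nonneg_right (le_max_of_le_right h2) (norm_nonneg _))

end Pool.Agent.P.MP_e0a138_an.AD
end
end

-- part Pool.Agent.P.MP_e0a138_an.AB5a
section

set_option autoImplicit false
set_option linter.unusedSectionVars false
set_option linter.unusedVariables false

open MeasureTheory Filter Topology Metric Complex
open scoped ENNReal NNReal ContDiff InnerProductSpace ComplexConjugate

noncomputable section
namespace Pool.Agent.P.MP_e0a138_an.AD

variable {H : Type} [NormedAddCommGroup H] [InnerProductSpace ℂ H] [CompleteSpace H]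

theorem AB5a_enorm_sq {E : Type} [NormedAddCommGroup E] (x : E) :
    ‖x‖ₑ ^ 2 = ENNReal.ofReal (‖x‖ ^ 2) := by
  rw [← ofReal_norm, ENNReal.ofReal_pow (norm_nonneg _)]

theorem enorm_sq_eq_tsum {J : Type} (b : HilbertBasis J ℂ H) (x : H) :
    ‖x‖ₑ ^ 2 = ∑' j, ‖⟪x, b j⟫_ℂ‖ₑ ^ 2 := by
  have h1 := (b.hasSum_inner_mul_inner x x).mapL Complex.reCLM
  have h2 : HasSum (fun j => ‖⟪x, b j⟫_ℂ‖ ^ 2) (‖x‖ ^ 2) := by
    convert h1 using 1
    · funext j
      rw [← inner_conj_symm (b j) x, Complex.mul_conj, Complex.normSq_eq_norm_sq]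
      simp only [Complex.reCLM_apply, Complex.ofReal_re]
    · simp only [Complex.reCLM_apply]
      rw [← inner_self_eq_norm_sq (𝕜 := ℂ) x]
      rfl
  rw [AB5a_enorm_sq, ← h2.tsum_eq,
    ENNReal.ofReal_tsum_of_nonneg (fun j => sq_nonneg _) h2.summable]
  exact tsum_congr fun j => (AB5a_enorm_sq _).symm

theorem enorm_sq_eq_ofReal {S : H →L[ℂ] H} (hS : star S = S) (x : H) :
    ‖S x‖ₑ ^ 2 = ENNReal.ofReal (⟪x, (S * S) x⟫_ℂ).re := by
  have h : ⟪x, (S * S) x⟫_ℂ = ⟪S x, S x⟫_ℂ := by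
    have h0 : ContinuousLinearMap.adjoint S = S := by
      rw [← ContinuousLinearMap.star_eq_adjoint]; exact hS
    have := ContinuousLinearMap.adjoint_inner_right S x (S x)
    rw [h0] at this
    exact this
  rw [h, AB5a_enorm_sq, ← inner_self_eq_norm_sq (𝕜 := ℂ) (S x)]
  rfl

theorem AB5a_bessel {n : ℕ} {e : Fin n → H} (he : Orthonormal ℂ e) (y : H) :
    ∑ j, ‖⟪e j, y⟫_ℂ‖ₑ ^ 2 ≤ ‖y‖ₑ ^ 2 := by
  have h := he.sum_inner_products_le y (s := Finset.univ)
  simp only [AB5a_enorm_sq]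
  rw [← ENNReal.ofReal_sum_of_nonneg (fun j _ => sq_nonneg _)]
  exact ENNReal.ofReal_le_ofReal h

theorem AB5a_adj (A : H →L[ℂ] H) (x y : H) : ⟪A x, y⟫_ℂ = ⟪x, (star A) y⟫_ℂ := by
  rw [ContinuousLinearMap.star_eq_adjoint, ContinuousLinearMap.adjoint_inner_right]

theorem AB5a_enorm_inner_symm (x y : H) : ‖⟪x, y⟫_ℂ‖ₑ = ‖⟪y, x⟫_ℂ‖ₑ := by
  rw [← ofReal_norm, ← ofReal_norm, norm_inner_symm]

theorem AB5a_hs {J : Type} (b : HilbertBasis J ℂ H) (A : H →L[ℂ] H) :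
    ∑' j, ‖A (b j)‖ₑ ^ 2 = ∑' j, ‖(star A) (b j)‖ₑ ^ 2 := by
  have h1 : ∀ j, ‖A (b j)‖ₑ ^ 2 = ∑' k, ‖⟪(star A) (b k), b j⟫_ℂ‖ₑ ^ 2 := by
    intro j
    rw [enorm_sq_eq_tsum b]
    refine tsum_congr fun k => ?_
    rw [AB5a_adj, AB5a_enorm_inner_symm]
  simp only [h1]
  rw [ENNReal.tsum_comm]
  exact tsum_congr fun k => (enorm_sq_eq_tsum b _).symm

theorem AB5a_fin_le {J : Type} (b : HilbertBasis J ℂ H) (A : H →L[ℂ] H) {n : ℕ} {e : Fin n → H}
    (he : Orthonormal ℂ e) : ∑ j, ‖A (e j)‖ₑ ^ 2 ≤ ∑' k, ‖(star A) (b k)‖ₑ ^ 2 := by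
  have h1 : ∀ j, ‖A (e j)‖ₑ ^ 2 = ∑' k, ‖⟪e j, (star A) (b k)⟫_ℂ‖ₑ ^ 2 := by
    intro j
    rw [enorm_sq_eq_tsum b]
    refine tsum_congr fun k => ?_
    rw [AB5a_adj]
  simp only [h1]
  rw [← tsum_fintype (L := SummationFilter.unconditional _), ENNReal.tsum_comm]
  refine ENNReal.tsum_le_tsum fun k => ?_
  rw [tsum_fintype]
  exact AB5a_bessel he _

theorem trA_eq_tsum {J : Type} (b : HilbertBasis J ℂ H) {M S : H →L[ℂ] H} (hM : star M = M)
    (hS : star S = S) : trA M (S * S) = ∑' j, ‖M (S (b j))‖ₑ ^ 2 := by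
  have hst : star (S * M) = M * S := by rw [star_mul, hM, hS]
  have hterm : ∀ x : H, ENNReal.ofReal (⟪M x, (S * S) (M x)⟫_ℂ).re = ‖(S * M) x‖ₑ ^ 2 :=
    fun x => (enorm_sq_eq_ofReal hS (M x)).symm
  unfold trA
  simp only [hterm]
  apply le_antisymm
  · refine iSup_le fun n => iSup_le fun e => iSup_le fun he => ?_
    have := AB5a_fin_le b (S * M) he
    rw [hst] at this
    exact this
  · have h2 := AB5a_hs b (S * M)
    rw [hst] at h2
    have h3 : ∑' j, ‖M (S (b j))‖ₑ ^ 2 = ∑' j, ‖(S * M) (b j)‖ₑ ^ 2 := h2.symm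
    rw [h3, ENNReal.tsum_eq_iSup_sum]
    refine iSup_le fun s => ?_
    have he : Orthonormal ℂ (fun j : Fin s.card => b (s.equivFin.symm j : J)) :=
      b.orthonormal.comp (fun j : Fin s.card => (s.equivFin.symm j : J))
        (Subtype.val_injective.comp s.equivFin.symm.injective)
    refine le_iSup_of_le s.card (le_iSup_of_le _ (le_iSup_of_le he (le_of_eq ?_)))
    rw [← Finset.sum_coe_sort s]
    exact (s.equivFin.symm.sum_comp (fun j : s => ‖(S * M) (b (j : J))‖ₑ ^ 2)).symm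

theorem exists_countable_basis [TopologicalSpace.SeparableSpace H] :
    ∃ (J : Type) (_ : Countable J), Nonempty (HilbertBasis J ℂ H) := by
  obtain ⟨w, b, hb⟩ := exists_hilbertBasis ℂ H
  refine ⟨w, ?_, ⟨b⟩⟩
  refine Pairwise.countable_of_isOpen_disjoint (s := fun j : w => ball (b j) (1 / 2)) ?_
    (fun j => isOpen_ball) (fun j => nonempty_ball.2 (by norm_num))
  intro i j hij
  refine ball_disjoint_ball ?_
  have h0 : ⟪b i, b j⟫_ℂ = 0 := b.orthonormal.2 hij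
  have h1 := norm_sub_sq (𝕜 := ℂ) (b i) (b j)
  rw [h0, b.orthonormal.1 i, b.orthonormal.1 j] at h1
  simp only [map_zero, mul_zero, sub_zero] at h1
  rw [dist_eq_norm]
  nlinarith [norm_nonneg (b i - b j)]

end Pool.Agent.P.MP_e0a138_an.AD
end
end

-- part Pool.Agent.P.MP_e0a138_an.AB5b
section

set_option autoImplicit false
set_option linter.unusedSectionVars false
set_option linter.unusedVariables false

open MeasureTheory Filter Topology Metric Complex
open scoped ENNReal NNReal ContDiff InnerProductSpace ComplexConjugate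

noncomputable section
namespace Pool.Agent.P.MP_e0a138_an.AD

variable {H : Type} [NormedAddCommGroup H] [InnerProductSpace ℂ H] [CompleteSpace H]

variable [TopologicalSpace.SeparableSpace H] {Ω J : Type} [MeasurableSpace Ω] [Fintype J]
  (ν : Measure Ω) {w : J → Ω → H}

theorem AB5b_norm {I : Type} (b : HilbertBasis I ℂ H) {S : H →L[ℂ] H} (hS : star S = S) (x : H) :
    ‖S x‖ₑ ^ 2 = ∑' i, ‖⟪x, S (b i)⟫_ℂ‖ₑ ^ 2 := by
  rw [enorm_sq_eq_tsum b]
  refine tsum_congr fun i => ?_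
  rw [← ContinuousLinearMap.adjoint_inner_right, ← ContinuousLinearMap.star_eq_adjoint, hS]

theorem AB5b_sum {I : Type} [Countable I] (b : HilbertBasis I ℂ H)
    (hw : ∀ j u, Measurable fun o => ⟪w j o, u⟫_ℂ) {S : H →L[ℂ] H} (hS : star S = S)
    (μ : Measure Ω) : ∑ j, ∫⁻ o, ‖S (w j o)‖ₑ ^ 2 ∂μ =
      ∑' i, ∑ j, ∫⁻ o, ‖⟪w j o, S (b i)⟫_ℂ‖ₑ ^ 2 ∂μ := by
  rw [Summable.tsum_finsetSum fun _ _ => ENNReal.summable]
  refine Finset.sum_congr rfl fun j _ => ?_
  simp_rw [AB5b_norm b hS]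
  exact lintegral_tsum fun i => ((hw j _).enorm.pow_const 2).aemeasurable

theorem measurable_frame (hw : ∀ j u, Measurable fun o => ⟪w j o, u⟫_ℂ) {S : H →L[ℂ] H}
    (hS : star S = S) (j : J) : Measurable fun o => ‖S (w j o)‖ₑ ^ 2 := by
  obtain ⟨I, _, ⟨b⟩⟩ := exists_countable_basis (H := H)
  simp_rw [AB5b_norm b hS]
  exact Measurable.tsum fun i => (hw j _).enorm.pow_const 2

theorem frame_eq (hw : ∀ j u, Measurable fun o => ⟪w j o, u⟫_ℂ) {M S : H →L[ℂ] H}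
    (hM : star M = M) (hS : star S = S) (c : ℝ≥0∞)
    (h : ∀ e, ∑ j, ∫⁻ o, ‖⟪w j o, S e⟫_ℂ‖ₑ ^ 2 ∂ν = c * ‖M (S e)‖ₑ ^ 2) :
    ∑ j, ∫⁻ o, ‖S (w j o)‖ₑ ^ 2 ∂ν = c * trA M (S * S) := by
  obtain ⟨I, _, ⟨b⟩⟩ := exists_countable_basis (H := H)
  rw [AB5b_sum b hw hS, trA_eq_tsum b hM hS, ← ENNReal.tsum_mul_left]
  exact tsum_congr fun i => h _

theorem frame_trunc (hw : ∀ j u, Measurable fun o => ⟪w j o, u⟫_ℂ) {S : H →L[ℂ] H}
    (hS : star S = S) {c d : ℝ≥0∞} (hc : c ≠ ⊤) {K : Set Ω} (hK : MeasurableSet K)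
    (h : ∀ e, ∑ j, ∫⁻ o, ‖⟪w j o, S e⟫_ℂ‖ₑ ^ 2 ∂ν = c * ‖S e‖ₑ ^ 2)
    (ht : ∀ e, ∑ j, ∫⁻ o in Kᶜ, ‖⟪w j o, S e⟫_ℂ‖ₑ ^ 2 ∂ν ≤ d * (c * ‖S e‖ₑ ^ 2)) :
    ∑ j, ∫⁻ o in K, ‖S (w j o)‖ₑ ^ 2 ∂ν ≤ c * trA 1 (S * S) ∧
      (1 - d) * (c * trA 1 (S * S)) ≤ ∑ j, ∫⁻ o in K, ‖S (w j o)‖ₑ ^ 2 ∂ν := by
  obtain ⟨I, _, ⟨b⟩⟩ := exists_countable_basis (H := H)
  have hs : ∀ e, (∑ j, ∫⁻ o in K, ‖⟪w j o, S e⟫_ℂ‖ₑ ^ 2 ∂ν) +
      ∑ j, ∫⁻ o in Kᶜ, ‖⟪w j o, S e⟫_ℂ‖ₑ ^ 2 ∂ν = c * ‖S e‖ₑ ^ 2 := fun e => by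
    rw [← Finset.sum_add_distrib, ← h e]
    exact Finset.sum_congr rfl fun j _ => lintegral_add_compl _ hK
  rw [AB5b_sum b hw hS, trA_eq_tsum b (star_one _) hS, ← ENNReal.tsum_mul_left,
    ← ENNReal.tsum_mul_left]
  refine ⟨ENNReal.tsum_le_tsum fun i => ?_, ENNReal.tsum_le_tsum fun i => ?_⟩
  · exact le_self_add.trans (hs (b i)).le
  · have hf : c * ‖S (b i)‖ₑ ^ 2 ≠ ⊤ := ENNReal.mul_ne_top hc (ENNReal.pow_ne_top enorm_ne_top)
    rw [one_apply_eq_self, ENNReal.sub_mul fun _ _ => hf, one_mul, tsub_le_iff_right]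
    exact (hs (b i)).ge.trans (add_le_add le_rfl (ht _))

end Pool.Agent.P.MP_e0a138_an.AD
end
end

-- part Pool.Agent.P.MP_e0a138_an.AB2
section

set_option autoImplicit false
set_option linter.unusedSectionVars false
set_option linter.unusedVariables false

open MeasureTheory Filter Topology Metric Complex
open scoped ENNReal NNReal ContDiff InnerProductSpace ComplexConjugate

noncomputable section
namespace Pool.Agent.P.MP_e0a138_an.AD

variable {H : Type} [NormedAddCommGroup H] [InnerProductSpace ℂ H] [CompleteSpace H]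

theorem AB2_memI : I ∈ ({I, -I} : Set ℂ) := Set.mem_insert _ _

theorem AB2_memNegI : -I ∈ ({I, -I} : Set ℂ) := Set.mem_insert_of_mem _ rfl

theorem AB2_norm_le {G : Set (H × H)} (hG : EssSA G) {a : H × H}
    (ha : a ∈ (Submodule.span ℂ G).topologicalClosure) : ‖a‖ ≤ ‖a.2 + I • a.1‖ := by
  have hcl : IsClosed {a : H × H | ‖a‖ ≤ ‖a.2 + I • a.1‖} :=
    isClosed_le (by fun_prop) (by fun_prop)
  have hsub : (Submodule.span ℂ G : Set (H × H)) ⊆ {a : H × H | ‖a‖ ≤ ‖a.2 + I • a.1‖} := by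
    intro b hb
    have h := Sym.norm_sq (G := G) hG.1 hb AB2_memI
    have h1 : ‖b.1‖ ≤ ‖b.2 + I • b.1‖ := by
      apply (sq_le_sq₀ (norm_nonneg _) (norm_nonneg _)).mp
      nlinarith [sq_nonneg ‖b.2‖]
    have h2 : ‖b.2‖ ≤ ‖b.2 + I • b.1‖ := by
      apply (sq_le_sq₀ (norm_nonneg _) (norm_nonneg _)).mp
      nlinarith [sq_nonneg ‖b.1‖]
    exact (Prod.norm_def b).le.trans (max_le h1 h2)
  exact closure_minimal hsub hcl ha

theorem AB2_perp {G : Set (H × H)} (hG : EssSA G) {v : H} (hv : Perp G v) {a : H × H}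
    (ha : a ∈ (Submodule.span ℂ G).topologicalClosure) : ⟪a.2 + I • a.1, v⟫_ℂ = 0 := by
  have hcl : IsClosed {a : H × H | ⟪a.2 + I • a.1, v⟫_ℂ = 0} :=
    isClosed_eq (by fun_prop) continuous_const
  have hsub : (Submodule.span ℂ G : Set (H × H)) ⊆ {a : H × H | ⟪a.2 + I • a.1, v⟫_ℂ = 0} := by
    intro b hb
    have hb' : b ∈ Submodule.span ℂ G := hb
    show ⟪b.2 + I • b.1, v⟫_ℂ = 0
    induction hb' using Submodule.span_induction with
    | mem x hx => exact (hG.2 I AB2_memI v).2 hv x hx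
    | zero => simp
    | add x y hx hy ihx ihy =>
      have e : (x + y).2 + I • (x + y).1 = (x.2 + I • x.1) + (y.2 + I • y.1) := by
        simp only [Prod.snd_add, Prod.fst_add, smul_add]; abel
      rw [e, inner_add_left, ihx hx, ihy hy, add_zero]
    | smul c x hx ih =>
      have e : (c • x).2 + I • (c • x).1 = c • (x.2 + I • x.1) := by
        simp only [Prod.smul_snd, Prod.smul_fst, smul_add, smul_comm I c]
      rw [e, inner_smul_left, ih hx, mul_zero]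
  exact closure_minimal hsub hcl ha

theorem EssSA.exists_res {G : Set (H × H)} (hG : EssSA G) : ∃ R, IsRes G R := by
  set Gb : Submodule ℂ (H × H) := (Submodule.span ℂ G).topologicalClosure with hGb
  have : CompleteSpace Gb := (Submodule.isClosed_topologicalClosure _).completeSpace_coe
  let p : Gb →L[ℂ] H :=
    (ContinuousLinearMap.snd ℂ H H + I • ContinuousLinearMap.fst ℂ H H).comp Gb.subtypeL
  have hp : ∀ a : Gb, p a = (a : H × H).2 + I • (a : H × H).1 := fun a => rfl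
  have hanti : AntilipschitzWith 1 p := by
    apply ContinuousLinearMap.antilipschitz_of_bound
    intro a
    rw [hp]
    simpa using AB2_norm_le hG a.2
  have hclo : IsClosed (Set.range p) := hanti.isClosed_range p.uniformContinuous
  let K : Submodule ℂ H := LinearMap.range (p : Gb →ₗ[ℂ] H)
  have hK : IsClosed (K : Set H) := hclo
  have : CompleteSpace K := hK.completeSpace_coe
  let e : Gb ≃L[ℂ] K := p.equivRange hanti.injective hclo
  have he : ∀ a : Gb, (e a : H) = p a := fun a => rfl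
  refine ⟨(ContinuousLinearMap.fst ℂ H H).comp (Gb.subtypeL.comp
    ((e.symm : K →L[ℂ] Gb).comp K.orthogonalProjectionOnto)), ?_, ?_⟩
  · intro g hg
    have hg' : g ∈ Gb := Submodule.le_topologicalClosure _ (Submodule.subset_span hg)
    have h1 : g.2 + I • g.1 = (e ⟨g, hg'⟩ : H) := rfl
    simp only [ContinuousLinearMap.comp_apply]
    rw [h1, Submodule.orthogonalProjectionOnto_mem_subspace_eq_self]
    simp
  · intro v hv
    have h0 : K.orthogonalProjectionOnto v = 0 := by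
      rw [Submodule.orthogonalProjectionOnto_eq_zero_iff, Submodule.mem_orthogonal]
      rintro u ⟨a, rfl⟩
      exact AB2_perp hG hv a.2
    simp only [ContinuousLinearMap.comp_apply, h0, map_zero]

theorem IsRes.span {G : Set (H × H)} {R : H →L[ℂ] H} {s : ℂ}
    (hR : ∀ g ∈ G, R (g.2 + s • g.1) = g.1) {a : H × H} (ha : a ∈ Submodule.span ℂ G) :
    R (a.2 + s • a.1) = a.1 := by
  induction ha using Submodule.span_induction with
  | mem x hx => exact hR x hx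
  | zero => simp
  | add x y hx hy ihx ihy =>
    have e : (x + y).2 + s • (x + y).1 = (x.2 + s • x.1) + (y.2 + s • y.1) := by
      simp only [Prod.snd_add, Prod.fst_add, smul_add]; abel
    rw [e, map_add, ihx, ihy, Prod.fst_add]
  | smul c x hx ih =>
    have e : (c • x).2 + s • (c • x).1 = c • (x.2 + s • x.1) := by
      simp only [Prod.smul_snd, Prod.smul_fst, smul_add, smul_comm s c]
    rw [e, map_smul, ih, Prod.smul_fst]

theorem AB2_ext {G : Set (H × H)} (hG : EssSA G) {s : ℂ} (hs : s ∈ ({I, -I} : Set ℂ))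
    {H' : Type} [NormedAddCommGroup H'] [NormedSpace ℂ H'] (A B : H →L[ℂ] H')
    (h1 : ∀ g ∈ G, A (g.2 + s • g.1) = B (g.2 + s • g.1)) (h2 : ∀ v, Perp G v → A v = B v) :
    A = B := by
  refine ext_perp ((fun g : H × H => g.2 + s • g.1) '' G) A B ?_ ?_
  · rintro _ ⟨g, hg, rfl⟩
    exact h1 g hg
  · intro v hv
    exact h2 v ((hG.2 s hs v).1 fun g hg => hv _ ⟨g, hg, rfl⟩)

theorem IsRes.props {G : Set (H × H)} {R : H →L[ℂ] H} (hG : EssSA G) (hR : IsRes G R) :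
    ‖R‖ ≤ 1 ∧ (∀ g ∈ G, star R (g.2 + (-I) • g.1) = g.1) ∧ (∀ v, Perp G v → star R v = 0) ∧
      R * star R = star R * R ∧ ∀ v, InK G (R v) := by
  have hK : ∀ v, InK G (R v) := by
    intro v w hw
    have h : (innerSL ℂ w).comp R = 0 := by
      refine AB2_ext hG AB2_memI _ _ ?_ ?_
      · intro g hg
        simp only [ContinuousLinearMap.comp_apply, innerSL_apply_apply,
          zero_apply]
        rw [hR.1 g hg, ← inner_conj_symm, hw g hg, map_zero]
      · intro x hx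
        simp only [ContinuousLinearMap.comp_apply, hR.2 x hx, map_zero,
          zero_apply]
    simpa using congrArg (fun A : H →L[ℂ] ℂ => A v) h
  have h0 : ∀ v, Perp G v → star R v = 0 := by
    intro v hv
    apply ext_inner_left ℂ
    intro x
    rw [ContinuousLinearMap.star_eq_adjoint, ContinuousLinearMap.adjoint_inner_right,
      ← inner_conj_symm, hK x v hv, map_zero, inner_zero_right]
  have h1 : ∀ g ∈ G, star R (g.2 + (-I) • g.1) = g.1 := by
    intro g hg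
    have h : (innerSL ℂ (g.2 + (-I) • g.1)).comp R = innerSL ℂ g.1 := by
      refine AB2_ext hG AB2_memI _ _ ?_ ?_
      · intro a ha
        simp only [ContinuousLinearMap.comp_apply, innerSL_apply_apply]
        rw [hR.1 a ha, inner_add_left, inner_add_right, inner_smul_left, inner_smul_right,
          hG.1 g hg a ha]
        simp
      · intro x hx
        simp only [ContinuousLinearMap.comp_apply, innerSL_apply_apply]
        rw [hR.2 x hx, inner_zero_right, hx g hg]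
    apply ext_inner_right ℂ
    intro x
    rw [ContinuousLinearMap.star_eq_adjoint, ContinuousLinearMap.adjoint_inner_left]
    exact congrArg (fun A : H →L[ℂ] ℂ => A x) h
  have hn : ‖R‖ ≤ 1 := by
    refine ContinuousLinearMap.opNorm_le_bound _ zero_le_one fun v => ?_
    obtain ⟨v₁, v₂, hv, k1, k2, k3⟩ := exists_decomp G v
    have e1 : R v = R v₁ := by rw [hv, map_add, hR.2 v₂ k2, add_zero]
    rw [e1, one_mul]
    refine le_trans ?_ k3
    refine le_of_forall_pos_le_add fun e he => ?_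
    have hpos : 0 < e / (1 + ‖R‖) := by positivity
    obtain ⟨a, ha, hae⟩ := hG.approx AB2_memI k1 hpos
    have e2 : R v₁ = a.1 - R (a.2 + I • a.1 - v₁) := by
      rw [map_sub, IsRes.span hR.1 ha]; abel
    have e3 : ‖a.1‖ ≤ ‖a.2 + I • a.1‖ :=
      (norm_fst_le a).trans (AB2_norm_le hG (Submodule.le_topologicalClosure _ ha))
    have e4 : ‖a.2 + I • a.1‖ ≤ ‖v₁‖ + ‖a.2 + I • a.1 - v₁‖ := norm_le_insert' _ _
    have e5 : ‖R (a.2 + I • a.1 - v₁)‖ ≤ ‖R‖ * ‖a.2 + I • a.1 - v₁‖ := R.le_opNorm _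
    have e6 : ‖R v₁‖ ≤ ‖a.1‖ + ‖R (a.2 + I • a.1 - v₁)‖ := by rw [e2]; exact norm_sub_le _ _
    have e7 : (1 + ‖R‖) * ‖a.2 + I • a.1 - v₁‖ ≤ e := by
      have h := (lt_div_iff₀ (by positivity : 0 < 1 + ‖R‖)).1 hae
      linarith
    linarith
  have hp : R - star R = (-2 * I) • (star R * R) := by
    refine AB2_ext hG AB2_memI _ _ ?_ ?_
    · intro g hg
      have e : g.2 + I • g.1 = (g.2 + (-I) • g.1) + (2 * I) • g.1 := by
        rw [add_assoc, ← add_smul]; congr 2; ring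
      simp only [sub_apply, smul_apply,
        mul_apply_eq_comp]
      rw [hR.1 g hg]
      conv_lhs => rw [e, map_add, h1 g hg, map_smul]
      rw [neg_mul, neg_smul]; abel
    · intro x hx
      simp only [sub_apply, smul_apply,
        mul_apply_eq_comp, hR.2 x hx, h0 x hx, map_zero, smul_zero, sub_zero]
  have hm : R - star R = (-2 * I) • (R * star R) := by
    refine AB2_ext hG AB2_memNegI _ _ ?_ ?_
    · intro g hg
      have e : g.2 + (-I) • g.1 = (g.2 + I • g.1) + (-2 * I) • g.1 := by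
        rw [add_assoc, ← add_smul]; congr 2; ring
      simp only [sub_apply, smul_apply,
        mul_apply_eq_comp]
      rw [h1 g hg]
      conv_lhs => rw [e, map_add, hR.1 g hg, map_smul]
      abel
    · intro x hx
      simp only [sub_apply, smul_apply,
        mul_apply_eq_comp, hR.2 x hx, h0 x hx, map_zero, smul_zero, sub_zero]
  refine ⟨hn, h1, h0, ?_, hK⟩
  have hne : (-2 * I : ℂ) ≠ 0 := mul_ne_zero (by norm_num) I_ne_zero
  exact smul_right_injective _ hne (hm.symm.trans hp)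

end Pool.Agent.P.MP_e0a138_an.AD
end
end

-- part Pool.Agent.P.MP_e0a138_an.GE26b
section

set_option autoImplicit false
set_option linter.unusedSectionVars false
set_option linter.unusedVariables false

open MeasureTheory Filter Topology Metric Complex
open scoped ENNReal NNReal ContDiff InnerProductSpace ComplexConjugate

noncomputable section
namespace Pool.Agent.P.MP_e0a138_an.AD

variable {N p q k : ℕ} {W : Type} [NormedAddCommGroup W] [InnerProductSpace ℂ W]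
  [FiniteDimensional ℂ W] [CompleteSpace W]
variable {A : Atl N p q k} {ε : Eu N →L[ℝ] W →L[ℂ] W}

theorem GE26b_sq {H : Type} [NormedAddCommGroup H] [InnerProductSpace ℂ H] [CompleteSpace H]
    {S : H →L[ℂ] H} (hS : star S = S) (w : H) :
    ENNReal.ofReal (⟪w, (S * S) w⟫_ℂ).re = ‖S w‖ₑ ^ 2 := by
  have h1 : ⟪w, (S * S) w⟫_ℂ = ⟪S w, S w⟫_ℂ := by
    have h2 := ContinuousLinearMap.adjoint_inner_right S w (S w)
    rw [← ContinuousLinearMap.star_eq_adjoint, hS] at h2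
    exact h2
  have h3 : (⟪S w, S w⟫_ℂ).re = ‖S w‖ ^ 2 := inner_self_eq_norm_sq (𝕜 := ℂ) (S w)
  rw [h1, h3, ENNReal.ofReal_pow (norm_nonneg _), ofReal_norm]

namespace Atl
variable {DF DH : (Eu N → W) → Eu N → W} {μ : Measure (Eu N)} {l : Measure (Eu N × Eu N)}
  {t : Tr q k}

theorem Dir.leaf_frame (hD : A.Dir ε μ DF DH) (hε : IsCAR ε) (ht : t.2.1 ∈ ball (0 : Eu q) 1)
    (hl : A.IsLeaf t l) {c : ℝ≥0} (hc0 : c ≠ 0) (hc : l.restrict (A.plq t) = c • A.pm t)
    (hG : EssSA (A.grL ε DF t l)) {S : Lp W 2 l →L[ℂ] Lp W 2 l} (hS : IsRes (A.grL ε DF t l) S)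
    {f : ℝ → ℝ} (hf : Continuous f) (hfc : HasCompactSupport f) (h0 : ∀ x, 0 ≤ f x) :
    ∑ e, ∫⁻ ξ, (c : ℝ≥0∞)⁻¹ * ENNReal.ofReal
      (⟪A.sec l t (A.uf ε t.1 ξ (stdOrthonormalBasis ℂ W e)),
        fc f S (A.sec l t (A.uf ε t.1 ξ (stdOrthonormalBasis ℂ W e)))⟫_ℂ).re =
      tr ((A.plq t).indicator fun z => A.χ t.1 z.1) (fc f S) := by
  have := IsLeaf.separable (W := W) ht hl
  obtain ⟨-, -, -, hn, hK⟩ := IsRes.props hG hS
  obtain ⟨C, hC⟩ := fc_sqrt hf hfc h0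
  obtain ⟨S', h1, h2, -, h3⟩ := hC _ S hn
  have hw : AEStronglyMeasurable ((A.plq t).indicator fun z : Eu N × Eu N => A.χ t.1 z.1) l :=
    (IsLeaf.aesm ht hl (A.χ_smooth t.1).continuous.continuousOn).indicator (measurableSet_plq t)
  have hb : ∀ᵐ z ∂l, |(A.plq t).indicator (fun z : Eu N × Eu N => A.χ t.1 z.1) z| ≤ 1 :=
    Eventually.of_forall fun z => by
      by_cases hz : z ∈ A.plq t
      · rw [Set.indicator_of_mem hz]
        exact (sq_le_one_iff_abs_le_one _).1 (χ_sq_le (plq_fst hz).1 t.1)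
      · rw [Set.indicator_of_notMem hz, abs_zero]; exact zero_le_one
  obtain ⟨M, hM, hMv, hT⟩ := exists_mul_real (W := W) hw hb
  have hm : ∀ (j : Fin (Module.finrank ℂ W)) (u : Lp W 2 l), Measurable fun ξ : Eu p =>
      ⟪A.sec l t (A.uf ε t.1 ξ (stdOrthonormalBasis ℂ W j)), u⟫_ℂ := fun j u => by
    obtain ⟨g, g1, -, g3, -⟩ := leaf_loc hε ht hl hc0 hc u
    simp only [g3]
    exact (continuous_const.mul (continuous_const.inner (fourier_continuous g1))).measurable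
  have hcT : (c : ℝ≥0∞) ≠ ⊤ := ENNReal.coe_ne_top
  have hcZ : (c : ℝ≥0∞) ≠ 0 := ENNReal.coe_ne_zero.2 hc0
  have key := frame_eq (volume : Measure (Eu p))
    (w := fun j ξ => A.sec l t (A.uf ε t.1 ξ (stdOrthonormalBasis ℂ W j))) hm hM h1 (c : ℝ≥0∞)
    fun e => by
      obtain ⟨g, g1, g2, g3, g4⟩ := leaf_loc hε ht hl hc0 hc (S' e)
      obtain ⟨v, hv, -⟩ := h3 e
      have g5 := g4 (hD.inK_valL hε ht hl (hv ▸ hK v))
      have g6 : ‖(c : ℂ)‖ₑ = c := by
        rw [← ofReal_norm, Complex.norm_real, Real.norm_eq_abs, NNReal.abs_eq,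
          ENNReal.ofReal_coe_nnreal]
      have g7 : ∀ j : Fin (Module.finrank ℂ W), Measurable fun ξ : Eu p =>
          ‖⟪stdOrthonormalBasis ℂ W j,
            ∫ x, cexp (-(2 * Real.pi * I * ((⟪ξ, x⟫_ℝ : ℝ) : ℂ))) • g x⟫_ℂ‖ₑ ^ 2 := fun j =>
        (continuous_const.inner (fourier_continuous g1)).measurable.enorm.pow_const 2
      simp only [g3, enorm_mul, mul_pow, g6]
      rw [enorm_sq_eq_of_ae (hMv (S' e)), ← g5, ← plancherel g1 g2]
      simp only [lintegral_const_mul' _ _ (ENNReal.pow_ne_top hcT)]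
      rw [← Finset.mul_sum, ← lintegral_finsetSum _ fun j _ => g7 j]
      simp only [sum_basis_enorm]
      rw [sq, mul_assoc]
  rw [hT, ← h2]
  simp only [GE26b_sq h1, lintegral_const_mul' _ _ (ENNReal.inv_ne_top.2 hcZ)]
  rw [← Finset.mul_sum, key, ← mul_assoc, ENNReal.inv_mul_cancel hcZ hcT, one_mul]

end Atl

end Pool.Agent.P.MP_e0a138_an.AD
end
end

-- part Pool.Agent.P.MP_e0a138_an.GE24
section

set_option autoImplicit false
set_option linter.unusedSectionVars false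
set_option linter.unusedVariables false

open MeasureTheory Filter Topology Metric Complex
open scoped ENNReal NNReal ContDiff InnerProductSpace ComplexConjugate

noncomputable section
namespace Pool.Agent.P.MP_e0a138_an.AD

variable {N p q k : ℕ} {W : Type} [NormedAddCommGroup W] [InnerProductSpace ℂ W]
  [FiniteDimensional ℂ W] [CompleteSpace W]
variable {A : Atl N p q k}

namespace Atl

theorem GE24_gr (i : Fin k) (a : Fin p ⊕ Fin q) :
    ContDiffOn ℝ ∞ (fun z => A.gr i a (A.ψ i z)) (ball 0 1) :=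
  contDiffOn_iff.1 (smooth_gr i a) i

theorem GE24_proj {Q : Eu N → Submodule ℝ (Eu N)} (hQ : A.SubB Q) (i : Fin k) (a : Fin p ⊕ Fin q) :
    ContDiffOn ℝ ∞ (fun z => (Q (A.ψ i z)).starProjection (A.gr i a (A.ψ i z))) (ball 0 1) :=
  (contDiffOn_iff.1 hQ.1 i).clm_apply (GE24_gr i a)

theorem GE24_split (i : Fin k) (a : Fin p ⊕ Fin q) : ∃ f0 f1 : Eu p × Eu q → Eu N,
    ContDiffOn ℝ ∞ f0 (ball 0 1) ∧ ContDiffOn ℝ ∞ f1 (ball 0 1) ∧
      ∀ h : ℝ, A.wh h i a = f0 + h • f1 := by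
  rcases a with b | b
  · exact ⟨_, _, GE24_proj A.subB_F i (.inl b), GE24_proj A.subB_H i (.inl b), fun h => rfl⟩
  · refine ⟨_, 0, GE24_gr (A := A) i (.inr b), contDiffOn_const, fun h => ?_⟩
    funext z
    simp [wh]

theorem GE24_bd {G : Type} [NormedAddCommGroup G] {f : Eu p × Eu q → G} {r : ℝ} (hr : r < 1)
    (hf : ContinuousOn f (ball 0 1)) :
    ∃ L : ℝ, 0 ≤ L ∧ ∀ z ∈ closedBall (0 : Eu p × Eu q) r, ‖f z‖ ≤ L := by
  obtain ⟨L, hL⟩ := (isCompact_closedBall (0 : Eu p × Eu q) r).exists_bound_of_continuousOn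
    (hf.mono (closedBall_subset_ball hr))
  exact ⟨max L 0, le_max_right _ _, fun z hz => (hL z hz).trans (le_max_left _ _)⟩

theorem GE24_div {x y : ℝ} (hx : 0 ≤ x) (hy : 0 ≤ y) (h : x ^ 2 ≤ y * x) : x ≤ y := by
  rcases hx.eq_or_lt with h0 | h0
  · rw [← h0]; exact hy
  · nlinarith

theorem GE24_op {E F : Type} [NormedAddCommGroup E] [NormedSpace ℝ E] [NormedAddCommGroup F]
    [NormedSpace ℝ F] (S T : E →L[ℝ] F) {h : ℝ} (hh : h ∈ Set.Icc (0 : ℝ) 1) :
    ‖S + h • T‖ ≤ ‖S‖ + ‖T‖ := by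
  refine (norm_add_le _ _).trans ?_
  rw [norm_smul, Real.norm_eq_abs, abs_of_nonneg hh.1]
  nlinarith [hh.1, hh.2, norm_nonneg T]

theorem wh_smooth (h : ℝ) (i : Fin k) (a : Fin p ⊕ Fin q) :
    ContDiffOn ℝ ∞ (A.wh h i a) (ball 0 1) := by
  obtain ⟨f0, f1, h0, h1, e⟩ := GE24_split (A := A) i a
  rw [e]
  exact h0.add (h1.const_smul h)

theorem wh_ell (A : Atl N p q k) {r : ℝ} (hr : r < 1) (i : Fin k) : ∃ c : ℝ, 0 < c ∧
    ∀ h ∈ Set.Icc (0 : ℝ) 1, ∀ z ∈ closedBall (0 : Eu p × Eu q) r, ∀ t : Fin p ⊕ Fin q → ℝ,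
      c * ∑ a, t a ^ 2 ≤ ‖∑ a, t a • A.wh h i a z‖ ^ 2 := by
  obtain ⟨Λ, hΛ0, hΛ⟩ := GE24_bd (f := fun z => A.jd i z) hr
    (jd_smooth i).continuous.continuousOn
  choose L hL0 hL using fun b : Fin p => GE24_bd hr (GE24_gr (A := A) i (.inl b)).continuousOn
  set S : ℝ := ∑ b, L b with hS
  have hS0 : 0 ≤ S := Finset.sum_nonneg fun b _ => hL0 b
  set B : ℝ := Λ * (1 + 2 * (S * Λ)) with hB
  refine ⟨(Λ ^ 2 + B ^ 2 + 1)⁻¹, by positivity, fun h hh z hz t => ?_⟩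
  have hz1 : z ∈ ball (0 : Eu p × Eu q) 1 := closedBall_subset_ball hr hz
  set tx : Eu p := ∑ b, t (.inl b) • bs b with htx
  set ty : Eu q := ∑ b, t (.inr b) • bs b with hty
  have cx : ∀ b, ⟪bs b, tx⟫_ℝ = t (.inl b) := by
    intro b; simp [htx, inner_sum, inner_smul_right, inner_bs_bs]
  have cy : ∀ b, ⟪bs b, ty⟫_ℝ = t (.inr b) := by
    intro b; simp [hty, inner_sum, inner_smul_right, inner_bs_bs]
  have nx : ‖tx‖ ^ 2 = ∑ b, t (.inl b) ^ 2 := by rw [norm_sq_bs]; simp only [cx]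
  have ny : ‖ty‖ ^ 2 = ∑ b, t (.inr b) ^ 2 := by rw [norm_sq_bs]; simp only [cy]
  set m := A.ψ i z with hm
  set G : Eu N := ∑ b, t (.inl b) • A.gr i (.inl b) m with hG
  set G' : Eu N := ∑ b, t (.inr b) • A.gr i (.inr b) m with hG'
  set v : Eu N := ∑ a, t a • A.wh h i a z with hv
  have ev : v = (A.F m).starProjection G + h • (A.H m).starProjection G + G' := by
    simp only [hv, Fintype.sum_sum_type, wh, Sum.elim_inl, Sum.elim_inr, hG, hG', map_sum,
      map_smul, smul_add, Finset.sum_add_distrib, Finset.smul_sum, smul_comm h, hm]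
  have hG'H : G' ∈ A.H m := Submodule.sum_mem _ fun b _ =>
    Submodule.smul_mem _ _ (gr_inr_mem_H i b hz1)
  set w1 := A.jd i z (tx, 0) with hw1
  have hw1F : w1 ∈ A.F m := by
    rw [hm, F_eq' i hz1]; exact ⟨tx, rfl⟩
  have i1 : ⟪v, w1⟫_ℝ = ‖tx‖ ^ 2 := by
    have a1 : ⟪(A.H m).starProjection G, w1⟫_ℝ = 0 :=
      Submodule.inner_left_of_mem_orthogonal hw1F ((A.H m).starProjection_apply_mem G).1
    have a2 : ⟪G', w1⟫_ℝ = 0 := Submodule.inner_left_of_mem_orthogonal hw1F hG'H.1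
    rw [ev, inner_add_left, inner_add_left, real_inner_smul_left, a1, a2,
      Submodule.inner_starProjection_left_eq_right, Submodule.starProjection_eq_self_iff.2 hw1F,
      nx, hG, sum_inner]
    simp only [real_inner_smul_left, hw1, hm, inner_gr i _ hz1, crd, Sum.elim_inl, cx, sq]
    simp
  have i2 : ⟪G', A.jd i z (0, ty)⟫_ℝ = ‖ty‖ ^ 2 := by
    rw [ny, hG', sum_inner]
    simp only [real_inner_smul_left, hm, inner_gr i _ hz1, crd, Sum.elim_inr, cy, sq]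
  have n1 : ‖w1‖ ≤ Λ * ‖tx‖ := by
    refine (ContinuousLinearMap.le_opNorm _ _).trans ?_
    rw [Prod.norm_def, norm_zero, max_eq_left (norm_nonneg _)]
    exact mul_le_mul_of_nonneg_right (hΛ z hz) (norm_nonneg _)
  have n2 : ‖A.jd i z (0, ty)‖ ≤ Λ * ‖ty‖ := by
    refine (ContinuousLinearMap.le_opNorm _ _).trans ?_
    rw [Prod.norm_def, norm_zero, max_eq_right (norm_nonneg _)]
    exact mul_le_mul_of_nonneg_right (hΛ z hz) (norm_nonneg _)
  have b1 : ‖tx‖ ≤ Λ * ‖v‖ := by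
    apply GE24_div (norm_nonneg _) (by positivity)
    rw [← i1]
    refine (real_inner_le_norm _ _).trans ?_
    nlinarith [norm_nonneg v]
  have b2 : ‖ty‖ ≤ Λ * ‖G'‖ := by
    apply GE24_div (norm_nonneg _) (by positivity)
    rw [← i2]
    refine (real_inner_le_norm _ _).trans ?_
    nlinarith [norm_nonneg G']
  have b3 : ‖G‖ ≤ S * ‖tx‖ := by
    rw [hG, hS, Finset.sum_mul]
    refine (norm_sum_le _ _).trans (Finset.sum_le_sum fun b _ => ?_)
    rw [norm_smul, mul_comm]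
    refine mul_le_mul (hL b z hz) ?_ (norm_nonneg _) (hL0 b)
    rw [← cx b]
    simpa [norm_bs] using norm_inner_le_norm (𝕜 := ℝ) (bs b) tx
  have b4 : ‖G'‖ ≤ ‖v‖ + 2 * ‖G‖ := by
    have e : G' = v - (A.F m).starProjection G - h • (A.H m).starProjection G := by
      rw [ev]; abel
    have p1 := (A.F m).norm_starProjection_apply_le G
    have p2 : ‖h • (A.H m).starProjection G‖ ≤ ‖G‖ := by
      rw [norm_smul, Real.norm_eq_abs, abs_of_nonneg hh.1]
      have := (A.H m).norm_starProjection_apply_le G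
      nlinarith [hh.1, hh.2, norm_nonneg ((A.H m).starProjection G)]
    rw [e]
    have := norm_sub_le (v - (A.F m).starProjection G) (h • (A.H m).starProjection G)
    have := norm_sub_le v ((A.F m).starProjection G)
    linarith
  have b5 : ‖ty‖ ≤ B * ‖v‖ := by
    have : ‖G‖ ≤ S * (Λ * ‖v‖) := b3.trans (mul_le_mul_of_nonneg_left b1 hS0)
    refine b2.trans ?_
    rw [hB, mul_assoc]
    exact mul_le_mul_of_nonneg_left (by nlinarith) hΛ0
  rw [Fintype.sum_sum_type, ← nx, ← ny, inv_mul_le_iff₀ (by positivity)]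
  have s1 := pow_le_pow_left₀ (norm_nonneg _) b1 2
  have s2 := pow_le_pow_left₀ (norm_nonneg _) b5 2
  nlinarith [sq_nonneg ‖v‖]

theorem wh_bdd (A : Atl N p q k) {r : ℝ} (hr : r < 1) (i : Fin k) : ∃ L : ℝ,
    ∀ h ∈ Set.Icc (0 : ℝ) 1, ∀ a, ∀ z ∈ closedBall (0 : Eu p × Eu q) r,
      ‖A.wh h i a z‖ ≤ L ∧ ‖fderiv ℝ (A.wh h i a) z‖ ≤ L := by
  have key : ∀ a, ∃ L : ℝ, 0 ≤ L ∧ ∀ h ∈ Set.Icc (0 : ℝ) 1, ∀ z ∈ closedBall (0 : Eu p × Eu q) r,
      ‖A.wh h i a z‖ ≤ L ∧ ‖fderiv ℝ (A.wh h i a) z‖ ≤ L := by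
    intro a
    obtain ⟨f0, f1, h0, h1, e⟩ := GE24_split (A := A) i a
    obtain ⟨L1, p1, q1⟩ := GE24_bd hr h0.continuousOn
    obtain ⟨L2, p2, q2⟩ := GE24_bd hr h1.continuousOn
    obtain ⟨L3, p3, q3⟩ := GE24_bd hr (h0.continuousOn_fderiv_of_isOpen isOpen_ball (by simp))
    obtain ⟨L4, p4, q4⟩ := GE24_bd hr (h1.continuousOn_fderiv_of_isOpen isOpen_ball (by simp))
    refine ⟨L1 + L2 + L3 + L4, by positivity, fun h hh z hz => ?_⟩
    have hz1 : z ∈ ball (0 : Eu p × Eu q) 1 := closedBall_subset_ball hr hz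
    have d0 := diffAt_of_contDiffOn isOpen_ball h0 hz1
    have d1 := diffAt_of_contDiffOn isOpen_ball h1 hz1
    rw [e, fderiv_add d0 (d1.const_smul h), fderiv_const_smul d1]
    have := q1 z hz
    have := q3 z hz
    have a2 : ‖h • f1 z‖ ≤ L2 := by
      rw [norm_smul, Real.norm_eq_abs, abs_of_nonneg hh.1]
      nlinarith [q2 z hz, hh.1, hh.2, norm_nonneg (f1 z)]
    have a5 := norm_add_le (f0 z) (h • f1 z)
    exact ⟨a5.trans (by linarith),
      (GE24_op _ _ hh).trans (by linarith [q4 z hz])⟩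
  choose L hL0 hL using key
  refine ⟨∑ a, L a, fun h hh a z hz => ?_⟩
  have := Finset.single_le_sum (f := L) (fun a _ => hL0 a) (Finset.mem_univ a)
  exact ⟨(hL a h hh z hz).1.trans this, (hL a h hh z hz).2.trans this⟩

theorem wh_symbol (ε : Eu N →L[ℝ] W →L[ℂ] W) (h : ℝ) (i : Fin k) {z : Eu p × Eu q}
    (hz : z ∈ ball (0 : Eu p × Eu q) 1) (L : Eu p × Eu q →L[ℝ] W) :
    ∑ a, (A.sy (clL ε) A.F i a z + (h : ℂ) • A.sy (clL ε) A.H i a z) (L (cb a)) =
      ∑ a, cl ε (A.wh h i a z) (L (cbh h a)) := by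
  refine Finset.sum_congr rfl fun a _ => ?_
  rcases a with b | b
  · simp only [sy, wh, cb, cbh, Sum.elim_inl, ← clL_apply, map_add, map_smul, Complex.coe_smul]
  · rw [sy_F_inr _ _ _ hz, sy_H_inr _ _ _ hz]
    have : cbh h (.inr b : Fin p ⊕ Fin q) = h • cb (.inr b) := by simp [cbh, cb]
    rw [this, map_smul, zero_add, ← Complex.coe_smul, map_smul]
    simp [wh]

end Atl

end Pool.Agent.P.MP_e0a138_an.AD
end
end

-- part Pool.Agent.P.MP_e0a138_an.AN5a
section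

set_option autoImplicit false
set_option linter.unusedSectionVars false
set_option linter.unusedVariables false

open MeasureTheory Filter Topology Metric Complex
open scoped ENNReal NNReal ContDiff InnerProductSpace ComplexConjugate

noncomputable section
namespace Pool.Agent.P.MP_e0a138_an.AD

variable {N p q k : ℕ} {W : Type} [NormedAddCommGroup W] [InnerProductSpace ℂ W]
  [FiniteDimensional ℂ W] [CompleteSpace W]
variable {E : Type} [NormedAddCommGroup E] [NormedSpace ℝ E] [FiniteDimensional ℝ E]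
  [MeasureSpace E] [BorelSpace E] [(volume : Measure E).IsAddHaarMeasure] {κ : Type} [Fintype κ]

theorem an5a_ind_eq {F : Type} [Zero F] {O K : Set E} {f : E → F}
    (h0 : ∀ x ∈ O, x ∉ K → f x = 0) : ∀ x ∈ O, K.indicator f x = f x := by
  intro x hx
  by_cases hxK : x ∈ K
  · exact Set.indicator_of_mem hxK f
  · rw [Set.indicator_of_notMem hxK, h0 x hx hxK]

theorem an5a_ind_cpt {F : Type} [Zero F] {K : Set E} (hK : IsCompact K) (f : E → F) :
    HasCompactSupport (K.indicator f) :=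
  HasCompactSupport.intro hK fun x hx => Set.indicator_of_notMem hx f

theorem an5a_ind_cont {F : Type} [NormedAddCommGroup F] {O K : Set E} (hO : IsOpen O)
    (hK : IsCompact K) (hKO : K ⊆ O) {f : E → F} (hf : ContinuousOn f O)
    (h0 : ∀ x ∈ O, x ∉ K → f x = 0) : Continuous (K.indicator f) :=
  continuous_of_cpt hO hK.isClosed hKO (hf.congr fun x hx => an5a_ind_eq h0 x hx)
    fun x hx => Set.indicator_of_notMem hx f

theorem integrableOn_of_cpt {F : Type} [NormedAddCommGroup F] {O K : Set E} (hO : IsOpen O)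
    (hK : IsCompact K) (hKO : K ⊆ O) {f : E → F} (hf : ContinuousOn f O)
    (h0 : ∀ x ∈ O, x ∉ K → f x = 0) : IntegrableOn f O := by
  have h1 : Integrable (K.indicator f) (volume : Measure E) :=
    (an5a_ind_cont hO hK hKO hf h0).integrable_of_hasCompactSupport (an5a_ind_cpt hK f)
  exact (h1.integrableOn (s := O)).congr_fun (fun x hx => an5a_ind_eq h0 x hx) hO.measurableSet

theorem an5a_ibp {F : Type} [NormedAddCommGroup F] [NormedSpace ℝ F] [CompleteSpace F]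
    {g : E → F} (hg : ContDiff ℝ ∞ g) (hc : HasCompactSupport g) (b : E) :
    ∫ x, fderiv ℝ g x b = 0 := by
  have hd : Continuous fun x => fderiv ℝ g x b :=
    (hg.continuous_fderiv (by simp)).clm_apply continuous_const
  have hdc : HasCompactSupport fun x => fderiv ℝ g x b := hc.fderiv_apply ℝ b
  have h := integral_smul_fderiv_eq_neg_fderiv_smul_of_integrable (𝕜 := ℝ)
    (μ := (volume : Measure E)) (f := fun _ : E => (1 : ℝ)) (g := g) (v := b)
    (by simp) (by simpa using hd.integrable_of_hasCompactSupport hdc)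
    (by simpa using hg.continuous.integrable_of_hasCompactSupport hc)
    (fun x _ => differentiableAt_const _)
    (fun x _ => (hg.differentiable (by simp)).differentiableAt)
  simpa using h

theorem ibp0 {F : Type} [NormedAddCommGroup F] [NormedSpace ℝ F] [CompleteSpace F] {O K : Set E}
    (hO : IsOpen O) (hK : IsCompact K) (hKO : K ⊆ O) {f : E → F} (hf : ContDiffOn ℝ ∞ f O)
    (h0 : ∀ x ∈ O, x ∉ K → f x = 0) (b : E) : ∫ x in O, fderiv ℝ f x b = 0 := by
  have hg : ContDiff ℝ ∞ (K.indicator f) :=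
    contDiff_of_cpt hO hK.isClosed hKO (hf.congr fun x hx => an5a_ind_eq h0 x hx)
      fun x hx => Set.indicator_of_notMem hx f
  have h1 : ∫ x in O, fderiv ℝ f x b = ∫ x in O, fderiv ℝ (K.indicator f) x b := by
    refine setIntegral_congr_fun hO.measurableSet fun x hx => ?_
    have : K.indicator f =ᶠ[𝓝 x] f := by
      filter_upwards [hO.mem_nhds hx] with y hy using an5a_ind_eq h0 y hy
    simp only [this.fderiv_eq]
  rw [h1, setIntegral_eq_integral_of_forall_compl_eq_zero, an5a_ibp hg (an5a_ind_cpt hK f) b]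
  intro x hx
  have hxK : x ∉ K := fun h => hx (hKO h)
  rw [fderiv_eq_zero_of_closed isOpen_univ hK.isClosed
    (fun y _ hy => Set.indicator_of_notMem hy f) (Set.mem_univ x) hxK]
  rfl

theorem integrable_wm_of_cpt {F : Type} [NormedAddCommGroup F] [NormedSpace ℝ F] {O K : Set E}
    (hO : IsOpen O) (hK : IsCompact K) (hKO : K ⊆ O) {ρ : E → ℝ} (hρ : ContinuousOn ρ O)
    {f : E → F} (hf : ContinuousOn f O) (h0 : ∀ x ∈ O, x ∉ K → f x = 0) :
    Integrable f (wm O ρ) := by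
  refine ⟨aesm_wm hO.measurableSet hf, ?_⟩
  obtain ⟨C, hC⟩ := lintegral_wm_le hO.measurableSet hK hKO hρ
  have h1 := hC (fun x => ‖f x‖ₑ) (fun x hx hxK => by simp [h0 x hx hxK])
  have h2 : IntegrableOn f K (volume : Measure E) :=
    (integrableOn_of_cpt hO hK hKO hf h0).mono_set hKO
  exact lt_of_le_of_lt h1 (ENNReal.mul_lt_top ENNReal.coe_lt_top h2.2)

theorem eq_zero_of_test {O : Set E} (hO : IsOpen O) {ρ : E → ℝ} (hρ : ContinuousOn ρ O)
    (h0 : ∀ x ∈ O, 0 < ρ x) {w : E → W} (hw : ContinuousOn w O)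
    (h : ∀ c : E → ℝ, ContDiff ℝ ∞ c → HasCompactSupport c → tsupport c ⊆ O →
      ∫ x, ⟪w x, (c x : ℂ) • w x⟫_ℂ ∂wm O ρ = 0) : ∀ x ∈ O, w x = 0 := by
  intro x0 hx0
  by_contra hne
  obtain ⟨c, hcO, hcc, hcs, hcr, hc1⟩ :=
    exists_contDiff_tsupport_subset (n := ⊤) (hO.mem_nhds hx0)
  have hc0 : ∀ x, 0 ≤ c x := fun x => (hcr ⟨x, rfl⟩).1
  have h1 := h c hcs hcc hcO
  rw [integral_wm hO.measurableSet hρ (fun x hx => (h0 x hx).le)] at h1
  set g : E → ℝ := fun x => ρ x * (c x * ‖w x‖ ^ 2) with hg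
  have h2 : ∀ x, ρ x • ⟪w x, (c x : ℂ) • w x⟫_ℂ = ((g x : ℝ) : ℂ) := by
    intro x
    rw [inner_smul_right, inner_self_eq_norm_sq_to_K, hg]
    simp
  simp only [h2] at h1
  rw [integral_complex_ofReal, Complex.ofReal_eq_zero] at h1
  have hz : ∀ x, x ∉ tsupport c → g x = 0 := fun x hx => by
    simp [hg, image_eq_zero_of_notMem_tsupport hx]
  have hgO : ContinuousOn g O :=
    hρ.mul (hcs.continuous.continuousOn.mul (hw.norm.pow 2))
  have hgc : Continuous g := continuous_of_cpt hO (isClosed_tsupport c) hcO hgO hz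
  have hgs : HasCompactSupport g := HasCompactSupport.intro hcc hz
  have hgn : 0 ≤ g := fun x => by
    by_cases hx : x ∈ tsupport c
    · exact mul_nonneg (h0 x (hcO hx)).le (mul_nonneg (hc0 x) (sq_nonneg _))
    · exact (hz x hx).ge
  have hgx : g x0 ≠ 0 := by
    have : 0 < ‖w x0‖ := norm_pos_iff.2 hne
    have h3 := h0 x0 hx0
    simp only [hg, hc1]
    positivity
  have hpos := hgc.integral_pos_of_hasCompactSupport_nonneg_nonzero (μ := (volume : Measure E))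
    hgs hgn hgx
  rw [setIntegral_eq_integral_of_forall_compl_eq_zero
    (fun x hx => hz x fun h' => hx (hcO h'))] at h1
  exact hpos.ne' h1

end Pool.Agent.P.MP_e0a138_an.AD
end
end

-- part Pool.Agent.P.MP_e0a138_an.PA1a
section

set_option autoImplicit false
set_option linter.unusedSectionVars false
set_option linter.unusedVariables false

open MeasureTheory Filter Topology Metric Complex
open scoped ENNReal NNReal ContDiff InnerProductSpace ComplexConjugate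

noncomputable section
namespace Pool.Agent.P.MP_e0a138_an.AD

variable {N p q k : ℕ} {W : Type} [NormedAddCommGroup W] [InnerProductSpace ℂ W]
  [FiniteDimensional ℂ W] [CompleteSpace W]
variable {E : Type} [NormedAddCommGroup E] [NormedSpace ℝ E] [FiniteDimensional ℝ E]
  [MeasureSpace E] [BorelSpace E] [(volume : Measure E).IsAddHaarMeasure] {κ : Type} [Fintype κ]

variable {S J : Type} [MeasurableSpace S] {ν : Measure S} {b : κ → E}
  {G : Set (Lp W 2 ν × Lp W 2 ν)} {Pg : S → W →L[ℂ] W}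

theorem PA1a_int {X : Type} [MeasurableSpace X] {m : Measure X} {f g : X → W}
    (hf : MemLp f 2 m) (hg : MemLp g 2 m) : Integrable (fun x => ⟪f x, g x⟫_ℂ) m := by
  refine (L2.integrable_inner (𝕜 := ℂ) (hf.toLp f) (hg.toLp g)).congr ?_
  filter_upwards [hf.coeFn_toLp, hg.coeFn_toLp] with x h1 h2
  rw [h1, h2]

theorem Pat.aesm_Pg (Z : Pat ν J b G Pg) : AEStronglyMeasurable Pg ν := by
  have := Z.cnt
  exact aesm_of_cover Z.emb Z.cover fun P =>
    aesm_wm (Z.coef P).isOpen.measurableSet (Z.coef P).hP.continuousOn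

theorem Pat.proj (Z : Pat ν J b G Pg) : ∀ᵐ s ∂ν, Pg s * Pg s = Pg s ∧ star (Pg s) = Pg s := by
  have := Z.cnt
  refine ae_of_cover Z.emb Z.cover fun P => ?_
  filter_upwards [wm_ae (ρ := Z.ρ P) (Z.coef P).isOpen.measurableSet] with x hx
  exact ⟨(Z.coef P).idem x hx, (Z.coef P).sa x hx⟩

theorem Pat.aesm_χ (Z : Pat ν J b G Pg) (n : ℕ) : AEStronglyMeasurable (Z.χ n) ν := by
  have := Z.cnt
  exact aesm_of_cover Z.emb Z.cover fun P =>
    aesm_wm (Z.coef P).isOpen.measurableSet (Z.χ_smooth n P).continuousOn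

theorem Pat.aesm_θ (Z : Pat ν J b G Pg) (P : J) : AEStronglyMeasurable (Z.θ P) ν := by
  have h : Z.θ P = (Z.γ P '' Z.O P).indicator (Z.θ P) := by
    funext s
    by_cases hs : s ∈ Z.γ P '' Z.O P
    · rw [Set.indicator_of_mem hs]
    · rw [Set.indicator_of_notMem hs]
      exact Z.θ_supp P s fun h => hs (Set.image_mono (Z.K_sub P) h)
  rw [h, aestronglyMeasurable_indicator_iff (Z.emb P).measurableSet, (Z.emb P).aesm_iff]
  exact aesm_wm (Z.coef P).isOpen.measurableSet (Z.θ_smooth P).continuousOn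

theorem Pat.θ_bdd (Z : Pat ν J b G Pg) (P : J) : ∃ C : ℝ, ∀ s, |Z.θ P s| ≤ C := by
  obtain ⟨C, hC⟩ := (Z.K_cpt P).exists_bound_of_continuousOn
    ((Z.θ_smooth P).continuousOn.mono (Z.K_sub P))
  refine ⟨max C 0, fun s => ?_⟩
  by_cases hs : s ∈ Z.γ P '' Z.K P
  · obtain ⟨x, hx, rfl⟩ := hs
    exact (hC x hx).trans (le_max_left _ _)
  · rw [Z.θ_supp P s hs, abs_zero]
    exact le_max_right _ _

theorem Pat.tst_smul (Z : Pat ν J b G Pg) (P : J) {c : E → ℝ} (hc : ContDiffOn ℝ ∞ c (Z.O P))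
    {a : E → W} (ha : Tst (Z.O P) (fun x => Pg (Z.γ P x)) a) :
    Tst (Z.O P) (fun x => Pg (Z.γ P x)) fun x => (c x : ℂ) • a x := by
  obtain ⟨h1, h2, h3, h4⟩ := ha
  have hs : tsupport (fun x => (c x : ℂ) • a x) ⊆ tsupport a := by
    refine closure_mono fun x hx => ?_
    intro h0
    exact hx (by simp [h0])
  refine ⟨?_, h2.of_isClosed_subset (isClosed_tsupport _) hs, hs.trans h3, fun x => ?_⟩
  · refine contDiff_of_cpt (Z.coef P).isOpen (isClosed_tsupport a) h3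
      ((contDiffOn_ofReal hc).smul h1.contDiffOn) fun x hx => ?_
    rw [image_eq_zero_of_notMem_tsupport hx, smul_zero]
  · show Pg (Z.γ P x) ((c x : ℂ) • a x) = (c x : ℂ) • a x
    rw [map_smul]
    exact congrArg _ (h4 x)

/-- the weak equation for a localised deficiency vector -/
theorem Pat.weak (Z : Pat ν J b G Pg) {sg : ℂ} {w : Lp W 2 ν}
    (hw : ∀ g ∈ G, ⟪g.2 + sg • g.1, w⟫_ℂ = 0) (P : J) {c : E → ℝ}
    (hc : ContDiffOn ℝ ∞ c (Z.O P)) {a : E → W} (ha : Tst (Z.O P) (fun x => Pg (Z.γ P x)) a) :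
    ∫ x, ⟪op b (Z.A P) (Z.B P) a x, (c x : ℂ) • w (Z.γ P x)⟫_ℂ ∂wm (Z.O P) (Z.ρ P) =
      ∫ x, ⟪a x, (∑ i, ((fderiv ℝ c x (b i) : ℝ) : ℂ) • Z.A P i x) (w (Z.γ P x)) -
        conj sg • (c x : ℂ) • w (Z.γ P x)⟫_ℂ ∂wm (Z.O P) (Z.ρ P) := by
  have hC := Z.coef P
  have hO := hC.isOpen
  have hu := Z.tst_smul P hc ha
  obtain ⟨g, hg, g1, g2⟩ := Z.test P _ hu
  set u : E → W := fun x => (c x : ℂ) • a x with hudef
  have hae : ∀ᵐ x ∂wm (Z.O P) (Z.ρ P), x ∈ Z.O P := wm_ae hO.measurableSet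
  have ha0 : ∀ x ∈ Z.O P, x ∉ tsupport a → a x = 0 := fun x _ hx =>
    image_eq_zero_of_notMem_tsupport hx
  have hu0 : ∀ x ∈ Z.O P, x ∉ tsupport a → u x = 0 := fun x hx hx' => by
    simp only [hudef, ha0 x hx hx', smul_zero]
  have hwm : MemLp (fun x => w (Z.γ P x)) 2 (wm (Z.O P) (Z.ρ P)) :=
    (Z.emb P).memLp_comp (Lp.memLp w)
  have m1 : MemLp (op b (Z.A P) (Z.B P) u) 2 (wm (Z.O P) (Z.ρ P)) :=
    memLp_wm_of_cpt hO.measurableSet ha.2.1 ha.2.2.1 hC.hρ.continuousOn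
      (contDiffOn_op hO hC.hA hC.hB hu.1.contDiffOn).continuousOn
      fun x hx hx' => op_eq_zero hO (isClosed_tsupport a) hu0 hx hx'
  have m2 : MemLp u 2 (wm (Z.O P) (Z.ρ P)) :=
    memLp_wm_of_cpt hO.measurableSet ha.2.1 ha.2.2.1 hC.hρ.continuousOn
      hu.1.continuous.continuousOn hu0
  have m3 : MemLp (fun x => (c x : ℂ) • op b (Z.A P) (Z.B P) a x) 2 (wm (Z.O P) (Z.ρ P)) :=
    memLp_wm_of_cpt hO.measurableSet ha.2.1 ha.2.2.1 hC.hρ.continuousOn
      ((contDiffOn_ofReal hc).smul (contDiffOn_op hO hC.hA hC.hB ha.1.contDiffOn)).continuousOn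
      fun x hx hx' => by rw [op_eq_zero hO (isClosed_tsupport a) ha0 hx hx', smul_zero]
  have i1 := PA1a_int m1 hwm
  have i2 := PA1a_int m2 hwm
  have i3 := PA1a_int m3 hwm
  have e1 : ⟪g.2, w⟫_ℂ =
      ∫ x, ⟪op b (Z.A P) (Z.B P) u x, w (Z.γ P x)⟫_ℂ ∂wm (Z.O P) (Z.ρ P) := by
    rw [inner_eq_of_ae g2 (ae_eq_refl _), (Z.emb P).inner_ind]
    refine integral_congr_ae ?_
    filter_upwards [hae] with x hx
    rw [Z.inv P x hx]
  have e2 : ⟪g.1, w⟫_ℂ = ∫ x, ⟪u x, w (Z.γ P x)⟫_ℂ ∂wm (Z.O P) (Z.ρ P) := by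
    rw [inner_eq_of_ae g1 (ae_eq_refl _), (Z.emb P).inner_ind]
    refine integral_congr_ae ?_
    filter_upwards [hae] with x hx
    rw [Z.inv P x hx]
  have e0 := hw g hg
  rw [inner_add_left, inner_smul_left, e1, e2] at e0
  have L : ∫ x, ⟪op b (Z.A P) (Z.B P) a x, (c x : ℂ) • w (Z.γ P x)⟫_ℂ ∂wm (Z.O P) (Z.ρ P) =
      ∫ x, ⟪(c x : ℂ) • op b (Z.A P) (Z.B P) a x, w (Z.γ P x)⟫_ℂ ∂wm (Z.O P) (Z.ρ P) := by
    refine integral_congr_ae (Eventually.of_forall fun x => ?_)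
    simp only [inner_smul_left, inner_smul_right, Complex.conj_ofReal]
  have R : ∫ x, ⟪a x, (∑ i, ((fderiv ℝ c x (b i) : ℝ) : ℂ) • Z.A P i x) (w (Z.γ P x)) -
        conj sg • (c x : ℂ) • w (Z.γ P x)⟫_ℂ ∂wm (Z.O P) (Z.ρ P) =
      ∫ x, (⟪(c x : ℂ) • op b (Z.A P) (Z.B P) a x, w (Z.γ P x)⟫_ℂ -
        (⟪op b (Z.A P) (Z.B P) u x, w (Z.γ P x)⟫_ℂ +
          conj sg * ⟪u x, w (Z.γ P x)⟫_ℂ)) ∂wm (Z.O P) (Z.ρ P) := by
    refine integral_congr_ae ?_
    filter_upwards [hae] with x hx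
    have hcd : DifferentiableAt ℝ c x := diffAt_of_contDiffOn hO hc hx
    have hcd' : DifferentiableAt ℝ (fun y => (c y : ℂ)) x :=
      diffAt_of_contDiffOn hO (contDiffOn_ofReal hc) hx
    have had : DifferentiableAt ℝ a x := diffAt_of_contDiffOn hO ha.1.contDiffOn hx
    have hop : op b (Z.A P) (Z.B P) u x = (c x : ℂ) • op b (Z.A P) (Z.B P) a x +
        ∑ i, ((fderiv ℝ c x (b i) : ℝ) : ℂ) • Z.A P i x (a x) := by
      rw [hudef, op_smul hcd' had]
      simp only [fderiv_ofReal hcd]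
    have hsk : ∀ i, ⟪Z.A P i x (a x), w (Z.γ P x)⟫_ℂ = -⟪a x, Z.A P i x (w (Z.γ P x))⟫_ℂ := by
      intro i
      rw [← ContinuousLinearMap.adjoint_inner_right, ← ContinuousLinearMap.star_eq_adjoint,
        hC.skew i x hx]
      simp
    rw [hop]
    simp only [hudef, inner_add_left, inner_sub_right, inner_smul_left, inner_smul_right,
      sum_inner, inner_sum, ContinuousLinearMap.sum_apply, ContinuousLinearMap.smul_apply,
      Complex.conj_ofReal, hsk, mul_neg, Finset.sum_neg_distrib]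
    ring
  have i4 : Integrable (fun x => ⟪op b (Z.A P) (Z.B P) u x, w (Z.γ P x)⟫_ℂ +
      conj sg * ⟪u x, w (Z.γ P x)⟫_ℂ) (wm (Z.O P) (Z.ρ P)) := i1.add (i2.const_mul _)
  rw [L, R, integral_sub i3 i4, integral_add i1 (i2.const_mul _),
    integral_const_mul, e0, sub_zero]

end Pool.Agent.P.MP_e0a138_an.AD
end
end

-- part Pool.Agent.P.MP_e0a138_an.AN3a
section

set_option autoImplicit false
set_option linter.unusedSectionVars false
set_option linter.unusedVariables false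

open MeasureTheory Filter Topology Metric Complex
open scoped ENNReal NNReal ContDiff InnerProductSpace ComplexConjugate

noncomputable section
namespace Pool.Agent.P.MP_e0a138_an.AD

variable {N p q k : ℕ} {W : Type} [NormedAddCommGroup W] [InnerProductSpace ℂ W]
  [FiniteDimensional ℂ W] [CompleteSpace W]
variable {E : Type} [NormedAddCommGroup E] [NormedSpace ℝ E] [FiniteDimensional ℝ E]
  [MeasureSpace E] [BorelSpace E] [(volume : Measure E).IsAddHaarMeasure] {κ : Type} [Fintype κ]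

theorem mol_props {j : E → ℝ} (hj : ContDiff ℝ ∞ j) {e : ℝ} (he : 0 < e)
    (hj0 : ∀ x, e ≤ ‖x‖ → j x = 0) {v : E → W} (hv : MemLp v 2 volume) :
    ContDiff ℝ ∞ (mol j v) ∧
      (∀ x b, fderiv ℝ (mol j v) x b = ∫ y, fderiv ℝ j (x - y) b • v y) ∧
      ∀ K : Set E, (∀ x ∉ K, v x = 0) → ∀ x ∉ cthickening e K, mol j v x = 0 := by
  have : ProperSpace E := FiniteDimensional.proper ℝ E
  have hc : HasCompactSupport j :=
    HasCompactSupport.intro (isCompact_closedBall (0 : E) e) fun x hx =>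
      hj0 x (by
        rw [mem_closedBall_zero_iff, not_le] at hx
        exact hx.le)
  have hl : LocallyIntegrable v volume := hv.locallyIntegrable (by norm_num)
  have hm : mol j v =
      convolution v j (ContinuousLinearMap.lsmul ℝ ℝ : ℝ →L[ℝ] W →L[ℝ] W).flip volume := by
    funext x; rfl
  have hj1 : ContDiff ℝ 1 j := hj.of_le (by simp)
  refine ⟨?_, ?_, ?_⟩
  · rw [hm]
    exact hc.contDiff_convolution_right (n := ⊤) _ hl hj
  · intro x b
    rw [hm, (hc.hasFDerivAt_convolution_right _ hl hj1 x).fderiv,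
      convolution_precompR_apply _ hl (hc.fderiv ℝ) (hj1.continuous_fderiv (by simp))]
    rfl
  · intro K hK x hx
    have h0 : ∀ y, j (x - y) • v y = 0 := by
      intro y
      by_cases hy : y ∈ K
      · rw [hj0 (x - y) ?_, zero_smul]
        by_contra hlt
        exact hx (mem_cthickening_of_dist_le x y e K hy
          (by rw [dist_eq_norm]; exact (not_le.1 hlt).le))
      · rw [hK y hy, smul_zero]
    simp only [mol, h0, integral_zero]

end Pool.Agent.P.MP_e0a138_an.AD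
end
end

-- part Pool.Agent.P.MP_e0a138_an.AN3b
section

set_option autoImplicit false
set_option linter.unusedSectionVars false
set_option linter.unusedVariables false

open MeasureTheory Filter Topology Metric Complex
open scoped ENNReal NNReal ContDiff InnerProductSpace ComplexConjugate

noncomputable section
namespace Pool.Agent.P.MP_e0a138_an.AD

variable {N p q k : ℕ} {W : Type} [NormedAddCommGroup W] [InnerProductSpace ℂ W]
  [FiniteDimensional ℂ W] [CompleteSpace W]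
variable {E : Type} [NormedAddCommGroup E] [NormedSpace ℝ E] [FiniteDimensional ℝ E]
  [MeasureSpace E] [BorelSpace E] [(volume : Measure E).IsAddHaarMeasure] {κ : Type} [Fintype κ]

variable {O : Set E} {A : κ → E → W →L[ℂ] W} {B P : E → W →L[ℂ] W} {ρ : E → ℝ}

theorem AN3b_int {K : Set E} (hO : IsOpen O) (hK : IsCompact K) (hKO : K ⊆ O) {c : E → ℝ}
    (hc : Continuous c) (h0 : ∀ y ∉ K, c y = 0) {M : E → W →L[ℂ] W} (hM : ContinuousOn M O)
    {v : E → W} (hv : MemLp v 2 volume) : Integrable (fun y => c y • M y (v y)) := by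
  have hM' : Continuous fun y => c y • M y :=
    continuous_of_cpt hO hK.isClosed hKO (hc.continuousOn.smul hM) fun y hy => by simp [h0 y hy]
  obtain ⟨C, hC⟩ := hK.exists_bound_of_continuousOn hM'.continuousOn
  have hvK : IntegrableOn v K := (hv.locallyIntegrable (by norm_num)).integrableOn_isCompact hK
  have hsupp : Function.support (fun y => c y • M y (v y)) ⊆ K := by
    intro y hy
    by_contra hyK
    exact hy (by simp [h0 y hyK])
  rw [← integrableOn_iff_integrable_of_support_subset hsupp]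
  have hm : AEStronglyMeasurable (fun y => evC W (c y • M y) (v y)) (volume.restrict K) :=
    (evC W).aestronglyMeasurable_comp₂ hM'.aestronglyMeasurable hvK.aestronglyMeasurable
  refine Integrable.mono' (hvK.norm.const_mul C) hm ?_
  refine (ae_restrict_iff' hK.measurableSet).2 (Eventually.of_forall fun y hy => ?_)
  exact ((c y • M y).le_opNorm (v y)).trans
    (mul_le_mul_of_nonneg_right (hC y hy) (norm_nonneg _))

theorem AN3b_fd0 {j : E → ℝ} {e : ℝ} (hj : ∀ x, e ≤ ‖x‖ → j x = 0) {z : E} (hz : e < ‖z‖) :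
    fderiv ℝ j z = 0 := by
  have : j =ᶠ[𝓝 z] fun _ => 0 := by
    filter_upwards [(isOpen_lt continuous_const continuous_norm).mem_nhds hz] with y hy
      using hj y (le_of_lt hy)
  rw [this.fderiv_eq]; simp

theorem AN3b_rsmul (c : ℝ) (w u : W) : ⟪c • w, u⟫_ℂ = c • ⟪w, u⟫_ℂ := by
  rw [← Complex.coe_smul, inner_smul_left]; simp

theorem AN3b_rsmul' (c : ℝ) (w u : W) : ⟪w, c • u⟫_ℂ = c • ⟪w, u⟫_ℂ := by
  rw [← Complex.coe_smul, inner_smul_right]; simp

theorem AN3b_star (M : W →L[ℂ] W) (w u : W) : ⟪M w, u⟫_ℂ = ⟪w, star M u⟫_ℂ := by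
  rw [ContinuousLinearMap.star_eq_adjoint, ContinuousLinearMap.adjoint_inner_right]

theorem AN3b_fderiv {j : E → ℝ} (hj : ContDiff ℝ ∞ j) {Q : E → W →L[ℂ] W} {x y : E}
    (hQ : DifferentiableAt ℝ Q y) (w : W) (b : E) :
    fderiv ℝ (fun y => j (x - y) • Q y w) y b =
      j (x - y) • fderiv ℝ Q y b w - fderiv ℝ j (x - y) b • Q y w := by
  have h1 : HasFDerivAt (fun y => j (x - y))
      ((fderiv ℝ j (x - y)).comp (-ContinuousLinearMap.id ℝ E)) y :=
    (hj.differentiable (by simp) (x - y)).hasFDerivAt.comp y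
      ((hasFDerivAt_id y).const_sub x)
  have h2 : DifferentiableAt ℝ (fun y => Q y w) y :=
    differentiableAt_capp hQ (differentiableAt_const w)
  have h3 := (h1.smul h2.hasFDerivAt).fderiv
  have h4 : fderiv ℝ (fun y => j (x - y) • Q y w) y = _ := h3
  have h5 : fderiv ℝ (fun y => Q y w) y b = fderiv ℝ Q y b w := by
    rw [fderiv_capp hQ (differentiableAt_const w)]; simp
  rw [h4]
  simp [h5, sub_eq_add_neg]

theorem fried_id (hc : Coef O A B P ρ) (b : κ → E) : ∃ Nn : E → W →L[ℂ] W, ContinuousOn Nn O ∧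
    ∀ (j : E → ℝ) (e : ℝ) (x : E) (v g : E → W), ContDiff ℝ ∞ j → 0 < e →
      (∀ x, e ≤ ‖x‖ → j x = 0) → closedBall x e ⊆ O → MemLp v 2 volume → MemLp g 2 volume →
      (∀ a, Tst O P a → ∫ y, ⟪op b A B a y, v y⟫_ℂ ∂wm O ρ = ∫ y, ⟪a y, g y⟫_ℂ ∂wm O ρ) →
      ∑ a, ∫ y, fderiv ℝ j (x - y) (b a) • A a y (P y (v y)) =
        ∫ y, j (x - y) • (P y (g y) - Nn y (v y)) := by
  have hO := hc.isOpen
  have hQ : ContDiffOn ℝ ∞ (fun y => (ρ y)⁻¹ • P y) O :=
    (hc.hρ.inv fun y hy => (hc.pos y hy).ne').smul hc.hP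
  set Q : E → W →L[ℂ] W := fun y => (ρ y)⁻¹ • P y with hQdef
  have hN : ContDiffOn ℝ ∞
      (fun y => ρ y • (∑ a, A a y * fderiv ℝ Q y (b a) + B y * Q y)) O :=
    hc.hρ.smul ((ContDiffOn.sum fun a _ =>
      (hc.hA a).mul (contDiffOn_fderiv_apply' hO hQ _)).add (hc.hB.mul hQ))
  refine ⟨fun y => star (ρ y • (∑ a, A a y * fderiv ℝ Q y (b a) + B y * Q y)),
    (contDiffOn_star hN).continuousOn, ?_⟩
  set Nn : E → W →L[ℂ] W :=
    fun y => star (ρ y • (∑ a, A a y * fderiv ℝ Q y (b a) + B y * Q y)) with hNdef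
  have hNc : ContinuousOn Nn O := (contDiffOn_star hN).continuousOn
  intro j e x v g hj he hj0 hKO hv hg H
  have hK : IsCompact (closedBall x e) := isCompact_closedBall x e
  have hout : ∀ y ∉ closedBall x e, e < ‖x - y‖ := fun y hy => by
    rw [mem_closedBall, dist_comm, dist_eq_norm, not_le] at hy; exact hy
  have hz : ∀ y ∉ closedBall x e, j (x - y) = 0 := fun y hy => hj0 _ (hout y hy).le
  have hz' : ∀ a, ∀ y ∉ closedBall x e, fderiv ℝ j (x - y) (b a) = 0 := fun a y hy => by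
    rw [AN3b_fd0 hj0 (hout y hy)]; rfl
  have hjs : ContDiff ℝ ∞ fun y => j (x - y) := hj.comp (contDiff_const.sub contDiff_id)
  have hjd : ∀ a, Continuous fun y => fderiv ℝ j (x - y) (b a) := fun a =>
    ((hj.continuous_fderiv (by simp)).comp (continuous_const.sub continuous_id)).clm_apply
      continuous_const
  have i1 : ∀ a, Integrable fun y => fderiv ℝ j (x - y) (b a) • A a y (P y (v y)) := fun a =>
    AN3b_int (M := fun y => A a y * P y) hO hK hKO (hjd a) (hz' a)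
      ((hc.hA a).mul hc.hP).continuousOn hv
  have i2 : Integrable fun y => j (x - y) • Nn y (v y) :=
    AN3b_int hO hK hKO hjs.continuous hz hNc hv
  have i3 : Integrable fun y => j (x - y) • P y (g y) :=
    AN3b_int hO hK hKO hjs.continuous hz hc.hP.continuousOn hg
  have i4 : Integrable fun y => ∑ a, fderiv ℝ j (x - y) (b a) • A a y (P y (v y)) :=
    integrable_finsetSum _ fun a _ => i1 a
  have i5 : Integrable fun y =>
      ∑ a, fderiv ℝ j (x - y) (b a) • A a y (P y (v y)) + j (x - y) • Nn y (v y) := i4.add i2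
  have key : ∫ y, (∑ a, fderiv ℝ j (x - y) (b a) • A a y (P y (v y)) + j (x - y) • Nn y (v y)) =
      ∫ y, j (x - y) • P y (g y) := by
    refine ext_inner_left ℂ fun w => ?_
    have hT : Tst O P fun y => j (x - y) • Q y w := by
      have h0 : ∀ y ∉ closedBall x e, j (x - y) • Q y w = 0 := fun y hy => by simp [hz y hy]
      refine ⟨contDiff_of_cpt hO isClosed_closedBall hKO
        (hjs.contDiffOn.smul (contDiffOn_capp hQ contDiffOn_const)) h0,
        HasCompactSupport.intro hK h0, ?_, fun y => ?_⟩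
      · refine (closure_minimal ?_ isClosed_closedBall).trans hKO
        intro y hy
        by_contra hyK
        exact hy (h0 y hyK)
      · by_cases hy : y ∈ O
        · have h1 : P y (P y w) = P y w := congrArg (fun M : W →L[ℂ] W => M w) (hc.idem y hy)
          simp [hQdef, h1]
        · have h1 : j (x - y) • Q y w = 0 := h0 y fun h => hy (hKO h)
          simp only [h1, map_zero]
    have h1 := H _ hT
    rw [integral_wm hO.measurableSet hc.hρ.continuousOn fun y hy => (hc.pos y hy).le,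
      integral_wm hO.measurableSet hc.hρ.continuousOn fun y hy => (hc.pos y hy).le] at h1
    rw [← integral_inner i5, ← integral_inner i3,
      ← setIntegral_eq_integral_of_forall_compl_eq_zero (s := O),
      ← setIntegral_eq_integral_of_forall_compl_eq_zero (s := O)
        (f := fun y => ⟪w, j (x - y) • P y (g y)⟫_ℂ)]
    · refine Eq.trans ?_ (h1.trans ?_)
      · refine setIntegral_congr_fun hO.measurableSet fun y hy => ?_
        have hρ0 := (hc.pos y hy).ne'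
        have hAP : ∀ a, ρ y • ⟪A a y (Q y w), v y⟫_ℂ = -⟪w, A a y (P y (v y))⟫_ℂ := fun a => by
          have e1 : A a y (Q y w) = (ρ y)⁻¹ • (A a y * P y) w := by simp [hQdef]
          rw [e1, AN3b_rsmul, smul_inv_smul₀ hρ0, AN3b_star, star_mul, hc.sa y hy,
            hc.skew a y hy, mul_neg, ← hc.comm a y hy]
          simp
        have hNv : ⟪w, Nn y (v y)⟫_ℂ = ∑ a, ρ y • ⟪A a y (fderiv ℝ Q y (b a) w), v y⟫_ℂ +
            ρ y • ⟪B y (Q y w), v y⟫_ℂ := by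
          rw [hNdef, ← AN3b_star, smul_apply, AN3b_rsmul,
            add_apply, sum_apply, inner_add_left,
            sum_inner, smul_add, Finset.smul_sum]
          rfl
        simp only [op, AN3b_fderiv hj (diffAt_of_contDiffOn hO hQ hy),
          inner_add_right, inner_sum, AN3b_rsmul', hNv, inner_add_left, sum_inner, map_sub,
          ContinuousLinearMap.map_smul_of_tower, inner_sub_left, AN3b_rsmul, smul_add, smul_sub,
          Finset.smul_sum, Finset.sum_sub_distrib]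
        simp only [smul_comm (ρ y) (fderiv ℝ j (x - y) _), hAP, smul_comm (ρ y) (j (x - y)),
          smul_neg, Finset.sum_neg_distrib]
        abel
      · refine setIntegral_congr_fun hO.measurableSet fun y hy => ?_
        have hρ0 := (hc.pos y hy).ne'
        have e1 : Q y w = (ρ y)⁻¹ • P y w := by simp [hQdef]
        simp only [e1, AN3b_rsmul, AN3b_rsmul']
        rw [smul_comm, smul_inv_smul₀ hρ0, AN3b_star, hc.sa y hy]
    · intro y hy
      simp [hz y fun h => hy (hKO h)]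
    · intro y hy
      simp [hz y fun h => hy (hKO h), hz' _ y fun h => hy (hKO h)]
  rw [integral_add i4 i2, integral_finsetSum _ fun a _ => i1 a] at key
  simp only [smul_sub]
  rw [integral_sub i3 i2, ← key, add_sub_cancel_right]

end Pool.Agent.P.MP_e0a138_an.AD
end
end

-- part Pool.Agent.P.MP_e0a138_an.AN4a
section

set_option autoImplicit false
set_option linter.unusedSectionVars false
set_option linter.unusedVariables false

open MeasureTheory Filter Topology Metric Complex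
open scoped ENNReal NNReal ContDiff InnerProductSpace ComplexConjugate

noncomputable section
namespace Pool.Agent.P.MP_e0a138_an.AD

variable {N p q k : ℕ} {W : Type} [NormedAddCommGroup W] [InnerProductSpace ℂ W]
  [FiniteDimensional ℂ W] [CompleteSpace W]
variable {E : Type} [NormedAddCommGroup E] [NormedSpace ℝ E] [FiniteDimensional ℝ E]
  [MeasureSpace E] [BorelSpace E] [(volume : Measure E).IsAddHaarMeasure] {κ : Type} [Fintype κ]

variable {O : Set E} {A : κ → E → W →L[ℂ] W} {B P : E → W →L[ℂ] W} {ρ : E → ℝ}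

theorem an4a_int {φ : E → ℝ} (hφ : Continuous φ) {x : E} {e : ℝ}
    (h0 : ∀ y ∉ closedBall x e, φ y = 0) {T : E → W →L[ℂ] W}
    (hT : ContinuousOn T (closedBall x e)) {v : E → W} (hv : MemLp v 2 volume) :
    Integrable (fun y => φ y • T y (v y)) := by
  have hK : IsCompact (closedBall x e) := isCompact_closedBall x e
  have hvi : IntegrableOn v (closedBall x e) :=
    (hv.locallyIntegrable (by norm_num)).integrableOn_isCompact hK
  have hc : ContinuousOn (fun y => φ y • T y) (closedBall x e) := hφ.continuousOn.smul hT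
  obtain ⟨C, hC⟩ := hK.exists_bound_of_continuousOn hc
  have hm : AEStronglyMeasurable (fun y => (φ y • T y) (v y)) (volume.restrict (closedBall x e)) :=
    (isBoundedBilinearMap_apply (𝕜 := ℂ) (E := W) (F := W)).continuous.comp_aestronglyMeasurable
      ((hc.aestronglyMeasurable measurableSet_closedBall).prodMk hvi.aestronglyMeasurable)
  have h1 : IntegrableOn (fun y => (φ y • T y) (v y)) (closedBall x e) := by
    refine Integrable.mono' (hvi.norm.const_mul C) hm ?_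
    filter_upwards [ae_restrict_mem measurableSet_closedBall] with y hy
    exact ((φ y • T y).le_opNorm _).trans (mul_le_mul_of_nonneg_right (hC y hy) (norm_nonneg _))
  exact h1.integrable_of_forall_notMem_eq_zero fun y hy => by simp [h0 y hy]

theorem an4a_bd {F : E → W} {c : ℝ≥0} {j : E → ℝ} {x : E} {v g : E → W}
    (h : ∀ y, ‖F y‖ ≤
      c * ((‖j (x - y)‖ + ‖x - y‖ * ‖fderiv ℝ j (x - y)‖) * (‖v y‖ + ‖g y‖))) :
    ‖∫ y, F y‖ₑ ≤
      c * ∫⁻ y, (‖j (x - y)‖ₑ + ‖x - y‖ₑ * ‖fderiv ℝ j (x - y)‖ₑ) * (‖v y‖ₑ + ‖g y‖ₑ) := by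
  rw [← lintegral_const_mul' _ _ ENNReal.coe_ne_top]
  refine (enorm_integral_le_lintegral_enorm F).trans (lintegral_mono fun y => ?_)
  simp only [enorm_eq_nnnorm]
  norm_cast
  rw [← NNReal.coe_le_coe]
  push_cast
  exact h y

theorem an4a_nb {G : Type} [NormedAddCommGroup G] {f : E → G} {K : Set E} (hK : IsCompact K)
    (hf : ContinuousOn f K) : ∃ C : ℝ≥0, ∀ x ∈ K, ‖f x‖ ≤ C := by
  obtain ⟨C, hC⟩ := hK.exists_bound_of_continuousOn hf
  exact ⟨C.toNNReal, fun x hx => (hC x hx).trans (Real.le_coe_toNNReal C)⟩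

theorem an4a_lip {G : Type} [NormedAddCommGroup G] [NormedSpace ℝ G] {f : E → G} {K : Set E}
    (hO : IsOpen O) (hK : IsCompact K) (hKO : K ⊆ O) (hf : ContDiffOn ℝ ∞ f O) :
    ∃ L : ℝ≥0, ∀ x ∈ K, ∀ y ∈ K, ‖f x - f y‖ ≤ L * ‖x - y‖ := by
  have h : LocallyLipschitzOn K f := fun x hx => by
    have h1 : ContDiffAt ℝ 1 f x := (hf.contDiffAt (hO.mem_nhds (hKO hx))).of_le (by simp)
    obtain ⟨L, t, ht, h2⟩ := h1.exists_lipschitzOnWith
    exact ⟨L, t, mem_nhdsWithin_of_mem_nhds ht, h2⟩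
  obtain ⟨L, hL⟩ := h.exists_lipschitzOnWith_of_compact hK
  refine ⟨L, fun x hx y hy => ?_⟩
  have := hL.dist_le_mul x hx y hy
  rwa [dist_eq_norm, dist_eq_norm] at this

theorem an4a_out {x y : E} {e : ℝ} (h : y ∉ closedBall x e) : e < ‖x - y‖ := by
  rwa [mem_closedBall, dist_comm, dist_eq_norm, not_le] at h

theorem an4a_dj {j : E → ℝ} {e : ℝ} (hj0 : ∀ x, e ≤ ‖x‖ → j x = 0) {z : E} (hz : e < ‖z‖) :
    fderiv ℝ j z = 0 :=
  fderiv_eq_zero_of_closed (O := Set.univ) (K := closedBall 0 e) isOpen_univ isClosed_closedBall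
    (fun y _ hy => hj0 y (by rw [mem_closedBall_zero_iff, not_le] at hy; exact hy.le))
    (Set.mem_univ _) (by rwa [mem_closedBall_zero_iff, not_le])

theorem fried_bound (hc : Coef O A B P ρ) (b : κ → E) {K : Set E} (hK : IsCompact K) {e₀ : ℝ}
    (he₀ : 0 < e₀) (hKO : cthickening (2 * e₀) K ⊆ O) : ∃ C : ℝ≥0,
    ∀ (j : E → ℝ) (e : ℝ) (v g : E → W), ContDiff ℝ ∞ j → 0 < e → e ≤ e₀ →
      (∀ x, e ≤ ‖x‖ → j x = 0) → MemLp v 2 volume → MemLp g 2 volume →
      (∀ a, Tst O P a → ∫ y, ⟪op b A B a y, v y⟫_ℂ ∂wm O ρ = ∫ y, ⟪a y, g y⟫_ℂ ∂wm O ρ) →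
      ∀ x ∈ cthickening e₀ K, ‖op b A B (fun y => P y (mol j v y)) x‖ₑ ≤
        C * ∫⁻ y, (‖j (x - y)‖ₑ + ‖x - y‖ₑ * ‖fderiv ℝ j (x - y)‖ₑ) * (‖v y‖ₑ + ‖g y‖ₑ) := by
  obtain ⟨Nn, hNn, hid⟩ := fried_id hc b
  have hK2 : IsCompact (cthickening (2 * e₀) K) := hK.cthickening
  have hQ : ∀ a, ContDiffOn ℝ ∞ (fun y => A a y * P y) O := fun a => (hc.hA a).mul hc.hP
  have hM : ContDiffOn ℝ ∞ (fun x => ∑ a, A a x * fderiv ℝ P x (b a) + B x * P x) O :=
    (ContDiffOn.sum fun a _ =>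
      (hc.hA a).mul (contDiffOn_fderiv_apply' hc.isOpen hc.hP (b a))).add (hc.hB.mul hc.hP)
  obtain ⟨CM, hCM⟩ := an4a_nb hK2 (hM.continuousOn.mono hKO)
  obtain ⟨CP, hCP⟩ := an4a_nb hK2 (hc.hP.continuousOn.mono hKO)
  obtain ⟨CN, hCN⟩ := an4a_nb hK2 (hNn.mono hKO)
  choose L hL using fun a => an4a_lip hc.isOpen hK2 hKO (hQ a)
  refine ⟨CM + ∑ a, L a * ‖b a‖₊ + (CP + CN), fun j e v g hj he hee hj0 hv hg ht x hx => ?_⟩
  have hball : closedBall x e ⊆ cthickening (2 * e₀) K :=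
    (closedBall_subset_cthickening hx e).trans
      ((cthickening_cthickening_subset he.le he₀.le K).trans (cthickening_mono (by linarith) K))
  have hx2 : x ∈ cthickening (2 * e₀) K := hball (mem_closedBall_self he.le)
  have hxO : x ∈ O := hKO hx2
  obtain ⟨m1, m2, -⟩ := mol_props hj he hj0 hv
  have hsub : Continuous fun y : E => x - y := continuous_const.sub continuous_id
  have c1 : Continuous fun y => j (x - y) := hj.continuous.comp hsub
  have c2 : ∀ a, Continuous fun y => fderiv ℝ j (x - y) (b a) := fun a =>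
    ((hj.continuous_fderiv (by simp)).comp hsub).clm_apply continuous_const
  have z1 : ∀ y ∉ closedBall x e, j (x - y) = 0 := fun y hy => hj0 _ (an4a_out hy).le
  have z2 : ∀ y ∉ closedBall x e, fderiv ℝ j (x - y) = 0 := fun y hy =>
    an4a_dj hj0 (an4a_out hy)
  have z3 : ∀ a, ∀ y ∉ closedBall x e, fderiv ℝ j (x - y) (b a) = 0 := fun a y hy => by
    rw [z2 y hy]; rfl
  have i1 : Integrable fun y => j (x - y) • v y :=
    an4a_int c1 z1 (T := fun _ => 1) continuousOn_const hv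
  have i2 : ∀ a, Integrable fun y => fderiv ℝ j (x - y) (b a) • v y := fun a =>
    an4a_int (c2 a) (z3 a) (T := fun _ => 1) continuousOn_const hv
  have i3 : ∀ a, Integrable fun y => fderiv ℝ j (x - y) (b a) • A a y (P y (v y)) := fun a =>
    an4a_int (c2 a) (z3 a) (T := fun y => A a y * P y)
      ((hQ a).continuousOn.mono (hball.trans hKO)) hv
  have i4 : ∀ a, Integrable fun y =>
      fderiv ℝ j (x - y) (b a) • (A a x * P x - A a y * P y) (v y) := fun a =>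
    an4a_int (c2 a) (z3 a) (T := fun y => A a x * P x - A a y * P y)
      (continuousOn_const.sub ((hQ a).continuousOn.mono (hball.trans hKO))) hv
  have e1 : (∑ a, A a x * fderiv ℝ P x (b a) + B x * P x) (mol j v x) =
      ∫ y, j (x - y) • (∑ a, A a x * fderiv ℝ P x (b a) + B x * P x) (v y) := by
    rw [mol, ← ContinuousLinearMap.integral_comp_comm _ i1]
    simp only [ContinuousLinearMap.map_smul_of_tower]
  have e2 : ∀ a, (A a x * P x) (fderiv ℝ (mol j v) x (b a)) =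
      (∫ y, fderiv ℝ j (x - y) (b a) • (A a x * P x - A a y * P y) (v y)) +
        ∫ y, fderiv ℝ j (x - y) (b a) • A a y (P y (v y)) := fun a => by
    rw [m2, ← ContinuousLinearMap.integral_comp_comm _ (i2 a), ← integral_add (i4 a) (i3 a)]
    refine integral_congr_ae (Eventually.of_forall fun y => ?_)
    simp only [ContinuousLinearMap.map_smul_of_tower, ← smul_add]
    congr 1
    simp
  have e3 : op b A B (fun y => P y (mol j v y)) x =
      (∑ a, A a x * fderiv ℝ P x (b a) + B x * P x) (mol j v x) +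
        ∑ a, (A a x * P x) (fderiv ℝ (mol j v) x (b a)) := by
    have d1 := diffAt_of_contDiffOn hc.isOpen hc.hP hxO
    have d2 : DifferentiableAt ℝ (mol j v) x := m1.differentiable (by simp) x
    simp only [op, fderiv_capp d1 d2, map_add, Finset.sum_add_distrib]
    simp only [add_apply, sum_apply, mul_apply_eq_comp]
    abel
  rw [e3, e1, Finset.sum_congr rfl fun a _ => e2 a, Finset.sum_add_distrib,
    hid j e x v g hj he hj0 (hball.trans hKO) hv hg ht, ← add_assoc]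
  have b1 := an4a_bd (c := CM) (j := j) (x := x) (v := v) (g := g)
    (F := fun y => j (x - y) • (∑ a, A a x * fderiv ℝ P x (b a) + B x * P x) (v y)) fun y => by
      have h1 := ((∑ a, A a x * fderiv ℝ P x (b a) + B x * P x).le_opNorm (v y)).trans
        (mul_le_mul_of_nonneg_right (hCM x hx2) (norm_nonneg _))
      rw [norm_smul]
      refine (mul_le_mul_of_nonneg_left h1 (norm_nonneg _)).trans ?_
      rw [mul_left_comm]
      refine mul_le_mul_of_nonneg_left ?_ CM.2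
      exact mul_le_mul (le_add_of_nonneg_right (by positivity))
        (le_add_of_nonneg_right (norm_nonneg _)) (norm_nonneg _) (by positivity)
  have b2 := fun a => an4a_bd (c := L a * ‖b a‖₊) (j := j) (x := x) (v := v) (g := g)
    (F := fun y => fderiv ℝ j (x - y) (b a) • (A a x * P x - A a y * P y) (v y)) fun y => by
      by_cases hy : y ∈ closedBall x e
      · have h1 := ((A a x * P x - A a y * P y).le_opNorm (v y)).trans
          (mul_le_mul_of_nonneg_right (hL a x hx2 y (hball hy)) (norm_nonneg _))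
        have h2 := (fderiv ℝ j (x - y)).le_opNorm (b a)
        rw [norm_smul]
        refine (mul_le_mul h2 h1 (norm_nonneg _) (by positivity)).trans ?_
        have h3 : ‖x - y‖ * ‖fderiv ℝ j (x - y)‖ * ‖v y‖ ≤
            (‖j (x - y)‖ + ‖x - y‖ * ‖fderiv ℝ j (x - y)‖) * (‖v y‖ + ‖g y‖) :=
          mul_le_mul (le_add_of_nonneg_left (norm_nonneg _))
            (le_add_of_nonneg_right (norm_nonneg _)) (norm_nonneg _) (by positivity)
        refine le_trans (le_of_eq ?_) (mul_le_mul_of_nonneg_left h3 (L a * ‖b a‖₊).2)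
        simp only [NNReal.coe_mul, coe_nnnorm]
        ring
      · rw [z3 a y hy, zero_smul, norm_zero]
        positivity
  have b3 := an4a_bd (c := CP + CN) (j := j) (x := x) (v := v) (g := g)
    (F := fun y => j (x - y) • (P y (g y) - Nn y (v y))) fun y => by
      by_cases hy : y ∈ closedBall x e
      · have h1 := ((P y).le_opNorm (g y)).trans
          (mul_le_mul_of_nonneg_right (hCP y (hball hy)) (norm_nonneg _))
        have h2 := ((Nn y).le_opNorm (v y)).trans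
          (mul_le_mul_of_nonneg_right (hCN y (hball hy)) (norm_nonneg _))
        have h3 : ‖P y (g y) - Nn y (v y)‖ ≤ ((CP + CN : ℝ≥0) : ℝ) * (‖v y‖ + ‖g y‖) := by
          refine (norm_sub_le _ _).trans ((add_le_add h1 h2).trans ?_)
          have h4 : 0 ≤ (CP : ℝ) * ‖v y‖ := by positivity
          have h5 : 0 ≤ (CN : ℝ) * ‖g y‖ := by positivity
          push_cast
          nlinarith
        rw [norm_smul]
        refine (mul_le_mul_of_nonneg_left h3 (norm_nonneg _)).trans ?_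
        rw [mul_left_comm]
        refine mul_le_mul_of_nonneg_left ?_ (CP + CN).2
        exact mul_le_mul_of_nonneg_right (le_add_of_nonneg_right (by positivity)) (by positivity)
      · rw [z1 y hy, zero_smul, norm_zero]
        positivity
  rw [ENNReal.coe_add, ENNReal.coe_add, add_mul, add_mul, ENNReal.ofNNReal_finsetSum, Finset.sum_mul]
  exact (enorm_add_le _ _).trans (add_le_add ((enorm_add_le _ _).trans (add_le_add b1
    ((enorm_sum_le _ _).trans (Finset.sum_le_sum fun a _ => b2 a)))) b3)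

end Pool.Agent.P.MP_e0a138_an.AD
end
end

-- part Pool.Agent.P.MP_e0a138_an.AN1a
section

set_option autoImplicit false
set_option linter.unusedSectionVars false
set_option linter.unusedVariables false

open MeasureTheory Filter Topology Metric Complex
open scoped ENNReal NNReal ContDiff InnerProductSpace ComplexConjugate

noncomputable section
namespace Pool.Agent.P.MP_e0a138_an.AD

variable {N p q k : ℕ} {W : Type} [NormedAddCommGroup W] [InnerProductSpace ℂ W]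
  [FiniteDimensional ℂ W] [CompleteSpace W]
variable {E : Type} [NormedAddCommGroup E] [NormedSpace ℝ E] [FiniteDimensional ℝ E]
  [MeasureSpace E] [BorelSpace E] [(volume : Measure E).IsAddHaarMeasure] {κ : Type} [Fintype κ]

theorem AN1a_cs {a g : E → ℝ≥0∞} (ha : Measurable a) (hg : Measurable g) :
    (∫⁻ y, a y * g y) ^ 2 ≤ (∫⁻ y, a y) * ∫⁻ y, a y * g y ^ 2 := by
  have hpq : (2 : ℝ).HolderConjugate 2 := Real.HolderConjugate.two_two
  have h1 : AEMeasurable (fun y => a y ^ (1 / 2 : ℝ)) volume := (ha.pow_const _).aemeasurable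
  have h2 : AEMeasurable (fun y => a y ^ (1 / 2 : ℝ) * g y) volume :=
    ((ha.pow_const _).mul hg).aemeasurable
  have h := ENNReal.lintegral_mul_le_Lp_mul_Lq volume hpq h1 h2
  have hs : ∀ t : ℝ≥0∞, (t ^ (1 / 2 : ℝ)) ^ (2 : ℝ) = t := fun t => by
    rw [← ENNReal.rpow_mul]; norm_num
  have hs' : ∀ t : ℝ≥0∞, (t ^ (1 / 2 : ℝ)) ^ 2 = t := fun t => by
    rw [← ENNReal.rpow_natCast]; exact_mod_cast hs t
  have e1 : ∀ y, ((fun y => a y ^ (1 / 2 : ℝ)) * fun y => a y ^ (1 / 2 : ℝ) * g y) y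
      = a y * g y := fun y => by
    simp only [Pi.mul_apply]
    rw [← mul_assoc, ← sq, hs']
  have e2 : ∀ y, (a y ^ (1 / 2 : ℝ) * g y) ^ (2 : ℝ) = a y * g y ^ 2 := fun y => by
    rw [ENNReal.mul_rpow_of_nonneg _ _ (by norm_num), hs, ← ENNReal.rpow_natCast]
    norm_num
  simp only [e1, e2, hs] at h
  calc (∫⁻ y, a y * g y) ^ 2
      ≤ ((∫⁻ y, a y) ^ (1 / 2 : ℝ) * (∫⁻ y, a y * g y ^ 2) ^ (1 / 2 : ℝ)) ^ 2 := by gcongr
    _ = _ := by rw [mul_pow, hs', hs']

theorem AN1a_meas {η f : E → ℝ≥0∞} (hη : Measurable η) (hf : Measurable f) :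
    ∫⁻ x, (∫⁻ y, η (x - y) * f y) ^ 2 ≤ (∫⁻ x, η x) ^ 2 * ∫⁻ y, f y ^ 2 := by
  have hm : Measurable fun z : E × E => η (z.1 - z.2) * f z.2 ^ 2 :=
    (hη.comp (measurable_fst.sub measurable_snd)).mul ((hf.comp measurable_snd).pow_const _)
  calc ∫⁻ x, (∫⁻ y, η (x - y) * f y) ^ 2
      ≤ ∫⁻ x, (∫⁻ x, η x) * ∫⁻ y, η (x - y) * f y ^ 2 := by
        refine lintegral_mono fun x => ?_
        have := AN1a_cs (a := fun y => η (x - y)) (hη.comp (measurable_const.sub measurable_id)) hf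
        rwa [lintegral_sub_left_eq_self η x] at this
    _ = (∫⁻ x, η x) * ∫⁻ x, ∫⁻ y, η (x - y) * f y ^ 2 :=
        lintegral_const_mul _ hm.lintegral_prod_right'
    _ = (∫⁻ x, η x) * ∫⁻ y, ∫⁻ x, η (x - y) * f y ^ 2 := by
        rw [lintegral_lintegral_swap hm.aemeasurable]
    _ = (∫⁻ x, η x) * ∫⁻ y, (∫⁻ x, η x) * f y ^ 2 := by
        congr 1
        refine lintegral_congr fun y => ?_
        have hm' : Measurable fun x : E => η (x - y) :=
          hη.comp (measurable_id.sub measurable_const)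
        rw [lintegral_mul_const _ hm', lintegral_sub_right_eq_self η y]
    _ = (∫⁻ x, η x) ^ 2 * ∫⁻ y, f y ^ 2 := by
        rw [lintegral_const_mul _ (hf.pow_const _), ← mul_assoc, sq]

theorem young {η f : E → ℝ≥0∞} (hη : Measurable η) (hf : AEMeasurable f volume) :
    ∫⁻ x, (∫⁻ y, η (x - y) * f y) ^ 2 ≤ (∫⁻ x, η x) ^ 2 * ∫⁻ y, f y ^ 2 := by
  have e1 : ∀ x, ∫⁻ y, η (x - y) * f y = ∫⁻ y, η (x - y) * hf.mk f y := fun x =>
    lintegral_congr_ae (hf.ae_eq_mk.mono fun y hy => by simp only [hy])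
  have e2 : ∫⁻ y, f y ^ 2 = ∫⁻ y, hf.mk f y ^ 2 :=
    lintegral_congr_ae (hf.ae_eq_mk.mono fun y hy => by simp only [hy])
  simp only [e1, e2]
  exact AN1a_meas hη hf.measurable_mk

end Pool.Agent.P.MP_e0a138_an.AD
end
end

-- part Pool.Agent.P.MP_e0a138_an.AN2
section

set_option autoImplicit false
set_option linter.unusedSectionVars false
set_option linter.unusedVariables false

open MeasureTheory Filter Topology Metric Complex
open scoped ENNReal NNReal ContDiff InnerProductSpace ComplexConjugate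

noncomputable section
namespace Pool.Agent.P.MP_e0a138_an.AD

variable {N p q k : ℕ} {W : Type} [NormedAddCommGroup W] [InnerProductSpace ℂ W]
  [FiniteDimensional ℂ W] [CompleteSpace W]
variable {E : Type} [NormedAddCommGroup E] [NormedSpace ℝ E] [FiniteDimensional ℝ E]
  [MeasureSpace E] [BorelSpace E] [(volume : Measure E).IsAddHaarMeasure] {κ : Type} [Fintype κ]

theorem an2_cs {η f : E → ℝ≥0∞} (hη : Measurable η) (hf : Measurable f) (h1 : ∫⁻ x, η x = 1) :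
    (∫⁻ x, η x * f x) ^ 2 ≤ ∫⁻ x, η x * f x ^ 2 := by
  have h := ENNReal.lintegral_mul_le_Lp_mul_Lq (volume.withDensity η) Real.HolderConjugate.two_two
    (f := fun _ : E => (1 : ℝ≥0∞)) (g := f) aemeasurable_const hf.aemeasurable
  have e1 : ∫⁻ a, ((fun _ : E => (1 : ℝ≥0∞)) * f) a ∂(volume.withDensity η) = ∫⁻ x, η x * f x := by
    rw [lintegral_withDensity_eq_lintegral_mul _ hη (measurable_const.mul hf)]
    simp
  have e2 : ∫⁻ a, (1 : ℝ≥0∞) ^ (2 : ℝ) ∂(volume.withDensity η) = 1 := by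
    rw [lintegral_withDensity_eq_lintegral_mul _ hη measurable_const]
    simpa using h1
  have e3 : ∫⁻ a, f a ^ (2 : ℝ) ∂(volume.withDensity η) = ∫⁻ x, η x * f x ^ 2 := by
    rw [lintegral_withDensity_eq_lintegral_mul _ hη (hf.pow_const _)]
    simp
  rw [e1, e2, e3, ENNReal.one_rpow, one_mul] at h
  refine (pow_le_pow_left' h 2).trans_eq ?_
  rw [← ENNReal.rpow_natCast, ← ENNReal.rpow_mul]
  norm_num

theorem an2_trans {v : E → W} (hv : MemLp v 2 volume) :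
    Tendsto (fun t : E => ∫⁻ x, ‖v (x - t) - v x‖ₑ ^ 2) (𝓝 0) (𝓝 0) := by
  let g : E → C(E, E) := fun t => ⟨fun x => x - t, by fun_prop⟩
  have hg : Continuous g := ContinuousMap.continuous_of_continuous_uncurry g
    (continuous_snd.sub continuous_fst)
  have hm : ∀ t, MeasurePreserving (g t) (volume : Measure E) volume := fun t =>
    measurePreserving_sub_right volume t
  have hc : Continuous fun t => Lp.compMeasurePreserving (g t) (hm t) (hv.toLp v) :=
    Continuous.compMeasurePreservingLp continuous_const hg hm (by simp)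
  have hae : ∀ t, (Lp.compMeasurePreserving (g t) (hm t) (hv.toLp v) : E → W)
      =ᵐ[volume] fun x => v (x - t) := fun t =>
    (Lp.coeFn_compMeasurePreserving _ (hm t)).trans
      ((hm t).quasiMeasurePreserving.ae_eq_comp hv.coeFn_toLp)
  have h1 : ∀ t, ∫⁻ x, ‖v (x - t) - v x‖ₑ ^ 2 =
      ‖Lp.compMeasurePreserving (g t) (hm t) (hv.toLp v)
        - Lp.compMeasurePreserving (g 0) (hm 0) (hv.toLp v)‖ₑ ^ 2 := by
    intro t
    refine (enorm_sq_eq_of_ae ?_).symm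
    filter_upwards [Lp.coeFn_sub (Lp.compMeasurePreserving (g t) (hm t) (hv.toLp v))
      (Lp.compMeasurePreserving (g 0) (hm 0) (hv.toLp v)), hae t, hae 0] with x h1 h2 h3
    rw [h1, Pi.sub_apply, h2, h3, sub_zero]
  simp_rw [h1]
  have h2 := ENNReal.Tendsto.pow (n := 2)
    ((hc.sub (continuous_const (y := Lp.compMeasurePreserving (g 0) (hm 0) (hv.toLp v)))).enorm.tendsto
      0)
  simpa using h2

theorem an2_est {j : E → ℝ} (hj : Continuous j) (hc : HasCompactSupport j) (h0 : ∀ x, 0 ≤ j x)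
    (h1 : ∫ x, j x = 1) {v : E → W} (hv : MemLp v 2 volume) (hs : StronglyMeasurable v) :
    ∫⁻ x, ‖mol j v x - v x‖ₑ ^ 2 ≤ ∫⁻ t, ‖j t‖ₑ * ∫⁻ x, ‖v (x - t) - v x‖ₑ ^ 2 := by
  have hi : Integrable j := hj.integrable_of_hasCompactSupport hc
  have h2 : ∫⁻ x, ‖j x‖ₑ = 1 := by
    rw [← ofReal_integral_norm_eq_lintegral_enorm hi]
    simp only [Real.norm_of_nonneg (h0 _)]
    rw [h1, ENNReal.ofReal_one]
  have hm : Measurable fun z : E × E => ‖v (z.1 - z.2) - v z.1‖ₑ :=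
    ((hs.comp_measurable (measurable_fst.sub measurable_snd)).sub
      (hs.comp_measurable measurable_fst)).enorm
  have h3 : ∀ x, ‖mol j v x - v x‖ₑ ^ 2 ≤ ∫⁻ t, ‖j t‖ₑ * ‖v (x - t) - v x‖ₑ ^ 2 := by
    intro x
    have hl : LocallyIntegrable (fun t => v (x - t)) volume :=
      (hv.comp_measurePreserving (Measure.measurePreserving_sub_left volume x)).locallyIntegrable
        (by norm_num)
    have e1 : mol j v x = ∫ t, j t • v (x - t) := by
      rw [← integral_sub_left_eq_self (fun t => j t • v (x - t)) volume x]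
      simp only [mol, sub_sub_cancel]
    have e2 : mol j v x - v x = ∫ t, j t • (v (x - t) - v x) := by
      simp only [smul_sub]
      rw [integral_sub (hl.integrable_smul_left_of_hasCompactSupport hj hc) (hi.smul_const _),
        integral_smul_const, h1, one_smul, e1]
    refine le_trans ?_ (an2_cs hj.measurable.enorm
      (hm.comp (measurable_const.prodMk measurable_id)) h2)
    refine pow_le_pow_left' ?_ 2
    rw [e2]
    refine (enorm_integral_le_lintegral_enorm _).trans_eq ?_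
    simp only [enorm_smul, Function.comp_apply, id]
  refine (lintegral_mono h3).trans_eq ?_
  rw [lintegral_lintegral_swap
    ((hj.measurable.enorm.comp measurable_snd).mul (hm.pow_const 2)).aemeasurable]
  refine lintegral_congr fun t => ?_
  exact lintegral_const_mul' _ _ enorm_ne_top

theorem an2_conv {j : ℕ → E → ℝ} (hj : ∀ n, Continuous (j n)) (h0 : ∀ n x, 0 ≤ j n x)
    (hz : ∀ (n : ℕ) x, 1 / (n + 1 : ℝ) ≤ ‖x‖ → j n x = 0) (h1 : ∀ n, ∫ x, j n x = 1)
    {v : E → W} (hv : MemLp v 2 volume) :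
    Tendsto (fun n => ∫⁻ x, ‖mol (j n) v x - v x‖ₑ ^ 2) atTop (𝓝 0) := by
  have hc : ∀ n, HasCompactSupport (j n) := fun n =>
    HasCompactSupport.intro (isCompact_closedBall (0 : E) (1 / (n + 1 : ℝ))) fun x hx =>
      hz n x (le_of_lt (by simpa using hx))
  have hae := hv.1.ae_eq_mk
  have hv' : MemLp (hv.1.mk v) 2 volume := hv.ae_eq hae
  have e : ∀ n, ∫⁻ x, ‖mol (j n) v x - v x‖ₑ ^ 2
      = ∫⁻ x, ‖mol (j n) (hv.1.mk v) x - hv.1.mk v x‖ₑ ^ 2 := by
    intro n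
    refine lintegral_congr_ae ?_
    filter_upwards [hae] with x hx
    have : mol (j n) v x = mol (j n) (hv.1.mk v) x := by
      refine integral_congr_ae ?_
      filter_upwards [hae] with y hy
      rw [hy]
    rw [hx, this]
  simp_rw [e]
  refine ENNReal.tendsto_nhds_zero.2 fun ε hε => ?_
  obtain ⟨δ, hδ, hδ'⟩ := Metric.eventually_nhds_iff.1
    (ENNReal.tendsto_nhds_zero.1 (an2_trans hv') ε hε)
  filter_upwards [(tendsto_one_div_add_atTop_nhds_zero_nat (𝕜 := ℝ)).eventually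
    (gt_mem_nhds hδ)] with n hn
  refine (an2_est (hj n) (hc n) (h0 n) (h1 n) hv' hv.1.stronglyMeasurable_mk).trans ?_
  have h2 : ∫⁻ x, ‖j n x‖ₑ = 1 := by
    rw [← ofReal_integral_norm_eq_lintegral_enorm
      ((hj n).integrable_of_hasCompactSupport (hc n))]
    simp only [Real.norm_of_nonneg (h0 _ _)]
    rw [h1, ENNReal.ofReal_one]
  calc _ ≤ ∫⁻ t, ‖j n t‖ₑ * ε := by
        refine lintegral_mono fun t => ?_
        rcases le_or_gt (1 / (n + 1 : ℝ)) ‖t‖ with h | h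
        · simp [hz n t h]
        · exact mul_le_mul_right (hδ' (by simpa using h.trans hn)) _
    _ = ε := by rw [lintegral_mul_const _ (hj n).measurable.enorm, h2, one_mul]

theorem moll (E W : Type) [NormedAddCommGroup E] [NormedSpace ℝ E] [FiniteDimensional ℝ E]
    [MeasureSpace E] [BorelSpace E] [(volume : Measure E).IsAddHaarMeasure]
    [NormedAddCommGroup W] [InnerProductSpace ℂ W] [FiniteDimensional ℂ W] [CompleteSpace W] :
    ∃ (j : ℕ → E → ℝ) (C : ℝ≥0), (∀ n, ContDiff ℝ ∞ (j n)) ∧ (∀ n x, 0 ≤ j n x) ∧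
      (∀ (n : ℕ) x, 1 / (n + 1 : ℝ) ≤ ‖x‖ → j n x = 0) ∧
      (∀ n, ∫⁻ x, (‖j n x‖ₑ + ‖x‖ₑ * ‖fderiv ℝ (j n) x‖ₑ) ≤ C) ∧
      ∀ v : E → W, MemLp v 2 volume →
        Tendsto (fun n => ∫⁻ x, ‖mol (j n) v x - v x‖ₑ ^ 2) atTop (𝓝 0) := by
  let φ : ContDiffBump (0 : E) := ⟨1 / 2, 1, by norm_num, by norm_num⟩
  obtain ⟨j0, hj0⟩ : ∃ j0 : E → ℝ, j0 = φ.normed volume := ⟨_, rfl⟩
  have a1 : ContDiff ℝ ∞ j0 := hj0 ▸ φ.contDiff_normed
  have a2 : ∀ x, 0 ≤ j0 x := fun x => hj0 ▸ φ.nonneg_normed x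
  have a3 : ∀ x, 1 ≤ ‖x‖ → j0 x = 0 := by
    intro x hx
    by_contra h
    have h2 : x ∈ Function.support (φ.normed volume) := hj0 ▸ h
    rw [φ.support_normed_eq] at h2
    have h3 : ‖x‖ < 1 := by simpa [φ] using h2
    linarith
  have a4 : ∫ x, j0 x = 1 := hj0 ▸ φ.integral_normed
  have a5 : HasCompactSupport j0 := hj0 ▸ φ.hasCompactSupport_normed
  obtain ⟨G, hG⟩ : ∃ G : E → ℝ, G = fun x => ‖j0 x‖ + ‖x‖ * ‖fderiv ℝ j0 x‖ := ⟨_, rfl⟩
  have b1 : Continuous G := by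
    have := a1.continuous_fderiv (by simp)
    have := a1.continuous
    rw [hG]
    fun_prop
  have b2 : HasCompactSupport G := by
    rw [hG]
    exact a5.norm.add (a5.fderiv (𝕜 := ℝ)).norm.mul_left
  have b3 : ∀ x, 0 ≤ G x := fun x => by rw [hG]; positivity
  have hc : ∀ n : ℕ, (0 : ℝ) < n + 1 := fun n => by positivity
  have sc : ∀ (n : ℕ) (f : E → ℝ), ∫ x, (n + 1 : ℝ) ^ Module.finrank ℝ E * f ((n + 1 : ℝ) • x)
      = ∫ x, f x := by
    intro n f
    rw [integral_const_mul, Measure.integral_comp_smul, abs_of_pos (by positivity), smul_eq_mul,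
      ← mul_assoc, mul_inv_cancel₀ (by positivity), one_mul]
  have c1 : ∀ n : ℕ, ContDiff ℝ ∞
      fun x : E => (n + 1 : ℝ) ^ Module.finrank ℝ E * j0 ((n + 1 : ℝ) • x) := fun n =>
    contDiff_const.mul (a1.comp (contDiff_const_smul _))
  have c2 : ∀ (n : ℕ) (x : E), 0 ≤ (n + 1 : ℝ) ^ Module.finrank ℝ E * j0 ((n + 1 : ℝ) • x) :=
    fun n x => mul_nonneg (by positivity) (a2 _)
  have c3 : ∀ (n : ℕ) (x : E), 1 / (n + 1 : ℝ) ≤ ‖x‖ →
      (n + 1 : ℝ) ^ Module.finrank ℝ E * j0 ((n + 1 : ℝ) • x) = 0 := by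
    intro n x hx
    rw [a3, mul_zero]
    rw [norm_smul, Real.norm_of_nonneg (hc n).le, mul_comm]
    exact (div_le_iff₀ (hc n)).1 hx
  refine ⟨fun n x => (n + 1 : ℝ) ^ Module.finrank ℝ E * j0 ((n + 1 : ℝ) • x),
    Real.toNNReal (∫ x, G x), c1, c2, c3, fun n => ?_, fun v hv =>
      an2_conv (fun n => (c1 n).continuous) c2 c3 (fun n => (sc n j0).trans a4) hv⟩
  have d1 : ∀ x : E, fderiv ℝ
      (fun x : E => (n + 1 : ℝ) ^ Module.finrank ℝ E * j0 ((n + 1 : ℝ) • x)) x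
      = ((n + 1 : ℝ) ^ Module.finrank ℝ E * (n + 1)) • fderiv ℝ j0 ((n + 1 : ℝ) • x) := by
    intro x
    have h1 := ((a1.differentiable (by simp) ((n + 1 : ℝ) • x)).hasFDerivAt.comp x
      ((hasFDerivAt_id x).const_smul (n + 1 : ℝ))).const_mul ((n + 1 : ℝ) ^ Module.finrank ℝ E)
    refine h1.fderiv.trans ?_
    ext b
    simp [mul_assoc]
  have d2 : Integrable fun x : E => (n + 1 : ℝ) ^ Module.finrank ℝ E * G ((n + 1 : ℝ) • x) :=
    ((b1.integrable_of_hasCompactSupport b2).comp_smul (hc n).ne').const_mul _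
  change _ ≤ ENNReal.ofReal (∫ x, G x)
  rw [← sc n G, ofReal_integral_eq_lintegral_ofReal d2
    (ae_of_all _ fun x => mul_nonneg (by positivity) (b3 _))]
  refine le_of_eq (lintegral_congr fun x => ?_)
  rw [d1, ← ofReal_norm, ← ofReal_norm, ← ofReal_norm,
    ← ENNReal.ofReal_mul (norm_nonneg _), ← ENNReal.ofReal_add (norm_nonneg _) (by positivity), hG]
  congr 1
  simp only [norm_mul, norm_smul, norm_pow, Real.norm_of_nonneg (hc n).le]
  ring

end Pool.Agent.P.MP_e0a138_an.AD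
end
end

-- part Pool.Agent.P.MP_e0a138_an.AN4b
section

set_option autoImplicit false
set_option linter.unusedSectionVars false
set_option linter.unusedVariables false

open MeasureTheory Filter Topology Metric Complex
open scoped ENNReal NNReal ContDiff InnerProductSpace ComplexConjugate

noncomputable section
namespace Pool.Agent.P.MP_e0a138_an.AD

variable {N p q k : ℕ} {W : Type} [NormedAddCommGroup W] [InnerProductSpace ℂ W]
  [FiniteDimensional ℂ W] [CompleteSpace W]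
variable {E : Type} [NormedAddCommGroup E] [NormedSpace ℝ E] [FiniteDimensional ℝ E]
  [MeasureSpace E] [BorelSpace E] [(volume : Measure E).IsAddHaarMeasure] {κ : Type} [Fintype κ]

variable {O : Set E} {A : κ → E → W →L[ℂ] W} {B P : E → W →L[ℂ] W} {ρ : E → ℝ}

theorem AN4b_sq_fin {v g : E → W} (hv : MemLp v 2 volume) (hg : MemLp g 2 volume) :
    ∫⁻ y, (‖v y‖ₑ + ‖g y‖ₑ) ^ 2 ≠ ⊤ := by
  have h1 := (memLp_two_iff.1 hv).2
  have h2 := (memLp_two_iff.1 hg).2
  have hle : ∀ y, (‖v y‖ₑ + ‖g y‖ₑ) ^ 2 ≤ 2 * ‖v y‖ₑ ^ 2 + 2 * ‖g y‖ₑ ^ 2 := by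
    intro y
    have h : (‖v y‖₊ + ‖g y‖₊) ^ 2 ≤ 2 * ‖v y‖₊ ^ 2 + 2 * ‖g y‖₊ ^ 2 := by
      have : ((‖v y‖₊ : ℝ) + ‖g y‖₊) ^ 2 ≤ 2 * (‖v y‖₊ : ℝ) ^ 2 + 2 * (‖g y‖₊ : ℝ) ^ 2 := by
        nlinarith [sq_nonneg ((‖v y‖₊ : ℝ) - ‖g y‖₊)]
      exact_mod_cast this
    simp only [enorm_eq_nnnorm]
    exact_mod_cast h
  refine ne_top_of_le_ne_top ?_ (lintegral_mono hle)
  have hm : AEMeasurable (fun y => 2 * ‖v y‖ₑ ^ 2) (volume : Measure E) :=
    (hv.1.enorm.pow_const 2).const_mul 2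
  rw [lintegral_add_left' hm, lintegral_const_mul' _ _ (by simp),
    lintegral_const_mul' _ _ (by simp)]
  exact ENNReal.add_ne_top.2 ⟨ENNReal.mul_ne_top (by simp) h1, ENNReal.mul_ne_top (by simp) h2⟩

theorem friedrichs (hc : Coef O A B P ρ) (b : κ → E) {K : Set E} (hK : IsCompact K) (hKO : K ⊆ O)
    {v : E → W} (hv : MemLp v 2 (wm O ρ)) (hvK : ∀ x ∉ K, v x = 0)
    (hP : ∀ᵐ x ∂wm O ρ, P x (v x) = v x) :
    ∃ (a : ℕ → E → W) (K' : Set E), IsCompact K' ∧ K ⊆ K' ∧ K' ⊆ O ∧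
      (∀ n, Tst O P (a n) ∧ ∀ x ∉ K', a n x = 0) ∧
      Tendsto (fun n => ∫⁻ x, ‖a n x - v x‖ₑ ^ 2 ∂wm O ρ) atTop (𝓝 0) ∧
      ∀ g : E → W, MemLp g 2 (wm O ρ) → (∀ x ∉ K, g x = 0) →
        (∀ a', Tst O P a' → ∫ y, ⟪op b A B a' y, v y⟫_ℂ ∂wm O ρ = ∫ y, ⟪a' y, g y⟫_ℂ ∂wm O ρ) →
        ∃ C : ℝ≥0, ∀ n, ∫⁻ x, ‖op b A B (a n) x‖ₑ ^ 2 ∂wm O ρ ≤ C := by
  have : ProperSpace E := FiniteDimensional.proper_real E
  have hO := hc.isOpen
  have hOm : MeasurableSet O := hO.measurableSet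
  have hρ : ContinuousOn ρ O := hc.hρ.continuousOn
  obtain ⟨δ, hδ, hδO⟩ := hK.exists_cthickening_subset_open hO hKO
  obtain ⟨e₀, he₀d⟩ : ∃ e₀ : ℝ, 2 * e₀ = δ := ⟨δ / 2, by ring⟩
  have he₀ : 0 < e₀ := by linarith
  have h2 : cthickening (2 * e₀) K ⊆ O := he₀d ▸ hδO
  have hK'O : cthickening e₀ K ⊆ O := (cthickening_mono (by linarith) K).trans h2
  have hK' : IsCompact (cthickening e₀ K) := hK.cthickening
  have hKK' : K ⊆ cthickening e₀ K := self_subset_cthickening K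
  obtain ⟨n₀, hn₀⟩ := exists_nat_one_div_lt he₀
  obtain ⟨j, C, hj, -, hj0, hjC, hjv⟩ := moll E W
  have hvV : MemLp v 2 volume := (memLp_wm_iff hOm hK hKO hρ hc.pos hvK).1 hv
  have hepos : ∀ n : ℕ, (0 : ℝ) < 1 / (((n + n₀ : ℕ) : ℝ) + 1) := fun n => by positivity
  have hele : ∀ n : ℕ, 1 / (((n + n₀ : ℕ) : ℝ) + 1) ≤ e₀ := fun n => by
    refine le_trans ?_ hn₀.le
    refine one_div_le_one_div_of_le (by positivity) ?_
    push_cast
    linarith [(Nat.cast_nonneg n : (0 : ℝ) ≤ n)]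
  have hm := fun n : ℕ => mol_props (hj (n + n₀)) (hepos n) (hj0 (n + n₀)) hvV
  have hm0 : ∀ n, ∀ x ∉ cthickening e₀ K, mol (j (n + n₀)) v x = 0 := fun n x hx =>
    (hm n).2.2 K hvK x fun h => hx (cthickening_mono (hele n) K h)
  have ha0 : ∀ n, ∀ x ∉ cthickening e₀ K, P x (mol (j (n + n₀)) v x) = 0 := fun n x hx => by
    rw [hm0 n x hx, map_zero]
  obtain ⟨C₁, hC₁⟩ := lintegral_wm_le hOm hK' hK'O hρ
  refine ⟨fun n x => P x (mol (j (n + n₀)) v x), cthickening e₀ K, hK', hKK', hK'O,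
    fun n => ⟨⟨?_, ?_, ?_, fun x => ?_⟩, ha0 n⟩, ?_, fun g hg hgK hw => ?_⟩
  · exact contDiff_of_cpt hO hK'.isClosed hK'O (contDiffOn_capp hc.hP (hm n).1.contDiffOn) (ha0 n)
  · exact HasCompactSupport.intro hK' (ha0 n)
  · refine (closure_minimal (fun x hx => ?_) hK'.isClosed).trans hK'O
    by_contra h
    exact hx (ha0 n x h)
  · by_cases hx : x ∈ O
    · have := congrArg (fun T : W →L[ℂ] W => T (mol (j (n + n₀)) v x)) (hc.idem x hx)
      simpa using this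
    · have := ha0 n x fun h => hx (hK'O h)
      simp only [this, map_zero]
  · have ht : Tendsto (fun n => (C₁ : ℝ≥0∞) * ∫⁻ x, ‖mol (j (n + n₀)) v x - v x‖ₑ ^ 2) atTop
        (𝓝 0) := by
      have := ENNReal.Tendsto.const_mul (a := (C₁ : ℝ≥0∞))
        ((hjv v hvV).comp (tendsto_add_atTop_nat n₀)) (Or.inr ENNReal.coe_ne_top)
      simpa using this
    refine tendsto_of_tendsto_of_tendsto_of_le_of_le tendsto_const_nhds ht (fun n => zero_le)
      fun n => ?_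
    calc ∫⁻ x, ‖P x (mol (j (n + n₀)) v x) - v x‖ₑ ^ 2 ∂wm O ρ
        ≤ ∫⁻ x, ‖mol (j (n + n₀)) v x - v x‖ₑ ^ 2 ∂wm O ρ := by
          refine lintegral_mono_ae ?_
          filter_upwards [hP, wm_ae hOm] with x hx hxO
          have he : P x (mol (j (n + n₀)) v x) - v x = P x (mol (j (n + n₀)) v x - v x) := by
            rw [map_sub, hx]
          rw [he]
          gcongr
          have h1 := norm_proj_le (hc.idem x hxO) (hc.sa x hxO)
          have h3 : ‖P x (mol (j (n + n₀)) v x - v x)‖ ≤ ‖mol (j (n + n₀)) v x - v x‖ :=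
            ((P x).le_opNorm _).trans (mul_le_of_le_one_left (norm_nonneg _) h1)
          simp only [← ofReal_norm]
          exact ENNReal.ofReal_le_ofReal h3
      _ ≤ C₁ * ∫⁻ x in cthickening e₀ K, ‖mol (j (n + n₀)) v x - v x‖ₑ ^ 2 := by
          refine hC₁ _ fun x _ hx => ?_
          rw [hm0 n x hx, hvK x fun h => hx (hKK' h)]
          simp
      _ ≤ C₁ * ∫⁻ x, ‖mol (j (n + n₀)) v x - v x‖ₑ ^ 2 := by
          gcongr
          exact Measure.restrict_le_self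
  · have hgV : MemLp g 2 volume := (memLp_wm_iff hOm hK hKO hρ hc.pos hgK).1 hg
    obtain ⟨C₂, hC₂⟩ := fried_bound hc b hK he₀ h2
    have hfin := AN4b_sq_fin hvV hgV
    have hT : (C₁ : ℝ≥0∞) * ((C₂ : ℝ≥0∞) ^ 2 * ((C : ℝ≥0∞) ^ 2 *
        ∫⁻ y, (‖v y‖ₑ + ‖g y‖ₑ) ^ 2)) ≠ ⊤ :=
      ENNReal.mul_ne_top ENNReal.coe_ne_top (ENNReal.mul_ne_top
        (ENNReal.pow_ne_top ENNReal.coe_ne_top)
        (ENNReal.mul_ne_top (ENNReal.pow_ne_top ENNReal.coe_ne_top) hfin))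
    refine ⟨ENNReal.toNNReal _, fun n => le_trans ?_ (ENNReal.coe_toNNReal hT).ge⟩
    have hη : Measurable fun x : E => ‖j (n + n₀) x‖ₑ + ‖x‖ₑ * ‖fderiv ℝ (j (n + n₀)) x‖ₑ :=
      (hj _).continuous.measurable.enorm.add (measurable_id.enorm.mul
        ((hj _).continuous_fderiv (by simp)).measurable.enorm)
    have hf : AEMeasurable (fun y => ‖v y‖ₑ + ‖g y‖ₑ) (volume : Measure E) :=
      hvV.1.enorm.add hgV.1.enorm
    have hy := young hη hf
    calc ∫⁻ x, ‖op b A B (fun x => P x (mol (j (n + n₀)) v x)) x‖ₑ ^ 2 ∂wm O ρ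
        ≤ C₁ * ∫⁻ x in cthickening e₀ K,
            ‖op b A B (fun x => P x (mol (j (n + n₀)) v x)) x‖ₑ ^ 2 := by
          refine hC₁ _ fun x hxO hx => ?_
          rw [op_eq_zero hO hK'.isClosed (fun y _ hy => ha0 n y hy) hxO hx]
          simp
      _ ≤ C₁ * ∫⁻ x in cthickening e₀ K, (C₂ : ℝ≥0∞) ^ 2 *
            (∫⁻ y, (‖j (n + n₀) (x - y)‖ₑ + ‖x - y‖ₑ * ‖fderiv ℝ (j (n + n₀)) (x - y)‖ₑ) *
              (‖v y‖ₑ + ‖g y‖ₑ)) ^ 2 := by
          refine mul_le_mul_right ?_ _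
          refine setLIntegral_mono' hK'.measurableSet fun x hx => ?_
          rw [← mul_pow]
          exact pow_le_pow_left' (hC₂ _ _ v g (hj _) (hepos n) (hele n) (hj0 _) hvV hgV hw x hx) 2
      _ ≤ C₁ * ∫⁻ x, (C₂ : ℝ≥0∞) ^ 2 *
            (∫⁻ y, (‖j (n + n₀) (x - y)‖ₑ + ‖x - y‖ₑ * ‖fderiv ℝ (j (n + n₀)) (x - y)‖ₑ) *
              (‖v y‖ₑ + ‖g y‖ₑ)) ^ 2 :=
          mul_le_mul_right (setLIntegral_le_lintegral _ _) _
      _ ≤ _ := by
          rw [lintegral_const_mul' _ _ (ENNReal.pow_ne_top ENNReal.coe_ne_top)]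
          refine mul_le_mul_right (mul_le_mul_right (hy.trans ?_) _) _
          exact mul_le_mul_left (pow_le_pow_left' (hjC _) 2) _

end Pool.Agent.P.MP_e0a138_an.AD
end
end

-- part Pool.Agent.P.MP_e0a138_an.PA1
section

set_option autoImplicit false
set_option linter.unusedSectionVars false
set_option linter.unusedVariables false

open MeasureTheory Filter Topology Metric Complex
open scoped ENNReal NNReal ContDiff InnerProductSpace ComplexConjugate

noncomputable section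
namespace Pool.Agent.P.MP_e0a138_an.AD

variable {N p q k : ℕ} {W : Type} [NormedAddCommGroup W] [InnerProductSpace ℂ W]
  [FiniteDimensional ℂ W] [CompleteSpace W]
variable {E : Type} [NormedAddCommGroup E] [NormedSpace ℝ E] [FiniteDimensional ℝ E]
  [MeasureSpace E] [BorelSpace E] [(volume : Measure E).IsAddHaarMeasure] {κ : Type} [Fintype κ]

variable {S J : Type} [MeasurableSpace S] {ν : Measure S} {b : κ → E}
  {G : Set (Lp W 2 ν × Lp W 2 ν)} {Pg : S → W →L[ℂ] W}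

theorem PA1_memLp {O K : Set E} {ρ : E → ℝ} (hO : MeasurableSet O) (hK : IsCompact K)
    (hKO : K ⊆ O) {M : E → W →L[ℂ] W} (hM : ContinuousOn M O) {f : E → W}
    (hf : MemLp f 2 (wm O ρ)) : MemLp (K.indicator fun x => M x (f x)) 2 (wm O ρ) := by
  obtain ⟨C, hC⟩ := hK.exists_bound_of_continuousOn (hM.mono hKO)
  have h1 : AEStronglyMeasurable (fun x => M x (f x)) (wm O ρ) :=
    (isBoundedBilinearMap_apply (𝕜 := ℂ) (E := W) (F := W)).continuous.comp_aestronglyMeasurable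
      ((aesm_wm hO hM).prodMk hf.1)
  refine hf.of_le_mul (c := max C 0) (h1.indicator hK.isClosed.measurableSet)
    (Eventually.of_forall fun x => ?_)
  by_cases hx : x ∈ K
  · rw [Set.indicator_of_mem hx]
    exact ((M x).le_opNorm _).trans
      (mul_le_mul_of_nonneg_right ((hC x hx).trans (le_max_left _ _)) (norm_nonneg _))
  · rw [Set.indicator_of_notMem hx, norm_zero]
    positivity

theorem PA1_tendsto {H : Type} [NormedAddCommGroup H] {x : ℕ → H} {v : H}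
    (h : Tendsto (fun j => ‖x j - v‖ₑ ^ 2) atTop (𝓝 0)) : Tendsto x atTop (𝓝 v) := by
  have h1 := (ENNReal.tendsto_toReal ENNReal.zero_ne_top).comp h
  have h2 := (Real.continuous_sqrt.tendsto _).comp h1
  rw [tendsto_iff_norm_sub_tendsto_zero]
  simpa [Function.comp_def] using h2

theorem PA1_bound {H : Type} [NormedAddCommGroup H] {x : H} {C : ℝ≥0} (h : ‖x‖ₑ ^ 2 ≤ C) :
    ‖x‖ ≤ √(C : ℝ) := by
  have h1 := ENNReal.toReal_mono ENNReal.coe_ne_top h
  refine Real.le_sqrt_of_sq_le ?_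
  simpa using h1

/-- approximation of a localised vector by test sections -/
theorem Pat.approx (Z : Pat ν J b G Pg) {w : Lp W 2 ν} (hP : ∀ᵐ s ∂ν, Pg s (w s) = w s) (n : ℕ)
    (P : J) {vP : Lp W 2 ν} (hvP : vP =ᵐ[ν] fun s => ((Z.χ n s * Z.θ P s : ℝ) : ℂ) • w s) :
    ∃ (a : ℕ → E → W) (K' : Set E) (g : ℕ → Lp W 2 ν × Lp W 2 ν), IsCompact K' ∧ Z.K P ⊆ K' ∧
      K' ⊆ Z.O P ∧ (∀ j, Tst (Z.O P) (fun x => Pg (Z.γ P x)) (a j) ∧ ∀ x ∉ K', a j x = 0) ∧
      (∀ j, g j ∈ G ∧ (g j).1 =ᵐ[ν] (Z.γ P '' Z.O P).indicator (fun s => a j (Z.π P s)) ∧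
        (g j).2 =ᵐ[ν] (Z.γ P '' Z.O P).indicator fun s => op b (Z.A P) (Z.B P) (a j) (Z.π P s)) ∧
      Tendsto (fun j => (g j).1) atTop (𝓝 vP) ∧
      ∀ sg : ℂ, (∀ g ∈ G, ⟪g.2 + sg • g.1, w⟫_ℂ = 0) → ∃ C : ℝ, ∀ j, ‖(g j).2‖ ≤ C := by
  have hc := Z.coef P
  have he := Z.emb P
  have hO : MeasurableSet (Z.O P) := hc.isOpen.measurableSet
  have hK := Z.K_cpt P
  have hKO := Z.K_sub P
  set c : E → ℝ := fun x => Z.χ n (Z.γ P x) * Z.θ P (Z.γ P x) with hcdef
  have hcs : ContDiffOn ℝ ∞ c (Z.O P) := (Z.χ_smooth n P).mul (Z.θ_smooth P)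
  have hc0 : ∀ x ∈ Z.O P, x ∉ Z.K P → c x = 0 := by
    intro x hx hxK
    have : Z.θ P (Z.γ P x) = 0 := by
      refine Z.θ_supp P _ ?_
      rintro ⟨y, hy, hyx⟩
      apply hxK
      rw [← Z.inv P x hx, ← hyx, Z.inv P y (hKO hy)]
      exact hy
    simp [hcdef, this]
  have hw : MemLp (fun x => w (Z.γ P x)) 2 (wm (Z.O P) (Z.ρ P)) := he.memLp_comp (Lp.memLp w)
  have hcc : ContinuousOn (fun x => (c x : ℂ) • (1 : W →L[ℂ] W)) (Z.O P) :=
    (contDiffOn_ofReal hcs).continuousOn.smul continuousOn_const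
  set v : E → W := (Z.K P).indicator fun x => ((c x : ℂ) • (1 : W →L[ℂ] W)) (w (Z.γ P x))
    with hvdef
  have hv : MemLp v 2 (wm (Z.O P) (Z.ρ P)) := PA1_memLp hO hK hKO hcc hw
  have hvK : ∀ x ∉ Z.K P, v x = 0 := fun x hx => Set.indicator_of_notMem hx _
  have hvO : ∀ x ∈ Z.O P, v x = (c x : ℂ) • w (Z.γ P x) := by
    intro x hx
    by_cases hxK : x ∈ Z.K P
    · simp [hvdef, Set.indicator_of_mem hxK]
    · simp [hvK x hxK, hc0 x hx hxK]
  have hPw : ∀ᵐ x ∂wm (Z.O P) (Z.ρ P), Pg (Z.γ P x) (w (Z.γ P x)) = w (Z.γ P x) :=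
    (he.ae_iff (P := fun s => Pg s (w s) = w s)).1 (hP.mono fun s hs _ => hs)
  have hPv : ∀ᵐ x ∂wm (Z.O P) (Z.ρ P), Pg (Z.γ P x) (v x) = v x := by
    filter_upwards [hPw, wm_ae hO] with x hx hxO
    rw [hvO x hxO, map_smul, hx]
  obtain ⟨a, K', hK', hKK', hK'O, ha, hlim, hbd⟩ := friedrichs hc b hK hKO hv hvK hPv
  choose g hgG hg1 hg2 using fun j => Z.test P (a j) (ha j).1
  refine ⟨a, K', g, hK', hKK', hK'O, ha, fun j => ⟨hgG j, hg1 j, hg2 j⟩, ?_, ?_⟩
  · refine PA1_tendsto (hlim.congr fun j => ?_)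
    have h1 : ((g j).1 - vP : Lp W 2 ν) =ᵐ[ν] (Z.γ P '' Z.O P).indicator
        fun s => a j (Z.π P s) - ((Z.χ n s * Z.θ P s : ℝ) : ℂ) • w s := by
      filter_upwards [Lp.coeFn_sub (g j).1 vP, hg1 j, hvP] with s h1 h2 h3
      rw [h1, Pi.sub_apply, h2, h3]
      by_cases hs : s ∈ Z.γ P '' Z.O P
      · simp [Set.indicator_of_mem hs]
      · have : Z.θ P s = 0 := Z.θ_supp P s fun h => hs (Set.image_mono hKO h)
        simp [Set.indicator_of_notMem hs, this]
    rw [enorm_sq_eq_of_ae h1, he.lintegral_ind]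
    refine lintegral_congr_ae ?_
    filter_upwards [wm_ae hO] with x hx
    rw [Z.inv P x hx, hvO x hx]
  · intro sg hsg
    have hM : ContinuousOn (fun x => (∑ i, ((fderiv ℝ c x (b i) : ℝ) : ℂ) • Z.A P i x) -
        conj sg • (c x : ℂ) • (1 : W →L[ℂ] W)) (Z.O P) :=
      (continuousOn_finsetSum _ fun i _ =>
        (contDiffOn_ofReal (contDiffOn_fderiv_apply' hc.isOpen hcs (b i))).continuousOn.smul
          (hc.hA i).continuousOn).sub (hcc.const_smul (conj sg))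
    obtain ⟨C, hC⟩ := hbd _ (PA1_memLp hO hK hKO hM hw)
      (fun x hx => Set.indicator_of_notMem hx _) (fun a' ha' => by
        have h := Z.weak hsg P hcs ha'
        refine Eq.trans (integral_congr_ae ?_) (h.trans (integral_congr_ae ?_))
        · filter_upwards [wm_ae hO] with x hx
          rw [hvO x hx]
        · filter_upwards [wm_ae hO] with x hx
          by_cases hxK : x ∈ Z.K P
          · simp [Set.indicator_of_mem hxK]
          · simp [Set.indicator_of_notMem hxK, hc0 x hx hxK,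
              fderiv_eq_zero_of_closed hc.isOpen hK.isClosed hc0 hx hxK])
    refine ⟨√(C : ℝ), fun j => PA1_bound ?_⟩
    rw [enorm_sq_eq_of_ae (hg2 j), he.lintegral_ind]
    refine le_trans (le_of_eq (lintegral_congr_ae ?_)) (hC j)
    filter_upwards [wm_ae hO] with x hx
    rw [Z.inv P x hx]

end Pool.Agent.P.MP_e0a138_an.AD
end
end

-- part Pool.Agent.P.MP_e0a138_an.PA2
section

set_option autoImplicit false
set_option linter.unusedSectionVars false
set_option linter.unusedVariables false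

open MeasureTheory Filter Topology Metric Complex
open scoped ENNReal NNReal ContDiff InnerProductSpace ComplexConjugate

noncomputable section
namespace Pool.Agent.P.MP_e0a138_an.AD

variable {N p q k : ℕ} {W : Type} [NormedAddCommGroup W] [InnerProductSpace ℂ W]
  [FiniteDimensional ℂ W] [CompleteSpace W]
variable {E : Type} [NormedAddCommGroup E] [NormedSpace ℝ E] [FiniteDimensional ℝ E]
  [MeasureSpace E] [BorelSpace E] [(volume : Measure E).IsAddHaarMeasure] {κ : Type} [Fintype κ]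

variable {S J : Type} [MeasurableSpace S] {ν : Measure S} {b : κ → E}
  {G : Set (Lp W 2 ν × Lp W 2 ν)} {Pg : S → W →L[ℂ] W}

theorem PA2_mem {O K : Set E} (hO : IsOpen O) (hK : IsCompact K) (hKO : K ⊆ O) {ρ : E → ℝ}
    {D : E → W →L[ℂ] W} (hD : ContinuousOn D O) {u : E → W} (hu : MemLp u 2 (wm O ρ)) :
    MemLp (fun x => K.indicator D x (u x)) 2 (wm O ρ) := by
  obtain ⟨L, hL⟩ := hK.exists_bound_of_continuousOn (hD.mono hKO)
  have h1 : AEStronglyMeasurable (K.indicator D) (wm O ρ) :=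
    (aesm_wm hO.measurableSet hD).indicator hK.measurableSet
  have h2 : AEStronglyMeasurable (fun x => K.indicator D x (u x)) (wm O ρ) :=
    (continuous_fst.clm_apply continuous_snd :
      Continuous fun z : (W →L[ℂ] W) × W => z.1 z.2).comp_aestronglyMeasurable
        (h1.prodMk hu.aestronglyMeasurable)
  refine hu.of_le_mul (c := max L 0) h2 (Eventually.of_forall fun x => ?_)
  refine (ContinuousLinearMap.le_opNorm _ _).trans (mul_le_mul_of_nonneg_right ?_ (norm_nonneg _))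
  by_cases hx : x ∈ K
  · rw [Set.indicator_of_mem hx]; exact (hL x hx).trans (le_max_left _ _)
  · rw [Set.indicator_of_notMem hx, norm_zero]; exact le_max_right _ _

theorem PA2_pt {t d : ℝ} (ht : 0 ≤ t) {M : W →L[ℂ] W} (hM : ‖M‖ ≤ d) (y : W) :
    ‖⟪(t : ℂ) • y, M y⟫_ℂ‖ ≤ d * (⟪(t : ℂ) • y, y⟫_ℂ).re := by
  have h1 : (⟪(t : ℂ) • y, y⟫_ℂ).re = t * ‖y‖ ^ 2 := by
    rw [inner_smul_left, conj_ofReal, re_ofReal_mul]
    congr 1
    exact inner_self_eq_norm_sq (𝕜 := ℂ) y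
  rw [h1]
  have h2 : ‖M y‖ ≤ d * ‖y‖ :=
    (M.le_opNorm y).trans (mul_le_mul_of_nonneg_right hM (norm_nonneg _))
  calc ‖⟪(t : ℂ) • y, M y⟫_ℂ‖ ≤ ‖(t : ℂ) • y‖ * ‖M y‖ := norm_inner_le_norm _ _
    _ = t * ‖y‖ * ‖M y‖ := by rw [norm_smul, Complex.norm_real, Real.norm_of_nonneg ht]
    _ ≤ t * ‖y‖ * (d * ‖y‖) := mul_le_mul_of_nonneg_left h2 (by positivity)
    _ = d * (t * ‖y‖ ^ 2) := by ring

theorem Pat.piece (Z : Pat ν J b G Pg) {sg : ℂ} {w : Lp W 2 ν}
    (hw : ∀ g ∈ G, ⟪g.2 + sg • g.1, w⟫_ℂ = 0) (hP : ∀ᵐ s ∂ν, Pg s (w s) = w s) (n : ℕ) (P : J)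
    {v vP : Lp W 2 ν} (hv : v =ᵐ[ν] fun s => (Z.χ n s : ℂ) • w s)
    (hvP : vP =ᵐ[ν] fun s => ((Z.χ n s * Z.θ P s : ℝ) : ℂ) • w s) :
    ∃ (g : ℕ → Lp W 2 ν × Lp W 2 ν) (C : ℝ) (r : ℂ), (∀ j, g j ∈ G) ∧
      Tendsto (fun j => (g j).1) atTop (𝓝 vP) ∧ (∀ j, ‖(g j).2‖ ≤ C) ∧
      Tendsto (fun j => ⟪(g j).2 + sg • (g j).1, v⟫_ℂ) atTop (𝓝 r) ∧
      ‖r‖ ≤ Z.δ n * (⟪vP, w⟫_ℂ).re := by
  obtain ⟨a, K', g, hK', hKK', hK'O, ha, hg, hlim, hC⟩ := Z.approx hP n P hvP
  obtain ⟨C, hC⟩ := hC sg hw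
  have hO := (Z.coef P).isOpen
  have hE := Z.emb P
  have hc := Z.χ_smooth n P
  obtain ⟨D, hD⟩ : ∃ D : E → W →L[ℂ] W, D = fun x =>
      ∑ i, ((fderiv ℝ (fun y => Z.χ n (Z.γ P y)) x (b i) : ℝ) : ℂ) • Z.A P i x := ⟨_, rfl⟩
  have hDc : ContinuousOn D (Z.O P) := by
    rw [hD]
    exact continuousOn_finsetSum _ fun i _ =>
      (contDiffOn_ofReal (contDiffOn_fderiv_apply' hO hc (b i))).continuousOn.smul
        ((Z.coef P).hA i).continuousOn
  have hm : ∀ᵐ x ∂wm (Z.O P) (Z.ρ P), x ∈ Z.O P := wm_ae hO.measurableSet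
  have hem : MemLp ((Z.γ P '' Z.O P).indicator fun s => K'.indicator D (Z.π P s) (w s)) 2 ν := by
    refine hE.memLp_ind ?_
    refine (memLp_congr_ae ?_).1
      (PA2_mem hO hK' hK'O hDc (hE.memLp_comp (Lp.memLp w)))
    filter_upwards [hm] with x hx
    rw [Z.inv P x hx]
  obtain ⟨e, he⟩ : ∃ e : Lp W 2 ν, e =ᵐ[ν]
      (Z.γ P '' Z.O P).indicator fun s => K'.indicator D (Z.π P s) (w s) := ⟨_, toL_ae hem⟩
  have key : ∀ j, ⟪(g j).2 + sg • (g j).1, v⟫_ℂ = ⟪(g j).1, e⟫_ℂ := by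
    intro j
    have h1 : (e - conj sg • v : Lp W 2 ν) =ᵐ[ν] fun s =>
        (Z.γ P '' Z.O P).indicator (fun s => K'.indicator D (Z.π P s) (w s)) s -
          conj sg • (Z.χ n s : ℂ) • w s := by
      filter_upwards [Lp.coeFn_sub e (conj sg • v), Lp.coeFn_smul (conj sg) v, he, hv] with s
        h1 h2 h3 h4
      rw [h1, Pi.sub_apply, h2, Pi.smul_apply, h3, h4]
    have h2 : ⟪(g j).2, v⟫_ℂ = ⟪(g j).1, e - conj sg • v⟫_ℂ := by
      rw [inner_eq_of_ae (hg j).2.2 hv, inner_eq_of_ae (hg j).2.1 h1, hE.inner_ind, hE.inner_ind]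
      refine Eq.trans ?_ ((Z.weak hw P hc (ha j).1).trans ?_)
      · refine integral_congr_ae ?_
        filter_upwards [hm] with x hx
        rw [Z.inv P x hx]
      · refine integral_congr_ae ?_
        filter_upwards [hm] with x hx
        rw [Set.indicator_of_mem (Set.mem_image_of_mem _ hx), Z.inv P x hx]
        by_cases hx' : x ∈ K'
        · rw [Set.indicator_of_mem hx', hD]
        · rw [(ha j).2 x hx', inner_zero_left, inner_zero_left]
    rw [inner_add_left, inner_smul_left, h2, inner_sub_right, inner_smul_right]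
    ring
  refine ⟨g, C, ⟪vP, e⟫_ℂ, fun j => (hg j).1, hlim, hC, ?_, ?_⟩
  · simp only [key]
    exact hlim.inner tendsto_const_nhds
  · have hi := L2.integrable_inner (𝕜 := ℂ) vP w
    have h3 : Z.δ n * (⟪vP, w⟫_ℂ).re = ∫ s, Z.δ n * (⟪vP s, w s⟫_ℂ).re ∂ν := by
      rw [integral_const_mul, L2.inner_def]
      congr 1
      exact (integral_re hi).symm
    rw [h3, L2.inner_def]
    refine norm_integral_le_of_norm_le (hi.re.const_mul _) ?_
    filter_upwards [hvP, he, Z.χ_mem n] with s h1 h2 h4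
    rw [h1, h2]
    by_cases hs : s ∈ Z.γ P '' Z.K P
    · obtain ⟨x, hx, rfl⟩ := hs
      have hxO := Z.K_sub P hx
      rw [Set.indicator_of_mem (Set.mem_image_of_mem _ hxO), Z.inv P x hxO,
        Set.indicator_of_mem (hKK' hx)]
      refine PA2_pt (mul_nonneg h4.1 (Z.θ_nonneg P _)) ?_ _
      rw [hD]
      exact Z.grad n P x hx
    · simp [Z.θ_supp P s hs]

end Pool.Agent.P.MP_e0a138_an.AD
end
end

-- part Pool.Agent.P.MP_e0a138_an.PA3
section

set_option autoImplicit false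
set_option linter.unusedSectionVars false
set_option linter.unusedVariables false

open MeasureTheory Filter Topology Metric Complex
open scoped ENNReal NNReal ContDiff InnerProductSpace ComplexConjugate

noncomputable section
namespace Pool.Agent.P.MP_e0a138_an.AD

variable {N p q k : ℕ} {W : Type} [NormedAddCommGroup W] [InnerProductSpace ℂ W]
  [FiniteDimensional ℂ W] [CompleteSpace W]
variable {E : Type} [NormedAddCommGroup E] [NormedSpace ℝ E] [FiniteDimensional ℝ E]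
  [MeasureSpace E] [BorelSpace E] [(volume : Measure E).IsAddHaarMeasure] {κ : Type} [Fintype κ]

variable {S J : Type} [MeasurableSpace S] {ν : Measure S} {b : κ → E}
  {G : Set (Lp W 2 ν × Lp W 2 ν)} {Pg : S → W →L[ℂ] W}

theorem Pat.cut_tendsto (Z : Pat ν J b G Pg) (w : Lp W 2 ν) : ∃ (v : ℕ → Lp W 2 ν)
    (vP : ℕ → J → Lp W 2 ν), (∀ n, v n =ᵐ[ν] fun s => (Z.χ n s : ℂ) • w s) ∧
      (∀ n P, vP n P =ᵐ[ν] fun s => ((Z.χ n s * Z.θ P s : ℝ) : ℂ) • w s) ∧
      (∀ n, ∑ P ∈ Z.fs n, vP n P = v n) ∧ (∀ n, ‖v n‖ ≤ ‖w‖) ∧ Tendsto v atTop (𝓝 w) := by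
  have h1 : ∀ n, ∃ v : Lp W 2 ν, v =ᵐ[ν] fun s => (Z.χ n s : ℂ) • w s := by
    intro n
    obtain ⟨M, -, hM, -⟩ := exists_mul_real (W := W) (Z.aesm_χ n) (C := 1)
      ((Z.χ_mem n).mono fun s hs => by rw [abs_of_nonneg hs.1]; exact hs.2)
    exact ⟨M w, hM w⟩
  have h2 : ∀ n P, ∃ v : Lp W 2 ν,
      v =ᵐ[ν] fun s => ((Z.χ n s * Z.θ P s : ℝ) : ℂ) • w s := by
    intro n P
    obtain ⟨C, hC⟩ := Z.θ_bdd P
    obtain ⟨M, -, hM, -⟩ := exists_mul_real (W := W) (w := fun s => Z.χ n s * Z.θ P s)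
      ((Z.aesm_χ n).mul (Z.aesm_θ P)) (C := C)
      ((Z.χ_mem n).mono fun s hs => by
        rw [abs_mul, abs_of_nonneg hs.1]
        exact (mul_le_of_le_one_left (abs_nonneg _) hs.2).trans (hC s))
    exact ⟨M w, hM w⟩
  choose v hv using h1
  choose vP hvP using h2
  refine ⟨v, vP, hv, hvP, fun n => ?_, fun n => ?_, ?_⟩
  · refine Lp.ext ?_
    have h3 : ∀ᵐ s ∂ν, ∀ P ∈ Z.fs n, vP n P s = ((Z.χ n s * Z.θ P s : ℝ) : ℂ) • w s :=
      (Finset.eventually_all _).2 fun P _ => hvP n P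
    filter_upwards [Lp.coeFn_finsetSum (Z.fs n) (vP n), h3, hv n, Z.χ_sum n] with s a1 a2 a3 a4
    rw [a1, a3, Finset.sum_apply, Finset.sum_congr rfl a2, ← Finset.sum_smul, ← Complex.ofReal_sum,
      a4]
  · refine Lp.norm_le_norm_of_ae_le ?_
    filter_upwards [hv n, Z.χ_mem n] with s a1 a2
    rw [a1, norm_smul, Complex.norm_real, Real.norm_eq_abs, abs_of_nonneg a2.1]
    exact mul_le_of_le_one_left (norm_nonneg _) a2.2
  · have e : ∀ n, (v n - w : Lp W 2 ν) =ᵐ[ν] fun s => ((Z.χ n s - 1 : ℝ) : ℂ) • w s := by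
      intro n
      filter_upwards [Lp.coeFn_sub (v n) w, hv n] with s a1 a2
      rw [a1, Pi.sub_apply, a2, Complex.ofReal_sub, sub_smul, Complex.ofReal_one, one_smul]
    have t : Tendsto (fun n => ∫⁻ s, ‖((Z.χ n s - 1 : ℝ) : ℂ) • w s‖ₑ ^ 2 ∂ν) atTop
        (𝓝 (∫⁻ s, (0 : ℝ≥0∞) ∂ν)) := by
      refine tendsto_lintegral_of_dominated_convergence' (fun s => ‖w s‖ₑ ^ 2) (fun n => ?_)
        (fun n => ?_) ?_ ?_
      · exact ((memLp_of_ae (e n)).1.enorm).pow_const 2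
      · filter_upwards [Z.χ_mem n] with s hs
        refine pow_le_pow_left' ?_ 2
        rw [← ofReal_norm, ← ofReal_norm]
        refine ENNReal.ofReal_le_ofReal ?_
        rw [norm_smul, Complex.norm_real, Real.norm_eq_abs]
        refine mul_le_of_le_one_left (norm_nonneg _) ?_
        rw [abs_le]
        constructor <;> linarith [hs.1, hs.2]
      · exact (memLp_two_iff.1 (Lp.memLp w)).2
      · filter_upwards [Z.χ_lim] with s hs
        have c : Continuous fun t : ℝ => ‖((t - 1 : ℝ) : ℂ) • w s‖ₑ ^ 2 :=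
          (ENNReal.continuous_pow 2).comp (by fun_prop)
        have := (c.tendsto 1).comp hs
        simpa [Function.comp_def] using this
    rw [lintegral_zero] at t
    have t2 : Tendsto (fun n => ‖v n - w‖ₑ ^ 2) atTop (𝓝 0) := by
      refine t.congr fun n => ?_
      rw [enorm_sq_eq_of_ae (e n)]
    have t3 := (ENNReal.tendsto_toReal ENNReal.zero_ne_top).comp t2
    have t4 := (Real.continuous_sqrt.tendsto _).comp t3
    rw [tendsto_iff_norm_sub_tendsto_zero]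
    simpa [Function.comp_def] using t4

theorem Pat.deficiency (Z : Pat ν J b G Pg) {sg : ℂ} (hs : sg ∈ ({I, -I} : Set ℂ))
    {w : Lp W 2 ν} (hw : ∀ g ∈ G, ⟪g.2 + sg • g.1, w⟫_ℂ = 0) (hP : ∀ᵐ s ∂ν, Pg s (w s) = w s) :
    w = 0 := by
  obtain ⟨v, vP, hv, hvP, hsum, hle, hlim⟩ := Z.cut_tendsto w
  have key : ∀ n, ‖v n‖ ^ 2 ≤ |Z.δ n| * ‖w‖ ^ 2 := by
    intro n
    choose g C r hg h1 h2 h3 h4 using fun P => Z.piece hw hP n P (hv n) (hvP n P)
    set x : ℕ → Lp W 2 ν × Lp W 2 ν := fun j => ∑ P ∈ Z.fs n, g P j with hx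
    have hxs : ∀ j, x j ∈ Submodule.span ℂ G := fun j =>
      Submodule.sum_mem _ fun P _ => Submodule.subset_span (hg P j)
    have x1 : Tendsto (fun j => (x j).1) atTop (𝓝 (v n)) := by
      rw [← hsum n]
      simp only [hx, Prod.fst_sum]
      exact tendsto_finsetSum _ fun P _ => h1 P
    have x2 : ∀ j, ‖(x j).2‖ ≤ ∑ P ∈ Z.fs n, C P := by
      intro j
      simp only [hx, Prod.snd_sum]
      exact norm_sum_le_of_le _ fun P _ => h2 P j
    have x3 : Tendsto (fun j => ⟪(x j).2 + sg • (x j).1, v n⟫_ℂ) atTop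
        (𝓝 (∑ P ∈ Z.fs n, r P)) := by
      refine (tendsto_finsetSum (Z.fs n) fun P _ => h3 P).congr fun j => ?_
      simp only [hx, Prod.fst_sum, Prod.snd_sum, Finset.smul_sum, ← Finset.sum_add_distrib,
        sum_inner]
    have x4 : ‖∑ P ∈ Z.fs n, r P‖ ≤ Z.δ n * (⟪v n, w⟫_ℂ).re := by
      rw [← hsum n, sum_inner, Complex.re_sum, Finset.mul_sum]
      exact norm_sum_le_of_le _ fun P _ => h4 P
    have real : ∀ j, (⟪(x j).2, (x j).1⟫_ℂ).im = 0 := by
      intro j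
      have a := Z.sym.span (x j) (hxs j) (x j) (hxs j)
      have a2 := congrArg Complex.im a
      rw [← inner_conj_symm (x j).1 (x j).2, Complex.conj_im] at a2
      linarith
    have y1 : Tendsto (fun j => ⟪(x j).2, v n - (x j).1⟫_ℂ) atTop (𝓝 0) := by
      have y0 : Tendsto (fun j => (∑ P ∈ Z.fs n, C P) * ‖v n - (x j).1‖) atTop (𝓝 0) := by
        have := ((tendsto_const_nhds (x := v n)).sub x1).norm.const_mul (∑ P ∈ Z.fs n, C P)
        simpa using this
      refine squeeze_zero_norm (fun j => ?_) y0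
      exact (norm_inner_le_norm _ _).trans (mul_le_mul_of_nonneg_right (x2 j) (norm_nonneg _))
    have y2 : Tendsto (fun j => conj sg * ⟪(x j).1, v n⟫_ℂ) atTop
        (𝓝 (conj sg * ⟪v n, v n⟫_ℂ)) := (x1.inner tendsto_const_nhds).const_mul _
    have y3 := (Complex.continuous_im.tendsto _).comp (y1.add y2)
    have y4 := (Complex.continuous_im.tendsto _).comp x3
    have y5 : (∑ P ∈ Z.fs n, r P).im = (0 + conj sg * ⟪v n, v n⟫_ℂ).im := by
      refine tendsto_nhds_unique y4 (y3.congr fun j => ?_)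
      simp only [Function.comp_apply, inner_add_left, inner_smul_left, inner_sub_right,
        Complex.add_im, Complex.sub_im, real j, sub_zero]
    have y6 : ‖v n‖ ^ 2 ≤ |(∑ P ∈ Z.fs n, r P).im| := by
      rw [y5, zero_add, inner_self_eq_norm_sq_to_K]
      have e : ((‖v n‖ : ℂ)) ^ 2 = ((‖v n‖ ^ 2 : ℝ) : ℂ) := by push_cast; rfl
      rcases hs with rfl | rfl
      · change _ ≤ |(conj I * (‖v n‖ : ℂ) ^ 2).im|
        rw [e]
        simp only [Complex.conj_I, Complex.mul_im, Complex.neg_re, Complex.I_re, Complex.neg_im,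
          Complex.I_im, Complex.ofReal_re, Complex.ofReal_im]
        rw [le_abs]; right; linarith
      · change _ ≤ |(conj (-I) * (‖v n‖ : ℂ) ^ 2).im|
        rw [e]
        simp only [map_neg, Complex.conj_I, neg_neg, Complex.mul_im, Complex.I_re,
          Complex.I_im, Complex.ofReal_re, Complex.ofReal_im]
        rw [le_abs]; left; linarith
    have y7 : |(⟪v n, w⟫_ℂ).re| ≤ ‖w‖ ^ 2 := by
      refine (Complex.abs_re_le_norm _).trans ((norm_inner_le_norm _ _).trans ?_)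
      rw [sq]
      exact mul_le_mul_of_nonneg_right (hle n) (norm_nonneg _)
    calc ‖v n‖ ^ 2 ≤ _ := y6
      _ ≤ _ := Complex.abs_im_le_norm _
      _ ≤ _ := x4
      _ ≤ |Z.δ n * (⟪v n, w⟫_ℂ).re| := le_abs_self _
      _ ≤ _ := by
        rw [abs_mul]
        exact mul_le_mul_of_nonneg_left y7 (abs_nonneg _)
  have l1 : Tendsto (fun n => ‖v n‖ ^ 2) atTop (𝓝 (‖w‖ ^ 2)) := hlim.norm.pow 2
  have l2 : Tendsto (fun n => |Z.δ n| * ‖w‖ ^ 2) atTop (𝓝 (|0| * ‖w‖ ^ 2)) :=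
    Z.δ_lim.abs.mul_const _
  have l3 := le_of_tendsto_of_tendsto' l1 l2 key
  rw [abs_zero, zero_mul] at l3
  have : ‖w‖ ^ 2 = 0 := le_antisymm l3 (sq_nonneg _)
  exact norm_eq_zero.1 (pow_eq_zero_iff two_ne_zero |>.1 this)

theorem Pat.dense (Z : Pat ν J b G Pg) {w : Lp W 2 ν} (hw : Perp G w)
    (hP : ∀ᵐ s ∂ν, Pg s (w s) = w s) : w = 0 := by
  obtain ⟨v, vP, hv, hvP, hsum, hle, hlim⟩ := Z.cut_tendsto w
  have k1 : ∀ n P, ⟪vP n P, w⟫_ℂ = 0 := by
    intro n P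
    obtain ⟨a, K', g, -, -, -, -, hg, ht, -⟩ := Z.approx hP n P (hvP n P)
    have t : Tendsto (fun j => ⟪(g j).1, w⟫_ℂ) atTop (𝓝 ⟪vP n P, w⟫_ℂ) :=
      ht.inner tendsto_const_nhds
    refine tendsto_nhds_unique t (tendsto_const_nhds.congr fun j => ?_)
    exact (hw _ (hg j).1).symm
  have k2 : ∀ n, ⟪v n, w⟫_ℂ = 0 := by
    intro n
    rw [← hsum n, sum_inner]
    exact Finset.sum_eq_zero fun P _ => k1 n P
  have t : Tendsto (fun n => ⟪v n, w⟫_ℂ) atTop (𝓝 ⟪w, w⟫_ℂ) := hlim.inner tendsto_const_nhds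
  have : ⟪w, w⟫_ℂ = 0 := tendsto_nhds_unique t (tendsto_const_nhds.congr fun n => (k2 n).symm)
  exact inner_self_eq_zero.1 this

theorem Pat.essSA (Z : Pat ν J b G Pg) : EssSA G := by
  refine ⟨Z.sym, fun sg hs v => ?_⟩
  obtain ⟨M, hM⟩ := exists_mul (W := W) Z.aesm_Pg (C := 1)
    (Z.proj.mono fun s h => norm_proj_le h.1 h.2)
  have hP : ∀ᵐ s ∂ν, Pg s (M v s) = M v s := by
    filter_upwards [hM v, Z.proj] with s a1 a2
    rw [a1, ← mul_apply_eq_comp, a2.1]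
  have k : ∀ u : Lp W 2 ν, (∀ᵐ s ∂ν, Pg s (u s) = u s) → ⟪u, M v⟫_ℂ = ⟪u, v⟫_ℂ := by
    intro u hu
    rw [inner_eq_of_ae (EventuallyEq.refl _ _) (hM v),
      inner_eq_of_ae (a := u) (b := v) (EventuallyEq.refl _ _) (EventuallyEq.refl _ _)]
    refine integral_congr_ae ?_
    filter_upwards [hu, Z.proj] with s a1 a2
    rw [← ContinuousLinearMap.adjoint_inner_left, ← ContinuousLinearMap.star_eq_adjoint, a2.2, a1]
  have k2 : ∀ g ∈ G, ⟪g.2 + sg • g.1, M v⟫_ℂ = ⟪g.2 + sg • g.1, v⟫_ℂ := by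
    intro g hg
    rw [inner_add_left, inner_add_left, inner_smul_left, inner_smul_left, k _ (Z.val g hg).1,
      k _ (Z.val g hg).2]
  constructor
  · intro h g hg
    have z : M v = 0 := Z.deficiency hs (fun g hg => (k2 g hg).trans (h g hg)) hP
    rw [← k _ (Z.val g hg).1, z, inner_zero_right]
  · intro h g hg
    have z : M v = 0 := Z.dense (fun g hg => (k _ (Z.val g hg).1).trans (h g hg)) hP
    rw [← k2 g hg, z, inner_zero_right]

end Pool.Agent.P.MP_e0a138_an.AD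
end
end

-- part Pool.Agent.P.MP_e0a138_an.GE16
section

set_option autoImplicit false
set_option linter.unusedSectionVars false
set_option linter.unusedVariables false

open MeasureTheory Filter Topology Metric Complex
open scoped ENNReal NNReal ContDiff InnerProductSpace ComplexConjugate

noncomputable section
namespace Pool.Agent.P.MP_e0a138_an.AD

variable {N p q k : ℕ} {W : Type} [NormedAddCommGroup W] [InnerProductSpace ℂ W]
  [FiniteDimensional ℂ W] [CompleteSpace W]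
variable {A : Atl N p q k} {ε : Eu N →L[ℝ] W →L[ℂ] W}

namespace Atl
variable {DF DH : (Eu N → W) → Eu N → W} {μ : Measure (Eu N)}

theorem Dir.chart (hD : A.Dir ε μ DF DH) (i : Fin k) : ∃ ZF ZH : Eu p × Eu q → W →L[ℂ] W,
    ContDiffOn ℝ ∞ ZF (ball 0 1) ∧ ContDiffOn ℝ ∞ ZH (ball 0 1) ∧ ∀ (h : ℝ) u, A.Form ε u →
      ∀ z ∈ ball (0 : Eu p × Eu q) 1, Dh DF DH h u (A.ψ i z) =
        op cb (fun a z => A.sy (clL ε) A.F i a z + (h : ℂ) • A.sy (clL ε) A.H i a z)
          (fun z => ZF z + (h : ℂ) • ZH z) (fun z => u (A.ψ i z)) z := by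
  obtain ⟨ZF, hZF, hF⟩ := hD.opF i
  obtain ⟨ZH, hZH, hH⟩ := hD.opH i
  refine ⟨ZF, ZH, hZF, hZH, fun h u hu z hz => ?_⟩
  have e : Dh DF DH h u (A.ψ i z) = DF u (A.ψ i z) + (h : ℂ) • DH u (A.ψ i z) := rfl
  rw [e, hF u hu z hz, hH u hu z hz]
  simp only [op, add_apply, smul_apply,
    Finset.sum_add_distrib, smul_add, Finset.smul_sum]
  abel

theorem Dir.grM_val (hD : A.Dir ε μ DF DH) (hμ : A.IsVol μ) (h : ℝ) :
    ∀ g ∈ A.grM ε μ (Dh DF DH h), (∀ᵐ m ∂μ, A.Pi ε m (g.1 m) = g.1 m) ∧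
      ∀ᵐ m ∂μ, A.Pi ε m (g.2 m) = g.2 m := by
  rintro g ⟨u, hu, h1, h2⟩
  constructor
  · filter_upwards [hμ.ae_mem, h1] with m hm e
    rw [e]; exact hu.2 m hm
  · filter_upwards [hμ.ae_mem, h2] with m hm e
    rw [e]; exact (hD.form h hu).2 m hm

theorem GE16_coef (hε : IsCAR ε) (h : ℝ) (i : Fin k) {B : Eu p × Eu q → W →L[ℂ] W}
    (hB : ContDiffOn ℝ ∞ B (ball 0 1)) :
    Coef (ball (0 : Eu p × Eu q) 1)
      (fun a z => A.sy (clL ε) A.F i a z + (h : ℂ) • A.sy (clL ε) A.H i a z) B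
      (fun z => A.Pi ε (A.ψ i z)) (A.rho i) where
  isOpen := isOpen_ball
  hA := fun a => (smooth_sy _ A.subB_F i a).add ((smooth_sy _ A.subB_H i a).const_smul (h : ℂ))
  hB := hB
  hP := contDiffOn_iff.1 (A.smooth_Pi hε) i
  hρ := rho_smooth i
  pos := fun z hz => rho_pos i hz
  idem := fun z hz => Pi_idem _
  sa := fun z hz => Pi_star _
  skew := fun a z hz => by
    simp only [sy, clL_apply, star_add, star_smul, cl_star, Complex.star_def, conj_ofReal,
      smul_neg, neg_add]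
  comm := fun a z hz => by
    rw [add_mul, mul_add, smul_mul_assoc, mul_smul_comm, (sy_comm hε A.subB_F i a hz).2.2,
      (sy_comm hε A.subB_H i a hz).2.2]

theorem GE16_test (hD : A.Dir ε μ DF DH) (hμ : A.IsVol μ) (h : ℝ) (i : Fin k)
    {S : Fin p ⊕ Fin q → Eu p × Eu q → W →L[ℂ] W} {B : Eu p × Eu q → W →L[ℂ] W}
    (hB : ∀ u, A.Form ε u → ∀ z ∈ ball (0 : Eu p × Eu q) 1, Dh DF DH h u (A.ψ i z) =
      op cb S B (fun z => u (A.ψ i z)) z)
    (a : Eu p × Eu q → W) (ha : Tst (ball 0 1) (fun z => A.Pi ε (A.ψ i z)) a) :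
    ∃ g ∈ A.grM ε μ (Dh DF DH h),
      g.1 =ᵐ[μ] (A.ψ i '' ball 0 1).indicator (fun s => a (A.φ i s)) ∧
      g.2 =ᵐ[μ] (A.ψ i '' ball 0 1).indicator fun s => op cb S B a (A.φ i s) := by
  obtain ⟨h1, h2, h3, h4⟩ := ha
  obtain ⟨r, hr0, hr1, hr⟩ := exists_closedBall_of_cpt h2 h3
  have h0 : ∀ z ∈ ball (0 : Eu p × Eu q) 1, z ∉ closedBall (0 : Eu p × Eu q) r → a z = 0 :=
    fun z _ hz => image_eq_zero_of_notMem_tsupport fun hh => hz (hr hh)
  obtain ⟨hu, hl⟩ := ext_form (A := A) (ε := ε) i h1.contDiffOn hr1 h0 fun z _ => h4 z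
  refine ⟨_, hD.mem_grM hμ h hu, ?_, ?_⟩
  · filter_upwards [hμ.ae_mem, toL_ae (hμ.memLp hu.1.continuousOn)] with m hm e
    rw [e, A.image]
    by_cases hU : m ∈ A.U i
    · rw [Set.indicator_of_mem (Set.mem_inter hm hU), ext, Set.indicator_of_mem hU]
    · rw [Set.indicator_of_notMem (fun hh => hU hh.2), ext, Set.indicator_of_notMem hU]
  · filter_upwards [hμ.ae_mem, toL_ae (hμ.memLp (hD.form h hu).1.continuousOn)] with m hm e
    rw [e, A.image]
    by_cases hU : m ∈ A.U i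
    · rw [Set.indicator_of_mem (Set.mem_inter hm hU)]
      obtain ⟨hz, hm'⟩ := φ_mem hm hU
      have := hB _ hu _ hz
      rw [hm'] at this
      rw [this]
      refine op_congr ?_
      filter_upwards [isOpen_ball.mem_nhds hz] with y hy using ext_chart i a hy
    · rw [Set.indicator_of_notMem (fun hh => hU hh.2)]
      obtain ⟨r1, hr1, e1⟩ := hD.opF.loc hu hl
      obtain ⟨r2, hr2, e2⟩ := hD.opH.loc hu hl
      have e3 : Dh DF DH h (A.ext i a) m = DF (A.ext i a) m + (h : ℂ) • DH (A.ext i a) m := rfl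
      rw [e3, (chart_zero hr1 e1).2 m hm hU, (chart_zero hr2 e2).2 m hm hU, smul_zero, add_zero]

theorem GE16_theta {m : Eu N} (hm : m ∈ A.M) (i : Fin k) :
    (A.ψ i '' ball 0 1).indicator (fun s => A.χ i s ^ 2) m = A.χ i m ^ 2 := by
  refine Set.indicator_apply_eq_self.2 fun hh => ?_
  rw [A.image] at hh
  by_contra h0
  exact hh ⟨hm, mem_U_of_χ hm fun h1 => h0 (by rw [h1]; simp)⟩

theorem Dir.essSA_M (hD : A.Dir ε μ DF DH) (hε : IsCAR ε) (hμ : A.IsVol μ) (h : ℝ) :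
    EssSA (A.grM ε μ (Dh DF DH h)) := by
  choose ZF ZH hZF hZH hZ using hD.chart
  obtain ⟨r, hr0, hr1, hr⟩ := A.exists_r
  refine Pat.essSA (J := Fin k) (b := (cb : Fin p ⊕ Fin q → Eu p × Eu q)) (Pg := A.Pi ε)
    { O := fun _ => ball 0 1
      γ := A.ψ
      π := A.φ
      A := fun i a z => A.sy (clL ε) A.F i a z + (h : ℂ) • A.sy (clL ε) A.H i a z
      B := fun i z => ZF i z + (h : ℂ) • ZH i z
      ρ := A.rho
      θ := fun i => (A.ψ i '' ball 0 1).indicator fun s => A.χ i s ^ 2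
      K := fun _ => closedBall 0 r
      χ := fun _ _ => 1
      fs := fun _ => Finset.univ
      δ := fun _ => 0
      cnt := inferInstance
      coef := fun i => GE16_coef hε h i ((hZF i).add ((hZH i).const_smul (h : ℂ)))
      emb := fun i => hμ.emb i
      inv := fun i z hz => A.left_inv i z hz
      cover := hμ.cover
      test := fun i a ha => GE16_test hD hμ h i (hZ i h) a ha
      val := hD.grM_val hμ h
      sym := hD.sym hμ h
      K_cpt := fun _ => isCompact_closedBall _ _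
      K_sub := fun _ => closedBall_subset_ball hr1
      θ_nonneg := fun i s => Set.indicator_nonneg (fun _ _ => sq_nonneg _) s
      θ_supp := fun i s hs => ?_
      θ_smooth := fun i => ?_
      χ_smooth := fun _ _ => contDiffOn_const
      χ_mem := fun _ => Eventually.of_forall fun _ => ⟨zero_le_one, le_rfl⟩
      χ_sum := fun _ => ?_
      χ_lim := Eventually.of_forall fun _ => tendsto_const_nhds
      δ_lim := tendsto_const_nhds
      grad := fun _ _ _ _ => by simp }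
  · refine Set.indicator_apply_eq_zero.2 fun hh => ?_
    rw [A.image] at hh
    rw [hr i s hh.1 hs]; simp
  · refine (((A.χ_smooth i).comp (A.ψ_smooth i)).pow 2).contDiffOn.congr fun z hz => ?_
    exact GE16_theta (ψ_mem i hz).1 i
  · filter_upwards [hμ.ae_mem] with m hm
    simp only [one_mul, GE16_theta hm]
    exact A.χ_sum m hm

theorem Dir.inK_val (hD : A.Dir ε μ DF DH) (hε : IsCAR ε) (hμ : A.IsVol μ) (h : ℝ) {v : Lp W 2 μ}
    (hv : InK (A.grM ε μ (Dh DF DH h)) v) : ∀ᵐ m ∂μ, A.Pi ε m (v m) = v m :=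
  proj_val (hμ.aesm (A.smooth_Pi hε).continuousOn)
    (Eventually.of_forall fun m => ⟨Pi_idem m, Pi_star m⟩)
    (fun g hg => (hD.grM_val hμ h g hg).1) hv

end Atl

end Pool.Agent.P.MP_e0a138_an.AD
end
end

-- part Pool.Agent.P.MP_e0a138_an.GE25a
section

set_option autoImplicit false
set_option linter.unusedSectionVars false
set_option linter.unusedVariables false

open MeasureTheory Filter Topology Metric Complex
open scoped ENNReal NNReal ContDiff InnerProductSpace ComplexConjugate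

noncomputable section
namespace Pool.Agent.P.MP_e0a138_an.AD

variable {N p q k : ℕ} {W : Type} [NormedAddCommGroup W] [InnerProductSpace ℂ W]
  [FiniteDimensional ℂ W] [CompleteSpace W]
variable {A : Atl N p q k} {ε : Eu N →L[ℝ] W →L[ℂ] W}

theorem ge25a_en {a b c d : W} {C : ℝ≥0} {ρ : ℝ} (hρ : 0 ≤ ρ)
    (h : ‖a‖ ^ 2 + ‖b‖ ^ 2 ≤ C * (ρ * (‖c‖ ^ 2 + ‖d‖ ^ 2))) :
    ‖a‖ₑ ^ 2 + ‖b‖ₑ ^ 2 ≤ C * (ENNReal.ofReal ρ * (‖c‖ₑ ^ 2 + ‖d‖ₑ ^ 2)) := by
  have e : ∀ x : W, ‖x‖ₑ ^ 2 = ENNReal.ofReal (‖x‖ ^ 2) := fun x => by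
    rw [ENNReal.ofReal_pow (norm_nonneg _), ofReal_norm]
  rw [e, e, e, e, ← ENNReal.ofReal_add (by positivity) (by positivity),
    ← ENNReal.ofReal_add (by positivity) (by positivity), ← ENNReal.ofReal_mul hρ,
    ← ENNReal.ofReal_coe_nnreal, ← ENNReal.ofReal_mul C.coe_nonneg]
  exact ENNReal.ofReal_le_ofReal h

theorem ge25a_bd {X G : Type} [TopologicalSpace X] [NormedAddCommGroup G] {K : Set X}
    (hK : IsCompact K) {f : X → G} (hf : ContinuousOn f K) :
    ∀ᶠ B : ℝ in atTop, ∀ z ∈ K, ‖f z‖ ≤ B := by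
  obtain ⟨C, hC⟩ := hK.exists_bound_of_continuousOn hf
  filter_upwards [eventually_ge_atTop C] with B hB z hz using (hC z hz).trans hB

theorem ge25a_op {P Q : W →L[ℂ] W} {B h : ℝ} (hh : h ∈ Set.Icc (0 : ℝ) 1) (hP : ‖P‖ ≤ B)
    (hQ : ‖Q‖ ≤ B) (x : W) : ‖(P + (h : ℂ) • Q) x‖ ≤ 2 * B * ‖x‖ := by
  refine ((P + (h : ℂ) • Q).le_opNorm x).trans (mul_le_mul_of_nonneg_right ?_ (norm_nonneg _))
  refine (norm_add_le _ _).trans ?_
  rw [norm_smul, Complex.norm_real, Real.norm_eq_abs, abs_of_nonneg hh.1]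
  have := mul_le_mul hh.2 hQ (norm_nonneg _) zero_le_one
  linarith

namespace Atl
variable {DF DH : (Eu N → W) → Eu N → W} {μ : Measure (Eu N)}

theorem Dir.loc_op (hD : A.Dir ε μ DF DH) (hμ : A.IsVol μ) (i : Fin k) : ∃ C : ℝ≥0,
    ∀ h ∈ Set.Icc (0 : ℝ) 1, ∀ u, A.Form ε u →
      (∫⁻ z, ‖∑ a, cl ε (A.wh h i a z) (fderiv ℝ (A.loc i u) z (cbh h a))‖ₑ ^ 2) +
        ∫⁻ z, ‖A.loc i u z‖ₑ ^ 2 ≤
        C * (∫⁻ m, ‖u m‖ₑ ^ 2 ∂μ + ∫⁻ m, ‖Dh DF DH h u m‖ₑ ^ 2 ∂μ) := by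
  obtain ⟨r, hr0, hr1, hk⟩ := A.kap_props
  obtain ⟨ks, k0⟩ := hk i
  obtain ⟨ZF, ZH, sF, sH, hZ⟩ := hD.chart i
  have hK : IsCompact (closedBall (0 : Eu p × Eu q) r) := isCompact_closedBall _ _
  have hKO : closedBall (0 : Eu p × Eu q) r ⊆ ball 0 1 := closedBall_subset_ball hr1
  obtain ⟨z0, hz0, hmin⟩ := hK.exists_isMinOn ⟨0, mem_closedBall_self hr0.le⟩
    (rho_continuous (A := A) i).continuousOn
  have hc0 : 0 < A.rho i z0 := rho_pos i (hKO hz0)
  have b1 := ge25a_bd hK ks.continuous.continuousOn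
  have b2 := ge25a_bd hK (ks.continuous_fderiv (by simp)).continuousOn
  have b3 := ge25a_bd hK (sF.continuousOn.mono hKO)
  have b4 := ge25a_bd hK (sH.continuousOn.mono hKO)
  have b5 := eventually_all.2 fun a =>
    ge25a_bd hK ((smooth_sy (clL ε) A.subB_F i a).continuousOn.mono hKO)
  have b6 := eventually_all.2 fun a =>
    ge25a_bd hK ((smooth_sy (clL ε) A.subB_H i a).continuousOn.mono hKO)
  obtain ⟨B, ⟨⟨b1, b2⟩, b3, b4⟩, ⟨b5, b6⟩, hB⟩ :=
    (((b1.and b2).and (b3.and b4)).and ((b5.and b6).and (eventually_ge_atTop 0))).exists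
  obtain ⟨M, hM⟩ : ∃ M : ℝ, M = B + Fintype.card (Fin p ⊕ Fin q) * (B * (2 * B)) + 2 * B * B :=
    ⟨_, rfl⟩
  have hM0 : 0 ≤ M := by rw [hM]; positivity
  obtain ⟨C, hC⟩ : ∃ C : ℝ≥0, (C : ℝ) = (2 * M ^ 2 + B ^ 2) / A.rho i z0 :=
    ⟨⟨_, by positivity⟩, rfl⟩
  refine ⟨C, fun h hh u hu => ?_⟩
  have key : ∀ z, ‖∑ a, cl ε (A.wh h i a z) (fderiv ℝ (A.loc i u) z (cbh h a))‖ₑ ^ 2 +
      ‖A.loc i u z‖ₑ ^ 2 ≤ (ball (0 : Eu p × Eu q) 1).indicator (fun z => (C : ℝ≥0∞) *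
        (ENNReal.ofReal (A.rho i z) * (‖u (A.ψ i z)‖ₑ ^ 2 + ‖Dh DF DH h u (A.ψ i z)‖ₑ ^ 2))) z := by
    intro z
    have l0 : ∀ x ∈ (Set.univ : Set (Eu p × Eu q)), x ∉ closedBall (0 : Eu p × Eu q) r →
        A.loc i u x = 0 := fun x _ hx => by simp [loc, k0 x hx]
    by_cases hz : z ∈ closedBall (0 : Eu p × Eu q) r
    swap
    · rw [fderiv_eq_zero_of_closed isOpen_univ isClosed_closedBall l0 trivial hz, l0 z trivial hz]
      simp
    have hzO := hKO hz
    rw [Set.indicator_of_mem hzO]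
    refine ge25a_en (rho_nonneg i z) ?_
    have dk : DifferentiableAt ℝ (A.kap i) z := ks.differentiable (by simp) z
    have dc : DifferentiableAt ℝ (fun y => (A.kap i y : ℂ)) z :=
      ofRealCLM.differentiableAt.comp z dk
    have du := diffAt_of_contDiffOn isOpen_ball (hu.chart i).1 hzO
    have e1 := op_smul (b := cb)
      (A := fun a z => A.sy (clL ε) A.F i a z + (h : ℂ) • A.sy (clL ε) A.H i a z)
      (B := fun z => ZF z + (h : ℂ) • ZH z) dc du
    rw [← hZ h u hu z hzO, op, wh_symbol ε h i hzO] at e1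
    have e2 : ∑ a, cl ε (A.wh h i a z) (fderiv ℝ (A.loc i u) z (cbh h a)) =
        (A.kap i z : ℂ) • Dh DF DH h u (A.ψ i z) +
          ∑ a, fderiv ℝ (fun y => (A.kap i y : ℂ)) z (cb a) •
            (A.sy (clL ε) A.F i a z + (h : ℂ) • A.sy (clL ε) A.H i a z) (u (A.ψ i z)) -
          (ZF z + (h : ℂ) • ZH z) (A.loc i u z) := eq_sub_of_add_eq e1
    have n1 : ∀ x : W, ‖(A.kap i z : ℂ) • x‖ ≤ B * ‖x‖ := fun x => by
      rw [norm_smul, Complex.norm_real]
      exact mul_le_mul_of_nonneg_right (b1 z hz) (norm_nonneg _)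
    have n2 : ‖A.loc i u z‖ ≤ B * ‖u (A.ψ i z)‖ := n1 _
    have n3 : ‖∑ a, fderiv ℝ (fun y => (A.kap i y : ℂ)) z (cb a) •
        (A.sy (clL ε) A.F i a z + (h : ℂ) • A.sy (clL ε) A.H i a z) (u (A.ψ i z))‖ ≤
        Fintype.card (Fin p ⊕ Fin q) * (B * (2 * B * ‖u (A.ψ i z)‖)) := by
      refine (norm_sum_le _ _).trans ?_
      rw [← nsmul_eq_mul, ← Finset.card_univ]
      refine Finset.sum_le_card_nsmul _ _ _ fun a _ => ?_
      rw [norm_smul, fderiv_ofReal dk, Complex.norm_real]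
      refine mul_le_mul ?_ (ge25a_op hh (b5 a z hz) (b6 a z hz) _) (norm_nonneg _) hB
      refine ((fderiv ℝ (A.kap i) z).le_opNorm _).trans ?_
      have := mul_le_mul (b2 z hz) (norm_cb_le a) (norm_nonneg _) hB
      linarith
    have n4 := (ge25a_op hh (b3 z hz) (b4 z hz) (A.loc i u z)).trans
      (mul_le_mul_of_nonneg_left n2 (by positivity))
    have n5 := n1 (Dh DF DH h u (A.ψ i z))
    have n6 := (norm_sub_le _ _).trans (add_le_add ((norm_add_le _ _).trans (add_le_add n5 n3)) n4)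
    rw [← e2] at n6
    have x0 := norm_nonneg (u (A.ψ i z))
    have y0 := norm_nonneg (Dh DF DH h u (A.ψ i z))
    have m1 : B ≤ M := by
      have : 0 ≤ Fintype.card (Fin p ⊕ Fin q) * (B * (2 * B)) + 2 * B * B := by positivity
      linarith
    have n7 : ‖∑ a, cl ε (A.wh h i a z) (fderiv ℝ (A.loc i u) z (cbh h a))‖ ≤
        M * (‖u (A.ψ i z)‖ + ‖Dh DF DH h u (A.ψ i z)‖) := by
      have a1 := mul_le_mul_of_nonneg_right m1 y0
      have a2 : M * ‖u (A.ψ i z)‖ = B * ‖u (A.ψ i z)‖ +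
          Fintype.card (Fin p ⊕ Fin q) * (B * (2 * B * ‖u (A.ψ i z)‖)) +
          2 * B * (B * ‖u (A.ψ i z)‖) := by rw [hM]; ring
      have a3 := mul_nonneg hB x0
      linarith
    have n8 := pow_le_pow_left₀ (norm_nonneg _) n7 2
    have n9 := pow_le_pow_left₀ (norm_nonneg _) n2 2
    have r1 : 2 * M ^ 2 + B ^ 2 ≤ C * A.rho i z := by
      rw [hC, div_mul_eq_mul_div, le_div_iff₀ hc0]
      exact mul_le_mul_of_nonneg_left (hmin hz) (by positivity)
    have r2 := mul_le_mul_of_nonneg_right r1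
      (by positivity : 0 ≤ ‖u (A.ψ i z)‖ ^ 2 + ‖Dh DF DH h u (A.ψ i z)‖ ^ 2)
    have r3 := mul_nonneg (sq_nonneg M) (sq_nonneg (‖u (A.ψ i z)‖ - ‖Dh DF DH h u (A.ψ i z)‖))
    have r4 := mul_nonneg (sq_nonneg B) (sq_nonneg ‖Dh DF DH h u (A.ψ i z)‖)
    linarith
  refine (le_lintegral_add _ _).trans ((lintegral_mono key).trans ?_)
  rw [lintegral_indicator measurableSet_ball, lintegral_const_mul' _ _ ENNReal.coe_ne_top,
    ← lintegral_wm measurableSet_ball (rho_continuous i).continuousOn,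
    ← lintegral_add_left' ((hμ.aesm hu.1.continuousOn).enorm.pow_const 2)]
  exact mul_le_mul_right (hμ.lintegral_le i fun m => ‖u m‖ₑ ^ 2 + ‖Dh DF DH h u m‖ₑ ^ 2) _

end Atl

end Pool.Agent.P.MP_e0a138_an.AD
end
end

-- part Pool.Agent.P.MP_e0a138_an.AN9
section

set_option autoImplicit false
set_option linter.unusedSectionVars false
set_option linter.unusedVariables false

open MeasureTheory Filter Topology Metric Complex
open scoped ENNReal NNReal ContDiff InnerProductSpace ComplexConjugate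

noncomputable section
namespace Pool.Agent.P.MP_e0a138_an.AD

variable {N p q k : ℕ} {W : Type} [NormedAddCommGroup W] [InnerProductSpace ℂ W]
  [FiniteDimensional ℂ W] [CompleteSpace W]

theorem AN9_smul {c : ℝ} (hc : 0 < c) (g : Eu q → ℝ≥0∞) :
    ∫⁻ η, g η = ENNReal.ofReal (c ^ q) * ∫⁻ ζ, g (c • ζ) := by
  have he : MeasurableEmbedding fun ζ : Eu q => c • ζ :=
    (Homeomorph.smulOfNeZero c hc.ne').measurableEmbedding
  rw [← he.lintegral_map, Measure.map_addHaar_smul volume hc.ne', lintegral_smul_measure,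
    finrank_Eu, smul_eq_mul, ← mul_assoc, ← ENNReal.ofReal_mul (by positivity),
    abs_of_pos (by positivity), mul_inv_cancel₀ (by positivity), ENNReal.ofReal_one, one_mul]

theorem lintegral_scale {h : ℝ} (hh : 0 < h) {f : Eu p × Eu q × Eu q → ℝ≥0∞} (hf : Measurable f) :
    ∫⁻ o, f o = ENNReal.ofReal ((2 * Real.pi * h) ^ q) *
      ∫⁻ y, ∫⁻ ζ : Eu p × Eu q, f (ζ.1, y, (2 * Real.pi * h) • ζ.2) := by
  have hc : 0 < 2 * Real.pi * h := by positivity
  set c := 2 * Real.pi * h with hcd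
  have hm : Measurable fun o : Eu p × Eu q × Eu q => f (o.1, o.2.1, c • o.2.2) := by
    refine hf.comp ?_
    fun_prop
  have e1 : ∫⁻ o, f o = ∫⁻ ξ, ∫⁻ y, ∫⁻ η, f (ξ, y, η) := by
    rw [Measure.volume_eq_prod, lintegral_prod _ hf.aemeasurable]
    refine lintegral_congr fun ξ => ?_
    rw [Measure.volume_eq_prod, lintegral_prod _ (by fun_prop)]
  have e2 : ∀ y : Eu q, ∫⁻ ζ : Eu p × Eu q, f (ζ.1, y, c • ζ.2) =
      ∫⁻ ξ, ∫⁻ η, f (ξ, y, c • η) := by
    intro y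
    rw [Measure.volume_eq_prod, lintegral_prod]
    refine (hf.comp ?_).aemeasurable
    fun_prop
  simp only [e2]
  rw [e1, lintegral_lintegral_swap, ← lintegral_const_mul' _ _ ENNReal.ofReal_ne_top]
  · refine lintegral_congr fun y => ?_
    rw [← lintegral_const_mul' _ _ ENNReal.ofReal_ne_top]
    refine lintegral_congr fun ξ => ?_
    exact AN9_smul hc _
  · refine Measurable.aemeasurable ?_
    refine Measurable.lintegral_prod_right' (f := fun o : (Eu p × Eu q) × Eu q =>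
      f (o.1.1, o.1.2, o.2)) ?_
    refine hf.comp ?_
    fun_prop

theorem Lam_frame {β : Eu q → ℝ} (hβ : Continuous β) (hc : HasCompactSupport β)
    (hn : ∫ y, β y ^ 2 = 1) {h : ℝ} (hh : 0 < h) {G : Eu p × Eu q → W} (h1 : Integrable G)
    (h2 : MemLp G 2 volume) :
    ∫⁻ o, ‖Lam β h G o‖ₑ ^ 2 = ENNReal.ofReal ((2 * Real.pi * h) ^ q) * ∫⁻ z, ‖G z‖ₑ ^ 2 := by
  have hcp : 0 < 2 * Real.pi * h := by positivity
  obtain ⟨C, hC⟩ := hβ.bounded_above_of_compact_support hc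
  have hbc : Continuous fun o : Eu q × Eu q => bw β h o.1 (ContinuousLinearMap.id ℝ _) o.2 := by
    unfold bw
    fun_prop
  have hbb : ∀ y Y, ‖bw β h y (ContinuousLinearMap.id ℝ _) Y‖ ≤ ‖(√(sc h ^ q))⁻¹‖ * C := by
    intro y Y
    rw [bw, norm_mul]
    exact mul_le_mul_of_nonneg_left (hC _) (norm_nonneg _)
  have hmeas : ∀ y, AEStronglyMeasurable
      (fun z : Eu p × Eu q => (bw β h y (ContinuousLinearMap.id ℝ _) z.2 : ℂ) • G z) volume := by
    intro y
    refine AEStronglyMeasurable.smul (Continuous.aestronglyMeasurable ?_) h1.1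
    exact continuous_ofReal.comp (hbc.comp (continuous_const.prodMk continuous_snd))
  have hle : ∀ y, ∀ᵐ z : Eu p × Eu q,
      ‖(bw β h y (ContinuousLinearMap.id ℝ _) z.2 : ℂ) • G z‖ ≤
        (‖(√(sc h ^ q))⁻¹‖ * C) * ‖G z‖ := by
    intro y
    refine Eventually.of_forall fun z => ?_
    rw [norm_smul, Complex.norm_real]
    exact mul_le_mul_of_nonneg_right (hbb _ _) (norm_nonneg _)
  rw [lintegral_scale hh ((Lam_continuous hβ hc h h1).enorm.measurable.pow_const 2)]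
  congr 1
  have e1 : ∀ y : Eu q, ∫⁻ ζ : Eu p × Eu q,
      ‖Lam β h G (ζ.1, y, (2 * Real.pi * h) • ζ.2)‖ₑ ^ 2 =
      ∫⁻ z : Eu p × Eu q, ‖bw β h y (ContinuousLinearMap.id ℝ _) z.2‖ₑ ^ 2 * ‖G z‖ₑ ^ 2 := by
    intro y
    have i1 : Integrable
        (fun z : Eu p × Eu q => (bw β h y (ContinuousLinearMap.id ℝ _) z.2 : ℂ) • G z) :=
      Integrable.mono' (h1.norm.const_mul _) (hmeas y) (hle y)
    have i2 := MemLp.of_le_mul h2 (hmeas y) (hle y)
    have := plancherel2 i1 i2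
    simp only [norm_Lam β hh, smul_smul, inv_mul_cancel₀ hcp.ne', one_smul, Prod.mk.eta]
    rw [this]
    refine lintegral_congr fun z => ?_
    rw [enorm_smul, mul_pow]
    congr 2
    simp only [← ofReal_norm, Complex.norm_real]
  simp only [e1]
  have hG : AEMeasurable (fun z => ‖G z‖ₑ ^ 2) volume := h1.1.enorm.pow_const 2
  rw [lintegral_lintegral_swap]
  · refine lintegral_congr fun z => ?_
    rw [lintegral_mul_const' _ _ (ENNReal.pow_ne_top enorm_ne_top), integral_bw_sq' hβ hh,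
      lintegral_window hβ hc, hn, ENNReal.ofReal_one, one_mul]
  · refine AEMeasurable.mul ?_ (hG.comp_snd)
    refine Measurable.aemeasurable (Measurable.pow_const (Measurable.enorm ?_) 2)
    exact (hbc.comp (continuous_fst.prodMk (continuous_snd.comp continuous_snd))).measurable

end Pool.Agent.P.MP_e0a138_an.AD
end
end

-- part Pool.Agent.P.MP_e0a138_an.GE22c
section

set_option autoImplicit false
set_option linter.unusedSectionVars false
set_option linter.unusedVariables false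

open MeasureTheory Filter Topology Metric Complex
open scoped ENNReal NNReal ContDiff InnerProductSpace ComplexConjugate

noncomputable section
namespace Pool.Agent.P.MP_e0a138_an.AD

variable {N p q k : ℕ} {W : Type} [NormedAddCommGroup W] [InnerProductSpace ℂ W]
  [FiniteDimensional ℂ W] [CompleteSpace W]
variable {A : Atl N p q k} {ε : Eu N →L[ℝ] W →L[ℂ] W}

namespace Atl
variable {μ : Measure (Eu N)}

theorem wv_sum (hε : IsCAR ε) (hμ : A.IsVol μ) {β : Eu q → ℝ} (hβ : Continuous β)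
    (hc : HasCompactSupport β) (h : ℝ) {a : Eu p × Eu q × Eu q → ℝ≥0∞} (ha : Measurable a)
    {v : Lp W 2 μ} {u : Eu N → W} (hv : v =ᵐ[μ] u) (hP : ∀ᵐ m ∂μ, A.Pi ε m (u m) = u m) :
    ∑ j, ∫⁻ o, a o * ‖⟪A.wv ε μ β h j o, v⟫_ℂ‖ₑ ^ 2 =
      ∑ i, ∫⁻ o, a o * ‖Lam β h (A.loc i u) o‖ₑ ^ 2 := by
  rw [Fintype.sum_prod_type]
  refine Finset.sum_congr rfl fun i _ => ?_
  have hae : (fun m => A.Pi ε m (v m)) =ᵐ[μ] u := by
    filter_upwards [hv, hP] with m h1 h2
    rw [h1, h2]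
  have hL : ∀ o, Lam β h (A.loc i fun m => A.Pi ε m (v m)) o = Lam β h (A.loc i u) o := by
    intro o
    refine integral_congr_ae ?_
    filter_upwards [loc_congr hμ i hae] with z hz
    rw [hz]
  rw [← lintegral_finsetSum]
  · refine lintegral_congr fun o => ?_
    rw [← Finset.mul_sum, ← sum_basis_enorm, ← hL]
    simp only [wv_inner hε hμ hβ hc]
  · intro e _
    exact ha.mul ((wv_measurable hε hμ hβ hc h (i, e) v).enorm.pow_const 2)

theorem wv_frame (hε : IsCAR ε) (hμ : A.IsVol μ) {β : Eu q → ℝ} (hβ : Continuous β)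
    (hc : HasCompactSupport β) (hn : ∫ y, β y ^ 2 = 1) {h : ℝ} (hh : 0 < h) {v : Lp W 2 μ}
    (hP : ∀ᵐ m ∂μ, A.Pi ε m (v m) = v m) : ∑ j, ∫⁻ o, ‖⟪A.wv ε μ β h j o, v⟫_ℂ‖ₑ ^ 2 =
      ENNReal.ofReal ((2 * Real.pi * h) ^ q) * ‖v‖ₑ ^ 2 := by
  have h1 := wv_sum hε hμ hβ hc h (a := fun _ => 1) measurable_const (v := v)
    EventuallyEq.rfl hP
  simp only [one_mul] at h1
  have h2 : ∀ i, ∫⁻ o, ‖Lam β h (A.loc i v) o‖ₑ ^ 2 = ENNReal.ofReal ((2 * Real.pi * h) ^ q) *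
      ∫⁻ m, ‖(A.χ i m : ℂ) • v m‖ₑ ^ 2 ∂μ := by
    intro i
    obtain ⟨a2, a1⟩ := loc_memLp hμ i (Lp.memLp v)
    rw [Lam_frame hβ hc hn hh a1 a2, loc_lintegral hμ]
  rw [h1]
  simp only [h2]
  rw [← Finset.mul_sum, enorm_sq_eq_of_ae (EventuallyEq.rfl (f := v)), ← lintegral_finsetSum']
  · congr 1
    refine lintegral_congr_ae ?_
    filter_upwards [hμ.ae_mem] with m hm
    have h3 : ∀ i, ‖(A.χ i m : ℂ) • v m‖ₑ ^ 2 = ENNReal.ofReal (A.χ i m ^ 2) * ‖v m‖ₑ ^ 2 := by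
      intro i
      rw [enorm_smul, mul_pow, ← ofReal_norm (A.χ i m : ℂ),
        ← ENNReal.ofReal_pow (norm_nonneg _), Complex.norm_real, Real.norm_eq_abs, sq_abs]
    simp only [h3]
    rw [← Finset.sum_mul, ← ENNReal.ofReal_sum_of_nonneg fun i _ => sq_nonneg _, A.χ_sum m hm,
      ENNReal.ofReal_one, one_mul]
  · intro i _
    exact ((continuous_ofReal.comp (A.χ_smooth i).continuous).aestronglyMeasurable.smul
      (Lp.aestronglyMeasurable v)).enorm.pow_const 2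

theorem wv_bound (hε : IsCAR ε) (hμ : A.IsVol μ) {β : Eu q → ℝ} (hβ : Continuous β)
    (hc : HasCompactSupport β) : ∃ C : ℝ≥0, ∀ᶠ h in 𝓝[>] (0 : ℝ), ∀ j o,
      ‖A.wv ε μ β h j o‖ₑ ^ 2 ≤ C ∧ (o.2.1 ∉ ball (0 : Eu q) 1 → A.wv ε μ β h j o = 0) := by
  obtain ⟨r, C₀, hr, hu⟩ := uf_props A hε
  choose C hC using fun i => pk_bound (W := W) hμ hβ hc i (ContinuousLinearEquiv.refl ℝ (Eu q))
  refine ⟨(∑ i, C i) * C₀ ^ 2, ?_⟩
  filter_upwards [pk_vanish (A := A) (W := W) hc hr, self_mem_nhdsWithin] with h hvan hh j o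
  obtain ⟨u1, u2, u3, u4⟩ := hu j.1 o.1 (stdOrthonormalBasis ℂ W j.2)
  have hae := toL_ae (hμ.memLp (pk_continuousOn hβ h (j.1, o.2) (ContinuousLinearMap.id ℝ _)
    u1.1.continuousOn))
  refine ⟨?_, fun ho => ?_⟩
  · rw [wv, enorm_sq_eq_of_ae hae]
    refine (hC j.1 _ C₀ h o.2.1 o.2.2 hh
      (u4 ((stdOrthonormalBasis ℂ W).orthonormal.1 j.2).le) (chart_zero hr u3).2).trans ?_
    push_cast
    gcongr
    exact Finset.single_le_sum (f := fun i => (C i : ℝ≥0∞)) (fun _ _ => zero_le)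
      (Finset.mem_univ j.1)
  · refine Lp.ext ?_
    filter_upwards [hae, hμ.ae_mem, Lp.coeFn_zero W 2 μ] with m h1 hm h2
    rw [h2, wv, h1]
    exact hvan j.1 o.2.1 o.2.2 _ ho u3 m hm

end Atl

end Pool.Agent.P.MP_e0a138_an.AD
end
end

-- part Pool.Agent.P.MP_e0a138_an.AN7a
section

set_option autoImplicit false
set_option linter.unusedSectionVars false
set_option linter.unusedVariables false

open MeasureTheory Filter Topology Metric Complex
open scoped ENNReal NNReal ContDiff InnerProductSpace ComplexConjugate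

noncomputable section
namespace Pool.Agent.P.MP_e0a138_an.AD

variable {N p q k : ℕ} {W : Type} [NormedAddCommGroup W] [InnerProductSpace ℂ W]
  [FiniteDimensional ℂ W] [CompleteSpace W]
variable {E : Type} [NormedAddCommGroup E] [NormedSpace ℝ E] [FiniteDimensional ℝ E]
  [MeasureSpace E] [BorelSpace E] [(volume : Measure E).IsAddHaarMeasure] {κ : Type} [Fintype κ]

theorem an7a_dd {u : E → W} (hu : ContDiff ℝ ∞ u) (x v w : E) :
    fderiv ℝ (fun y => fderiv ℝ u y w) x v = fderiv ℝ (fderiv ℝ u) x v w := by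
  have h : DifferentiableAt ℝ (fderiv ℝ u) x :=
    (hu.fderiv_right (m := ∞) (by simp)).differentiable (by simp) x
  rw [fderiv_clm_apply h (differentiableAt_const w)]
  simp

theorem an7a_symm {u : E → W} (hu : ContDiff ℝ ∞ u) (x v w : E) :
    fderiv ℝ (fderiv ℝ u) x v w = fderiv ℝ (fderiv ℝ u) x w v :=
  (hu.contDiffAt.isSymmSndFDerivAt (by
    rw [minSmoothness_of_isRCLikeNormedField]
    exact WithTop.coe_le_coe.2 (le_top : (2 : ℕ∞) ≤ ⊤))).eq v w

theorem an7a_zero {M : κ → κ → W →L[ℂ] W} (anti : ∀ a a', M a' a = -M a a') (y : W)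
    {d : κ → κ → W} (hd : ∀ a a', d a a' = d a' a) : ∑ a, ∑ a', ⟪y, M a a' (d a a')⟫_ℂ = 0 := by
  have h : ∑ a, ∑ a', ⟪y, M a a' (d a a')⟫_ℂ = -∑ a, ∑ a', ⟪y, M a a' (d a a')⟫_ℂ := by
    conv_lhs => rw [Finset.sum_comm]
    simp only [← Finset.sum_neg_distrib]
    refine Finset.sum_congr rfl fun a _ => Finset.sum_congr rfl fun a' _ => ?_
    rw [anti a a', hd a' a, neg_apply, inner_neg_right]
  linear_combination (1 / 2 : ℂ) * h

theorem skew_ibp {O K : Set E} (hO : IsOpen O) (hK : IsCompact K) (hKO : K ⊆ O) (b : κ → E)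
    {M : κ → κ → E → W →L[ℂ] W} (hM : ∀ a a', ContDiffOn ℝ ∞ (M a a') O)
    (anti : ∀ a a' x, M a' a x = -M a a' x) {u : E → W} (hu : ContDiff ℝ ∞ u)
    (h0 : ∀ x ∉ K, u x = 0) :
    ∫ x in O, ∑ a, ∑ a', ⟪fderiv ℝ u x (b a), M a a' x (fderiv ℝ u x (b a'))⟫_ℂ =
      -∫ x in O, ∑ a, ∑ a', ⟪u x, fderiv ℝ (M a a') x (b a) (fderiv ℝ u x (b a'))⟫_ℂ := by
  have hd : ∀ v, ContDiff ℝ ∞ fun x => fderiv ℝ u x v := fun v =>
    (hu.fderiv_right (m := ∞) (by simp)).clm_apply contDiff_const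
  have hd0 : ∀ x ∉ K, fderiv ℝ u x = 0 := fun x hx =>
    fderiv_eq_zero_of_closed isOpen_univ hK.isClosed (fun y _ hy => h0 y hy) (Set.mem_univ x) hx
  have hf : ∀ a a', ContDiffOn ℝ ∞ (fun x => ⟪u x, M a a' x (fderiv ℝ u x (b a'))⟫_ℂ) O :=
    fun a a' => hu.contDiffOn.inner ℂ (contDiffOn_capp (hM a a') (hd _).contDiffOn)
  have hf0 : ∀ a a', ∀ x ∈ O, x ∉ K → ⟪u x, M a a' x (fderiv ℝ u x (b a'))⟫_ℂ = 0 :=
    fun a a' x _ hx => by rw [h0 x hx, inner_zero_left]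
  have hi : ∀ a a', IntegrableOn (fun x => fderiv ℝ
      (fun x => ⟪u x, M a a' x (fderiv ℝ u x (b a'))⟫_ℂ) x (b a)) O := fun a a' =>
    integrableOn_of_cpt hO hK hKO (contDiffOn_fderiv_apply' hO (hf a a') _).continuousOn
      fun x hx hxK => by
        rw [fderiv_eq_zero_of_closed hO hK.isClosed (hf0 a a') hx hxK]; rfl
  have h1 : ∫ x in O, ∑ a, ∑ a', fderiv ℝ
      (fun x => ⟪u x, M a a' x (fderiv ℝ u x (b a'))⟫_ℂ) x (b a) = 0 := by
    rw [integral_finsetSum _ fun a _ => integrable_finsetSum _ fun a' _ => hi a a']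
    refine Finset.sum_eq_zero fun a _ => ?_
    rw [integral_finsetSum _ fun a' _ => hi a a']
    exact Finset.sum_eq_zero fun a' _ => ibp0 hO hK hKO (hf a a') (hf0 a a') _
  have hP : IntegrableOn (fun x => ∑ a, ∑ a',
      ⟪fderiv ℝ u x (b a), M a a' x (fderiv ℝ u x (b a'))⟫_ℂ) O :=
    integrableOn_of_cpt hO hK hKO (continuousOn_finsetSum _ fun a _ =>
      continuousOn_finsetSum _ fun a' _ => (hd _).continuous.continuousOn.inner
        (continuousOn_capp (hM a a').continuousOn (hd _).continuous.continuousOn))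
      fun x _ hx => by simp [hd0 x hx]
  have hQ : IntegrableOn (fun x => ∑ a, ∑ a',
      ⟪u x, fderiv ℝ (M a a') x (b a) (fderiv ℝ u x (b a'))⟫_ℂ) O :=
    integrableOn_of_cpt hO hK hKO (continuousOn_finsetSum _ fun a _ =>
      continuousOn_finsetSum _ fun a' _ => hu.continuous.continuousOn.inner
        (continuousOn_capp (contDiffOn_fderiv_apply' hO (hM a a') _).continuousOn
          (hd _).continuous.continuousOn))
      fun x _ hx => by simp [h0 x hx]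
  rw [eq_neg_iff_add_eq_zero, ← integral_add hP hQ, ← h1]
  refine setIntegral_congr_fun hO.measurableSet fun x hx => ?_
  have hux : DifferentiableAt ℝ u x := hu.differentiable (by simp) x
  have hdx : ∀ v, DifferentiableAt ℝ (fun x => fderiv ℝ u x v) x := fun v =>
    (hd v).differentiable (by simp) x
  have hMx : ∀ a a', DifferentiableAt ℝ (M a a') x := fun a a' =>
    diffAt_of_contDiffOn hO (hM a a') hx
  have key : ∀ a a', fderiv ℝ (fun x => ⟪u x, M a a' x (fderiv ℝ u x (b a'))⟫_ℂ) x (b a) =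
      ⟪fderiv ℝ u x (b a), M a a' x (fderiv ℝ u x (b a'))⟫_ℂ +
        ⟪u x, fderiv ℝ (M a a') x (b a) (fderiv ℝ u x (b a'))⟫_ℂ +
        ⟪u x, M a a' x (fderiv ℝ (fderiv ℝ u) x (b a) (b a'))⟫_ℂ := fun a a' => by
    rw [fderiv_inner_apply ℂ hux (differentiableAt_capp (hMx a a') (hdx _)),
      fderiv_capp (hMx a a') (hdx _), an7a_dd hu, inner_add_right]
    ring
  have hz := an7a_zero (M := fun a a' => M a a' x) (fun a a' => anti a a' x) (u x)
    (d := fun a a' => fderiv ℝ (fderiv ℝ u) x (b a) (b a')) fun a a' => an7a_symm hu x _ _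
  simp only [key, Finset.sum_add_distrib, hz, add_zero]

end Pool.Agent.P.MP_e0a138_an.AD
end
end

-- part Pool.Agent.P.MP_e0a138_an.AN6
section

set_option autoImplicit false
set_option linter.unusedSectionVars false
set_option linter.unusedVariables false

open MeasureTheory Filter Topology Metric Complex
open scoped ENNReal NNReal ContDiff InnerProductSpace ComplexConjugate

noncomputable section
namespace Pool.Agent.P.MP_e0a138_an.AD

variable {N p q k : ℕ} {W : Type} [NormedAddCommGroup W] [InnerProductSpace ℂ W]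
  [FiniteDimensional ℂ W] [CompleteSpace W]

variable {κ : Type} [Fintype κ] {ε : Eu N →L[ℝ] W →L[ℂ] W}

theorem AN6_norm_sq (w : κ → Eu N) (t : κ → ℝ) :
    ‖∑ a, t a • w a‖ ^ 2 = ∑ a, ∑ b, ⟪w a, w b⟫_ℝ * (t a * t b) := by
  rw [← real_inner_self_eq_norm_sq, sum_inner]
  refine Finset.sum_congr rfl fun a _ => ?_
  rw [inner_sum]
  refine Finset.sum_congr rfl fun b _ => ?_
  rw [real_inner_smul_left, real_inner_smul_right]
  ring

theorem AN6_re_inner (x y : W) : (⟪x, y⟫_ℂ).re = ∑ r,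
    ((⟪stdOrthonormalBasis ℂ W r, x⟫_ℂ).re * (⟪stdOrthonormalBasis ℂ W r, y⟫_ℂ).re +
      (⟪stdOrthonormalBasis ℂ W r, x⟫_ℂ).im * (⟪stdOrthonormalBasis ℂ W r, y⟫_ℂ).im) := by
  rw [← (stdOrthonormalBasis ℂ W).sum_inner_mul_inner x y, Complex.re_sum]
  refine Finset.sum_congr rfl fun r _ => ?_
  rw [← inner_conj_symm x, Complex.mul_re, Complex.conj_re, Complex.conj_im]
  ring

theorem gram_lower {w : κ → Eu N} {c : ℝ} (h : ∀ t : κ → ℝ, c * ∑ a, t a ^ 2 ≤ ‖∑ a, t a • w a‖ ^ 2)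
    (x : κ → W) : c * ∑ a, ‖x a‖ ^ 2 ≤ ∑ a, ∑ b, ⟪w a, w b⟫_ℝ * (⟪x a, x b⟫_ℂ).re := by
  have h1 : ∀ a, ‖x a‖ ^ 2 = (⟪x a, x a⟫_ℂ).re := fun a => (inner_self_eq_norm_sq (𝕜 := ℂ) _).symm
  have h2 : ∑ a, ‖x a‖ ^ 2 = ∑ r, (∑ a, (⟪stdOrthonormalBasis ℂ W r, x a⟫_ℂ).re ^ 2 +
      ∑ a, (⟪stdOrthonormalBasis ℂ W r, x a⟫_ℂ).im ^ 2) := by
    simp only [h1, ← Finset.sum_add_distrib]
    rw [Finset.sum_comm]
    refine Finset.sum_congr rfl fun a _ => ?_
    rw [AN6_re_inner]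
    simp only [sq]
  have h3 : ∑ a, ∑ b, ⟪w a, w b⟫_ℝ * (⟪x a, x b⟫_ℂ).re = ∑ r,
      (‖∑ a, (⟪stdOrthonormalBasis ℂ W r, x a⟫_ℂ).re • w a‖ ^ 2 +
        ‖∑ a, (⟪stdOrthonormalBasis ℂ W r, x a⟫_ℂ).im • w a‖ ^ 2) := by
    simp only [AN6_norm_sq, ← Finset.sum_add_distrib]
    rw [Finset.sum_comm (s := Finset.univ (α := Fin (Module.finrank ℂ W)))]
    refine Finset.sum_congr rfl fun a _ => ?_
    rw [Finset.sum_comm]
    refine Finset.sum_congr rfl fun b _ => ?_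
    rw [AN6_re_inner (x a) (x b), Finset.mul_sum]
    exact Finset.sum_congr rfl fun r _ => mul_add _ _ _
  rw [h2, h3, Finset.mul_sum]
  refine Finset.sum_le_sum fun r _ => ?_
  rw [mul_add]
  exact add_le_add (h _) (h _)

theorem AN6_star_mul (hε : IsCAR ε) (v w : Eu N) :
    star (cl ε v) * cl ε w = ((⟪v, w⟫_ℝ : ℝ) : ℂ) • 1 + Kc ε v w := by
  have h1 := cl_mul hε v w
  have h2 : ((⟪v, w⟫_ℝ : ℝ) : ℂ) • (1 : W →L[ℂ] W) =
      (-(1 / 2 : ℂ)) • (cl ε v * cl ε w + cl ε w * cl ε v) := by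
    rw [h1, smul_smul]
    congr 1
    push_cast
    ring
  rw [h2, cl_star, Kc, neg_mul]
  module

theorem norm_sq_cl_sum (hε : IsCAR ε) (w : κ → Eu N) (x : κ → W) :
    ‖∑ a, cl ε (w a) (x a)‖ ^ 2 = ∑ a, ∑ b, ⟪w a, w b⟫_ℝ * (⟪x a, x b⟫_ℂ).re +
      (∑ a, ∑ b, ⟪x a, Kc ε (w a) (w b) (x b)⟫_ℂ).re := by
  have h1 : ‖∑ a, cl ε (w a) (x a)‖ ^ 2 =
      (⟪∑ a, cl ε (w a) (x a), ∑ a, cl ε (w a) (x a)⟫_ℂ).re :=
    (inner_self_eq_norm_sq (𝕜 := ℂ) _).symm
  rw [h1, sum_inner, Complex.re_sum, Complex.re_sum, ← Finset.sum_add_distrib]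
  refine Finset.sum_congr rfl fun a _ => ?_
  rw [inner_sum, Complex.re_sum, Complex.re_sum, ← Finset.sum_add_distrib]
  refine Finset.sum_congr rfl fun b _ => ?_
  have h2 : ⟪cl ε (w a) (x a), cl ε (w b) (x b)⟫_ℂ =
      ⟪x a, (star (cl ε (w a)) * cl ε (w b)) (x b)⟫_ℂ := by
    rw [ContinuousLinearMap.star_eq_adjoint, mul_apply_eq_comp,
      ContinuousLinearMap.adjoint_inner_right]
  rw [h2, AN6_star_mul hε, add_apply, inner_add_right, Complex.add_re,
    smul_apply, one_apply_eq_self, inner_smul_right,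
    Complex.re_ofReal_mul]

theorem Kc_anti (v w : Eu N) : Kc ε w v = -Kc ε v w := by
  rw [Kc, Kc, ← smul_neg, neg_sub]

theorem AN6_bil {F G : Type} [NormedAddCommGroup F] [NormedSpace ℝ F] [NormedAddCommGroup G]
    [NormedSpace ℝ G] (K : F →L[ℝ] F →L[ℝ] G) (L : ℝ) : ∃ C : ℝ, 0 ≤ C ∧
    ∀ (E : Type) [NormedAddCommGroup E] [NormedSpace ℝ E] (v w : E → F) (x : E),
      DifferentiableAt ℝ v x → DifferentiableAt ℝ w x → ‖v x‖ ≤ L → ‖w x‖ ≤ L →
      ‖fderiv ℝ v x‖ ≤ L → ‖fderiv ℝ w x‖ ≤ L →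
      ‖fderiv ℝ (fun y => K (v y) (w y)) x‖ ≤ C := by
  refine ⟨2 * ‖K‖ * L ^ 2, by positivity, fun E _ _ v w x hv hw h1 h2 h3 h4 => ?_⟩
  have hL : 0 ≤ L := (norm_nonneg _).trans h1
  have hd := ((K.hasFDerivAt.comp x hv.hasFDerivAt).clm_apply hw.hasFDerivAt).fderiv
  refine ContinuousLinearMap.opNorm_le_bound _ (by positivity) fun t => ?_
  have h5 : fderiv ℝ (fun y => K (v y) (w y)) x t =
      K (v x) (fderiv ℝ w x t) + K (fderiv ℝ v x t) (w x) := DFunLike.congr_fun hd t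
  have h6 : ‖fderiv ℝ w x t‖ ≤ L * ‖t‖ := (fderiv ℝ w x).le_of_opNorm_le h4 t
  have h7 : ‖fderiv ℝ v x t‖ ≤ L * ‖t‖ := (fderiv ℝ v x).le_of_opNorm_le h3 t
  have h8 : ‖K (v x) (fderiv ℝ w x t)‖ ≤ ‖K‖ * L * (L * ‖t‖) :=
    (K.le_opNorm₂ _ _).trans (by gcongr)
  have h9 : ‖K (fderiv ℝ v x t) (w x)‖ ≤ ‖K‖ * (L * ‖t‖) * L :=
    (K.le_opNorm₂ _ _).trans (by gcongr)
  rw [h5]
  refine (norm_add_le _ _).trans ((add_le_add h8 h9).trans (le_of_eq ?_))
  ring

theorem AN6_exists {F G : Type} [NormedAddCommGroup F] [NormedSpace ℝ F] [NormedRing G]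
    [NormedAlgebra ℝ G] (c : F →L[ℝ] G) (r : ℝ) :
    ∃ K : F →L[ℝ] F →L[ℝ] G, ∀ v w, K v w = r • (c v * c w - c w * c v) :=
  ⟨r • ((ContinuousLinearMap.mul ℝ G).bilinearComp c c -
    ((ContinuousLinearMap.mul ℝ G).bilinearComp c c).flip), fun v w => by simp⟩

theorem AN6_KL (ε : Eu N →L[ℝ] W →L[ℂ] W) :
    ∃ K : Eu N →L[ℝ] Eu N →L[ℝ] W →L[ℂ] W, ∀ v w, Kc ε v w = K v w := by
  obtain ⟨K, hK⟩ := AN6_exists (clL ε) (-(1 / 2))
  refine ⟨K, fun v w => ?_⟩
  have h : (-(1 / 2 : ℂ)) = ((-(1 / 2 : ℝ) : ℝ) : ℂ) := by push_cast; ring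
  rw [hK, Kc, h, Complex.coe_smul, clL_apply, clL_apply]

theorem Kc_bound (ε : Eu N →L[ℝ] W →L[ℂ] W) (L : ℝ) : ∃ C : ℝ, 0 ≤ C ∧
    ∀ (E : Type) [NormedAddCommGroup E] [NormedSpace ℝ E] (v w : E → Eu N) (x : E),
      DifferentiableAt ℝ v x → DifferentiableAt ℝ w x → ‖v x‖ ≤ L → ‖w x‖ ≤ L →
      ‖fderiv ℝ v x‖ ≤ L → ‖fderiv ℝ w x‖ ≤ L →
      ‖fderiv ℝ (fun y => Kc ε (v y) (w y)) x‖ ≤ C := by
  obtain ⟨K, hK⟩ := AN6_KL ε
  simp only [hK]
  exact AN6_bil K L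

theorem contDiffOn_Kc {E : Type} [NormedAddCommGroup E] [NormedSpace ℝ E] {v w : E → Eu N}
    {O : Set E} (hv : ContDiffOn ℝ ∞ v O) (hw : ContDiffOn ℝ ∞ w O) :
    ContDiffOn ℝ ∞ (fun y => Kc ε (v y) (w y)) O := by
  obtain ⟨K, hK⟩ := AN6_KL ε
  simp only [hK]
  exact (K.contDiff.comp_contDiffOn hv).clm_apply hw

end Pool.Agent.P.MP_e0a138_an.AD
end
end

-- part Pool.Agent.P.MP_e0a138_an.AN7b
section

set_option autoImplicit false
set_option linter.unusedSectionVars false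
set_option linter.unusedVariables false

open MeasureTheory Filter Topology Metric Complex
open scoped ENNReal NNReal ContDiff InnerProductSpace ComplexConjugate

noncomputable section
namespace Pool.Agent.P.MP_e0a138_an.AD

variable {N p q k : ℕ} {W : Type} [NormedAddCommGroup W] [InnerProductSpace ℂ W]
  [FiniteDimensional ℂ W] [CompleteSpace W]
variable {E : Type} [NormedAddCommGroup E] [NormedSpace ℝ E] [FiniteDimensional ℝ E]
  [MeasureSpace E] [BorelSpace E] [(volume : Measure E).IsAddHaarMeasure] {κ : Type} [Fintype κ]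

theorem AN7b_conv {O K : Set E} (hO : IsOpen O) (hK : IsCompact K) (hKO : K ⊆ O) {f : E → W}
    (hf : ContinuousOn f O) (h0 : ∀ x ∉ K, f x = 0) :
    IntegrableOn (fun x => ‖f x‖ ^ 2) O ∧
      ∫⁻ x, ‖f x‖ₑ ^ 2 = ENNReal.ofReal (∫ x in O, ‖f x‖ ^ 2) := by
  have hi : IntegrableOn (fun x => ‖f x‖ ^ 2) O :=
    integrableOn_of_cpt hO hK hKO (hf.norm.pow 2) fun x _ hx => by simp [h0 x hx]
  refine ⟨hi, ?_⟩
  rw [ofReal_integral_eq_lintegral_ofReal hi (Eventually.of_forall fun x => by positivity),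
    setLIntegral_eq_of_support_subset]
  · refine lintegral_congr fun x => ?_
    rw [ENNReal.ofReal_pow (norm_nonneg _), ofReal_norm_eq_enorm]
  · intro x hx
    by_contra hxO
    exact hx (by simp [h0 x fun h => hxO (hKO h)])

theorem AN7b_amgm {c n C0 s t : ℝ} (hc : 0 < c) (hn : 0 < n) :
    s * (C0 * t) ≤ c / (2 * n) * t ^ 2 + n * C0 ^ 2 / (2 * c) * s ^ 2 := by
  have h : c / (2 * n) * t ^ 2 + n * C0 ^ 2 / (2 * c) * s ^ 2 - s * (C0 * t) =
      (c * t - n * C0 * s) ^ 2 / (2 * n * c) := by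
    field_simp
    ring
  have h2 : 0 ≤ (c * t - n * C0 * s) ^ 2 / (2 * n * c) := by positivity
  linarith

theorem AN7b_pt {κ : Type} [Fintype κ] {c C0 : ℝ} (hc : 0 < c) (y : W) (d : κ → W)
    (T : κ → κ → W →L[ℂ] W) (hT : ∀ a a', ‖T a a'‖ ≤ C0) :
    (∑ a, ∑ a', ⟪y, T a a' (d a')⟫_ℂ).re ≤ c / 2 * ∑ a, ‖d a‖ ^ 2 +
      (Fintype.card κ : ℝ) ^ 2 * ((Fintype.card κ + 1) * C0 ^ 2 / (2 * c)) * ‖y‖ ^ 2 := by
  set n : ℝ := (Fintype.card κ : ℝ) with hn
  have hn0 : 0 ≤ n := Nat.cast_nonneg _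
  have h1 : ∀ a a', (⟪y, T a a' (d a')⟫_ℂ).re ≤
      c / (2 * (n + 1)) * ‖d a'‖ ^ 2 + (n + 1) * C0 ^ 2 / (2 * c) * ‖y‖ ^ 2 := by
    intro a a'
    refine le_trans ?_ (AN7b_amgm (C0 := C0) hc (by positivity))
    refine (Complex.re_le_norm _).trans ((norm_inner_le_norm _ _).trans ?_)
    refine mul_le_mul_of_nonneg_left (((T a a').le_opNorm _).trans ?_) (norm_nonneg _)
    exact mul_le_mul_of_nonneg_right (hT a a') (norm_nonneg _)
  have hS : 0 ≤ ∑ a, ‖d a‖ ^ 2 := Finset.sum_nonneg fun a _ => by positivity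
  calc (∑ a, ∑ a', ⟪y, T a a' (d a')⟫_ℂ).re = ∑ a, ∑ a', (⟪y, T a a' (d a')⟫_ℂ).re := by
        simp only [Complex.re_sum]
    _ ≤ ∑ _a : κ, ∑ a', (c / (2 * (n + 1)) * ‖d a'‖ ^ 2 +
          (n + 1) * C0 ^ 2 / (2 * c) * ‖y‖ ^ 2) :=
        Finset.sum_le_sum fun a _ => Finset.sum_le_sum fun a' _ => h1 a a'
    _ = n * (c / (2 * (n + 1))) * ∑ a, ‖d a‖ ^ 2 +
          n ^ 2 * ((n + 1) * C0 ^ 2 / (2 * c)) * ‖y‖ ^ 2 := by
        simp only [Finset.sum_add_distrib, ← Finset.mul_sum, Finset.sum_const, Finset.card_univ,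
          nsmul_eq_mul, ← hn]
        ring
    _ ≤ _ := by
        have : n * (c / (2 * (n + 1))) ≤ c / 2 := by
          rw [← mul_div_assoc, div_le_div_iff₀ (by positivity) (by positivity)]
          nlinarith
        have := mul_le_mul_of_nonneg_right this hS
        linarith

theorem garding {ε : Eu N →L[ℝ] W →L[ℂ] W} (hε : IsCAR ε) (κ : Type) [Fintype κ] {c : ℝ} (L : ℝ)
    (hc : 0 < c) : ∃ C : ℝ≥0, ∀ (O K : Set E) (w : κ → E → Eu N) (b : κ → E) (u : E → W),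
      IsOpen O → IsCompact K → K ⊆ O → (∀ a, ContDiffOn ℝ ∞ (w a) O) →
      (∀ x ∈ K, ∀ t : κ → ℝ, c * ∑ a, t a ^ 2 ≤ ‖∑ a, t a • w a x‖ ^ 2) →
      (∀ a, ∀ x ∈ K, ‖w a x‖ ≤ L ∧ ‖fderiv ℝ (w a) x‖ ≤ L) → (∀ a, ‖b a‖ ≤ 1) →
      ContDiff ℝ ∞ u → (∀ x ∉ K, u x = 0) →
      ∑ a, ∫⁻ x, ‖fderiv ℝ u x (b a)‖ₑ ^ 2 ≤
        C * ((∫⁻ x, ‖∑ a, cl ε (w a x) (fderiv ℝ u x (b a))‖ₑ ^ 2) + ∫⁻ x, ‖u x‖ₑ ^ 2) := by
  obtain ⟨C0, hC0, hKb⟩ := Kc_bound ε L
  obtain ⟨C1, hC1⟩ : ∃ C1 : ℝ, C1 =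
      (Fintype.card κ : ℝ) ^ 2 * ((Fintype.card κ + 1) * C0 ^ 2 / (2 * c)) := ⟨_, rfl⟩
  have hC10 : 0 ≤ C1 := by rw [hC1]; positivity
  have hCn : 0 ≤ 2 / c * (1 + C1) := by positivity
  refine ⟨Real.toNNReal (2 / c * (1 + C1)), fun O K w b u hO hK hKO hw hell hL hb hu h0 => ?_⟩
  have hd0 : ∀ x ∉ K, fderiv ℝ u x = 0 := fun x hx =>
    fderiv_eq_zero_of_closed isOpen_univ hK.isClosed (fun y _ hy => h0 y hy) (Set.mem_univ x) hx
  have hdc : ∀ a, ContDiffOn ℝ ∞ (fun x => fderiv ℝ u x (b a)) O := fun a =>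
    contDiffOn_fderiv_apply' hO hu.contDiffOn (b a)
  have hM : ∀ a a', ContDiffOn ℝ ∞ (fun y => Kc ε (w a y) (w a' y)) O := fun a a' =>
    contDiffOn_Kc (hw a) (hw a')
  have hcl : ∀ a, ContinuousOn (fun x => cl ε (w a x)) O := fun a => by
    have := (clL ε).continuous.comp_continuousOn (hw a).continuousOn
    exact this.congr fun x _ => by simp
  have e1 := fun a => AN7b_conv hO hK hKO (hdc a).continuousOn fun x hx => by simp [hd0 x hx]
  have e2 := AN7b_conv (f := fun x => ∑ a, cl ε (w a x) (fderiv ℝ u x (b a))) hO hK hKO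
    (continuousOn_finsetSum _ fun a _ => continuousOn_capp (hcl a) (hdc a).continuousOn)
    fun x hx => by simp [hd0 x hx]
  have e3 := AN7b_conv hO hK hKO hu.continuous.continuousOn h0
  have i1 : IntegrableOn (fun x => ∑ a, ‖fderiv ℝ u x (b a)‖ ^ 2) O :=
    integrable_finsetSum _ fun a _ => (e1 a).1
  have g1 : IntegrableOn (fun x => ∑ a, ∑ a',
      ⟪fderiv ℝ u x (b a), Kc ε (w a x) (w a' x) (fderiv ℝ u x (b a'))⟫_ℂ) O :=
    integrableOn_of_cpt hO hK hKO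
      (continuousOn_finsetSum _ fun a _ => continuousOn_finsetSum _ fun a' _ =>
        (hdc a).continuousOn.inner
          (continuousOn_capp (hM a a').continuousOn (hdc a').continuousOn))
      fun x _ hx => by simp [hd0 x hx]
  have g2 : IntegrableOn (fun x => ∑ a, ∑ a',
      ⟪u x, fderiv ℝ (fun y => Kc ε (w a y) (w a' y)) x (b a) (fderiv ℝ u x (b a'))⟫_ℂ) O :=
    integrableOn_of_cpt hO hK hKO
      (continuousOn_finsetSum _ fun a _ => continuousOn_finsetSum _ fun a' _ =>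
        hu.continuous.continuousOn.inner
          (continuousOn_capp (contDiffOn_fderiv_apply' hO (hM a a') (b a)).continuousOn
            (hdc a').continuousOn))
      fun x _ hx => by simp [hd0 x hx]
  have hibp := skew_ibp hO hK hKO b (M := fun a a' y => Kc ε (w a y) (w a' y)) hM
    (fun a a' x => Kc_anti _ _) hu h0
  have hre := congrArg Complex.re hibp
  rw [Complex.neg_re] at hre
  have r1 := (integral_re (𝕜 := ℂ) g1).symm
  have r2 := (integral_re (𝕜 := ℂ) g2).symm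
  simp only [RCLike.re_to_complex] at r1 r2
  rw [r1, r2] at hre
  have g1r := g1.re
  have g2r := g2.re
  simp only [RCLike.re_to_complex] at g1r g2r
  have s1 : ∫ x in O, c * ∑ a, ‖fderiv ℝ u x (b a)‖ ^ 2 ≤
      ∫ x in O, (‖∑ a, cl ε (w a x) (fderiv ℝ u x (b a))‖ ^ 2 - (∑ a, ∑ a',
        ⟪fderiv ℝ u x (b a), Kc ε (w a x) (w a' x) (fderiv ℝ u x (b a'))⟫_ℂ).re) := by
    refine setIntegral_mono (i1.const_mul c) (e2.1.sub g1r) fun x => ?_
    by_cases hx : x ∈ K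
    · have h1 := gram_lower (hell x hx) fun a => fderiv ℝ u x (b a)
      have h2 := norm_sq_cl_sum hε (fun a => w a x) fun a => fderiv ℝ u x (b a)
      simp only at h1 h2 ⊢
      linarith
    · simp [hd0 x hx]
  have s2 : ∫ x in O, (∑ a, ∑ a', ⟪u x, fderiv ℝ (fun y => Kc ε (w a y) (w a' y)) x (b a)
        (fderiv ℝ u x (b a'))⟫_ℂ).re ≤
      ∫ x in O, (c / 2 * ∑ a, ‖fderiv ℝ u x (b a)‖ ^ 2 + C1 * ‖u x‖ ^ 2) := by
    refine setIntegral_mono g2r ((i1.const_mul _).add (e3.1.const_mul _)) fun x => ?_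
    by_cases hx : x ∈ K
    · rw [hC1]
      refine AN7b_pt hc (u x) (fun a => fderiv ℝ u x (b a))
        (fun a a' => fderiv ℝ (fun y => Kc ε (w a y) (w a' y)) x (b a)) fun a a' => ?_
      have hb0 := hKb E (w a) (w a') x (diffAt_of_contDiffOn hO (hw a) (hKO hx))
        (diffAt_of_contDiffOn hO (hw a') (hKO hx)) (hL a x hx).1 (hL a' x hx).1 (hL a x hx).2
        (hL a' x hx).2
      refine (ContinuousLinearMap.le_opNorm _ _).trans ?_
      calc _ ≤ C0 * 1 := mul_le_mul hb0 (hb a) (norm_nonneg _) hC0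
        _ = C0 := mul_one _
    · simp [hd0 x hx, h0 x hx]
  rw [integral_const_mul, integral_sub e2.1 g1r] at s1
  rw [integral_add (i1.const_mul _) (e3.1.const_mul _), integral_const_mul,
    integral_const_mul] at s2
  have p2 : 0 ≤ ∫ x in O, ‖∑ a, cl ε (w a x) (fderiv ℝ u x (b a))‖ ^ 2 :=
    integral_nonneg fun x => by positivity
  have p3 : 0 ≤ ∫ x in O, ‖u x‖ ^ 2 := integral_nonneg fun x => by positivity
  have p1 : ∀ a, 0 ≤ ∫ x in O, ‖fderiv ℝ u x (b a)‖ ^ 2 := fun a =>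
    integral_nonneg fun x => by positivity
  simp only [fun a => (e1 a).2]
  rw [e2.2, e3.2, ← ENNReal.ofReal_sum_of_nonneg fun a _ => p1 a,
    ← integral_finsetSum _ fun a _ => (e1 a).1, ← ENNReal.ofReal_add p2 p3,
    ← ENNReal.ofReal_coe_nnreal, ← ENNReal.ofReal_mul (NNReal.coe_nonneg _)]
  refine ENNReal.ofReal_le_ofReal ?_
  rw [Real.coe_toNNReal _ hCn]
  generalize (∫ x in O, ∑ a, ‖fderiv ℝ u x (b a)‖ ^ 2) = I1 at *
  generalize (∫ x in O, ‖∑ a, cl ε (w a x) (fderiv ℝ u x (b a))‖ ^ 2) = I2 at *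
  generalize (∫ x in O, ‖u x‖ ^ 2) = I3 at *
  have key : c / 2 * I1 ≤ (1 + C1) * (I2 + I3) := by nlinarith [mul_nonneg hC10 p2]
  rw [mul_assoc, div_mul_eq_mul_div, le_div_iff₀ hc]
  linarith

end Pool.Agent.P.MP_e0a138_an.AD
end
end

-- part Pool.Agent.P.MP_e0a138_an.AN10
section

set_option autoImplicit false
set_option linter.unusedSectionVars false
set_option linter.unusedVariables false

open MeasureTheory Filter Topology Metric Complex
open scoped ENNReal NNReal ContDiff InnerProductSpace ComplexConjugate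

noncomputable section
namespace Pool.Agent.P.MP_e0a138_an.AD

variable {N p q k : ℕ} {W : Type} [NormedAddCommGroup W] [InnerProductSpace ℂ W]
  [FiniteDimensional ℂ W] [CompleteSpace W]

theorem an10_wt (h : ℝ) (ζ : Eu p × Eu q) : ‖ζ.1‖ ^ 2 + ‖(2 * Real.pi * h) • ζ.2‖ ^ 2 ≤
    ∑ a, (2 * Real.pi * (⟪ζ.1, (cbh h a : Eu p × Eu q).1⟫_ℝ +
      ⟪ζ.2, (cbh h a : Eu p × Eu q).2⟫_ℝ)) ^ 2 := by
  rw [Fintype.sum_sum_type, norm_sq_bs, norm_sq_bs]
  refine add_le_add (Finset.sum_le_sum fun a _ => ?_) (le_of_eq (Finset.sum_congr rfl fun a _ => ?_))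
  · simp only [cbh, Sum.elim_inl, inner_zero_right, add_zero]
    rw [real_inner_comm, mul_pow]
    have h1 : 1 ≤ (2 * Real.pi) ^ 2 := one_le_pow₀ (by linarith [Real.pi_gt_three])
    exact le_mul_of_one_le_left (sq_nonneg _) h1
  · simp only [cbh, Sum.elim_inr, inner_zero_right, zero_add, real_inner_smul_right]
    rw [real_inner_comm]
    ring

theorem an10_e (t : ℝ) :
    ‖(2 * Real.pi * I * (t : ℂ))‖ₑ ^ 2 = ENNReal.ofReal ((2 * Real.pi * t) ^ 2) := by
  have e : (2 * Real.pi * I * (t : ℂ)) = ((2 * Real.pi * t : ℝ) : ℂ) * I := by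
    push_cast
    ring
  rw [e, ← ofReal_norm, ← ENNReal.ofReal_pow (norm_nonneg _), norm_mul, norm_I, mul_one,
    Complex.norm_real, Real.norm_eq_abs, sq_abs]

theorem an10_pt {F : Eu p × Eu q → W} (hF : ContDiff ℝ ∞ F) (hc : HasCompactSupport F) (h : ℝ)
    (ζ : Eu p × Eu q) :
    ENNReal.ofReal (‖ζ.1‖ ^ 2 + ‖(2 * Real.pi * h) • ζ.2‖ ^ 2) * ‖FT F ζ‖ₑ ^ 2 ≤
      ∑ a, ‖FT (fun z => fderiv ℝ F z (cbh h a)) ζ‖ₑ ^ 2 := by
  refine (mul_le_mul_left (ENNReal.ofReal_le_ofReal (an10_wt h ζ)) _).trans (le_of_eq ?_)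
  rw [ENNReal.ofReal_sum_of_nonneg fun _ _ => sq_nonneg _, Finset.sum_mul]
  refine Finset.sum_congr rfl fun a _ => ?_
  rw [FT_fderiv hF hc, enorm_smul, ← an10_e]
  exact (mul_pow _ _ _).symm

theorem an10_int {F : Eu p × Eu q → W} (hF : ContDiff ℝ ∞ F) (hc : HasCompactSupport F) (h : ℝ) :
    ∫⁻ ζ : Eu p × Eu q, ENNReal.ofReal (‖ζ.1‖ ^ 2 + ‖(2 * Real.pi * h) • ζ.2‖ ^ 2) *
      ‖FT F ζ‖ₑ ^ 2 ≤ ∑ a, ∫⁻ z, ‖fderiv ℝ F z (cbh h a)‖ₑ ^ 2 := by
  have h1 : ∀ w, Continuous fun z => fderiv ℝ F z w := fun w =>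
    (hF.continuous_fderiv (by simp)).clm_apply continuous_const
  have h2 : ∀ w, HasCompactSupport fun z => fderiv ℝ F z w := fun w => hc.fderiv_apply ℝ w
  have h3 := fun w => (h1 w).integrable_of_hasCompactSupport (μ := volume) (h2 w)
  refine (lintegral_mono (an10_pt hF hc h)).trans (le_of_eq ?_)
  rw [lintegral_finsetSum _ fun a _ => (FT_continuous (h3 _)).enorm.measurable.pow_const 2]
  exact Finset.sum_congr rfl fun a _ => plancherel2 (h3 _) ((h1 _).memLp_of_hasCompactSupport (h2 _))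

theorem an10_dbw {β : Eu q → ℝ} (hβ : ContDiff ℝ ∞ β) (h : ℝ) (y : Eu q) (a : Fin p ⊕ Fin q)
    (z : Eu p × Eu q) :
    fderiv ℝ (fun z : Eu p × Eu q => bw β h y (ContinuousLinearMap.id ℝ _) z.2) z (cbh h a) =
      h / sc h * bw (fun t => fderiv ℝ β t (cb a : Eu p × Eu q).2) h y
        (ContinuousLinearMap.id ℝ _) z.2 := by
  have h1 : HasFDerivAt (fun z : Eu p × Eu q => (sc h)⁻¹ • (z.2 - y))
      ((sc h)⁻¹ • ContinuousLinearMap.snd ℝ (Eu p) (Eu q)) z :=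
    ((hasFDerivAt_snd (𝕜 := ℝ) (p := z)).sub_const y).const_smul (sc h)⁻¹
  have h2 := ((hβ.differentiable (by simp) _).hasFDerivAt.comp z h1).const_mul (√(sc h ^ q))⁻¹
  have h3 : fderiv ℝ (fun z : Eu p × Eu q => bw β h y (ContinuousLinearMap.id ℝ _) z.2) z = _ :=
    h2.fderiv
  have h4 : (cbh h a : Eu p × Eu q).2 = h • (cb a : Eu p × Eu q).2 := by
    rcases a with a | a <;> simp [cbh, cb]
  rw [h3]
  simp only [_root_.smul_apply, ContinuousLinearMap.comp_apply,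
    ContinuousLinearMap.coe_snd', h4, map_smul, smul_eq_mul, bw, ContinuousLinearMap.id_apply]
  ring

theorem an10_sq (x y : ℝ≥0∞) : (x + y) ^ 2 ≤ 2 * (x ^ 2 + y ^ 2) := by
  have := ENNReal.rpow_add_le_mul_rpow_add_rpow x y (p := 2) (by norm_num)
  norm_num at this
  exact_mod_cast this

theorem an10_d {β : Eu q → ℝ} (hβ : ContDiff ℝ ∞ β) {h : ℝ} (h0 : 0 < h) (h1 : h ≤ 1)
    {G : Eu p × Eu q → W} (hG : ContDiff ℝ ∞ G) (y : Eu q) (a : Fin p ⊕ Fin q) (z : Eu p × Eu q) :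
    ‖fderiv ℝ (fun z => (bw β h y (ContinuousLinearMap.id ℝ _) z.2 : ℂ) • G z) z (cbh h a)‖ₑ ^ 2 ≤
      2 * (‖bw (fun t => fderiv ℝ β t (cb a : Eu p × Eu q).2) h y
          (ContinuousLinearMap.id ℝ _) z.2‖ₑ ^ 2 * ‖G z‖ₑ ^ 2 +
        ‖bw β h y (ContinuousLinearMap.id ℝ _) z.2‖ₑ ^ 2 * ‖fderiv ℝ G z (cbh h a)‖ₑ ^ 2) := by
  have hb : DifferentiableAt ℝ
      (fun z : Eu p × Eu q => bw β h y (ContinuousLinearMap.id ℝ _) z.2) z :=
    ((contDiff_bw hβ h y _).comp contDiff_snd).differentiable (by simp) z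
  have hb' : DifferentiableAt ℝ
      (fun z : Eu p × Eu q => (bw β h y (ContinuousLinearMap.id ℝ _) z.2 : ℂ)) z :=
    ofRealCLM.differentiableAt.comp z hb
  rw [fderiv_csmul hb' (hG.differentiable (by simp) z), fderiv_ofReal hb, an10_dbw hβ,
    ← mul_pow, ← mul_pow]
  refine le_trans (pow_le_pow_left' ((enorm_add_le _ _).trans ?_) 2) (an10_sq _ _)
  have e : ∀ r : ℝ, ‖(r : ℂ)‖ₑ = ‖r‖ₑ := fun r => by
    rw [← ofReal_norm, ← ofReal_norm, Complex.norm_real]
  rw [enorm_smul, enorm_smul, e, e, enorm_mul]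
  refine add_le_add (mul_le_mul_left (mul_le_of_le_one_left' ?_) _) le_rfl
  rw [Real.enorm_eq_ofReal (div_pos h0 (sc_pos h0)).le]
  exact ENNReal.ofReal_le_one.2 (div_sc_le_one h0 h1)

theorem an10_meas {γ : Eu q → ℝ} (hγ : Continuous γ) (h : ℝ) {g : Eu p × Eu q → W}
    (hg : Continuous g) : Measurable fun x : Eu q × Eu p × Eu q =>
      ‖bw γ h x.1 (ContinuousLinearMap.id ℝ _) x.2.2‖ₑ ^ 2 * ‖g x.2‖ₑ ^ 2 := by
  have h1 : Continuous fun x : Eu q × Eu p × Eu q =>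
      bw γ h x.1 (ContinuousLinearMap.id ℝ _) x.2.2 := by
    unfold bw
    fun_prop
  exact (h1.enorm.measurable.pow_const 2).mul ((hg.comp continuous_snd).enorm.measurable.pow_const 2)

theorem an10_m1 {γ : Eu q → ℝ} (hγ : Continuous γ) (h : ℝ) {g : Eu p × Eu q → W}
    (hg : Continuous g) (y : Eu q) : Measurable fun z : Eu p × Eu q =>
      ‖bw γ h y (ContinuousLinearMap.id ℝ _) z.2‖ₑ ^ 2 * ‖g z‖ₑ ^ 2 := by
  have h1 : Continuous fun z : Eu p × Eu q => bw γ h y (ContinuousLinearMap.id ℝ _) z.2 := by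
    unfold bw
    fun_prop
  exact (h1.enorm.measurable.pow_const 2).mul (hg.enorm.measurable.pow_const 2)

theorem an10_m2 {γ : Eu q → ℝ} (hγ : Continuous γ) (h : ℝ) {g : Eu p × Eu q → W}
    (hg : Continuous g) : Measurable fun y : Eu q => ∫⁻ z : Eu p × Eu q,
      ‖bw γ h y (ContinuousLinearMap.id ℝ _) z.2‖ₑ ^ 2 * ‖g z‖ₑ ^ 2 :=
  (an10_meas hγ h hg).lintegral_prod_right'

theorem an10_swap {γ : Eu q → ℝ} (hγ : Continuous γ) {h : ℝ} (h0 : 0 < h) {g : Eu p × Eu q → W}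
    (hg : Continuous g) :
    ∫⁻ y, ∫⁻ z : Eu p × Eu q, ‖bw γ h y (ContinuousLinearMap.id ℝ _) z.2‖ₑ ^ 2 * ‖g z‖ₑ ^ 2 =
      (∫⁻ t, ‖γ t‖ₑ ^ 2) * ∫⁻ z, ‖g z‖ₑ ^ 2 := by
  rw [lintegral_lintegral_swap (an10_meas hγ h hg).aemeasurable,
    ← lintegral_const_mul _ (hg.enorm.measurable.pow_const 2)]
  refine lintegral_congr fun z => ?_
  rw [lintegral_mul_const' _ _ (ENNReal.pow_ne_top enorm_ne_top), integral_bw_sq' hγ h0]

theorem Lam_tail {β : Eu q → ℝ} (hβ : ContDiff ℝ ∞ β) (hc : HasCompactSupport β) (p : ℕ) :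
    ∃ C : ℝ≥0, ∀ h ∈ Set.Ioc (0 : ℝ) 1, ∀ G : Eu p × Eu q → W, ContDiff ℝ ∞ G →
      HasCompactSupport G →
      ∫⁻ o, ENNReal.ofReal (‖o.1‖ ^ 2 + ‖o.2.2‖ ^ 2) * ‖Lam β h G o‖ₑ ^ 2 ≤
        ENNReal.ofReal ((2 * Real.pi * h) ^ q) * C *
          ((∑ a, ∫⁻ z, ‖fderiv ℝ G z (cbh h a)‖ₑ ^ 2) + ∫⁻ z, ‖G z‖ₑ ^ 2) := by
  have hd : ∀ w, Continuous fun t => fderiv ℝ β t w := fun w =>
    (hβ.continuous_fderiv (by simp)).clm_apply continuous_const
  have hfin : 2 * ((∑ a : Fin p ⊕ Fin q, ∫⁻ t, ‖fderiv ℝ β t (cb a : Eu p × Eu q).2‖ₑ ^ 2) +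
      ∫⁻ t, ‖β t‖ₑ ^ 2) ≠ ⊤ := by
    refine ENNReal.mul_ne_top (by simp) (ENNReal.add_ne_top.2
      ⟨ENNReal.sum_ne_top.2 fun a _ => ?_, ?_⟩)
    · rw [lintegral_window (hd _) (hc.fderiv_apply ℝ _)]
      exact ENNReal.ofReal_ne_top
    · rw [lintegral_window hβ.continuous hc]
      exact ENNReal.ofReal_ne_top
  refine ⟨(2 * ((∑ a : Fin p ⊕ Fin q, ∫⁻ t, ‖fderiv ℝ β t (cb a : Eu p × Eu q).2‖ₑ ^ 2) +
      ∫⁻ t, ‖β t‖ₑ ^ 2)).toNNReal, fun h hh G hG hGc => ?_⟩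
  rw [ENNReal.coe_toNNReal hfin]
  have hI : Integrable G := hG.continuous.integrable_of_hasCompactSupport hGc
  have hD : ∀ w, Continuous fun z => fderiv ℝ G z w := fun w =>
    (hG.continuous_fderiv (by simp)).clm_apply continuous_const
  have hm : Measurable fun o : Eu p × Eu q × Eu q =>
      ENNReal.ofReal (‖o.1‖ ^ 2 + ‖o.2.2‖ ^ 2) * ‖Lam β h G o‖ₑ ^ 2 :=
    (ENNReal.continuous_ofReal.comp (by fun_prop)).measurable.mul
      ((Lam_continuous hβ.continuous hc h hI).enorm.measurable.pow_const 2)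
  have hpos : 2 * Real.pi * h ≠ 0 := (mul_pos Real.two_pi_pos hh.1).ne'
  rw [lintegral_scale hh.1 hm, mul_assoc (ENNReal.ofReal _)]
  refine mul_le_mul_right ?_ _
  have m1 := fun a : Fin p ⊕ Fin q =>
    an10_m2 (hd (cb a : Eu p × Eu q).2) h hG.continuous
  have m2 := fun a : Fin p ⊕ Fin q => an10_m2 hβ.continuous h (hD (cbh h a))
  have key : ∀ y, ∫⁻ ζ : Eu p × Eu q, ENNReal.ofReal (‖ζ.1‖ ^ 2 + ‖(2 * Real.pi * h) • ζ.2‖ ^ 2) *
      ‖Lam β h G (ζ.1, y, (2 * Real.pi * h) • ζ.2)‖ₑ ^ 2 ≤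
      ∑ a : Fin p ⊕ Fin q, 2 * ((∫⁻ z : Eu p × Eu q,
        ‖bw (fun t => fderiv ℝ β t (cb a : Eu p × Eu q).2) h y
          (ContinuousLinearMap.id ℝ _) z.2‖ₑ ^ 2 * ‖G z‖ₑ ^ 2) + ∫⁻ z : Eu p × Eu q,
        ‖bw β h y (ContinuousLinearMap.id ℝ _) z.2‖ₑ ^ 2 * ‖fderiv ℝ G z (cbh h a)‖ₑ ^ 2) := by
    intro y
    have hF : ContDiff ℝ ∞ fun z : Eu p × Eu q =>
        (bw β h y (ContinuousLinearMap.id ℝ _) z.2 : ℂ) • G z :=
      (ofRealCLM.contDiff.comp ((contDiff_bw hβ h y _).comp contDiff_snd)).smul hG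
    have hFc : HasCompactSupport fun z : Eu p × Eu q =>
        (bw β h y (ContinuousLinearMap.id ℝ _) z.2 : ℂ) • G z := hGc.smul_left
    simp only [norm_Lam β hh.1, inv_smul_smul₀ hpos]
    refine (an10_int hF hFc h).trans (Finset.sum_le_sum fun a _ => ?_)
    refine (lintegral_mono (an10_d hβ hh.1 hh.2 hG y a)).trans (le_of_eq ?_)
    rw [lintegral_const_mul' _ _ (by simp),
      lintegral_add_left (an10_m1 (hd (cb a : Eu p × Eu q).2) h hG.continuous y)]
  refine (lintegral_mono key).trans ?_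
  rw [lintegral_finsetSum _ fun a _ => ((m1 a).fun_add (m2 a)).const_mul 2]
  have e : ∀ a : Fin p ⊕ Fin q, ∫⁻ y, 2 * ((∫⁻ z : Eu p × Eu q,
        ‖bw (fun t => fderiv ℝ β t (cb a : Eu p × Eu q).2) h y
          (ContinuousLinearMap.id ℝ _) z.2‖ₑ ^ 2 * ‖G z‖ₑ ^ 2) + ∫⁻ z : Eu p × Eu q,
        ‖bw β h y (ContinuousLinearMap.id ℝ _) z.2‖ₑ ^ 2 * ‖fderiv ℝ G z (cbh h a)‖ₑ ^ 2) =
      2 * ((∫⁻ t, ‖fderiv ℝ β t (cb a : Eu p × Eu q).2‖ₑ ^ 2) * (∫⁻ z, ‖G z‖ₑ ^ 2) +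
        (∫⁻ t, ‖β t‖ₑ ^ 2) * ∫⁻ z, ‖fderiv ℝ G z (cbh h a)‖ₑ ^ 2) := fun a => by
    rw [lintegral_const_mul' _ _ (by simp), lintegral_add_left (m1 a),
      an10_swap (hd _) hh.1 hG.continuous, an10_swap hβ.continuous hh.1 (hD _)]
  simp only [e]
  rw [← Finset.mul_sum, Finset.sum_add_distrib, ← Finset.sum_mul, ← Finset.mul_sum, mul_assoc,
    add_mul]
  exact mul_le_mul_right (add_le_add (mul_le_mul_right le_add_self _)
    (mul_le_mul_right le_self_add _)) _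

end Pool.Agent.P.MP_e0a138_an.AD
end
end

-- part Pool.Agent.P.MP_e0a138_an.AB6
section

set_option autoImplicit false
set_option linter.unusedSectionVars false
set_option linter.unusedVariables false

open MeasureTheory Filter Topology Metric Complex
open scoped ENNReal NNReal ContDiff InnerProductSpace ComplexConjugate

noncomputable section
namespace Pool.Agent.P.MP_e0a138_an.AD

variable {H : Type} [NormedAddCommGroup H] [InnerProductSpace ℂ H] [CompleteSpace H]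

theorem tail_ext {G : Set (H × H)} {R : H →L[ℂ] H} (hG : EssSA G) (hR : IsRes G R)
    (hsub : ∀ a ∈ Submodule.span ℂ G, a ∈ G) {Ω J : Type} [MeasurableSpace Ω] [Fintype J]
    (ν : Measure Ω) {w : J → Ω → H} (hw : ∀ j u, Measurable fun o => ⟪w j o, u⟫_ℂ)
    {a : Ω → ℝ≥0∞} (ha : Measurable a) (ha' : ∀ o, a o ≠ ⊤) {C : ℝ≥0∞} (hC : C ≠ ⊤)
    (h : ∀ g ∈ G, ∑ j, ∫⁻ o, a o * ‖⟪w j o, g.1⟫_ℂ‖ₑ ^ 2 ∂ν ≤ C * (‖g.1‖ₑ ^ 2 + ‖g.2‖ₑ ^ 2))
    (v : H) : ∑ j, ∫⁻ o, a o * ‖⟪w j o, R v⟫_ℂ‖ₑ ^ 2 ∂ν ≤ C * ‖v‖ₑ ^ 2 := by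
  obtain ⟨v₁, v₂, hv, h1, h2, hn⟩ := exists_decomp G v
  have hI : I ∈ ({I, -I} : Set ℂ) := Set.mem_insert _ _
  choose g hg hgv using fun n : ℕ => hG.approx hI h1 (e := 1 / ((n : ℝ) + 1)) (by positivity)
  have hlim : Tendsto (fun n => (g n).2 + I • (g n).1) atTop (𝓝 v₁) :=
    tendsto_iff_norm_sub_tendsto_zero.2 (squeeze_zero (fun _ => norm_nonneg _)
      (fun n => (hgv n).le) tendsto_one_div_add_atTop_nhds_zero_nat)
  have hRv : R v = R v₁ := by rw [hv, map_add, hR.2 v₂ h2, add_zero]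
  have hlim1 : Tendsto (fun n => (g n).1) atTop (𝓝 (R v)) := by
    rw [hRv]
    exact ((R.continuous.tendsto v₁).comp hlim).congr fun n => hR.1 _ (hsub _ (hg n))
  have hm : ∀ j u, Measurable fun o => a o * ‖⟪w j o, u⟫_ℂ‖ₑ ^ 2 := fun j u =>
    ha.mul ((hw j u).enorm.pow_const 2)
  have hsq : Continuous fun x : ℝ≥0∞ => x ^ 2 := ENNReal.continuous_pow 2
  have hpt : ∀ o, Tendsto (fun n => ∑ j, a o * ‖⟪w j o, (g n).1⟫_ℂ‖ₑ ^ 2) atTop
      (𝓝 (∑ j, a o * ‖⟪w j o, R v⟫_ℂ‖ₑ ^ 2)) := fun o =>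
    tendsto_finsetSum _ fun j _ => ENNReal.Tendsto.const_mul
      ((hsq.tendsto _).comp (tendsto_const_nhds.inner hlim1).enorm) (Or.inr (ha' o))
  have hrhs : ∀ n, ‖(g n).1‖ₑ ^ 2 + ‖(g n).2‖ₑ ^ 2 = ‖(g n).2 + I • (g n).1‖ₑ ^ 2 := by
    intro n
    have := Sym.norm_sq (G := G) hG.1 (hg n) hI
    rw [← ofReal_norm_eq_enorm, ← ofReal_norm_eq_enorm, ← ofReal_norm_eq_enorm,
      ← ENNReal.ofReal_pow (norm_nonneg _), ← ENNReal.ofReal_pow (norm_nonneg _),
      ← ENNReal.ofReal_pow (norm_nonneg _), this,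
      ENNReal.ofReal_add (sq_nonneg _) (sq_nonneg _)]
  have hr : Tendsto (fun n => C * ‖(g n).2 + I • (g n).1‖ₑ ^ 2) atTop (𝓝 (C * ‖v₁‖ₑ ^ 2)) :=
    ENNReal.Tendsto.const_mul ((hsq.tendsto _).comp hlim.enorm) (Or.inr hC)
  calc ∑ j, ∫⁻ o, a o * ‖⟪w j o, R v⟫_ℂ‖ₑ ^ 2 ∂ν
      = ∫⁻ o, ∑ j, a o * ‖⟪w j o, R v⟫_ℂ‖ₑ ^ 2 ∂ν :=
        (lintegral_finset_sum _ fun j _ => hm j _).symm
    _ = ∫⁻ o, liminf (fun n => ∑ j, a o * ‖⟪w j o, (g n).1⟫_ℂ‖ₑ ^ 2) atTop ∂ν :=
        lintegral_congr fun o => (hpt o).liminf_eq.symm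
    _ ≤ liminf (fun n => ∫⁻ o, ∑ j, a o * ‖⟪w j o, (g n).1⟫_ℂ‖ₑ ^ 2 ∂ν) atTop :=
        lintegral_liminf_le fun n => Finset.measurable_sum _ fun j _ => hm j _
    _ ≤ liminf (fun n => C * ‖(g n).2 + I • (g n).1‖ₑ ^ 2) atTop := by
        refine liminf_le_liminf (Eventually.of_forall fun n => ?_)
        rw [lintegral_finset_sum _ fun j _ => hm j _, ← hrhs]
        exact h _ (hsub _ (hg n))
    _ = C * ‖v₁‖ₑ ^ 2 := hr.liminf_eq
    _ ≤ C * ‖v‖ₑ ^ 2 := by
        have : ‖v₁‖ₑ ≤ ‖v‖ₑ := by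
          rw [← ofReal_norm_eq_enorm, ← ofReal_norm_eq_enorm]
          exact ENNReal.ofReal_le_ofReal hn
        gcongr

end Pool.Agent.P.MP_e0a138_an.AD
end
end

-- part Pool.Agent.P.MP_e0a138_an.GE25b
section

set_option autoImplicit false
set_option linter.unusedSectionVars false
set_option linter.unusedVariables false

open MeasureTheory Filter Topology Metric Complex
open scoped ENNReal NNReal ContDiff InnerProductSpace ComplexConjugate

noncomputable section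
namespace Pool.Agent.P.MP_e0a138_an.AD

variable {N p q k : ℕ} {W : Type} [NormedAddCommGroup W] [InnerProductSpace ℂ W]
  [FiniteDimensional ℂ W] [CompleteSpace W]
variable {A : Atl N p q k} {ε : Eu N →L[ℝ] W →L[ℂ] W}

namespace Atl
variable {DF DH : (Eu N → W) → Eu N → W} {μ : Measure (Eu N)}

theorem Dir.tail_form (hD : A.Dir ε μ DF DH) (hε : IsCAR ε) (hμ : A.IsVol μ) {β : Eu q → ℝ}
    (hβ : ContDiff ℝ ∞ β) (hc : HasCompactSupport β) : ∃ C : ℝ≥0, ∀ h ∈ Set.Ioc (0 : ℝ) 1,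
      ∀ u, A.Form ε u →
      ∑ i, ∫⁻ o, ENNReal.ofReal (‖o.1‖ ^ 2 + ‖o.2.2‖ ^ 2) * ‖Lam β h (A.loc i u) o‖ₑ ^ 2 ≤
        ENNReal.ofReal ((2 * Real.pi * h) ^ q) * C *
          (∫⁻ m, ‖u m‖ₑ ^ 2 ∂μ + ∫⁻ m, ‖Dh DF DH h u m‖ₑ ^ 2 ∂μ) := by
  obtain ⟨r, -, hr, hk⟩ := A.kap_props
  obtain ⟨C1, h1⟩ := Lam_tail (W := W) hβ hc p
  choose c hc0 hell using fun i => A.wh_ell hr i
  choose L hL using fun i => A.wh_bdd hr i
  choose Cg hg using fun i =>
    garding (E := Eu p × Eu q) hε (Fin p ⊕ Fin q) (L i) (hc0 i)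
  choose Cl hl using fun i => hD.loc_op hμ i
  refine ⟨∑ i, C1 * ((Cg i + 1) * Cl i), fun h hh u hu => ?_⟩
  have hh' : h ∈ Set.Icc (0 : ℝ) 1 := ⟨hh.1.le, hh.2⟩
  rw [ENNReal.ofNNReal_finsetSum, Finset.mul_sum, Finset.sum_mul]
  refine Finset.sum_le_sum fun i _ => ?_
  obtain ⟨s1, s2⟩ := loc_smooth hu.1 i
  have g1 := hg i (ball 0 1) (closedBall 0 r) (A.wh h i) (cbh h) (A.loc i u) isOpen_ball
    (isCompact_closedBall _ _) (closedBall_subset_ball hr) (wh_smooth h i) (hell i h hh')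
    (hL i h hh') (norm_cbh_le hh'.1 hh'.2) s1 fun x hx => by simp [loc, (hk i).2 x hx]
  have l1 := hl i h hh' u hu
  refine (h1 h hh _ s1 s2).trans ?_
  push_cast
  rw [← mul_assoc _ (C1 : ℝ≥0∞), mul_assoc _ (_ * (Cl i : ℝ≥0∞)), mul_assoc _ (Cl i : ℝ≥0∞)]
  refine mul_le_mul_right (le_trans ?_ (mul_le_mul_right l1 _)) _
  rw [add_mul, one_mul]
  exact add_le_add g1 le_add_self

theorem Dir.tail_res (hD : A.Dir ε μ DF DH) (hε : IsCAR ε) (hμ : A.IsVol μ) {β : Eu q → ℝ}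
    (hβ : ContDiff ℝ ∞ β) (hc : HasCompactSupport β) : ∃ C : ℝ≥0, ∀ h ∈ Set.Ioc (0 : ℝ) 1,
      ∀ R, IsRes (A.grM ε μ (Dh DF DH h)) R → ∀ (v : Lp W 2 μ) (K : ℕ),
      ∑ j, ∫⁻ o in (Om p q K)ᶜ, ‖⟪A.wv ε μ β h j o, R v⟫_ℂ‖ₑ ^ 2 ≤
        C / K ^ 2 * (ENNReal.ofReal ((2 * Real.pi * h) ^ q) * ‖v‖ₑ ^ 2) := by
  obtain ⟨C, hC⟩ := hD.tail_form hε hμ hβ hc
  refine ⟨C, fun h hh R hR v K => ?_⟩
  have ha : Measurable fun o : Eu p × Eu q × Eu q => ENNReal.ofReal (‖o.1‖ ^ 2 + ‖o.2.2‖ ^ 2) := by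
    fun_prop
  have hw := fun j => wv_measurable (A := A) hε hμ hβ.continuous hc h j
  have key := tail_ext (hD.essSA_M hε hμ h) hR (hD.grM_span hμ h) volume hw ha
    (fun _ => ENNReal.ofReal_ne_top) (C := ENNReal.ofReal ((2 * Real.pi * h) ^ q) * C)
    (ENNReal.mul_ne_top ENNReal.ofReal_ne_top ENNReal.coe_ne_top) (by
      rintro g ⟨u, hu, e1, e2⟩
      rw [wv_sum hε hμ hβ.continuous hc h ha e1 (hμ.ae_mem.mono fun m hm => hu.2 m hm),
        enorm_sq_eq_of_ae e1, enorm_sq_eq_of_ae e2]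
      exact hC h hh u hu) v
  have hO : MeasurableSet (Om p q K) :=
    measurableSet_closedBall.prod (MeasurableSet.univ.prod measurableSet_closedBall)
  have h1 : ∀ o ∈ (Om p q K)ᶜ,
      1 ≤ ((K : ℝ≥0∞) ^ 2)⁻¹ * ENNReal.ofReal (‖o.1‖ ^ 2 + ‖o.2.2‖ ^ 2) := fun o ho => by
    have hK : (0 : ℝ) ≤ K := K.cast_nonneg
    have hlt : (K : ℝ) ^ 2 < ‖o.1‖ ^ 2 + ‖o.2.2‖ ^ 2 := by
      by_contra hn
      push Not at hn
      refine ho ⟨mem_closedBall_zero_iff.2 ?_, trivial, mem_closedBall_zero_iff.2 ?_⟩ <;>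
        refine (pow_le_pow_iff_left₀ (norm_nonneg _) hK two_ne_zero).1 ?_ <;>
        nlinarith [sq_nonneg ‖o.1‖, sq_nonneg ‖o.2.2‖]
    rw [← ENNReal.div_eq_inv_mul, ENNReal.le_div_iff_mul_le
      (.inr (ENNReal.ofReal_pos.2 (lt_of_le_of_lt (sq_nonneg _) hlt)).ne')
      (.inr ENNReal.ofReal_ne_top), one_mul, ← ENNReal.ofReal_natCast, ← ENNReal.ofReal_pow hK]
    exact ENNReal.ofReal_le_ofReal hlt.le
  calc _ ≤ ∑ j, ((K : ℝ≥0∞) ^ 2)⁻¹ * ∫⁻ o, ENNReal.ofReal (‖o.1‖ ^ 2 + ‖o.2.2‖ ^ 2) *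
        ‖⟪A.wv ε μ β h j o, R v⟫_ℂ‖ₑ ^ 2 := by
        refine Finset.sum_le_sum fun j _ => ?_
        rw [← lintegral_const_mul _ (ha.fun_mul ((hw j (R v)).enorm.pow_const 2))]
        refine (setLIntegral_mono' hO.compl fun o ho => ?_).trans (setLIntegral_le_lintegral _ _)
        rw [← mul_assoc]
        exact le_mul_of_one_le_left' (h1 o ho)
    _ ≤ ((K : ℝ≥0∞) ^ 2)⁻¹ * (ENNReal.ofReal ((2 * Real.pi * h) ^ q) * C * ‖v‖ₑ ^ 2) := by
        rw [← Finset.mul_sum]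
        exact mul_le_mul_right key _
    _ = _ := by
        rw [ENNReal.div_eq_inv_mul]
        ring

end Atl

end Pool.Agent.P.MP_e0a138_an.AD
end
end

-- part Pool.Agent.P.MP_e0a138_an.GE25c
section

set_option autoImplicit false
set_option linter.unusedSectionVars false
set_option linter.unusedVariables false

open MeasureTheory Filter Topology Metric Complex
open scoped ENNReal NNReal ContDiff InnerProductSpace ComplexConjugate

noncomputable section
namespace Pool.Agent.P.MP_e0a138_an.AD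

variable {N p q k : ℕ} {W : Type} [NormedAddCommGroup W] [InnerProductSpace ℂ W]
  [FiniteDimensional ℂ W] [CompleteSpace W]
variable {A : Atl N p q k} {ε : Eu N →L[ℝ] W →L[ℂ] W}

theorem Om_props (p q : ℕ) : (∀ K, MeasurableSet (Om p q K)) ∧ Monotone (Om p q) ∧
    ⋃ K, Om p q K = Set.univ ∧
    ∀ K, volume (Om p q K ∩ Set.univ ×ˢ (ball (0 : Eu q) 1 ×ˢ Set.univ)) ≠ ⊤ := by
  have hm : ∀ K, MeasurableSet (Om p q K) := fun K =>
    measurableSet_closedBall.prod (MeasurableSet.univ.prod measurableSet_closedBall)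
  refine ⟨hm, fun K K' h o ho => ?_, Set.eq_univ_of_forall fun o => ?_, fun K => ?_⟩
  · have h1 : (K : ℝ) ≤ K' := Nat.cast_le.2 h
    exact ⟨closedBall_subset_closedBall h1 ho.1, trivial, closedBall_subset_closedBall h1 ho.2.2⟩
  · obtain ⟨K, hK⟩ := exists_nat_ge (max ‖o.1‖ ‖o.2.2‖)
    exact Set.mem_iUnion.2 ⟨K, mem_closedBall_zero_iff.2 ((le_max_left _ _).trans hK), trivial,
      mem_closedBall_zero_iff.2 ((le_max_right _ _).trans hK)⟩
  · refine ((measure_mono fun o ho => ?_).trans_lt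
      ((isCompact_closedBall (0 : Eu p) K).prod ((isCompact_closedBall (0 : Eu q) 1).prod
        (isCompact_closedBall (0 : Eu q) K))).measure_lt_top).ne
    exact ⟨ho.1.1, ball_subset_closedBall ho.2.2.1, ho.1.2.2⟩

namespace Atl
variable {DF DH : (Eu N → W) → Eu N → W} {μ : Measure (Eu N)}

theorem Dir.trunc (hD : A.Dir ε μ DF DH) (hε : IsCAR ε) (hμ : A.IsVol μ) {β : Eu q → ℝ}
    (hβ : ContDiff ℝ ∞ β) (hc : HasCompactSupport β) (hn : ∫ y, β y ^ 2 = 1)
    {R : ℝ → Lp W 2 μ →L[ℂ] Lp W 2 μ} (hR : ∀ h, IsRes (A.grM ε μ (Dh DF DH h)) (R h))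
    {f : ℝ → ℝ} (hf : Continuous f) (hfc : HasCompactSupport f) (h0 : ∀ x, 0 ≤ f x)
    {φ : ℝ → Fin k × Fin (Module.finrank ℂ W) → Eu p × Eu q × Eu q → ℝ≥0∞}
    (hφ : ∀ h j o, φ h j o =
      ENNReal.ofReal (⟪A.wv ε μ β h j o, fc f (R h) (A.wv ε μ β h j o)⟫_ℂ).re) :
    ∃ (C : ℝ≥0) (d : ℕ → ℝ≥0∞), Tendsto d atTop (𝓝 0) ∧
      (∀ᶠ h in 𝓝[>] (0 : ℝ), ∀ j, Measurable (φ h j) ∧
        ∀ o, φ h j o ≤ C ∧ (o.2 ∉ ball (0 : Eu q) 1 ×ˢ Set.univ → φ h j o = 0)) ∧
      ∀ K, ∀ᶠ h in 𝓝[>] (0 : ℝ), ∑ j, ∫⁻ o in Om p q K, φ h j o ≤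
          ENNReal.ofReal ((2 * Real.pi * h) ^ q) * tr (fun _ => 1) (fc f (R h)) ∧
        (1 - d K) * (ENNReal.ofReal ((2 * Real.pi * h) ^ q) * tr (fun _ => 1) (fc f (R h))) ≤
          ∑ j, ∫⁻ o in Om p q K, φ h j o := by
  have := hμ.separable (W := W)
  obtain ⟨Cf, hCf⟩ := fc_sqrt hf hfc h0
  obtain ⟨Ct, hCt⟩ := hD.tail_res hε hμ hβ hc
  obtain ⟨Cw, hCw⟩ := wv_bound hε hμ hβ.continuous hc
  have hp := fun h => IsRes.props (hD.essSA_M hε hμ h) (hR h)
  choose S hS1 hS2 hS3 hS4 using fun h => hCf _ (R h) (hp h).2.2.2.1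
  have hφ' : ∀ h j o, φ h j o = ‖S h (A.wv ε μ β h j o)‖ₑ ^ 2 := fun h j o => by
    rw [hφ, enorm_sq_eq_ofReal (hS1 h), hS2]
  have hw := fun h => wv_measurable hε hμ hβ.continuous hc h
  have hle : ∀ x y : Lp W 2 μ, ‖x‖ ≤ Cf * ‖y‖ → ‖x‖ₑ ^ 2 ≤ (Cf : ℝ≥0∞) ^ 2 * ‖y‖ₑ ^ 2 := by
    intro x y hxy
    rw [← mul_pow, enorm_eq_nnnorm, enorm_eq_nnnorm, ← ENNReal.coe_mul]
    exact pow_le_pow_left' (ENNReal.coe_le_coe.2 hxy) 2
  refine ⟨Cf ^ 2 * Cw, fun K => Ct / K ^ 2 * (Cf : ℝ≥0∞) ^ 2, ?_, ?_, fun K => ?_⟩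
  · have h1 : Tendsto (fun K : ℕ => ((K : ℝ≥0∞)⁻¹) ^ 2) atTop (𝓝 0) := by
      have := ENNReal.Tendsto.pow (n := 2) ENNReal.tendsto_inv_nat_nhds_zero
      rwa [zero_pow two_ne_zero] at this
    have h2 := ENNReal.Tendsto.const_mul (a := (Ct : ℝ≥0∞) * (Cf : ℝ≥0∞) ^ 2) h1
      (Or.inr (ENNReal.mul_ne_top ENNReal.coe_ne_top (ENNReal.pow_ne_top ENNReal.coe_ne_top)))
    rw [mul_zero] at h2
    refine h2.congr fun K => ?_
    rw [div_eq_mul_inv, ENNReal.inv_pow, mul_right_comm]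
  · filter_upwards [hCw] with h hh j
    refine ⟨?_, fun o => ⟨?_, fun ho => ?_⟩⟩
    · rw [funext (hφ' h j)]
      exact measurable_frame (hw h) (hS1 h) j
    · rw [hφ', ENNReal.coe_mul, ENNReal.coe_pow]
      refine (hle _ _ (((S h).le_opNorm _).trans
        (mul_le_mul_of_nonneg_right (hS3 h) (norm_nonneg _)))).trans ?_
      exact mul_le_mul_right (hh j o).1 _
    · rw [hφ', (hh j o).2 fun h1 => ho ⟨h1, trivial⟩, map_zero, enorm_zero, zero_pow two_ne_zero]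
  · filter_upwards [Ioc_mem_nhdsGT (zero_lt_one' ℝ)] with h hh
    simp only [hφ', tr_one, ← hS2]
    refine frame_trunc volume (hw h) (hS1 h) ENNReal.ofReal_ne_top ((Om_props p q).1 K)
      (fun e => ?_) fun e => ?_
    · obtain ⟨v, hv, -⟩ := hS4 h e
      refine wv_frame hε hμ hβ.continuous hc hn hh.1 (hD.inK_val hε hμ h ?_)
      rw [hv]
      exact (hp h).2.2.2.2 v
    · obtain ⟨v, hv, hv'⟩ := hS4 h e
      have h1 := hCt h hh (R h) (hR h) v K
      rw [← hv] at h1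
      refine h1.trans ?_
      rw [mul_assoc _ ((Cf : ℝ≥0∞) ^ 2), mul_left_comm ((Cf : ℝ≥0∞) ^ 2)]
      exact mul_le_mul_right (mul_le_mul_right (hle _ _ hv') _) _

end Atl

end Pool.Agent.P.MP_e0a138_an.AD
end
end

-- part Pool.Agent.P.MP_e0a138_an.GE13b
section

set_option autoImplicit false
set_option linter.unusedSectionVars false
set_option linter.unusedVariables false

open MeasureTheory Filter Topology Metric Complex
open scoped ENNReal NNReal ContDiff InnerProductSpace ComplexConjugate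

noncomputable section
namespace Pool.Agent.P.MP_e0a138_an.AD

variable {N p q k : ℕ} {W : Type} [NormedAddCommGroup W] [InnerProductSpace ℂ W]
  [FiniteDimensional ℂ W] [CompleteSpace W]
variable {A : Atl N p q k}

namespace Atl
variable {l : Measure (Eu N × Eu N)} {t₀ : Tr q k} {B : Tr q k → Eu q ≃L[ℝ] Eu q}

theorem ge13b_gam {t t' : Tr q k} {x : Eu p} (h : A.gam t x ∈ A.plq t') :
    A.gam t x = A.gam t' (A.φ t'.1 (A.ψ t.1 (x, t.2.1))).1 := (plq_fst h).2.2.2.2.symm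

theorem ge13b_aem {t : Tr q k} (ht : t.2.1 ∈ ball (0 : Eu q) 1) {S : Set (Eu p)}
    (hS : MeasurableSet S) (h : S ⊆ ball 0 1) : AEMeasurable (A.gam t) (volume.restrict S) :=
  ((gam_continuousOn ht).mono h).aemeasurable hS

theorem ge13b_res {t : Tr q k} (ht : t.2.1 ∈ ball (0 : Eu q) 1) (t' : Tr q k) (c : ℝ≥0) :
    (c • A.pm t).restrict (A.plq t') = (wm (ball (0 : Eu p) 1 ∩ A.gam t ⁻¹' A.plq t')
      fun x => (c : ℝ) * A.rho t.1 (x, t.2.1)).map (A.gam t) := by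
  rw [Measure.restrict_smul, pm_eq ht, restrict_map_wm measurableSet_ball
    (ge13b_aem ht measurableSet_ball subset_rfl) (measurableSet_plq t')
    (isOpen_overlap ht t').measurableSet, ← smul_wm, Measure.map_smul]

theorem ge13b_img {t t' : Tr q k} (ht : t.2.1 ∈ ball (0 : Eu q) 1)
    (ht' : t'.2.1 ∈ ball (0 : Eu q) 1) :
    (fun x => (A.φ t'.1 (A.ψ t.1 (x, t.2.1))).1) '' (ball (0 : Eu p) 1 ∩ A.gam t ⁻¹' A.plq t') =
      ball (0 : Eu p) 1 ∩ A.gam t' ⁻¹' A.plq t := by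
  ext x'
  constructor
  · rintro ⟨x, ⟨hx, h⟩, rfl⟩
    have h1 := plq_fst (show A.gam t x ∈ A.plq t' from h)
    have h2 : A.φ t'.1 (A.ψ t.1 (x, t.2.1)) ∈ ball (0 : Eu p × Eu q) 1 := (φ_mem h1.1 h1.2.1).1
    refine ⟨(mem_ball_prod.1 h2).1, ?_⟩
    show A.gam t' (A.φ t'.1 (A.ψ t.1 (x, t.2.1))).1 ∈ A.plq t
    rw [← ge13b_gam h, plq_eq ht]
    exact ⟨x, hx, rfl⟩
  · rintro ⟨hx', h⟩
    have h' : A.gam t' x' ∈ A.plq t := h
    rw [plq_eq ht] at h'
    obtain ⟨x, hx, e⟩ := h'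
    refine ⟨x, ⟨hx, ?_⟩, ?_⟩
    · show A.gam t x ∈ A.plq t'
      rw [e, plq_eq ht']
      exact ⟨x', hx', rfl⟩
    · show (A.φ t'.1 (A.gam t x).1).1 = x'
      rw [e]
      exact gam_inv ht' hx'

theorem ge13b_jac {e e' : Eu q ≃L[ℝ] Eu q} {D : Eu q →L[ℝ] Eu q}
    (h : (e' : Eu q →L[ℝ] Eu q) = D ∘L (e : Eu q →L[ℝ] Eu q)) :
    (jac e' : ℝ) = |D.det| * jac e := by
  have h1 : (D ∘L (e : Eu q →L[ℝ] Eu q)).det = D.det * (e : Eu q →L[ℝ] Eu q).det :=
    LinearMap.det_comp (D : Eu q →ₗ[ℝ] Eu q) ((e : Eu q →L[ℝ] Eu q) : Eu q →ₗ[ℝ] Eu q)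
  simp only [jac, coe_nnnorm, h, h1, Real.norm_eq_abs, abs_mul]

theorem ge13b_cont (t : Tr q k) (c : ℝ) (S : Set (Eu p)) :
    ContinuousOn (fun x => c * A.rho t.1 (x, t.2.1)) S :=
  (continuous_const.mul ((rho_continuous t.1).comp (by fun_prop))).continuousOn

theorem Hd.compat (hB : A.Hd t₀ B) {t t' : Tr q k} (ht : A.Reach t₀ t) (ht' : A.Reach t₀ t') :
    (jac (B t) • A.pm t).restrict (A.plq t') = (jac (B t') • A.pm t').restrict (A.plq t) := by
  have hy := ht.mem hB.mem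
  have hy' := ht'.mem hB.mem
  have hT : Differentiable ℝ fun x => (A.φ t'.1 (A.ψ t.1 (x, t.2.1))).1 :=
    (((A.φ_smooth t'.1).comp ((A.ψ_smooth t.1).comp
      (contDiff_id.prodMk contDiff_const))).fst).differentiable (by simp)
  rw [ge13b_res hy, ge13b_res hy']
  refine change_var (T := fun x => (A.φ t'.1 (A.ψ t.1 (x, t.2.1))).1)
    (T' := fun x => fderiv ℝ (fun x => (A.φ t'.1 (A.ψ t.1 (x, t.2.1))).1) x)
    (isOpen_overlap hy t').measurableSet (isOpen_overlap hy' t).measurableSet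
    (fun x _ => (hT x).hasFDerivAt.hasFDerivWithinAt) ?_ (ge13b_img hy hy')
    (ge13b_cont _ _ _) (ge13b_cont _ _ _) ?_
    (ge13b_aem hy (isOpen_overlap hy t').measurableSet Set.inter_subset_left)
    (ge13b_aem hy' (isOpen_overlap hy' t).measurableSet Set.inter_subset_left)
    fun x hx => ge13b_gam hx.2
  · intro x₁ h₁ x₂ h₂ e
    have e' : A.gam t x₁ = A.gam t x₂ := by
      rw [ge13b_gam (show A.gam t x₁ ∈ A.plq t' from h₁.2),
        ge13b_gam (show A.gam t x₂ ∈ A.plq t' from h₂.2)]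
      exact congrArg (A.gam t') e
    rw [← gam_inv hy h₁.1, e', gam_inv hy h₂.1]
  · intro x hx
    obtain ⟨hU, hτ, -⟩ := (gam_mem_iff hy hx.1).1 hx.2
    have hj := ge13b_jac (hB.cons t t' ht ht' x hx.1 hU hτ).2
    have e : A.φ t'.1 (A.ψ t.1 (x, t.2.1)) = ((A.φ t'.1 (A.ψ t.1 (x, t.2.1))).1, t'.2.1) :=
      Prod.ext rfl hτ
    have hr := rho_trans' (mem_ball_prod.2 ⟨hx.1, hy⟩) hU
    rw [hr, hj, ← e]
    ring

theorem Hd.exists_leaf (hB : A.Hd t₀ B) : ∃ l, A.IsLeaf t₀ l := by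
  have : Countable {t // A.Reach t₀ t} := (countable_reach t₀).to_subtype
  obtain ⟨l, h0, h1⟩ := glue (J := {t // A.Reach t₀ t}) (Q := fun t => A.plq t.1)
    (fun t => measurableSet_plq t.1) (m := fun t => jac (B t.1) • A.pm t.1)
    (fun t => by rw [Measure.smul_apply, pm_compl (t.2.mem hB.mem), smul_zero])
    fun t t' => hB.compat t.2 t'.2
  refine ⟨l, ?_, fun t ht => ⟨jac (B t), jac_ne_zero _, h1 ⟨t, ht⟩⟩⟩
  rw [Set.biUnion_eq_iUnion]
  exact h0

theorem Hd.scale (hB : A.Hd t₀ B) (hl : A.IsLeaf t₀ l) : ∃ c : ℝ≥0, c ≠ 0 ∧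
    ∀ t, A.Reach t₀ t → l.restrict (A.plq t) = (c * jac (B t)) • A.pm t := by
  obtain ⟨c, hc, h0⟩ := hl.2 t₀ Relation.ReflTransGen.refl
  refine ⟨c, hc, fun t ht => ?_⟩
  induction ht with
  | refl => rw [hB.base, jac_refl, mul_one]; exact h0
  | @tail t t' hr hs ih =>
    have hr' : A.Reach t₀ t' := Relation.ReflTransGen.tail hr hs
    obtain ⟨c', -, h1⟩ := hl.2 t' hr'
    have hy' := hr'.mem hB.mem
    have := pm_finite (A := A) hy'
    have e1 : (l.restrict (A.plq t)).restrict (A.plq t') =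
        (l.restrict (A.plq t')).restrict (A.plq t) := by
      rw [Measure.restrict_restrict (measurableSet_plq _),
        Measure.restrict_restrict (measurableSet_plq _), Set.inter_comm]
    rw [ih, h1, mul_smul, Measure.restrict_smul, hB.compat hr hr', ← Measure.restrict_smul,
      ← mul_smul] at e1
    have e2 := congrArg (fun m : Measure (Eu N × Eu N) => m Set.univ) e1
    simp only [Measure.restrict_apply_univ, Measure.smul_apply] at e2
    have hp : A.pm t' (A.plq t) ≠ 0 := pm_pos (by rwa [Set.inter_comm])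
    have e3 : c * jac (B t') = c' := by
      have := (ENNReal.mul_left_inj hp (measure_ne_top _ _)).1 e2
      exact_mod_cast this
    rw [e3]
    exact h1

end Atl

end Pool.Agent.P.MP_e0a138_an.AD
end
end

-- part Pool.Agent.P.MP_e0a138_an.AN11a
section

set_option autoImplicit false
set_option linter.unusedSectionVars false
set_option linter.unusedVariables false

open MeasureTheory Filter Topology Metric Complex
open scoped ENNReal NNReal ContDiff InnerProductSpace ComplexConjugate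

noncomputable section
namespace Pool.Agent.P.MP_e0a138_an.AD

variable {N p q k : ℕ} {W : Type} [NormedAddCommGroup W] [InnerProductSpace ℂ W]
  [FiniteDimensional ℂ W] [CompleteSpace W]

theorem AN11a_taylor {E : Type} [NormedAddCommGroup E] [NormedSpace ℝ E] {τ : E → E}
    (hτ : ContDiff ℝ ∞ τ) (y : E) :
    ∃ C : ℝ, 0 ≤ C ∧ ∀ᶠ w in 𝓝 (0 : E), ‖τ (y + w) - τ y - fderiv ℝ τ y w‖ ≤ C * ‖w‖ ^ 2 := by
  have h1 : ContDiffAt ℝ 1 (fderiv ℝ τ) y :=
    (hτ.fderiv_right (m := 1) (by norm_cast)).contDiffAt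
  obtain ⟨K, s, hs, hK⟩ := h1.exists_lipschitzOnWith
  obtain ⟨r, hr, hrs⟩ := Metric.mem_nhds_iff.1 hs
  refine ⟨K, K.2, ?_⟩
  filter_upwards [Metric.ball_mem_nhds (0 : E) hr] with w hw
  have hw' : ‖w‖ < r := by simpa using hw
  have hd : Differentiable ℝ τ := hτ.differentiable (by simp)
  have hsub : closedBall y ‖w‖ ⊆ s := (closedBall_subset_ball hw').trans hrs
  have hb : ∀ x ∈ closedBall y ‖w‖, ‖fderiv ℝ τ x - fderiv ℝ τ y‖ ≤ K * ‖w‖ := by
    intro x hx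
    have := hK.dist_le_mul x (hsub hx) y (hsub (mem_closedBall_self (norm_nonneg _)))
    rw [dist_eq_norm] at this
    exact this.trans (mul_le_mul_of_nonneg_left (mem_closedBall.1 hx) K.2)
  have := (convex_closedBall y ‖w‖).norm_image_sub_le_of_norm_hasFDerivWithin_le'
    (f := τ) (f' := fderiv ℝ τ) (φ := fderiv ℝ τ y) (x := y) (y := y + w)
    (fun x _ => (hd x).hasFDerivAt.hasFDerivWithinAt) hb (mem_closedBall_self (norm_nonneg _))
    (by simp [mem_closedBall, dist_eq_norm])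
  simp only [add_sub_cancel_left] at this
  calc _ ≤ K * ‖w‖ * ‖w‖ := this
    _ = K * ‖w‖ ^ 2 := by ring

theorem AN11a_norm_exp (a : ℝ) : ‖cexp (I * (a : ℂ))‖ = 1 := by
  rw [mul_comm I, Complex.norm_exp_ofReal_mul_I]

theorem gram_pt {β : Eu q → ℝ} (hβ : Continuous β) (hc : HasCompactSupport β) {Φ : Eu q → ℂ}
    (hΦ : Continuous Φ) {τ : Eu q → Eu q} (hτ : ContDiff ℝ ∞ τ) (y η y' η' : Eu q)
    (B B' : Eu q ≃L[ℝ] Eu q) (hcons : Φ y ≠ 0 → τ y = y' →
      η = ContinuousLinearMap.adjoint (fderiv ℝ τ y) η' ∧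
      (B' : Eu q →L[ℝ] Eu q) = fderiv ℝ τ y ∘L (B : Eu q →L[ℝ] Eu q)) (t : Eu q) :
    Tendsto (fun h : ℝ => ((β t * β ((sc h)⁻¹ • B'.symm (τ (y + sc h • B t) - y')) : ℝ) : ℂ) *
      cexp (I * (((⟪η', τ (y + sc h • B t) - y'⟫_ℝ - ⟪η, sc h • B t⟫_ℝ) / h : ℝ) : ℂ)) *
      Φ (y + sc h • B t)) (𝓝[>] 0)
      (𝓝 (((β t ^ 2 : ℝ) : ℂ) * {Y | τ Y = y'}.indicator Φ y)) := by
  have hw : Tendsto (fun h : ℝ => sc h • B t) (𝓝[>] 0) (𝓝 0) := by
    simpa using sc_tendsto.smul_const (B t)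
  have hyw : Tendsto (fun h : ℝ => y + sc h • B t) (𝓝[>] 0) (𝓝 y) := by
    simpa using hw.const_add y
  have hΦt : Tendsto (fun h : ℝ => Φ (y + sc h • B t)) (𝓝[>] 0) (𝓝 (Φ y)) :=
    (hΦ.tendsto y).comp hyw
  have hpos : ∀ᶠ h : ℝ in 𝓝[>] 0, 0 < h := eventually_mem_nhdsWithin
  by_cases h0 : Φ y = 0
  · have e0 : {Y | τ Y = y'}.indicator Φ y = 0 := by
      by_cases hy : y ∈ {Y | τ Y = y'}
      · rw [Set.indicator_of_mem hy, h0]
      · exact Set.indicator_of_notMem hy _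
    rw [e0, mul_zero]
    obtain ⟨C, hC⟩ := hβ.bounded_above_of_compact_support hc
    refine squeeze_zero_norm (a := fun h : ℝ => C * C * ‖Φ (y + sc h • B t)‖) (fun h => ?_) ?_
    · rw [norm_mul, norm_mul, AN11a_norm_exp, mul_one, Complex.norm_real, norm_mul]
      exact mul_le_mul_of_nonneg_right
        (mul_le_mul (hC _) (hC _) (norm_nonneg _) ((norm_nonneg _).trans (hC t))) (norm_nonneg _)
    · have := hΦt.norm.const_mul (C * C)
      simpa [h0] using this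
  by_cases hy : τ y = y'
  · obtain ⟨hη, hB⟩ := hcons h0 hy
    rw [Set.indicator_of_mem (show y ∈ {Y | τ Y = y'} from hy)]
    obtain ⟨C, hC0, hC⟩ := AN11a_taylor hτ y
    set D := fderiv ℝ τ y with hD
    set R : ℝ → Eu q := fun h => τ (y + sc h • B t) - τ y - D (sc h • B t) with hR
    have hRb : ∀ᶠ h : ℝ in 𝓝[>] 0, ‖R h‖ ≤ C * ‖B t‖ ^ 2 * sc h ^ 2 := by
      filter_upwards [hw.eventually hC] with h hh
      refine hh.trans (le_of_eq ?_)
      rw [norm_smul, mul_pow, Real.norm_eq_abs, sq_abs]; ring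
    have hDB : D (B t) = B' t := by
      have := congrArg (fun L : Eu q →L[ℝ] Eu q => L t) hB
      simpa using this.symm
    have hR1 : Tendsto (fun h => (sc h)⁻¹ • R h) (𝓝[>] 0) (𝓝 0) := by
      refine squeeze_zero_norm' (a := fun h => C * ‖B t‖ ^ 2 * sc h) ?_
        (by simpa using sc_tendsto.const_mul (C * ‖B t‖ ^ 2))
      filter_upwards [hRb, hpos] with h hh hp
      have hs := sc_pos hp
      rw [norm_smul, norm_inv, Real.norm_eq_abs, abs_of_pos hs, inv_mul_le_iff₀ hs]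
      exact hh.trans (le_of_eq (by ring))
    have harg : Tendsto (fun h => (sc h)⁻¹ • B'.symm (τ (y + sc h • B t) - y')) (𝓝[>] 0)
        (𝓝 t) := by
      have h1 : Tendsto (fun h => t + B'.symm ((sc h)⁻¹ • R h)) (𝓝[>] 0) (𝓝 t) := by
        have := ((B'.symm.continuous.tendsto 0).comp hR1).const_add t
        simpa using this
      refine h1.congr' ?_
      filter_upwards [hpos] with h hp
      have hs := (sc_pos hp).ne'
      have e1 : τ (y + sc h • B t) - y' = R h + sc h • B' t := by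
        simp only [hR, map_smul, hDB, hy]; abel
      rw [e1, map_add, map_smul, map_smul, B'.symm_apply_apply, smul_add, smul_smul,
        inv_mul_cancel₀ hs, one_smul, add_comm]
    have hph : Tendsto (fun h => (⟪η', τ (y + sc h • B t) - y'⟫_ℝ - ⟪η, sc h • B t⟫_ℝ) / h)
        (𝓝[>] 0) (𝓝 0) := by
      refine squeeze_zero_norm' (a := fun h => ‖η'‖ * (C * ‖B t‖ ^ 2) * (sc h ^ 2 / h)) ?_
        (by simpa using sc_sq_div_tendsto.const_mul (‖η'‖ * (C * ‖B t‖ ^ 2)))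
      filter_upwards [hRb, hpos] with h hh hp
      have e1 : ⟪η', τ (y + sc h • B t) - y'⟫_ℝ - ⟪η, sc h • B t⟫_ℝ = ⟪η', R h⟫_ℝ := by
        rw [hη, ContinuousLinearMap.adjoint_inner_left, ← inner_sub_right, hR, hy]
      rw [e1, norm_div, Real.norm_eq_abs h, abs_of_pos hp, div_le_iff₀ hp]
      calc ‖⟪η', R h⟫_ℝ‖ ≤ ‖η'‖ * ‖R h‖ := norm_inner_le_norm _ _
        _ ≤ ‖η'‖ * (C * ‖B t‖ ^ 2 * sc h ^ 2) := mul_le_mul_of_nonneg_left hh (norm_nonneg _)
        _ = _ := by field_simp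
    have hA : Tendsto (fun h : ℝ =>
        ((β t * β ((sc h)⁻¹ • B'.symm (τ (y + sc h • B t) - y')) : ℝ) : ℂ)) (𝓝[>] 0)
        (𝓝 ((β t ^ 2 : ℝ) : ℂ)) := by
      refine (continuous_ofReal.tendsto _).comp ?_
      rw [sq]
      exact ((hβ.tendsto t).comp harg).const_mul _
    have hE : Tendsto (fun h : ℝ => cexp (I *
        (((⟪η', τ (y + sc h • B t) - y'⟫_ℝ - ⟪η, sc h • B t⟫_ℝ) / h : ℝ) : ℂ))) (𝓝[>] 0)
        (𝓝 1) := by
      have hc1 : Continuous fun a : ℝ => cexp (I * (a : ℂ)) :=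
        Complex.continuous_exp.comp (continuous_const.mul continuous_ofReal)
      have := (hc1.tendsto 0).comp hph
      simp only [ofReal_zero, mul_zero, Complex.exp_zero] at this
      exact this
    have := (hA.mul hE).mul hΦt
    rw [mul_one] at this
    exact this
  · rw [Set.indicator_of_notMem (show y ∉ {Y | τ Y = y'} from hy), mul_zero]
    have hv : Tendsto (fun h : ℝ => ‖B'.symm (τ (y + sc h • B t) - y')‖) (𝓝[>] 0)
        (𝓝 ‖B'.symm (τ y - y')‖) :=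
      ((B'.symm.continuous.tendsto _).comp
        (((hτ.continuous.tendsto y).comp hyw).sub_const y')).norm
    have hv0 : 0 < ‖B'.symm (τ y - y')‖ := by
      rw [norm_pos_iff, Ne, map_eq_zero_iff _ B'.symm.injective, sub_eq_zero]; exact hy
    have hsi : Tendsto (fun h : ℝ => (sc h)⁻¹) (𝓝[>] 0) atTop :=
      tendsto_inv_nhdsGT_zero.comp
        (tendsto_nhdsWithin_iff.2 ⟨sc_tendsto, hpos.mono fun h hp => sc_pos hp⟩)
    have htop := hsi.atTop_mul_pos hv0 hv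
    obtain ⟨r, hr⟩ := hc.isCompact.isBounded.subset_closedBall (0 : Eu q)
    refine tendsto_const_nhds.congr' ?_
    filter_upwards [htop.eventually_gt_atTop r, hpos] with h hh hp
    have hz : β ((sc h)⁻¹ • B'.symm (τ (y + sc h • B t) - y')) = 0 := by
      refine image_eq_zero_of_notMem_tsupport fun hm => ?_
      have := mem_closedBall_zero_iff.1 (hr hm)
      rw [norm_smul, Real.norm_eq_abs, abs_of_pos (inv_pos.2 (sc_pos hp))] at this
      exact absurd hh (not_lt.2 this)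
    rw [hz, mul_zero, ofReal_zero, zero_mul, zero_mul]

end Pool.Agent.P.MP_e0a138_an.AD
end
end

-- part Pool.Agent.P.MP_e0a138_an.AN11b
section

set_option autoImplicit false
set_option linter.unusedSectionVars false
set_option linter.unusedVariables false

open MeasureTheory Filter Topology Metric Complex
open scoped ENNReal NNReal ContDiff InnerProductSpace ComplexConjugate

noncomputable section
namespace Pool.Agent.P.MP_e0a138_an.AD

variable {N p q k : ℕ} {W : Type} [NormedAddCommGroup W] [InnerProductSpace ℂ W]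
  [FiniteDimensional ℂ W] [CompleteSpace W]

theorem an11b_sub (f : Eu q → ℂ) {s : ℝ} (hs : 0 < s) (y : Eu q) (B : Eu q ≃L[ℝ] Eu q) :
    ∫ Y, f Y = ∫ t, (s ^ q * jac B : ℝ) • f (y + s • B t) := by
  have h1 := integral_image_eq_integral_abs_det_fderiv_smul (volume : Measure (Eu q))
    (s := Set.univ) (f := fun t => y + s • B t) (f' := fun _ => s • (B : Eu q →L[ℝ] Eu q))
    MeasurableSet.univ (fun t _ => ((B.hasFDerivAt.const_smul s).const_add y).hasFDerivWithinAt)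
    (fun t _ t' _ e => B.injective (smul_right_injective _ hs.ne' (add_left_cancel e))) f
  have h2 : (fun t => y + s • B t) '' Set.univ = Set.univ :=
    Set.image_univ_of_surjective fun Y => ⟨B.symm (s⁻¹ • (Y - y)), by simp [smul_smul, hs.ne']⟩
  have h3 : |(s • (B : Eu q →L[ℝ] Eu q)).det| = s ^ q * jac B := by
    rw [ContinuousLinearMap.det, ContinuousLinearMap.toLinearMap_smul, LinearMap.det_smul, finrank_Eu,
      abs_mul, abs_of_pos (pow_pos hs _)]
    rfl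
  simpa only [h2, h3, Measure.restrict_univ] using h1

theorem an11b_pt (β : Eu q → ℝ) {h : ℝ} (hh : 0 < h) (y η y' η' : Eu q) (B B' : Eu q ≃L[ℝ] Eu q)
    (t T : Eu q) (c : ℂ) :
    (sc h ^ q * jac B : ℝ) • (conj (ph β h y η (B.symm : Eu q →L[ℝ] Eu q) (y + sc h • B t)) *
      ph β h y' η' (B'.symm : Eu q →L[ℝ] Eu q) T * c) =
    ((jac B : ℝ) : ℂ) * (((β t * β ((sc h)⁻¹ • B'.symm (T - y')) : ℝ) : ℂ) *
      cexp (I * (((⟪η', T - y'⟫_ℝ - ⟪η, sc h • B t⟫_ℝ) / h : ℝ) : ℂ)) * c) := by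
  have h0 := sc_pos hh
  have h1 : (sc h)⁻¹ • B.symm (sc h • B t) = t := by simp [smul_smul, h0.ne']
  have h2 : sc h ^ q * ((√(sc h ^ q))⁻¹ * (√(sc h ^ q))⁻¹) = 1 := by
    rw [← mul_inv, Real.mul_self_sqrt (pow_pos h0 _).le, mul_inv_cancel₀ (pow_pos h0 _).ne']
  have h3 : ((sc h ^ q : ℝ) : ℂ) * ((((√(sc h ^ q))⁻¹ : ℝ) : ℂ) * (((√(sc h ^ q))⁻¹ : ℝ) : ℂ)) = 1 := by
    exact_mod_cast h2
  simp only [ph, bw, add_sub_cancel_left, ContinuousLinearEquiv.coe_coe, h1, map_mul, conj_ofReal,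
    ← Complex.exp_conj, conj_I, real_smul, sub_div, ofReal_sub, mul_sub, ofReal_mul]
  rw [sub_eq_add_neg (I * _), Complex.exp_add, ← neg_mul]
  generalize cexp (-I * _) = e1
  generalize cexp (I * _) = e2
  linear_combination ((jac B : ℝ) : ℂ) * (β t) * (β ((sc h)⁻¹ • B'.symm (T - y'))) * e1 * e2 * c * h3

theorem gram_core {β : Eu q → ℝ} (hβ : Continuous β) (hc : HasCompactSupport β)
    {Φ : Eu p × Eu q → ℂ} (hΦ : Continuous Φ) (hΦc : HasCompactSupport Φ)
    {τ : Eu p × Eu q → Eu q} (hτ : ContDiff ℝ ∞ τ) (y η y' η' : Eu q) (B B' : Eu q ≃L[ℝ] Eu q)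
    (hcons : ∀ x, Φ (x, y) ≠ 0 → τ (x, y) = y' →
      η = ContinuousLinearMap.adjoint (fderiv ℝ (fun Y => τ (x, Y)) y) η' ∧
      (B' : Eu q →L[ℝ] Eu q) = fderiv ℝ (fun Y => τ (x, Y)) y ∘L (B : Eu q →L[ℝ] Eu q)) :
    Tendsto (fun h : ℝ => ∫ z, conj (ph β h y η (B.symm : Eu q →L[ℝ] Eu q) z.2) *
      ph β h y' η' (B'.symm : Eu q →L[ℝ] Eu q) (τ z) * Φ z) (𝓝[>] 0)
      (𝓝 ((((jac B : ℝ) * ∫ t, β t ^ 2 : ℝ) : ℂ) *
        ∫ x, {x | τ (x, y) = y'}.indicator (fun x => Φ (x, y)) x)) := by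
  obtain ⟨C, hC⟩ := hβ.bounded_above_of_compact_support hc
  obtain ⟨D, hD⟩ := hΦ.bounded_above_of_compact_support hΦc
  set K : Set (Eu p) := Prod.fst '' tsupport Φ with hK
  have hKc : IsCompact K := hΦc.isCompact.image continuous_fst
  set G : ℝ → Eu p × Eu q → ℂ := fun h z =>
    ((β z.2 * β ((sc h)⁻¹ • B'.symm (τ (z.1, y + sc h • B z.2) - y')) : ℝ) : ℂ) *
      cexp (I * (((⟪η', τ (z.1, y + sc h • B z.2) - y'⟫_ℝ - ⟪η, sc h • B z.2⟫_ℝ) / h : ℝ) : ℂ)) *
      Φ (z.1, y + sc h • B z.2) with hG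
  have hτc := hτ.continuous
  have Gc : ∀ h, Continuous (G h) := fun h => by
    rw [hG]; fun_prop
  have Gb : ∀ h z, ‖G h z‖ ≤ K.indicator (fun _ => C * D) z.1 * ‖β z.2‖ := fun h z => by
    by_cases hz : z.1 ∈ K
    · rw [Set.indicator_of_mem hz, hG, norm_mul, norm_mul, mul_comm I,
        Complex.norm_exp_ofReal_mul_I, mul_one, Complex.norm_real, norm_mul, mul_comm (C * D),
        mul_assoc]
      exact mul_le_mul_of_nonneg_left (mul_le_mul (hC _) (hD _) (norm_nonneg _)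
        ((norm_nonneg _).trans (hC 0))) (norm_nonneg _)
    · have : Φ (z.1, y + sc h • B z.2) = 0 :=
        image_eq_zero_of_notMem_tsupport fun hm => hz ⟨_, hm, rfl⟩
      simp [hG, this, Set.indicator_of_notMem hz]
  have bi : Integrable (fun z : Eu p × Eu q => K.indicator (fun _ => C * D) z.1 * ‖β z.2‖) :=
    Integrable.mul_prod ((integrable_indicator_iff hKc.measurableSet).2
      (integrableOn_const hKc.measure_lt_top.ne)) (hβ.integrable_of_hasCompactSupport hc).norm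
  have lim := tendsto_integral_filter_of_dominated_convergence (l := 𝓝[>] (0 : ℝ)) (F := G)
    (f := fun z => {x | τ (x, y) = y'}.indicator (fun x => Φ (x, y)) z.1 * ((β z.2 ^ 2 : ℝ) : ℂ)) _
    (Eventually.of_forall fun h => (Gc h).aestronglyMeasurable)
    (Eventually.of_forall fun h => Eventually.of_forall (Gb h)) bi
    (Eventually.of_forall fun z => by
      rw [mul_comm]
      exact gram_pt hβ hc (Φ := fun Y => Φ (z.1, Y)) (by fun_prop) (τ := fun Y => τ (z.1, Y))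
        (hτ.comp (contDiff_const.prodMk contDiff_id)) y η y' η' B B' (hcons z.1) z.2)
  rw [Measure.volume_eq_prod, integral_prod_mul (fun x => {x | τ (x, y) = y'}.indicator
    (fun x => Φ (x, y)) x) fun t => ((β t ^ 2 : ℝ) : ℂ), integral_complex_ofReal, mul_comm] at lim
  rw [ofReal_mul, mul_assoc]
  refine (lim.const_mul _).congr' (eventually_mem_nhdsWithin.mono fun h hh => ?_)
  have i1 : Integrable (G h) (volume.prod volume) :=
    bi.mono' (Gc h).aestronglyMeasurable (Eventually.of_forall (Gb h))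
  have i2 : Integrable (fun z : Eu p × Eu q =>
      conj (ph β h y η (B.symm : Eu q →L[ℝ] Eu q) z.2) *
      ph β h y' η' (B'.symm : Eu q →L[ℝ] Eu q) (τ z) * Φ z) (volume.prod volume) := by
    refine Continuous.integrable_of_hasCompactSupport ?_ hΦc.mul_left
    unfold ph bw
    fun_prop
  simp only
  rw [Measure.volume_eq_prod, integral_prod _ i2, integral_prod _ i1, ← integral_const_mul]
  refine integral_congr_ae (Eventually.of_forall fun x => ?_)
  simp only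
  rw [← integral_const_mul, an11b_sub (fun Y => _ * Φ (x, Y)) (sc_pos hh) y B]
  exact integral_congr_ae (Eventually.of_forall fun t => (an11b_pt β hh y η y' η' B B' t _ _).symm)

end Pool.Agent.P.MP_e0a138_an.AD
end
end
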