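import Pool.Agent.K.MP_e0a138_an.C0

-- part Pool.Agent.P.MP_e0a138_an.GE20
section

set_option autoImplicit false
set_option linter.unusedSectionVars false
set_option linter.unusedVariables false

open MeasureTheory Filter Topology Metric Complex
open scoped ENNReal NNReal ContDiff InnerProductSpace ComplexConjugate

noncomputable section
namespace Pool.Agent.P.MP_e0a138_an.AD

variable {N p q k : ℕ} {W : Type} [NormedAddCommGroup W] [InnerProductSpace ℂ W]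
  [FiniteDimensional ℂ W] [CompleteSpace W]
variable {A : Atl N p q k} {ε : Eu N →L[ℝ] W →L[ℂ] W}

namespace Atl
variable {μ : Measure (Eu N)} {l : Measure (Eu N × Eu N)} {t₀ : Tr q k}
  {B : Tr q k → Eu q ≃L[ℝ] Eu q}

/-- density times pointwise inner product, read in a chart -/
def GE20_Phi (A : Atl N p q k) (i : Fin k) (u u' : Eu N → W) : Eu p × Eu q → ℂ :=
  (ball 0 1).indicator fun z => (A.rho i z : ℂ) * ⟪u (A.ψ i z), u' (A.ψ i z)⟫_ℂ

theorem GE20_Phi_props (i : Fin k) {u u' : Eu N → W} (hu : ContinuousOn u A.M)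
    (hu' : ContinuousOn u' A.M) (hl : A.Loc i u) :
    Continuous (A.GE20_Phi i u u') ∧ HasCompactSupport (A.GE20_Phi i u u') := by
  obtain ⟨r, hr, h0⟩ := hl
  have hz := (chart_zero hr h0).1
  have hK : ∀ z ∉ closedBall (0 : Eu p × Eu q) r, A.GE20_Phi i u u' z = 0 := by
    intro z hzK
    by_cases hb : z ∈ ball (0 : Eu p × Eu q) 1
    · rw [GE20_Phi, Set.indicator_of_mem hb, hz z hb hzK, inner_zero_left, mul_zero]
    · rw [GE20_Phi, Set.indicator_of_notMem hb]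
  refine ⟨continuous_of_cpt isOpen_ball isClosed_closedBall (closedBall_subset_ball hr) ?_ hK,
    HasCompactSupport.intro (isCompact_closedBall 0 r) hK⟩
  refine ContinuousOn.congr (f := fun z => (A.rho i z : ℂ) * ⟪u (A.ψ i z), u' (A.ψ i z)⟫_ℂ) ?_
    fun z hz => Set.indicator_of_mem hz _
  exact (continuous_ofReal.comp (rho_continuous i)).continuousOn.mul
    ((continuousOn_chart hu i).inner (𝕜 := ℂ) (continuousOn_chart hu' i))

theorem GE20_ne {i j : Fin k} {u u' : Eu N → W} (hl : A.Loc j u') {z : Eu p × Eu q}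
    (h : A.GE20_Phi i u u' z ≠ 0) : z ∈ ball (0 : Eu p × Eu q) 1 ∧ A.ψ i z ∈ A.U j := by
  obtain ⟨r, hr, h0⟩ := hl
  have hb : z ∈ ball (0 : Eu p × Eu q) 1 := by
    by_contra hb
    exact h (Set.indicator_of_notMem hb _)
  refine ⟨hb, ?_⟩
  by_contra hU
  apply h
  rw [GE20_Phi, Set.indicator_of_mem hb, (chart_zero hr h0).2 _ (ψ_mem i hb).1 hU,
    inner_zero_right, mul_zero]

theorem GE20_lhs (hμ : A.IsVol μ) {β : Eu q → ℝ} (hβ : Continuous β) (h : ℝ) (t t' : Tr q k)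
    (L L' : Eu q →L[ℝ] Eu q) {u u' : Eu N → W} (hu : ContinuousOn u A.M)
    (hu' : ContinuousOn u' A.M) (hl : A.Loc t.1 u) :
    ⟪toL μ (A.pk β h t L u), toL μ (A.pk β h t' L' u')⟫_ℂ =
      ∫ z, conj (ph β h t.2.1 t.2.2 L z.2) * ph β h t'.2.1 t'.2.2 L' (A.tau t.1 t'.1 z) *
        A.GE20_Phi t.1 u u' z := by
  obtain ⟨r, hr, h0⟩ := hl
  rw [inner_eq_of_ae (toL_ae (hμ.memLp (pk_continuousOn hβ h t L hu)))
    (toL_ae (hμ.memLp (pk_continuousOn hβ h t' L' hu'))), hμ.integral_loc t.1,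
    integral_wm measurableSet_ball (rho_continuous t.1).continuousOn
      fun z _ => rho_nonneg t.1 z, ← integral_indicator measurableSet_ball]
  · refine integral_congr_ae (Eventually.of_forall fun z => ?_)
    by_cases hb : z ∈ ball (0 : Eu p × Eu q) 1
    · simp only [GE20_Phi, Set.indicator_of_mem hb, pk, A.left_inv t.1 z hb, inner_smul_left,
        inner_smul_right, tau, Complex.real_smul]
      ring
    · simp only [GE20_Phi, Set.indicator_of_notMem hb, mul_zero]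
  · intro m hm hU
    rw [pk, (chart_zero hr h0).2 m hm hU, smul_zero, inner_zero_left]

theorem GE20_rhs (hB : A.Hd t₀ B) (hl : A.IsLeaf t₀ l) {c : ℝ≥0} {t t' : Tr q k}
    (ht : A.Reach t₀ t) (ht' : A.Reach t₀ t') (hc : l.restrict (A.plq t) = c • A.pm t)
    {u u' : Eu N → W} (hu : ContinuousOn u A.M) (hu' : ContinuousOn u' A.M)
    (hl2 : A.Loc t'.1 u') :
    ⟪A.sec l t u, A.sec l t' u'⟫_ℂ = ((c : ℝ) : ℂ) *
      ∫ x, {x | A.tau t.1 t'.1 (x, t.2.1) = t'.2.1}.indicator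
        (fun x => A.GE20_Phi t.1 u u' (x, t.2.1)) x := by
  have hy : t.2.1 ∈ ball (0 : Eu q) 1 := ht.mem hB.mem
  have hρ : Continuous fun x : Eu p => (c : ℝ) * A.rho t.1 (x, t.2.1) :=
    continuous_const.mul ((rho_continuous t.1).comp (by fun_prop))
  rw [inner_eq_of_ae (sec_ae hB.mem hl ht hu) (sec_ae hB.mem hl ht' hu')]
  conv_lhs => rw [plq_eq hy]
  rw [(emb_plq hy hc).inner_ind, integral_wm measurableSet_ball hρ.continuousOn
    fun x _ => mul_nonneg c.2 (rho_nonneg _ _), ← integral_indicator measurableSet_ball,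
    ← integral_const_mul]
  refine integral_congr_ae (Eventually.of_forall fun x => ?_)
  by_cases hb : x ∈ ball (0 : Eu p) 1
  · have hz : (x, t.2.1) ∈ ball (0 : Eu p × Eu q) 1 := mem_ball_prod.2 ⟨hb, hy⟩
    simp only [Set.indicator_of_mem hb]
    by_cases hm : A.gam t x ∈ A.plq t'
    · have hτ : x ∈ {x | A.tau t.1 t'.1 (x, t.2.1) = t'.2.1} := ((gam_mem_iff hy hb).1 hm).2.1
      rw [Set.indicator_of_mem hm, Set.indicator_of_mem hτ, GE20_Phi, Set.indicator_of_mem hz,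
        Complex.real_smul]
      simp only [gam]
      push_cast
      ring
    · rw [Set.indicator_of_notMem hm, inner_zero_right, smul_zero]
      by_cases hτ : x ∈ {x | A.tau t.1 t'.1 (x, t.2.1) = t'.2.1}
      · rw [Set.indicator_of_mem hτ]
        by_cases hΦ : A.GE20_Phi t.1 u u' (x, t.2.1) = 0
        · rw [hΦ, mul_zero]
        · have hU := (GE20_ne hl2 hΦ).2
          exact absurd ((gam_mem_iff hy hb).2 ⟨hU, hτ, (hB.cons t t' ht ht' x hb hU hτ).1⟩) hm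
      · rw [Set.indicator_of_notMem hτ, mul_zero]
  · have hz : (x, t.2.1) ∉ ball (0 : Eu p × Eu q) 1 := fun h => hb (mem_ball_prod.1 h).1
    have h0 : A.GE20_Phi t.1 u u' (x, t.2.1) = 0 := Set.indicator_of_notMem hz _
    simp only [Set.indicator_of_notMem hb]
    by_cases hτ : x ∈ {x | A.tau t.1 t'.1 (x, t.2.1) = t'.2.1}
    · rw [Set.indicator_of_mem hτ, h0, mul_zero]
    · rw [Set.indicator_of_notMem hτ, mul_zero]

theorem gram_tendsto (hμ : A.IsVol μ) (hB : A.Hd t₀ B) (hl : A.IsLeaf t₀ l) {c : ℝ≥0}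
    (hc0 : c ≠ 0) (hc : ∀ t, A.Reach t₀ t → l.restrict (A.plq t) = (c * jac (B t)) • A.pm t)
    {β : Eu q → ℝ} (hβ : Continuous β) (hβc : HasCompactSupport β) (hn : ∫ y, β y ^ 2 = 1)
    {t t' : Tr q k} (ht : A.Reach t₀ t) (ht' : A.Reach t₀ t') {u u' : Eu N → W}
    (hu : ContinuousOn u A.M) (hu' : ContinuousOn u' A.M) (hl1 : A.Loc t.1 u)
    (hl2 : A.Loc t'.1 u') :
    Tendsto (fun h => ⟪toL μ (A.pk β h t ((B t).symm : Eu q →L[ℝ] Eu q) u),
      toL μ (A.pk β h t' ((B t').symm : Eu q →L[ℝ] Eu q) u')⟫_ℂ) (𝓝[>] 0)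
      (𝓝 ((((c : ℝ)⁻¹ : ℝ) : ℂ) * ⟪A.sec l t u, A.sec l t' u'⟫_ℂ)) := by
  obtain ⟨hΦ, hΦc⟩ := GE20_Phi_props t.1 hu hu' hl1
  have key := gram_core hβ hβc hΦ hΦc (tau_smooth (A := A) t.1 t'.1) t.2.1 t.2.2 t'.2.1 t'.2.2
    (B t) (B t') fun x hx hτ => by
      obtain ⟨hb, hU⟩ := GE20_ne hl2 hx
      exact hB.cons t t' ht ht' x (mem_ball_prod.1 hb).1 hU hτ
  rw [GE20_rhs hB hl ht ht' (hc t ht) hu hu' hl2]
  simp only [GE20_lhs hμ hβ _ t t' _ _ hu hu' hl1]
  have hc' : ((c : ℝ) : ℂ) ≠ 0 := by exact_mod_cast hc0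
  have he : ∀ X : ℂ, (((c : ℝ)⁻¹ : ℝ) : ℂ) * ((((c * jac (B t) : ℝ≥0) : ℝ) : ℂ) * X) =
      (((jac (B t) : ℝ) * ∫ y, β y ^ 2 : ℝ) : ℂ) * X := by
    intro X
    rw [hn]
    push_cast
    field_simp
  rw [he]
  exact key

end Atl

end Pool.Agent.P.MP_e0a138_an.AD
end
end

-- part Pool.Agent.P.MP_e0a138_an.GE19a
section

set_option autoImplicit false
set_option linter.unusedSectionVars false
set_option linter.unusedVariables false

open MeasureTheory Filter Topology Metric Complex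
open scoped ENNReal NNReal ContDiff InnerProductSpace ComplexConjugate

noncomputable section
namespace Pool.Agent.P.MP_e0a138_an.AD

variable {N p q k : ℕ} {W : Type} [NormedAddCommGroup W] [InnerProductSpace ℂ W]
  [FiniteDimensional ℂ W] [CompleteSpace W]
variable {A : Atl N p q k} {ε : Eu N →L[ℝ] W →L[ℂ] W}

theorem fderiv_ph {β : Eu q → ℝ} (hβ : ContDiff ℝ ∞ β) {h : ℝ} (hh : 0 < h) (y η : Eu q)
    (L : Eu q →L[ℝ] Eu q) (Y w : Eu q) : (h : ℂ) * fderiv ℝ (ph β h y η L) Y w =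
      I * (⟪η, w⟫_ℝ : ℝ) * ph β h y η L Y +
        ((h / sc h : ℝ) : ℂ) * ph (fun t => fderiv ℝ β t (L w)) h y η L Y := by
  have h0 : HasFDerivAt (fun Y : Eu q => Y - y) (ContinuousLinearMap.id ℝ _) Y :=
    (hasFDerivAt_id Y).sub_const y
  have h1 := ((L.hasFDerivAt.comp Y h0).const_smul (sc h)⁻¹)
  have h2 := ((hβ.differentiable (by simp) _).hasFDerivAt.comp Y h1).const_mul (√(sc h ^ q))⁻¹
  have h3 := ofRealCLM.hasFDerivAt.comp Y h2
  have h4 := ofRealCLM.hasFDerivAt.comp Y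
    (((innerSL ℝ η).hasFDerivAt.comp Y h0).mul_const h⁻¹)
  have h5 := h3.mul (h4.const_mul I).cexp
  have h6 : fderiv ℝ (ph β h y η L) Y = _ := HasFDerivAt.fderiv (h5.congr_of_eventuallyEq
    (Eventually.of_forall fun Y => by simp [ph, bw, div_eq_mul_inv]))
  rw [h6]
  have hc : (h : ℂ) ≠ 0 := ofReal_ne_zero.2 hh.ne'
  simp [ph, bw, div_eq_mul_inv]
  field_simp

namespace Atl
variable {DF DH : (Eu N → W) → Eu N → W} {μ : Measure (Eu N)}

theorem Dir.pk_eq (hD : A.Dir ε μ DF DH) {β : Eu q → ℝ} (hβ : ContDiff ℝ ∞ β) {h : ℝ}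
    (hh : 0 < h) (t : Tr q k) (L : Eu q →L[ℝ] Eu q) {u : Eu N → W} (hu : A.Form ε u)
    (hl : A.Loc t.1 u) : ∀ m ∈ A.M, Dh DF DH h (A.pk β h t L u) m =
      A.pk β h t L (A.lft ε DF t u) m + (h : ℂ) • A.pk β h t L (DH u) m +
        ((h / sc h : ℝ) : ℂ) • ∑ l, A.pk (fun s => fderiv ℝ β s (L (bs l))) h t L
          (fun m => cl ε (A.gr t.1 (.inr l) m) (u m)) m := by
  intro m hm
  have hp := pk_form hβ h t L hu
  by_cases hU : m ∈ A.U t.1
  swap
  · have z0 : ∀ {v : Eu N → W}, A.Loc t.1 v → v m = 0 := fun ⟨r, hr, hv⟩ =>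
      (chart_zero hr hv).2 m hm hU
    have hl' : A.Loc t.1 (A.pk β h t L u) := by
      obtain ⟨r, hr, hv⟩ := hl
      exact ⟨r, hr, fun n h1 h2 => by simp [pk, hv n h1 h2]⟩
    simp [Dh, pk, Atl.lft, z0 hl, z0 (hD.opF.loc hu hl), z0 (hD.opH.loc hu hl),
      z0 (hD.opF.loc hp hl'), z0 (hD.opH.loc hp hl')]
  obtain ⟨hz, hm'⟩ := φ_mem hm hU
  obtain ⟨z, hzz⟩ : ∃ z, z = A.φ t.1 m := ⟨_, rfl⟩
  rw [← hzz] at hz hm'
  subst hm'
  obtain ⟨ZF, -, hF⟩ := hD.opF t.1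
  obtain ⟨ZH, -, hH⟩ := hD.opH t.1
  have hn : ball (0 : Eu p × Eu q) 1 ∈ 𝓝 z := isOpen_ball.mem_nhds hz
  have e1 : (fun z => A.pk β h t L u (A.ψ t.1 z)) =ᶠ[𝓝 z]
      fun z => ph β h t.2.1 t.2.2 L z.2 • u (A.ψ t.1 z) := by
    filter_upwards [hn] with x hx
    simp only [pk, A.left_inv _ _ hx]
  have d0 := (contDiff_ph hβ h t.2.1 t.2.2 L).differentiable (by simp) z.2
  have d1 : HasFDerivAt (fun z : Eu p × Eu q => ph β h t.2.1 t.2.2 L z.2) _ z :=
    d0.hasFDerivAt.comp z hasFDerivAt_snd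
  have d2 : DifferentiableAt ℝ (fun z => u (A.ψ t.1 z)) z :=
    ((hu.chart t.1).1.contDiffAt hn).differentiableAt (by simp)
  have e2 : DF (A.pk β h t L u) (A.ψ t.1 z) = ph β h t.2.1 t.2.2 L z.2 • DF u (A.ψ t.1 z) := by
    rw [hF _ hp z hz, hF _ hu z hz, op_congr e1, op_smul d1.differentiableAt d2, d1.fderiv]
    simp [Fintype.sum_sum_type, cb, sy_F_inr _ _ _ hz]
  have e3 : DH (A.pk β h t L u) (A.ψ t.1 z) = ph β h t.2.1 t.2.2 L z.2 • DH u (A.ψ t.1 z) +
      ∑ l, fderiv ℝ (ph β h t.2.1 t.2.2 L) z.2 (bs l) •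
        cl ε (A.gr t.1 (.inr l) (A.ψ t.1 z)) (u (A.ψ t.1 z)) := by
    rw [hH _ hp z hz, hH _ hu z hz, op_congr e1, op_smul d1.differentiableAt d2, d1.fderiv]
    simp [Fintype.sum_sum_type, cb, sy_H_inr _ _ _ hz]
  have e4 : cl ε (A.cov t.1 t.2.2 (A.ψ t.1 z)) (u (A.ψ t.1 z)) = ∑ l, ((⟪t.2.2, bs l⟫_ℝ : ℝ) : ℂ) •
      cl ε (A.gr t.1 (.inr l) (A.ψ t.1 z)) (u (A.ψ t.1 z)) := by
    rw [cov_eq_sum, ← clL_apply, map_sum, sum_apply]
    refine Finset.sum_congr rfl fun l _ => ?_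
    rw [clL_apply, cl_smul, real_inner_comm]
    rfl
  simp only [Dh, Pi.add_apply, Pi.smul_apply, e2, e3, pk, Atl.lft, e4, ← hzz, smul_add,
    Finset.smul_sum, smul_smul, fderiv_ph hβ hh, add_smul, Finset.sum_add_distrib]
  have e5 : ∀ l : Fin q, ph β h t.2.1 t.2.2 L z.2 * (I * ((⟪t.2.2, bs l⟫_ℝ : ℝ) : ℂ)) =
      I * ((⟪t.2.2, bs l⟫_ℝ : ℝ) : ℂ) * ph β h t.2.1 t.2.2 L z.2 := fun l => mul_comm _ _
  simp only [e5]
  abel

end Atl

end Pool.Agent.P.MP_e0a138_an.AD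
end
end

-- part Pool.Agent.P.MP_e0a138_an.GE19b
section

set_option autoImplicit false
set_option linter.unusedSectionVars false
set_option linter.unusedVariables false

open MeasureTheory Filter Topology Metric Complex
open scoped ENNReal NNReal ContDiff InnerProductSpace ComplexConjugate

noncomputable section
namespace Pool.Agent.P.MP_e0a138_an.AD

variable {N p q k : ℕ} {W : Type} [NormedAddCommGroup W] [InnerProductSpace ℂ W]
  [FiniteDimensional ℂ W] [CompleteSpace W]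
variable {A : Atl N p q k} {ε : Eu N →L[ℝ] W →L[ℂ] W}

theorem GE19b_diff {S J : Type} [MeasurableSpace S] {ν : Measure S} [Fintype J]
    {f g a : S → W} {b : J → S → W} {c d : ℂ} (hf : MemLp f 2 ν) (hg : MemLp g 2 ν)
    (ha : MemLp a 2 ν) (hb : ∀ l, MemLp (b l) 2 ν)
    (h : ∀ᵐ s ∂ν, f s = g s + c • a s + d • ∑ l, b l s) :
    toL ν f - toL ν g = c • toL ν a + d • ∑ l, toL ν (b l) := by
  refine Lp.ext ?_
  have h1 : ∀ᵐ s ∂ν, ∀ l, toL ν (b l) s = b l s := ae_all_iff.2 fun l => toL_ae (hb l)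
  filter_upwards [h, h1, toL_ae hf, toL_ae hg, toL_ae ha, Lp.coeFn_sub (toL ν f) (toL ν g),
    Lp.coeFn_add (c • toL ν a) (d • ∑ l, toL ν (b l)), Lp.coeFn_smul c (toL ν a),
    Lp.coeFn_smul d (∑ l, toL ν (b l)),
    Lp.coeFn_finsetSum Finset.univ fun l => toL ν (b l)] with s e0 e1 e2 e3 e4 e5 e6 e7 e8 e9
  rw [e5, e6, Pi.sub_apply, Pi.add_apply, e7, e8, Pi.smul_apply, Pi.smul_apply, e9, e2, e3, e4,
    e0, Finset.sum_apply, Finset.sum_congr rfl fun l _ => e1 l]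
  abel

namespace Atl
variable {DF DH : (Eu N → W) → Eu N → W} {μ : Measure (Eu N)}

theorem Dir.intertwine (hD : A.Dir ε μ DF DH) (hε : IsCAR ε) (hμ : A.IsVol μ) {β : Eu q → ℝ}
    (hβ : ContDiff ℝ ∞ β) (hc : HasCompactSupport β) (t : Tr q k) (e : Eu q ≃L[ℝ] Eu q)
    {u : Eu N → W} (hu : A.Form ε u) (hl : A.Loc t.1 u) :
    Tendsto (fun h => ‖toL μ (Dh DF DH h (A.pk β h t (e.symm : Eu q →L[ℝ] Eu q) u)) -
      toL μ (A.pk β h t (e.symm : Eu q →L[ℝ] Eu q) (A.lft ε DF t u))‖) (𝓝[>] 0) (𝓝 0) := by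
  set L : Eu q →L[ℝ] Eu q := (e.symm : Eu q →L[ℝ] Eu q) with hL
  let β' : Fin q → Eu q → ℝ := fun l s => fderiv ℝ β s (L (bs l))
  let v : Fin q → Eu N → W := fun l m => cl ε (A.gr t.1 (.inr l) m) (u m)
  have hβ' : ∀ l, Continuous (β' l) := fun l =>
    (hβ.continuous_fderiv (by simp)).clm_apply continuous_const
  have hc' : ∀ l, HasCompactSupport (β' l) := fun l => hc.fderiv_apply ℝ _
  have hv : ∀ l, ContinuousOn (v l) A.M := fun l => by
    have h1 : ContinuousOn (fun m => clL ε (A.gr t.1 (.inr l) m)) A.M :=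
      (clL ε).continuous.comp_continuousOn (smooth_gr t.1 (.inr l)).continuousOn
    simp only [clL_apply] at h1
    exact continuousOn_capp h1 hu.1.continuousOn
  have hlv : ∀ l, A.Loc t.1 (v l) := fun l => by
    obtain ⟨r, hr, h0⟩ := hl
    exact ⟨r, hr, fun m hm hm' => by simp only [v, h0 m hm hm', map_zero]⟩
  have hH : ContinuousOn (DH u) A.M := (hD.formH u hu).1.continuousOn
  obtain ⟨C₀, hC₀⟩ := pk_norm_bound hμ hβ.continuous hc t e hH (hD.opH.loc hu hl)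
  choose C hC using fun l => pk_norm_bound hμ (hβ' l) (hc' l) t e (hv l) (hlv l)
  have hlim : Tendsto (fun h : ℝ => h * C₀ + h / sc h * ∑ l, C l) (𝓝[>] 0) (𝓝 0) := by
    have h1 : Tendsto (fun h : ℝ => h) (𝓝[>] 0) (𝓝 0) := tendsto_nhdsWithin_of_tendsto_nhds tendsto_id
    simpa using (h1.mul_const C₀).add (div_sc_tendsto.mul_const (∑ l, C l))
  refine squeeze_zero' (Eventually.of_forall fun h => norm_nonneg _) ?_ hlim
  filter_upwards [self_mem_nhdsWithin] with h hh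
  have hh : 0 < h := hh
  have key := GE19b_diff (ν := μ) (c := (h : ℂ)) (d := ((h / sc h : ℝ) : ℂ))
    (hμ.memLp (hD.form h (pk_form hβ h t L hu)).1.continuousOn)
    (hμ.memLp (pk_continuousOn hβ.continuous h t L (hD.lft hε t hu hl).1.1.continuousOn))
    (hμ.memLp (pk_continuousOn hβ.continuous h t L hH))
    (fun l => hμ.memLp (pk_continuousOn (hβ' l) h t L (hv l)))
    (hμ.ae_mem.mono fun m hm => hD.pk_eq hβ hh t L hu hl m hm)
  rw [key]
  have hs : 0 ≤ h / sc h := (div_pos hh (sc_pos hh)).le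
  refine (norm_add_le _ _).trans (add_le_add ?_ ?_)
  · rw [norm_smul, Complex.norm_real, Real.norm_of_nonneg hh.le]
    exact mul_le_mul_of_nonneg_left (hC₀ h hh) hh.le
  · rw [norm_smul, Complex.norm_real, Real.norm_of_nonneg hs]
    exact mul_le_mul_of_nonneg_left
      ((norm_sum_le _ _).trans (Finset.sum_le_sum fun l _ => hC l h hh)) hs

end Atl

end Pool.Agent.P.MP_e0a138_an.AD
end
end

-- part Pool.Agent.P.MP_e0a138_an.GE17p
section

set_option autoImplicit false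
set_option linter.unusedSectionVars false
set_option linter.unusedVariables false

open MeasureTheory Filter Topology Metric Complex
open scoped ENNReal NNReal ContDiff InnerProductSpace ComplexConjugate

noncomputable section
namespace Pool.Agent.P.MP_e0a138_an.AD

variable {N p q k : ℕ} {W : Type} [NormedAddCommGroup W] [InnerProductSpace ℂ W]
  [FiniteDimensional ℂ W] [CompleteSpace W]
variable {A : Atl N p q k} {ε : Eu N →L[ℝ] W →L[ℂ] W}

namespace Atl
variable {DF DH : (Eu N → W) → Eu N → W} {μ : Measure (Eu N)}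

/-- a test section on a plaque extends to a form; the leaf operator in plaque coordinates -/
theorem Dir.plaque (hD : A.Dir ε μ DF DH) (hε : IsCAR ε) (i : Fin k) :
    ∃ Z : Eu p × Eu q → W →L[ℂ] W, ContDiffOn ℝ ∞ Z (ball 0 1) ∧
      ∀ (y η : Eu q) (a : Eu p → W), y ∈ ball (0 : Eu q) 1 →
        Tst (ball 0 1) (fun x => A.Pi ε (A.ψ i (x, y))) a → ∃ u, A.Form ε u ∧ A.Loc i u ∧
          ∀ x ∈ ball (0 : Eu p) 1, u (A.ψ i (x, y)) = a x ∧
            A.lft ε DF (i, y, η) u (A.ψ i (x, y)) =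
              op bs (fun b x => A.sy (clL ε) A.F i (.inl b) (x, y))
                (fun x => Z (x, y) + I • cl ε (A.cov i η (A.ψ i (x, y)))) a x := by
  obtain ⟨Z, hZ, hop⟩ := hD.opF i
  refine ⟨Z, hZ, fun y η a hy ha => ?_⟩
  obtain ⟨ha1, ha2, ha3, ha4⟩ := ha
  obtain ⟨b0, hb1, hb2, hb3, -, hb5⟩ :=
    exists_contDiff_tsupport_subset (n := ⊤) (isOpen_ball.mem_nhds hy)
  obtain ⟨r1, -, hr1, hK1⟩ := exists_closedBall_of_cpt ha2 ha3
  obtain ⟨r2, -, hr2, hK2⟩ := exists_closedBall_of_cpt hb2 hb1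
  have hr : max r1 r2 < 1 := max_lt hr1 hr2
  let g : Eu p × Eu q → W := fun z => (b0 z.2 : ℂ) • A.Pi ε (A.ψ i z) (a z.1)
  have gs : ContDiffOn ℝ ∞ g (ball 0 1) :=
    (contDiffOn_ofReal (hb3.comp contDiff_snd).contDiffOn).smul
      (contDiffOn_capp ((A.smooth_Pi hε).comp (A.ψ_smooth i).contDiffOn
        fun z hz => (ψ_mem i hz).1) (ha1.comp contDiff_fst).contDiffOn)
  have g0 : ∀ z ∈ ball (0 : Eu p × Eu q) 1, z ∉ closedBall (0 : Eu p × Eu q) (max r1 r2) →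
      g z = 0 := by
    rintro ⟨x, Y⟩ - hz
    rw [mem_closedBall_prod, not_and_or] at hz
    rcases hz with hz | hz
    · have e : a x = 0 := image_eq_zero_of_notMem_tsupport fun h =>
        hz (closedBall_subset_closedBall (le_max_left _ _) (hK1 h))
      show (b0 Y : ℂ) • A.Pi ε (A.ψ i (x, Y)) (a x) = 0
      rw [e, map_zero, smul_zero]
    · have e : b0 Y = 0 := image_eq_zero_of_notMem_tsupport fun h =>
        hz (closedBall_subset_closedBall (le_max_right _ _) (hK2 h))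
      show (b0 Y : ℂ) • A.Pi ε (A.ψ i (x, Y)) (a x) = 0
      rw [e, ofReal_zero, zero_smul]
  have hF : A.Form ε (A.ext i g) := by
    refine ⟨ext_smooth i gs hr g0, fun m hm => ?_⟩
    show A.Pi ε m (A.ext i g m) = A.ext i g m
    by_cases hU : m ∈ A.U i
    · obtain ⟨h1, h2⟩ := φ_mem hm hU
      have e : A.ext i g m = (b0 (A.φ i m).2 : ℂ) • A.Pi ε m (a (A.φ i m).1) := by
        rw [ext, Set.indicator_of_mem hU]
        show (b0 (A.φ i m).2 : ℂ) • A.Pi ε (A.ψ i (A.φ i m)) (a (A.φ i m).1) = _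
        rw [h2]
      rw [e, map_smul]
      exact congrArg _ (DFunLike.congr_fun (Pi_idem m) _)
    · rw [ext, Set.indicator_of_notMem hU, map_zero]
  have hv : ∀ x ∈ ball (0 : Eu p) 1, A.ext i g (A.ψ i (x, y)) = a x := fun x hx => by
    rw [ext_chart i g (mem_ball_prod.2 ⟨hx, hy⟩)]
    show (b0 y : ℂ) • A.Pi ε (A.ψ i (x, y)) (a x) = a x
    rw [hb5, ofReal_one, one_smul]
    exact ha4 x
  refine ⟨A.ext i g, hF, ⟨_, hr, ext_zero i g0⟩, fun x hx => ⟨hv x hx, ?_⟩⟩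
  have hz : (x, y) ∈ ball (0 : Eu p × Eu q) 1 := mem_ball_prod.2 ⟨hx, hy⟩
  have hd : DifferentiableAt ℝ (fun z => A.ext i g (A.ψ i z)) (x, y) :=
    diffAt_of_contDiffOn isOpen_ball (contDiffOn_iff.1 hF.1 i) hz
  have hder : ∀ e : Eu p, fderiv ℝ (fun z => A.ext i g (A.ψ i z)) (x, y) (e, 0) =
      fderiv ℝ a x e := fun e => by
    have h1 := HasFDerivAt.comp x (f := fun x' : Eu p => (x', y)) hd.hasFDerivAt
      (hasFDerivAt_prodMk_left (𝕜 := ℝ) x y)
    have h2 : a =ᶠ[𝓝 x] (fun z => A.ext i g (A.ψ i z)) ∘ fun x' => (x', y) := by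
      filter_upwards [isOpen_ball.mem_nhds hx] with x' hx' using (hv x' hx').symm
    rw [h2.fderiv_eq, h1.fderiv]
    rfl
  show DF (A.ext i g) (A.ψ i (x, y)) +
    I • cl ε (A.cov i η (A.ψ i (x, y))) (A.ext i g (A.ψ i (x, y))) = _
  rw [hop _ hF _ hz, op, op, Fintype.sum_sum_type, hv x hx]
  simp only [sy_F_inr (clL ε) i _ hz, cb, Sum.elim_inl, hder, zero_apply, Finset.sum_const_zero,
    add_zero, add_apply, smul_apply, add_assoc]

end Atl

end Pool.Agent.P.MP_e0a138_an.AD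
end
end

-- part Pool.Agent.P.MP_e0a138_an.GE15a
section

set_option autoImplicit false
set_option linter.unusedSectionVars false
set_option linter.unusedVariables false

open MeasureTheory Filter Topology Metric Complex
open scoped ENNReal NNReal ContDiff InnerProductSpace ComplexConjugate

noncomputable section
namespace Pool.Agent.P.MP_e0a138_an.AD

variable {N p q k : ℕ} {W : Type} [NormedAddCommGroup W] [InnerProductSpace ℂ W]
  [FiniteDimensional ℂ W] [CompleteSpace W]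
variable {A : Atl N p q k}

theorem exists_alpha {T : Type} (S : ℕ → Finset T) (hS : Monotone S) : ∃ α : ℕ → T → ℝ,
    (∀ n t, 0 ≤ α n t ∧ α n t ≤ 1) ∧ (∀ n t, α n t ≠ 0 → t ∈ S n) ∧
    (∀ m t, t ∈ S m → Tendsto (fun n => α n t) atTop (𝓝 1)) ∧
    ∀ n t t', (∀ m, t ∈ S m → t' ∈ S (m + 1)) → (∀ m, t' ∈ S m → t ∈ S (m + 1)) →
      |α n t - α n t'| ≤ 1 / (n + 1 : ℝ) := by
  classical
  let cnt : ℕ → T → ℕ := fun n t => ((Finset.range (n + 1)).filter fun m => t ∈ S m).card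
  have hle : ∀ n t, cnt n t ≤ n + 1 := fun n t =>
    (Finset.card_filter_le _ _).trans (Finset.card_range _).le
  have hstep : ∀ n t t', (∀ m, t ∈ S m → t' ∈ S (m + 1)) → cnt n t ≤ cnt n t' + 1 := by
    intro n t t' h
    have h1 : ((Finset.range n).filter fun m => t ∈ S m).card ≤ cnt n t' := by
      refine Finset.card_le_card_of_injOn (fun m => m + 1) ?_ ?_
      · intro m hm
        simp only [Finset.coe_filter, Finset.mem_range, Set.mem_ofPred_eq] at hm ⊢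
        exact ⟨by omega, h m hm.2⟩
      · intro a _ b _ hab
        simpa using hab
    have h2 : cnt n t ≤ ((Finset.range n).filter fun m => t ∈ S m).card + 1 := by
      simp only [cnt, Finset.range_add_one, Finset.filter_insert]
      split_ifs
      · exact Finset.card_insert_le _ _
      · omega
    omega
  have hlow : ∀ m t, t ∈ S m → ∀ n, n + 1 ≤ cnt n t + m := by
    intro m t ht n
    have h1 : (Finset.Ico m (n + 1)).card ≤ cnt n t := by
      refine Finset.card_le_card fun j hj => ?_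
      rw [Finset.mem_Ico] at hj
      exact Finset.mem_filter.2 ⟨Finset.mem_range.2 hj.2, hS hj.1 ht⟩
    rw [Nat.card_Ico] at h1
    omega
  have hpos : ∀ n : ℕ, (0 : ℝ) < n + 1 := fun n => by positivity
  refine ⟨fun n t => (cnt n t : ℝ) / (n + 1), fun n t => ⟨by positivity, ?_⟩, ?_, ?_, ?_⟩
  · rw [div_le_one (hpos n)]
    exact_mod_cast hle n t
  · intro n t h
    have h1 : cnt n t ≠ 0 := fun h0 => h (by simp [h0])
    obtain ⟨m, hm⟩ := Finset.card_ne_zero.1 h1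
    rw [Finset.mem_filter, Finset.mem_range] at hm
    exact hS (by omega : m ≤ n) hm.2
  · intro m t ht
    have h0 : Tendsto (fun n : ℕ => 1 - (m : ℝ) * (1 / (n + 1 : ℝ))) atTop (𝓝 1) := by
      simpa using (tendsto_one_div_add_atTop_nhds_zero_nat.const_mul (m : ℝ)).const_sub 1
    refine tendsto_of_tendsto_of_tendsto_of_le_of_le h0 tendsto_const_nhds (fun n => ?_)
      (fun n => ?_)
    · have h1 : ((n : ℝ) + 1) ≤ cnt n t + m := by exact_mod_cast hlow m t ht n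
      show 1 - (m : ℝ) * (1 / (n + 1 : ℝ)) ≤ (cnt n t : ℝ) / (n + 1)
      rw [le_div_iff₀ (hpos n), sub_mul, mul_assoc, one_div, inv_mul_cancel₀ (hpos n).ne']
      linarith
    · show (cnt n t : ℝ) / (n + 1) ≤ 1
      rw [div_le_one (hpos n)]
      exact_mod_cast hle n t
  · intro n t t' h h'
    have h1 : (cnt n t : ℝ) ≤ cnt n t' + 1 := by exact_mod_cast hstep n t t' h
    have h2 : (cnt n t' : ℝ) ≤ cnt n t + 1 := by exact_mod_cast hstep n t' t h'
    show |(cnt n t : ℝ) / (n + 1) - (cnt n t' : ℝ) / (n + 1)| ≤ 1 / (n + 1 : ℝ)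
    rw [← sub_div, abs_div, abs_of_pos (hpos n)]
    exact div_le_div_of_nonneg_right (abs_le.2 ⟨by linarith, by linarith⟩) (hpos n).le

namespace Atl

theorem cut_smooth (α : Tr q k → ℝ) {t : Tr q k} (ht : t.2.1 ∈ ball (0 : Eu q) 1) {x : Eu p}
    (hx : x ∈ ball (0 : Eu p) 1) :
    (fun x' => ∑ j, A.χ j (A.gam t x').1 ^ 2 * α (A.tri j (A.gam t x'))) =ᶠ[𝓝 x]
      fun x' => ∑ j, A.χ j (A.ψ t.1 (x', t.2.1)) ^ 2 * α (A.tri j (A.gam t x)) := by
  obtain ⟨r, -, hr, hχ⟩ := A.exists_r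
  have hc : Continuous fun x : Eu p => A.ψ t.1 (x, t.2.1) :=
    (A.ψ_smooth t.1).continuous.comp (continuous_id.prodMk continuous_const)
  have key : ∀ j, ∀ᶠ x' in 𝓝 x, A.χ j (A.gam t x').1 ^ 2 * α (A.tri j (A.gam t x')) =
      A.χ j (A.ψ t.1 (x', t.2.1)) ^ 2 * α (A.tri j (A.gam t x)) := by
    intro j
    by_cases hj : A.ψ t.1 (x, t.2.1) ∈ A.U j
    · filter_upwards [tri_ev ht hx hj] with x' h
      rw [h]; rfl
    · have h1 : A.ψ t.1 (x, t.2.1) ∈ (A.ψ j '' closedBall 0 r)ᶜ := by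
        rintro ⟨w, hw, h⟩
        exact hj (h ▸ (ψ_mem j (closedBall_subset_ball hr hw)).2)
      have h2 := hc.continuousAt.preimage_mem_nhds
        (((isCompact_closedBall 0 r).image
          (A.ψ_smooth j).continuous).isClosed.isOpen_compl.mem_nhds h1)
      filter_upwards [h2, isOpen_ball.mem_nhds hx] with x' h hb
      have h3 : A.χ j (A.ψ t.1 (x', t.2.1)) = 0 :=
        hχ j _ (ψ_mem t.1 (mem_ball_prod.2 ⟨hb, ht⟩)).1 h
      have h4 : A.χ j (A.gam t x').1 = 0 := h3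
      simp [h3, h4]
  filter_upwards [eventually_all.2 key] with x' h
  exact Finset.sum_congr rfl fun j _ => h j

theorem cut_grad (A : Atl N p q k) {r : ℝ} (hr : r < 1) : ∃ C : ℝ, 0 ≤ C ∧
    ∀ (i : Fin k) (x : Eu p) (y : Eu q) (c : Fin k → ℝ) (c₀ d : ℝ),
      (x, y) ∈ closedBall (0 : Eu p × Eu q) r → 0 ≤ d →
      (∀ j, A.χ j (A.ψ i (x, y)) ≠ 0 → |c j - c₀| ≤ d) →
      ‖fderiv ℝ (fun x' => ∑ j, A.χ j (A.ψ i (x', y)) ^ 2 * c j) x‖ ≤ C * d := by
  have hs : ∀ i j, ContDiff ℝ ∞ fun z => A.χ j (A.ψ i z) ^ 2 := fun i j =>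
    ((A.χ_smooth j).comp (A.ψ_smooth i)).pow 2
  have hb : ∀ i j, ∃ C : ℝ, ∀ z ∈ closedBall (0 : Eu p × Eu q) r,
      ‖fderiv ℝ (fun z => A.χ j (A.ψ i z) ^ 2) z‖ ≤ C := fun i j =>
    (isCompact_closedBall 0 r).exists_bound_of_continuousOn
      ((hs i j).continuous_fderiv (by simp)).continuousOn
  choose C hC using hb
  refine ⟨∑ i, ∑ j, |C i j|, by positivity, fun i x y c c₀ d hxy hd hc => ?_⟩
  have hball := mem_ball_prod.1 (closedBall_subset_ball hr hxy)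
  have hin : HasFDerivAt (fun x' : Eu p => (x', y)) (ContinuousLinearMap.inl ℝ (Eu p) (Eu q)) x :=
    hasFDerivAt_prodMk_left x y
  have hd1 : ∀ j, HasFDerivAt (fun x' => A.χ j (A.ψ i (x', y)) ^ 2)
      (fderiv ℝ (fun z => A.χ j (A.ψ i z) ^ 2) (x, y) ∘L ContinuousLinearMap.inl ℝ _ _) x :=
    fun j => HasFDerivAt.comp (g := fun z => A.χ j (A.ψ i z) ^ 2) (f := fun x' : Eu p => (x', y)) x
      (((hs i j).differentiable (by simp)) (x, y)).hasFDerivAt hin
  have hev : (fun x' => ∑ j, A.χ j (A.ψ i (x', y)) ^ 2 * c j) =ᶠ[𝓝 x]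
      fun x' => ∑ j, A.χ j (A.ψ i (x', y)) ^ 2 * (c j - c₀) + c₀ := by
    filter_upwards [isOpen_ball.mem_nhds hball.1] with x' hx'
    have h1 := A.χ_sum _ (ψ_mem i (mem_ball_prod.2 ⟨hx', hball.2⟩)).1
    simp only [mul_sub, Finset.sum_sub_distrib, ← Finset.sum_mul, h1]
    ring
  have hd2 := (HasFDerivAt.fun_sum (u := Finset.univ)
    fun j _ => (hd1 j).mul_const (c j - c₀)).add_const c₀
  rw [hev.fderiv_eq, hd2.fderiv]
  have hterm : ∀ j, ‖(c j - c₀) • (fderiv ℝ (fun z => A.χ j (A.ψ i z) ^ 2) (x, y) ∘L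
      ContinuousLinearMap.inl ℝ (Eu p) (Eu q))‖ ≤ |C i j| * d := by
    intro j
    by_cases hj : A.χ j (A.ψ i (x, y)) = 0
    · have h1 : HasFDerivAt (fun z => A.χ j (A.ψ i z))
          (fderiv ℝ (fun z => A.χ j (A.ψ i z)) (x, y)) (x, y) :=
        ((((A.χ_smooth j).comp (A.ψ_smooth i)).differentiable (by simp)) (x, y)).hasFDerivAt
      have h2 : fderiv ℝ (fun z => A.χ j (A.ψ i z) ^ 2) (x, y) = 0 := by
        have h3 := (h1.pow 2).fderiv
        simp only [hj] at h3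
        simpa using h3
      rw [h2]
      simp only [ContinuousLinearMap.zero_comp, smul_zero, norm_zero]
      positivity
    · rw [norm_smul, mul_comm]
      refine mul_le_mul ?_ (hc j hj) (norm_nonneg _) (abs_nonneg _)
      refine (ContinuousLinearMap.opNorm_comp_le _ _).trans ?_
      refine (mul_le_of_le_one_right (norm_nonneg _)
        (ContinuousLinearMap.norm_inl_le_one ℝ _ _)).trans ?_
      exact (hC i j _ hxy).trans (le_abs_self _)
  refine (norm_sum_le _ _).trans ((Finset.sum_le_sum fun j _ => hterm j).trans ?_)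
  rw [← Finset.sum_mul]
  refine mul_le_mul_of_nonneg_right ?_ hd
  exact Finset.single_le_sum (f := fun i => ∑ j, |C i j|) (fun i _ => by positivity)
    (Finset.mem_univ i)

end Atl

end Pool.Agent.P.MP_e0a138_an.AD
end
end

-- part Pool.Agent.P.MP_e0a138_an.GE14
section

set_option autoImplicit false
set_option linter.unusedSectionVars false
set_option linter.unusedVariables false

open MeasureTheory Filter Topology Metric Complex
open scoped ENNReal NNReal ContDiff InnerProductSpace ComplexConjugate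

noncomputable section
namespace Pool.Agent.P.MP_e0a138_an.AD

variable {N p q k : ℕ} {W : Type} [NormedAddCommGroup W] [InnerProductSpace ℂ W]
  [FiniteDimensional ℂ W] [CompleteSpace W]
variable {A : Atl N p q k}

namespace Atl

theorem kplq_subset {r : ℝ} (hr : r < 1) (t : Tr q k) : A.kplq r t ⊆ A.plq t :=
  Set.image_mono fun _ hx => closedBall_subset_ball hr hx

theorem mem_kplq_tri {r : ℝ} (hr : r < 1)
    (hχ : ∀ i, ∀ m ∈ A.M, m ∉ A.ψ i '' closedBall 0 r → A.χ i m = 0) {t : Tr q k}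
    {z : Eu N × Eu N} (hz : z ∈ A.plq t) {j : Fin k} (hj : A.χ j z.1 ≠ 0) :
    z ∈ A.kplq r (A.tri j z) := by
  have hM := (plq_fst hz).1
  have h := plq_fst (mem_plq_tri hz (mem_U_of_χ hM hj))
  obtain ⟨w, hw, hwz⟩ : z.1 ∈ A.ψ j '' closedBall 0 r := by
    by_contra hn
    exact hj (hχ j _ hM hn)
  refine ⟨(A.φ j z.1).1, ?_, h.2.2.2.2⟩
  show A.φ j z.1 ∈ closedBall (0 : Eu p × Eu q) r
  rw [← hwz, A.left_inv j w (closedBall_subset_ball hr hw)]
  exact hw

theorem kplq_finite {r : ℝ} (hr : r < 1) (t : Tr q k) :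
    {t' | (A.kplq r t ∩ A.kplq r t').Nonempty}.Finite := by
  have key : ∀ j : Fin k, ((fun x => A.tri j (A.gam t x)) ''
      {x : Eu p | (x, t.2.1) ∈ closedBall (0 : Eu p × Eu q) r ∧
        A.ψ t.1 (x, t.2.1) ∈ A.ψ j '' closedBall 0 r}).Finite := by
    intro j
    have hc : Continuous fun x : Eu p => (x, t.2.1) := continuous_id.prodMk continuous_const
    have hC : IsCompact {x : Eu p | (x, t.2.1) ∈ closedBall (0 : Eu p × Eu q) r ∧
        A.ψ t.1 (x, t.2.1) ∈ A.ψ j '' closedBall 0 r} :=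
      (isCompact_closedBall (0 : Eu p) r).of_isClosed_subset
        ((isClosed_closedBall.preimage hc).inter
          (((isCompact_closedBall 0 r).image (A.ψ_smooth j).continuous).isClosed.preimage
            ((A.ψ_smooth t.1).continuous.comp hc)))
        fun x hx => (mem_closedBall_prod.1 hx.1).1
    obtain ⟨s, -, hs⟩ := hC.elim_nhds_subcover
      (fun x => {x' | A.tri j (A.gam t x') = A.tri j (A.gam t x)}) (by
        rintro x ⟨hx, w, hw, hwx⟩
        have hb := mem_ball_prod.1 (closedBall_subset_ball hr hx)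
        exact tri_ev hb.2 hb.1 (hwx ▸ (ψ_mem j (closedBall_subset_ball hr hw)).2))
    refine (s.finite_toSet.image fun x => A.tri j (A.gam t x)).subset ?_
    rintro _ ⟨x, hx, rfl⟩
    obtain ⟨x₀, hx₀, h⟩ := Set.mem_iUnion₂.1 (hs hx)
    exact ⟨x₀, hx₀, Eq.symm h⟩
  refine (Set.finite_iUnion key).subset ?_
  rintro t' ⟨z, ⟨x, hx, rfl⟩, hz'⟩
  refine Set.mem_iUnion.2 ⟨t'.1, x, ⟨hx, ?_⟩, tri_eq (kplq_subset hr t' hz')⟩
  obtain ⟨x', hx', h⟩ := hz'
  exact ⟨_, hx', congrArg Prod.fst h⟩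

end Atl

end Pool.Agent.P.MP_e0a138_an.AD
end
end

-- part Pool.Agent.P.MP_e0a138_an.GE14b
section

set_option autoImplicit false
set_option linter.unusedSectionVars false
set_option linter.unusedVariables false

open MeasureTheory Filter Topology Metric Complex
open scoped ENNReal NNReal ContDiff InnerProductSpace ComplexConjugate

noncomputable section
namespace Pool.Agent.P.MP_e0a138_an.AD

variable {N p q k : ℕ} {W : Type} [NormedAddCommGroup W] [InnerProductSpace ℂ W]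
  [FiniteDimensional ℂ W] [CompleteSpace W]
variable {A : Atl N p q k}

namespace Atl

theorem GE14b_const {S : ℕ → Finset (Tr q k)}
    (one : ∀ t, ∀ z ∈ A.plq t, ∀ j j', A.χ j z.1 ≠ 0 → A.χ j' z.1 ≠ 0 → (∃ n, A.tri j z ∈ S n) →
      ∃ n, A.tri j' z ∈ S n) {t : Tr q k} {z z' : Eu N × Eu N} (hz : z ∈ A.plq t)
    (hz' : z' ∈ A.plq t) (h : ∀ j, A.χ j z.1 ≠ 0 → ∃ n, A.tri j z ∈ S n) :
    ∀ j, A.χ j z'.1 ≠ 0 → ∃ n, A.tri j z' ∈ S n := by
  have ht := mem_ball_of_plq hz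
  have hmem : ∀ x ∈ ball (0 : Eu p) 1, A.gam t x ∈ A.plq t := fun x hx =>
    plq_eq (A := A) ht ▸ Set.mem_image_of_mem _ hx
  rw [plq_eq ht] at hz hz'
  obtain ⟨x, hx, rfl⟩ := hz
  obtain ⟨x', hx', rfl⟩ := hz'
  let G : Eu p → Prop := fun x => ∀ j, A.χ j (A.gam t x).1 ≠ 0 → ∃ n, A.tri j (A.gam t x) ∈ S n
  refine (convex_ball (0 : Eu p) 1).isPreconnected.induction₂' (fun a b => G a → G b)
    (fun a ha => ?_) (fun _ _ _ _ _ _ h1 h2 h3 => h2 (h1 h3)) hx hx' h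
  obtain ⟨j, hj⟩ := exists_χ (plq_fst (hmem a ha)).1
  have hc : Continuous fun y : Eu p => A.χ j (A.gam t y).1 :=
    (A.χ_smooth j).continuous.comp ((A.ψ_smooth t.1).continuous.comp
      (continuous_id.prodMk continuous_const))
  have h1 : ∀ᶠ y in 𝓝 a, A.χ j (A.gam t y).1 ≠ 0 := hc.continuousAt.eventually_ne hj
  have h2 := tri_ev ht ha (j := j) (mem_U_of_χ (plq_fst (hmem a ha)).1 hj)
  filter_upwards [self_mem_nhdsWithin, nhdsWithin_le_nhds h1, nhdsWithin_le_nhds h2] with y hy e1 e2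
  exact ⟨fun hG j' hj' => one t _ (hmem y hy) j j' e1 hj' (e2 ▸ hG j hj),
    fun hG j' hj' => one t _ (hmem a ha) j j' hj hj' (e2 ▸ hG j e1)⟩

theorem kgraph {r : ℝ} (hr : r < 1)
    (hχ : ∀ i, ∀ m ∈ A.M, m ∉ A.ψ i '' closedBall 0 r → A.χ i m = 0) {t₀ : Tr q k}
    (h0 : t₀.2.1 ∈ ball (0 : Eu q) 1) : ∃ S : ℕ → Finset (Tr q k), Monotone S ∧
      (∀ n, ∀ t ∈ S n, A.Reach t₀ t) ∧
      (∀ n t t', t ∈ S n → (A.kplq r t ∩ A.kplq r t').Nonempty → t' ∈ S (n + 1)) ∧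
      ∀ t, A.Reach t₀ t → ∀ z ∈ A.plq t, ∀ j, A.χ j z.1 ≠ 0 → ∃ n, A.tri j z ∈ S n := by
  classical
  have hz0 : A.gam t₀ 0 ∈ A.plq t₀ :=
    plq_eq (A := A) h0 ▸ Set.mem_image_of_mem _ (mem_ball_self one_pos)
  obtain ⟨j0, hj0⟩ := exists_χ (plq_fst hz0).1
  let S : ℕ → Finset (Tr q k) := fun n => Nat.rec {A.tri j0 (A.gam t₀ 0)}
    (fun _ s => s ∪ s.biUnion fun t => (kplq_finite (A := A) hr t).toFinset) n
  have hS : ∀ n, S (n + 1) = S n ∪ (S n).biUnion fun t => (kplq_finite (A := A) hr t).toFinset :=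
    fun _ => rfl
  have h3 : ∀ n t t', t ∈ S n → (A.kplq r t ∩ A.kplq r t').Nonempty → t' ∈ S (n + 1) := by
    intro n t t' ht h
    rw [hS]
    exact Finset.mem_union_right _ (Finset.mem_biUnion.2 ⟨t, ht, (Set.Finite.mem_toFinset _).2 h⟩)
  have one : ∀ t, ∀ z ∈ A.plq t, ∀ j j', A.χ j z.1 ≠ 0 → A.χ j' z.1 ≠ 0 → (∃ n, A.tri j z ∈ S n) →
      ∃ n, A.tri j' z ∈ S n := fun t z hz j j' hj hj' ⟨n, hn⟩ =>
    ⟨n + 1, h3 n _ _ hn ⟨z, mem_kplq_tri hr hχ hz hj, mem_kplq_tri hr hχ hz hj'⟩⟩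
  refine ⟨S, monotone_nat_of_le_succ fun n => ?_, fun n => ?_, h3, fun t ht => ?_⟩
  · rw [hS]
    exact Finset.subset_union_left
  · induction n with
    | zero =>
      intro t ht
      obtain rfl : t = A.tri j0 (A.gam t₀ 0) := Finset.mem_singleton.1 ht
      exact Relation.ReflTransGen.single ⟨_, hz0, mem_plq_tri hz0 (mem_U_of_χ (plq_fst hz0).1 hj0)⟩
    | succ n ih =>
      intro t ht
      rw [hS] at ht
      rcases Finset.mem_union.1 ht with h | h
      · exact ih t h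
      · obtain ⟨t', h1, h2⟩ := Finset.mem_biUnion.1 h
        obtain ⟨z, h4, h5⟩ := (Set.Finite.mem_toFinset _).1 h2
        exact Relation.ReflTransGen.tail (ih t' h1) ⟨z, kplq_subset hr _ h4, kplq_subset hr _ h5⟩
  · induction ht with
    | refl =>
      exact fun z hz => GE14b_const one hz0 hz fun j hj =>
        one t₀ _ hz0 j0 j hj0 hj ⟨0, Finset.mem_singleton_self _⟩
    | tail _ h ih =>
      obtain ⟨w, h1, h2⟩ := h
      exact fun z hz => GE14b_const one h2 hz (ih w h1)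

end Atl

end Pool.Agent.P.MP_e0a138_an.AD
end
end

-- part Pool.Agent.P.MP_e0a138_an.GE15b
section

set_option autoImplicit false
set_option linter.unusedSectionVars false
set_option linter.unusedVariables false

open MeasureTheory Filter Topology Metric Complex
open scoped ENNReal NNReal ContDiff InnerProductSpace ComplexConjugate

noncomputable section
namespace Pool.Agent.P.MP_e0a138_an.AD

variable {N p q k : ℕ} {W : Type} [NormedAddCommGroup W] [InnerProductSpace ℂ W]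
  [FiniteDimensional ℂ W] [CompleteSpace W]
variable {A : Atl N p q k}

namespace Atl

theorem leaf_cutoff {r : ℝ} (hr : r < 1)
    (hχ : ∀ i, ∀ m ∈ A.M, m ∉ A.ψ i '' closedBall 0 r → A.χ i m = 0) {t₀ : Tr q k}
    (h0 : t₀.2.1 ∈ ball (0 : Eu q) 1) :
    ∃ (c : ℕ → Eu N × Eu N → ℝ) (fs : ℕ → Finset {t // A.Reach t₀ t}) (C : ℝ), 0 ≤ C ∧
      (∀ n t, A.Reach t₀ t → ContDiffOn ℝ ∞ (fun x => c n (A.gam t x)) (ball 0 1)) ∧
      (∀ n t x, A.Reach t₀ t → (x, t.2.1) ∈ closedBall (0 : Eu p × Eu q) r →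
        ‖fderiv ℝ (fun x => c n (A.gam t x)) x‖ ≤ C * (1 / (n + 1 : ℝ))) ∧
      ∀ t, A.Reach t₀ t → ∀ z ∈ A.plq t, (∀ n, 0 ≤ c n z ∧ c n z ≤ 1) ∧
        Tendsto (fun n => c n z) atTop (𝓝 1) ∧
        ∀ n, ∑ P ∈ fs n, c n z * (A.plq P.1).indicator (fun z => A.χ P.1.1 z.1 ^ 2) z = c n z := by
  classical
  obtain ⟨S, hSm, hSr, hSn, hSc⟩ := kgraph hr hχ h0
  obtain ⟨α, hα01, hαS, hαlim, hαd⟩ := exists_alpha S hSm
  obtain ⟨C, hC0, hC⟩ := A.cut_grad hr
  refine ⟨fun n z => ∑ j, A.χ j z.1 ^ 2 * α n (A.tri j z),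
    fun n => (S (n + 1)).subtype (fun t => A.Reach t₀ t), C, hC0, ?_, ?_, ?_⟩
  · intro n t ht x hx
    have hev := cut_smooth (A := A) (α n) (ht.mem h0) hx
    have hsm : ContDiff ℝ ∞ (fun x' : Eu p =>
        ∑ j, A.χ j (A.ψ t.1 (x', t.2.1)) ^ 2 * α n (A.tri j (A.gam t x))) := by
      refine ContDiff.sum fun j _ => ?_
      exact (((A.χ_smooth j).comp ((A.ψ_smooth t.1).comp
        (contDiff_id.prodMk contDiff_const))).pow 2).mul contDiff_const
    exact (hsm.contDiffAt.congr_of_eventuallyEq hev).contDiffWithinAt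
  · intro n t x ht hx
    have hx1 : x ∈ ball (0 : Eu p) 1 :=
      closedBall_subset_ball hr (mem_closedBall_prod.1 hx).1
    have hev := cut_smooth (A := A) (α n) (ht.mem h0) hx1
    rw [hev.fderiv_eq]
    have hzk : A.gam t x ∈ A.kplq r t := ⟨x, hx, rfl⟩
    refine hC t.1 x t.2.1 (fun j => α n (A.tri j (A.gam t x))) (α n t) _ hx (by positivity) ?_
    intro j hj
    have hzj : A.gam t x ∈ A.kplq r (A.tri j (A.gam t x)) :=
      mem_kplq_tri hr hχ (kplq_subset hr t hzk) hj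
    exact hαd n _ _ (fun m hm => hSn m _ _ hm ⟨_, hzj, hzk⟩)
      (fun m hm => hSn m _ _ hm ⟨_, hzk, hzj⟩)
  · intro t ht z hz
    have hM : z.1 ∈ A.M := (plq_fst hz).1
    have hsum := A.χ_sum z.1 hM
    refine ⟨fun n => ⟨?_, ?_⟩, ?_, fun n => ?_⟩
    · exact Finset.sum_nonneg fun j _ => mul_nonneg (sq_nonneg _) (hα01 n _).1
    · rw [← hsum]
      exact Finset.sum_le_sum fun j _ => mul_le_of_le_one_right (sq_nonneg _) (hα01 n _).2
    · have h1 : Tendsto (fun n => ∑ j, A.χ j z.1 ^ 2 * α n (A.tri j z)) atTop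
          (𝓝 (∑ j, A.χ j z.1 ^ 2)) := by
        refine tendsto_finsetSum _ fun j _ => ?_
        by_cases hj : A.χ j z.1 = 0
        · simp [hj]
        · obtain ⟨m, hm⟩ := hSc t ht z hz j hj
          simpa using (hαlim m _ hm).const_mul (A.χ j z.1 ^ 2)
      rwa [hsum] at h1
    · by_cases hc : ∑ j, A.χ j z.1 ^ 2 * α n (A.tri j z) = 0
      · simp only [hc, zero_mul, Finset.sum_const_zero]
      · obtain ⟨j0, -, hj0⟩ := Finset.exists_ne_zero_of_sum_ne_zero hc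
        have hχ0 : A.χ j0 z.1 ≠ 0 := by
          intro h
          apply hj0
          rw [h]
          ring
        have hS0 : A.tri j0 z ∈ S n := hαS n _ (right_ne_zero_of_mul hj0)
        have hall : ∀ j, A.χ j z.1 ≠ 0 → A.tri j z ∈ S (n + 1) := fun j hj =>
          hSn n _ _ hS0 ⟨z, mem_kplq_tri hr hχ hz hχ0, mem_kplq_tri hr hχ hz hj⟩
        rw [← Finset.mul_sum]
        have h1 : ∑ P ∈ (S (n + 1)).subtype (fun t => A.Reach t₀ t),
            (A.plq P.1).indicator (fun z => A.χ P.1.1 z.1 ^ 2) z =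
            ∑ P ∈ S (n + 1), (A.plq P).indicator (fun z => A.χ P.1 z.1 ^ 2) z :=
          Finset.sum_subtype_of_mem
            (fun P : Tr q k => (A.plq P).indicator (fun z => A.χ P.1 z.1 ^ 2) z) (hSr (n + 1))
        have h2 : ∑ j, A.χ j z.1 ^ 2 =
            ∑ P ∈ S (n + 1), (A.plq P).indicator (fun z => A.χ P.1 z.1 ^ 2) z := by
          refine Finset.sum_bij_ne_zero (fun j _ _ => A.tri j z) ?_ ?_ ?_ ?_
          · intro j _ hj
            exact hall j (fun h => hj (by rw [h]; ring))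
          · intro j _ _ j' _ _ h
            exact congrArg Prod.fst h
          · intro P hP hP0
            have hzP : z ∈ A.plq P := by
              by_contra h
              exact hP0 (Set.indicator_of_notMem h _)
            rw [Set.indicator_of_mem hzP] at hP0
            exact ⟨P.1, Finset.mem_univ _, hP0, tri_eq hzP⟩
          · intro j _ hj
            have hj' : A.χ j z.1 ≠ 0 := fun h => hj (by rw [h]; ring)
            rw [Set.indicator_of_mem (kplq_subset hr _ (mem_kplq_tri hr hχ hz hj'))]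
            rfl
        rw [h1, ← h2, hsum, mul_one]

end Atl

end Pool.Agent.P.MP_e0a138_an.AD
end
end

-- part Pool.Agent.P.MP_e0a138_an.GE17b
section

set_option autoImplicit false
set_option linter.unusedSectionVars false
set_option linter.unusedVariables false

open MeasureTheory Filter Topology Metric Complex
open scoped ENNReal NNReal ContDiff InnerProductSpace ComplexConjugate

noncomputable section
namespace Pool.Agent.P.MP_e0a138_an.AD

variable {N p q k : ℕ} {W : Type} [NormedAddCommGroup W] [InnerProductSpace ℂ W]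
  [FiniteDimensional ℂ W] [CompleteSpace W]
variable {A : Atl N p q k} {ε : Eu N →L[ℝ] W →L[ℂ] W}

namespace Atl
variable {DF DH : (Eu N → W) → Eu N → W} {μ : Measure (Eu N)} {l : Measure (Eu N × Eu N)}
  {t₀ : Tr q k}

theorem GE17b_slice {G : Type} [NormedAddCommGroup G] [NormedSpace ℝ G] {f : Eu p × Eu q → G}
    (hf : ContDiffOn ℝ ∞ f (ball 0 1)) {y : Eu q} (hy : y ∈ ball (0 : Eu q) 1) :
    ContDiffOn ℝ ∞ (fun x : Eu p => f (x, y)) (ball 0 1) :=
  hf.comp (contDiff_id.prodMk contDiff_const).contDiffOn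
    fun x hx => mem_ball_prod.2 ⟨hx, hy⟩

theorem GE17b_bound (A : Atl N p q k) (ε : Eu N →L[ℝ] W →L[ℂ] W) {r : ℝ} (hr : r < 1) :
    ∃ L : ℝ, 0 ≤ L ∧ ∀ (i : Fin k) (b : Fin p), ∀ z ∈ closedBall (0 : Eu p × Eu q) r,
      ‖A.sy (clL ε) A.F i (.inl b) z‖ ≤ L := by
  have h : ∀ j : Fin k × Fin p, ∃ L : ℝ, ∀ z ∈ closedBall (0 : Eu p × Eu q) r,
      ‖A.sy (clL ε) A.F j.1 (.inl j.2) z‖ ≤ L := fun j =>
    (isCompact_closedBall (0 : Eu p × Eu q) r).exists_bound_of_continuousOn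
      ((smooth_sy (clL ε) A.subB_F j.1 (.inl j.2)).continuousOn.mono (closedBall_subset_ball hr))
  choose L hL using h
  refine ⟨∑ j, |L j|, Finset.sum_nonneg fun j _ => abs_nonneg _, fun i b z hz => ?_⟩
  exact (hL (i, b) z hz).trans ((le_abs_self _).trans
    (Finset.single_le_sum (f := fun j => |L j|) (fun j _ => abs_nonneg _) (Finset.mem_univ (i, b))))

theorem GE17b_cpt {r : ℝ} (y : Eu q) :
    IsCompact {x : Eu p | (x, y) ∈ closedBall (0 : Eu p × Eu q) r} := by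
  refine (isCompact_closedBall (0 : Eu p) r).of_isClosed_subset ?_ ?_
  · exact isClosed_closedBall.preimage (continuous_id.prodMk continuous_const)
  · intro x hx
    exact (mem_closedBall_prod.1 hx).1

theorem GE17b_coef (hε : IsCAR ε) {t : Tr q k} (ht : t.2.1 ∈ ball (0 : Eu q) 1)
    {Z : Eu p × Eu q → W →L[ℂ] W} (hZ : ContDiffOn ℝ ∞ Z (ball 0 1)) {c : ℝ≥0} (hc : c ≠ 0) :
    Coef (ball (0 : Eu p) 1) (fun (b : Fin p) x => A.sy (clL ε) A.F t.1 (.inl b) (x, t.2.1))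
      (fun x => Z (x, t.2.1) + I • cl ε (A.cov t.1 t.2.2 (A.ψ t.1 (x, t.2.1))))
      (fun x => A.Pi ε (A.gam t x).1) (fun x => (c : ℝ) * A.rho t.1 (x, t.2.1)) where
  isOpen := isOpen_ball
  hA := fun b => GE17b_slice (smooth_sy (clL ε) A.subB_F t.1 (.inl b)) ht
  hB := by
    refine (GE17b_slice hZ ht).add (ContDiffOn.const_smul I ?_)
    have h1 := GE17b_slice (contDiffOn_iff.1 (smooth_cov (A := A) t.1 t.2.2) t.1) ht
    have h2 := (clL ε).contDiff.comp_contDiffOn h1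
    refine h2.congr fun x _ => ?_
    exact (clL_apply ε _).symm
  hP := GE17b_slice (contDiffOn_iff.1 (A.smooth_Pi hε) t.1) ht
  hρ := contDiffOn_const.mul (GE17b_slice (rho_smooth t.1) ht)
  pos := fun x hx => mul_pos (NNReal.coe_pos.2 (pos_iff_ne_zero.2 hc))
    (rho_pos t.1 (mem_ball_prod.2 ⟨hx, ht⟩))
  idem := fun x _ => Pi_idem _
  sa := fun x _ => Pi_star _
  skew := fun b x _ => by
    simp only [sy, clL_apply]
    exact cl_star _
  comm := fun b x hx =>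
    (sy_comm hε A.subB_F t.1 (.inl b) (mem_ball_prod.2 ⟨hx, ht⟩)).2.2.symm

theorem Dir.essSA_L (hD : A.Dir ε μ DF DH) (hε : IsCAR ε) (h0 : t₀.2.1 ∈ ball (0 : Eu q) 1)
    (hl : A.IsLeaf t₀ l) (hs : Sym (A.grL ε DF t₀ l)) : EssSA (A.grL ε DF t₀ l) := by
  obtain ⟨r, hr0, hr, hχ⟩ := A.exists_r
  obtain ⟨L, hL0, hL⟩ := GE17b_bound A ε hr
  obtain ⟨cf, fs, C, hC0, hsm, hgr, hpt⟩ := leaf_cutoff hr hχ h0
  choose Z hZ hZ2 using hD.plaque hε
  have hc0 : ∀ t : {t // A.Reach t₀ t}, ∃ c : ℝ≥0, c ≠ 0 ∧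
      l.restrict (A.plq t.1) = c • A.pm t.1 := fun t => hl.2 t.1 t.2
  choose c hc hc2 using hc0
  have hm : ∀ t : {t // A.Reach t₀ t}, t.1.2.1 ∈ ball (0 : Eu q) 1 := fun t => t.2.mem h0
  have hae := hl.ae_mem
  refine Pat.essSA (J := {t // A.Reach t₀ t}) (b := (bs : Fin p → Eu p))
    (Pg := fun z => A.Pi ε z.1)
    { O := fun _ => ball 0 1
      γ := fun t => A.gam t.1
      π := fun t z => (A.φ t.1.1 z.1).1
      A := fun t b x => A.sy (clL ε) A.F t.1.1 (.inl b) (x, t.1.2.1)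
      B := fun t x => Z t.1.1 (x, t.1.2.1) +
        I • cl ε (A.cov t.1.1 t.1.2.2 (A.ψ t.1.1 (x, t.1.2.1)))
      ρ := fun t x => (c t : ℝ) * A.rho t.1.1 (x, t.1.2.1)
      θ := fun t => (A.plq t.1).indicator fun z => A.χ t.1.1 z.1 ^ 2
      K := fun t => {x | (x, t.1.2.1) ∈ closedBall (0 : Eu p × Eu q) r}
      χ := cf
      fs := fs
      δ := fun n => (p * L * C) * (1 / (n + 1 : ℝ))
      cnt := (countable_reach t₀).to_subtype
      coef := fun t => GE17b_coef hε (hm t) (hZ t.1.1) (hc t)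
      emb := fun t => emb_plq (hm t) (hc2 t)
      inv := fun t x hx => gam_inv (hm t) hx
      cover := ?_
      test := ?_
      val := hD.grL_val hε h0 hl
      sym := hs
      K_cpt := fun t => GE17b_cpt _
      K_sub := fun t x hx => closedBall_subset_ball hr (mem_closedBall_prod.1 hx).1
      θ_nonneg := fun t z => Set.indicator_nonneg (fun _ _ => sq_nonneg _) z
      θ_supp := ?_
      θ_smooth := ?_
      χ_smooth := fun n t => hsm n t.1 t.2
      χ_mem := fun n => hae.mono fun z ⟨t, ht, hz⟩ => (hpt t ht z hz).1 n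
      χ_sum := fun n => hae.mono fun z ⟨t, ht, hz⟩ => (hpt t ht z hz).2.2 n
      χ_lim := hae.mono fun z ⟨t, ht, hz⟩ => (hpt t ht z hz).2.1
      δ_lim := ?_
      grad := ?_ }
  · filter_upwards [hae] with z ⟨t, ht, hz⟩
    exact ⟨⟨t, ht⟩, by rwa [← plq_eq (ht.mem h0)]⟩
  · intro t a ha
    obtain ⟨u, hu, hloc, hx⟩ := hZ2 t.1.1 t.1.2.1 t.1.2.2 a (hm t) ha
    refine ⟨_, hD.mem_grL hε h0 hl t.2 hu hloc, ?_, ?_⟩
    · refine (sec_ae h0 hl t.2 hu.1.continuousOn).trans (EventuallyEq.of_eq ?_)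
      rw [plq_eq (hm t)]
      refine Set.indicator_congr fun w hw => ?_
      obtain ⟨x, hx1, rfl⟩ := hw
      simp only [gam_inv (hm t) hx1]
      exact (hx x hx1).1
    · refine (sec_ae h0 hl t.2 (hD.lft hε t.1 hu hloc).1.1.continuousOn).trans
        (EventuallyEq.of_eq ?_)
      rw [plq_eq (hm t)]
      refine Set.indicator_congr fun w hw => ?_
      obtain ⟨x, hx1, rfl⟩ := hw
      simp only [gam_inv (hm t) hx1]
      exact (hx x hx1).2
  · intro t z hz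
    by_cases hp : z ∈ A.plq t.1
    · rw [Set.indicator_of_mem hp]
      have hp' := hp
      rw [plq_eq (hm t)] at hp'
      obtain ⟨x, hx1, rfl⟩ := hp'
      have hb : (x, t.1.2.1) ∈ ball (0 : Eu p × Eu q) 1 := mem_ball_prod.2 ⟨hx1, hm t⟩
      have := (chart_zero hr (hχ t.1.1)).1 _ hb fun h => hz ⟨x, h, rfl⟩
      change A.χ t.1.1 (A.ψ t.1.1 (x, t.1.2.1)) ^ 2 = 0
      rw [this]; simp
    · exact Set.indicator_of_notMem hp _
  · intro t
    have h1 : ContDiffOn ℝ ∞ (fun x : Eu p => A.χ t.1.1 (A.ψ t.1.1 (x, t.1.2.1)) ^ 2) (ball 0 1) :=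
      (((A.χ_smooth _).comp ((A.ψ_smooth _).comp
        (contDiff_id.prodMk contDiff_const))).pow 2).contDiffOn
    refine h1.congr fun x hx => ?_
    have : A.gam t.1 x ∈ A.plq t.1 := by
      rw [plq_eq (hm t)]; exact ⟨x, hx, rfl⟩
    rw [Set.indicator_of_mem this]
    rfl
  · have := tendsto_one_div_add_atTop_nhds_zero_nat (𝕜 := ℝ) |>.const_mul (p * L * C)
    simpa using this
  · intro n t x hx
    have h1 := hgr n t.1 x t.2 hx
    have hC : 0 ≤ C * (1 / (n + 1 : ℝ)) := by positivity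
    refine (norm_sum_le _ _).trans ?_
    refine (Finset.sum_le_sum (g := fun _ => C * (1 / (n + 1 : ℝ)) * L) fun b _ => ?_).trans ?_
    · rw [norm_smul, Complex.norm_real]
      refine mul_le_mul ?_ (hL _ b _ hx) (norm_nonneg _) hC
      refine (ContinuousLinearMap.le_opNorm _ _).trans ?_
      rw [norm_bs, mul_one]
      exact h1
    · rw [Finset.sum_const, Finset.card_univ, Fintype.card_fin, nsmul_eq_mul]
      exact le_of_eq (by ring)

end Atl

end Pool.Agent.P.MP_e0a138_an.AD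
end
end

-- part Pool.Agent.P.MP_e0a138_an.AB4a
section

set_option autoImplicit false
set_option linter.unusedSectionVars false
set_option linter.unusedVariables false

open MeasureTheory Filter Topology Metric Complex
open scoped ENNReal NNReal ContDiff InnerProductSpace ComplexConjugate

noncomputable section
namespace Pool.Agent.P.MP_e0a138_an.AD

variable {H₁ H₂ : Type} [NormedAddCommGroup H₁] [InnerProductSpace ℂ H₁] [CompleteSpace H₁]
  [NormedAddCommGroup H₂] [InnerProductSpace ℂ H₂] [CompleteSpace H₂] {ι : Type}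
  {l : Filter ℝ} {s : ι → H₂} {Wp : ι → ℝ → H₁}

theorem ab4a_lim {β : Type} [NormedAddCommGroup β] {f : ℝ → β} {b : β} (C : ℝ)
    (h : ∀ e : ℝ, 0 < e → ∃ (g : ℝ → ℝ) (c : ℝ), c ≤ C * e ∧ Tendsto g l (𝓝 c) ∧
      ∀ᶠ t in l, ‖f t - b‖ ≤ g t) : Tendsto f l (𝓝 b) := by
  refine Metric.tendsto_nhds.2 fun ε hε => ?_
  have hC : 0 < |C| + 1 := by positivity
  obtain ⟨g, c, h1, h2, h3⟩ := h (ε / (|C| + 1)) (div_pos hε hC)
  have h4 : c < ε := by
    refine h1.trans_lt ?_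
    rw [← mul_div_assoc, div_lt_iff₀ hC]
    nlinarith [le_abs_self C]
  filter_upwards [h3, h2.eventually (gt_mem_nhds h4)] with t h5 h6
  rw [dist_eq_norm]
  exact h5.trans_lt h6

theorem ab4a_norm {x : ℝ → H₁} {u : H₂}
    (h : Tendsto (fun h => ‖x h‖ ^ 2) l (𝓝 (‖u‖ ^ 2))) : Tendsto (fun h => ‖x h‖) l (𝓝 ‖u‖) := by
  have h1 := h.sqrt
  simpa only [Real.sqrt_sq (norm_nonneg _)] using h1

theorem ab4a_self {x : ℝ → H₁} {u : H₂}
    (h : Tendsto (fun h => ⟪x h, x h⟫_ℂ) l (𝓝 ⟪u, u⟫_ℂ)) :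
    Tendsto (fun h => ‖x h‖) l (𝓝 ‖u‖) := by
  refine ab4a_norm ?_
  have h1 := (RCLike.continuous_re.tendsto _).comp h
  simpa only [Function.comp_def, inner_self_eq_norm_sq] using h1

theorem ab4a_add {x y : ℝ → H₁} {u v : H₂} (hx : Tendsto (fun h => ‖x h‖) l (𝓝 ‖u‖))
    (hy : Tendsto (fun h => ‖y h‖) l (𝓝 ‖v‖))
    (h : Tendsto (fun h => ⟪x h, y h⟫_ℂ) l (𝓝 ⟪u, v⟫_ℂ)) :
    Tendsto (fun h => ‖x h + y h‖) l (𝓝 ‖u + v‖) := by
  refine ab4a_norm ?_
  simp only [norm_add_sq (𝕜 := ℂ)]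
  exact ((hx.pow 2).add (((RCLike.continuous_re.tendsto _).comp h).const_mul 2)).add (hy.pow 2)

theorem ab4a_sub {x y : ℝ → H₁} {u v : H₂} (hx : Tendsto (fun h => ‖x h‖) l (𝓝 ‖u‖))
    (hy : Tendsto (fun h => ‖y h‖) l (𝓝 ‖v‖))
    (h : Tendsto (fun h => ⟪x h, y h⟫_ℂ) l (𝓝 ⟪u, v⟫_ℂ)) :
    Tendsto (fun h => ‖x h - y h‖) l (𝓝 ‖u - v‖) := by
  refine ab4a_norm ?_
  simp only [norm_sub_sq (𝕜 := ℂ)]
  exact ((hx.pow 2).sub (((RCLike.continuous_re.tendsto _).comp h).const_mul 2)).add (hy.pow 2)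

section
variable (hg : ∀ a b, Tendsto (fun h => ⟪Wp a h, Wp b h⟫_ℂ) l (𝓝 ⟪s a, s b⟫_ℂ))
include hg

theorem ab4a_span {u : H₂} (hu : u ∈ Submodule.span ℂ (Set.range s)) : ∃ y : ℝ → H₁,
    (∀ a, Tendsto (fun h => ⟪Wp a h, y h⟫_ℂ) l (𝓝 ⟪s a, u⟫_ℂ)) ∧
    ∀ (x : ℝ → H₁) (v : H₂), (∀ a, Tendsto (fun h => ⟪Wp a h, x h⟫_ℂ) l (𝓝 ⟪s a, v⟫_ℂ)) →
      Tendsto (fun h => ⟪y h, x h⟫_ℂ) l (𝓝 ⟪u, v⟫_ℂ) := by
  induction hu using Submodule.span_induction with
  | mem u hu =>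
    obtain ⟨a, rfl⟩ := hu
    exact ⟨Wp a, fun b => hg b a, fun x v h => h a⟩
  | zero => exact ⟨fun _ => 0, fun a => by simp [tendsto_const_nhds],
      fun x v _ => by simp [tendsto_const_nhds]⟩
  | add u u' _ _ ih ih' =>
    obtain ⟨y, h1, h2⟩ := ih
    obtain ⟨y', h1', h2'⟩ := ih'
    refine ⟨fun h => y h + y' h, fun a => ?_, fun x v h => ?_⟩
    · simp only [inner_add_right]
      exact (h1 a).add (h1' a)
    · simp only [inner_add_left]
      exact (h2 x v h).add (h2' x v h)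
  | smul c u _ ih =>
    obtain ⟨y, h1, h2⟩ := ih
    refine ⟨fun h => c • y h, fun a => ?_, fun x v h => ?_⟩
    · simp only [inner_smul_right]
      exact (h1 a).const_mul c
    · simp only [inner_smul_left]
      exact (h2 x v h).const_mul _

theorem Rel.label (a : ι) : Rel l s Wp (Wp a) (s a) :=
  ⟨Submodule.le_topologicalClosure _ (Submodule.subset_span ⟨a, rfl⟩), ab4a_self (hg a a),
    fun b => hg b a⟩

theorem Rel.inner {x y : ℝ → H₁} {u v : H₂} (hx : Rel l s Wp x u) (hy : Rel l s Wp y v) :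
    Tendsto (fun h => ⟪x h, y h⟫_ℂ) l (𝓝 ⟪u, v⟫_ℂ) := by
  refine ab4a_lim (2 * ‖v‖) fun e he => ?_
  obtain ⟨u', hu', hd⟩ := Metric.mem_closure_iff.1 hx.1 e he
  rw [dist_eq_norm] at hd
  obtain ⟨y', h1, h2⟩ := ab4a_span hg hu'
  have h3 := ab4a_sub (ab4a_self (h2 y' u' h1)) hx.2.1 (h2 x u hx.2.2)
  have h4 := tendsto_iff_norm_sub_tendsto_zero.1 (h2 y v hy.2.2)
  refine ⟨_, _, ?_, ((h3.mul hy.2.1).add h4).add_const (‖u' - u‖ * ‖v‖),
    Eventually.of_forall fun t => ?_⟩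
  · rw [norm_sub_rev]
    nlinarith [norm_nonneg v]
  · have e1 : ⟪x t, y t⟫_ℂ - ⟪u, v⟫_ℂ =
        -⟪y' t - x t, y t⟫_ℂ + (⟪y' t, y t⟫_ℂ - ⟪u', v⟫_ℂ) + ⟪u' - u, v⟫_ℂ := by
      simp only [inner_sub_left]
      ring
    rw [e1]
    refine norm_add₃_le.trans (add_le_add (add_le_add ?_ le_rfl) (norm_inner_le_norm _ _))
    rw [norm_neg]
    exact norm_inner_le_norm _ _

theorem Rel.add {x y : ℝ → H₁} {u v : H₂} (hx : Rel l s Wp x u) (hy : Rel l s Wp y v) :
    Rel l s Wp (fun h => x h + y h) (u + v) := by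
  refine ⟨Submodule.add_mem _ hx.1 hy.1, ab4a_add hx.2.1 hy.2.1 (Rel.inner hg hx hy), fun a => ?_⟩
  simp only [inner_add_right]
  exact (hx.2.2 a).add (hy.2.2 a)

theorem Rel.smul {x : ℝ → H₁} {u : H₂} (c : ℂ) (hx : Rel l s Wp x u) :
    Rel l s Wp (fun h => c • x h) (c • u) := by
  refine ⟨Submodule.smul_mem _ c hx.1, ?_, fun a => ?_⟩
  · simp only [norm_smul]
    exact hx.2.1.const_mul _
  · simp only [inner_smul_right]
    exact (hx.2.2 a).const_mul c

theorem Rel.zero : Rel l s Wp (fun _ => 0) 0 :=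
  ⟨Submodule.zero_mem _, by simp [tendsto_const_nhds], fun a => by simp [tendsto_const_nhds]⟩

theorem Rel.dist {x y : ℝ → H₁} {u v : H₂} (hx : Rel l s Wp x u) (hy : Rel l s Wp y v) :
    Tendsto (fun h => ‖x h - y h‖) l (𝓝 ‖u - v‖) :=
  ab4a_sub hx.2.1 hy.2.1 (Rel.inner hg hx hy)

theorem Rel.of_approx {x : ℝ → H₁} {v : H₂} (h : ∀ e : ℝ, 0 < e → ∃ y u, Rel l s Wp y u ∧
    ‖u - v‖ ≤ e ∧ ∀ᶠ h in l, ‖y h - x h‖ ≤ e) : Rel l s Wp x v := by
  refine ⟨?_, ab4a_lim 2 fun e he => ?_, fun a => ab4a_lim (2 * ‖s a‖) fun e he => ?_⟩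
  · refine (Submodule.isClosed_topologicalClosure _).closure_subset
      (Metric.mem_closure_iff.2 fun e he => ?_)
    obtain ⟨y, u, h1, h2, -⟩ := h (e / 2) (half_pos he)
    refine ⟨u, h1.1, ?_⟩
    rw [dist_comm, dist_eq_norm]
    linarith
  · obtain ⟨y, u, h1, h2, h3⟩ := h e he
    refine ⟨_, _, ?_, ((tendsto_iff_norm_sub_tendsto_zero.1 h1.2.1).const_add e).add_const e,
      h3.mono fun t ht => ?_⟩
    · linarith
    · have e1 : ‖x t‖ - ‖v‖ = -(‖y t‖ - ‖x t‖) + (‖y t‖ - ‖u‖) + (‖u‖ - ‖v‖) := by ring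
      rw [e1]
      refine norm_add₃_le.trans (add_le_add (add_le_add ?_ le_rfl)
        ((abs_norm_sub_norm_le u v).trans h2))
      rw [norm_neg]
      exact (abs_norm_sub_norm_le _ _).trans ht
  · obtain ⟨y, u, h1, h2, h3⟩ := h e he
    refine ⟨_, _, ?_, (((Rel.label hg a).2.1.mul_const e).add
      (tendsto_iff_norm_sub_tendsto_zero.1 (h1.2.2 a))).add_const (‖s a‖ * e),
      h3.mono fun t ht => ?_⟩
    · linarith
    · have e1 : ⟪Wp a t, x t⟫_ℂ - ⟪s a, v⟫_ℂ =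
          -⟪Wp a t, y t - x t⟫_ℂ + (⟪Wp a t, y t⟫_ℂ - ⟪s a, u⟫_ℂ) + ⟪s a, u - v⟫_ℂ := by
        simp only [inner_sub_right]
        ring
      rw [e1]
      refine norm_add₃_le.trans (add_le_add (add_le_add ?_ le_rfl)
        ((norm_inner_le_norm _ _).trans (mul_le_mul_of_nonneg_left h2 (norm_nonneg _))))
      rw [norm_neg]
      exact (norm_inner_le_norm _ _).trans (mul_le_mul_of_nonneg_left ht (norm_nonneg _))

end

end Pool.Agent.P.MP_e0a138_an.AD
end
end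

-- part Pool.Agent.P.MP_e0a138_an.AB4b
section

set_option autoImplicit false
set_option linter.unusedSectionVars false
set_option linter.unusedVariables false

open MeasureTheory Filter Topology Metric Complex
open scoped ENNReal NNReal ContDiff InnerProductSpace ComplexConjugate

noncomputable section
namespace Pool.Agent.P.MP_e0a138_an.AD

variable {H₁ H₂ : Type} [NormedAddCommGroup H₁] [InnerProductSpace ℂ H₁] [CompleteSpace H₁]
  [NormedAddCommGroup H₂] [InnerProductSpace ℂ H₂] [CompleteSpace H₂] {ι : Type}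
  {l : Filter ℝ} {s : ι → H₂} {Wp : ι → ℝ → H₁}

variable {G₁ : ℝ → Set (H₁ × H₁)} {G₂ : Set (H₂ × H₂)} {c : ℂ}

theorem AB4b_lift (hA : Apx l G₁ G₂ s Wp c) {a : H₂ × H₂} (ha : a ∈ Submodule.span ℂ G₂) :
    ∃ x y : ℝ → H₁, Rel l s Wp x a.1 ∧ Rel l s Wp y a.2 ∧
      ∀ᶠ h in l, (x h, y h) ∈ Submodule.span ℂ (G₁ h) := by
  induction ha using Submodule.span_induction with
  | mem g hg =>
    obtain ⟨a, a', e1, e2, w, h1, h2⟩ := hA.int g hg
    have hw : Rel l s Wp w (s a') := Rel.of_approx hA.gram fun e he =>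
      ⟨Wp a', s a', Rel.label hA.gram a', by simpa using he.le,
        (h2.eventually_le_const he).mono fun h hh => by rwa [norm_sub_rev]⟩
    have r1 := Rel.smul hA.gram c⁻¹ (Rel.label hA.gram a)
    have r2 := Rel.smul hA.gram c⁻¹ hw
    rw [e1, inv_smul_smul₀ hA.ne] at r1
    rw [e2, inv_smul_smul₀ hA.ne] at r2
    exact ⟨_, _, r1, r2, h1.mono fun h hh =>
      Submodule.smul_mem _ c⁻¹ (Submodule.subset_span hh)⟩
  | zero =>
    exact ⟨_, _, Rel.zero hA.gram, Rel.zero hA.gram,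
      Eventually.of_forall fun h => Submodule.zero_mem _⟩
  | add a b _ _ iha ihb =>
    obtain ⟨x, y, h1, h2, h3⟩ := iha
    obtain ⟨x', y', h1', h2', h3'⟩ := ihb
    exact ⟨_, _, Rel.add hA.gram h1 h1', Rel.add hA.gram h2 h2',
      (h3.and h3').mono fun h hh => Submodule.add_mem _ hh.1 hh.2⟩
  | smul t a _ iha =>
    obtain ⟨x, y, h1, h2, h3⟩ := iha
    exact ⟨_, _, Rel.smul hA.gram t h1, Rel.smul hA.gram t h2,
      h3.mono fun h hh => Submodule.smul_mem _ t hh⟩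

theorem Apx.sym [l.NeBot] (hA : Apx l G₁ G₂ s Wp c) (h1 : ∀ h, Sym (G₁ h)) : Sym G₂ := by
  intro a ha b hb
  obtain ⟨x, y, r1, r2, r3⟩ := AB4b_lift hA (Submodule.subset_span ha)
  obtain ⟨x', y', r1', r2', r3'⟩ := AB4b_lift hA (Submodule.subset_span hb)
  refine tendsto_nhds_unique (Rel.inner hA.gram r2 r1') ((Rel.inner hA.gram r1 r2').congr' ?_)
  exact (r3.and r3').mono fun h hh => ((h1 h).span _ hh.1 _ hh.2).symm

theorem Apx.res_step (hA : Apx l G₁ G₂ s Wp c) {sg : ℂ} (hs : sg ∈ ({I, -I} : Set ℂ))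
    (hG : EssSA G₂) {R₁ : ℝ → H₁ →L[ℂ] H₁} {R₂ : H₂ →L[ℂ] H₂} (n1 : ∀ h, ‖R₁ h‖ ≤ 1)
    (n2 : ‖R₂‖ ≤ 1) (r1 : ∀ h, ∀ g ∈ G₁ h, R₁ h (g.2 + sg • g.1) = g.1)
    (r2 : ∀ g ∈ G₂, R₂ (g.2 + sg • g.1) = g.1) {x : ℝ → H₁} {v : H₂} (hx : Rel l s Wp x v) :
    Rel l s Wp (fun h => R₁ h (x h)) (R₂ v) := by
  have hv : InK G₂ v := inK_of_mem_closure (by rintro _ ⟨a, rfl⟩; exact hA.sub a) hx.1
  refine Rel.of_approx hA.gram fun e he => ?_
  obtain ⟨a, ha, hd⟩ := hG.approx hs hv he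
  obtain ⟨y, y', h1, h2, h3⟩ := AB4b_lift hA ha
  have h4 := Rel.dist hA.gram (Rel.add hA.gram h2 (Rel.smul hA.gram sg h1)) hx
  refine ⟨y, a.1, h1, ?_, (h3.and (h4.eventually_le_const hd)).mono fun h hh => ?_⟩
  · rw [← IsRes.span r2 ha, ← map_sub]
    exact (R₂.le_of_opNorm_le n2 _).trans (by rw [one_mul]; exact hd.le)
  · have h5 : R₁ h (y' h + sg • y h) = y h := IsRes.span (r1 h) hh.1
    rw [← h5, ← map_sub]
    exact ((R₁ h).le_of_opNorm_le (n1 h) _).trans (by rw [one_mul]; exact hh.2)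

end Pool.Agent.P.MP_e0a138_an.AD
end
end

-- part Pool.Agent.P.MP_e0a138_an.AB4c
section

set_option autoImplicit false
set_option linter.unusedSectionVars false
set_option linter.unusedVariables false

open MeasureTheory Filter Topology Metric Complex
open scoped ENNReal NNReal ContDiff InnerProductSpace ComplexConjugate

noncomputable section
namespace Pool.Agent.P.MP_e0a138_an.AD

variable {H₁ H₂ : Type} [NormedAddCommGroup H₁] [InnerProductSpace ℂ H₁] [CompleteSpace H₁]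
  [NormedAddCommGroup H₂] [InnerProductSpace ℂ H₂] [CompleteSpace H₂] {ι : Type}
  {l : Filter ℝ} {s : ι → H₂} {Wp : ι → ℝ → H₁}

variable {G₁ : ℝ → Set (H₁ × H₁)} {G₂ : Set (H₂ × H₂)} {c : ℂ}

theorem AB4c_near {H : Type} [NormedAddCommGroup H] [InnerProductSpace ℂ H] [CompleteSpace H]
    {R : H →L[ℂ] H} (hR : ‖R‖ ≤ 1) {F : ℝ → ℝ} (hF : Continuous F) {p : Polynomial ℝ} {e : ℝ}
    (he : 0 ≤ e) (hp : ∀ x ∈ Set.Icc (-1 : ℝ) 1, |p.eval x - F x| < e) (v : H) :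
    ‖Polynomial.aeval (star R * R) p v - cfc F (star R * R) v‖ ≤ e * ‖v‖ := by
  have hs : IsSelfAdjoint (star R * R) := IsSelfAdjoint.star_mul_self R
  have hn : ‖star R * R‖ ≤ 1 := by
    rw [CStarRing.norm_star_mul_self]
    exact mul_le_one₀ hR (norm_nonneg _) hR
  have h1 : ‖Polynomial.aeval (star R * R) p - cfc F (star R * R)‖ ≤ e := by
    rw [← cfc_polynomial p (star R * R) hs,
      ← cfc_sub _ _ _ p.continuous.continuousOn hF.continuousOn]
    refine norm_cfc_le he fun x hx => (hp x (abs_le.1 ?_)).le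
    exact (spectrum.norm_le_norm_mul_of_mem hx).trans
      (mul_le_one₀ hn (norm_nonneg _) ContinuousLinearMap.norm_id_le)
  exact ((Polynomial.aeval (star R * R) p - cfc F (star R * R)).le_opNorm v).trans
    (mul_le_mul_of_nonneg_right h1 (norm_nonneg _))

theorem AB4c_poly
    (hg : ∀ a b, Tendsto (fun h => ⟪Wp a h, Wp b h⟫_ℂ) l (𝓝 ⟪s a, s b⟫_ℂ))
    {Q₁ : ℝ → H₁ →L[ℂ] H₁} {Q₂ : H₂ →L[ℂ] H₂}
    (hQ : ∀ x v, Rel l s Wp x v → Rel l s Wp (fun h => Q₁ h (x h)) (Q₂ v)) (p : Polynomial ℝ)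
    {x : ℝ → H₁} {v : H₂} (hx : Rel l s Wp x v) :
    Rel l s Wp (fun h => Polynomial.aeval (Q₁ h) p (x h)) (Polynomial.aeval Q₂ p v) := by
  induction p using Polynomial.induction_on with
  | C r =>
    simp only [Polynomial.aeval_C, Algebra.algebraMap_eq_smul_one,
      smul_apply, one_apply_eq_self, ← Complex.coe_smul]
    exact Rel.smul hg r hx
  | add p q hp hq =>
    simp only [map_add, add_apply]
    exact Rel.add hg hp hq
  | monomial n r ih =>
    have e : Polynomial.C r * Polynomial.X ^ (n + 1) =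
        Polynomial.X * (Polynomial.C r * Polynomial.X ^ n) := by ring
    rw [e]
    simp only [map_mul (Polynomial.aeval _) Polynomial.X, Polynomial.aeval_X,
      mul_apply_eq_comp]
    exact hQ _ _ ih

theorem Apx.cfc_tendsto (hA : Apx l G₁ G₂ s Wp c) (h1 : ∀ h, EssSA (G₁ h)) (h2 : EssSA G₂)
    {R₁ : ℝ → H₁ →L[ℂ] H₁} {R₂ : H₂ →L[ℂ] H₂} (r1 : ∀ h, IsRes (G₁ h) (R₁ h)) (r2 : IsRes G₂ R₂)
    {F : ℝ → ℝ} (hF : Continuous F) (a b : ι) :
    Tendsto (fun h => ⟪Wp a h, cfc F (star (R₁ h) * R₁ h) (Wp b h)⟫_ℂ) l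
      (𝓝 ⟪s a, cfc F (star R₂ * R₂) (s b)⟫_ℂ) := by
  have hg := hA.gram
  have p1 := fun h => (r1 h).props (h1 h)
  have p2 := r2.props h2
  have hQ : ∀ x v, Rel l s Wp x v →
      Rel l s Wp (fun h => (star (R₁ h) * R₁ h) (x h)) ((star R₂ * R₂) v) := fun x v hx =>
    hA.res_step (sg := -I) (R₁ := fun h => star (R₁ h)) (R₂ := star R₂) (Or.inr rfl) h2
      (fun h => (norm_star _).trans_le (p1 h).1) ((norm_star _).trans_le p2.1)
      (fun h => (p1 h).2.1) p2.2.1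
      (hA.res_step (sg := I) (Or.inl rfl) h2 (fun h => (p1 h).1) p2.1 (fun h => (r1 h).1) r2.1 hx)
  refine Rel.inner hg (Rel.label hg a) (Rel.of_approx hg fun e he => ?_)
  have hb : 0 < ‖s b‖ + 1 := by positivity
  have he' := div_pos he hb
  obtain ⟨p, hp⟩ := exists_polynomial_near_of_continuousOn (-1) 1 F hF.continuousOn _ he'
  have hk : ∀ t : ℝ, t ≤ ‖s b‖ + 1 → e / (‖s b‖ + 1) * t ≤ e := fun t ht =>
    (mul_le_mul_of_nonneg_left ht he'.le).trans_eq (div_mul_cancel₀ e hb.ne')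
  refine ⟨_, _, AB4c_poly hg hQ p (Rel.label hg b),
    (AB4c_near p2.1 hF he'.le hp _).trans (hk _ (by linarith)), ?_⟩
  filter_upwards [(Rel.label hg b).2.1.eventually (ge_mem_nhds (lt_add_one ‖s b‖))] with h hh
  exact (AB4c_near (p1 h).1 hF he'.le hp _).trans (hk _ hh)

end Pool.Agent.P.MP_e0a138_an.AD
end
end

-- part Pool.Agent.P.MP_e0a138_an.GE21
section

set_option autoImplicit false
set_option linter.unusedSectionVars false
set_option linter.unusedVariables false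

open MeasureTheory Filter Topology Metric Complex
open scoped ENNReal NNReal ContDiff InnerProductSpace ComplexConjugate

noncomputable section
namespace Pool.Agent.P.MP_e0a138_an.AD

variable {N p q k : ℕ} {W : Type} [NormedAddCommGroup W] [InnerProductSpace ℂ W]
  [FiniteDimensional ℂ W] [CompleteSpace W]
variable {A : Atl N p q k} {ε : Eu N →L[ℝ] W →L[ℂ] W}

theorem GE21_inner {H : Type} [NormedAddCommGroup H] [InnerProductSpace ℂ H] (c : ℝ≥0)
    (x y : H) : ⟪(((√(c : ℝ))⁻¹ : ℝ) : ℂ) • x, (((√(c : ℝ))⁻¹ : ℝ) : ℂ) • y⟫_ℂ =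
      (((c : ℝ)⁻¹ : ℝ) : ℂ) * ⟪x, y⟫_ℂ := by
  rw [inner_smul_left, inner_smul_right, conj_ofReal, ← mul_assoc, ← ofReal_mul, ← mul_inv,
    Real.mul_self_sqrt c.coe_nonneg]

theorem GE21_inK {H : Type} [NormedAddCommGroup H] [InnerProductSpace ℂ H] {G : Set (H × H)}
    {v : H} (hv : InK G v) (c : ℂ) : InK G (c • v) := fun w hw => by
  rw [inner_smul_right, hv w hw, mul_zero]

namespace Atl
variable {DF DH : (Eu N → W) → Eu N → W} {μ : Measure (Eu N)} {l : Measure (Eu N × Eu N)}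
  {t₀ : Tr q k} {B : Tr q k → Eu q ≃L[ℝ] Eu q}

theorem Dir.apx (hD : A.Dir ε μ DF DH) (hε : IsCAR ε) (hμ : A.IsVol μ) (hB : A.Hd t₀ B)
    (hl : A.IsLeaf t₀ l) {c : ℝ≥0} (hc0 : c ≠ 0)
    (hc : ∀ t, A.Reach t₀ t → l.restrict (A.plq t) = (c * jac (B t)) • A.pm t)
    {β : Eu q → ℝ} (hβ : ContDiff ℝ ∞ β) (hβc : HasCompactSupport β) (hn : ∫ y, β y ^ 2 = 1) :
    Apx (𝓝[>] 0) (fun h => A.grM ε μ (Dh DF DH h)) (A.grL ε DF t₀ l)
      (fun a : A.Lab ε t₀ => (((√(c : ℝ))⁻¹ : ℝ) : ℂ) • A.sec l a.1.1 a.1.2)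
      (fun a h => toL μ (A.pk β h a.1.1 ((B a.1.1).symm : Eu q →L[ℝ] Eu q) a.1.2))
      (((√(c : ℝ))⁻¹ : ℝ) : ℂ) := by
  refine ⟨?_, fun a b => ?_, fun g hg => ?_, fun a => ?_⟩
  · have h1 : (0 : ℝ) < c := NNReal.coe_pos.2 (pos_iff_ne_zero.2 hc0)
    exact ofReal_ne_zero.2 (inv_ne_zero (Real.sqrt_pos.2 h1).ne')
  · rw [GE21_inner]
    exact gram_tendsto hμ hB hl hc0 hc hβ.continuous hβc hn a.2.1 b.2.1 a.2.2.1.1.continuousOn
      b.2.2.1.1.continuousOn a.2.2.2 b.2.2.2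
  · obtain ⟨t, u, ht, hu, hloc, e1, e2⟩ := hD.of_mem_grL hε hB.mem hl hg
    obtain ⟨hu', hloc'⟩ := hD.lft hε t hu hloc
    refine ⟨⟨(t, u), ht, hu, hloc⟩, ⟨(t, A.lft ε DF t u), ht, hu', hloc'⟩, by rw [e1], by rw [e2],
      fun h => toL μ (Dh DF DH h (A.pk β h t ((B t).symm : Eu q →L[ℝ] Eu q) u)),
      Eventually.of_forall fun h => hD.mem_grM hμ h (pk_form hβ h t _ hu), ?_⟩
    exact hD.intertwine hε hμ hβ hβc t (B t) hu hloc
  · exact GE21_inK (inK_fst (hD.mem_grL hε hB.mem hl a.2.1 a.2.2.1 a.2.2.2)) _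

theorem Dir.essSA_leaf (hD : A.Dir ε μ DF DH) (hε : IsCAR ε) (hμ : A.IsVol μ) (hB : A.Hd t₀ B)
    (hl : A.IsLeaf t₀ l) : EssSA (A.grL ε DF t₀ l) := by
  obtain ⟨c, hc0, hc⟩ := hB.scale hl
  obtain ⟨β, hβ, hβc, hn⟩ := exists_window (q := q)
  exact hD.essSA_L hε hB.mem hl ((hD.apx hε hμ hB hl hc0 hc hβ hβc hn).sym (hD.sym hμ))

theorem Dir.fc_tendsto (hD : A.Dir ε μ DF DH) (hε : IsCAR ε) (hμ : A.IsVol μ) (hB : A.Hd t₀ B)
    (hl : A.IsLeaf t₀ l) {β : Eu q → ℝ} (hβ : ContDiff ℝ ∞ β) (hβc : HasCompactSupport β)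
    (hn : ∫ y, β y ^ 2 = 1) {R : ℝ → Lp W 2 μ →L[ℂ] Lp W 2 μ}
    (hR : ∀ h, IsRes (A.grM ε μ (Dh DF DH h)) (R h)) {S : Lp W 2 l →L[ℂ] Lp W 2 l}
    (hS : IsRes (A.grL ε DF t₀ l) S) {f : ℝ → ℝ} (hf : Continuous (Ff f)) :
    ∃ c : ℝ≥0, c ≠ 0 ∧ l.restrict (A.plq t₀) = c • A.pm t₀ ∧ ∀ u, A.Form ε u → A.Loc t₀.1 u →
      Tendsto (fun h => ENNReal.ofReal (⟪toL μ (A.pk β h t₀ (ContinuousLinearMap.id ℝ _) u),
        fc f (R h) (toL μ (A.pk β h t₀ (ContinuousLinearMap.id ℝ _) u))⟫_ℂ).re) (𝓝[>] 0)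
        (𝓝 ((c : ℝ≥0∞)⁻¹ * ENNReal.ofReal (⟪A.sec l t₀ u, fc f S (A.sec l t₀ u)⟫_ℂ).re)) := by
  obtain ⟨c, hc0, hc⟩ := hB.scale hl
  have h0 : A.Reach t₀ t₀ := Relation.ReflTransGen.refl
  refine ⟨c, hc0, by rw [hc t₀ h0, hB.base, jac_refl, mul_one], fun u hu hloc => ?_⟩
  have h1 := (hD.apx hε hμ hB hl hc0 hc hβ hβc hn).cfc_tendsto (hD.essSA_M hε hμ)
    (hD.essSA_leaf hε hμ hB hl) hR hS hf ⟨(t₀, u), h0, hu, hloc⟩ ⟨(t₀, u), h0, hu, hloc⟩
  have e : ((B t₀).symm : Eu q →L[ℝ] Eu q) = ContinuousLinearMap.id ℝ _ := by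
    rw [hB.base]
    rfl
  have h2 : (0 : ℝ) < c := NNReal.coe_pos.2 (pos_iff_ne_zero.2 hc0)
  simp only [e, map_smul, GE21_inner] at h1
  have h3 := (ENNReal.continuous_ofReal.tendsto _).comp ((continuous_re.tendsto _).comp h1)
  rw [re_ofReal_mul, ENNReal.ofReal_mul (inv_nonneg.2 h2.le), ENNReal.ofReal_inv_of_pos h2,
    ENNReal.ofReal_coe_nnreal] at h3
  exact h3

end Atl

end Pool.Agent.P.MP_e0a138_an.AD
end
end

-- part Pool.Agent.P.MP_e0a138_an.GE12
section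

set_option autoImplicit false
set_option linter.unusedSectionVars false
set_option linter.unusedVariables false

open MeasureTheory Filter Topology Metric Complex
open scoped ENNReal NNReal ContDiff InnerProductSpace ComplexConjugate

noncomputable section
namespace Pool.Agent.P.MP_e0a138_an.AD

variable {N p q k : ℕ} {W : Type} [NormedAddCommGroup W] [InnerProductSpace ℂ W]
  [FiniteDimensional ℂ W] [CompleteSpace W]
variable {A : Atl N p q k}

namespace Atl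

/-- words in the transverse transition maps -/
def GE12word (A : Atl N p q k) (d : ℕ → Eu p) : List (Fin k × Fin k × ℕ) → Eu q → Eu q
  | [] => id
  | a :: l => fun Y => A.tau a.1 a.2.1 (d a.2.2, GE12word A d l Y)

theorem GE12slice (A : Atl N p q k) (i j : Fin k) (x : Eu p) :
    Differentiable ℝ fun Y : Eu q => A.tau i j (x, Y) :=
  ((tau_smooth (A := A) i j).differentiable (by simp)).comp
    ((differentiable_const x).prodMk differentiable_id)

theorem GE12diff (A : Atl N p q k) (d : ℕ → Eu p) (l : List (Fin k × Fin k × ℕ)) :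
    Differentiable ℝ (GE12word A d l) := by
  induction l with
  | nil => exact differentiable_id
  | cons a l ih => exact (GE12slice A a.1 a.2.1 (d a.2.2)).comp ih

theorem GE12adj_inj (e : Eu q ≃L[ℝ] Eu q) {v w : Eu q}
    (h : ContinuousLinearMap.adjoint (e : Eu q →L[ℝ] Eu q) v =
      ContinuousLinearMap.adjoint (e : Eu q →L[ℝ] Eu q) w) : v = w := by
  refine ext_inner_right ℝ fun u => ?_
  have h1 := ContinuousLinearMap.adjoint_inner_left (e : Eu q →L[ℝ] Eu q) (e.symm u) v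
  have h2 := ContinuousLinearMap.adjoint_inner_left (e : Eu q →L[ℝ] Eu q) (e.symm u) w
  simp only [ContinuousLinearEquiv.coe_coe, ContinuousLinearEquiv.apply_symm_apply] at h1 h2
  rw [← h1, ← h2]
  exact congrArg (fun t => ⟪t, e.symm u⟫_ℝ) h

theorem exists_words (A : Atl N p q k) : ∃ Fm : Set (Eu q → Eu q), Fm.Countable ∧ id ∈ Fm ∧
    (∀ σ ∈ Fm, Differentiable ℝ σ) ∧ ∀ σ ∈ Fm, ∀ (i j : Fin k) (x : Eu p) (y₀ : Eu q),
      (x, σ y₀) ∈ ball (0 : Eu p × Eu q) 1 → A.ψ i (x, σ y₀) ∈ A.U j → ∃ σ' ∈ Fm,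
        σ' y₀ = A.tau i j (x, σ y₀) ∧
        fderiv ℝ σ' y₀ = A.dta i j (x, σ y₀) ∘L fderiv ℝ σ y₀ := by
  have : ProperSpace (Eu p) := FiniteDimensional.proper ℝ (Eu p)
  refine ⟨Set.range (GE12word A (TopologicalSpace.denseSeq (Eu p))), Set.countable_range _,
    ⟨[], rfl⟩, ?_, ?_⟩
  · rintro σ ⟨l, rfl⟩
    exact GE12diff A _ l
  · rintro σ ⟨l, rfl⟩ i j x y₀ hz hj
    obtain ⟨n, hn⟩ := (TopologicalSpace.denseRange_denseSeq (Eu p)).mem_nhds
      (tau_loc (A := A) hz hj)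
    obtain ⟨-, -, -, h1, h2⟩ := hn
    refine ⟨_, ⟨(i, j, n) :: l, rfl⟩, h1, ?_⟩
    rw [← h2]
    exact fderiv_comp y₀ (GE12slice A i j _ _) (GE12diff A _ l y₀)

theorem ae_hd (A : Atl N p q k) (i : Fin k) :
    ∀ᵐ a : Eu q × Eu q, a.1 ∈ ball (0 : Eu q) 1 → ∃ B, A.Hd (i, a) B := by
  obtain ⟨Fm, hc, hid, hd, hw⟩ := A.exists_words
  have h0 : ∀ᵐ y : Eu q, ∀ σ ∈ Fm, ∀ σ' ∈ Fm, σ y = σ' y → fderiv ℝ σ y = fderiv ℝ σ' y :=
    (ae_ball_iff hc).2 fun σ hσ => (ae_ball_iff hc).2 fun σ' hσ' =>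
      ae_fderiv_eq (hd σ hσ) (hd σ' hσ')
  have h1 : ∀ᵐ a : Eu q × Eu q, ∀ σ ∈ Fm, ∀ σ' ∈ Fm, σ a.1 = σ' a.1 →
      fderiv ℝ σ a.1 = fderiv ℝ σ' a.1 :=
    (Measure.quasiMeasurePreserving_fst (μ := (volume : Measure (Eu q)))
      (ν := (volume : Measure (Eu q)))).ae h0
  filter_upwards [h1] with a ha hy
  have key : ∀ t, A.Reach (i, a) t → ∃ e : Eu q ≃L[ℝ] Eu q, ∃ σ ∈ Fm, σ a.1 = t.2.1 ∧
      (e : Eu q →L[ℝ] Eu q) = fderiv ℝ σ a.1 ∧
      ContinuousLinearMap.adjoint (e : Eu q →L[ℝ] Eu q) t.2.2 = a.2 := by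
    intro t ht
    induction ht with
    | refl =>
      refine ⟨ContinuousLinearEquiv.refl ℝ _, id, hid, rfl, ?_, ?_⟩
      · rw [fderiv_id]; rfl
      · rw [ContinuousLinearEquiv.coe_refl, ContinuousLinearMap.adjoint_id]; rfl
    | @tail t t' _ hst ih =>
      obtain ⟨e, σ, hσ, e1, e2, e3⟩ := ih
      obtain ⟨z, ⟨x, hx, rfl⟩, hz'⟩ := hst
      have hx' : (x, t.2.1) ∈ ball (0 : Eu p × Eu q) 1 := hx
      obtain ⟨g1, g2, g3⟩ := (gam_mem_iff (mem_ball_prod.1 hx').2 (mem_ball_prod.1 hx').1).1 hz'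
      obtain ⟨σ', hσ', s1, s2⟩ := hw σ hσ t.1 t'.1 x a.1 (e1 ▸ hx') (e1 ▸ g1)
      obtain ⟨f, hf⟩ := dta_equiv (A := A) hx' g1
      rw [e1] at s1 s2
      have hcomp : ((e.trans f : Eu q ≃L[ℝ] Eu q) : Eu q →L[ℝ] Eu q) =
          A.dta t.1 t'.1 (x, t.2.1) ∘L (e : Eu q →L[ℝ] Eu q) := by
        rw [← hf]; rfl
      refine ⟨e.trans f, σ', hσ', s1.trans g2, ?_, ?_⟩
      · rw [hcomp, s2, e2]
      · rw [hcomp, ContinuousLinearMap.adjoint_comp, ContinuousLinearMap.comp_apply, ← g3, e3]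
  choose! B hB using key
  refine ⟨B, hy, ?_, ?_⟩
  · obtain ⟨σ, hσ, e1, e2, -⟩ := hB (i, a) Relation.ReflTransGen.refl
    apply ContinuousLinearEquiv.coe_injective
    show (B (i, a) : Eu q →L[ℝ] Eu q) = _
    rw [e2, ha σ hσ id hid e1, fderiv_id]; rfl
  · intro t t' ht ht' x hx g1 g2
    obtain ⟨σ, hσ, e1, e2, e3⟩ := hB t ht
    obtain ⟨σ', hσ', f1, f2, f3⟩ := hB t' ht'
    have hx' : (x, t.2.1) ∈ ball (0 : Eu p × Eu q) 1 := mem_ball_prod.2 ⟨hx, ht.mem hy⟩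
    obtain ⟨σ'', hσ'', s1, s2⟩ := hw σ hσ t.1 t'.1 x a.1 (e1 ▸ hx') (e1 ▸ g1)
    rw [e1] at s1 s2
    have hB' : (B t' : Eu q →L[ℝ] Eu q) =
        A.dta t.1 t'.1 (x, t.2.1) ∘L (B t : Eu q →L[ℝ] Eu q) := by
      rw [f2, ← ha σ'' hσ'' σ' hσ' (by rw [s1, g2, f1]), s2, e2]
    refine ⟨GE12adj_inj (B t) ?_, hB'⟩
    rw [e3, ← f3, hB', ContinuousLinearMap.adjoint_comp, ContinuousLinearMap.comp_apply]

end Atl

end Pool.Agent.P.MP_e0a138_an.AD
end
end

-- part Pool.Agent.P.MP_e0a138_an.GD1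
section

set_option autoImplicit false
set_option linter.unusedSectionVars false
set_option linter.unusedVariables false

open MeasureTheory Filter Topology Metric Complex
open scoped ENNReal NNReal ContDiff InnerProductSpace ComplexConjugate

noncomputable section
namespace Pool.Agent.P.MP_e0a138_an.AD

variable {N p q k : ℕ} {W : Type} [NormedAddCommGroup W] [InnerProductSpace ℂ W]
  [FiniteDimensional ℂ W] [CompleteSpace W]

variable {A : Atl N p q k} {ε : Eu N →L[ℝ] W →L[ℂ] W}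

/-- degree zero -/
def Vac (ε : Eu N →L[ℝ] W →L[ℂ] W) (w : W) : Prop := ∀ v, star (ε v) w = 0

theorem Vac.num {w : W} (h : Vac ε w) (S : Submodule ℝ (Eu N)) : num ε S w = 0 := by
  simp only [AD.num, ContinuousLinearMap.sum_apply, ContinuousLinearMap.mul_apply, h _, map_zero,
    Finset.sum_const_zero]

theorem Vac.deg {w : W} (h : Vac ε w) (S : Submodule ℝ (Eu N)) : deg ε S 0 w = w := by
  have := deg_eigen (ε := ε) S (i := 0) 0 (x := w) (by rw [h.num]; simp)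
  simpa using this

theorem Vac.fderiv {f : Eu N → W} (hf : ContDiff ℝ ∞ f) (h : ∀ n, Vac ε (f n)) (m b : Eu N) :
    Vac ε (fderiv ℝ f m b) := fun v => by
  have h1 := fderiv_capp (M := fun _ : Eu N => star (ε v)) (x := m) (differentiableAt_const _)
    (hf.differentiable (by simp) m) b
  simp only [h _ v] at h1
  simpa using h1.symm

theorem star_proj_zero {S : Submodule ℝ (Eu N)} {w : W} (h : num ε S w = 0) (v : Eu N) :
    star (ε (S.starProjection v)) w = 0 := by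
  have h1 := AL1_inner_num (ε := ε) S w
  rw [h, inner_zero_right, zero_re] at h1
  have h2 : ∀ a, star (ε (S.starProjection (bs a))) w = 0 := fun a => by
    have := (Finset.sum_eq_zero_iff_of_nonneg fun a _ => sq_nonneg _).1 h1.symm a
      (Finset.mem_univ a)
    exact norm_eq_zero.1 (pow_eq_zero_iff two_ne_zero |>.1 this)
  rw [← sum_bs v]
  simp only [map_sum, map_smul, star_sum, ContinuousLinearMap.sum_apply]
  refine Finset.sum_eq_zero fun a _ => ?_
  rw [star_smul, ContinuousLinearMap.smul_apply, h2, smul_zero]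

namespace Atl

theorem dx_nil (m : Eu N) : A.dx ε [] m = 1 := rfl

theorem dx_cons (a : Fin N) (l : List (Fin N)) (m : Eu N) :
    A.dx ε (a :: l) m = ε (A.shp m (bs a)) * A.dx ε l m := by
  simp [dx]

theorem dx_concat (a : Fin N) (l : List (Fin N)) (m : Eu N) :
    A.dx ε (l ++ [a]) m = A.dx ε l m * ε (A.shp m (bs a)) := by
  simp [dx]

theorem dx_smooth (l : List (Fin N)) : ContDiffOn ℝ ∞ (A.dx ε l) A.M := by
  induction l with
  | nil => exact contDiffOn_const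
  | cons a l ih =>
    exact ((ε.contDiff.comp_contDiffOn (smooth_shp (contDiffOn_const (c := bs a)))).mul ih).congr
      fun m _ => dx_cons a l m

theorem dx_comm (hε : IsCAR ε) (l : List (Fin N)) (m : Eu N) :
    A.Pi ε m * A.dx ε l m = A.dx ε l m * A.Pi ε m := by
  induction l with
  | nil => simp [dx_nil]
  | cons a l ih =>
    rw [dx_cons, ← mul_assoc, (Pi_comm hε (shp_mem m _)).1, mul_assoc, ih, mul_assoc]

theorem Form.dx (hε : IsCAR ε) (l : List (Fin N)) {v : Eu N → W} (hv : A.Form ε v) :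
    A.Form ε fun m => A.dx ε l m (v m) :=
  hv.clm (dx_smooth l) fun m _ => dx_comm hε l m

theorem Form.congr {u u' : Eu N → W} (hu : A.Form ε u) (h : ∀ m ∈ A.M, u' m = u m) :
    A.Form ε u' :=
  ⟨hu.1.congr h, fun m hm => by rw [h m hm]; exact hu.2 m hm⟩

theorem vac_of {m : Eu N} {w : W} (h1 : A.Pi ε m w = w) (h2 : num ε (A.T m) w = 0) : Vac ε w := by
  intro v
  have h3 : num ε (A.T m)ᗮ w = 0 := by
    have := num_deg (ε := ε) (A.T m)ᗮ 0 w
    rw [show deg ε (A.T m)ᗮ 0 w = w from h1] at this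
    simpa using this
  rw [← (A.T m).starProjection_add_starProjection_orthogonal v, map_add, star_add,
    ContinuousLinearMap.add_apply, star_proj_zero h2, star_proj_zero h3, add_zero]

theorem exists_ext {v : Eu N → W} (hv : ContDiffOn ℝ ∞ v A.M) (h : ∀ m ∈ A.M, Vac ε (v m)) :
    ∃ f : Eu N → W, ContDiff ℝ ∞ f ∧ (∀ n, Vac ε (f n)) ∧ ∀ m ∈ A.M, v m = f m := by
  obtain ⟨r, -, hr, hχ⟩ := A.exists_r
  let a : Fin k → Eu p × Eu q → W := fun i =>
    (ball 0 1).indicator fun z => A.χ i (A.ψ i z) • v (A.ψ i z)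
  have ha : ∀ i, ContDiff ℝ ∞ (a i) := fun i => by
    refine contDiff_of_cpt isOpen_ball isClosed_closedBall (closedBall_subset_ball hr)
      ((((A.χ_smooth i).comp (A.ψ_smooth i)).contDiffOn.smul (contDiffOn_iff.1 hv i)).congr
        fun z hz => Set.indicator_of_mem hz _) fun z hz => ?_
    by_cases h1 : z ∈ ball (0 : Eu p × Eu q) 1
    · simp only [a, Set.indicator_of_mem h1, (chart_zero hr (hχ i)).1 z h1 hz, zero_smul]
    · exact Set.indicator_of_notMem h1 _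
  refine ⟨fun n => ∑ i, A.χ i n • a i (A.φ i n),
    ContDiff.sum fun i _ => (A.χ_smooth i).smul ((ha i).comp (A.φ_smooth i)),
    fun n x => ?_, fun m hm => ?_⟩
  · rw [map_sum]
    refine Finset.sum_eq_zero fun i _ => ?_
    by_cases h1 : A.φ i n ∈ ball (0 : Eu p × Eu q) 1
    · simp only [a, Set.indicator_of_mem h1, ← Complex.coe_smul, map_smul,
        h _ (ψ_mem i h1).1 x, smul_zero]
    · simp only [a, Set.indicator_of_notMem h1, smul_zero, map_zero]
  · have e : ∀ i, A.χ i m • a i (A.φ i m) = A.χ i m ^ 2 • v m := fun i => by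
      by_cases h1 : A.χ i m = 0
      · simp [h1]
      · obtain ⟨h2, h3⟩ := φ_mem hm (mem_U_of_χ hm h1)
        simp only [a, Set.indicator_of_mem h2, h3, smul_smul, sq]
    simp only [e, ← Finset.sum_smul, A.χ_sum m hm, one_smul]

theorem num_eq (m : Eu N) : num ε (A.T m) = ∑ a, ε (A.shp m (bs a)) *
    star (ε ((A.T m).starProjection (A.JL m (bs a)))) := by
  choose t ht using fun c => J_surj (A := A) m ((A.T m).starProjection (bs c))
  have hm : ∀ c, A.JL m (t c) ∈ A.T m := fun c => ht c ▸ Submodule.starProjection_apply_mem _ _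
  have h1 : ∀ a, A.shp m (bs a) = ∑ c, ⟪bs a, t c⟫_ℝ • (A.T m).starProjection (bs c) := fun a => by
    have e : ∀ c, ⟪bs a, t c⟫_ℝ = ⟪bs c, A.shp m (bs a)⟫_ℝ := fun c => by
      rw [← inner_shp _ (hm c), ht, ← Submodule.inner_starProjection_left_eq_right,
        Submodule.starProjection_eq_self_iff.2 (shp_mem _ _), real_inner_comm]
    simp only [e, ← map_smul, ← map_sum, sum_bs]
    exact (Submodule.starProjection_eq_self_iff.2 (shp_mem _ _)).symm
  have h2 : ∀ c, (A.T m).starProjection (bs c) =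
      ∑ a, ⟪bs a, t c⟫_ℝ • (A.T m).starProjection (A.JL m (bs a)) := fun c => by
    simp only [← map_smul, ← map_sum, sum_bs]
    rw [Submodule.starProjection_eq_self_iff.2 (hm c), ht]
  simp only [h1, map_sum, map_smul, Finset.sum_mul]
  rw [Finset.sum_comm, num]
  refine Finset.sum_congr rfl fun c _ => ?_
  rw [congrArg (fun x => star (ε x)) (h2 c), map_sum, star_sum, Finset.mul_sum]
  refine Finset.sum_congr rfl fun a _ => ?_
  rw [map_smul, star_smul, star_trivial, mul_smul_comm, smul_mul_assoc]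

/-- every form is a finite sum of terms `f dx_I` -/
theorem form_ind (hε : IsCAR ε) {P : (Eu N → W) → Prop}
    (h0 : ∀ (l : List (Fin N)) (f u : Eu N → W), ContDiff ℝ ∞ f → (∀ n, Vac ε (f n)) →
      (∀ n ∈ A.M, u n = A.dx ε l n (f n)) → P u)
    (ha : ∀ u v, A.Form ε u → A.Form ε v → P u → P v → P (u + v)) {u : Eu N → W}
    (hu : A.Form ε u) : P u := by
  have z : ∀ u : Eu N → W, (∀ n ∈ A.M, u n = 0) → P u := fun u h =>
    h0 [] 0 u contDiff_const (fun n v => map_zero _) fun n hn => by simp [h n hn]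
  have cg : ∀ u u' : Eu N → W, A.Form ε u → (∀ n ∈ A.M, u' n = u n) → P u → P u' :=
    fun u u' hu h hP => by
    have h1 : ∀ n ∈ A.M, (u' - u) n = 0 := fun n hn => by simp [h n hn]
    have := ha u (u' - u) hu (Form.zero.congr h1) hP (z _ h1)
    rwa [add_sub_cancel] at this
  have sm : ∀ {J : Type} (s : Finset J) (t : J → Eu N → W), (∀ j, A.Form ε (t j)) →
      (∀ j, P (t j)) → P fun m => ∑ j ∈ s, t j m := fun {J} s t h1 h2 => by
    classical
    induction s using Finset.induction_on with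
    | empty => exact z _ fun n _ => by simp
    | insert j s hj ih =>
      have := ha _ _ (h1 j) (Form.sum s fun j _ => h1 j) (h2 j) ih
      refine cg _ _ ((h1 j).add (Form.sum s fun j _ => h1 j)) (fun n _ => ?_) this
      simp [Finset.sum_insert hj]
  have key : ∀ (r : ℕ) (l : List (Fin N)) (v : Eu N → W), A.Form ε v →
      (∀ m ∈ A.M, num ε (A.T m) (v m) = (r : ℂ) • v m) → P fun m => A.dx ε l m (v m) := by
    intro r
    induction r with
    | zero =>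
      intro l v hv h
      obtain ⟨f, h1, h2, h3⟩ := exists_ext (ε := ε) hv.1 fun m hm =>
        vac_of (hv.2 m hm) (by simpa using h m hm)
      exact h0 l f _ h1 h2 fun n hn => by rw [h3 n hn]
    | succ r ih =>
      intro l v hv h
      have hr : ((r + 1 : ℕ) : ℂ) ≠ 0 := Nat.cast_ne_zero.2 r.succ_ne_zero
      let w : Fin N → Eu N → W := fun a => ((r + 1 : ℕ) : ℂ)⁻¹ •
        fun m => star (ε ((A.T m).starProjection (A.JL m (bs a)))) (v m)
      have hw : ∀ a, A.Form ε (w a) := fun a => by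
        refine Form.const_smul _ (hv.clm (contDiffOn_star (ε.contDiff.comp_contDiffOn
          (A.subB_T.1.clm_apply (A.JL_smooth.contDiffOn.clm_apply contDiffOn_const))))
          fun m _ => ?_)
        exact (deg_comm_eps hε 0 ((A.T m).le_orthogonal_orthogonal
          (Submodule.starProjection_apply_mem _ _))).2.1
      have hd : ∀ a, ∀ m ∈ A.M, num ε (A.T m) (w a m) = (r : ℂ) • w a m := fun a m hm => by
        have h1 := DFunLike.congr_fun
          (num_comm_star hε (A.T m) ((A.T m).starProjection (A.JL m (bs a)))) (v m)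
        rw [Submodule.starProjection_eq_self_iff.2 (Submodule.starProjection_apply_mem _ _),
          ContinuousLinearMap.sub_apply, ContinuousLinearMap.mul_apply,
          ContinuousLinearMap.mul_apply, h m hm, map_smul, sub_eq_iff_eq_add'] at h1
        have h2 : num ε (A.T m) (star (ε ((A.T m).starProjection (A.JL m (bs a)))) (v m)) =
            (r : ℂ) • star (ε ((A.T m).starProjection (A.JL m (bs a)))) (v m) := by
          rw [← sub_eq_iff_eq_add] at h1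
          rw [← h1, Nat.cast_succ, add_smul, one_smul, add_sub_cancel_right]
        simp only [w, Pi.smul_apply, map_smul, h2]
        exact smul_comm _ _ _
      refine cg _ _ (Form.sum Finset.univ fun a _ => (hw a).dx hε (l ++ [a])) (fun m hm => ?_)
        (sm Finset.univ _ (fun a => (hw a).dx hε (l ++ [a])) fun a => ih _ _ (hw a) (hd a))
      have h1 := h m hm
      rw [num_eq, ContinuousLinearMap.sum_apply] at h1
      simp only [dx_concat, ContinuousLinearMap.mul_apply, w, Pi.smul_apply, map_smul,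
        ← Finset.smul_sum, ← map_sum] at h1 ⊢
      rw [h1, map_smul, smul_smul, inv_mul_cancel₀ hr, one_smul]
  have hj : ∀ j, A.Form ε fun m => deg ε (A.T m) j (u m) := fun j =>
    hu.clm (contDiffOn_deg hε A.subB_T.1 j) fun m _ =>
      deg_comm_deg hε (A.T m).le_orthogonal_orthogonal 0 j
  refine cg _ _ (Form.sum (Finset.range (N + 1)) fun j _ => hj j) (fun m _ => ?_)
    (sm _ _ hj fun j => key j [] _ (hj j) fun m _ => num_deg _ _ _)
  rw [← ContinuousLinearMap.sum_apply, sum_deg hε]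
  rfl

end Atl

end Pool.Agent.P.MP_e0a138_an.AD
end
end

-- part Pool.Agent.P.MP_e0a138_an.GD2
section

set_option autoImplicit false
set_option linter.unusedSectionVars false
set_option linter.unusedVariables false

open MeasureTheory Filter Topology Metric Complex
open scoped ENNReal NNReal ContDiff InnerProductSpace ComplexConjugate

noncomputable section
namespace Pool.Agent.P.MP_e0a138_an.AD

variable {N p q k : ℕ} {W : Type} [NormedAddCommGroup W] [InnerProductSpace ℂ W]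
  [FiniteDimensional ℂ W] [CompleteSpace W]

variable {A : Atl N p q k} {ε : Eu N →L[ℝ] W →L[ℂ] W}

theorem eps_anti (hε : IsCAR ε) (v w : Eu N) : ε v * ε w = -(ε w * ε v) :=
  eq_neg_of_add_eq_zero_left (hε.2 v w).1

theorem sum_symm_zero (hε : IsCAR ε) {κ : Type} [Fintype κ] (g : κ → Eu N) {s : κ → κ → ℝ}
    (hs : ∀ a b, s a b = s b a) : ∑ a, ε (g a) * ε (∑ b, s a b • g b) = 0 := by
  have h1 : ∑ a, ε (g a) * ε (∑ b, s a b • g b) = ∑ a, ∑ b, s a b • (ε (g a) * ε (g b)) := by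
    simp only [map_sum, map_smul, Finset.mul_sum, mul_smul_comm]
  have h2 : ∑ a, ∑ b, s a b • (ε (g a) * ε (g b)) = -∑ a, ∑ b, s a b • (ε (g a) * ε (g b)) := by
    conv_lhs => rw [Finset.sum_comm]
    simp only [← Finset.sum_neg_distrib]
    refine Finset.sum_congr rfl fun a _ => Finset.sum_congr rfl fun b _ => ?_
    rw [hs b a, eps_anti hε (g b), smul_neg]
  rw [h1]
  have h3 : (2 : ℝ) • ∑ a, ∑ b, s a b • (ε (g a) * ε (g b)) = 0 := by
    rw [two_smul]
    exact add_eq_zero_iff_eq_neg.2 h2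
  exact (smul_eq_zero.1 h3).resolve_left two_ne_zero

namespace Atl

/-- the coordinate covectors in a chart -/
def gz (A : Atl N p q k) (i : Fin k) (a : Fin p ⊕ Fin q) (z : Eu p × Eu q) : Eu N :=
  A.gr i a (A.ψ i z)

/-- the flat connection of a chart -/
def Kz (A : Atl N p q k) (ε : Eu N →L[ℝ] W →L[ℂ] W) (i : Fin k) (a : Fin p ⊕ Fin q)
    (z : Eu p × Eu q) : W →L[ℂ] W :=
  ∑ b, ε (fderiv ℝ (A.gz i b) z (cb a)) * star (ε (A.jd i z (cb b)))

/-- the zero order part of `d` in a chart -/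
def Zd (A : Atl N p q k) (ε : Eu N →L[ℝ] W →L[ℂ] W) (i : Fin k) (z : Eu p × Eu q) : W →L[ℂ] W :=
  -∑ a, ε (A.gz i a z) * A.Kz ε i a z

/-- `d` in a chart -/
def dl (A : Atl N p q k) (ε : Eu N →L[ℝ] W →L[ℂ] W) (i : Fin k) (v : Eu p × Eu q → W) :
    Eu p × Eu q → W :=
  op cb (fun a z => ε (A.gz i a z)) (A.Zd ε i) v

theorem gz_smooth (i : Fin k) (a : Fin p ⊕ Fin q) : ContDiffOn ℝ ∞ (A.gz i a) (ball 0 1) :=
  contDiffOn_iff.1 (smooth_gr i a) i

theorem Zd_smooth (i : Fin k) : ContDiffOn ℝ ∞ (A.Zd ε i) (ball 0 1) := by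
  refine (ContDiffOn.sum fun a _ => (ε.contDiff.comp_contDiffOn (gz_smooth i a)).mul
    (ContDiffOn.sum fun b _ => (ε.contDiff.comp_contDiffOn
      (contDiffOn_fderiv_apply' isOpen_ball (gz_smooth i b) _)).mul
      (contDiffOn_star (ε.contDiff.comp_contDiffOn
        ((jd_smooth i).clm_apply contDiff_const).contDiffOn)))).neg

theorem dl_eq (i : Fin k) (v : Eu p × Eu q → W) (z : Eu p × Eu q) : A.dl ε i v z =
    ∑ a, ε (A.gz i a z) (fderiv ℝ v z (cb a) - A.Kz ε i a z (v z)) := by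
  simp only [dl, op, Zd, map_sub, Finset.sum_sub_distrib, ContinuousLinearMap.neg_apply,
    ContinuousLinearMap.sum_apply, ContinuousLinearMap.mul_apply]
  rw [sub_eq_add_neg]

theorem shp_chart (i : Fin k) {z : Eu p × Eu q} (hz : z ∈ ball (0 : Eu p × Eu q) 1) (ξ : Eu N) :
    A.shp (A.ψ i z) ξ = ∑ b, ⟪ξ, fderiv ℝ (A.ψ i) z (cb b)⟫_ℝ • A.gz i b z := by
  refine eq_of_inner_dψ i hz (shp_mem _ _)
    (Submodule.sum_mem _ fun b _ => Submodule.smul_mem _ _ (gr_mem i b _)) fun w => ?_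
  simp only [sum_inner, real_inner_smul_left, gz, inner_gr i _ hz]
  rw [jd_apply, inner_shp _ (dψ_mem' i hz w)]
  conv_lhs => rw [← sum_cb w]
  simp only [map_sum, map_smul, inner_sum, real_inner_smul_right, mul_comm]

theorem dl_eps (hε : IsCAR ε) (i : Fin k) {z : Eu p × Eu q} (hz : z ∈ ball (0 : Eu p × Eu q) 1)
    (ξ : Eu N) {v : Eu p × Eu q → W} (hv : DifferentiableAt ℝ v z) :
    A.dl ε i (fun y => ε (A.shp (A.ψ i y) ξ) (v y)) z = -ε (A.shp (A.ψ i z) ξ) (A.dl ε i v z) := by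
  have hψ : ContDiff ℝ ∞ (fderiv ℝ (A.ψ i)) := (A.ψ_smooth i).fderiv_right (m := ∞) (by simp)
  have hd : HasFDerivAt (fderiv ℝ (A.ψ i)) (fderiv ℝ (fderiv ℝ (A.ψ i)) z) z :=
    (hψ.differentiable (by simp) z).hasFDerivAt
  have hs : ∀ b, HasFDerivAt (fun y => ⟪ξ, fderiv ℝ (A.ψ i) y (cb b)⟫_ℝ)
      ((innerSL ℝ ξ ∘L ContinuousLinearMap.apply ℝ (Eu N) (cb b)) ∘L
        fderiv ℝ (fderiv ℝ (A.ψ i)) z) z := fun b =>
    (innerSL ℝ ξ ∘L ContinuousLinearMap.apply ℝ (Eu N) (cb b)).hasFDerivAt.comp z hd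
  have hg : ∀ b, DifferentiableAt ℝ (A.gz i b) z := fun b =>
    diffAt_of_contDiffOn isOpen_ball (gz_smooth i b) hz
  have he : (fun y => A.shp (A.ψ i y) ξ) =ᶠ[𝓝 z]
      fun y => ∑ b, ⟪ξ, fderiv ℝ (A.ψ i) y (cb b)⟫_ℝ • A.gz i b y := by
    filter_upwards [isOpen_ball.mem_nhds hz] with y hy using shp_chart i hy ξ
  have hσ := (HasFDerivAt.fun_sum (u := Finset.univ)
    fun b _ => (hs b).smul (hg b).hasFDerivAt).congr_of_eventuallyEq he
  have hM := ε.hasFDerivAt.comp z hσ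
  have h1 : ∀ a, fderiv ℝ (fun y => ε (A.shp (A.ψ i y) ξ)) z (cb a) =
      ε (∑ b, ⟪ξ, fderiv ℝ (A.ψ i) z (cb b)⟫_ℝ • fderiv ℝ (A.gz i b) z (cb a)) +
      ε (∑ b, ⟪ξ, fderiv ℝ (fderiv ℝ (A.ψ i)) z (cb a) (cb b)⟫_ℝ • A.gz i b z) := fun a => by
    have h2 : fderiv ℝ (fun y => ε (A.shp (A.ψ i y) ξ)) z = _ := hM.fderiv
    rw [h2, ← map_add, ← Finset.sum_add_distrib]
    simp
  have h2 : ∀ a, A.Kz ε i a z * ε (A.shp (A.ψ i z) ξ) =
      ε (∑ b, ⟪ξ, fderiv ℝ (A.ψ i) z (cb b)⟫_ℝ • fderiv ℝ (A.gz i b) z (cb a)) +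
      ε (A.shp (A.ψ i z) ξ) * A.Kz ε i a z := fun a => by
    simp only [Kz, Finset.sum_mul, Finset.mul_sum, map_sum, ← Finset.sum_add_distrib]
    refine Finset.sum_congr rfl fun b _ => ?_
    have h3 := eq_sub_of_add_eq (hε.2 (A.jd i z (cb b)) (A.shp (A.ψ i z) ξ)).2
    rw [real_inner_comm, jd_apply, inner_shp _ (dψ_mem' i hz _), ← jd_apply] at h3
    rw [mul_assoc, h3, mul_sub, ← mul_assoc, ← mul_assoc, eps_anti hε _ (A.shp (A.ψ i z) ξ),
      eps_smul, mul_smul_comm, mul_one, neg_mul, sub_neg_eq_add]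
  have h3 := DFunLike.congr_fun (sum_symm_zero hε (fun a => A.gz i a z)
    (s := fun a b => ⟪ξ, fderiv ℝ (fderiv ℝ (A.ψ i)) z (cb a) (cb b)⟫_ℝ) fun a b => by
      rw [((A.ψ_smooth i).contDiffAt.isSymmSndFDerivAt (by simp; decide)).eq]) (v z)
  rw [dl_eq, dl_eq, map_sum, ← Finset.sum_neg_distrib]
  rw [ContinuousLinearMap.sum_apply, ContinuousLinearMap.zero_apply] at h3
  rw [← zero_add (Finset.sum Finset.univ fun a => -_), ← h3, ← Finset.sum_add_distrib]
  refine Finset.sum_congr rfl fun a _ => ?_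
  have h4 := DFunLike.congr_fun (h2 a) (v z)
  have h5 := fun x => DFunLike.congr_fun (eps_anti hε (A.gz i a z) (A.shp (A.ψ i z) ξ)) x
  simp only [ContinuousLinearMap.mul_apply, ContinuousLinearMap.add_apply,
    ContinuousLinearMap.neg_apply] at h4 h5 ⊢
  rw [fderiv_capp (M := fun y => ε (A.shp (A.ψ i y) ξ)) hM.differentiableAt hv, h1, h4, ← h5, ContinuousLinearMap.add_apply]
  simp only [map_add (ε (A.gz i a z)), map_sub (ε (A.gz i a z)), map_sub (ε (A.shp (A.ψ i z) ξ))]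
  abel

theorem dl_vac (i : Fin k) {z : Eu p × Eu q} (hz : z ∈ ball (0 : Eu p × Eu q) 1) {f : Eu N → W}
    (hf : ContDiff ℝ ∞ f) (h : ∀ n, Vac ε (f n)) : A.dl ε i (fun y => f (A.ψ i y)) z =
      ∑ a, ε (A.shp (A.ψ i z) (bs a)) (fderiv ℝ f (A.ψ i z) (bs a)) := by
  have h1 : fderiv ℝ (fun y => f (A.ψ i y)) z = _ :=
    fderiv_comp z (hf.differentiable (by simp) _) (GE1_dψ i z)
  have h2 : ∀ a, A.Kz ε i a z (f (A.ψ i z)) = 0 := fun a => by
    simp only [Kz, ContinuousLinearMap.sum_apply, ContinuousLinearMap.mul_apply, h _ _, map_zero,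
      Finset.sum_const_zero]
  simp only [dl_eq, h2, sub_zero, h1, shp_chart i hz, map_sum, ContinuousLinearMap.sum_apply]
  rw [Finset.sum_comm]
  refine Finset.sum_congr rfl fun b _ => ?_
  rw [ContinuousLinearMap.comp_apply, ← sum_bs (fderiv ℝ (A.ψ i) z (cb b)), map_sum, map_sum, sum_bs]
  refine Finset.sum_congr rfl fun a _ => ?_
  rw [eps_smul, map_smul, ← Complex.coe_smul, map_smul]
  rfl

theorem dl_dx (hε : IsCAR ε) (i : Fin k) {z : Eu p × Eu q} (hz : z ∈ ball (0 : Eu p × Eu q) 1)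
    {f : Eu N → W} (hf : ContDiff ℝ ∞ f) (h : ∀ n, Vac ε (f n)) (l : List (Fin N)) :
    A.dl ε i (fun y => A.dx ε l (A.ψ i y) (f (A.ψ i y))) z =
      ∑ a, A.dx ε (a :: l) (A.ψ i z) (fderiv ℝ f (A.ψ i z) (bs a)) := by
  induction l with
  | nil => simpa [dx_cons, dx_nil] using dl_vac i hz hf h
  | cons b l ih =>
    have hv : DifferentiableAt ℝ (fun y => A.dx ε l (A.ψ i y) (f (A.ψ i y))) z :=
      diffAt_of_contDiffOn isOpen_ball
        (contDiffOn_iff.1 (contDiffOn_capp (dx_smooth l) hf.contDiffOn) i) hz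
    have h1 := dl_eps (A := A) hε i hz (bs b) hv
    rw [ih] at h1
    simp only [dx_cons, ContinuousLinearMap.mul_apply] at h1 ⊢
    rw [h1, map_sum, ← Finset.sum_neg_distrib]
    refine Finset.sum_congr rfl fun a _ => ?_
    exact (DFunLike.congr_fun (eps_anti hε _ _) _).symm

theorem dl_of (hε : IsCAR ε) (i : Fin k) {z : Eu p × Eu q} (hz : z ∈ ball (0 : Eu p × Eu q) 1)
    {f u : Eu N → W} (hf : ContDiff ℝ ∞ f) (h : ∀ n, Vac ε (f n)) {l : List (Fin N)}
    (hu : ∀ n ∈ A.M, u n = A.dx ε l n (f n)) : A.dl ε i (fun y => u (A.ψ i y)) z =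
      ∑ a, A.dx ε (a :: l) (A.ψ i z) (fderiv ℝ f (A.ψ i z) (bs a)) := by
  rw [← dl_dx hε i hz hf h l]
  refine op_congr ?_
  filter_upwards [isOpen_ball.mem_nhds hz] with y hy using hu _ (ψ_mem i hy).1

theorem dl_add (i : Fin k) {z : Eu p × Eu q} (hz : z ∈ ball (0 : Eu p × Eu q) 1) {u v : Eu N → W}
    (hu : A.Form ε u) (hv : A.Form ε v) : A.dl ε i (fun y => (u + v) (A.ψ i y)) z =
      A.dl ε i (fun y => u (A.ψ i y)) z + A.dl ε i (fun y => v (A.ψ i y)) z :=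
  op_add (diffAt_of_contDiffOn isOpen_ball (hu.chart i).1 hz)
    (diffAt_of_contDiffOn isOpen_ball (hv.chart i).1 hz)

theorem exists_d (A : Atl N p q k) (hε : IsCAR ε) : ∃ d, A.IsD ε d := by
  refine ⟨fun u m => ∑ i, A.χ i m ^ 2 • A.dl ε i (fun y => u (A.ψ i y)) (A.φ i m),
    fun u v hu hv m hm => ?_, fun l f u hf h hu m hm => ?_⟩
  · simp only [← Finset.sum_add_distrib]
    refine Finset.sum_congr rfl fun i _ => ?_
    by_cases h1 : A.χ i m = 0
    · simp [h1]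
    · rw [dl_add i (φ_mem hm (mem_U_of_χ hm h1)).1 hu hv, smul_add]
  · have e : ∀ i, A.χ i m ^ 2 • A.dl ε i (fun y => u (A.ψ i y)) (A.φ i m) =
        A.χ i m ^ 2 • ∑ a, A.dx ε (a :: l) m (fderiv ℝ f m (bs a)) := fun i => by
      by_cases h1 : A.χ i m = 0
      · simp [h1]
      · obtain ⟨h2, h3⟩ := φ_mem hm (mem_U_of_χ hm h1)
        rw [dl_of hε i h2 hf h hu, h3]
    simp only [e, ← Finset.sum_smul, A.χ_sum m hm, one_smul]

variable {d : (Eu N → W) → Eu N → W}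

theorem IsD.chart (hd : A.IsD ε d) (hε : IsCAR ε) {u : Eu N → W} (hu : A.Form ε u) (i : Fin k) :
    ∀ z ∈ ball (0 : Eu p × Eu q) 1, d u (A.ψ i z) = A.dl ε i (fun y => u (A.ψ i y)) z := by
  refine form_ind hε (P := fun u => ∀ z ∈ ball (0 : Eu p × Eu q) 1,
    d u (A.ψ i z) = A.dl ε i (fun y => u (A.ψ i y)) z) (fun l f u hf h hu z hz => ?_)
    (fun u v hu hv h1 h2 z hz => ?_) hu
  · rw [dl_of hε i hz hf h hu, hd.2 l f u hf h hu _ (ψ_mem i hz).1]
  · rw [dl_add i hz hu hv, hd.1 u v hu hv _ (ψ_mem i hz).1, h1 z hz, h2 z hz]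

theorem IsD.tan (hd : A.IsD ε d) (hε : IsCAR ε) {u : Eu N → W} (hu : A.Form ε u) :
    ∀ m ∈ A.M, A.Pi ε m (d u m) = d u m := by
  refine form_ind hε (P := fun u => ∀ m ∈ A.M, A.Pi ε m (d u m) = d u m)
    (fun l f u hf h hu m hm => ?_) (fun u v hu hv h1 h2 m hm => ?_) hu
  · rw [hd.2 l f u hf h hu m hm, map_sum]
    refine Finset.sum_congr rfl fun a _ => ?_
    have h1 := DFunLike.congr_fun (dx_comm (A := A) hε (a :: l) m) (fderiv ℝ f m (bs a))
    rw [ContinuousLinearMap.mul_apply, ContinuousLinearMap.mul_apply] at h1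
    rw [h1]
    exact congrArg _ ((Vac.fderiv hf h m _).deg _)
  · rw [hd.1 u v hu hv m hm, map_add, h1 m hm, h2 m hm]

end Atl

end Pool.Agent.P.MP_e0a138_an.AD
end
end

-- part Pool.Agent.P.MP_e0a138_an.GE8
section

set_option autoImplicit false
set_option linter.unusedSectionVars false
set_option linter.unusedVariables false

open MeasureTheory Filter Topology Metric Complex
open scoped ENNReal NNReal ContDiff InnerProductSpace ComplexConjugate

noncomputable section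
namespace Pool.Agent.P.MP_e0a138_an.AD

variable {N p q k : ℕ} {W : Type} [NormedAddCommGroup W] [InnerProductSpace ℂ W]
  [FiniteDimensional ℂ W] [CompleteSpace W]
variable {A : Atl N p q k} {ε : Eu N →L[ℝ] W →L[ℂ] W}

namespace Atl

theorem Pi_fderiv (hε : IsCAR ε) (i : Fin k) {u : Eu p × Eu q → W}
    (hu : ContDiffOn ℝ ∞ u (ball 0 1))
    (hP : ∀ z ∈ ball (0 : Eu p × Eu q) 1, A.Pi ε (A.ψ i z) (u z) = u z) {z : Eu p × Eu q}
    (hz : z ∈ ball (0 : Eu p × Eu q) 1) (b : Eu p × Eu q) : A.Pi ε (A.ψ i z) (fderiv ℝ u z b) =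
      fderiv ℝ u z b - fderiv ℝ (fun z => A.Pi ε (A.ψ i z)) z b (u z) := by
  have h1 : DifferentiableAt ℝ (fun z => A.Pi ε (A.ψ i z)) z :=
    diffAt_of_contDiffOn isOpen_ball (contDiffOn_iff.1 (A.smooth_Pi hε) i) hz
  have h2 : DifferentiableAt ℝ u z := diffAt_of_contDiffOn isOpen_ball hu hz
  have h3 := fderiv_capp h1 h2 b
  have h4 : (fun z => A.Pi ε (A.ψ i z) (u z)) =ᶠ[𝓝 z] u := by
    filter_upwards [isOpen_ball.mem_nhds hz] with y hy using hP y hy
  rw [h4.fderiv_eq] at h3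
  rw [eq_sub_iff_add_eq, add_comm]
  exact h3.symm

variable {d : (Eu N → W) → Eu N → W}

theorem Form.degH (hε : IsCAR ε) {u : Eu N → W} (hu : A.Form ε u) (j : ℕ) :
    A.Form ε fun n => deg ε (A.H n) j (u n) :=
  hu.clm (A.smooth_degH hε j) fun m _ => Pi_comm_degH hε m j

theorem dc_op_gen (hd : A.IsD ε d) (hε : IsCAR ε) {r : ℕ} {Q : Eu N → Submodule ℝ (Eu N)}
    (hQ : A.SubB Q)
    (h : ∀ m ∈ A.M, ∀ v ∈ A.T m, ∑ j ∈ Finset.range (N + 1),
      deg ε (A.H m) (j + r) * ε v * deg ε (A.H m) j = ε ((Q m).starProjection v)) :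
    A.IsOp ε ε Q (A.dc ε d r) := by
  intro i
  have hD : ∀ j, ContDiffOn ℝ ∞ (fun z => deg ε (A.H (A.ψ i z)) j) (ball (0 : Eu p × Eu q) 1) :=
    fun j => contDiffOn_iff.1 (A.smooth_degH hε j) i
  have hg : ∀ a, ContDiffOn ℝ ∞ (fun z => ε (A.gz i a z)) (ball (0 : Eu p × Eu q) 1) :=
    fun a => ε.contDiff.comp_contDiffOn (gz_smooth i a)
  refine ⟨fun z => ∑ j ∈ Finset.range (N + 1), deg ε (A.H (A.ψ i z)) (j + r) *
      (∑ a, ε (A.gz i a z) * fderiv ℝ (fun z => deg ε (A.H (A.ψ i z)) j) z (cb a) +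
        A.Zd ε i z * deg ε (A.H (A.ψ i z)) j), ?_, ?_⟩
  · exact ContDiffOn.sum fun j _ => (hD _).mul ((ContDiffOn.sum fun a _ =>
      (hg a).mul (contDiffOn_fderiv_apply' isOpen_ball (hD j) _)).add ((Zd_smooth i).mul (hD j)))
  · intro u hu z hz
    have hm := (ψ_mem (A := A) i hz).1
    have hud : DifferentiableAt ℝ (fun z => u (A.ψ i z)) z :=
      diffAt_of_contDiffOn isOpen_ball (hu.chart i).1 hz
    have h1 : ∀ j, d (fun n => deg ε (A.H n) j (u n)) (A.ψ i z) =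
        ∑ a, ε (A.gz i a z)
          (fderiv ℝ (fun z => deg ε (A.H (A.ψ i z)) j) z (cb a) (u (A.ψ i z)) +
            deg ε (A.H (A.ψ i z)) j (fderiv ℝ (fun z => u (A.ψ i z)) z (cb a))) +
          A.Zd ε i z (deg ε (A.H (A.ψ i z)) j (u (A.ψ i z))) := fun j => by
      rw [hd.chart hε (hu.degH hε j) i z hz, dl, op]
      congr 1
      refine Finset.sum_congr rfl fun a _ => ?_
      rw [fderiv_capp (diffAt_of_contDiffOn isOpen_ball (hD j) hz) hud]
    have h2 : ∀ a, ∑ j ∈ Finset.range (N + 1), deg ε (A.H (A.ψ i z)) (j + r) (ε (A.gz i a z)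
          (deg ε (A.H (A.ψ i z)) j (fderiv ℝ (fun z => u (A.ψ i z)) z (cb a)))) =
        A.sy ε Q i a z (fderiv ℝ (fun z => u (A.ψ i z)) z (cb a)) := fun a => by
      have h4 := congrArg (fun B : W →L[ℂ] W => B (fderiv ℝ (fun z => u (A.ψ i z)) z (cb a)))
        (h _ hm _ (gr_mem i a (A.ψ i z)))
      simp only [ContinuousLinearMap.sum_apply, ContinuousLinearMap.mul_apply] at h4
      exact h4
    unfold dc op
    simp only [h1, map_sum, map_add, Finset.sum_add_distrib, ContinuousLinearMap.add_apply,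
      ContinuousLinearMap.sum_apply, ContinuousLinearMap.mul_apply]
    rw [Finset.sum_comm (s := Finset.range (N + 1)) (t := Finset.univ)
      (f := fun j a => deg ε (A.H (A.ψ i z)) (j + r) (ε (A.gz i a z)
          (deg ε (A.H (A.ψ i z)) j (fderiv ℝ (fun z => u (A.ψ i z)) z (cb a)))))]
    simp only [h2]
    abel

theorem dc_op (hd : A.IsD ε d) (hε : IsCAR ε) :
    A.IsOp ε ε A.F (A.dc ε d 0) ∧ A.IsOp ε ε A.H (A.dc ε d 1) :=
  ⟨dc_op_gen hd hε A.subB_F fun m hm v hv => by rw [sum_deg_eps0 hε, sub_projH hm hv],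
    dc_op_gen hd hε A.subB_H fun m hm v hv => sum_deg_eps1 hε _ _⟩

theorem dc_form (hd : A.IsD ε d) (hε : IsCAR ε) {r : ℕ} {Q : Eu N → Submodule ℝ (Eu N)}
    (hQ : A.SubB Q) (h : A.IsOp ε ε Q (A.dc ε d r)) {u : Eu N → W} (hu : A.Form ε u) :
    A.Form ε (A.dc ε d r u) := by
  refine ⟨contDiffOn_iff.2 fun i => ?_, fun m hm => ?_⟩
  · obtain ⟨Z, hZ, hop⟩ := h i
    exact (contDiffOn_op isOpen_ball (fun a => smooth_sy ε hQ i a) hZ (hu.chart i).1).congr
      fun z hz => hop u hu z hz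
  · change A.Pi ε m (A.dc ε d r u m) = A.dc ε d r u m
    unfold dc
    rw [map_sum]
    refine Finset.sum_congr rfl fun j _ => ?_
    have h3 : ∀ x, A.Pi ε m (deg ε (A.H m) (j + r) x) = deg ε (A.H m) (j + r) (A.Pi ε m x) :=
      fun x => congrArg (fun B : W →L[ℂ] W => B x) (Pi_comm_degH (A := A) hε m (j + r))
    rw [h3, hd.tan hε (hu.degH hε j) m hm]

end Atl

end Pool.Agent.P.MP_e0a138_an.AD
end
end

-- part Pool.Agent.P.MP_e0a138_an.AN5b
section

set_option autoImplicit false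
set_option linter.unusedSectionVars false
set_option linter.unusedVariables false

open MeasureTheory Filter Topology Metric Complex
open scoped ENNReal NNReal ContDiff InnerProductSpace ComplexConjugate

noncomputable section
namespace Pool.Agent.P.MP_e0a138_an.AD

variable {N p q k : ℕ} {W : Type} [NormedAddCommGroup W] [InnerProductSpace ℂ W]
  [FiniteDimensional ℂ W] [CompleteSpace W]
variable {E : Type} [NormedAddCommGroup E] [NormedSpace ℝ E] [FiniteDimensional ℝ E]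
  [MeasureSpace E] [BorelSpace E] [(volume : Measure E).IsAddHaarMeasure] {κ : Type} [Fintype κ]

theorem AN5b_pt {ρ : ℝ} (h0 : 0 < ρ) (A dM : κ → W →L[ℂ] W) (Z : W →L[ℂ] W) (u v : W)
    (du dv : κ → W) :
    ρ • ⟪v, ∑ a, A a (du a) + Z u⟫_ℂ =
      ρ • ⟪∑ a, (-star (A a)) (dv a) + (star Z - ∑ a, ((ρ : ℂ)⁻¹) • dM a) v, u⟫_ℂ +
        ∑ a, (⟪((ρ : ℂ) • star (A a)) v, du a⟫_ℂ +
          ⟪dM a v + ((ρ : ℂ) • star (A a)) (dv a), u⟫_ℂ) := by
  have hρ : (ρ : ℂ) ≠ 0 := by exact_mod_cast h0.ne'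
  simp only [ContinuousLinearMap.star_eq_adjoint, inner_add_left, inner_add_right, sum_inner,
    inner_sum, sub_apply, sum_apply,
    smul_apply, neg_apply, inner_sub_left, inner_neg_left,
    inner_smul_left, ContinuousLinearMap.adjoint_inner_left, Complex.real_smul, map_inv₀,
    Complex.conj_ofReal, mul_add, mul_sub, Finset.mul_sum, mul_inv_cancel_left₀ hρ, mul_neg,
    Finset.sum_add_distrib, Finset.sum_neg_distrib]
  ring

theorem ibp {O : Set E} (hO : IsOpen O) (b : κ → E) {A : κ → E → W →L[ℂ] W} {Z : E → W →L[ℂ] W}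
    {ρ : E → ℝ} (hA : ∀ a, ContDiffOn ℝ ∞ (A a) O) (hZ : ContDiffOn ℝ ∞ Z O)
    (hρ : ContDiffOn ℝ ∞ ρ O) (h0 : ∀ x ∈ O, 0 < ρ x) :
    ∃ Z' : E → W →L[ℂ] W, ContDiffOn ℝ ∞ Z' O ∧ ∀ (K : Set E) (u v : E → W), IsCompact K →
      K ⊆ O → ContDiffOn ℝ ∞ u O → ContDiffOn ℝ ∞ v O →
      ((∀ x ∈ O, x ∉ K → u x = 0) ∨ ∀ x ∈ O, x ∉ K → v x = 0) →
      ∫ x, ⟪op b (fun a x => -star (A a x)) Z' v x, u x⟫_ℂ ∂wm O ρ =
        ∫ x, ⟪v x, op b A Z u x⟫_ℂ ∂wm O ρ := by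
  have hM : ∀ a, ContDiffOn ℝ ∞ (fun x => (ρ x : ℂ) • star (A a x)) O := fun a =>
    (contDiffOn_ofReal hρ).smul (contDiffOn_star (hA a))
  have hi : ContDiffOn ℝ ∞ (fun x => ((ρ x : ℂ))⁻¹) O :=
    (contDiffOn_ofReal hρ).inv fun x hx => by exact_mod_cast (h0 x hx).ne'
  have hZ' : ContDiffOn ℝ ∞ (fun x => star (Z x) - ∑ a, ((ρ x : ℂ))⁻¹ •
      fderiv ℝ (fun x => (ρ x : ℂ) • star (A a x)) x (b a)) O :=
    (contDiffOn_star hZ).sub (ContDiffOn.sum fun a _ =>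
      hi.smul (contDiffOn_fderiv_apply' hO (hM a) _))
  refine ⟨_, hZ', fun K u v hK hKO hu hv hz => ?_⟩
  have hf : ∀ a, ContDiffOn ℝ ∞
      (fun x => ⟪((ρ x : ℂ) • star (A a x)) (v x), u x⟫_ℂ) O := fun a =>
    (contDiffOn_capp (hM a) hv).inner ℂ hu
  have hf0 : ∀ a, ∀ x ∈ O, x ∉ K → ⟪((ρ x : ℂ) • star (A a x)) (v x), u x⟫_ℂ = 0 := by
    intro a x hx hxK
    rcases hz with hz | hz
    · rw [hz x hx hxK, inner_zero_right]
    · rw [hz x hx hxK, map_zero, inner_zero_left]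
  have hfi : ∀ a, IntegrableOn (fun x => fderiv ℝ
      (fun x => ⟪((ρ x : ℂ) • star (A a x)) (v x), u x⟫_ℂ) x (b a)) O := fun a =>
    integrableOn_of_cpt hO hK hKO (contDiffOn_fderiv_apply' hO (hf a) _).continuousOn
      fun x hx hxK => by rw [fderiv_eq_zero_of_closed hO hK.isClosed (hf0 a) hx hxK]; rfl
  have hop := contDiffOn_op (b := b) hO (fun a => (contDiffOn_star (hA a)).neg) hZ' hv
  have hL : IntegrableOn (fun x => ρ x • ⟪op b (fun a x => -star (A a x))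
      (fun x => star (Z x) - ∑ a, ((ρ x : ℂ))⁻¹ •
        fderiv ℝ (fun x => (ρ x : ℂ) • star (A a x)) x (b a)) v x, u x⟫_ℂ) O := by
    refine integrableOn_of_cpt hO hK hKO
      (hρ.continuousOn.smul (hop.inner ℂ hu).continuousOn) fun x hx hxK => ?_
    rcases hz with hz | hz
    · rw [hz x hx hxK, inner_zero_right, smul_zero]
    · rw [op_eq_zero hO hK.isClosed hz hx hxK, inner_zero_left, smul_zero]
  rw [integral_wm hO.measurableSet hρ.continuousOn (fun x hx => (h0 x hx).le),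
    integral_wm hO.measurableSet hρ.continuousOn (fun x hx => (h0 x hx).le)]
  have hsum := integral_add hL (integrable_finsetSum Finset.univ fun a _ => hfi a)
  rw [integral_finsetSum _ fun a _ => hfi a,
    Finset.sum_eq_zero fun a _ => ibp0 hO hK hKO (hf a) (hf0 a) (b a), add_zero] at hsum
  rw [← hsum]
  refine setIntegral_congr_fun hO.measurableSet fun x hx => ?_
  have du := diffAt_of_contDiffOn hO hu hx
  have dv := diffAt_of_contDiffOn hO hv hx
  have dM := fun a => diffAt_of_contDiffOn hO (hM a) hx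
  have e : ∀ a, fderiv ℝ (fun x => ⟪((ρ x : ℂ) • star (A a x)) (v x), u x⟫_ℂ) x (b a) =
      ⟪((ρ x : ℂ) • star (A a x)) (v x), fderiv ℝ u x (b a)⟫_ℂ +
        ⟪fderiv ℝ (fun x => (ρ x : ℂ) • star (A a x)) x (b a) (v x) +
          ((ρ x : ℂ) • star (A a x)) (fderiv ℝ v x (b a)), u x⟫_ℂ := fun a => by
    rw [fderiv_inner_apply ℂ (differentiableAt_capp (dM a) dv) du, fderiv_capp (dM a) dv]
  simp only [e, op]
  exact (AN5b_pt (h0 x hx) (fun a => A a x) _ (Z x) (u x) (v x) _ _).symm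

end Pool.Agent.P.MP_e0a138_an.AD
end
end

-- part Pool.Agent.P.MP_e0a138_an.GE9
section

set_option autoImplicit false
set_option linter.unusedSectionVars false
set_option linter.unusedVariables false

open MeasureTheory Filter Topology Metric Complex
open scoped ENNReal NNReal ContDiff InnerProductSpace ComplexConjugate

noncomputable section
namespace Pool.Agent.P.MP_e0a138_an.AD

variable {N p q k : ℕ} {W : Type} [NormedAddCommGroup W] [InnerProductSpace ℂ W]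
  [FiniteDimensional ℂ W] [CompleteSpace W]
variable {A : Atl N p q k} {ε : Eu N →L[ℝ] W →L[ℂ] W}

namespace Atl
variable {Q : Eu N → Submodule ℝ (Eu N)} {d δ : (Eu N → W) → Eu N → W} {μ : Measure (Eu N)}

/-- the formal adjoint in a chart -/
theorem adj_chart (hε : IsCAR ε) (hQ : A.SubB Q) (hd : A.IsOp ε ε Q d)
    (hf : ∀ u, A.Form ε u → A.Form ε (d u)) (i : Fin k) :
    ∃ Z : Eu p × Eu q → W →L[ℂ] W, ContDiffOn ℝ ∞ Z (ball 0 1) ∧
      ∀ b : Eu p × Eu q → W, ContDiffOn ℝ ∞ b (ball 0 1) →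
      (∀ z ∈ ball (0 : Eu p × Eu q) 1, A.Pi ε (A.ψ i z) (b z) = b z) →
      (∀ z ∈ ball (0 : Eu p × Eu q) 1, A.Pi ε (A.ψ i z) (op cb (A.sy (ioL ε) Q i) Z b z) =
        op cb (A.sy (ioL ε) Q i) Z b z) ∧
      ∀ u, A.Form ε u → (A.Loc i u ∨ ∃ r < 1, ∀ z ∈ ball (0 : Eu p × Eu q) 1,
        z ∉ closedBall (0 : Eu p × Eu q) r → b z = 0) →
        ∫ z, ⟪op cb (A.sy (ioL ε) Q i) Z b z, u (A.ψ i z)⟫_ℂ ∂wm (ball 0 1) (A.rho i) =
          ∫ z, ⟪b z, d u (A.ψ i z)⟫_ℂ ∂wm (ball 0 1) (A.rho i) := by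
  obtain ⟨Z₀, hZ₀, hd₀⟩ := hd i
  obtain ⟨Z', hZ', hI⟩ := ibp isOpen_ball cb (smooth_sy ε hQ i) hZ₀ (rho_smooth i)
    fun z hz => rho_pos i hz
  have hP : ContDiffOn ℝ ∞ (fun z => A.Pi ε (A.ψ i z)) (ball 0 1) :=
    contDiffOn_iff.1 (smooth_Pi A hε) i
  refine ⟨fun z => A.Pi ε (A.ψ i z) * Z' z - ∑ a, A.sy (ioL ε) Q i a z *
    fderiv ℝ (fun z => A.Pi ε (A.ψ i z)) z (cb a), (hP.mul hZ').sub (ContDiffOn.sum fun a _ =>
      (smooth_sy (ioL ε) hQ i a).mul (contDiffOn_fderiv_apply' isOpen_ball hP _)),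
    fun b hb hbP => ?_⟩
  have key : ∀ z ∈ ball (0 : Eu p × Eu q) 1, op cb (A.sy (ioL ε) Q i)
      (fun z => A.Pi ε (A.ψ i z) * Z' z - ∑ a, A.sy (ioL ε) Q i a z *
        fderiv ℝ (fun z => A.Pi ε (A.ψ i z)) z (cb a)) b z =
      A.Pi ε (A.ψ i z) (op cb (A.sy (ioL ε) Q i) Z' b z) := by
    intro z hz
    have h1 : ∀ a, A.Pi ε (A.ψ i z) (A.sy (ioL ε) Q i a z (fderiv ℝ b z (cb a))) =
        A.sy (ioL ε) Q i a z (fderiv ℝ b z (cb a)) - A.sy (ioL ε) Q i a z
          (fderiv ℝ (fun z => A.Pi ε (A.ψ i z)) z (cb a) (b z)) := fun a => by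
      rw [← map_sub, ← Pi_fderiv hε i hb hbP hz]
      exact DFunLike.congr_fun (sy_comm hε hQ i a hz).2.1 _
    simp only [op, map_add, map_sum, h1, Finset.sum_sub_distrib, ContinuousLinearMap.sub_apply,
      ContinuousLinearMap.sum_apply, ContinuousLinearMap.mul_apply]
    abel
  refine ⟨fun z hz => ?_, fun u hu h0 => ?_⟩
  · rw [key z hz]
    exact DFunLike.congr_fun (Pi_idem (A.ψ i z)) _
  · obtain ⟨hu1, hu2⟩ := hu.chart i
    obtain ⟨r, hr, h1⟩ : ∃ r < 1, (∀ z ∈ ball (0 : Eu p × Eu q) 1,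
        z ∉ closedBall (0 : Eu p × Eu q) r → u (A.ψ i z) = 0) ∨ ∀ z ∈ ball (0 : Eu p × Eu q) 1,
        z ∉ closedBall (0 : Eu p × Eu q) r → b z = 0 := by
      rcases h0 with ⟨r, hr, h⟩ | ⟨r, hr, h⟩
      · exact ⟨r, hr, Or.inl (chart_zero hr h).1⟩
      · exact ⟨r, hr, Or.inr h⟩
    have h2 := hI (closedBall 0 r) (fun z => u (A.ψ i z)) b (isCompact_closedBall 0 r)
      (closedBall_subset_ball hr) hu1 hb h1
    refine Eq.trans (integral_congr_ae ?_) (h2.trans (integral_congr_ae ?_))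
    · filter_upwards [wm_ae measurableSet_ball] with z hz
      rw [key z hz, ← ContinuousLinearMap.adjoint_inner_right, ← ContinuousLinearMap.star_eq_adjoint,
        Pi_star, hu2 z hz]
      rfl
    · filter_upwards [wm_ae measurableSet_ball] with z hz
      rw [hd₀ u hu z hz]

end Atl

end Pool.Agent.P.MP_e0a138_an.AD
end
end

-- part Pool.Agent.P.MP_e0a138_an.GE9b
section

set_option autoImplicit false
set_option linter.unusedSectionVars false
set_option linter.unusedVariables false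

open MeasureTheory Filter Topology Metric Complex
open scoped ENNReal NNReal ContDiff InnerProductSpace ComplexConjugate

noncomputable section
namespace Pool.Agent.P.MP_e0a138_an.AD

variable {N p q k : ℕ} {W : Type} [NormedAddCommGroup W] [InnerProductSpace ℂ W]
  [FiniteDimensional ℂ W] [CompleteSpace W]
variable {A : Atl N p q k} {ε : Eu N →L[ℝ] W →L[ℂ] W}

namespace Atl
variable {Q : Eu N → Submodule ℝ (Eu N)} {d δ : (Eu N → W) → Eu N → W} {μ : Measure (Eu N)}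

theorem IsAdj.isOp (hε : IsCAR ε) (hμ : A.IsVol μ) (hQ : A.SubB Q) (hd : A.IsOp ε ε Q d)
    (hf : ∀ u, A.Form ε u → A.Form ε (d u)) (h : A.IsAdj ε μ d δ) : A.IsOp ε (ioL ε) Q δ := by
  intro i
  obtain ⟨Z, hZ, hz⟩ := adj_chart hε hQ hd hf i
  refine ⟨Z, hZ, fun v hv => ?_⟩
  obtain ⟨hvs, hvP⟩ := hv.chart i
  obtain ⟨hδ, hadj⟩ := h v hv
  obtain ⟨hδs, hδP⟩ := hδ.chart i
  obtain ⟨hoP, ho⟩ := hz _ hvs hvP
  have hos : ContDiffOn ℝ ∞ (op cb (A.sy (ioL ε) Q i) Z fun z => v (A.ψ i z)) (ball 0 1) :=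
    contDiffOn_op isOpen_ball (smooth_sy _ hQ i) hZ hvs
  generalize (op cb (A.sy (ioL ε) Q i) Z fun z => v (A.ψ i z)) = o at hoP ho hos ⊢
  have hw : ContDiffOn ℝ ∞ (fun z => δ v (A.ψ i z) - o z) (ball 0 1) := hδs.sub hos
  have hρ : ContinuousOn (A.rho i) (ball 0 1) := (rho_continuous i).continuousOn
  refine fun z hz => sub_eq_zero.1 (eq_zero_of_test isOpen_ball hρ (fun z hz => rho_pos i hz)
    hw.continuousOn (fun c hc hcs hsub => ?_) z hz)
  obtain ⟨r, -, hr, hKr⟩ := exists_closedBall_of_cpt hcs.isCompact hsub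
  obtain ⟨a, ha⟩ : ∃ a : Eu p × Eu q → W, a = fun z => (c z : ℂ) • (δ v (A.ψ i z) - o z) :=
    ⟨_, rfl⟩
  have has : ContDiffOn ℝ ∞ a (ball 0 1) := ha ▸ (contDiffOn_ofReal hc.contDiffOn).smul hw
  have ha0 : ∀ z ∈ ball (0 : Eu p × Eu q) 1, z ∉ closedBall (0 : Eu p × Eu q) r → a z = 0 := by
    intro z _ hz
    simp [ha, image_eq_zero_of_notMem_tsupport fun h => hz (hKr h)]
  have haP : ∀ z ∈ ball (0 : Eu p × Eu q) 1, A.Pi ε (A.ψ i z) (a z) = a z := by
    intro z hz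
    simp only [ha, map_smul, map_sub, hδP z hz, hoP z hz]
  obtain ⟨hu, hl⟩ := ext_form i has hr ha0 haP
  have h1 := hadj _ hu
  have h2 := ho _ hu (Or.inl hl)
  obtain ⟨r', hr', hl'⟩ := hd.loc hu hl
  obtain ⟨r1, hr1, hl1⟩ := hl
  rw [hμ.integral_loc i (fun m hm hU => by
      rw [(chart_zero hr1 hl1).2 m hm hU, inner_zero_right]),
    hμ.integral_loc i (fun m hm hU => by
      rw [(chart_zero hr' hl').2 m hm hU, inner_zero_right])] at h1
  have e : ∀ f : Eu p × Eu q → W,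
      ∫ z, ⟪f z, A.ext i a (A.ψ i z)⟫_ℂ ∂wm (ball 0 1) (A.rho i) =
        ∫ z, ⟪f z, a z⟫_ℂ ∂wm (ball 0 1) (A.rho i) := fun f =>
    integral_congr_ae ((wm_ae measurableSet_ball).mono fun z hz => by
      simp only [ext_chart i a hz])
  have hi : ∀ f : Eu p × Eu q → W, ContinuousOn f (ball 0 1) →
      Integrable (fun z => ⟪f z, a z⟫_ℂ) (wm (ball 0 1) (A.rho i)) := fun f hf =>
    integrable_wm_of_cpt isOpen_ball (isCompact_closedBall 0 r) (closedBall_subset_ball hr) hρ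
      (hf.inner has.continuousOn) fun z hz hz' => by rw [ha0 z hz hz', inner_zero_right]
  rw [e fun z => δ v (A.ψ i z)] at h1
  rw [e o] at h2
  have h3 := integral_sub (hi _ hδs.continuousOn) (hi _ hos.continuousOn)
  rw [h1, h2, sub_self] at h3
  rw [← h3]
  refine integral_congr_ae (Eventually.of_forall fun z => ?_)
  simp only [ha, inner_sub_left]

end Atl

end Pool.Agent.P.MP_e0a138_an.AD
end
end

-- part Pool.Agent.P.MP_e0a138_an.GE10
section

set_option autoImplicit false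
set_option linter.unusedSectionVars false
set_option linter.unusedVariables false

open MeasureTheory Filter Topology Metric Complex
open scoped ENNReal NNReal ContDiff InnerProductSpace ComplexConjugate

noncomputable section
namespace Pool.Agent.P.MP_e0a138_an.AD

variable {N p q k : ℕ} {W : Type} [NormedAddCommGroup W] [InnerProductSpace ℂ W]
  [FiniteDimensional ℂ W] [CompleteSpace W]
variable {A : Atl N p q k} {ε : Eu N →L[ℝ] W →L[ℂ] W}

namespace Atl
variable {Q : Eu N → Submodule ℝ (Eu N)} {d δ : (Eu N → W) → Eu N → W} {μ : Measure (Eu N)}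

theorem exists_adj (hε : IsCAR ε) (hμ : A.IsVol μ) (hQ : A.SubB Q) (hd : A.IsOp ε ε Q d)
    (hf : ∀ u, A.Form ε u → A.Form ε (d u)) : ∃ δ, A.IsAdj ε μ d δ := by
  choose Z hZ hZ' using adj_chart hε hQ hd hf
  obtain ⟨r, -, hr, hχ⟩ := A.exists_r
  let bb : (Eu N → W) → Fin k → Eu p × Eu q → W := fun v i z =>
    ((A.χ i (A.ψ i z) ^ 2 : ℝ) : ℂ) • v (A.ψ i z)
  let aa : (Eu N → W) → Fin k → Eu p × Eu q → W := fun v i =>
    op cb (A.sy (ioL ε) Q i) (Z i) (bb v i)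
  refine ⟨fun v m => ∑ i, A.ext i (aa v i) m, fun v hv => ?_⟩
  have hb : ∀ i, ContDiffOn ℝ ∞ (bb v i) (ball 0 1) := fun i =>
    (contDiffOn_ofReal (((A.χ_smooth i).comp (A.ψ_smooth i)).pow 2).contDiffOn).smul
      (hv.chart i).1
  have hbP : ∀ i, ∀ z ∈ ball (0 : Eu p × Eu q) 1, A.Pi ε (A.ψ i z) (bb v i z) = bb v i z :=
    fun i z hz => by simp only [bb, map_smul, (hv.chart i).2 z hz]
  have hb0 : ∀ i, ∀ z ∈ ball (0 : Eu p × Eu q) 1, z ∉ closedBall (0 : Eu p × Eu q) r →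
      bb v i z = 0 := fun i z hz hz' => by
    simp only [bb, (chart_zero hr (hχ i)).1 z hz hz']
    simp
  have ha0 : ∀ i, ∀ z ∈ ball (0 : Eu p × Eu q) 1, z ∉ closedBall (0 : Eu p × Eu q) r →
      aa v i z = 0 := fun i z hz hz' => op_eq_zero isOpen_ball isClosed_closedBall (hb0 i) hz hz'
  have hform : ∀ i, A.Form ε (A.ext i (aa v i)) := fun i =>
    (ext_form i (contDiffOn_op isOpen_ball (smooth_sy _ hQ i) (hZ i) (hb i)) hr (ha0 i)
      (hZ' i _ (hb i) (hbP i)).1).1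
  refine ⟨Form.sum _ fun i _ => hform i, fun u hu => ?_⟩
  have hχ' : ∀ i, ContinuousOn (fun m => ((A.χ i m ^ 2 : ℝ) : ℂ) • v m) A.M := fun i =>
    (continuous_ofReal.comp ((A.χ_smooth i).continuous.pow 2)).continuousOn.smul hv.1.continuousOn
  have h1 : ∀ i, ∫ m, ⟪A.ext i (aa v i) m, u m⟫_ℂ ∂μ =
      ∫ m, ⟪((A.χ i m ^ 2 : ℝ) : ℂ) • v m, d u m⟫_ℂ ∂μ := fun i => by
    rw [hμ.integral_loc i (f := fun m => ⟪A.ext i (aa v i) m, u m⟫_ℂ) fun m _ hm => by
        rw [ext, Set.indicator_of_notMem hm, inner_zero_left],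
      hμ.integral_loc i (f := fun m => ⟪((A.χ i m ^ 2 : ℝ) : ℂ) • v m, d u m⟫_ℂ) fun m hM hm => by
        simp [(chart_zero hr (hχ i)).2 m hM hm]]
    refine Eq.trans (integral_congr_ae ?_)
      ((hZ' i _ (hb i) (hbP i)).2 u hu (Or.inr ⟨r, hr, hb0 i⟩))
    have hae : ∀ᵐ z ∂wm (ball (0 : Eu p × Eu q) 1) (A.rho i), z ∈ ball (0 : Eu p × Eu q) 1 :=
      (hμ.emb i).conc
    filter_upwards [hae] with z hz
    rw [ext_chart i _ hz]
  simp only [sum_inner]
  rw [integral_finsetSum _ fun i _ =>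
      hμ.integrable ((hform i).1.continuousOn.inner (𝕜 := ℂ) hu.1.continuousOn),
    Finset.sum_congr rfl fun i _ => h1 i, ← integral_finsetSum _ fun i _ =>
      hμ.integrable ((hχ' i).inner (𝕜 := ℂ) (hf u hu).1.continuousOn)]
  refine integral_congr_ae ?_
  filter_upwards [hμ.ae_mem] with m hm
  rw [← sum_inner, ← Finset.sum_smul, ← ofReal_sum, A.χ_sum m hm, ofReal_one, one_smul]

theorem IsAdj.dirac (hε : IsCAR ε) (hμ : A.IsVol μ) (hQ : A.SubB Q) (hd : A.IsOp ε ε Q d)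
    (hf : ∀ u, A.Form ε u → A.Form ε (d u)) (h : A.IsAdj ε μ d δ) :
    A.IsOp ε (clL ε) Q (fun u => d u + δ u) ∧ (∀ u, A.Form ε u → A.Form ε (d u + δ u)) ∧
      ∀ u v, A.Form ε u → A.Form ε v →
        ∫ m, ⟪(d u + δ u) m, v m⟫_ℂ ∂μ = ∫ m, ⟪u m, (d v + δ v) m⟫_ℂ ∂μ := by
  refine ⟨fun i => ?_, fun u hu => (hf u hu).add (h u hu).1, fun u v hu hv => ?_⟩
  · obtain ⟨Z, hZ, h1⟩ := hd i
    obtain ⟨Z', hZ', h2⟩ := h.isOp hε hμ hQ hd hf i
    refine ⟨fun z => Z z + Z' z, hZ.add hZ', fun u hu z hz => ?_⟩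
    change d u _ + δ u _ = _
    rw [h1 u hu z hz, h2 u hu z hz]
    simp only [op, sy, clL, add_apply, Finset.sum_add_distrib]
    abel
  · have c1 := hu.1.continuousOn
    have c2 := hv.1.continuousOn
    have e : ∫ m, ⟪d u m, v m⟫_ℂ ∂μ = ∫ m, ⟪u m, δ v m⟫_ℂ ∂μ := by
      have h3 := congrArg (starRingEnd ℂ) ((h v hv).2 u hu)
      rw [← integral_conj, ← integral_conj] at h3
      simp only [inner_conj_symm] at h3
      exact h3.symm
    simp only [Pi.add_apply, inner_add_left, inner_add_right]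
    rw [integral_add (hμ.integrable ((hf u hu).1.continuousOn.inner (𝕜 := ℂ) c2))
        (hμ.integrable ((h u hu).1.1.continuousOn.inner (𝕜 := ℂ) c2)),
      integral_add (hμ.integrable (c1.inner (𝕜 := ℂ) (hf v hv).1.continuousOn))
        (hμ.integrable (c1.inner (𝕜 := ℂ) (h v hv).1.1.continuousOn)), e, (h u hu).2 v hv, add_comm]

theorem dir_of_adj {d : (Eu N → W) → Eu N → W} (hd : A.IsD ε d) (hε : IsCAR ε) (hμ : A.IsVol μ)
    {δF δH : (Eu N → W) → Eu N → W}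
    (hF : A.IsAdj ε μ (A.dc ε d 0) δF) (hH : A.IsAdj ε μ (A.dc ε d 1) δH) :
    A.Dir ε μ (fun u => A.dc ε d 0 u + δF u) fun u => A.dc ε d 1 u + δH u := by
  obtain ⟨h0, h1⟩ := dc_op hd hε
  obtain ⟨a1, a2, a3⟩ := hF.dirac hε hμ A.subB_F h0 fun u hu => dc_form hd hε A.subB_F h0 hu
  obtain ⟨b1, b2, b3⟩ := hH.dirac hε hμ A.subB_H h1 fun u hu => dc_form hd hε A.subB_H h1 hu
  exact ⟨a1, b1, a2, b2, a3, b3⟩

theorem exists_adjs {d : (Eu N → W) → Eu N → W} (hd : A.IsD ε d) (hε : IsCAR ε)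
    (hμ : A.IsVol μ) :
    (∃ δ, A.IsAdj ε μ (A.dc ε d 0) δ) ∧ ∃ δ, A.IsAdj ε μ (A.dc ε d 1) δ := by
  obtain ⟨h0, h1⟩ := dc_op hd hε
  exact ⟨exists_adj hε hμ A.subB_F h0 fun u hu => dc_form hd hε A.subB_F h0 hu,
    exists_adj hε hμ A.subB_H h1 fun u hu => dc_form hd hε A.subB_H h1 hu⟩

end Atl

end Pool.Agent.P.MP_e0a138_an.AD
end
end

-- part Pool.Agent.P.MP_e0a138_an.AB8
section

set_option autoImplicit false
set_option linter.unusedSectionVars false
set_option linter.unusedVariables false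

open MeasureTheory Filter Topology Metric Complex
open scoped ENNReal NNReal ContDiff InnerProductSpace ComplexConjugate

noncomputable section
namespace Pool.Agent.P.MP_e0a138_an.AD


theorem squeeze_ennreal {l : Filter ℝ} [l.NeBot] {t : ℝ → ℝ≥0∞} {a : ℕ → ℝ → ℝ≥0∞}
    {b d : ℕ → ℝ≥0∞} (hd : Tendsto d atTop (𝓝 0))
    (h : ∀ K, ∀ᶠ h in l, a K h ≤ t h ∧ (1 - d K) * t h ≤ a K h)
    (ha : ∀ K, Tendsto (a K) l (𝓝 (b K))) (hb : ∀ K, b K ≠ ⊤) :
    ⨆ K, b K ≠ ⊤ ∧ Tendsto t l (𝓝 (⨆ K, b K)) := by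
  have h1 : Tendsto (fun K => 1 - d K) atTop (𝓝 1) := by
    have := ENNReal.Tendsto.sub (tendsto_const_nhds (x := (1 : ℝ≥0∞))) hd
      (Or.inl ENNReal.one_ne_top)
    simpa using this
  have key : ∀ K K', (1 - d K') * b K ≤ b K' := by
    intro K K'
    have hne : (1 - d K') ≠ ⊤ := ne_top_of_le_ne_top ENNReal.one_ne_top tsub_le_self
    refine le_of_tendsto_of_tendsto (ENNReal.Tendsto.const_mul (ha K) (Or.inr hne)) (ha K') ?_
    filter_upwards [h K, h K'] with x hx hx'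
    exact (mul_le_mul_right hx.1 _).trans hx'.2
  constructor
  · obtain ⟨K0, hK0⟩ := (h1.eventually (lt_mem_nhds (zero_lt_one' ℝ≥0∞))).exists
    intro htop
    have h2 : (1 - d K0) * ⨆ K, b K ≤ b K0 := by
      rw [ENNReal.mul_iSup]
      exact iSup_le fun K => key K K0
    rw [htop, ENNReal.mul_top hK0.ne'] at h2
    exact hb K0 (top_le_iff.1 h2)
  · refine tendsto_order.2 ⟨fun c hc => ?_, fun c hc => ?_⟩
    · obtain ⟨K, hK⟩ := lt_iSup_iff.1 hc
      filter_upwards [h K, (ha K).eventually (lt_mem_nhds hK)] with x hx hx'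
      exact hx'.trans_le hx.1
    · have h2 : Tendsto (fun K => (1 - d K) * c) atTop (𝓝 (1 * c)) :=
        ENNReal.Tendsto.mul_const h1 (Or.inl one_ne_zero)
      rw [one_mul] at h2
      obtain ⟨K, hK⟩ := (h2.eventually (lt_mem_nhds hc)).exists
      have hK' : b K < (1 - d K) * c := (le_iSup b K).trans_lt hK
      filter_upwards [h K, (ha K).eventually (gt_mem_nhds hK')] with x hx hx'
      by_contra hcon
      exact absurd ((mul_le_mul_right (not_lt.1 hcon) _).trans hx.2) (not_le.2 hx')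

theorem final_limit {X Y ι D : Type} [MeasureSpace X] [MeasureSpace Y]
    [SFinite (volume : Measure X)] [SFinite (volume : Measure Y)] [Fintype ι] [Fintype D]
    {l : Filter ℝ} [l.NeBot] [l.IsCountablyGenerated] {φ : ℝ → ι × D → X × Y → ℝ≥0∞}
    {t : ℝ → ℝ≥0∞} {Lf : ι → Y → ℝ≥0∞} {B : Set Y} {Om : ℕ → Set (X × Y)} {d : ℕ → ℝ≥0∞}
    {C : ℝ≥0∞} (hB : MeasurableSet B) (hO : ∀ K, MeasurableSet (Om K)) (hmono : Monotone Om)
    (hU : ⋃ K, Om K = Set.univ) (hfin : ∀ K, volume (Om K ∩ Set.univ ×ˢ B) ≠ ⊤) (hC : C ≠ ⊤)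
    (hφ : ∀ᶠ h in l, ∀ j, Measurable (φ h j) ∧ ∀ o, φ h j o ≤ C ∧ (o.2 ∉ B → φ h j o = 0))
    (hlim : ∀ i, ∀ᵐ a, a ∈ B → ∃ g : D → X → ℝ≥0∞,
      (∀ e x, Tendsto (fun h => φ h (i, e) (x, a)) l (𝓝 (g e x))) ∧ ∑ e, ∫⁻ x, g e x = Lf i a)
    (hd : Tendsto d atTop (𝓝 0))
    (ht : ∀ K, ∀ᶠ h in l, ∑ j, ∫⁻ o in Om K, φ h j o ≤ t h ∧
      (1 - d K) * t h ≤ ∑ j, ∫⁻ o in Om K, φ h j o) :
    (∀ i, AEMeasurable (Lf i) (volume.restrict B)) ∧
    ∑ i, ∫⁻ a in B, Lf i a ≠ ⊤ ∧ Tendsto t l (𝓝 (∑ i, ∫⁻ a in B, Lf i a)) := by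
  classical
  set F : ι × D → X × Y → ℝ≥0∞ := fun j o => liminf (fun h => φ h j o) l with hF
  have hzero : ∀ j (o : X × Y), o.2 ∉ B → Tendsto (fun h => φ h j o) l (𝓝 0) := by
    intro j o ho
    refine tendsto_const_nhds.congr' ?_
    filter_upwards [hφ] with h hh
    exact (((hh j).2 o).2 ho).symm
  have hconv : ∀ j, ∀ᵐ o : X × Y, Tendsto (fun h => φ h j o) l (𝓝 (F j o)) := by
    rintro ⟨i, e⟩
    have h0 : ∀ᵐ o : X × Y ∂((volume : Measure X).prod (volume : Measure Y)), o.2 ∈ B →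
        ∃ g : D → X → ℝ≥0∞, (∀ e x, Tendsto (fun h => φ h (i, e) (x, o.2)) l (𝓝 (g e x))) ∧
          ∑ e, ∫⁻ x, g e x = Lf i o.2 :=
      Measure.quasiMeasurePreserving_snd.ae (hlim i)
    rw [Measure.volume_eq_prod]
    filter_upwards [h0] with o ho
    by_cases hoB : o.2 ∈ B
    · obtain ⟨g, hg, -⟩ := ho hoB
      have h1 : Tendsto (fun h => φ h (i, e) o) l (𝓝 (g e o.1)) := hg e o.1
      have h2 : F (i, e) o = g e o.1 := h1.liminf_eq
      rw [h2]; exact h1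
    · have h1 := hzero (i, e) o hoB
      have h2 : F (i, e) o = 0 := h1.liminf_eq
      rw [h2]; exact h1
  have hFm : ∀ j, AEMeasurable (F j) volume := by
    intro j
    refine ENNReal.aemeasurable_of_tendsto' (f := fun h => if Measurable (φ h j) then φ h j else 0)
      l (fun h => ?_) ?_
    · by_cases hm : Measurable (φ h j)
      · rw [if_pos hm]; exact hm.aemeasurable
      · rw [if_neg hm]; exact aemeasurable_const
    · filter_upwards [hconv j] with o ho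
      refine ho.congr' ?_
      filter_upwards [hφ] with h hh
      rw [if_pos (hh j).1]
  set bd : X × Y → ℝ≥0∞ := (Set.univ ×ˢ B).indicator fun _ => C with hbd
  have hUB : MeasurableSet ((Set.univ : Set X) ×ˢ B) := MeasurableSet.univ.prod hB
  have hbdfin : ∀ K, ∫⁻ o in Om K, bd o ≠ ⊤ := by
    intro K
    rw [hbd, lintegral_indicator_const hUB, Measure.restrict_apply hUB, Set.inter_comm]
    exact ENNReal.mul_ne_top hC (hfin K)
  have hle : ∀ᶠ h in l, ∀ j o, φ h j o ≤ bd o := by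
    filter_upwards [hφ] with h hh j o
    by_cases hoB : o.2 ∈ B
    · rw [hbd, Set.indicator_of_mem (Set.mem_prod.2 ⟨Set.mem_univ _, hoB⟩)]
      exact ((hh j).2 o).1
    · rw [((hh j).2 o).2 hoB]; exact bot_le
  have ha : ∀ K, Tendsto (fun h => ∑ j, ∫⁻ o in Om K, φ h j o) l
      (𝓝 (∑ j, ∫⁻ o in Om K, F j o)) := by
    intro K
    refine tendsto_finsetSum _ fun j _ => ?_
    refine tendsto_lintegral_filter_of_dominated_convergence bd ?_ ?_ (hbdfin K)
      (ae_restrict_of_ae (hconv j))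
    · filter_upwards [hφ] with h hh using (hh j).1
    · filter_upwards [hle] with h hh using Eventually.of_forall (hh j)
  have hb : ∀ K, ∑ j, ∫⁻ o in Om K, F j o ≠ ⊤ := by
    intro K
    refine ENNReal.sum_ne_top.2 fun j _ => ne_top_of_le_ne_top (hbdfin K) ?_
    refine lintegral_mono_ae (ae_restrict_of_ae ?_)
    filter_upwards [hconv j] with o ho
    refine le_of_tendsto ho ?_
    filter_upwards [hle] with h hh using hh j o
  have hsup : ⨆ K, ∑ j, ∫⁻ o in Om K, F j o = ∑ j, ∫⁻ o, F j o := by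
    rw [← ENNReal.finsetSum_iSup_of_monotone]
    · refine Finset.sum_congr rfl fun j _ => ?_
      rw [← setLIntegral_iUnion_of_directed (F j) hmono.directed_le, hU, Measure.restrict_univ]
    · intro j K K' hKK
      exact lintegral_mono_set (hmono hKK)
  have hval : ∑ j, ∫⁻ o, F j o = ∑ i, ∫⁻ a in B, Lf i a := by
    rw [Fintype.sum_prod_type]
    refine Finset.sum_congr rfl fun i _ => ?_
    have hm : ∀ e, AEMeasurable (F (i, e)) ((volume : Measure X).prod (volume : Measure Y)) :=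
      fun e => by simpa [Measure.volume_eq_prod] using hFm (i, e)
    have h1 : ∀ e, ∫⁻ o, F (i, e) o = ∫⁻ a, ∫⁻ x, F (i, e) (x, a) := by
      intro e
      rw [Measure.volume_eq_prod, lintegral_prod_symm _ (hm e)]
    simp only [h1]
    rw [← lintegral_finsetSum' _ fun e _ => (hm e).lintegral_prod_left', ← lintegral_indicator hB]
    refine lintegral_congr_ae ?_
    filter_upwards [hlim i] with a ha'
    by_cases haB : a ∈ B
    · obtain ⟨g, hg, hs⟩ := ha' haB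
      rw [Set.indicator_of_mem haB, ← hs]
      refine Finset.sum_congr rfl fun e _ => lintegral_congr fun x => ?_
      exact (hg e x).liminf_eq
    · rw [Set.indicator_of_notMem haB]
      refine Finset.sum_eq_zero fun e _ => ?_
      have h2 : ∀ x, F (i, e) (x, a) = 0 := fun x => (hzero (i, e) (x, a) haB).liminf_eq
      simp only [h2, lintegral_zero]
  have := squeeze_ennreal (t := t) (a := fun K h => ∑ j, ∫⁻ o in Om K, φ h j o)
    (b := fun K => ∑ j, ∫⁻ o in Om K, F j o) hd ht ha hb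
  rw [hsup, hval] at this
  refine ⟨fun i => ?_, this⟩
  have hm : ∀ e, AEMeasurable (F (i, e)) ((volume : Measure X).prod (volume : Measure Y)) :=
    fun e => by simpa [Measure.volume_eq_prod] using hFm (i, e)
  have h3 : AEMeasurable (fun a => ∑ e, ∫⁻ x, F (i, e) (x, a)) (volume : Measure Y) :=
    Finset.aemeasurable_fun_sum _ fun e _ => (hm e).lintegral_prod_left'
  refine h3.restrict.congr ((ae_restrict_iff' hB).2 ?_)
  filter_upwards [hlim i] with a ha' haB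
  obtain ⟨g, hg, hs⟩ := ha' haB
  rw [← hs]
  refine Finset.sum_congr rfl fun e _ => lintegral_congr fun x => ?_
  exact (hg e x).liminf_eq

end Pool.Agent.P.MP_e0a138_an.AD
end
end

-- part Pool.Agent.P.MP_e0a138_an.AT1
section

set_option autoImplicit false
set_option linter.unusedSectionVars false
set_option linter.unusedVariables false

open MeasureTheory Filter Topology Metric Complex
open scoped ENNReal NNReal ContDiff InnerProductSpace ComplexConjugate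

noncomputable section
namespace Pool.Agent.P.MP_e0a138_an.AD

section hilbert
variable {H : Type} [NormedAddCommGroup H] [InnerProductSpace ℂ H] [CompleteSpace H]

/-- positive part of the real part of `c * f` -/
def pp (c : ℂ) (f : ℝ → ℂ) (x : ℝ) : ℝ := max (c * f x).re 0

theorem pp_props (c : ℂ) {f : ℝ → ℂ} (hf : Continuous f) (hc : HasCompactSupport f) :
    Continuous (pp c f) ∧ HasCompactSupport (pp c f) ∧ ∀ x, 0 ≤ pp c f x :=
  ⟨(continuous_re.comp (continuous_const.mul hf)).max continuous_const,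
    hc.comp_left (g := fun z : ℂ => max (c * z).re 0) (by simp), fun x => le_max_right _ _⟩

theorem pp_sum (f : ℝ → ℂ) (x : ℝ) : f x = (pp 1 f x : ℂ) + (-1) * (pp (-1) f x : ℂ) +
    I * (pp (-I) f x : ℂ) + (-I) * (pp I f x : ℂ) := by
  have h1 := max_zero_sub_max_neg_zero_eq_self (f x).re
  have h2 := max_zero_sub_max_neg_zero_eq_self (f x).im
  apply Complex.ext
  · simp [pp]; linarith
  · simp [pp]; linarith

theorem fn_eq {f : ℝ → ℂ} (hf : Continuous f) (hc : HasCompactSupport f) (R : H →L[ℂ] H) :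
    fn f R = fc (pp 1 f) R + (-1 : ℂ) • fc (pp (-1) f) R + I • fc (pp (-I) f) R +
      (-I) • fc (pp I f) R := by
  have hs : IsSelfAdjoint (star R * R) := IsSelfAdjoint.star_mul_self R
  have hn : IsStarNormal (star R * R) := hs.isStarNormal
  have h1 : ∀ c, fc (pp c f) R = cfc (fun x : ℂ => (Ff (pp c f) x.re : ℂ)) (star R * R) :=
    fun c => cfc_real_eq_complex _ hs
  have h2 : ∀ c, Continuous fun x : ℂ => (Ff (pp c f) x.re : ℂ) := fun c => by
    obtain ⟨a, b, d⟩ := pp_props c hf hc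
    exact continuous_ofReal.comp ((Ff_props a b d).1.comp continuous_re)
  have h3 : ∀ c d : ℂ, Continuous fun x : ℂ => d • (Ff (pp c f) x.re : ℂ) := fun c d =>
    (h2 c).const_smul d
  rw [h1, h1, h1, h1, ← cfc_smul _ _ _ (h2 _).continuousOn, ← cfc_smul _ _ _ (h2 _).continuousOn,
    ← cfc_smul _ _ _ (h2 _).continuousOn,
    ← cfc_add _ _ _ (h2 _).continuousOn (h3 _ _).continuousOn,
    ← cfc_add _ _ _ ((h2 _).fun_add (h3 _ _)).continuousOn (h3 _ _).continuousOn,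
    ← cfc_add _ _ _ (((h2 _).fun_add (h3 _ _)).fun_add (h3 _ _)).continuousOn (h3 _ _).continuousOn]
  unfold fn
  congr 1
  funext x
  simp only [Ff, smul_eq_mul]
  split_ifs
  · exact pp_sum f _
  · simp

theorem hasSum_trA {M S : H →L[ℂ] H} (hM : star M = M) (hS : star S = S)
    (h : trA M (S * S) ≠ ⊤) {J : Type} (b : HilbertBasis J ℂ H) :
    HasSum (fun j => ⟪b j, (M * (S * S) * M) (b j)⟫_ℂ) ((trA M (S * S)).toReal : ℂ) := by
  have hst : star (S * M) = M * S := by rw [star_mul, hM, hS]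
  have h2 := AB5a_hs b (S * M)
  rw [hst] at h2
  have h3 : trA M (S * S) = ∑' j, ‖(S * M) (b j)‖ₑ ^ 2 := (trA_eq_tsum b hM hS).trans h2.symm
  rw [h3] at h ⊢
  have h4 := ENNReal.hasSum_toReal h
  rw [← ENNReal.tsum_toReal_eq fun j => ENNReal.pow_ne_top enorm_ne_top] at h4
  convert Complex.hasSum_ofReal.2 h4 using 2 with j
  have h5 : M * (S * S) * M = star (S * M) * (S * M) := by rw [hst]; simp only [mul_assoc]
  rw [h5, ENNReal.toReal_pow, toReal_enorm]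
  have h6 := AB5a_adj (S * M) (b j) ((S * M) (b j))
  rw [inner_self_eq_norm_sq_to_K] at h6
  rw [Complex.ofReal_pow]
  exact h6.symm

theorem hasSum_add_op {J : Type} {b : J → H} {M T T' : H →L[ℂ] H} {a a' : ℂ}
    (h : HasSum (fun j => ⟪b j, (M * T * M) (b j)⟫_ℂ) a)
    (h' : HasSum (fun j => ⟪b j, (M * T' * M) (b j)⟫_ℂ) a') :
    HasSum (fun j => ⟪b j, (M * (T + T') * M) (b j)⟫_ℂ) (a + a') := by
  have e : (fun j => ⟪b j, (M * (T + T') * M) (b j)⟫_ℂ) =
      fun j => ⟪b j, (M * T * M) (b j)⟫_ℂ + ⟪b j, (M * T' * M) (b j)⟫_ℂ := by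
    funext j
    rw [mul_add, add_mul]
    exact inner_add_right _ _ _
  rw [e]
  exact h.add h'

theorem hasSum_smul_op {J : Type} {b : J → H} {M T : H →L[ℂ] H} {a : ℂ}
    (h : HasSum (fun j => ⟪b j, (M * T * M) (b j)⟫_ℂ) a) (c : ℂ) :
    HasSum (fun j => ⟪b j, (M * (c • T) * M) (b j)⟫_ℂ) (c * a) := by
  have e : (fun j => ⟪b j, (M * (c • T) * M) (b j)⟫_ℂ) =
      fun j => c * ⟪b j, (M * T * M) (b j)⟫_ℂ := by
    funext j
    rw [mul_smul_comm, smul_mul_assoc]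
    exact inner_smul_right _ _ _
  rw [e]
  exact h.mul_left c

end hilbert

variable {W : Type} [NormedAddCommGroup W] [InnerProductSpace ℂ W]
  [FiniteDimensional ℂ W] [CompleteSpace W]
variable {S : Type} [MeasurableSpace S] {ν : Measure S} {w : S → ℝ}

theorem hasTr_of_tr (hw : AEStronglyMeasurable w ν) {C : ℝ} (hC : ∀ᵐ s ∂ν, |w s| ≤ C)
    {T Q : Lp W 2 ν →L[ℂ] Lp W 2 ν} (hQ : star Q = Q) (hT : Q * Q = T) (h : tr w T ≠ ⊤) :
    HasTr (W := W) (ν := ν) w T ((tr w T).toReal : ℂ) := by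
  obtain ⟨M, hM, hMv, hM2⟩ := exists_mul_real (W := W) hw hC
  subst hT
  rw [hM2] at h ⊢
  refine ⟨M, fun v f hv => ?_, fun J b => hasSum_trA (H := Lp W 2 ν) hM hQ h b⟩
  filter_upwards [hMv v, hv] with s h1 h2
  exact h1.trans (congrArg _ h2)

theorem HasTr.add {T T' : Op (L2 W ν)} {a a' : ℂ} (h : HasTr w T a) (h' : HasTr w T' a') :
    HasTr w (T + T') (a + a') := by
  obtain ⟨M, h1, h2⟩ := h
  obtain ⟨M', h1', h2'⟩ := h'
  obtain rfl : M = M' := ContinuousLinearMap.ext fun v => Lp.ext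
    ((h1 v _ EventuallyEq.rfl).trans (h1' v _ EventuallyEq.rfl).symm)
  exact ⟨M, h1, fun J b => hasSum_add_op (h2 J b) (h2' J b)⟩

theorem HasTr.smul {T : Op (L2 W ν)} {a : ℂ} (h : HasTr w T a) (c : ℂ) :
    HasTr w (c • T) (c * a) := by
  obtain ⟨M, h1, h2⟩ := h
  exact ⟨M, h1, fun J b => hasSum_smul_op (h2 J b) c⟩

end Pool.Agent.P.MP_e0a138_an.AD
end
end

-- part Pool.Agent.P.MP_e0a138_an.GE5b
section

set_option autoImplicit false
set_option linter.unusedSectionVars false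
set_option linter.unusedVariables false

open MeasureTheory Filter Topology Metric Complex
open scoped ENNReal NNReal ContDiff InnerProductSpace ComplexConjugate

noncomputable section
namespace Pool.Agent.P.MP_e0a138_an.AD

variable {N p q k : ℕ} {W : Type} [NormedAddCommGroup W] [InnerProductSpace ℂ W]
  [FiniteDimensional ℂ W] [CompleteSpace W]
variable {A : Atl N p q k}

namespace Atl

theorem GE5b_measQ (A : Atl N p q k) (i : Fin k) : MeasurableSet (A.M ∩ A.U i) :=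
  A.isCompact_M.isClosed.measurableSet.inter (A.U_open i).measurableSet

theorem GE5b_measS (A : Atl N p q k) (i j : Fin k) :
    MeasurableSet (ball (0 : Eu p × Eu q) 1 ∩ A.ψ i ⁻¹' (A.M ∩ A.U j)) :=
  measurableSet_ball.inter ((A.ψ_smooth i).continuous.measurable (A.GE5b_measQ j))

theorem GE5b_compat (A : Atl N p q k) (i j : Fin k) :
    ((wm (ball (0 : Eu p × Eu q) 1) (A.rho i)).map (A.ψ i)).restrict (A.M ∩ A.U j) =
      ((wm (ball (0 : Eu p × Eu q) 1) (A.rho j)).map (A.ψ j)).restrict (A.M ∩ A.U i) := by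
  have hm : ∀ (l : Fin k) (μ : Measure (Eu p × Eu q)), AEMeasurable (A.ψ l) μ := fun l μ =>
    (A.ψ_smooth l).continuous.measurable.aemeasurable
  rw [restrict_map_wm measurableSet_ball (hm i _) (A.GE5b_measQ j) (A.GE5b_measS i j),
    restrict_map_wm measurableSet_ball (hm j _) (A.GE5b_measQ i) (A.GE5b_measS j i)]
  have hd : Differentiable ℝ fun z => A.φ j (A.ψ i z) :=
    ((A.φ_smooth j).comp (A.ψ_smooth i)).differentiable (by simp)
  refine change_var (A.GE5b_measS i j) (A.GE5b_measS j i) (T := fun z => A.φ j (A.ψ i z))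
    (T' := fun z => fderiv ℝ (fun z => A.φ j (A.ψ i z)) z)
    (fun z _ => (hd z).hasFDerivAt.hasFDerivWithinAt) (fun z hz y hy e => ?_) ?_
    (rho_continuous i).continuousOn (rho_continuous j).continuousOn
    (fun z hz => rho_trans hz.1 hz.2.2) (hm i _) (hm j _)
    (fun z hz => (φ_mem hz.2.1 hz.2.2).2.symm)
  · refine injOn_ψ (A := A) i hz.1 hy.1 ?_
    rw [← (φ_mem hz.2.1 hz.2.2).2, ← (φ_mem hy.2.1 hy.2.2).2]
    exact congrArg (A.ψ j) e
  · ext y
    constructor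
    · rintro ⟨z, hz, rfl⟩
      refine ⟨(φ_mem hz.2.1 hz.2.2).1, ?_⟩
      rw [Set.mem_preimage, (φ_mem hz.2.1 hz.2.2).2]
      exact ψ_mem i hz.1
    · rintro ⟨hy, h1, h2⟩
      refine ⟨A.φ i (A.ψ j y), ⟨(φ_mem h1 h2).1, ?_⟩, ?_⟩
      · rw [Set.mem_preimage, (φ_mem h1 h2).2]
        exact ψ_mem j hy
      · show A.φ j (A.ψ i (A.φ i (A.ψ j y))) = y
        rw [(φ_mem h1 h2).2, A.left_inv j y hy]

theorem exists_vol (A : Atl N p q k) : ∃ μ, A.IsVol μ := by
  obtain ⟨l, h0, hl⟩ := glue (Q := fun i => A.M ∩ A.U i) A.GE5b_measQ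
    (m := fun i => (wm (ball (0 : Eu p × Eu q) 1) (A.rho i)).map (A.ψ i)) (fun i => by
      rw [Measure.map_apply (A.ψ_smooth i).continuous.measurable (A.GE5b_measQ i).compl]
      exact measure_mono_null (fun z hz hb => hz (ψ_mem i hb)) (wm_compl measurableSet_ball))
    A.GE5b_compat
  have hM : l A.Mᶜ = 0 :=
    measure_mono_null (Set.compl_subset_compl.2 (Set.iUnion_subset fun i => Set.inter_subset_left)) h0
  refine ⟨l, hM, fun i => Eq.trans (Measure.restrict_congr_set ?_) (hl i)⟩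
  have hae : ∀ᵐ m ∂l, m ∈ A.M := hM
  filter_upwards [hae] with m hm
  exact propext ⟨fun h => ⟨hm, h⟩, fun h => h.2⟩

end Atl

end Pool.Agent.P.MP_e0a138_an.AD
end
end

-- part Pool.Agent.P.MP_e0a138_an.AMain
section

set_option autoImplicit false
set_option linter.unusedSectionVars false
set_option linter.unusedVariables false

open MeasureTheory Filter Topology Metric Complex
open scoped ENNReal NNReal ContDiff InnerProductSpace ComplexConjugate

noncomputable section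
namespace Pool.Agent.P.MP_e0a138_an.AD

variable {N p q k : ℕ} {W : Type} [NormedAddCommGroup W] [InnerProductSpace ℂ W]
  [FiniteDimensional ℂ W] [CompleteSpace W]
variable {A : Atl N p q k} {ε : Eu N →L[ℝ] W →L[ℂ] W}

namespace Atl
variable {DF DH : (Eu N → W) → Eu N → W} {μ : Measure (Eu N)}

theorem Dir.weyl (hD : A.Dir ε μ DF DH) (hε : IsCAR ε) (hμ : A.IsVol μ) {f : ℝ → ℝ}
    (hf : Continuous f) (hfc : HasCompactSupport f) (h0 : ∀ x, 0 ≤ f x)
    {R : ℝ → Lp W 2 μ →L[ℂ] Lp W 2 μ} {l : Fin k → Eu q × Eu q → Measure (Eu N × Eu N)}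
    {S : ∀ i a, Lp W 2 (l i a) →L[ℂ] Lp W 2 (l i a)}
    (hR : ∀ h, IsRes (A.grM ε μ (Dh DF DH h)) (R h))
    (hS : ∀ i, ∀ᵐ a : Eu q × Eu q, a.1 ∈ ball 0 1 →
      A.IsLeaf (i, a) (l i a) ∧ IsRes (A.grL ε DF (i, a) (l i a)) (S i a)) {L : ℝ≥0∞}
    (hL : L = ∑ i, ∫⁻ a in ball 0 1 ×ˢ Set.univ,
      tr ((A.plq (i, a)).indicator fun z => A.χ i z.1) (fc f (S i a))) :
    (∀ i, AEMeasurable (fun a => tr ((A.plq (i, a)).indicator fun z => A.χ i z.1)
      (fc f (S i a))) (lio q)) ∧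
    L ≠ ⊤ ∧ Tendsto (fun h : ℝ => ENNReal.ofReal (h ^ q) * tr (fun _ => 1) (fc f (R h)))
      (𝓝[>] 0) (𝓝 (ENNReal.ofReal ((2 * Real.pi)⁻¹ ^ q) * L)) := by
  obtain ⟨β, hβ, hc, hn⟩ := exists_window (q := q)
  obtain ⟨φ, hφ⟩ : ∃ φ : ℝ → Fin k × Fin (Module.finrank ℂ W) → Eu p × Eu q × Eu q → ℝ≥0∞,
      ∀ h j o, φ h j o =
        ENNReal.ofReal (⟪A.wv ε μ β h j o, fc f (R h) (A.wv ε μ β h j o)⟫_ℂ).re :=
    ⟨_, fun _ _ _ => rfl⟩
  obtain ⟨C, d, hd, h1, h2⟩ := hD.trunc hε hμ hβ hc hn hR hf hfc h0 hφ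
  obtain ⟨o1, o2, o3, o4⟩ := Om_props p q
  obtain ⟨r, C', -, hu⟩ := A.uf_props hε
  have hlim : ∀ i, ∀ᵐ a : Eu q × Eu q, a ∈ ball (0 : Eu q) 1 ×ˢ (Set.univ : Set (Eu q)) →
      ∃ g : Fin (Module.finrank ℂ W) → Eu p → ℝ≥0∞,
        (∀ e x, Tendsto (fun h => φ h (i, e) (x, a)) (𝓝[>] 0) (𝓝 (g e x))) ∧
        ∑ e, ∫⁻ x, g e x = tr ((A.plq (i, a)).indicator fun z => A.χ i z.1) (fc f (S i a)) := by
    intro i
    filter_upwards [hS i, A.ae_hd i] with a ha hb hm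
    obtain ⟨B, hB⟩ := hb hm.1
    obtain ⟨hl, hr⟩ := ha hm.1
    obtain ⟨c, c0, hc1, hc2⟩ := hD.fc_tendsto hε hμ hB hl hβ hc hn hR hr (Ff_props hf hfc h0).1
    refine ⟨_, fun e ξ => ?_,
      hD.leaf_frame (t := (i, a)) hε hm.1 hl c0 hc1 (hD.essSA_leaf hε hμ hB hl) hr hf hfc h0⟩
    simp only [hφ]
    exact hc2 _ (hu i ξ _).1 (hu i ξ _).2.1
  have key := final_limit (measurableSet_ball.prod MeasurableSet.univ) o1 o2 o3 o4
    ENNReal.coe_ne_top h1 hlim hd h2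
  rw [← hL] at key
  refine ⟨key.1, key.2.1, ?_⟩
  have hp : 0 < 2 * Real.pi := by positivity
  refine (ENNReal.Tendsto.const_mul key.2.2 (Or.inr ENNReal.ofReal_ne_top)).congr' ?_
  filter_upwards [self_mem_nhdsWithin] with h hh
  rw [← mul_assoc, ← ENNReal.ofReal_mul (by positivity), ← mul_pow, ← mul_assoc,
    inv_mul_cancel₀ hp.ne', one_mul]

/-- the asymptotic formula for the families `T`, `T'` -/
def Good (A : Atl N p q k) {μ : Measure (Eu N)} {l : Fin k → Eu q × Eu q → Measure (Eu N × Eu N)}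
    (T : ℝ → Op (L2 W μ)) (T' : ∀ i a, Op (L2 W (l i a))) : Prop :=
  ∃ (τ : ℝ → ℂ) (σ : Fin k → Eu q × Eu q → ℂ),
    (∀ᶠ h in 𝓝[>] 0, HasTr (fun _ => 1) (T h) (τ h)) ∧
    (∀ i, Integrable (σ i) (lio q) ∧ ∀ᵐ a ∂lio q,
      HasTr ((A.plq (i, a)).indicator fun z => A.χ i z.1) (T' i a) (σ i a)) ∧
    Tendsto (fun h : ℝ => (h : ℂ) ^ q * τ h) (𝓝[>] 0)
      (𝓝 ((2 * Real.pi : ℂ)⁻¹ ^ q * ∑ i, ∫ a, σ i a ∂lio q))

variable {l : Fin k → Eu q × Eu q → Measure (Eu N × Eu N)}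

theorem Good.add {T U : ℝ → Op (L2 W μ)} {T' U' : ∀ i a, Op (L2 W (l i a))} (h : A.Good T T')
    (h' : A.Good U U') : A.Good (fun h => T h + U h) fun i a => T' i a + U' i a := by
  obtain ⟨τ, σ, a1, a2, a3⟩ := h
  obtain ⟨τ', σ', b1, b2, b3⟩ := h'
  refine ⟨fun h => τ h + τ' h, fun i a => σ i a + σ' i a, ?_, fun i => ⟨?_, ?_⟩, ?_⟩
  · filter_upwards [a1, b1] with h x y using x.add y
  · exact (a2 i).1.add (b2 i).1
  · filter_upwards [(a2 i).2, (b2 i).2] with h x y using x.add y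
  · simp only [integral_add (a2 _).1 (b2 _).1, Finset.sum_add_distrib, mul_add]
    exact a3.add b3

theorem Good.smul {T : ℝ → Op (L2 W μ)} {T' : ∀ i a, Op (L2 W (l i a))} (h : A.Good T T')
    (c : ℂ) : A.Good (fun h => c • T h) fun i a => c • T' i a := by
  obtain ⟨τ, σ, a1, a2, a3⟩ := h
  refine ⟨fun h => c * τ h, fun i a => c * σ i a, ?_, fun i => ⟨?_, ?_⟩, ?_⟩
  · filter_upwards [a1] with h x using x.smul c
  · exact (a2 i).1.const_mul c
  · filter_upwards [(a2 i).2] with h x using x.smul c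
  · simp only [integral_const_mul, ← Finset.mul_sum, mul_left_comm _ c]
    exact a3.const_mul c

theorem hasTr_leaf {l : Measure (Eu N × Eu N)} {t : Tr q k} (ht : t.2.1 ∈ ball (0 : Eu q) 1)
    (hl : A.IsLeaf t l) {G : Set (Lp W 2 l × Lp W 2 l)} (hG : EssSA G)
    {S : Lp W 2 l →L[ℂ] Lp W 2 l} (hS : IsRes G S)
    {f : ℝ → ℝ} (hf : Continuous f) (hfc : HasCompactSupport f) (h0 : ∀ x, 0 ≤ f x)
    (h : tr ((A.plq t).indicator fun z => A.χ t.1 z.1) (fc f S) ≠ ⊤) :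
    HasTr (W := W) (ν := l) ((A.plq t).indicator fun z => A.χ t.1 z.1) (fc f S)
      ((tr ((A.plq t).indicator fun z => A.χ t.1 z.1) (fc f S)).toReal : ℂ) := by
  obtain ⟨C, hC⟩ := fc_sqrt hf hfc h0
  obtain ⟨Q, q1, q2, -⟩ := hC _ S (IsRes.props hG hS).2.2.2.1
  have hw : AEStronglyMeasurable ((A.plq t).indicator fun z : Eu N × Eu N => A.χ t.1 z.1) l :=
    (IsLeaf.aesm ht hl (A.χ_smooth t.1).continuous.continuousOn).indicator (measurableSet_plq t)
  have hb : ∀ᵐ z ∂l, |(A.plq t).indicator (fun z : Eu N × Eu N => A.χ t.1 z.1) z| ≤ 1 :=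
    Eventually.of_forall fun z => by
      by_cases hz : z ∈ A.plq t
      · rw [Set.indicator_of_mem hz]
        exact (sq_le_one_iff_abs_le_one _).1 (χ_sq_le (plq_fst hz).1 t.1)
      · rw [Set.indicator_of_notMem hz, abs_zero]; exact zero_le_one
  exact hasTr_of_tr hw hb q1 q2 h

theorem Dir.good_pos (hD : A.Dir ε μ DF DH) (hε : IsCAR ε) (hμ : A.IsVol μ) {f : ℝ → ℝ}
    (hf : Continuous f) (hfc : HasCompactSupport f) (h0 : ∀ x, 0 ≤ f x)
    {R : ℝ → Lp W 2 μ →L[ℂ] Lp W 2 μ} {S : ∀ i a, Lp W 2 (l i a) →L[ℂ] Lp W 2 (l i a)}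
    (hR : ∀ h, IsRes (A.grM ε μ (Dh DF DH h)) (R h))
    (hS : ∀ i, ∀ᵐ a : Eu q × Eu q, a.1 ∈ ball 0 1 →
      A.IsLeaf (i, a) (l i a) ∧ IsRes (A.grL ε DF (i, a) (l i a)) (S i a)) :
    A.Good (W := W) (μ := μ) (l := l) (fun h => fc f (R h)) fun i a => fc f (S i a) := by
  have hm : MeasurableSet (ball (0 : Eu q) 1 ×ˢ (Set.univ : Set (Eu q))) :=
    measurableSet_ball.prod MeasurableSet.univ
  obtain ⟨Lf, hLf⟩ : ∃ Lf : Fin k → Eu q × Eu q → ℝ≥0∞, ∀ i a, Lf i a =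
      tr ((A.plq (i, a)).indicator fun z => A.χ i z.1) (fc f (S i a)) := ⟨_, fun _ _ => rfl⟩
  obtain ⟨t, ht⟩ : ∃ t : ℝ → ℝ≥0∞, ∀ h, t h = tr (fun _ => 1) (fc f (R h)) := ⟨_, fun _ => rfl⟩
  obtain ⟨k1, k2, k3⟩ := hD.weyl hε hμ hf hfc h0 hR hS (L := ∑ i, ∫⁻ a,
    tr ((A.plq (i, a)).indicator fun z => A.χ i z.1) (fc f (S i a)) ∂lio q) rfl
  simp only [← hLf, ← ht] at k1 k2 k3
  have k4 : ∀ i, ∫⁻ a, Lf i a ∂lio q ≠ ⊤ := fun i => ENNReal.sum_ne_top.1 k2 i (Finset.mem_univ i)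
  have k5 : ∀ i, ∀ᵐ a ∂lio q, Lf i a < ⊤ := fun i => ae_lt_top' (k1 i) (k4 i)
  have k6 := ENNReal.mul_ne_top (ENNReal.ofReal_ne_top (r := (2 * Real.pi)⁻¹ ^ q)) k2
  obtain ⟨C, hC⟩ := fc_sqrt hf hfc h0
  refine ⟨fun h => ((t h).toReal : ℂ), fun i a => ((Lf i a).toReal : ℂ), ?_,
    fun i => ⟨(integrable_toReal_of_lintegral_ne_top (k1 i) (k4 i)).ofReal, ?_⟩, ?_⟩
  · filter_upwards [k3.eventually (gt_mem_nhds k6.lt_top), self_mem_nhdsWithin] with h h1 h2
    obtain ⟨Q, q1, q2, -⟩ := hC _ (R h) (IsRes.props (hD.essSA_M hε hμ h) (hR h)).2.2.2.1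
    have h3 : t h ≠ ⊤ := fun h4 => by
      rw [h4, ENNReal.mul_top (ENNReal.ofReal_pos.2 (pow_pos h2 q)).ne'] at h1
      exact lt_irrefl _ h1
    rw [ht] at h3 ⊢
    exact hasTr_of_tr aestronglyMeasurable_const (C := 1)
      (Eventually.of_forall fun _ => abs_one.le) q1 q2 h3
  · filter_upwards [k5 i, ae_restrict_of_ae (hS i), ae_restrict_of_ae (A.ae_hd i),
      ae_restrict_mem hm] with a h1 h2 h3 h4
    obtain ⟨B, hB⟩ := h3 h4.1
    obtain ⟨hl, hr⟩ := h2 h4.1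
    rw [hLf] at h1 ⊢
    exact hasTr_leaf (t := (i, a)) h4.1 hl (hD.essSA_leaf hε hμ hB hl) hr hf hfc h0 h1.ne
  · have h1 := (continuous_ofReal.tendsto _).comp ((ENNReal.tendsto_toReal k6).comp k3)
    have h2 : ∀ i, ∫ a, ((Lf i a).toReal : ℂ) ∂lio q = ((∫⁻ a, Lf i a ∂lio q).toReal : ℂ) :=
      fun i => by rw [← integral_toReal (k1 i) (k5 i)]; exact integral_complex_ofReal
    simp only [h2]
    rw [ENNReal.toReal_mul, ENNReal.toReal_ofReal (by positivity),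
      ENNReal.toReal_sum fun i _ => k4 i] at h1
    push_cast at h1
    refine h1.congr' ?_
    filter_upwards [self_mem_nhdsWithin] with h hh
    simp only [Function.comp]
    rw [ENNReal.toReal_mul, ENNReal.toReal_ofReal (pow_pos hh q).le]
    push_cast
    rfl

end Atl

theorem main (A : Atl N p q k) (ε : Eu N → Op W) (hε : IsCAR ε) :
    (∃ μ, A.IsVol μ) ∧ (∃ d, A.IsD ε d) ∧ ∀ μ d, A.IsVol μ → A.IsD ε d →
    (∃ δ, A.IsAdj ε μ (A.dc ε d 0) δ) ∧ (∃ δ, A.IsAdj ε μ (A.dc ε d 1) δ) ∧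
    ∀ δF δH, A.IsAdj ε μ (A.dc ε d 0) δF → A.IsAdj ε μ (A.dc ε d 1) δH →
    ∀ (DF : (Eu N → W) → Eu N → W) (D : ℝ → (Eu N → W) → Eu N → W),
    (∀ u m, DF u m = A.dc ε d 0 u m + δF u m) →
    (∀ h u m, D h u m = DF u m + (h : ℂ) • (A.dc ε d 1 u m + δH u m)) →
    (∀ h, EssSA (A.graphM ε μ (D h)) ∧ ∃ R, IsRes (A.graphM ε μ (D h)) R) ∧
    (∀ i, ∀ᵐ a ∂lio q, (∃ l, A.IsLeaf (i, a) l) ∧ ∀ l, A.IsLeaf (i, a) l →
      EssSA (A.graphL ε DF (i, a) l) ∧ ∃ S, IsRes (A.graphL ε DF (i, a) l) S) ∧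
    ∀ f : ℝ → ℂ, Continuous f → HasCompactSupport f → (∀ x, f (-x) = f x) →
    ∀ (R : ℝ → Op (L2 W μ)) (l : Fin k → Eu q × Eu q → Measure (Eu N × Eu N))
      (S : ∀ i a, Op (L2 W (l i a))),
    (∀ h, IsRes (A.graphM ε μ (D h)) (R h)) →
    (∀ i, ∀ᵐ a ∂lio q, A.IsLeaf (i, a) (l i a) ∧ IsRes (A.graphL ε DF (i, a) (l i a)) (S i a)) →
    ∃ (τ : ℝ → ℂ) (σ : Fin k → Eu q × Eu q → ℂ),
      (∀ᶠ h in 𝓝[>] 0, HasTr (fun _ => 1) (fn f (R h)) (τ h)) ∧
      (∀ i, Integrable (σ i) (lio q) ∧ ∀ᵐ a ∂lio q,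
        HasTr ((A.plq (i, a)).indicator fun z => A.χ i z.1) (fn f (S i a)) (σ i a)) ∧
      Tendsto (fun h : ℝ => (h : ℂ) ^ q * τ h) (𝓝[>] 0)
        (𝓝 ((2 * Real.pi : ℂ)⁻¹ ^ q * ∑ i, ∫ a, σ i a ∂lio q)) := by
  obtain ⟨ε, rfl⟩ : ∃ ε' : Eu N →L[ℝ] W →L[ℂ] W, ⇑ε' = ε :=
    ⟨LinearMap.toContinuousLinearMap (hε.1.mk' ε), rfl⟩
  have hm : MeasurableSet (ball (0 : Eu q) 1 ×ˢ (Set.univ : Set (Eu q))) :=
    measurableSet_ball.prod MeasurableSet.univ
  refine ⟨A.exists_vol, A.exists_d hε, fun μ d hμ hd =>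
    ⟨(Atl.exists_adjs hd hε hμ).1, (Atl.exists_adjs hd hε hμ).2, ?_⟩⟩
  intro δF δH hF hH DF D e1 e2
  obtain rfl : DF = fun u => A.dc ε d 0 u + δF u := funext fun u => funext (e1 u)
  have hD := Atl.dir_of_adj hd hε hμ hF hH
  obtain rfl : D = Dh (fun u => A.dc ε d 0 u + δF u) fun u => A.dc ε d 1 u + δH u :=
    funext fun h => funext fun u => funext (e2 h u)
  refine ⟨fun h => ⟨hD.essSA_M hε hμ h, (hD.essSA_M hε hμ h).exists_res⟩, fun i => ?_,
    fun f hf hfc _ R l S hR hS => ?_⟩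
  · refine (ae_restrict_iff' hm).2 ?_
    filter_upwards [A.ae_hd i] with a ha hm
    obtain ⟨B, hB⟩ := ha hm.1
    exact ⟨hB.exists_leaf, fun l hl =>
      ⟨hD.essSA_leaf hε hμ hB hl, (hD.essSA_leaf hε hμ hB hl).exists_res⟩⟩
  · have key : ∀ c, A.Good (W := W) (μ := μ) (l := l) (fun h => fc (pp c f) (R h))
        fun i a => fc (pp c f) (S i a) := fun c =>
      hD.good_pos (R := R) (l := l) (S := S) hε hμ (pp_props c hf hfc).1 (pp_props c hf hfc).2.1
        (pp_props c hf hfc).2.2 hR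
        (fun i => ((ae_restrict_iff' hm).1 (hS i)).mono fun a ha h => ha ⟨h, trivial⟩)
    simp only [fn_eq hf hfc]
    exact (((key 1).add ((key (-1)).smul (-1))).add ((key (-I)).smul I)).add ((key I).smul (-I))

end Pool.Agent.P.MP_e0a138_an.AD
end
end
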