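import Mathlib

-- part Pool.Agent.P.MP_e0a138_an.Basic
section

set_option autoImplicit false

open MeasureTheory Filter Topology Set
open scoped ComplexConjugate

namespace Pool.Agent.P.MP_e0a138_an

theorem ii {E : Type*} [NormedAddCommGroup E] {f : ℝ → E} (hf : Continuous f) (a b : ℝ) :
    IntervalIntegrable f volume a b := hf.intervalIntegrable a b

theorem integral_conj_mul_self {v : ℝ → ℂ} :
    ∫ y in (0 : ℝ)..1, conj (v y) * v y = ((∫ y in (0 : ℝ)..1, ‖v y‖ ^ 2 : ℝ) : ℂ) := by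
  rw [← intervalIntegral.integral_ofReal]
  refine intervalIntegral.integral_congr fun y _ => ?_
  simp only [Complex.conj_mul']
  push_cast; rfl

theorem exists_orthonormal {E : Type*} [AddCommGroup E] [Module ℂ E] [FiniteDimensional ℂ E]
    (φ : E →ₗ[ℂ] (ℝ → ℂ)) (hc : ∀ v, Continuous (φ v))
    (hdef : ∀ v, ∫ y in (0 : ℝ)..1, ‖φ v y‖ ^ 2 = 0 → v = 0) :
    ∃ e : Fin (Module.finrank ℂ E) → E, ∀ i j,
      ∫ y in (0 : ℝ)..1, conj (φ (e i) y) * φ (e j) y = if i = j then 1 else 0 := by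
  let core : InnerProductSpace.Core ℂ E :=
    { inner := fun v w => ∫ y in (0 : ℝ)..1, conj (φ v y) * φ w y
      conj_inner_symm := fun v w => by
        simp only [intervalIntegral.integral_of_le (zero_le_one' ℝ)]
        rw [← integral_conj]
        refine integral_congr_ae (Eventually.of_forall fun y => ?_)
        simp [mul_comm]
      re_inner_nonneg := fun v => by
        rw [integral_conj_mul_self]
        simp only [RCLike.re_to_complex, Complex.ofReal_re]
        exact intervalIntegral.integral_nonneg zero_le_one fun y _ => by positivity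
      add_left := fun v w x => by
        have h1 := hc v; have h2 := hc w; have h3 := hc x
        rw [← intervalIntegral.integral_add (ii (by fun_prop) _ _) (ii (by fun_prop) _ _)]
        refine intervalIntegral.integral_congr fun y _ => ?_
        simp [add_mul]
      smul_left := fun v w r => by
        rw [← intervalIntegral.integral_const_mul]
        refine intervalIntegral.integral_congr fun y _ => ?_
        simp [mul_assoc]
      definite := fun v hv => by
        apply hdef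
        have : ((∫ y in (0 : ℝ)..1, ‖φ v y‖ ^ 2 : ℝ) : ℂ) = 0 := by
          rw [← integral_conj_mul_self]; exact hv
        exact_mod_cast this }
  let : NormedAddCommGroup E := core.toNormedAddCommGroup
  let : InnerProductSpace ℂ E := InnerProductSpace.ofCore core.toCore
  refine ⟨stdOrthonormalBasis ℂ E, fun i j => ?_⟩
  have := orthonormal_iff_ite.1 (stdOrthonormalBasis ℂ E).orthonormal i j
  exact this

/-- A continuous `1`-periodic function with zero `L²` norm on a period vanishes. -/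
theorem eq_zero_of_integral_sq {v : ℝ → ℂ} (hv : Continuous v) (hp : ∀ y, v (y + 1) = v y)
    (h : ∫ y in (0 : ℝ)..1, ‖v y‖ ^ 2 = 0) : v = 0 := by
  have hper : Function.Periodic v 1 := hp
  have h0 : ∀ y ∈ Ioo (0 : ℝ) 1, v y = 0 := by
    intro y hy
    by_contra hne
    have : 0 < ∫ y in (0 : ℝ)..1, ‖v y‖ ^ 2 := by
      apply intervalIntegral.integral_pos zero_lt_one (by fun_prop) (fun y _ => by positivity)
      exact ⟨y, Ioo_subset_Icc_self hy, by positivity⟩
    linarith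
  have h1 : ∀ y ∈ Icc (0 : ℝ) 1, v y = 0 := by
    have hcl : IsClosed {y | v y = 0} := isClosed_eq hv continuous_const
    have := closure_minimal (s := Ioo (0 : ℝ) 1) h0 hcl
    rw [closure_Ioo zero_ne_one] at this
    exact this
  funext y
  have := hper.sub_int_mul_eq (x := y) ⌊y⌋
  rw [mul_one] at this
  rw [← this]
  exact h1 _ ⟨Int.fract_nonneg y, (Int.fract_lt_one y).le⟩

/-- Sobolev bound on `[0,1]`. -/
theorem le_integral_add {g g' : ℝ → ℝ} (hg : ∀ y, HasDerivAt g (g' y) y) (hg' : Continuous g')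
    {y : ℝ} (hy : y ∈ Icc (0 : ℝ) 1) :
    g y ≤ (∫ t in (0 : ℝ)..1, g t) + ∫ t in (0 : ℝ)..1, |g' t| := by
  have hc : Continuous g := continuous_iff_continuousAt.2 fun y => (hg y).continuousAt
  obtain ⟨y0, hy0, hmin⟩ := isCompact_Icc.exists_isMinOn (nonempty_Icc.2 (zero_le_one' ℝ))
    hc.continuousOn
  have h1 : g y0 ≤ ∫ t in (0 : ℝ)..1, g t := by
    have : ∫ _t in (0 : ℝ)..1, g y0 ≤ ∫ t in (0 : ℝ)..1, g t :=
      intervalIntegral.integral_mono_on zero_le_one (ii continuous_const _ _) (ii hc _ _)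
        fun t ht => hmin ht
    simpa using this
  have h2 : ∫ t in y0..y, g' t = g y - g y0 :=
    intervalIntegral.integral_eq_sub_of_hasDerivAt (fun t _ => hg t) (ii hg' _ _)
  have h3 : |∫ t in y0..y, g' t| ≤ ∫ t in (0 : ℝ)..1, |g' t| := by
    have := intervalIntegral.norm_integral_le_abs_integral_norm (f := g') (a := y0) (b := y)
      (μ := volume)
    refine this.trans ?_
    simp only [Real.norm_eq_abs]
    rcases le_total y0 y with hle | hle
    · rw [abs_of_nonneg (intervalIntegral.integral_nonneg hle fun _ _ => abs_nonneg _)]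
      exact intervalIntegral.integral_mono_interval hy0.1 hle hy.2
        (Eventually.of_forall fun _ => abs_nonneg _) (ii hg'.abs _ _)
    · rw [intervalIntegral.integral_symm, abs_neg,
        abs_of_nonneg (intervalIntegral.integral_nonneg hle fun _ _ => abs_nonneg _)]
      exact intervalIntegral.integral_mono_interval hy.1 hle hy0.2
        (Eventually.of_forall fun _ => abs_nonneg _) (ii hg'.abs _ _)
  have := le_abs_self (∫ t in y0..y, g' t)
  linarith

end Pool.Agent.P.MP_e0a138_an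
end

-- part Pool.Agent.P.MP_e0a138_an.Count
section

set_option autoImplicit false

open Module
open scoped ComplexConjugate InnerProductSpace

namespace Pool.Agent.P.MP_e0a138_an

variable {E : Type} [NormedAddCommGroup E] [InnerProductSpace ℂ E]

/-- Every finite-dimensional subspace on which `A` is bounded by `lam` has dimension `≤ n`. -/
def Bd (A : E →ₗ[ℂ] E) (lam n : ℝ) : Prop :=
  ∀ W : Submodule ℂ E, FiniteDimensional ℂ W → (∀ w ∈ W, ‖A w‖ ≤ lam * ‖w‖) →
    (finrank ℂ W : ℝ) ≤ n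

theorem finite_of_bound {V : Type} [AddCommGroup V] [Module ℂ V] {n : ℝ}
    (h : ∀ W : Submodule ℂ V, FiniteDimensional ℂ W → (finrank ℂ W : ℝ) ≤ n) :
    FiniteDimensional ℂ V ∧ (finrank ℂ V : ℝ) ≤ n := by
  have h1 : Module.rank ℂ V ≤ (⌊n⌋₊ : ℕ) := by
    apply rank_le
    intro s hs
    have := h (Submodule.span ℂ (s : Set V)) (FiniteDimensional.span_finset ℂ s)
    rw [finrank_span_finset_eq_card hs] at this
    exact Nat.le_floor this
  have h2 : FiniteDimensional ℂ V :=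
    Module.rank_lt_aleph0_iff.1 (h1.trans_lt (Cardinal.natCast_lt_aleph0))
  refine ⟨h2, ?_⟩
  have := h ⊤ inferInstance
  rwa [finrank_top] at this

theorem Bd.of_injective {A : E →ₗ[ℂ] E} {lam n : ℝ} (h : Bd A lam n) {V : Type} [AddCommGroup V]
    [Module ℂ V] (φ : V →ₗ[ℂ] E) (hφ : Function.Injective φ)
    (hb : ∀ v, ‖A (φ v)‖ ≤ lam * ‖φ v‖) : FiniteDimensional ℂ V ∧ (finrank ℂ V : ℝ) ≤ n := by
  apply finite_of_bound
  intro W hW
  have := h (W.map φ) inferInstance (by rintro _ ⟨v, -, rfl⟩; exact hb v)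
  rwa [← LinearEquiv.finrank_eq (Submodule.equivMapOfInjective φ hφ W)] at this

theorem sum_eigen_le {A A' : E →ₗ[ℂ] E} (hadj : ∀ w z, ⟪A w, z⟫_ℂ = ⟪w, A' z⟫_ℂ) {lam n : ℝ}
    (hlam : 0 ≤ lam) (h : Bd A lam n) (T : Finset ℝ) (hT : ∀ μ ∈ T, μ ^ 2 ≤ lam ^ 2)
    (hinj : ∀ μ ∈ T, ∀ ν ∈ T, μ ^ 2 = ν ^ 2 → μ = ν) :
    (∀ μ ∈ T, FiniteDimensional ℂ (End.eigenspace (A' ∘ₗ A) ((μ ^ 2 : ℝ) : ℂ))) ∧
      ∑ μ ∈ T, (finrank ℂ (End.eigenspace (A' ∘ₗ A) ((μ ^ 2 : ℝ) : ℂ)) : ℝ) ≤ n := by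
  classical
  have hsym : (A' ∘ₗ A).IsSymmetric := by
    intro v w
    simp only [LinearMap.comp_apply]
    rw [← hadj, ← inner_conj_symm, ← hadj, inner_conj_symm]
  let F : T → Submodule ℂ E := fun μ => End.eigenspace (A' ∘ₗ A) (((μ : ℝ) ^ 2 : ℝ) : ℂ)
  have horth : OrthogonalFamily ℂ (fun μ : T => F μ) fun μ => (F μ).subtypeₗᵢ := by
    refine hsym.orthogonalFamily_eigenspaces.comp
      (f := fun μ : T => (((μ : ℝ) ^ 2 : ℝ) : ℂ)) ?_
    intro μ ν hμν
    exact Subtype.ext (hinj _ μ.2 _ ν.2 (Complex.ofReal_injective hμν))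
  let φ : ((μ : T) → F μ) →ₗ[ℂ] E := ∑ μ : T, (F μ).subtype ∘ₗ LinearMap.proj μ
  have hφ : ∀ v, φ v = ∑ μ : T, (F μ).subtypeₗᵢ (v μ) := by
    intro v; simp [φ]
  have hn : ∀ v, ‖φ v‖ ^ 2 = ∑ μ : T, ‖v μ‖ ^ 2 := by
    intro v; rw [hφ]; exact horth.norm_sum v Finset.univ
  have hinjφ : Function.Injective φ := by
    rw [← LinearMap.ker_eq_bot, LinearMap.ker_eq_bot']
    intro v hv
    have h0 := hn v
    rw [hv, norm_zero, zero_pow two_ne_zero] at h0
    have := (Finset.sum_eq_zero_iff_of_nonneg fun _ _ => by positivity).1 h0.symm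
    funext μ
    simpa using this μ (Finset.mem_univ _)
  have hb : ∀ v, ‖A (φ v)‖ ≤ lam * ‖φ v‖ := by
    intro v
    have h1 : A' (A (φ v)) = ∑ μ : T, (F μ).subtypeₗᵢ ((((μ : ℝ) ^ 2 : ℝ) : ℂ) • v μ) := by
      rw [hφ, map_sum, map_sum]
      refine Finset.sum_congr rfl fun μ _ => ?_
      have := End.mem_eigenspace_iff.1 (v μ).2
      simpa using this
    have h2 : ⟪A (φ v), A (φ v)⟫_ℂ = ∑ μ : T, ⟪v μ, (((μ : ℝ) ^ 2 : ℝ) : ℂ) • v μ⟫_ℂ := by
      rw [hadj, h1, hφ]
      exact horth.inner_sum _ _ Finset.univ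
    have h3 : ‖A (φ v)‖ ^ 2 = ∑ μ : T, (μ : ℝ) ^ 2 * ‖v μ‖ ^ 2 := by
      have : ((‖A (φ v)‖ ^ 2 : ℝ) : ℂ) = ((∑ μ : T, (μ : ℝ) ^ 2 * ‖v μ‖ ^ 2 : ℝ) : ℂ) := by
        rw [inner_self_eq_norm_sq_to_K] at h2
        push_cast
        refine h2.trans (Finset.sum_congr rfl fun μ _ => ?_)
        rw [inner_smul_right, inner_self_eq_norm_sq_to_K]
        push_cast; rfl
      exact_mod_cast this
    have h4 : ‖A (φ v)‖ ^ 2 ≤ (lam * ‖φ v‖) ^ 2 := by
      rw [h3, mul_pow, hn, Finset.mul_sum]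
      exact Finset.sum_le_sum fun μ _ =>
        mul_le_mul_of_nonneg_right (hT _ μ.2) (by positivity)
    exact le_of_sq_le_sq h4 (by positivity) |>.trans le_rfl
  obtain ⟨hfin, hle⟩ := h.of_injective φ hinjφ hb
  have hfin' : ∀ μ : T, FiniteDimensional ℂ (F μ) := fun μ =>
    Module.Finite.of_surjective (LinearMap.proj (R := ℂ) (φ := fun μ : T => F μ) μ)
      (LinearMap.proj_surjective μ)
  refine ⟨fun μ hμ => hfin' ⟨μ, hμ⟩, ?_⟩
  rw [Module.finrank_pi_fintype] at hle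
  rw [← Finset.sum_coe_sort]
  exact_mod_cast hle

/-- Eigenpairs of the block operator `[[0, A'], [A, 0]]`. -/
def G (A A' : E →ₗ[ℂ] E) (μ : ℝ) : Submodule ℂ (E × E) where
  carrier := {p | A p.1 = (μ : ℂ) • p.2 ∧ A' p.2 = (μ : ℂ) • p.1}
  add_mem' := fun {p q} hp hq => by
    simp only [Set.mem_ofPred_eq, Prod.fst_add, Prod.snd_add, map_add, hp.1, hp.2, hq.1, hq.2,
      smul_add, and_self]
  zero_mem' := by simp
  smul_mem' := fun c p hp => by
    simp only [Set.mem_ofPred_eq, Prod.smul_fst, Prod.smul_snd, map_smul, hp.1, hp.2,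
      smul_comm c, and_self]

theorem sum_G_le {A A' : E →ₗ[ℂ] E} (hadj : ∀ w z, ⟪A w, z⟫_ℂ = ⟪w, A' z⟫_ℂ) {lam n n0 : ℝ}
    (hlam : 0 ≤ lam) (h : Bd A lam n)
    (h0 : FiniteDimensional ℂ (LinearMap.ker A') ∧ (finrank ℂ (LinearMap.ker A') : ℝ) ≤ n0)
    (T : Finset ℝ) (hT : ∀ μ ∈ T, |μ| ≤ lam) :
    (∀ μ ∈ T, FiniteDimensional ℂ (G A A' μ)) ∧
      ∑ μ ∈ T, (finrank ℂ (G A A' μ) : ℝ) ≤ 2 * n + n0 := by
  classical
  set F : ℝ → Submodule ℂ E := fun μ => End.eigenspace (A' ∘ₗ A) ((μ ^ 2 : ℝ) : ℂ) with hF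
  have hsq : ∀ μ ∈ T, μ ^ 2 ≤ lam ^ 2 := fun μ hμ => sq_le_sq' (abs_le.1 (hT μ hμ)).1
    (abs_le.1 (hT μ hμ)).2
  obtain ⟨f1, s1⟩ := sum_eigen_le hadj hlam h (T.filter (0 ≤ ·))
    (fun μ hμ => hsq μ (Finset.mem_filter.1 hμ).1)
    (fun μ hμ ν hν e => (sq_eq_sq₀ (Finset.mem_filter.1 hμ).2 (Finset.mem_filter.1 hν).2).1 e)
  obtain ⟨f2, s2⟩ := sum_eigen_le hadj hlam h (T.filter (¬ 0 ≤ ·))
    (fun μ hμ => hsq μ (Finset.mem_filter.1 hμ).1)
    (fun μ hμ ν hν e => by
      have a1 := not_le.1 (Finset.mem_filter.1 hμ).2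
      have a2 := not_le.1 (Finset.mem_filter.1 hν).2
      nlinarith [(sq_eq_sq₀ (neg_nonneg.2 a1.le) (neg_nonneg.2 a2.le)).1 (by simpa using e)])
  have fF : ∀ μ ∈ T, FiniteDimensional ℂ (F μ) := by
    intro μ hμ
    by_cases hp : 0 ≤ μ
    · exact f1 μ (Finset.mem_filter.2 ⟨hμ, hp⟩)
    · exact f2 μ (Finset.mem_filter.2 ⟨hμ, hp⟩)
  have sF : ∑ μ ∈ T, (finrank ℂ (F μ) : ℝ) ≤ 2 * n := by
    rw [← Finset.sum_filter_add_sum_filter_not T (0 ≤ ·)]
    linarith
  have hmem : ∀ μ (p : G A A' μ), p.1.1 ∈ F μ := by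
    intro μ p
    rw [hF, End.mem_eigenspace_iff]
    simp only [LinearMap.comp_apply]
    rw [p.2.1, map_smul, p.2.2, smul_smul]
    push_cast; rw [sq]
  have key : ∀ μ ∈ T, FiniteDimensional ℂ (G A A' μ) ∧ (finrank ℂ (G A A' μ) : ℝ) ≤
      finrank ℂ (F μ) + if μ = 0 then n0 else 0 := by
    intro μ hμ
    have := fF μ hμ
    let ψ : G A A' μ →ₗ[ℂ] F μ :=
      LinearMap.codRestrict _ (LinearMap.fst ℂ E E ∘ₗ (G A A' μ).subtype) (hmem μ)
    by_cases hz : μ = 0
    · subst hz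
      have := h0.1
      let χ : G A A' 0 →ₗ[ℂ] LinearMap.ker A' :=
        LinearMap.codRestrict _ (LinearMap.snd ℂ E E ∘ₗ (G A A' 0).subtype)
          (fun p => by simpa using p.2.2)
      have hi : Function.Injective (ψ.prod χ) := by
        intro p q hpq
        have e1 := congrArg (fun x => (x.1 : E)) hpq
        have e2 := congrArg (fun x => (x.2 : E)) hpq
        exact Subtype.ext (Prod.ext e1 e2)
      refine ⟨Module.Finite.of_injective _ hi, ?_⟩
      have := LinearMap.finrank_le_finrank_of_injective hi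
      rw [Module.finrank_prod] at this
      have h3 : (finrank ℂ (G A A' 0) : ℝ) ≤ finrank ℂ (F 0) + finrank ℂ (LinearMap.ker A') := by
        exact_mod_cast this
      simp only [if_true]
      linarith [h0.2]
    · have hi : Function.Injective ψ := by
        rw [← LinearMap.ker_eq_bot, LinearMap.ker_eq_bot']
        intro p hp
        have e1 : p.1.1 = 0 := congrArg Subtype.val hp
        have e2 := p.2.1
        rw [e1, map_zero] at e2
        have e3 : p.1.2 = 0 := by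
          rcases smul_eq_zero.1 e2.symm with h | h
          · exact absurd (by exact_mod_cast h) hz
          · exact h
        exact Subtype.ext (Prod.ext e1 e3)
      refine ⟨Module.Finite.of_injective _ hi, ?_⟩
      simp only [hz, if_false, add_zero]
      exact_mod_cast LinearMap.finrank_le_finrank_of_injective hi
  refine ⟨fun μ hμ => (key μ hμ).1, ?_⟩
  have hn0 : 0 ≤ n0 := le_trans (Nat.cast_nonneg _) h0.2
  calc ∑ μ ∈ T, (finrank ℂ (G A A' μ) : ℝ)
      ≤ ∑ μ ∈ T, ((finrank ℂ (F μ) : ℝ) + if μ = 0 then n0 else 0) :=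
        Finset.sum_le_sum fun μ hμ => (key μ hμ).2
    _ ≤ 2 * n + n0 := by
        rw [Finset.sum_add_distrib, Finset.sum_ite_eq']
        split_ifs <;> linarith

end Pool.Agent.P.MP_e0a138_an
end

-- part Pool.Agent.P.MP_e0a138_an.Per
section

set_option autoImplicit false

open Module MeasureTheory Filter Topology Set
open scoped ComplexConjugate InnerProductSpace ContDiff

namespace Pool.Agent.P.MP_e0a138_an

/-- Smooth `1`-periodic functions. -/
def Psub : Submodule ℂ (ℝ → ℂ) where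
  carrier := {w | ContDiff ℝ ∞ w ∧ ∀ y, w (y + 1) = w y}
  add_mem' := fun {v w} hv hw => ⟨hv.1.add hw.1, fun y => by simp [hv.2 y, hw.2 y]⟩
  zero_mem' := ⟨contDiff_const, fun _ => rfl⟩
  smul_mem' := fun c w hw => ⟨hw.1.const_smul c, fun y => by simp [hw.2 y]⟩

/-- Smooth `1`-periodic functions as a type. -/
def PP : Type := Psub

noncomputable instance : AddCommGroup PP := inferInstanceAs (AddCommGroup Psub)
noncomputable instance : Module ℂ PP := inferInstanceAs (Module ℂ Psub)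

/-- The underlying function. -/
def PP.val (w : PP) : ℝ → ℂ := (w : Psub).1

/-- Constructor. -/
def PP.mk (w : ℝ → ℂ) (h1 : ContDiff ℝ ∞ w) (h2 : ∀ y, w (y + 1) = w y) : PP :=
  (⟨w, h1, h2⟩ : Psub)

@[simp] theorem PP.val_mk (w : ℝ → ℂ) (h1 : ContDiff ℝ ∞ w) (h2 : ∀ y, w (y + 1) = w y) :
    (PP.mk w h1 h2).val = w := rfl
@[simp] theorem PP.val_add (v w : PP) (y : ℝ) : (v + w).val y = v.val y + w.val y := rfl
@[simp] theorem PP.val_sub (v w : PP) (y : ℝ) : (v - w).val y = v.val y - w.val y := rfl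
@[simp] theorem PP.val_neg (v : PP) (y : ℝ) : (-v).val y = -v.val y := rfl
@[simp] theorem PP.val_smul (c : ℂ) (w : PP) (y : ℝ) : (c • w).val y = c * w.val y := rfl
@[simp] theorem PP.val_zero (y : ℝ) : (0 : PP).val y = 0 := rfl
theorem PP.smooth (w : PP) : ContDiff ℝ ∞ w.val := (w : Psub).2.1
theorem PP.per (w : PP) (y : ℝ) : w.val (y + 1) = w.val y := (w : Psub).2.2 y
theorem PP.ext {v w : PP} (h : ∀ y, v.val y = w.val y) : v = w := Subtype.ext (funext h)
@[fun_prop] theorem PP.cont (w : PP) : Continuous w.val := w.smooth.continuous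
theorem PP.diff (w : PP) : Differentiable ℝ w.val := w.smooth.differentiable (by simp)
theorem PP.hasDerivAt (w : PP) (y : ℝ) : HasDerivAt w.val (deriv w.val y) y :=
  (w.diff y).hasDerivAt

theorem PP.val_sum {ι : Type} (s : Finset ι) (v : ι → PP) (y : ℝ) :
    (∑ i ∈ s, v i).val y = ∑ i ∈ s, (v i).val y := by
  classical
  induction s using Finset.induction_on with
  | empty => simp
  | insert i s hi ih => simp [Finset.sum_insert hi, ih]

/-- The `L²` inner product over a period. -/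
@[reducible] noncomputable def PP.core : InnerProductSpace.Core ℂ PP :=
  { inner := fun v w => ∫ y in (0 : ℝ)..1, conj (v.val y) * w.val y
    conj_inner_symm := fun v w => by
      simp only [intervalIntegral.integral_of_le (zero_le_one' ℝ)]
      rw [← integral_conj]
      refine integral_congr_ae (Eventually.of_forall fun y => ?_)
      simp [mul_comm]
    re_inner_nonneg := fun v => by
      rw [integral_conj_mul_self]
      simp only [RCLike.re_to_complex, Complex.ofReal_re]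
      exact intervalIntegral.integral_nonneg zero_le_one fun y _ => by positivity
    add_left := fun v w x => by
      rw [← intervalIntegral.integral_add (ii (by fun_prop) _ _) (ii (by fun_prop) _ _)]
      refine intervalIntegral.integral_congr fun y _ => ?_
      simp [add_mul]
    smul_left := fun v w r => by
      rw [← intervalIntegral.integral_const_mul]
      refine intervalIntegral.integral_congr fun y _ => ?_
      simp [mul_assoc]
    definite := fun v hv => by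
      have : ((∫ y in (0 : ℝ)..1, ‖v.val y‖ ^ 2 : ℝ) : ℂ) = 0 := by
        rw [← integral_conj_mul_self]; exact hv
      have h := eq_zero_of_integral_sq v.cont v.per (by exact_mod_cast this)
      exact PP.ext fun y => by rw [h]; rfl }

noncomputable instance : NormedAddCommGroup PP := PP.core.toNormedAddCommGroup
noncomputable instance : InnerProductSpace ℂ PP := InnerProductSpace.ofCore PP.core.toCore

theorem PP.inner_def (v w : PP) :
    ⟪v, w⟫_ℂ = ∫ y in (0 : ℝ)..1, conj (v.val y) * w.val y := rfl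

theorem PP.norm_sq (v : PP) : ‖v‖ ^ 2 = ∫ y in (0 : ℝ)..1, ‖v.val y‖ ^ 2 := by
  have h := inner_self_eq_norm_sq_to_K (𝕜 := ℂ) v
  rw [PP.inner_def, integral_conj_mul_self] at h
  have : ((‖v‖ ^ 2 : ℝ) : ℂ) = ((∫ y in (0 : ℝ)..1, ‖v.val y‖ ^ 2 : ℝ) : ℂ) := by
    rw [h]; push_cast; rfl
  exact_mod_cast this

theorem deriv_per {F : Type} [NormedAddCommGroup F] [NormedSpace ℝ F] {w : ℝ → F}
    (h : ∀ y, w (y + 1) = w y) (y : ℝ) : deriv w (y + 1) = deriv w y := by
  rw [← deriv_comp_add_const]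
  congr 1
  exact funext h

/-- The derivative. -/
noncomputable def dP : PP →ₗ[ℂ] PP where
  toFun w := PP.mk (deriv w.val) (w.smooth.iterate_deriv 1) (deriv_per w.per)
  map_add' v w := PP.ext fun y => ((v.hasDerivAt y).add (w.hasDerivAt y)).deriv
  map_smul' c w := PP.ext fun y => ((w.hasDerivAt y).const_mul c).deriv

@[simp] theorem dP_val (w : PP) : (dP w).val = deriv w.val := rfl

/-- Multiplication operator. -/
noncomputable def mP (c : PP) : PP →ₗ[ℂ] PP where
  toFun w := PP.mk (fun y => c.val y * w.val y) (c.smooth.mul w.smooth)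
    (fun y => by rw [c.per, w.per])
  map_add' v w := PP.ext fun y => by simp [mul_add]
  map_smul' r w := PP.ext fun y => by simp; ring

@[simp] theorem mP_val (c w : PP) (y : ℝ) : (mP c w).val y = c.val y * w.val y := rfl

theorem integral_deriv_per {F : Type} [NormedAddCommGroup F] [NormedSpace ℝ F] [CompleteSpace F]
    {g g' : ℝ → F} (hg : ∀ y, HasDerivAt g (g' y) y) (hc : Continuous g') (hp : g 1 = g 0) :
    ∫ y in (0 : ℝ)..1, g' y = 0 := by
  rw [intervalIntegral.integral_eq_sub_of_hasDerivAt (fun t _ => hg t) (ii hc _ _), hp, sub_self]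

theorem inner_dP (v w : PP) : ⟪dP v, w⟫_ℂ = -⟪v, dP w⟫_ℂ := by
  have hv := (dP v).cont
  have hw := (dP w).cont
  rw [eq_neg_iff_add_eq_zero, PP.inner_def, PP.inner_def,
    ← intervalIntegral.integral_add (ii (by fun_prop) _ _) (ii (by fun_prop) _ _)]
  refine integral_deriv_per (g := fun y => conj (v.val y) * w.val y) (fun y => ?_) (by fun_prop) ?_
  · exact ((v.hasDerivAt y).star).mul (w.hasDerivAt y)
  · have h1 := v.per 0
    have h2 := w.per 0
    rw [zero_add] at h1 h2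
    simp only [h1, h2]

/-- Hypotheses on the slope `a`. -/
structure Good (a : ℝ → ℝ) : Prop where
  smooth : ContDiff ℝ ∞ a
  per : ∀ y, a (y + 1) = a y
  nonneg : ∀ y, 0 ≤ a y
  le_one : ∀ y, a y ≤ 1
  deriv_le : ∀ y, |deriv a y| ≤ 1

/-- The coefficient `a + i s`. -/
noncomputable def cP {a : ℝ → ℝ} (ha : Good a) (s : ℝ) : PP :=
  PP.mk (fun y => a y + Complex.I * s)
    ((Complex.ofRealCLM.contDiff.comp ha.smooth).add contDiff_const) (fun y => by rw [ha.per])

@[simp] theorem cP_val {a : ℝ → ℝ} (ha : Good a) (s y : ℝ) :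
    (cP ha s).val y = a y + Complex.I * s := rfl

/-- `A w = (a + i s) w' + i κ w`. -/
noncomputable def opA {a : ℝ → ℝ} (ha : Good a) (s κ : ℝ) : PP →ₗ[ℂ] PP :=
  mP (cP ha s) ∘ₗ dP + (Complex.I * κ) • LinearMap.id

/-- The adjoint `A' z = -((a - i s) z)' - i κ z`. -/
noncomputable def opA' {a : ℝ → ℝ} (ha : Good a) (s κ : ℝ) : PP →ₗ[ℂ] PP :=
  -(dP ∘ₗ mP (cP ha (-s))) - (Complex.I * κ) • LinearMap.id

theorem opA_val {a : ℝ → ℝ} (ha : Good a) (s κ : ℝ) (w : PP) (y : ℝ) :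
    (opA ha s κ w).val y = (a y + Complex.I * s) * deriv w.val y + Complex.I * κ * w.val y := rfl

theorem opA'_val {a : ℝ → ℝ} (ha : Good a) (s κ : ℝ) (z : PP) (y : ℝ) :
    (opA' ha s κ z).val y = -((a y - Complex.I * s) * deriv z.val y) - deriv a y * z.val y
      - Complex.I * κ * z.val y := by
  have h1 : HasDerivAt (fun y => (a y : ℂ) + Complex.I * (-s : ℝ)) (deriv a y : ℝ) y :=
    ((ha.smooth.differentiable (by simp) y).hasDerivAt.ofReal_comp).add_const _
  have h2 := (h1.mul (z.hasDerivAt y)).deriv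
  have h3 : (opA' ha s κ z).val y = -deriv (fun y => ((a y : ℂ) + Complex.I * (-s : ℝ)) * z.val y) y
      - Complex.I * κ * z.val y := rfl
  rw [h3]
  erw [h2]
  push_cast; ring

theorem opA_adj {a : ℝ → ℝ} (ha : Good a) (s κ : ℝ) (w z : PP) :
    ⟪opA ha s κ w, z⟫_ℂ = ⟪w, opA' ha s κ z⟫_ℂ := by
  have h1 : ⟪mP (cP ha s) (dP w), z⟫_ℂ = ⟪dP w, mP (cP ha (-s)) z⟫_ℂ := by
    rw [PP.inner_def, PP.inner_def]
    refine intervalIntegral.integral_congr fun y _ => ?_
    simp; ring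
  simp only [opA, opA', LinearMap.add_apply, LinearMap.comp_apply, LinearMap.smul_apply,
    LinearMap.id_apply, LinearMap.sub_apply, LinearMap.neg_apply, inner_add_left, inner_sub_right,
    inner_neg_right, inner_smul_left, inner_smul_right, h1, inner_dP]
  simp; ring

theorem ker_opA' {a : ℝ → ℝ} (ha : Good a) {s : ℝ} (hs : s ≠ 0) (κ : ℝ) {lam n : ℝ}
    (hlam : 0 ≤ lam) (h : Bd (opA ha (-s) κ) lam n) :
    FiniteDimensional ℂ (LinearMap.ker (opA' ha s κ)) ∧
      (finrank ℂ (LinearMap.ker (opA' ha s κ)) : ℝ) ≤ n := by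
  refine h.of_injective (mP (cP ha (-s)) ∘ₗ (LinearMap.ker (opA' ha s κ)).subtype) ?_ ?_
  · rw [← LinearMap.ker_eq_bot, LinearMap.ker_eq_bot']
    intro z hz
    refine Subtype.ext (PP.ext fun y => ?_)
    have := congrArg (fun v : PP => v.val y) hz
    simp only [LinearMap.comp_apply, mP_val, cP_val, PP.val_zero, mul_eq_zero] at this
    rcases this with h | h
    · have := congrArg Complex.im h
      simp at this
      exact absurd this hs
    · exact h
  · intro z
    have : opA ha (-s) κ (mP (cP ha (-s)) z.1) = 0 := by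
      refine PP.ext fun y => ?_
      have h1 := congrArg (fun v : PP => v.val y) z.2
      have h2 : (opA' ha s κ z.1).val y = -deriv (mP (cP ha (-s)) z.1).val y
        - Complex.I * κ * z.1.val y := rfl
      simp only [h2, PP.val_zero] at h1
      rw [opA_val, mP_val, cP_val, PP.val_zero]
      linear_combination (-((a y : ℂ) + Complex.I * (-s : ℝ))) * h1
    simp only [LinearMap.comp_apply, Submodule.subtype_apply, this, norm_zero]
    positivity

end Pool.Agent.P.MP_e0a138_an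
end

-- part Pool.Agent.P.MP_e0a138_an.OneD
section

set_option autoImplicit false

open Module MeasureTheory Filter Topology Set Real
open scoped ComplexConjugate InnerProductSpace ContDiff

namespace Pool.Agent.P.MP_e0a138_an

theorem memLp_Ioc {v : ℝ → ℂ} (hv : Continuous v) :
    MemLp v 2 (volume.restrict (Ioc (0 : ℝ) 1)) := by
  obtain ⟨C, hC⟩ := isCompact_Icc.exists_bound_of_continuousOn (s := Icc (0 : ℝ) 1) hv.continuousOn
  refine MemLp.of_bound hv.aestronglyMeasurable C ?_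
  rw [ae_restrict_iff' measurableSet_Ioc]
  exact Eventually.of_forall fun y hy => hC y (Ioc_subset_Icc_self hy)

theorem PP.hasSum (w : PP) :
    HasSum (fun n : ℤ => ‖fourierCoeffOn zero_lt_one w.val n‖ ^ 2) (‖w‖ ^ 2) := by
  have := hasSum_sq_fourierCoeffOn zero_lt_one (memLp_Ioc w.cont)
  rw [w.norm_sq]
  simpa using this

/-- The Fourier coefficient as a linear map. -/
noncomputable def coefP (n : ℤ) : PP →ₗ[ℂ] ℂ where
  toFun w := fourierCoeffOn zero_lt_one w.val n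
  map_add' v w := by
    have hc : Continuous fun x : ℝ => fourier (-n) (x : AddCircle ((1 : ℝ) - 0)) :=
      (map_continuous (fourier (-n))).comp (AddCircle.continuous_mk' _)
    simp only [fourierCoeffOn_eq_integral, PP.val_add, smul_add]
    rw [intervalIntegral.integral_add (ii (by fun_prop) _ _) (ii (by fun_prop) _ _), smul_add]
  map_smul' c w := by
    simp only [fourierCoeffOn_eq_integral, PP.val_smul, smul_eq_mul, RingHom.id_apply]
    simp only [mul_left_comm _ c, intervalIntegral.integral_const_mul]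
    simp

theorem coef_dP (w : PP) {n : ℤ} (hn : n ≠ 0) :
    ‖fourierCoeffOn zero_lt_one (dP w).val n‖ =
      2 * π * |(n : ℝ)| * ‖fourierCoeffOn zero_lt_one w.val n‖ := by
  have h := fourierCoeffOn_of_hasDerivAt zero_lt_one hn (fun x _ => w.hasDerivAt x)
    (ii (dP w).cont _ _)
  have h1 := w.per 0
  rw [zero_add] at h1
  rw [h, h1]
  have hn' : (0 : ℝ) < |(n : ℝ)| := abs_pos.2 (by exact_mod_cast hn)
  simp [abs_of_pos pi_pos]
  field_simp

theorem bd_zero {a : ℝ → ℝ} (ha : Good a) {s : ℝ} (hs : s ≠ 0) {lam : ℝ} (hlam : 0 ≤ lam) :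
    Bd (opA ha s 0) lam (lam / (π * |s|) + 1) := by
  intro W hW hb
  have hs' : 0 < |s| := abs_pos.2 hs
  set M : ℕ := ⌊lam / (2 * π * |s|)⌋₊ with hM
  let ψ : W →ₗ[ℂ] (Finset.Icc (-(M : ℤ)) M → ℂ) :=
    LinearMap.pi fun n => coefP n ∘ₗ W.subtype
  have hψ : Function.Injective ψ := by
    rw [← LinearMap.ker_eq_bot, LinearMap.ker_eq_bot']
    intro w hw
    have h1 : (2 * π * (M + 1)) ^ 2 * ‖w.1‖ ^ 2 ≤ ‖dP w.1‖ ^ 2 := by
      refine hasSum_le (fun n => ?_) (w.1.hasSum.mul_left _) (dP w.1).hasSum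
      by_cases hn : n ∈ Finset.Icc (-(M : ℤ)) M
      · have : fourierCoeffOn zero_lt_one w.1.val n = 0 := congrFun hw ⟨n, hn⟩
        rw [this]; simp
      · rw [Finset.mem_Icc] at hn
        have hn1 : (M : ℤ) + 1 ≤ |n| := by
          rcases le_total 0 n with h | h
          · rw [abs_of_nonneg h]; omega
          · rw [abs_of_nonpos h]; omega
        have hn0 : n ≠ 0 := by rintro rfl; simp at hn
        have hn2 : (M : ℝ) + 1 ≤ |(n : ℝ)| := by exact_mod_cast hn1
        rw [coef_dP _ hn0, mul_pow (2 * π * |(n : ℝ)|)]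
        gcongr
    have h2 : s ^ 2 * ‖dP w.1‖ ^ 2 ≤ ‖opA ha s 0 w.1‖ ^ 2 := by
      have := (dP w.1).cont
      have := (opA ha s 0 w.1).cont
      rw [PP.norm_sq, PP.norm_sq, ← intervalIntegral.integral_const_mul]
      refine intervalIntegral.integral_mono_on zero_le_one (ii (by fun_prop) _ _)
        (ii (by fun_prop) _ _) fun y _ => ?_
      rw [opA_val]
      simp only [Complex.ofReal_zero, mul_zero, zero_mul, add_zero, norm_mul, mul_pow, dP_val]
      refine mul_le_mul_of_nonneg_right ?_ (by positivity)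
      rw [Complex.sq_norm, Complex.normSq_apply]
      simp
      nlinarith [sq_nonneg (a y)]
    have h3 : ‖opA ha s 0 w.1‖ ^ 2 ≤ lam ^ 2 * ‖w.1‖ ^ 2 := by
      rw [← mul_pow]; gcongr; exact hb _ w.2
    have h4 : lam < 2 * π * |s| * (M + 1) := by
      have := Nat.lt_floor_add_one (lam / (2 * π * |s|))
      rw [div_lt_iff₀ (by positivity)] at this
      linarith
    have h5 : lam ^ 2 < s ^ 2 * (2 * π * (M + 1)) ^ 2 := by
      rw [← sq_abs s, ← mul_pow]
      gcongr; linarith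
    have h6 : ‖w.1‖ ^ 2 ≤ 0 := by
      by_contra hc
      push Not at hc
      nlinarith [mul_le_mul_of_nonneg_left h1 (sq_nonneg s), mul_lt_mul_of_pos_right h5 hc]
    have : ‖w.1‖ = 0 := by nlinarith [norm_nonneg w.1]
    exact Subtype.ext (norm_eq_zero.1 this)
  have h1 := LinearMap.finrank_le_finrank_of_injective hψ
  rw [Module.finrank_fintype_fun_eq_card, Fintype.card_coe, Int.card_Icc] at h1
  have h2 : finrank ℂ W ≤ 2 * M + 1 := by omega
  have h3 : (finrank ℂ W : ℝ) ≤ 2 * M + 1 := by exact_mod_cast h2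
  have h4 : (M : ℝ) ≤ lam / (2 * π * |s|) := Nat.floor_le (by positivity)
  have h5 : 2 * (lam / (2 * π * |s|)) = lam / (π * |s|) := by field_simp
  linarith

/-- The potential. -/
noncomputable def pot (a : ℝ → ℝ) (s κ y : ℝ) : ℝ := κ ^ 2 * s ^ 2 / (a y ^ 2 + s ^ 2)

/-- The gauged derivative. -/
noncomputable def gau (a : ℝ → ℝ) (s κ : ℝ) (w : PP) (y : ℝ) : ℂ :=
  deriv w.val y + Complex.I * (κ * a y / (a y ^ 2 + s ^ 2) : ℝ) * w.val y

theorem hasDerivAt_normSq (w : PP) (y : ℝ) :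
    HasDerivAt (fun y => ‖w.val y‖ ^ 2) (2 * (conj (w.val y) * deriv w.val y).re) y := by
  have := (w.hasDerivAt y).norm_sq
  simpa [mul_comm] using this

theorem energy {a : ℝ → ℝ} (ha : Good a) {s : ℝ} (hs : s ≠ 0) (κ : ℝ) (w : PP) :
    ‖opA ha s κ w‖ ^ 2 = (∫ y in (0 : ℝ)..1, (a y ^ 2 + s ^ 2) * ‖gau a s κ w y‖ ^ 2) +
      ∫ y in (0 : ℝ)..1, pot a s κ y * ‖w.val y‖ ^ 2 := by
  have hac := ha.smooth.continuous
  have hρ : ∀ y, a y ^ 2 + s ^ 2 ≠ 0 := fun y => by positivity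
  have hw' : Continuous (deriv w.val) := (dP w).cont
  have hg : Continuous (gau a s κ w) := by
    unfold gau; fun_prop (disch := exact hρ _)
  have hp : Continuous (pot a s κ) := by
    unfold pot; fun_prop (disch := exact hρ _)
  have h0 : ∫ y in (0 : ℝ)..1, κ * s * (2 * (conj (w.val y) * deriv w.val y).re) = 0 := by
    rw [intervalIntegral.integral_const_mul,
      integral_deriv_per (hasDerivAt_normSq w) (by fun_prop), mul_zero]
    have h1 := w.per 0
    rw [zero_add] at h1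
    simp only [h1]
  rw [PP.norm_sq]
  refine Eq.trans ?_ ((congrArg (_ + ·) h0).trans (add_zero _))
  rw [← intervalIntegral.integral_add (ii (by fun_prop) _ _) (ii (by fun_prop) _ _),
    ← intervalIntegral.integral_add (ii (by fun_prop) _ _) (ii (by fun_prop) _ _)]
  refine intervalIntegral.integral_congr fun y _ => ?_
  have := hρ y
  simp only [opA_val, gau, pot, Complex.sq_norm, Complex.normSq_apply, Complex.add_re,
    Complex.add_im, Complex.mul_re, Complex.mul_im, Complex.ofReal_re, Complex.ofReal_im,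
    Complex.I_re, Complex.I_im, Complex.conj_re, Complex.conj_im]
  field_simp
  ring

theorem pointwise {a : ℝ → ℝ} (ha : Good a) {s : ℝ} (hs : s ≠ 0) (hs1 : |s| ≤ 1) (κ : ℝ) (w : PP)
    (hw : ‖opA ha s κ w‖ ≤ 6 * ‖w‖) {y : ℝ} (hy : y ∈ Icc (0 : ℝ) 1) :
    (a y + |s|) * ‖w.val y‖ ^ 2 ≤ 76 * ‖w‖ ^ 2 := by
  have hac := ha.smooth.continuous
  have hac' : Continuous (deriv a) := ha.smooth.continuous_deriv (by simp)
  have hρ : ∀ y, a y ^ 2 + s ^ 2 ≠ 0 := fun y => by positivity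
  have hw' : Continuous (deriv w.val) := (dP w).cont
  have hg : Continuous (gau a s κ w) := by
    unfold gau; fun_prop (disch := exact hρ _)
  have h1 := le_integral_add (g := fun y => (a y + |s|) * ‖w.val y‖ ^ 2)
    (g' := fun y => deriv a y * ‖w.val y‖ ^ 2 +
      (a y + |s|) * (2 * (conj (w.val y) * deriv w.val y).re))
    (fun y => (((ha.smooth.differentiable (by simp) y).hasDerivAt).add_const _).mul
      (hasDerivAt_normSq w y)) (by fun_prop) hy
  have h2 : ∫ t in (0 : ℝ)..1, (a t + |s|) * ‖w.val t‖ ^ 2 ≤ 2 * ‖w‖ ^ 2 := by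
    rw [PP.norm_sq, ← intervalIntegral.integral_const_mul]
    refine intervalIntegral.integral_mono_on zero_le_one (ii (by fun_prop) _ _)
      (ii (by fun_prop) _ _) fun y _ => ?_
    gcongr; linarith [ha.le_one y]
  have h3 : ∫ t in (0 : ℝ)..1, |deriv a t * ‖w.val t‖ ^ 2 +
      (a t + |s|) * (2 * (conj (w.val t) * deriv w.val t).re)| ≤
      2 * ‖w‖ ^ 2 + 2 * ∫ y in (0 : ℝ)..1, (a y ^ 2 + s ^ 2) * ‖gau a s κ w y‖ ^ 2 := by
    rw [PP.norm_sq, ← intervalIntegral.integral_const_mul, ← intervalIntegral.integral_const_mul,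
      ← intervalIntegral.integral_add (ii (by fun_prop) _ _) (ii (by fun_prop) _ _)]
    refine intervalIntegral.integral_mono_on zero_le_one (ii (by fun_prop) _ _)
      (ii (by fun_prop) _ _) fun t _ => ?_
    have e1 : (conj (w.val t) * deriv w.val t).re = (conj (w.val t) * gau a s κ w t).re := by
      simp only [gau, Complex.add_re, Complex.add_im, Complex.mul_re, Complex.mul_im,
        Complex.ofReal_re, Complex.ofReal_im, Complex.I_re, Complex.I_im, Complex.conj_re,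
        Complex.conj_im]
      ring
    have e2 : |(conj (w.val t) * gau a s κ w t).re| ≤ ‖w.val t‖ * ‖gau a s κ w t‖ := by
      refine (Complex.abs_re_le_norm _).trans ?_
      simp
    have hr : 0 ≤ a t + |s| := by linarith [ha.nonneg t, abs_nonneg s]
    have e3 : (a t + |s|) ^ 2 ≤ 2 * (a t ^ 2 + s ^ 2) := by
      rw [← sq_abs s]; nlinarith [sq_nonneg (a t - |s|)]
    rw [e1]
    refine (abs_add_le _ _).trans ?_
    rw [abs_mul, abs_mul, abs_mul, abs_of_nonneg hr, abs_of_nonneg (sq_nonneg ‖w.val t‖), abs_two]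
    have e4 : |deriv a t| * ‖w.val t‖ ^ 2 ≤ 1 * ‖w.val t‖ ^ 2 := by
      gcongr; exact ha.deriv_le t
    have e5 : (a t + |s|) * (2 * |(conj (w.val t) * gau a s κ w t).re|) ≤
        (a t + |s|) * (2 * (‖w.val t‖ * ‖gau a s κ w t‖)) := by gcongr
    nlinarith [sq_nonneg (‖w.val t‖ - (a t + |s|) * ‖gau a s κ w t‖),
      mul_le_mul_of_nonneg_right e3 (sq_nonneg ‖gau a s κ w t‖)]
  have h4 := energy ha hs κ w
  have h5 : 0 ≤ ∫ y in (0 : ℝ)..1, pot a s κ y * ‖w.val y‖ ^ 2 :=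
    intervalIntegral.integral_nonneg zero_le_one fun y _ => by unfold pot; positivity
  have h6 : ‖opA ha s κ w‖ ^ 2 ≤ (6 * ‖w‖) ^ 2 := by gcongr
  nlinarith

/-- The bound for one mode. -/
noncomputable def nk (a : ℝ → ℝ) (s κ : ℝ) : ℝ :=
  38 * ∫ y in (0 : ℝ)..1, max (38 - pot a s κ y) 0 / (a y + |s|)

theorem bd_mode {a : ℝ → ℝ} (ha : Good a) {s : ℝ} (hs : s ≠ 0) (hs1 : |s| ≤ 1) (κ : ℝ) :
    Bd (opA ha s κ) 6 (nk a s κ) := by
  intro W hW hb
  have hac := ha.smooth.continuous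
  have hρ : ∀ y, a y ^ 2 + s ^ 2 ≠ 0 := fun y => by positivity
  have hr : ∀ y, 0 < a y + |s| := fun y => by linarith [ha.nonneg y, abs_pos.2 hs]
  have hp : Continuous (pot a s κ) := by
    unfold pot; fun_prop (disch := exact hρ _)
  let b := stdOrthonormalBasis ℂ W
  let e : Fin (finrank ℂ W) → PP := fun j => (b j).1
  have he : Orthonormal ℂ e := b.orthonormal.comp_linearIsometry W.subtypeₗᵢ
  have hS : ∀ y ∈ Icc (0 : ℝ) 1, (a y + |s|) * ∑ j, ‖(e j).val y‖ ^ 2 ≤ 76 := by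
    intro y hy
    set S := ∑ j, ‖(e j).val y‖ ^ 2 with hSdef
    have hS0 : 0 ≤ S := Finset.sum_nonneg fun _ _ => by positivity
    let w : PP := ∑ j, conj ((e j).val y) • e j
    have hwW : w ∈ W := W.sum_mem fun j _ => W.smul_mem _ (b j).2
    have h1 : w.val y = S := by
      simp only [w, PP.val_sum, PP.val_smul, hSdef, Complex.conj_mul']
      push_cast; rfl
    have h2 : ‖w‖ ^ 2 = S := by
      have := he.inner_sum (fun j => conj ((e j).val y)) (fun j => conj ((e j).val y)) Finset.univ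
      rw [inner_self_eq_norm_sq_to_K] at this
      have h3 : ((‖w‖ ^ 2 : ℝ) : ℂ) = S := by
        push_cast
        refine this.trans ?_
        simp only [hSdef, Complex.conj_conj, Complex.mul_conj']
        push_cast; rfl
      exact_mod_cast h3
    have h3 := pointwise ha hs hs1 κ w (hb w hwW) hy
    rw [h1, h2, Complex.norm_real, Real.norm_eq_abs, sq_abs] at h3
    rcases hS0.eq_or_lt with h | h
    · rw [← h]; norm_num
    · nlinarith
  have h1 : ∀ j, 2 ≤ ∫ y in (0 : ℝ)..1, (38 - pot a s κ y) * ‖(e j).val y‖ ^ 2 := by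
    intro j
    have e1 := energy ha hs κ (e j)
    have e2 : 0 ≤ ∫ y in (0 : ℝ)..1, (a y ^ 2 + s ^ 2) * ‖gau a s κ (e j) y‖ ^ 2 :=
      intervalIntegral.integral_nonneg zero_le_one fun y _ => by positivity
    have e3 : ‖opA ha s κ (e j)‖ ^ 2 ≤ (6 * ‖e j‖) ^ 2 := by gcongr; exact hb _ (b j).2
    have e4 := (e j).norm_sq
    rw [he.1 j] at e3 e4
    simp only [sub_mul]
    rw [intervalIntegral.integral_sub (ii (by fun_prop) _ _) (ii (by fun_prop) _ _),
      intervalIntegral.integral_const_mul]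
    nlinarith
  have h2 : ∑ j, ∫ y in (0 : ℝ)..1, (38 - pot a s κ y) * ‖(e j).val y‖ ^ 2 ≤ 2 * nk a s κ := by
    rw [← intervalIntegral.integral_finsetSum fun j _ => ii (by fun_prop) _ _, nk, ← mul_assoc,
      ← intervalIntegral.integral_const_mul]
    refine intervalIntegral.integral_mono_on zero_le_one (ii (by fun_prop) _ _)
      (ii (by fun_prop (disch := exact fun y => (hr y).ne')) _ _) fun y hy => ?_
    rw [← Finset.mul_sum]
    have hS0 : 0 ≤ ∑ j, ‖(e j).val y‖ ^ 2 := Finset.sum_nonneg fun _ _ => by positivity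
    have e1 : ∑ j, ‖(e j).val y‖ ^ 2 ≤ 76 / (a y + |s|) := by
      rw [le_div_iff₀ (hr y), mul_comm]; exact hS y hy
    calc (38 - pot a s κ y) * ∑ j, ‖(e j).val y‖ ^ 2
        ≤ max (38 - pot a s κ y) 0 * ∑ j, ‖(e j).val y‖ ^ 2 := by gcongr; exact le_max_left _ _
      _ ≤ max (38 - pot a s κ y) 0 * (76 / (a y + |s|)) := by gcongr
      _ = _ := by ring
  have h3 := Finset.sum_le_sum fun j (_ : j ∈ Finset.univ) => h1 j
  simp only [Finset.sum_const, Finset.card_univ, Fintype.card_fin, nsmul_eq_mul] at h3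
  linarith

theorem nk_eq_zero {a : ℝ → ℝ} (ha : Good a) {s : ℝ} (hs : s ≠ 0) (hs1 : |s| ≤ 1) {k : ℤ}
    (hk : 2 / |s| ≤ |(k : ℝ)|) : nk a s (2 * π * k) = 0 := by
  have : ∀ y, max (38 - pot a s (2 * π * k) y) 0 = 0 := by
    intro y
    apply max_eq_right
    rw [sub_nonpos, pot, le_div_iff₀ (by positivity)]
    rw [div_le_iff₀ (abs_pos.2 hs)] at hk
    have h1 : (2 : ℝ) ^ 2 ≤ (|(k : ℝ)| * |s|) ^ 2 := by gcongr
    rw [mul_pow, sq_abs, sq_abs] at h1
    have h2 : a y ^ 2 ≤ 1 := by nlinarith [ha.nonneg y, ha.le_one y]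
    have h3 : s ^ 2 ≤ 1 := by rw [← sq_abs]; nlinarith [abs_nonneg s]
    have h4 : 9 ≤ π ^ 2 := by nlinarith [pi_gt_three]
    nlinarith [mul_le_mul h4 h1 (by norm_num) (by positivity)]
  simp [nk, this]

theorem sum_nk_le {a : ℝ → ℝ} (ha : Good a) {s : ℝ} (hs : s ≠ 0) (T : Finset ℤ) (hT : 0 ∉ T) :
    ∑ k ∈ T, nk a s (2 * π * k) ≤
      2888 / |s| * ∫ y in (0 : ℝ)..1, ({y | a y ≠ 0} : Set ℝ).indicator (fun _ => (1 : ℝ)) y := by
  have hac := ha.smooth.continuous
  have hs' := abs_pos.2 hs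
  have hρ : ∀ y, a y ^ 2 + s ^ 2 ≠ 0 := fun y => by positivity
  have hr : ∀ y, 0 < a y + |s| := fun y => by linarith [ha.nonneg y]
  have hp : ∀ κ, Continuous (pot a s κ) := fun κ => by
    unfold pot; fun_prop (disch := exact hρ _)
  have hm : MeasurableSet {y | a y ≠ 0} := (isOpen_ne_fun hac continuous_const).measurableSet
  simp only [nk]
  rw [← Finset.mul_sum, ← intervalIntegral.integral_finsetSum
    fun j _ => ii (by fun_prop (disch := exact fun y => (hr y).ne')) _ _,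
    show 2888 / |s| = 38 * (76 / |s|) by ring, mul_assoc, ← intervalIntegral.integral_const_mul (76 / |s|)]
  refine mul_le_mul_of_nonneg_left ?_ (by norm_num)
  refine intervalIntegral.integral_mono_on zero_le_one
    (ii (by fun_prop (disch := exact fun y => (hr y).ne')) _ _) ?_ fun y _ => ?_
  · refine IntervalIntegrable.const_mul ?_ _
    rw [intervalIntegrable_iff]
    exact (integrableOn_const (by simp)).indicator hm
  have hpi : 38 < 4 * π ^ 2 := by nlinarith [pi_gt_d2]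
  have hz : ∀ k : ℤ, a y ^ 2 + s ^ 2 ≤ (k : ℝ) ^ 2 * s ^ 2 →
      max (38 - pot a s (2 * π * k) y) 0 = 0 := by
    intro k hk
    apply max_eq_right
    rw [sub_nonpos, pot, le_div_iff₀ (by positivity)]
    nlinarith [mul_le_mul hpi.le hk (by positivity) (by positivity)]
  by_cases h0 : a y = 0
  · rw [indicator_of_notMem (by simpa using h0), mul_zero]
    refine (Finset.sum_eq_zero fun k hk => ?_).le
    rw [hz, zero_div]
    have hk0 : k ≠ 0 := fun h => hT (h ▸ hk)
    have : (1 : ℝ) ≤ (k : ℝ) ^ 2 := by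
      have : 1 ≤ k ^ 2 := by have := sq_pos_of_ne_zero (a := k) hk0; omega
      exact_mod_cast this
    rw [h0]; nlinarith [sq_nonneg s]
  · rw [indicator_of_mem (by simpa using h0), mul_one]
    set L : ℕ := ⌊(a y + |s|) / |s|⌋₊ with hL
    have hsub : ∑ k ∈ T, max (38 - pot a s (2 * π * k) y) 0 / (a y + |s|) ≤
        ∑ k ∈ (Finset.Icc (-(L : ℤ)) L).erase 0,
          max (38 - pot a s (2 * π * k) y) 0 / (a y + |s|) := by
      rw [← Finset.sum_filter_ne_zero]
      refine Finset.sum_le_sum_of_subset_of_nonneg ?_ fun k _ _ => by have := hr y; positivity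
      intro k hk'
      obtain ⟨hk, hne⟩ := Finset.mem_filter.1 hk'
      refine Finset.mem_erase.2 ⟨fun h => hT (h ▸ hk), ?_⟩
      have h1 : (k : ℝ) ^ 2 * s ^ 2 < a y ^ 2 + s ^ 2 := by
        by_contra hc
        rw [hz k (not_lt.1 hc), zero_div] at hne
        exact hne rfl
      have h2 : |(k : ℝ)| * |s| ≤ a y + |s| := by
        apply le_of_sq_le_sq _ (hr y).le
        rw [mul_pow, sq_abs, sq_abs, add_sq, sq_abs]
        nlinarith [mul_nonneg (ha.nonneg y) hs'.le]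
      have h3 : k.natAbs ≤ L := by
        apply Nat.le_floor
        rw [le_div_iff₀ hs']
        simpa using h2
      rw [Finset.mem_Icc]; omega
    refine hsub.trans ?_
    have hle : ∀ k ∈ (Finset.Icc (-(L : ℤ)) L).erase 0,
        max (38 - pot a s (2 * π * k) y) 0 / (a y + |s|) ≤ 38 / (a y + |s|) := by
      intro k _
      have := hr y
      gcongr
      refine max_le ?_ (by norm_num)
      have : 0 ≤ pot a s (2 * π * k) y := by unfold pot; positivity
      linarith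
    refine (Finset.sum_le_card_nsmul _ _ _ hle).trans ?_
    rw [Finset.card_erase_of_mem (by simp), Int.card_Icc, nsmul_eq_mul]
    have h1 : ((L : ℤ) + 1 - -(L : ℤ)).toNat - 1 = 2 * L := by omega
    have h2 : (L : ℝ) ≤ (a y + |s|) / |s| := Nat.floor_le (by have := hr y; positivity)
    rw [h1]
    have := hr y
    calc ((2 * L : ℕ) : ℝ) * (38 / (a y + |s|))
        ≤ (2 * ((a y + |s|) / |s|)) * (38 / (a y + |s|)) := by push_cast; gcongr
      _ = 76 / |s| := by field_simp; norm_num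

end Pool.Agent.P.MP_e0a138_an
end

-- part Pool.Agent.P.MP_e0a138_an.Mode
section

set_option autoImplicit false

open Module MeasureTheory Filter Topology Set Real
open scoped ComplexConjugate InnerProductSpace ContDiff

namespace Pool.Agent.P.MP_e0a138_an

section partials
variable {F : Type} [NormedAddCommGroup F] [NormedSpace ℝ F]

theorem hasDerivAt_y {u : ℝ × ℝ → F} (hu : ContDiff ℝ ∞ u) (x y : ℝ) :
    HasDerivAt (fun y => u (x, y)) (fderiv ℝ u (x, y) (0, 1)) y :=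
  (hu.differentiable (by simp) (x, y)).hasFDerivAt.comp_hasDerivAt y
    ((hasDerivAt_const y x).prodMk (hasDerivAt_id y))

theorem hasDerivAt_x {u : ℝ × ℝ → F} (hu : ContDiff ℝ ∞ u) (x y : ℝ) :
    HasDerivAt (fun x => u (x, y)) (fderiv ℝ u (x, y) (1, 0)) x :=
  (hu.differentiable (by simp) (x, y)).hasFDerivAt.comp_hasDerivAt x
    ((hasDerivAt_id x).prodMk (hasDerivAt_const x y))

theorem smooth_fderiv {u : ℝ × ℝ → F} (hu : ContDiff ℝ ∞ u) (v : ℝ × ℝ) :
    ContDiff ℝ ∞ fun m => fderiv ℝ u m v :=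
  (hu.fderiv_right (m := ∞) le_rfl).clm_apply contDiff_const

theorem fderiv_pair (L : ℝ × ℝ →L[ℝ] F) (s t : ℝ) : L (s, t) = s • L (1, 0) + t • L (0, 1) := by
  rw [← map_smul, ← map_smul, ← map_add]; simp

end partials

/-- The character `exp(-2 π i k x)`. -/
noncomputable def ek (k : ℤ) (x : ℝ) : ℂ := fourier (-k) (x : AddCircle ((1 : ℝ) - 0))

@[fun_prop] theorem ek_cont (k : ℤ) : Continuous (ek k) :=
  (map_continuous (fourier (-k))).comp (AddCircle.continuous_mk' _)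

theorem ek_hasDerivAt (k : ℤ) (x : ℝ) :
    HasDerivAt (ek k) (-(Complex.I * (2 * π * k : ℝ)) * ek k x) x := by
  have := hasDerivAt_fourier_neg ((1 : ℝ) - 0) k x
  refine this.congr_deriv ?_
  unfold ek; push_cast; ring

theorem ek_one (k : ℤ) : ek k 1 = ek k 0 := by
  unfold ek
  have : ((1 : ℝ) : AddCircle ((1 : ℝ) - 0)) = ((0 : ℝ) : AddCircle ((1 : ℝ) - 0)) := by
    simp
  rw [this]

/-- The Fourier mode in the first variable. -/
noncomputable def mode (k : ℤ) (W : ℝ × ℝ → ℂ) (y : ℝ) : ℂ :=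
  ∫ x in (0 : ℝ)..1, ek k x * W (x, y)

theorem mode_eq (k : ℤ) (W : ℝ × ℝ → ℂ) (y : ℝ) :
    mode k W y = fourierCoeffOn zero_lt_one (fun x => W (x, y)) k := by
  simp [fourierCoeffOn_eq_integral, mode, ek]

theorem mode_hasDerivAt (k : ℤ) {W : ℝ × ℝ → ℂ} (hW : ContDiff ℝ ∞ W) (y : ℝ) :
    HasDerivAt (mode k W) (mode k (fun m => fderiv ℝ W m (0, 1)) y) y := by
  have hc := hW.continuous
  have hc' := (smooth_fderiv hW (0, 1)).continuous
  obtain ⟨C, hC⟩ := (isCompact_Icc.prod isCompact_Icc).exists_bound_of_continuousOn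
    (s := Icc (0 : ℝ) 1 ×ˢ Icc (y - 1) (y + 1))
    (f := fun m => ek k m.1 * fderiv ℝ W m (0, 1)) (by fun_prop)
  refine (intervalIntegral.hasDerivAt_integral_of_dominated_loc_of_deriv_le
    (F := fun y x => ek k x * W (x, y)) (F' := fun y x => ek k x * fderiv ℝ W (x, y) (0, 1))
    (bound := fun _ => C) (s := Icc (y - 1) (y + 1)) (Icc_mem_nhds (by linarith) (by linarith))
    (Eventually.of_forall fun y => Continuous.aestronglyMeasurable (by fun_prop))
    (ii (by fun_prop) _ _) (Continuous.aestronglyMeasurable (by fun_prop))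
    (Eventually.of_forall fun x hx y hy => ?_) (ii continuous_const _ _)
    (Eventually.of_forall fun x _ y _ => (hasDerivAt_y hW x y).const_mul _)).2
  rw [uIoc_of_le zero_le_one] at hx
  exact hC (x, y) ⟨Ioc_subset_Icc_self hx, hy⟩

theorem mode_smooth (k : ℤ) {W : ℝ × ℝ → ℂ} (hW : ContDiff ℝ ∞ W) : ContDiff ℝ ∞ (mode k W) := by
  rw [contDiff_infty]
  intro n
  induction n generalizing W with
  | zero =>
    exact contDiff_zero.2 (continuous_iff_continuousAt.2 fun y =>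
      (mode_hasDerivAt k hW y).continuousAt)
  | succ n ih =>
    rw [Nat.cast_succ, contDiff_succ_iff_deriv]
    refine ⟨fun y => (mode_hasDerivAt k hW y).differentiableAt, by simp, ?_⟩
    have : deriv (mode k W) = mode k fun m => fderiv ℝ W m (0, 1) :=
      funext fun y => (mode_hasDerivAt k hW y).deriv
    rw [this]
    exact ih (smooth_fderiv hW _)

theorem mode_dx (k : ℤ) {W : ℝ × ℝ → ℂ} (hW : ContDiff ℝ ∞ W) (hp : ∀ x y, W (x + 1, y) = W (x, y))
    (y : ℝ) : mode k (fun m => fderiv ℝ W m (1, 0)) y =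
      Complex.I * (2 * π * k : ℝ) * mode k W y := by
  have hc := hW.continuous
  have hc' := (smooth_fderiv hW (1, 0)).continuous
  have h := integral_deriv_per (g := fun x => ek k x * W (x, y))
    (fun x => (ek_hasDerivAt k x).mul (hasDerivAt_x hW x y)) (by fun_prop)
    (by have := hp 0 y; rw [zero_add] at this; simp only [this, ek_one])
  rw [intervalIntegral.integral_add (ii (by fun_prop) _ _) (ii (by fun_prop) _ _)] at h
  simp only [mul_assoc _ (ek k _), intervalIntegral.integral_const_mul] at h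
  unfold mode
  linear_combination h

theorem mode_lin (k : ℤ) {P Q R : ℝ × ℝ → ℂ} (hP : Continuous P) (hQ : Continuous Q)
    (α β : ℂ) (y : ℝ) (h : ∀ x, R (x, y) = α * P (x, y) + β * Q (x, y)) :
    mode k R y = α * mode k P y + β * mode k Q y := by
  unfold mode
  rw [← intervalIntegral.integral_const_mul, ← intervalIntegral.integral_const_mul,
    ← intervalIntegral.integral_add (ii (by fun_prop) _ _) (ii (by fun_prop) _ _)]
  refine intervalIntegral.integral_congr fun x _ => ?_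
  simp only [h]; ring

theorem eq_zero_of_mode {W : ℝ × ℝ → ℂ} (hW : Continuous W) (hp : ∀ x y, W (x + 1, y) = W (x, y))
    (h : ∀ k y, mode k W y = 0) (m : ℝ × ℝ) : W m = 0 := by
  obtain ⟨x, y⟩ := m
  have hc : Continuous fun x => W (x, y) := by fun_prop
  have h1 := hasSum_sq_fourierCoeffOn zero_lt_one (memLp_Ioc hc)
  simp only [← mode_eq, h, norm_zero] at h1
  have h2 := h1.unique (a₂ := 0) (by simp)
  exact congrFun (eq_zero_of_integral_sq hc (fun x => hp x y) (by simpa using h2)) x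

end Pool.Agent.P.MP_e0a138_an
end

-- part Pool.Agent.P.MP_e0a138_an.Defs
section

set_option autoImplicit false

open MeasureTheory Filter Topology
open scoped ENNReal ContDiff

namespace Pool.Agent.P.MP_e0a138_an

/-- Smooth complex differential forms on the torus, given by their four components along
`1, α = dx, β = dy - a(y) dx, α ∧ β`. -/
def IsForm (u : ℝ × ℝ → EuclideanSpace ℂ (Fin 4)) : Prop :=
  ContDiff ℝ ∞ u ∧ (∀ x y, u (x + 1, y) = u (x, y)) ∧ ∀ x y, u (x, y + 1) = u (x, y)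

/-- The `L²` inner product of forms. -/
noncomputable def ip (u v : ℝ × ℝ → EuclideanSpace ℂ (Fin 4)) : ℂ :=
  ∫ m in Set.Ioc (0 : ℝ) 1 ×ˢ Set.Ioc (0 : ℝ) 1, inner ℂ (u m) (v m)

/-- `d_F + h d_H`. -/
noncomputable def dh (a : ℝ → ℝ) (h : ℝ) (u : ℝ × ℝ → EuclideanSpace ℂ (Fin 4))
    (m : ℝ × ℝ) : EuclideanSpace ℂ (Fin 4) :=
  !₂[0, fderiv ℝ (fun n => u n 0) m (1, a m.2), h * fderiv ℝ (fun n => u n 0) m (0, 1),
    fderiv ℝ (fun n => u n 2) m (1, 0) + fderiv ℝ (fun n => a n.2 * u n 2) m (0, 1)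
      - h * fderiv ℝ (fun n => u n 1) m (0, 1)]

/-- The expression of `D_F + D_H` in terms of the value `u`, the leafwise derivative `p`,
the transverse derivative `q` and `b = a'`. -/
noncomputable def op (b : ℝ) (u p q : EuclideanSpace ℂ (Fin 4)) : EuclideanSpace ℂ (Fin 4) :=
  !₂[-p 1 - b * u 1 - q 2, p 0 + q 3, q 0 - p 3, p 2 + b * u 2 - q 1]

/-- `D_F + h D_H`. -/
noncomputable def Dh (a : ℝ → ℝ) (h : ℝ) (u : ℝ × ℝ → EuclideanSpace ℂ (Fin 4))
    (m : ℝ × ℝ) : EuclideanSpace ℂ (Fin 4) :=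
  op (deriv a m.2) (u m) (fderiv ℝ u m (1, a m.2)) (fderiv ℝ u m (0, h))

/-- `tr f(D_F + h D_H)`: sum of `f` over the eigenvalues, with multiplicity. -/
noncomputable def trM (a : ℝ → ℝ) (h : ℝ) (f : ℝ → ℝ) : ℝ≥0∞ :=
  ∑' μ : ℝ, ENNReal.ofReal (f μ) * (Cardinal.toENat (Module.rank ℂ (Submodule.span ℂ
    {u | IsForm u ∧ ∀ m, Dh a h u m = (μ : ℂ) • u m})) : ℕ∞)

/-- The transverse Jacobian along the leaf. -/
noncomputable def jac (b : ℝ → ℝ) (t : ℝ) : ℝ := Real.exp (∫ s in (0 : ℝ)..t, b s)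

/-- The measure `jac * dt`. -/
noncomputable def leafMeas (b : ℝ → ℝ) : Measure ℝ :=
  volume.withDensity fun t => ENNReal.ofReal (jac b t)

open Classical in
/-- The class of a function in `L²`. -/
noncomputable def toL (b : ℝ → ℝ) (g : ℝ → EuclideanSpace ℂ (Fin 4)) :
    Lp (EuclideanSpace ℂ (Fin 4)) 2 (leafMeas b) :=
  if h : MemLp g 2 (leafMeas b) then h.toLp g else 0

/-- `R` is the resolvent `(D + i)⁻¹` of `D = D_{F_N} + σ(D_H)` on the holonomy cover of a leaf. -/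
def IsRes (b : ℝ → ℝ) (τ : ℝ)
    (R : Lp (EuclideanSpace ℂ (Fin 4)) 2 (leafMeas b) →L[ℂ]
      Lp (EuclideanSpace ℂ (Fin 4)) 2 (leafMeas b)) : Prop :=
  ∀ ψ : ℝ → EuclideanSpace ℂ (Fin 4), ContDiff ℝ ∞ ψ → HasCompactSupport ψ →
    R (toL b fun t => op (b t) (ψ t) (deriv ψ t) ((Complex.I * (τ / jac b t : ℝ)) • ψ t)
      + Complex.I • ψ t) = toL b ψ

/-- `f(D)` for even `f`, from the resolvent `R = (D + i)⁻¹` through `R* R = (1 + D²)⁻¹`. -/
noncomputable def fc {H : Type} [NormedAddCommGroup H] [InnerProductSpace ℂ H] [CompleteSpace H]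
    (f : ℝ → ℝ) (R : H →L[ℂ] H) : H →L[ℂ] H :=
  cfc (fun r : ℝ => if 0 < r then f √(r⁻¹ - 1) else 0) (star R * R)

/-- Pointwise trace at the base point `t = 0` of the kernel of a positive operator `T`. -/
noncomputable def diag (b : ℝ → ℝ)
    (T : Lp (EuclideanSpace ℂ (Fin 4)) 2 (leafMeas b) →L[ℂ]
      Lp (EuclideanSpace ℂ (Fin 4)) 2 (leafMeas b)) : ℝ≥0∞ :=
  liminf (fun ε : ℝ => ∑ i : Fin 4, ENNReal.ofReal (inner ℂ
    (toL b ((Set.Icc 0 ε).indicator fun _ => EuclideanSpace.single i (ε⁻¹ : ℝ)))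
    (T (toL b ((Set.Icc 0 ε).indicator fun _ => EuclideanSpace.single i (ε⁻¹ : ℝ))))).re)
    (𝓝[>] 0)

end Pool.Agent.P.MP_e0a138_an
end

-- part Pool.Agent.P.MP_e0a138_an.Torus
section

set_option autoImplicit false

open Module MeasureTheory Filter Topology Set Real
open scoped ComplexConjugate InnerProductSpace ContDiff ENNReal

namespace Pool.Agent.P.MP_e0a138_an

/-- The fibre. -/
abbrev V4 := EuclideanSpace ℂ (Fin 4)

theorem op_add (b : ℝ) (u p q u' p' q' : V4) :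
    op b (u + u') (p + p') (q + q') = op b u p q + op b u' p' q' := by
  ext i; fin_cases i <;> simp [op] <;> ring

theorem op_smul (b : ℝ) (c : ℂ) (u p q : V4) :
    op b (c • u) (c • p) (c • q) = c • op b u p q := by
  ext i; fin_cases i <;> simp [op] <;> ring

theorem IsForm.diff {u : ℝ × ℝ → V4} (hu : IsForm u) (m : ℝ × ℝ) : DifferentiableAt ℝ u m :=
  hu.1.differentiable (by simp) m

/-- The space of eigenforms. -/
def Eig (a : ℝ → ℝ) (h μ : ℝ) : Submodule ℂ (ℝ × ℝ → V4) where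
  carrier := {u | IsForm u ∧ ∀ m, Dh a h u m = (μ : ℂ) • u m}
  add_mem' := fun {u v} hu hv => ⟨⟨hu.1.1.add hv.1.1, fun x y => by simp [hu.1.2.1, hv.1.2.1],
    fun x y => by simp [hu.1.2.2, hv.1.2.2]⟩, fun m => by
      have h1 := hu.2 m
      have h2 := hv.2 m
      unfold Dh at h1 h2 ⊢
      rw [fderiv_add (hu.1.diff m) (hv.1.diff m)]
      simp only [Pi.add_apply, add_apply, op_add, h1, h2, smul_add]⟩
  zero_mem' := ⟨⟨contDiff_const, fun _ _ => rfl, fun _ _ => rfl⟩, fun m => by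
    ext i; fin_cases i <;> simp [Dh, op]⟩
  smul_mem' := fun c u hu => ⟨⟨hu.1.1.const_smul c, fun x y => by simp [hu.1.2.1],
    fun x y => by simp [hu.1.2.2]⟩, fun m => by
      have h1 := hu.2 m
      unfold Dh at h1 ⊢
      rw [fderiv_const_smul (hu.1.diff m)]
      simp only [Pi.smul_apply, smul_apply, op_smul, h1, smul_comm c]⟩

/-- The mode of a scalar component of an eigenform. -/
noncomputable def modeL (a : ℝ → ℝ) (h μ : ℝ) (k : ℤ) (l : V4 →L[ℂ] ℂ) : Eig a h μ →ₗ[ℂ] PP where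
  toFun u := PP.mk (mode k fun m => l (u.1 m))
    (mode_smooth k ((l.restrictScalars ℝ).contDiff.comp u.2.1.1))
    (fun y => by simp only [mode, u.2.1.2.2])
  map_add' u v := PP.ext fun y => by
    have hu := u.2.1.1.continuous
    have hv := v.2.1.1.continuous
    have := mode_lin k (P := fun m => l (u.1 m)) (Q := fun m => l (v.1 m))
      (R := fun m => l ((u + v).1 m)) (by fun_prop) (by fun_prop) 1 1 y (fun x => by simp)
    simpa using this
  map_smul' c u := PP.ext fun y => by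
    have hu := u.2.1.1.continuous
    have := mode_lin k (P := fun m => l (u.1 m)) (Q := fun m => l (u.1 m))
      (R := fun m => l ((c • u).1 m)) (by fun_prop) (by fun_prop) c 0 y (fun x => by simp)
    simpa using this

/-- `u₀ - σ i u₃`. -/
noncomputable def lW (σ : ℝ) : V4 →L[ℂ] ℂ :=
  EuclideanSpace.proj 0 - (σ * Complex.I) • EuclideanSpace.proj 3

/-- `u₁ + σ i u₂`. -/
noncomputable def lZ (σ : ℝ) : V4 →L[ℂ] ℂ :=
  EuclideanSpace.proj 1 + (σ * Complex.I) • EuclideanSpace.proj 2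

theorem fderiv_l (l : V4 →L[ℂ] ℂ) {u : ℝ × ℝ → V4} (hu : IsForm u) (m v : ℝ × ℝ) :
    fderiv ℝ (fun m => l (u m)) m v = l (fderiv ℝ u m v) := by
  have := ((l.restrictScalars ℝ).hasFDerivAt.comp m (hu.diff m).hasFDerivAt).fderiv
  exact congrArg (fun L => L v) this

theorem modeL_mem {a : ℝ → ℝ} (ha : Good a) (h μ : ℝ) (k : ℤ) {σ : ℝ} (hσ : σ ^ 2 = 1)
    (u : Eig a h μ) : (modeL a h μ k (lW σ) u, modeL a h μ k (lZ σ) u) ∈
      G (opA ha (σ * h) (2 * π * k)) (opA' ha (σ * h) (2 * π * k)) μ := by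
  have hσ' : (σ : ℂ) ^ 2 = 1 := by exact_mod_cast hσ
  have hI : Complex.I ^ 2 = -1 := Complex.I_sq
  have hs : ∀ l : V4 →L[ℂ] ℂ, ContDiff ℝ ∞ fun m => l (u.1 m) := fun l =>
    (l.restrictScalars ℝ).contDiff.comp u.2.1.1
  have hp : ∀ (l : V4 →L[ℂ] ℂ) x y, l (u.1 (x + 1, y)) = l (u.1 (x, y)) := fun l x y => by
    rw [u.2.1.2.1]
  have hcomp : ∀ x y, let U := u.1 (x, y); let P := fderiv ℝ u.1 (x, y) (1, 0)
      let Q := fderiv ℝ u.1 (x, y) (0, 1)
      (-(P 1 + a y * Q 1) - deriv a y * U 1 - h * Q 2 = μ * U 0) ∧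
      (P 0 + a y * Q 0 + h * Q 3 = μ * U 1) ∧ (h * Q 0 - (P 3 + a y * Q 3) = μ * U 2) ∧
      (P 2 + a y * Q 2 + deriv a y * U 2 - h * Q 1 = μ * U 3) := by
    intro x y U P Q
    have e := u.2.2 (x, y)
    unfold Dh at e
    rw [fderiv_pair _ 1 (a y), fderiv_pair _ 0 h] at e
    have e0 := congrArg (fun v : V4 => v 0) e
    have e1 := congrArg (fun v : V4 => v 1) e
    have e2 := congrArg (fun v : V4 => v 2) e
    have e3 := congrArg (fun v : V4 => v 3) e
    simp [op] at e0 e1 e2 e3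
    refine ⟨?_, ?_, ?_, ?_⟩
    · linear_combination e0
    · linear_combination e1
    · linear_combination e2
    · linear_combination e3
  constructor
  · refine PP.ext fun y => ?_
    rw [opA_val]
    simp only [modeL, LinearMap.coe_mk, AddHom.coe_mk, PP.val_mk, PP.val_smul]
    rw [(mode_hasDerivAt k (hs _) y).deriv, ← mode_dx k (hs _) (hp _)]
    have e1 := mode_lin k (smooth_fderiv (hs (lW σ)) (0, 1)).continuous
      (smooth_fderiv (hs (lW σ)) (1, 0)).continuous (a y + Complex.I * (σ * h : ℝ)) 1 y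
      (R := fun m => μ * lZ σ (u.1 m)) (fun x => by
        obtain ⟨-, e1, e2, -⟩ := hcomp x y
        simp only [fderiv_l _ u.2.1]
        simp [lW, lZ]
        linear_combination (-1) * e1 - σ * Complex.I * e2 +
          (h * (fderiv ℝ u.1 (x, y) (0, 1)) 3 * Complex.I ^ 2) * hσ' +
          (h * (fderiv ℝ u.1 (x, y) (0, 1)) 3) * hI)
    have e2 := mode_lin k (hs (lZ σ)).continuous (hs (lZ σ)).continuous μ 0 y
      (R := fun m => μ * lZ σ (u.1 m)) (fun x => by simp)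
    linear_combination e2 - e1
  · refine PP.ext fun y => ?_
    rw [opA'_val]
    simp only [modeL, LinearMap.coe_mk, AddHom.coe_mk, PP.val_mk, PP.val_smul]
    rw [(mode_hasDerivAt k (hs _) y).deriv, ← mode_dx k (hs _) (hp _)]
    have e1 := mode_lin k (smooth_fderiv (hs (lZ σ)) (0, 1)).continuous
      (smooth_fderiv (hs (lZ σ)) (1, 0)).continuous (-(a y - Complex.I * (σ * h : ℝ))) (-1) y
      (R := fun m => μ * lW σ (u.1 m) + deriv a y * lZ σ (u.1 m)) (fun x => by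
        obtain ⟨e0, -, -, e3⟩ := hcomp x y
        simp only [fderiv_l _ u.2.1]
        simp [lW, lZ]
        linear_combination (-1) * e0 + σ * Complex.I * e3 -
          (h * (fderiv ℝ u.1 (x, y) (0, 1)) 2 * Complex.I ^ 2) * hσ' -
          (h * (fderiv ℝ u.1 (x, y) (0, 1)) 2) * hI)
    have e2 := mode_lin k (hs (lW σ)).continuous (hs (lZ σ)).continuous μ (deriv a y : ℝ) y
      (R := fun m => μ * lW σ (u.1 m) + deriv a y * lZ σ (u.1 m)) (fun x => by simp)
    linear_combination e2 - e1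

/-- The eigenpairs of one block. -/
noncomputable abbrev Gk {a : ℝ → ℝ} (ha : Good a) (s : ℝ) (k : ℤ) (μ : ℝ) :=
  G (opA ha s (2 * π * k)) (opA' ha s (2 * π * k)) μ

/-- The bound for one block. -/
noncomputable def Nk (a : ℝ → ℝ) (h : ℝ) (k : ℤ) : ℝ :=
  if k = 0 then 12 / (π * h) + 3 else 3 * nk a h (2 * π * k)

theorem nk_congr (a : ℝ → ℝ) {s t : ℝ} (h : |s| = |t|) (κ : ℝ) : nk a s κ = nk a t κ := by
  have : s ^ 2 = t ^ 2 := by rw [← sq_abs, h, sq_abs]
  simp only [nk, pot, h, this]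

theorem sum_Gk_le {a : ℝ → ℝ} (ha : Good a) {h s : ℝ} (h0 : 0 < h) (h1 : h ≤ 1) (hs : |s| = h)
    (k : ℤ) (T : Finset ℝ) (hT : ∀ μ ∈ T, |μ| ≤ 6) :
    (∀ μ ∈ T, FiniteDimensional ℂ (Gk ha s k μ)) ∧
      ∑ μ ∈ T, (finrank ℂ (Gk ha s k μ) : ℝ) ≤ Nk a h k := by
  have hs0 : s ≠ 0 := by rintro rfl; simp at hs; linarith
  have hh : |h| = h := abs_of_pos h0
  by_cases hk : k = 0
  · subst hk
    have e : 2 * π * ((0 : ℤ) : ℝ) = 0 := by simp
    have := sum_G_le (opA_adj ha s 0) (by norm_num) (bd_zero ha hs0 (lam := 6) (by norm_num))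
      (ker_opA' ha hs0 0 le_rfl (bd_zero ha (neg_ne_zero.2 hs0) le_rfl)) T hT
    unfold Gk
    rw [e]
    refine ⟨this.1, this.2.trans (le_of_eq ?_)⟩
    rw [Nk, if_pos rfl, hs]; ring
  · have := sum_G_le (opA_adj ha s (2 * π * k)) (by norm_num) (bd_mode ha hs0 (hs ▸ h1) _)
      (ker_opA' ha hs0 _ (by norm_num)
        (bd_mode ha (neg_ne_zero.2 hs0) (by rw [abs_neg, hs]; exact h1) _)) T hT
    refine ⟨this.1, this.2.trans (le_of_eq ?_)⟩
    rw [Nk, if_neg hk, nk_congr a (s := s) (t := h) (by rw [hs, hh]),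
      nk_congr a (s := -s) (t := h) (by rw [abs_neg, hs, hh])]
    ring

theorem eig_le {a : ℝ → ℝ} (ha : Good a) {h : ℝ} (h0 : 0 < h) (h1 : h ≤ 1) {μ : ℝ} (hμ : |μ| ≤ 6) :
    FiniteDimensional ℂ (Eig a h μ) ∧ finrank ℂ (Eig a h μ) ≤
      ∑ k ∈ Finset.Icc (-(⌈2 / h⌉₊ : ℤ)) ⌈2 / h⌉₊,
        (finrank ℂ (Gk ha (1 * h) k μ) + finrank ℂ (Gk ha (-1 * h) k μ)) := by
  have a1 : |1 * h| = h := by rw [one_mul, abs_of_pos h0]
  have a2 : |-1 * h| = h := by rw [neg_mul, one_mul, abs_neg, abs_of_pos h0]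
  have hT : ∀ ν ∈ ({μ} : Finset ℝ), |ν| ≤ 6 := by simpa using hμ
  have f1 : ∀ k, FiniteDimensional ℂ (Gk ha (1 * h) k μ) := fun k =>
    (sum_Gk_le ha h0 h1 a1 k {μ} hT).1 μ (by simp)
  have f2 : ∀ k, FiniteDimensional ℂ (Gk ha (-1 * h) k μ) := fun k =>
    (sum_Gk_le ha h0 h1 a2 k {μ} hT).1 μ (by simp)
  let ψ : ∀ (σ : ℝ) (hσ : σ ^ 2 = 1) (k : ℤ), Eig a h μ →ₗ[ℂ] Gk ha (σ * h) k μ := fun σ hσ k =>
    LinearMap.codRestrict _ ((modeL a h μ k (lW σ)).prod (modeL a h μ k (lZ σ)))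
      (modeL_mem ha h μ k hσ)
  let Ψ : Eig a h μ →ₗ[ℂ] ((k : Finset.Icc (-(⌈2 / h⌉₊ : ℤ)) ⌈2 / h⌉₊) →
      Gk ha (1 * h) k μ × Gk ha (-1 * h) k μ) :=
    LinearMap.pi fun k => (ψ 1 (by norm_num) k).prod (ψ (-1) (by norm_num) k)
  have hΨ : Function.Injective Ψ := by
    rw [← LinearMap.ker_eq_bot, LinearMap.ker_eq_bot']
    intro u hu
    have hall : ∀ k, ψ 1 (by norm_num) k u = 0 ∧ ψ (-1) (by norm_num) k u = 0 := by
      intro k
      by_cases hk : k ∈ Finset.Icc (-(⌈2 / h⌉₊ : ℤ)) ⌈2 / h⌉₊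
      · have := congrFun hu ⟨k, hk⟩
        exact ⟨congrArg Prod.fst this, congrArg Prod.snd this⟩
      · rw [Finset.mem_Icc] at hk
        have hk0 : k ≠ 0 := by rintro rfl; simp at hk
        have hk1 : ((⌈2 / h⌉₊ : ℕ) : ℤ) ≤ |k| := by
          rcases le_total 0 k with h | h
          · rw [abs_of_nonneg h]; omega
          · rw [abs_of_nonpos h]; omega
        have hk2 : 2 / |h| ≤ |(k : ℝ)| := by
          rw [abs_of_pos h0]
          exact (Nat.le_ceil _).trans (by exact_mod_cast hk1)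
        have hN : Nk a h k = 0 := by
          rw [Nk, if_neg hk0, nk_eq_zero ha h0.ne' (by rwa [abs_of_pos h0]) hk2, mul_zero]
        have g1 := (sum_Gk_le ha h0 h1 a1 k {μ} hT).2
        have g2 := (sum_Gk_le ha h0 h1 a2 k {μ} hT).2
        rw [hN, Finset.sum_singleton] at g1 g2
        have := f1 k
        have := f2 k
        have s1 : Subsingleton (Gk ha (1 * h) k μ) :=
          Module.finrank_zero_iff.1 (by exact_mod_cast le_antisymm g1 (Nat.cast_nonneg _))
        have s2 : Subsingleton (Gk ha (-1 * h) k μ) :=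
          Module.finrank_zero_iff.1 (by exact_mod_cast le_antisymm g2 (Nat.cast_nonneg _))
        exact ⟨Subsingleton.elim _ _, Subsingleton.elim _ _⟩
    have hc := u.2.1.1.continuous
    have hz : ∀ l : V4 →L[ℂ] ℂ, (∀ k, modeL a h μ k l u = 0) → ∀ m, l (u.1 m) = 0 := by
      intro l hl
      exact eq_zero_of_mode (W := fun m => l (u.1 m)) (by fun_prop)
        (fun x y => by simp only [u.2.1.2.1]) fun k y => congrArg (fun w : PP => w.val y) (hl k)
    have z1 := hz (lW 1) fun k => congrArg (fun p => p.1.1) (hall k).1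
    have z2 := hz (lZ 1) fun k => congrArg (fun p => p.1.2) (hall k).1
    have z3 := hz (lW (-1)) fun k => congrArg (fun p => p.1.1) (hall k).2
    have z4 := hz (lZ (-1)) fun k => congrArg (fun p => p.1.2) (hall k).2
    refine Subtype.ext (funext fun m => ?_)
    have y1 := z1 m
    have y2 := z2 m
    have y3 := z3 m
    have y4 := z4 m
    simp [lW, lZ] at y1 y2 y3 y4
    have hI : Complex.I ^ 2 = -1 := Complex.I_sq
    ext i; fin_cases i
    · simp; linear_combination (1 / 2) * y1 + (1 / 2) * y3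
    · simp; linear_combination (1 / 2) * y2 + (1 / 2) * y4
    · simp; linear_combination (-Complex.I / 2) * y2 + (Complex.I / 2) * y4 + u.1 m 2 * hI
    · simp; linear_combination (Complex.I / 2) * y1 - (Complex.I / 2) * y3 + u.1 m 3 * hI
  refine ⟨Module.Finite.of_injective _ hΨ, ?_⟩
  have := LinearMap.finrank_le_finrank_of_injective hΨ
  rw [Module.finrank_pi_fintype] at this
  simp only [Module.finrank_prod] at this
  rwa [Finset.sum_coe_sort (Finset.Icc (-(⌈2 / h⌉₊ : ℤ)) ⌈2 / h⌉₊)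
    (fun k => finrank ℂ (Gk ha (1 * h) k μ) + finrank ℂ (Gk ha (-1 * h) k μ))] at this

theorem trM_le {a : ℝ → ℝ} (ha : Good a) {h : ℝ} (h0 : 0 < h) (h1 : h ≤ 1) {f : ℝ → ℝ}
    (hf1 : ∀ x, f x ≤ 1) (hf6 : ∀ x, 6 < |x| → f x = 0) :
    trM a h f ≤ ENNReal.ofReal (24 / (π * h) + 6 + 6 * (2888 / h *
      ∫ y in (0 : ℝ)..1, ({y | a y ≠ 0} : Set ℝ).indicator (fun _ => (1 : ℝ)) y)) := by
  classical
  have a1 : |1 * h| = h := by rw [one_mul, abs_of_pos h0]
  have a2 : |-1 * h| = h := by rw [neg_mul, one_mul, abs_neg, abs_of_pos h0]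
  unfold trM
  rw [ENNReal.tsum_eq_iSup_sum]
  refine iSup_le fun T => ?_
  have hspan : ∀ μ : ℝ, Submodule.span ℂ {u | IsForm u ∧ ∀ m, Dh a h u m = (μ : ℂ) • u m} =
      Eig a h μ := fun μ => Submodule.span_eq (Eig a h μ)
  have hr : ∀ μ : ℝ, Module.rank ℂ (Submodule.span ℂ
      {u | IsForm u ∧ ∀ m, Dh a h u m = (μ : ℂ) • u m}) = Module.rank ℂ (Eig a h μ) :=
    fun μ => by rw [hspan]
  simp only [hr]
  set T' := T.filter (fun μ => |μ| ≤ 6) with hT'
  have hT : ∀ μ ∈ T', |μ| ≤ 6 := fun μ hμ => (Finset.mem_filter.1 hμ).2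
  calc ∑ μ ∈ T, ENNReal.ofReal (f μ) * (Cardinal.toENat (Module.rank ℂ (Eig a h μ)) : ℕ∞)
      ≤ ∑ μ ∈ T', ENNReal.ofReal (finrank ℂ (Eig a h μ)) := by
        rw [hT', Finset.sum_filter]
        refine Finset.sum_le_sum fun μ _ => ?_
        split_ifs with hμ
        · have := (eig_le ha h0 h1 hμ).1
          rw [← Module.finrank_eq_rank]
          simp only [map_natCast, ENat.toENNReal_coe, ENNReal.ofReal_natCast]
          exact mul_le_of_le_one_left' (ENNReal.ofReal_le_one.2 (hf1 μ))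
        · rw [hf6 μ (not_le.1 hμ)]; simp
    _ = ENNReal.ofReal (∑ μ ∈ T', (finrank ℂ (Eig a h μ) : ℝ)) :=
        (ENNReal.ofReal_sum_of_nonneg fun _ _ => Nat.cast_nonneg _).symm
    _ ≤ _ := by
        apply ENNReal.ofReal_le_ofReal
        set S := Finset.Icc (-(⌈2 / h⌉₊ : ℤ)) ⌈2 / h⌉₊ with hS
        have e1 : ∑ μ ∈ T', (finrank ℂ (Eig a h μ) : ℝ) ≤ ∑ μ ∈ T', ∑ k ∈ S,
            ((finrank ℂ (Gk ha (1 * h) k μ) : ℝ) + finrank ℂ (Gk ha (-1 * h) k μ)) :=
          Finset.sum_le_sum fun μ hμ => by exact_mod_cast (eig_le ha h0 h1 (hT μ hμ)).2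
        rw [Finset.sum_comm] at e1
        have e2 : ∑ k ∈ S, ∑ μ ∈ T',
            ((finrank ℂ (Gk ha (1 * h) k μ) : ℝ) + finrank ℂ (Gk ha (-1 * h) k μ)) ≤
            ∑ k ∈ S, 2 * Nk a h k := Finset.sum_le_sum fun k _ => by
          rw [Finset.sum_add_distrib]
          linarith [(sum_Gk_le ha h0 h1 a1 k T' hT).2, (sum_Gk_le ha h0 h1 a2 k T' hT).2]
        have h0S : (0 : ℤ) ∈ S := by simp [hS]
        rw [← Finset.mul_sum, ← Finset.add_sum_erase S (Nk a h) h0S] at e2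
        have e3 : ∑ k ∈ S.erase 0, Nk a h k = 3 * ∑ k ∈ S.erase 0, nk a h (2 * π * k) := by
          rw [Finset.mul_sum]
          exact Finset.sum_congr rfl fun k hk => by rw [Nk, if_neg (Finset.mem_erase.1 hk).1]
        have e4 := sum_nk_le ha h0.ne' (S.erase 0) (by simp)
        rw [abs_of_pos h0] at e4
        have e5 : Nk a h 0 = 12 / (π * h) + 3 := by simp [Nk]
        have e6 : 24 / (π * h) = 2 * (12 / (π * h)) := by ring
        linarith

end Pool.Agent.P.MP_e0a138_an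
end

-- part Pool.Agent.P.MP_e0a138_an.Adj
section

set_option autoImplicit false

open Module MeasureTheory Filter Topology Set Real
open scoped ComplexConjugate InnerProductSpace ContDiff ENNReal

namespace Pool.Agent.P.MP_e0a138_an

theorem integrableOn_sq {F : ℝ × ℝ → ℂ} (hF : Continuous F) :
    IntegrableOn F (Ioc (0 : ℝ) 1 ×ˢ Ioc (0 : ℝ) 1) volume :=
  (hF.continuousOn.integrableOn_compact (isCompact_Icc.prod isCompact_Icc)).mono_set
    (prod_mono Ioc_subset_Icc_self Ioc_subset_Icc_self)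

theorem integral_dy {F F' : ℝ × ℝ → ℂ} (hF' : Continuous F')
    (h : ∀ x y, HasDerivAt (fun y => F (x, y)) (F' (x, y)) y) (hp : ∀ x, F (x, 1) = F (x, 0)) :
    ∫ m in Ioc (0 : ℝ) 1 ×ˢ Ioc (0 : ℝ) 1, F' m = 0 := by
  rw [Measure.volume_eq_prod, setIntegral_prod _ (integrableOn_sq hF')]
  have : ∀ x, ∫ y in Ioc (0 : ℝ) 1, F' (x, y) = 0 := fun x => by
    rw [← intervalIntegral.integral_of_le zero_le_one]
    exact integral_deriv_per (h x) (by fun_prop) (hp x)
  simp [this]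

theorem integral_dx {F F' : ℝ × ℝ → ℂ} (hF' : Continuous F')
    (h : ∀ x y, HasDerivAt (fun x => F (x, y)) (F' (x, y)) x) (hp : ∀ y, F (1, y) = F (0, y)) :
    ∫ m in Ioc (0 : ℝ) 1 ×ˢ Ioc (0 : ℝ) 1, F' m = 0 := by
  have hi := integrableOn_sq hF'
  rw [IntegrableOn, Measure.volume_eq_prod, ← Measure.prod_restrict] at hi
  rw [Measure.volume_eq_prod, ← Measure.prod_restrict, integral_prod_symm _ hi]
  have : ∀ y, ∫ x in Ioc (0 : ℝ) 1, F' (x, y) = 0 := fun y => by
    rw [← intervalIntegral.integral_of_le zero_le_one]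
    exact integral_deriv_per (fun x => h x y) (by fun_prop) (hp y)
  simp [this]

theorem fderiv_comp_i {u : ℝ × ℝ → V4} (hu : IsForm u) (i : Fin 4) (m v : ℝ × ℝ) :
    fderiv ℝ (fun n => u n i) m v = fderiv ℝ u m v i :=
  fderiv_l (EuclideanSpace.proj i) hu m v

theorem smooth_i {u : ℝ × ℝ → V4} (hu : IsForm u) (i : Fin 4) : ContDiff ℝ ∞ fun n => u n i :=
  ((EuclideanSpace.proj i : V4 →L[ℂ] ℂ).restrictScalars ℝ).contDiff.comp hu.1

theorem dx_i {u : ℝ × ℝ → V4} (hu : IsForm u) (i : Fin 4) (x y : ℝ) :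
    HasDerivAt (fun x => u (x, y) i) (fderiv ℝ u (x, y) (1, 0) i) x := by
  rw [← fderiv_comp_i hu]; exact hasDerivAt_x (smooth_i hu i) x y

theorem dy_i {u : ℝ × ℝ → V4} (hu : IsForm u) (i : Fin 4) (x y : ℝ) :
    HasDerivAt (fun y => u (x, y) i) (fderiv ℝ u (x, y) (0, 1) i) y := by
  rw [← fderiv_comp_i hu]; exact hasDerivAt_y (smooth_i hu i) x y

theorem dh_eq {a : ℝ → ℝ} (ha : ContDiff ℝ ∞ a) (h : ℝ) {u : ℝ × ℝ → V4} (hu : IsForm u)
    (m : ℝ × ℝ) : dh a h u m = !₂[0, fderiv ℝ u m (1, 0) 0 + a m.2 * fderiv ℝ u m (0, 1) 0,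
      h * fderiv ℝ u m (0, 1) 0, fderiv ℝ u m (1, 0) 2 + (deriv a m.2 * u m 2 +
        a m.2 * fderiv ℝ u m (0, 1) 2) - h * fderiv ℝ u m (0, 1) 1] := by
  obtain ⟨x, y⟩ := m
  have hs : ContDiff ℝ ∞ fun n : ℝ × ℝ => (a n.2 : ℂ) * u n 2 :=
    (Complex.ofRealCLM.contDiff.comp (ha.comp contDiff_snd)).mul (smooth_i hu 2)
  have h1 := (hasDerivAt_y hs x y).unique
    (((ha.differentiable (by simp) y).hasDerivAt.ofReal_comp).mul (dy_i hu 2 x y))
  unfold dh
  rw [h1]
  simp only [fderiv_comp_i hu]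
  rw [fderiv_pair _ 1 (a y)]
  simp

theorem Dh_eq (a : ℝ → ℝ) (h : ℝ) (u : ℝ × ℝ → V4) (m : ℝ × ℝ) :
    Dh a h u m = op (deriv a m.2) (u m) (fderiv ℝ u m (1, 0) + a m.2 • fderiv ℝ u m (0, 1))
      (h • fderiv ℝ u m (0, 1)) := by
  unfold Dh
  rw [fderiv_pair _ 1 (a m.2), fderiv_pair _ 0 h]
  simp

theorem ip_Dh {a : ℝ → ℝ} (ha : ContDiff ℝ ∞ a) (hp : ∀ y, a (y + 1) = a y) (h : ℝ)
    {u v : ℝ × ℝ → V4} (hu : IsForm u) (hv : IsForm v) :
    ip (Dh a h u) v = ip (dh a h u) v + ip u (dh a h v) := by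
  have c0 := ha.continuous
  have c1 : Continuous (deriv a) := ha.continuous_deriv (by simp)
  have c2 := hu.1.continuous
  have c3 := hv.1.continuous
  have c4 := (smooth_fderiv hu.1 (1, 0)).continuous
  have c5 := (smooth_fderiv hu.1 (0, 1)).continuous
  have c6 := (smooth_fderiv hv.1 (1, 0)).continuous
  have c7 := (smooth_fderiv hv.1 (0, 1)).continuous
  have ha' : ∀ y, HasDerivAt (fun y => (a y : ℂ)) (deriv a y : ℝ) y := fun y =>
    (ha.differentiable (by simp) y).hasDerivAt.ofReal_comp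
  have e1 := integral_dx (F := fun m => -(conj (u m 1) * v m 0) - conj (u m 3) * v m 2)
    (F' := fun m => -(conj (fderiv ℝ u m (1, 0) 1) * v m 0 + conj (u m 1) * fderiv ℝ v m (1, 0) 0)
      - (conj (fderiv ℝ u m (1, 0) 3) * v m 2 + conj (u m 3) * fderiv ℝ v m (1, 0) 2))
    (by fun_prop)
    (fun x y => (((dx_i hu 1 x y).star.mul (dx_i hv 0 x y)).neg).sub
      ((dx_i hu 3 x y).star.mul (dx_i hv 2 x y)))
    (fun y => by
      have h1 := hu.2.1 0 y
      have h2 := hv.2.1 0 y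
      rw [zero_add] at h1 h2
      simp only [h1, h2])
  have e2 := integral_dy (F := fun m => a m.2 * (-(conj (u m 1) * v m 0) - conj (u m 3) * v m 2)
      + h * (conj (u m 3) * v m 1 - conj (u m 2) * v m 0))
    (F' := fun m => (deriv a m.2 * (-(conj (u m 1) * v m 0) - conj (u m 3) * v m 2) +
      a m.2 * (-(conj (fderiv ℝ u m (0, 1) 1) * v m 0 + conj (u m 1) * fderiv ℝ v m (0, 1) 0)
      - (conj (fderiv ℝ u m (0, 1) 3) * v m 2 + conj (u m 3) * fderiv ℝ v m (0, 1) 2)))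
      + h * ((conj (fderiv ℝ u m (0, 1) 3) * v m 1 + conj (u m 3) * fderiv ℝ v m (0, 1) 1)
        - (conj (fderiv ℝ u m (0, 1) 2) * v m 0 + conj (u m 2) * fderiv ℝ v m (0, 1) 0)))
    (by fun_prop)
    (fun x y => ((ha' y).mul ((((dy_i hu 1 x y).star.mul (dy_i hv 0 x y)).neg).sub
      ((dy_i hu 3 x y).star.mul (dy_i hv 2 x y)))).add
      ((((dy_i hu 3 x y).star.mul (dy_i hv 1 x y)).sub
        ((dy_i hu 2 x y).star.mul (dy_i hv 0 x y))).const_mul _))
    (fun x => by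
      have h1 := hu.2.2 x 0
      have h2 := hv.2.2 x 0
      have h3 := hp 0
      rw [zero_add] at h1 h2 h3
      simp only [h1, h2, h3])
  unfold ip
  simp only [Dh_eq, dh_eq ha h hu, dh_eq ha h hv, PiLp.inner_apply, Fin.sum_univ_four, op]
  simp
  rw [← add_zero (_ + _), ← add_zero (_ + _ + 0)]
  nth_rewrite 1 [← e1]
  rw [← e2, ← integral_add (integrableOn_sq (by fun_prop)) (integrableOn_sq (by fun_prop)),
    ← integral_add (integrableOn_sq (by fun_prop)) (integrableOn_sq (by fun_prop)),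
    ← integral_add (integrableOn_sq (by fun_prop)) (integrableOn_sq (by fun_prop))]
  refine integral_congr_ae (Eventually.of_forall fun m => ?_)
  simp only
  ring

end Pool.Agent.P.MP_e0a138_an
end

-- part Pool.Agent.P.MP_e0a138_an.DuBois
section

set_option autoImplicit false

open MeasureTheory Filter Topology Set
open scoped ContDiff

namespace Pool.Agent.P.MP_e0a138_an

variable {F : Type} [NormedAddCommGroup F] [NormedSpace ℝ F] [CompleteSpace F]

omit [CompleteSpace F] in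
theorem integral_deriv_cs {φ : ℝ → F} (h1 : ContDiff ℝ ∞ φ) (h2 : HasCompactSupport φ) :
    ∫ t, deriv φ t = 0 :=
  integral_eq_zero_of_hasDerivAt_of_integrable
    (fun t => (h1.differentiable (by simp) t).hasDerivAt)
    ((h1.continuous_deriv (by simp)).integrable_of_hasCompactSupport h2.deriv)
    (h1.continuous.integrable_of_hasCompactSupport h2)

theorem ae_const_of_weak {Z : ℝ → F} (hZ : LocallyIntegrable Z volume)
    (h : ∀ φ : ℝ → ℝ, ContDiff ℝ ∞ φ → HasCompactSupport φ → ∫ t, deriv φ t • Z t = 0) :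
    ∃ c, ∀ᵐ t, Z t = c := by
  let β : ContDiffBump (0 : ℝ) := ⟨1, 2, one_pos, one_lt_two⟩
  let χ := β.normed volume
  have χ1 : ContDiff ℝ ∞ χ := β.contDiff_normed
  have χ2 : HasCompactSupport χ := β.hasCompactSupport_normed
  have χ3 : ∫ t, χ t = 1 := β.integral_normed
  refine ⟨∫ t, χ t • Z t, ae_eq_of_integral_contDiff_smul_eq hZ (locallyIntegrable_const _) ?_⟩
  intro φ φ1 φ2
  let g : ℝ → ℝ := fun t => φ t - (∫ s, φ s) * χ t
  have g1 : ContDiff ℝ ∞ g := φ1.sub (contDiff_const.mul χ1)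
  have g2 : HasCompactSupport g := φ2.sub χ2.mul_left
  have g3 : ∫ t, g t = 0 := by
    rw [integral_sub (φ1.continuous.integrable_of_hasCompactSupport φ2)
      ((χ1.continuous.integrable_of_hasCompactSupport χ2).const_mul _), integral_const_mul, χ3]
    ring
  obtain ⟨T, hT0, hT⟩ := g2.exists_pos_le_norm
  let Ψ : ℝ → ℝ := fun t => ∫ s in (-T)..t, g s
  have Ψ0 : ∀ t, HasDerivAt Ψ (g t) t := fun t => (g1.continuous.integral_hasStrictDerivAt _ _).hasDerivAt
  have Ψ1 : deriv Ψ = g := funext fun t => (Ψ0 t).deriv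
  have Ψ2 : ContDiff ℝ ∞ Ψ :=
    contDiff_infty_iff_deriv.2 ⟨fun t => (Ψ0 t).differentiableAt, Ψ1 ▸ g1⟩
  have Ψ3 : HasCompactSupport Ψ := by
    refine HasCompactSupport.intro (isCompact_Icc (a := -T) (b := T)) fun t ht => ?_
    rw [mem_Icc, not_and_or, not_le, not_le] at ht
    rcases ht with ht | ht
    · have : ∀ s ∈ uIcc (-T) t, g s = 0 := fun s hs => hT s (by
        rw [uIcc_of_ge ht.le] at hs
        rw [Real.norm_eq_abs, le_abs]; right; linarith [hs.2])
      simp only [Ψ]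
      rw [intervalIntegral.integral_congr (g := fun _ => 0) this]; simp
    · simp only [Ψ]
      rw [intervalIntegral.integral_eq_integral_of_support_subset, g3]
      intro s hs
      have : ‖s‖ < T := by
        by_contra hc
        exact hs (hT s (not_lt.1 hc))
      rw [Real.norm_eq_abs, abs_lt] at this
      exact ⟨this.1, by linarith [this.2]⟩
  have := h Ψ Ψ2 Ψ3
  rw [Ψ1] at this
  simp only [g, sub_smul, mul_smul] at this
  have i2 : Integrable fun t => (∫ s, φ s) • χ t • Z t :=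
    (hZ.integrable_smul_left_of_hasCompactSupport χ1.continuous χ2).smul (∫ s, φ s)
  rw [integral_sub (hZ.integrable_smul_left_of_hasCompactSupport φ1.continuous φ2) i2,
    integral_smul, sub_eq_zero] at this
  rw [this, integral_smul_const]

theorem integral_deriv_smul_primitive {G : ℝ → F} (hG : LocallyIntegrable G volume) {φ : ℝ → ℝ}
    (φ1 : ContDiff ℝ ∞ φ) (φ2 : HasCompactSupport φ) :
    ∫ t, deriv φ t • ∫ s in (0 : ℝ)..t, G s = -∫ t, φ t • G t := by
  have hii : ∀ a b, IntervalIntegrable G volume a b := fun a b =>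
    (hG.integrableOn_isCompact isCompact_uIcc).intervalIntegrable
  have c1 : Continuous (deriv φ) := φ1.continuous_deriv (by simp)
  have i1 : Integrable (deriv φ) := c1.integrable_of_hasCompactSupport φ2.deriv
  obtain ⟨T1, hT10, hT1⟩ := φ2.exists_pos_le_norm
  obtain ⟨T2, hT20, hT2⟩ := φ2.deriv.exists_pos_le_norm
  set T := T1 + T2
  let G' := (Ioc (-T) T).indicator G
  have iG : Integrable G' :=
    (integrable_indicator_iff measurableSet_Ioc).2 (hii (-T) T).1
  have hint : Integrable (Function.uncurry fun t s : ℝ =>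
      ({p : ℝ × ℝ | p.2 ≤ p.1}).indicator (fun p => deriv φ p.1 • G' p.2) (t, s))
      (volume.prod volume) :=
    (i1.smul_prod iG).indicator (measurableSet_le measurable_snd measurable_fst)
  have hsw := integral_integral_swap hint
  have e1 : ∀ t, ∫ s, ({p : ℝ × ℝ | p.2 ≤ p.1}).indicator (fun p => deriv φ p.1 • G' p.2) (t, s) =
      deriv φ t • (∫ s in (0 : ℝ)..t, G s) - deriv φ t • ∫ s in (0 : ℝ)..(-T), G s := by
    intro t
    by_cases ht : T ≤ ‖t‖
    · have : deriv φ t = 0 := hT2 t (by linarith)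
      simp [indicator, this]
    · rw [Real.norm_eq_abs, not_le, abs_lt] at ht
      rw [← smul_sub, intervalIntegral.integral_interval_sub_left (hii _ _) (hii _ _),
        intervalIntegral.integral_of_le ht.1.le, ← integral_indicator measurableSet_Ioc,
        ← integral_smul]
      congr 1; funext s
      simp only [indicator, mem_ofPred_eq, G', mem_Ioc]
      by_cases h1 : s ≤ t
      · have : s ≤ T := by linarith [ht.2]
        simp [h1, this]
      · simp [h1]
  have e2 : ∀ s, ∫ t, ({p : ℝ × ℝ | p.2 ≤ p.1}).indicator (fun p => deriv φ p.1 • G' p.2) (t, s) =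
      -(φ s • G s) := by
    intro s
    have : (fun t => ({p : ℝ × ℝ | p.2 ≤ p.1}).indicator (fun p => deriv φ p.1 • G' p.2) (t, s)) =
        (Ici s).indicator fun t => deriv φ t • G' s := by
      funext t; simp only [indicator, mem_ofPred_eq, mem_Ici]
    rw [this, integral_indicator measurableSet_Ici, integral_smul_const,
      integral_Ici_eq_integral_Ioi, φ2.integral_Ioi_deriv_eq (φ1.of_le (by simp)), neg_smul]
    by_cases hs : s ∈ Ioc (-T) T
    · simp only [G', indicator_of_mem hs]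
    · have : φ s = 0 := by
        apply hT1
        rw [mem_Ioc, not_and_or, not_lt, not_le] at hs
        rw [Real.norm_eq_abs, le_abs]
        rcases hs with hs | hs
        · right; linarith
        · left; linarith
      simp [this]
  simp only [e1, e2] at hsw
  have c2 : Continuous fun t => ∫ s in (0 : ℝ)..t, G s :=
    intervalIntegral.continuous_primitive hii 0
  rw [integral_sub (c2.locallyIntegrable.integrable_smul_left_of_hasCompactSupport c1 φ2.deriv)
    (i1.smul_const _), integral_smul_const, integral_deriv_cs φ1 φ2, zero_smul, sub_zero,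
    integral_neg] at hsw
  exact hsw

theorem ae_eq_primitive {Z G : ℝ → F} (hZ : LocallyIntegrable Z volume)
    (hG : LocallyIntegrable G volume)
    (h : ∀ φ : ℝ → ℝ, ContDiff ℝ ∞ φ → HasCompactSupport φ →
      ∫ t, deriv φ t • Z t = -∫ t, φ t • G t) :
    ∃ c, ∀ᵐ t, Z t = c + ∫ s in (0 : ℝ)..t, G s := by
  have hii : ∀ a b, IntervalIntegrable G volume a b := fun a b =>
    (hG.integrableOn_isCompact isCompact_uIcc).intervalIntegrable
  have c2 : Continuous fun t => ∫ s in (0 : ℝ)..t, G s :=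
    intervalIntegral.continuous_primitive hii 0
  obtain ⟨c, hc⟩ := ae_const_of_weak (Z := fun t => Z t - ∫ s in (0 : ℝ)..t, G s)
    (hZ.sub c2.locallyIntegrable) fun φ φ1 φ2 => by
      have c1 : Continuous (deriv φ) := φ1.continuous_deriv (by simp)
      simp only [smul_sub]
      rw [integral_sub (hZ.integrable_smul_left_of_hasCompactSupport c1 φ2.deriv)
        (c2.locallyIntegrable.integrable_smul_left_of_hasCompactSupport c1 φ2.deriv),
        h φ φ1 φ2, integral_deriv_smul_primitive hG φ1 φ2, sub_self]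
  refine ⟨c, hc.mono fun t ht => ?_⟩
  rw [← ht]; simp

theorem eq_zero_of_monotone {m : ℝ → ℝ} (hm : Monotone m) (hi : Integrable m) (t : ℝ) :
    m t = 0 := by
  by_contra hne
  rcases lt_or_gt_of_ne hne with h | h
  · have : IntegrableOn (fun _ : ℝ => m t) (Iic t) := by
      refine Integrable.mono hi.integrableOn aestronglyMeasurable_const ?_
      rw [ae_restrict_iff' measurableSet_Iic]
      refine Eventually.of_forall fun s hs => ?_
      have := hm (show s ≤ t from hs)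
      rw [Real.norm_eq_abs, Real.norm_eq_abs, abs_of_neg h, abs_of_neg (by linarith)]
      linarith
    simp [integrableOn_const_iff, hne] at this
  · have : IntegrableOn (fun _ : ℝ => m t) (Ici t) := by
      refine Integrable.mono hi.integrableOn aestronglyMeasurable_const ?_
      rw [ae_restrict_iff' measurableSet_Ici]
      refine Eventually.of_forall fun s hs => ?_
      have := hm (show t ≤ s from hs)
      rw [Real.norm_eq_abs, Real.norm_eq_abs, abs_of_pos h, abs_of_pos (by linarith)]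
      linarith
    simp [integrableOn_const_iff, hne] at this

end Pool.Agent.P.MP_e0a138_an
end

-- part Pool.Agent.P.MP_e0a138_an.Leaf
section

set_option autoImplicit false

open MeasureTheory Filter Topology Set Complex
open scoped ComplexConjugate InnerProductSpace ContDiff ENNReal

namespace Pool.Agent.P.MP_e0a138_an

/-- Clifford multiplication by the leaf direction. -/
noncomputable def Bm : V4 →L[ℂ] V4 := LinearMap.toContinuousLinearMap
  { toFun := fun p => !₂[-p 1, p 0, -p 3, p 2]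
    map_add' := fun p q => by ext i; fin_cases i <;> simp <;> ring
    map_smul' := fun c p => by ext i; fin_cases i <;> simp }

/-- Clifford multiplication by the transverse direction. -/
noncomputable def Cm : V4 →L[ℂ] V4 := LinearMap.toContinuousLinearMap
  { toFun := fun q => !₂[-q 2, q 3, q 0, -q 1]
    map_add' := fun p q => by ext i; fin_cases i <;> simp <;> ring
    map_smul' := fun c p => by ext i; fin_cases i <;> simp }

/-- The zero order part. -/
noncomputable def Em : V4 →L[ℂ] V4 := LinearMap.toContinuousLinearMap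
  { toFun := fun u => !₂[-u 1, 0, 0, u 2]
    map_add' := fun p q => by ext i; fin_cases i <;> simp; ring
    map_smul' := fun c p => by ext i; fin_cases i <;> simp }

theorem Bm_apply (p : V4) : Bm p = !₂[-p 1, p 0, -p 3, p 2] := rfl
theorem Cm_apply (q : V4) : Cm q = !₂[-q 2, q 3, q 0, -q 1] := rfl
theorem Em_apply (u : V4) : Em u = !₂[-u 1, 0, 0, u 2] := rfl

theorem op_eq (b : ℝ) (u p q : V4) : op b u p q = Bm p + Cm q + (b : ℂ) • Em u := by
  ext i; fin_cases i <;> simp [op, Bm_apply, Cm_apply, Em_apply] <;> ring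

theorem inner_Bm (u v : V4) : ⟪Bm u, v⟫_ℂ = -⟪u, Bm v⟫_ℂ := by
  simp [PiLp.inner_apply, Fin.sum_univ_four, Bm_apply]; ring

theorem inner_Cm (u v : V4) : ⟪Cm u, v⟫_ℂ = -⟪u, Cm v⟫_ℂ := by
  simp [PiLp.inner_apply, Fin.sum_univ_four, Cm_apply]; ring

theorem inner_Em (u v : V4) : ⟪Em u, v⟫_ℂ = ⟪u, Em v⟫_ℂ - ⟪u, Bm v⟫_ℂ := by
  simp [PiLp.inner_apply, Fin.sum_univ_four, Em_apply, Bm_apply]; ring

theorem Bm_Bm (u : V4) : Bm (Bm u) = -u := by
  ext i; fin_cases i <;> simp [Bm_apply]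

theorem Cm_Cm (u : V4) : Cm (Cm u) = -u := by
  ext i; fin_cases i <;> simp [Cm_apply]

theorem Bm_Cm (u : V4) : Bm (Cm u) = -Cm (Bm u) := by
  ext i; fin_cases i <;> simp [Bm_apply, Cm_apply]

theorem norm_Bm (u : V4) : ‖Bm u‖ = ‖u‖ := by
  have h : ⟪Bm u, Bm u⟫_ℂ = ⟪u, u⟫_ℂ := by rw [inner_Bm, Bm_Bm, inner_neg_right, neg_neg]
  rw [norm_eq_sqrt_re_inner (𝕜 := ℂ), h, ← norm_eq_sqrt_re_inner]

/-- The operator `D` on the holonomy cover. -/
noncomputable def Dop (b : ℝ → ℝ) (τ : ℝ) (ψ : ℝ → V4) (t : ℝ) : V4 :=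
  op (b t) (ψ t) (deriv ψ t) ((I * (τ / jac b t : ℝ)) • ψ t)

theorem Dop_eq (b : ℝ → ℝ) (τ : ℝ) (ψ : ℝ → V4) (t : ℝ) : Dop b τ ψ t =
    Bm (deriv ψ t) + (I * (τ / jac b t : ℝ)) • Cm (ψ t) + (b t : ℂ) • Em (ψ t) := by
  rw [Dop, op_eq, map_smul]

variable {b : ℝ → ℝ}

theorem jac_pos (b : ℝ → ℝ) (t : ℝ) : 0 < jac b t := Real.exp_pos _

theorem jac_hasDerivAt (hb : Continuous b) (t : ℝ) : HasDerivAt (jac b) (jac b t * b t) t :=
  (hb.integral_hasStrictDerivAt 0 t).hasDerivAt.exp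

theorem jac_cont (hb : Continuous b) : Continuous (jac b) :=
  continuous_iff_continuousAt.2 fun t => (jac_hasDerivAt hb t).continuousAt

theorem locFin (hb : Continuous b) : IsLocallyFiniteMeasure (leafMeas b) :=
  IsLocallyFiniteMeasure.withDensity_ofReal (jac_cont hb)

theorem integral_leaf {F : Type} [NormedAddCommGroup F] [NormedSpace ℝ F] (hb : Continuous b)
    (g : ℝ → F) : ∫ t, g t ∂leafMeas b = ∫ t, jac b t • g t := by
  rw [leafMeas, integral_withDensity_eq_integral_toReal_smul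
    (jac_cont hb).measurable.ennreal_ofReal (Eventually.of_forall fun _ => ENNReal.ofReal_lt_top)]
  simp only [ENNReal.toReal_ofReal (jac_pos b _).le]

theorem integrable_leaf {F : Type} [NormedAddCommGroup F] [NormedSpace ℝ F] (hb : Continuous b)
    (g : ℝ → F) {s : Set ℝ} (hs : MeasurableSet s) :
    IntegrableOn g s (leafMeas b) ↔ IntegrableOn (fun t => jac b t • g t) s := by
  rw [IntegrableOn, leafMeas, restrict_withDensity hs, integrable_withDensity_iff_integrable_smul'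
    (jac_cont hb).measurable.ennreal_ofReal (Eventually.of_forall fun _ => ENNReal.ofReal_lt_top)]
  simp only [ENNReal.toReal_ofReal (jac_pos b _).le]
  rfl

theorem leaf_ac (b : ℝ → ℝ) : leafMeas b ≪ volume := withDensity_absolutelyContinuous _ _

theorem toL_eq {g : ℝ → V4} (hg : MemLp g 2 (leafMeas b)) : toL b g = hg.toLp g := by
  simp [toL, hg]

theorem toL_ae {g : ℝ → V4} (hg : MemLp g 2 (leafMeas b)) : toL b g =ᵐ[leafMeas b] g := by
  rw [toL_eq hg]; exact hg.coeFn_toLp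

theorem toL_add {g g' : ℝ → V4} (hg : MemLp g 2 (leafMeas b)) (hg' : MemLp g' 2 (leafMeas b)) :
    toL b (fun t => g t + g' t) = toL b g + toL b g' := by
  rw [toL_eq hg, toL_eq hg', ← MemLp.toLp_add]; exact toL_eq (hg.add hg')

theorem toL_smul (c : ℂ) {g : ℝ → V4} (hg : MemLp g 2 (leafMeas b)) :
    toL b (fun t => c • g t) = c • toL b g := by
  rw [toL_eq hg, ← MemLp.toLp_const_smul]; exact toL_eq (hg.const_smul c)

theorem toL_add_smul (c : ℂ) {g g' : ℝ → V4} (hg : MemLp g 2 (leafMeas b))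
    (hg' : MemLp g' 2 (leafMeas b)) :
    toL b (fun t => g t + c • g' t) = toL b g + c • toL b g' := by
  rw [← toL_smul c hg']; exact toL_add hg (hg'.const_smul c)

theorem inner_toL (hb : Continuous b) {g : ℝ → V4} (hg : MemLp g 2 (leafMeas b))
    (U : Lp V4 2 (leafMeas b)) : ⟪toL b g, U⟫_ℂ = ∫ t, jac b t • ⟪g t, U t⟫_ℂ := by
  rw [L2.inner_def, ← integral_leaf hb]
  refine integral_congr_ae ((toL_ae hg).mono fun t ht => ?_)
  simp only [ht]

theorem inner_toL' (hb : Continuous b) {g g' : ℝ → V4} (hg : MemLp g 2 (leafMeas b))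
    (hg' : MemLp g' 2 (leafMeas b)) :
    ⟪toL b g, toL b g'⟫_ℂ = ∫ t, jac b t • ⟪g t, g' t⟫_ℂ := by
  rw [L2.inner_def, ← integral_leaf hb]
  refine integral_congr_ae (((toL_ae hg).and (toL_ae hg')).mono fun t ht => ?_)
  simp only [ht.1, ht.2]

theorem Dop_cont (hb : Continuous b) (τ : ℝ) {ψ : ℝ → V4} (h1 : ContDiff ℝ ∞ ψ) :
    Continuous (Dop b τ ψ) := by
  have c1 := h1.continuous
  have c2 : Continuous (deriv ψ) := h1.continuous_deriv (by simp)
  have c3 := jac_cont hb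
  rw [funext (Dop_eq b τ ψ)]
  fun_prop (disch := exact fun t => (jac_pos b t).ne')

theorem Dop_cs (τ : ℝ) {ψ : ℝ → V4} (h2 : HasCompactSupport ψ) :
    HasCompactSupport (Dop b τ ψ) := by
  refine HasCompactSupport.intro h2 fun t ht => ?_
  have e1 : ψ t = 0 := image_eq_zero_of_notMem_tsupport ht
  have e2 : deriv ψ t = 0 := by
    by_contra h
    exact ht (support_deriv_subset h)
  simp [Dop_eq, e1, e2]

theorem integrable_cs {ψ : ℝ → V4} (h2 : HasCompactSupport ψ) {F : ℝ → ℂ} (hF : Continuous F)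
    (h : ∀ t, ψ t = 0 → F t = 0) : Integrable F :=
  hF.integrable_of_hasCompactSupport (HasCompactSupport.intro h2 fun t ht =>
    h t (image_eq_zero_of_notMem_tsupport ht))

theorem Dop_symm (hb : Continuous b) (τ : ℝ) {η φ : ℝ → V4} (η1 : ContDiff ℝ ∞ η)
    (η2 : HasCompactSupport η) (φ1 : ContDiff ℝ ∞ φ) :
    ∫ t, jac b t • ⟪Dop b τ η t, φ t⟫_ℂ = ∫ t, jac b t • ⟪η t, Dop b τ φ t⟫_ℂ := by
  have c1 := η1.continuous
  have c2 := φ1.continuous
  have c3 := jac_cont hb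
  have c4 := Dop_cont hb τ η1
  have c5 := Dop_cont hb τ φ1
  have i1 : Integrable fun t => jac b t • ⟪Dop b τ η t, φ t⟫_ℂ :=
    integrable_cs (Dop_cs (b := b) τ η2) (by fun_prop) fun t ht => by simp [ht]
  have i2 : Integrable fun t => jac b t • ⟪η t, Dop b τ φ t⟫_ℂ :=
    integrable_cs η2 (by fun_prop) fun t ht => by simp [ht]
  rw [← sub_eq_zero, ← integral_sub i1 i2]
  refine integral_eq_zero_of_hasDerivAt_of_integrable (f := fun t => jac b t • ⟪Bm (η t), φ t⟫_ℂ)
    (fun t => ?_) (i1.sub i2) (integrable_cs η2 (by fun_prop) fun t ht => by simp [ht])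
  have d1 : HasDerivAt (fun t => Bm (η t)) (Bm (deriv η t)) t :=
    (Bm.restrictScalars ℝ).hasFDerivAt.comp_hasDerivAt t
      (η1.differentiable (by simp) t).hasDerivAt
  refine ((jac_hasDerivAt hb t).smul
    (d1.inner ℂ (φ1.differentiable (by simp) t).hasDerivAt)).congr_deriv ?_
  simp only [Dop_eq, inner_add_left, inner_add_right, inner_smul_left, inner_smul_right, inner_Bm,
    inner_Cm, inner_Em, real_smul, map_mul, conj_I, conj_ofReal]
  push_cast; ring

/-- Test functions. -/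
def Tsub : Submodule ℂ (ℝ → V4) where
  carrier := {ψ | ContDiff ℝ ∞ ψ ∧ HasCompactSupport ψ}
  add_mem' := fun hu hv => ⟨hu.1.add hv.1, hu.2.add hv.2⟩
  zero_mem' := ⟨contDiff_const, HasCompactSupport.zero⟩
  smul_mem' := fun c _ hu => ⟨hu.1.const_smul c, hu.2.smul_left (f := fun _ => c)⟩

theorem memT (hb : Continuous b) (ψ : Tsub) : MemLp ψ.1 2 (leafMeas b) :=
  have := locFin hb
  ψ.2.1.continuous.memLp_of_hasCompactSupport ψ.2.2

theorem memD (hb : Continuous b) (τ : ℝ) (ψ : Tsub) : MemLp (Dop b τ ψ.1) 2 (leafMeas b) :=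
  have := locFin hb
  (Dop_cont hb τ ψ.2.1).memLp_of_hasCompactSupport (Dop_cs τ ψ.2.2)

/-- The inclusion of test functions. -/
noncomputable def jL (hb : Continuous b) : Tsub →ₗ[ℂ] Lp V4 2 (leafMeas b) where
  toFun ψ := toL b ψ.1
  map_add' ψ φ := toL_add (memT hb ψ) (memT hb φ)
  map_smul' c ψ := toL_smul c (memT hb ψ)

/-- The operator on test functions. -/
noncomputable def dL (hb : Continuous b) (τ : ℝ) : Tsub →ₗ[ℂ] Lp V4 2 (leafMeas b) where
  toFun ψ := toL b (Dop b τ ψ.1)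
  map_add' ψ φ := by
    rw [← toL_add (memD hb τ ψ) (memD hb τ φ)]
    congr 1; funext t
    have := deriv_add (ψ.2.1.differentiable (by simp) t) (φ.2.1.differentiable (by simp) t)
    simp only [Dop, Submodule.coe_add, this, Pi.add_apply, smul_add, op_add]
  map_smul' c ψ := by
    rw [RingHom.id_apply, ← toL_smul c (memD hb τ ψ)]
    congr 1; funext t
    have := deriv_const_smul c (ψ.2.1.differentiable (by simp) t)
    simp only [Dop, Submodule.coe_smul, this, Pi.smul_apply, ← op_smul, smul_comm c]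

/-- `D + σ i` on test functions. -/
noncomputable def eL (hb : Continuous b) (τ σ : ℝ) : Tsub →ₗ[ℂ] Lp V4 2 (leafMeas b) :=
  dL hb τ + (σ * I) • jL hb

theorem eL_eq (hb : Continuous b) (τ σ : ℝ) (ψ : Tsub) :
    eL hb τ σ ψ = toL b fun t => Dop b τ ψ.1 t + (σ * I) • ψ.1 t := by
  rw [toL_add_smul _ (memD hb τ ψ) (memT hb ψ)]; rfl

theorem inner_eL (hb : Continuous b) (τ σ : ℝ) (η : Tsub) {φ : ℝ → V4} (φ1 : ContDiff ℝ ∞ φ)
    (φ2 : MemLp φ 2 (leafMeas b)) (φ3 : MemLp (Dop b τ φ) 2 (leafMeas b)) :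
    ⟪eL hb τ σ η, toL b φ⟫_ℂ =
      ⟪jL hb η, toL b fun t => Dop b τ φ t + ((-σ : ℝ) * I) • φ t⟫_ℂ := by
  have h : ⟪dL hb τ η, toL b φ⟫_ℂ = ⟪jL hb η, toL b (Dop b τ φ)⟫_ℂ :=
    (inner_toL' hb (memD hb τ η) φ2).trans
      ((Dop_symm hb τ η.2.1 η.2.2 φ1).trans (inner_toL' hb (memT hb η) φ3).symm)
  rw [toL_add_smul _ φ3 φ2]
  simp only [eL, LinearMap.add_apply, LinearMap.smul_apply, inner_add_left, inner_add_right,
    inner_smul_left, inner_smul_right, h]
  simp

theorem norm_jL_le (hb : Continuous b) (τ : ℝ) (ψ : Tsub) : ‖jL hb ψ‖ ≤ 1 * ‖eL hb τ 1 ψ‖ := by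
  have h : ⟪dL hb τ ψ, jL hb ψ⟫_ℂ = ⟪jL hb ψ, dL hb τ ψ⟫_ℂ :=
    (inner_toL' hb (memD hb τ ψ) (memT hb ψ)).trans
      ((Dop_symm hb τ ψ.2.1 ψ.2.2 ψ.2.1).trans (inner_toL' hb (memT hb ψ) (memD hb τ ψ)).symm)
  rw [← inner_conj_symm, conj_eq_iff_im] at h
  have h2 : (⟪jL hb ψ, eL hb τ 1 ψ⟫_ℂ).im = ‖jL hb ψ‖ ^ 2 := by
    simp only [eL, LinearMap.add_apply, LinearMap.smul_apply, inner_add_right,
      inner_smul_right, add_im, h, inner_self_eq_norm_sq_to_K]
    simp [← ofReal_pow]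
  have h3 := (le_abs_self _).trans ((abs_im_le_norm _).trans
    (norm_inner_le_norm (𝕜 := ℂ) (jL hb ψ) (eL hb τ 1 ψ)))
  rw [h2] at h3
  rcases (norm_nonneg (jL hb ψ)).eq_or_lt with h0 | h0
  · rw [← h0]; positivity
  · nlinarith

theorem locInt_clm {Y : ℝ → V4} (hY : LocallyIntegrable Y volume) (L : V4 →L[ℂ] V4) :
    LocallyIntegrable (fun t => L (Y t)) volume :=
  locallyIntegrable_iff.2 fun _ hK => L.integrable_comp (hY.integrableOn_isCompact hK)

/-- The zero order part of the adjoint equation. -/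
noncomputable def Gam (β θ σ : ℝ) (v : V4) : V4 :=
  (I * θ) • Cm v + (β : ℂ) • (Em v - Bm v) - (σ * I) • v

theorem weak_pt (β θ σ w φ φ' : ℝ) (e U : V4) :
    ⟪e, φ' • -Bm (w • U) + φ • Gam β θ σ (w • U)⟫_ℂ =
      w • ⟪Bm (φ' • e) + (I * θ) • Cm (φ • e) + (β : ℂ) • Em (φ • e) + (σ * I) • φ • e, U⟫_ℂ := by
  simp only [Gam, ← coe_smul, map_smul,
    inner_add_left, inner_add_right, inner_smul_left, inner_smul_right, inner_Bm,
    inner_Cm, inner_Em, map_mul, conj_I, conj_ofReal, inner_sub_right, inner_neg_right,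
    smul_eq_mul]
  ring

theorem wr_pt (β θ σ : ℝ) (z : V4) :
    ⟪z, Bm (Gam β θ σ (Bm z))⟫_ℂ + ⟪Gam β θ σ (Bm z), Bm z⟫_ℂ =
      β * ⟪z, Bm z⟫_ℂ + 2 * σ * I * (‖z‖ ^ 2 : ℝ) := by
  have e : ((‖z‖ ^ 2 : ℝ) : ℂ) = ⟪z, z⟫_ℂ := by
    rw [inner_self_eq_norm_sq_to_K]; push_cast; rfl
  rw [e]
  simp only [Gam, PiLp.inner_apply, Fin.sum_univ_four]
  simp [Bm_apply, Cm_apply, Em_apply, -inner_self_eq_norm_sq_to_K]
  ring

theorem ode_zero (hb : Continuous b) (θ : ℝ → ℝ) {σ : ℝ} (hσ : σ ^ 2 = 1) {Z : ℝ → V4}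
    (dZ : ∀ t, HasDerivAt Z (Gam (b t) (θ t) σ (Bm (Z t))) t)
    (hi : Integrable fun t => ‖Z t‖ ^ 2 / jac b t) (t : ℝ) : Z t = 0 := by
  have dm : ∀ t, HasDerivAt (fun t => σ * (⟪Z t, Bm (Z t)⟫_ℂ).im / jac b t)
      (2 * ‖Z t‖ ^ 2 / jac b t) t := by
    intro t
    have d1 : HasDerivAt (fun t => Bm (Z t)) (Bm (Gam (b t) (θ t) σ (Bm (Z t)))) t :=
      (Bm.restrictScalars ℝ).hasFDerivAt.comp_hasDerivAt t (dZ t)
    have d2 := ((dZ t).inner ℂ d1).congr_deriv (wr_pt _ _ _ _)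
    have d3 : HasDerivAt (fun t => (⟪Z t, Bm (Z t)⟫_ℂ).im)
        (b t * (⟪Z t, Bm (Z t)⟫_ℂ).im + 2 * σ * ‖Z t‖ ^ 2) t := by
      refine (imCLM.hasFDerivAt.comp_hasDerivAt t d2).congr_deriv ?_
      simp only [imCLM_apply, add_im, mul_im, mul_re, ofReal_re, ofReal_im, I_re, I_im,
        re_ofNat, im_ofNat]
      ring
    refine ((d3.const_mul σ).div (jac_hasDerivAt hb t) (jac_pos b t).ne').congr_deriv ?_
    have := (jac_pos b t).ne'
    field_simp
    linear_combination (2 * ‖Z t‖ ^ 2) * hσ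
  have mm : Monotone fun t => σ * (⟪Z t, Bm (Z t)⟫_ℂ).im / jac b t :=
    monotone_of_deriv_nonneg (fun t => (dm t).differentiableAt) fun t => by
      rw [(dm t).deriv]; have := jac_pos b t; positivity
  have im : Integrable fun t => σ * (⟪Z t, Bm (Z t)⟫_ℂ).im / jac b t := by
    refine hi.mono' (continuous_iff_continuousAt.2 fun t =>
      (dm t).continuousAt).aestronglyMeasurable (Eventually.of_forall fun t => ?_)
    have hw := jac_pos b t
    have e2 : |(⟪Z t, Bm (Z t)⟫_ℂ).im| ≤ ‖Z t‖ ^ 2 := by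
      refine (abs_im_le_norm _).trans ((norm_inner_le_norm _ _).trans (le_of_eq ?_))
      rw [norm_Bm, sq]
    have e3 : |σ| = 1 := by rw [← sq_eq_sq₀ (abs_nonneg _) zero_le_one, sq_abs, hσ, one_pow]
    rw [Real.norm_eq_abs, abs_div, abs_mul, e3, abs_of_pos hw, one_mul]
    gcongr
  have m0 := funext (eq_zero_of_monotone mm im)
  have h0 := dm t
  rw [m0] at h0
  have h1 := h0.unique (hasDerivAt_const t 0)
  have := (jac_pos b t).ne'
  simpa [this] using h1

end Pool.Agent.P.MP_e0a138_an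
end

-- part Pool.Agent.P.MP_e0a138_an.Res
section

set_option autoImplicit false

open MeasureTheory Filter Topology Set Complex
open scoped ComplexConjugate InnerProductSpace ContDiff ENNReal

namespace Pool.Agent.P.MP_e0a138_an

variable {b : ℝ → ℝ}

theorem weak_eq (hb : Continuous b) (τ σ : ℝ)
    (U : Lp V4 2 (leafMeas b)) (hU : ∀ ψ, ⟪eL hb τ σ ψ, U⟫_ℂ = 0)
    (hZ : LocallyIntegrable (fun t => -Bm (jac b t • U t)) volume)
    (hG : LocallyIntegrable (fun t => Gam (b t) (τ / jac b t) σ (jac b t • U t)) volume)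
    (φ : ℝ → ℝ) (φ1 : ContDiff ℝ ∞ φ) (φ2 : HasCompactSupport φ) :
    ∫ t, deriv φ t • -Bm (jac b t • U t) =
      -∫ t, φ t • Gam (b t) (τ / jac b t) σ (jac b t • U t) := by
  have i1 := hZ.integrable_smul_left_of_hasCompactSupport
    (φ1.continuous_deriv (by simp)) φ2.deriv
  have i2 := hG.integrable_smul_left_of_hasCompactSupport φ1.continuous φ2
  rw [eq_neg_iff_add_eq_zero, ← integral_add i1 i2]
  refine ext_inner_left ℂ fun e => ?_
  have i3 : Integrable fun t => deriv φ t • -Bm (jac b t • U t) +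
    φ t • Gam (b t) (τ / jac b t) σ (jac b t • U t) := i1.add i2
  rw [inner_zero_right]
  refine (integral_inner (𝕜 := ℂ) i3 e).symm.trans ?_
  let ψ : Tsub := ⟨fun t => φ t • e, φ1.smul contDiff_const, φ2.smul_right⟩
  have i4 : MemLp (fun t => Dop b τ ψ.1 t + (σ * I) • ψ.1 t) 2 (leafMeas b) :=
    (memD hb τ ψ).add ((memT hb ψ).const_smul (σ * I : ℂ))
  have h0 := hU ψ
  rw [eL_eq, inner_toL hb i4] at h0
  refine Eq.trans ?_ h0
  refine integral_congr_ae (Eventually.of_forall fun t => ?_)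
  have hd : deriv ψ.1 t = deriv φ t • e :=
    ((φ1.differentiable (by simp) t).hasDerivAt.smul_const e).deriv
  have hv : ψ.1 t = φ t • e := rfl
  simp only [Dop_eq, hd, hv]
  exact weak_pt _ _ _ _ _ _ _ _

theorem strong_eq (hb : Continuous b) (τ σ : ℝ) {Y : ℝ → V4}
    (hG : LocallyIntegrable (fun t => Gam (b t) (τ / jac b t) σ (Y t)) volume) {c : V4}
    (hc : ∀ᵐ t, -Bm (Y t) = c + ∫ s in (0 : ℝ)..t, Gam (b s) (τ / jac b s) σ (Y s)) :
    ∃ Z : ℝ → V4, (∀ᵐ t, Y t = Bm (Z t)) ∧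
      ∀ t, HasDerivAt Z (Gam (b t) (τ / jac b t) σ (Bm (Z t))) t := by
  have c3 := jac_cont hb
  have c4 : Continuous fun t => I * (τ / jac b t : ℝ) := by
    fun_prop (disch := exact fun t => (jac_pos b t).ne')
  obtain ⟨Z, hZd⟩ : ∃ Z : ℝ → V4, Z = fun t =>
    c + ∫ s in (0 : ℝ)..t, Gam (b s) (τ / jac b s) σ (Y s) := ⟨_, rfl⟩
  have cZ : Continuous Z := by
    rw [hZd]
    exact continuous_const.add (intervalIntegral.continuous_primitive
      (fun _ _ => (hG.integrableOn_isCompact isCompact_uIcc).intervalIntegrable) 0)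
  have hYZ : ∀ᵐ t, Y t = Bm (Z t) := hc.mono fun t ht => by
    rw [congrFun hZd t, ← ht, map_neg, Bm_Bm, neg_neg]
  have cG : Continuous fun t => Gam (b t) (τ / jac b t) σ (Bm (Z t)) := by
    unfold Gam; fun_prop
  refine ⟨Z, hYZ, fun t => ?_⟩
  have : Z = fun t => c + ∫ s in (0 : ℝ)..t, Gam (b s) (τ / jac b s) σ (Bm (Z s)) := by
    funext t
    rw [congrFun hZd t,
      intervalIntegral.integral_congr_ae (hYZ.mono fun s hs _ => by rw [hs])]
  have h := ((cG.integral_hasStrictDerivAt 0 t).hasDerivAt).const_add c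
  rwa [← this] at h

theorem eq_zero_of_orth (hb : Continuous b) (τ : ℝ) {σ : ℝ} (hσ : σ ^ 2 = 1)
    (U : Lp V4 2 (leafMeas b)) (hU : ∀ ψ, ⟪eL hb τ σ ψ, U⟫_ℂ = 0) : U = 0 := by
  have := locFin hb
  have c3 := jac_cont hb
  have c4 : Continuous fun t => I * (τ / jac b t : ℝ) := by
    fun_prop (disch := exact fun t => (jac_pos b t).ne')
  have hY : LocallyIntegrable (fun t => jac b t • U t) volume :=
    locallyIntegrable_iff.2 fun K hK => (integrable_leaf hb _ hK.measurableSet).1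
      (((Lp.memLp U).locallyIntegrable one_le_two).integrableOn_isCompact hK)
  have hZ : LocallyIntegrable (fun t => -Bm (jac b t • U t)) volume := (locInt_clm hY Bm).neg
  have hG : LocallyIntegrable (fun t => Gam (b t) (τ / jac b t) σ (jac b t • U t)) volume :=
    (((locInt_clm hY Cm).continuous_smul c4).add
      (((locInt_clm hY Em).sub (locInt_clm hY Bm)).continuous_smul
        (continuous_ofReal.comp hb))).sub (hY.smul (σ * I))
  obtain ⟨c, hc⟩ := ae_eq_primitive hZ hG (weak_eq hb τ σ U hU hZ hG)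
  obtain ⟨Z, hYZ, dZ⟩ := strong_eq hb τ σ hG hc
  have hi : Integrable fun t => ‖Z t‖ ^ 2 / jac b t := by
    have h1 : Integrable (fun t => ‖U t‖ ^ 2) (leafMeas b) :=
      (memLp_two_iff_integrable_sq_norm (Lp.aestronglyMeasurable U)).1 (Lp.memLp U)
    rw [← integrableOn_univ, integrable_leaf hb _ MeasurableSet.univ, integrableOn_univ] at h1
    refine h1.congr (hYZ.mono fun t ht => ?_)
    have hw := jac_pos b t
    have e1 : ‖Z t‖ = jac b t * ‖U t‖ := by
      rw [← norm_Bm, ← ht]; simp only [norm_smul, Real.norm_eq_abs, abs_of_pos hw]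
    simp only [e1, smul_eq_mul]
    field_simp
  have hz := ode_zero hb _ hσ dZ hi
  have h0 : ∀ᵐ t, U t = 0 := hYZ.mono fun t ht => by
    rw [hz, map_zero] at ht
    exact (smul_eq_zero.1 ht).resolve_left (jac_pos b t).ne'
  have h1 : ∀ᵐ t ∂leafMeas b, U t = 0 := (leaf_ac b).ae_le h0
  exact Lp.eq_zero_iff_ae_eq_zero.2 h1

theorem dense_eL (hb : Continuous b) (τ : ℝ) {σ : ℝ} (hσ : σ ^ 2 = 1) :
    DenseRange (eL hb τ σ) := by
  have : Dense ((LinearMap.range (eL hb τ σ) : Submodule ℂ _) : Set (Lp V4 2 (leafMeas b))) := by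
    rw [Submodule.dense_iff_topologicalClosure_eq_top, Submodule.topologicalClosure_eq_top_iff,
      Submodule.eq_bot_iff]
    intro U hU
    exact eq_zero_of_orth hb τ hσ U fun ψ => hU _ ⟨ψ, rfl⟩
  exact this

theorem isRes_iff (hb : Continuous b) (τ : ℝ) (R : Lp V4 2 (leafMeas b) →L[ℂ] Lp V4 2 (leafMeas b)) :
    IsRes b τ R ↔ ∀ ψ, R (eL hb τ 1 ψ) = jL hb ψ := by
  constructor
  · intro h ψ
    rw [eL_eq, ofReal_one, one_mul]
    exact h ψ.1 ψ.2.1 ψ.2.2
  · intro h ψ h1 h2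
    have := h ⟨ψ, h1, h2⟩
    rw [eL_eq, ofReal_one, one_mul] at this
    exact this

theorem existsUnique_res (hb : Continuous b) (τ : ℝ) : ∃! R, IsRes b τ R := by
  have hd := dense_eL hb τ (σ := 1) (by norm_num)
  refine ⟨(jL hb).extendOfNorm (eL hb τ 1), (isRes_iff hb τ _).2
    (LinearMap.extendOfNorm_eq hd ⟨1, norm_jL_le hb τ⟩), fun R hR => ?_⟩
  exact (LinearMap.extendOfNorm_unique hd 1 (norm_jL_le hb τ) R
    (LinearMap.ext ((isRes_iff hb τ R).1 hR))).symm

theorem eq_of_inner_eL (hb : Continuous b) (τ : ℝ) {σ : ℝ} (hσ : σ ^ 2 = 1)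
    {U V : Lp V4 2 (leafMeas b)} (h : ∀ ψ, ⟪eL hb τ σ ψ, U⟫_ℂ = ⟪eL hb τ σ ψ, V⟫_ℂ) : U = V :=
  sub_eq_zero.1 (eq_zero_of_orth hb τ hσ _ fun ψ => by rw [inner_sub_right, h, sub_self])

theorem star_res (hb : Continuous b) {τ : ℝ} {R : Lp V4 2 (leafMeas b) →L[ℂ] Lp V4 2 (leafMeas b)}
    (hR : IsRes b τ R) {φ : ℝ → V4} (φ1 : ContDiff ℝ ∞ φ)
    (φ2 : MemLp φ 2 (leafMeas b)) (φ3 : MemLp (Dop b τ φ) 2 (leafMeas b)) :
    star R (toL b fun t => Dop b τ φ t + ((-1 : ℝ) * I) • φ t) = toL b φ := by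
  refine eq_of_inner_eL hb τ (σ := 1) (by norm_num) fun η => ?_
  rw [ContinuousLinearMap.star_eq_adjoint, ContinuousLinearMap.adjoint_inner_right,
    (isRes_iff hb τ R).1 hR, inner_eL hb τ 1 η φ1 φ2 φ3]

theorem res_apply (hb : Continuous b) {τ : ℝ} {R : Lp V4 2 (leafMeas b) →L[ℂ] Lp V4 2 (leafMeas b)}
    (hR : IsRes b τ R) {φ : ℝ → V4} (φ1 : ContDiff ℝ ∞ φ)
    (φ2 : MemLp φ 2 (leafMeas b)) (φ3 : MemLp (Dop b τ φ) 2 (leafMeas b)) :
    R (toL b fun t => Dop b τ φ t + ((1 : ℝ) * I) • φ t) = toL b φ := by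
  refine eq_of_inner_eL hb τ (σ := -1) (by norm_num) fun η => ?_
  rw [← ContinuousLinearMap.adjoint_inner_left, ← ContinuousLinearMap.star_eq_adjoint,
    inner_eL hb τ (-1) η φ1 φ2 φ3, neg_neg, eL_eq,
    star_res hb hR η.2.1 (memT hb η) (memD hb τ η)]
  rfl

theorem res_normal (hb : Continuous b) {τ : ℝ}
    {R : Lp V4 2 (leafMeas b) →L[ℂ] Lp V4 2 (leafMeas b)} (hR : IsRes b τ R) :
    IsStarNormal R ∧ R - star R = (-2 * I) • (star R * R) := by
  have h1 : ∀ ψ, R (eL hb τ 1 ψ) = jL hb ψ := (isRes_iff hb τ R).1 hR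
  have h2 : ∀ ψ, star R (eL hb τ (-1) ψ) = jL hb ψ := fun ψ => by
    rw [eL_eq, star_res hb hR ψ.2.1 (memT hb ψ) (memD hb τ ψ)]; rfl
  have h3 : ∀ ψ, eL hb τ 1 ψ = eL hb τ (-1) ψ + (2 * I) • jL hb ψ := fun ψ => by
    simp only [eL, LinearMap.add_apply, LinearMap.smul_apply, add_assoc, ← add_smul]
    congr 2; push_cast; ring
  have e1 : R - star R = (-2 * I) • (star R * R) := by
    refine ContinuousLinearMap.ext fun U => ?_
    refine (dense_eL hb τ (σ := 1) (by norm_num)).induction_on U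
      (isClosed_eq (by fun_prop) (by fun_prop)) fun ψ => ?_
    rw [sub_apply, smul_apply, mul_apply_eq_comp, h1, h3, map_add, h2, map_smul]
    module
  have e2 : R - star R = (-2 * I) • (R * star R) := by
    refine ContinuousLinearMap.ext fun U => ?_
    refine (dense_eL hb τ (σ := -1) (by norm_num)).induction_on U
      (isClosed_eq (by fun_prop) (by fun_prop)) fun ψ => ?_
    have := h1 ψ
    rw [h3, map_add, map_smul] at this
    rw [sub_apply, smul_apply, mul_apply_eq_comp, h2]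
    linear_combination (norm := module) this
  refine ⟨⟨?_⟩, e1⟩
  have : (-2 * I : ℂ) ≠ 0 := by simp
  exact smul_right_injective _ this (e1.symm.trans e2)

end Pool.Agent.P.MP_e0a138_an
end

-- part Pool.Agent.P.MP_e0a138_an.Spec
section

set_option autoImplicit false

open MeasureTheory Filter Topology Set
open scoped InnerProductSpace

namespace Pool.Agent.P.MP_e0a138_an

variable {H : Type} [NormedAddCommGroup H] [InnerProductSpace ℂ H] [CompleteSpace H]

theorem cont_F {f : ℝ → ℝ} (hf : Continuous f) (hf6 : ∀ x, 6 < |x| → f x = 0) :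
    Continuous fun r : ℝ => if 0 < r then f √(r⁻¹ - 1) else 0 := by
  rw [continuous_iff_continuousAt]
  intro r
  by_cases hr : 0 < r
  · have : ContinuousAt (fun r : ℝ => f √(r⁻¹ - 1)) r := by
      fun_prop (disch := exact hr.ne')
    refine this.congr ?_
    filter_upwards [lt_mem_nhds hr] with s hs
    rw [if_pos hs]
  · refine (continuousAt_const (y := (0 : ℝ))).congr ?_
    have : r < 1 / 50 := by linarith [not_lt.1 hr]
    filter_upwards [gt_mem_nhds this] with s hs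
    split_ifs with h
    · rw [hf6]
      rw [abs_of_nonneg (Real.sqrt_nonneg _)]
      apply Real.lt_sqrt_of_sq_lt
      have : 50 < s⁻¹ := by rwa [lt_inv_comm₀ (by norm_num) h, inv_eq_one_div]
      linarith
    · rfl

theorem fc_pos {f : ℝ → ℝ} (hf0 : ∀ x, 0 ≤ f x) (R : H →L[ℂ] H) : (fc f R).IsPositive := by
  rw [← ContinuousLinearMap.nonneg_iff_isPositive]
  refine cfc_nonneg fun x _ => ?_
  split_ifs
  · exact hf0 _
  · rfl

theorem fc_fix {f : ℝ → ℝ} (hf : Continuous f) (hf6 : ∀ x, 6 < |x| → f x = 0)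
    (hf0 : ∀ x, 0 ≤ f x) (hf1 : ∀ x, f x ≤ 1) {c : ℝ} (hc : 0 ≤ c)
    (hfc : ∀ x, |x| ≤ c → f x = 1) (R : H →L[ℂ] H) (ψ : ℕ → H)
    (hψ : ∀ n, (star R * R) (ψ (n + 1)) = ψ n) {C M : ℝ} (hM0 : 0 ≤ M) (hM : M < 1 + c ^ 2)
    (hn : ∀ n, ‖ψ n‖ ≤ C * M ^ n) : fc f R (ψ 0) = ψ 0 := by
  set S := star R * R with hS
  have hsa : IsSelfAdjoint S := IsSelfAdjoint.star_mul_self R
  have cF := cont_F hf hf6
  set F := fun r : ℝ => if 0 < r then f √(r⁻¹ - 1) else 0 with hF
  have h1 : ∀ n, (S ^ n) (ψ n) = ψ 0 := by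
    intro n
    induction n with
    | zero => simp
    | succ n ih => rw [pow_succ, mul_apply_eq_comp, hψ, ih]
  have hp : 0 < 1 + c ^ 2 := by positivity
  have h2 : ∀ n, ‖ψ 0 - fc f R (ψ 0)‖ ≤ C * (M / (1 + c ^ 2)) ^ n := by
    intro n
    have e1 : cfc (fun r => (1 - F r) * r ^ n) S = (1 - cfc F S) * S ^ n := by
      rw [cfc_mul _ _ S, cfc_sub _ _ S, cfc_const_one ℝ S, cfc_pow_id S n]
    have e2 : ‖cfc (fun r => (1 - F r) * r ^ n) S‖ ≤ (1 + c ^ 2)⁻¹ ^ n := by
      refine norm_cfc_le (by positivity) fun r hr => ?_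
      have hr0 : 0 ≤ r := spectrum_star_mul_self_nonneg r hr
      by_cases h : (1 + c ^ 2)⁻¹ ≤ r
      · have hr1 : 0 < r := lt_of_lt_of_le (by positivity) h
        have : F r = 1 := by
          simp only [hF, if_pos hr1]
          apply hfc
          rw [abs_of_nonneg (Real.sqrt_nonneg _), Real.sqrt_le_left hc]
          have := (inv_le_comm₀ hp hr1).1 h
          linarith
        rw [this]; simp; positivity
      · have a0 : 0 ≤ F r := by
          simp only [hF]; split_ifs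
          · exact hf0 _
          · rfl
        have a1 : F r ≤ 1 := by
          simp only [hF]; split_ifs
          · exact hf1 _
          · norm_num
        rw [Real.norm_eq_abs, abs_of_nonneg (mul_nonneg (by linarith) (by positivity))]
        calc (1 - F r) * r ^ n ≤ 1 * (1 + c ^ 2)⁻¹ ^ n := by
              gcongr
              · linarith
              · exact (not_le.1 h).le
          _ = _ := one_mul _
    have e3 : ψ 0 - fc f R (ψ 0) = cfc (fun r => (1 - F r) * r ^ n) S (ψ n) := by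
      rw [e1, mul_apply_eq_comp, h1]; rfl
    rw [e3]
    refine (ContinuousLinearMap.le_opNorm _ _).trans ?_
    calc _ ≤ (1 + c ^ 2)⁻¹ ^ n * (C * M ^ n) := by gcongr; exact hn n
      _ = _ := by rw [div_eq_mul_inv, mul_pow]; ring
  have h3 : Tendsto (fun n : ℕ => C * (M / (1 + c ^ 2)) ^ n) atTop (𝓝 (C * 0)) :=
    (tendsto_pow_atTop_nhds_zero_of_lt_one (by positivity) ((div_lt_one hp).2 hM)).const_mul C
  have h4 := ge_of_tendsto' h3 h2
  rw [mul_zero, norm_le_zero_iff, sub_eq_zero] at h4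
  exact h4.symm

omit [CompleteSpace H] in
theorem re_inner_ge {T : H →L[ℂ] H} (hT : T.IsPositive) {ψ : H} (hψ : T ψ = ψ) (δ : H) :
    2 * (⟪ψ, δ⟫_ℂ).re - ‖ψ‖ ^ 2 ≤ (⟪δ, T δ⟫_ℂ).re := by
  have h := hT.re_inner_nonneg_right (δ - ψ)
  have h1 : ⟪ψ, T δ⟫_ℂ = ⟪ψ, δ⟫_ℂ := by
    have := hT.isSymmetric ψ δ
    simp only [ContinuousLinearMap.coe_coe, hψ] at this
    exact this.symm
  have h2 : (⟪δ, ψ⟫_ℂ).re = (⟪ψ, δ⟫_ℂ).re := inner_re_symm (𝕜 := ℂ) δ ψ
  have h3 : (⟪ψ, ψ⟫_ℂ).re = ‖ψ‖ ^ 2 := inner_self_eq_norm_sq (𝕜 := ℂ) ψ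
  rw [map_sub, hψ, inner_sub_left, inner_sub_right, inner_sub_right, h1] at h
  simp only [RCLike.re_to_complex, Complex.sub_re] at h
  linarith

end Pool.Agent.P.MP_e0a138_an
end

-- part Pool.Agent.P.MP_e0a138_an.Lower
section

set_option autoImplicit false

open MeasureTheory Filter Topology Set Complex
open scoped ComplexConjugate InnerProductSpace ContDiff ENNReal FourierTransform Real SchwartzMap

namespace Pool.Agent.P.MP_e0a138_an

variable {b : ℝ → ℝ}

theorem cont0 (h0 : ∀ t, b t = 0) : Continuous b := by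
  rw [show b = fun _ => 0 from funext h0]; exact continuous_const

theorem jac0 (h0 : ∀ t, b t = 0) (t : ℝ) : jac b t = 1 := by simp [jac, h0]

theorem leaf0 (h0 : ∀ t, b t = 0) : leafMeas b = volume := by
  simp only [leafMeas, jac0 h0, ENNReal.ofReal_one]
  exact withDensity_one

/-- A test function as a Schwartz function. -/
noncomputable def sch (m : Tsub) : 𝓢(ℝ, V4) := m.2.2.toSchwartzMap m.2.1

theorem four_eq (m : Tsub) : 𝓕 m.1 = (𝓕 (sch m) : 𝓢(ℝ, V4)) := rfl

theorem four_smooth (m : Tsub) : ContDiff ℝ ∞ (𝓕 m.1) := (𝓕 (sch m) : 𝓢(ℝ, V4)).smooth ⊤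

theorem four_mem (h0 : ∀ t, b t = 0) (m : Tsub) : MemLp (𝓕 m.1) 2 (leafMeas b) := by
  rw [leaf0 h0]; exact (𝓕 (sch m) : 𝓢(ℝ, V4)).memLp 2

theorem four_norm (h0 : ∀ t, b t = 0) (m : Tsub) :
    ‖toL b (𝓕 m.1)‖ ^ 2 = ∫ ξ, ‖m.1 ξ‖ ^ 2 := by
  have h := inner_toL' (cont0 h0) (four_mem h0 m) (four_mem h0 m)
  simp only [jac0 h0, one_smul] at h
  rw [four_eq, SchwartzMap.integral_inner_fourier_fourier, ← four_eq] at h
  simp only [inner_self_eq_norm_sq_to_K] at h
  have h2 : ((‖toL b (𝓕 m.1)‖ ^ 2 : ℝ) : ℂ) = ((∫ ξ, ‖m.1 ξ‖ ^ 2 : ℝ) : ℂ) := by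
    rw [← integral_complex_ofReal]
    push_cast
    exact h
  exact_mod_cast h2

/-- The symbol of `D + c`. -/
noncomputable def sym (τ : ℝ) (c : ℂ) (m : Tsub) : Tsub :=
  ⟨fun ξ => Bm ((-2 * π * I * ξ) • m.1 ξ) + (I * τ) • Cm (m.1 ξ) + c • m.1 ξ, by
    have h1 := m.2.1
    have h2 : ContDiff ℝ ∞ fun ξ : ℝ => (-2 * π * I * ξ : ℂ) :=
      contDiff_const.mul ofRealCLM.contDiff
    exact (((Bm.restrictScalars ℝ).contDiff.comp (h2.smul h1)).add
      (((Cm.restrictScalars ℝ).contDiff.comp h1).const_smul _)).add (h1.const_smul _),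
    HasCompactSupport.intro m.2.2 fun t ht => by
      simp [image_eq_zero_of_notMem_tsupport ht]⟩

theorem four_clm (L : V4 →L[ℂ] V4) {g : ℝ → V4} (hg : Integrable g) (t : ℝ) :
    L (𝓕 g t) = 𝓕 (fun ξ => L (g ξ)) t := by
  rw [Real.fourier_eq, Real.fourier_eq, ← L.integral_comp_comm
    ((Real.fourierIntegral_convergent_iff t).2 hg)]
  simp only [Circle.smul_def, map_smul]

theorem four_add {g g' : ℝ → V4} (hg : Integrable g) (hg' : Integrable g') (t : ℝ) :
    𝓕 (fun ξ => g ξ + g' ξ) t = 𝓕 g t + 𝓕 g' t := by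
  simp only [Real.fourier_eq, smul_add]
  exact integral_add ((Real.fourierIntegral_convergent_iff t).2 hg)
    ((Real.fourierIntegral_convergent_iff t).2 hg')

theorem four_smul (c : ℂ) (g : ℝ → V4) (t : ℝ) : 𝓕 (fun ξ => c • g ξ) t = c • 𝓕 g t := by
  simp only [Real.fourier_eq, smul_comm _ c, integral_smul]

theorem Dop_four (h0 : ∀ t, b t = 0) (τ : ℝ) (c : ℂ) (m : Tsub) :
    (fun t => Dop b τ (𝓕 m.1) t + c • 𝓕 m.1 t) = 𝓕 (sym τ c m).1 := by
  have c1 := m.2.1.continuous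
  have i1 : Integrable m.1 := c1.integrable_of_hasCompactSupport m.2.2
  have i2 : Integrable fun ξ : ℝ => ξ • m.1 ξ :=
    (continuous_id.smul c1).integrable_of_hasCompactSupport m.2.2.smul_left
  have i3 : Integrable fun ξ : ℝ => (-2 * π * I * ξ : ℂ) • m.1 ξ :=
    Continuous.integrable_of_hasCompactSupport (by fun_prop)
      (m.2.2.smul_left (f := fun ξ : ℝ => (-2 * π * I * ξ : ℂ)))
  have i4 : Integrable fun ξ : ℝ => Bm ((-2 * π * I * ξ : ℂ) • m.1 ξ) := Bm.integrable_comp i3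
  have i5 : Integrable fun ξ : ℝ => (I * τ) • Cm (m.1 ξ) := (Cm.integrable_comp i1).smul (I * τ)
  have i6 : Integrable fun ξ : ℝ => c • m.1 ξ := i1.smul c
  have i7 : Integrable fun ξ : ℝ => Bm ((-2 * π * I * ξ : ℂ) • m.1 ξ) + (I * τ) • Cm (m.1 ξ) :=
    i4.add i5
  funext t
  rw [Dop_eq, Real.deriv_fourier i1 i2, four_clm Bm i3, four_clm Cm i1, jac0 h0, h0]
  simp only [sym]
  rw [four_add i7 i6, four_add i4 i5, four_smul, four_smul]
  simp

theorem Dop_four_mem (h0 : ∀ t, b t = 0) (τ : ℝ) (m : Tsub) :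
    MemLp (Dop b τ (𝓕 m.1)) 2 (leafMeas b) := by
  have := four_mem h0 (sym τ 0 m)
  rw [← Dop_four h0] at this
  simpa using this

theorem sym_sym (τ : ℝ) (m : Tsub) (ξ : ℝ) :
    (sym τ ((1 : ℝ) * I) (sym τ ((-1 : ℝ) * I) m)).1 ξ =
      ((1 + τ ^ 2 + 4 * π ^ 2 * ξ ^ 2 : ℝ) : ℂ) • m.1 ξ := by
  have hI : I ^ 2 = -1 := I_sq
  ext i
  fin_cases i <;> simp [sym, Bm_apply, Cm_apply] <;> ring_nf <;> simp only [hI] <;> ring

theorem S_four (h0 : ∀ t, b t = 0) {τ : ℝ} {R : Lp V4 2 (leafMeas b) →L[ℂ] Lp V4 2 (leafMeas b)}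
    (hR : IsRes b τ R) (m m' : Tsub)
    (h : ∀ ξ, m'.1 ξ = ((1 + τ ^ 2 + 4 * π ^ 2 * ξ ^ 2 : ℝ) : ℂ) • m.1 ξ) :
    (star R * R) (toL b (𝓕 m'.1)) = toL b (𝓕 m.1) := by
  have e : m'.1 = (sym τ ((1 : ℝ) * I) (sym τ ((-1 : ℝ) * I) m)).1 :=
    funext fun ξ => by rw [h, sym_sym]
  rw [e, mul_apply_eq_comp, ← Dop_four h0,
    res_apply (cont0 h0) hR (four_smooth _) (four_mem h0 _) (Dop_four_mem h0 τ _), ← Dop_four h0,
    star_res (cont0 h0) hR (four_smooth _) (four_mem h0 _) (Dop_four_mem h0 τ _)]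

/-- The band-limited test functions. -/
noncomputable def mn (χ : ContDiffBump (0 : ℝ)) (τ : ℝ) (e : V4) (n : ℕ) : Tsub :=
  ⟨fun ξ => ((1 + τ ^ 2 + 4 * π ^ 2 * ξ ^ 2) ^ n * χ ξ) • e,
    (ContDiff.mul (by fun_prop) χ.contDiff).smul contDiff_const,
    (χ.hasCompactSupport.mul_left).smul_right⟩

theorem fix_four (h0 : ∀ t, b t = 0) {τ : ℝ}
    {R : Lp V4 2 (leafMeas b) →L[ℂ] Lp V4 2 (leafMeas b)} (hR : IsRes b τ R)
    {f : ℝ → ℝ} (hf : Continuous f) (hf6 : ∀ x, 6 < |x| → f x = 0)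
    (hf0 : ∀ x, 0 ≤ f x) (hf1 : ∀ x, f x ≤ 1) {c : ℝ} (hc : 0 ≤ c)
    (hfc : ∀ x, |x| ≤ c → f x = 1) (χ : ContDiffBump (0 : ℝ))
    (hχ : τ ^ 2 + 4 * π ^ 2 * χ.rOut ^ 2 < c ^ 2) (e : V4) :
    fc f R (toL b (𝓕 (mn χ τ e 0).1)) = toL b (𝓕 (mn χ τ e 0).1) := by
  refine fc_fix hf hf6 hf0 hf1 hc hfc R (fun n => toL b (𝓕 (mn χ τ e n).1)) (fun n => ?_)
    (C := ‖toL b (𝓕 (mn χ τ e 0).1)‖) (M := 1 + τ ^ 2 + 4 * π ^ 2 * χ.rOut ^ 2) (by positivity)
    (by linarith) fun n => ?_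
  · refine S_four h0 hR _ _ fun ξ => ?_
    simp only [mn, coe_smul, smul_smul]
    congr 1; ring
  · apply le_of_sq_le_sq _ (by positivity)
    rw [mul_pow, four_norm h0, four_norm h0, ← integral_mul_const]
    have i : ∀ n, Integrable fun ξ => ‖(mn χ τ e n).1 ξ‖ ^ 2 := fun n =>
      ((mn χ τ e n).2.1.continuous.norm.pow 2).integrable_of_hasCompactSupport
        (HasCompactSupport.intro (mn χ τ e n).2.2 fun t ht => by
          simp [image_eq_zero_of_notMem_tsupport ht])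
    refine integral_mono (i n) ((i 0).mul_const _) fun ξ => ?_
    simp only [mn, pow_zero, one_mul, norm_smul, norm_mul, Real.norm_eq_abs]
    by_cases hξ : χ.rOut ≤ |ξ|
    · rw [χ.zero_of_le_dist (by simpa using hξ)]; simp
    · have h1 : ξ ^ 2 ≤ χ.rOut ^ 2 := by
        rw [← sq_abs ξ]; gcongr; exact (not_le.1 hξ).le
      rw [← mul_pow, abs_of_nonneg (a := _ ^ n) (by positivity), mul_comm (_ * ‖e‖), mul_assoc]
      gcongr

theorem tendsto_avg {g : ℝ → ℂ} (hg : Continuous g) :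
    Tendsto (fun ε : ℝ => ∫ t in Icc 0 ε, (ε⁻¹ : ℝ) * g t) (𝓝[>] 0) (𝓝 (g 0)) := by
  have h := (hg.integral_hasStrictDerivAt 0 0).hasDerivAt.tendsto_slope_zero_right
  refine h.congr' ?_
  filter_upwards [self_mem_nhdsWithin] with ε hε
  rw [integral_const_mul, zero_add, intervalIntegral.integral_same, sub_zero,
    intervalIntegral.integral_of_le (le_of_lt hε), integral_Icc_eq_integral_Ioc, real_smul]

theorem diag_ge (h0 : ∀ t, b t = 0) {τ : ℝ}
    {R : Lp V4 2 (leafMeas b) →L[ℂ] Lp V4 2 (leafMeas b)} (hR : IsRes b τ R)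
    {f : ℝ → ℝ} (hf : Continuous f) (hf6 : ∀ x, 6 < |x| → f x = 0)
    (hf0 : ∀ x, 0 ≤ f x) (hf1 : ∀ x, f x ≤ 1) {c : ℝ} (hc : 0 ≤ c)
    (hfc : ∀ x, |x| ≤ c → f x = 1) {r1 r2 : ℝ} (h1 : 0 < r1) (h2 : r1 < r2)
    (hχ : τ ^ 2 + 4 * π ^ 2 * r2 ^ 2 < c ^ 2) :
    ENNReal.ofReal (8 * r1) ≤ diag b (fc f R) := by
  have := locFin (cont0 h0)
  let χ : ContDiffBump (0 : ℝ) := ⟨r1, r2, h1, h2⟩
  let e : Fin 4 → V4 := fun i => EuclideanSpace.single i 1
  let ψ : Fin 4 → Lp V4 2 (leafMeas b) := fun i => toL b (𝓕 (mn χ τ (e i) 0).1)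
  let δ : Fin 4 → ℝ → Lp V4 2 (leafMeas b) := fun i ε =>
    toL b ((Icc 0 ε).indicator fun _ => EuclideanSpace.single i (ε⁻¹ : ℝ))
  have hI : 2 * r1 ≤ ∫ ξ, χ ξ := by
    have := χ.measure_closedBall_le_integral volume
    rwa [Real.volume_real_closedBall h1.le] at this
  have hn : ∀ i, ‖ψ i‖ ^ 2 ≤ ∫ ξ, χ ξ := by
    intro i
    rw [four_norm h0]
    refine integral_mono_of_nonneg (Eventually.of_forall fun _ => by positivity) χ.integrable
      (Eventually.of_forall fun ξ => ?_)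
    simp only [mn, pow_zero, one_mul, norm_smul, e, PiLp.norm_single, norm_one, mul_one,
      Real.norm_eq_abs, sq_abs]
    nlinarith [χ.nonneg' ξ, χ.le_one (x := ξ)]
  have ht : ∀ i, Tendsto (fun ε => ⟪ψ i, δ i ε⟫_ℂ) (𝓝[>] 0) (𝓝 ((∫ ξ, χ ξ : ℝ) : ℂ)) := by
    intro i
    have cg := (four_smooth (mn χ τ (e i) 0)).continuous
    have h := tendsto_avg (g := fun t => ⟪𝓕 (mn χ τ (e i) 0).1 t, e i⟫_ℂ) (by fun_prop)
    have e0 : 𝓕 (mn χ τ (e i) 0).1 0 = (∫ ξ, χ ξ) • e i := by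
      rw [Real.fourier_eq, ← integral_smul_const]
      simp [mn]
    have e1 : ⟪𝓕 (mn χ τ (e i) 0).1 0, e i⟫_ℂ = ((∫ ξ, χ ξ : ℝ) : ℂ) := by
      rw [e0, ← coe_smul, inner_smul_left]
      simp [e]
    rw [e1] at h
    refine h.congr fun ε => ?_
    rw [inner_toL' (cont0 h0) (four_mem h0 _)
      (memLp_indicator_const 2 measurableSet_Icc _ (Or.inr measure_Icc_lt_top.ne)),
      ← integral_indicator measurableSet_Icc]
    congr 1; funext t
    by_cases h : t ∈ Icc 0 ε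
    · simp only [indicator_of_mem h, jac0 h0, one_smul, e, EuclideanSpace.inner_single_right]
      ring
    · simp [indicator_of_notMem h]
  have ht2 : Tendsto (fun ε => ∑ i, ENNReal.ofReal (2 * (⟪ψ i, δ i ε⟫_ℂ).re - ‖ψ i‖ ^ 2)) (𝓝[>] 0)
      (𝓝 (∑ i, ENNReal.ofReal (2 * ((∫ ξ, χ ξ : ℝ) : ℂ).re - ‖ψ i‖ ^ 2))) :=
    tendsto_finsetSum _ fun i _ => ENNReal.tendsto_ofReal
      ((((continuous_re.tendsto _).comp (ht i)).const_mul 2).sub_const _)
  calc ENNReal.ofReal (8 * r1) = ∑ _i : Fin 4, ENNReal.ofReal (2 * r1) := by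
        rw [← ENNReal.ofReal_sum_of_nonneg fun _ _ => by positivity]
        simp; ring_nf
    _ ≤ ∑ i, ENNReal.ofReal (2 * ((∫ ξ, χ ξ : ℝ) : ℂ).re - ‖ψ i‖ ^ 2) :=
        Finset.sum_le_sum fun i _ => ENNReal.ofReal_le_ofReal (by
          rw [ofReal_re]; linarith [hn i])
    _ = _ := ht2.liminf_eq.symm
    _ ≤ diag b (fc f R) := by
        refine liminf_le_liminf (Eventually.of_forall fun ε => Finset.sum_le_sum fun i _ =>
          ENNReal.ofReal_le_ofReal ?_)
        exact re_inner_ge (fc_pos hf0 R) (fix_four h0 hR hf hf6 hf0 hf1 hc hfc χ hχ (e i)) _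

theorem lint_ge (h0 : ∀ t, b t = 0)
    {R : ℝ → Lp V4 2 (leafMeas b) →L[ℂ] Lp V4 2 (leafMeas b)} (hR : ∀ τ, IsRes b τ (R τ))
    {f : ℝ → ℝ} (hf : Continuous f) (hf6 : ∀ x, 6 < |x| → f x = 0)
    (hf0 : ∀ x, 0 ≤ f x) (hf1 : ∀ x, f x ≤ 1) (hfc : ∀ x, |x| ≤ 5.95 → f x = 1) :
    ENNReal.ofReal 53.28 ≤ ∫⁻ τ, diag b (fc f (R τ)) := by
  have hπ : π ^ 2 < 9.87 := by nlinarith [Real.pi_lt_d4, Real.pi_pos]
  calc ENNReal.ofReal 53.28
      = ∫⁻ τ, (Icc (-3 : ℝ) 3).indicator (fun _ => ENNReal.ofReal 2.48) τ +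
          (Icc (-5 : ℝ) 5).indicator (fun _ => ENNReal.ofReal 3.84) τ := by
        rw [lintegral_add_left (measurable_const.indicator measurableSet_Icc),
          lintegral_indicator_const measurableSet_Icc, lintegral_indicator_const measurableSet_Icc,
          Real.volume_Icc, Real.volume_Icc, ← ENNReal.ofReal_mul (by norm_num),
          ← ENNReal.ofReal_mul (by norm_num), ← ENNReal.ofReal_add (by norm_num) (by norm_num)]
        norm_num
    _ ≤ _ := by
        refine lintegral_mono fun τ => ?_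
        by_cases a3 : τ ∈ Icc (-3 : ℝ) 3
        · have a5 : τ ∈ Icc (-5 : ℝ) 5 := ⟨by linarith [a3.1], by linarith [a3.2]⟩
          rw [indicator_of_mem a3, indicator_of_mem a5,
            ← ENNReal.ofReal_add (by norm_num) (by norm_num)]
          have := diag_ge h0 (hR τ) hf hf6 hf0 hf1 (by norm_num) hfc (r1 := 0.79) (r2 := 0.8)
            (by norm_num) (by norm_num) (by nlinarith [a3.1, a3.2])
          refine le_trans (le_of_eq ?_) this
          norm_num
        · rw [indicator_of_notMem a3, zero_add]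
          by_cases a5 : τ ∈ Icc (-5 : ℝ) 5
          · rw [indicator_of_mem a5]
            have := diag_ge h0 (hR τ) hf hf6 hf0 hf1 (by norm_num) hfc (r1 := 0.48) (r2 := 0.49)
              (by norm_num) (by norm_num) (by nlinarith [a5.1, a5.2])
            refine le_trans (le_of_eq ?_) this
            norm_num
          · rw [indicator_of_notMem a5]; exact zero_le

end Pool.Agent.P.MP_e0a138_an
end

-- part Pool.Agent.P.MP_e0a138_an.Cantor
section

set_option autoImplicit false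

open MeasureTheory Filter Topology Set
open scoped ContDiff ENNReal

namespace Pool.Agent.P.MP_e0a138_an

theorem exists_slope : ∃ a : ℝ → ℝ, Good a ∧ (∀ n : ℤ, a n = 0) ∧ Dense {y | a y ≠ 0} ∧
    volume ({y | a y ≠ 0} ∩ Ioc (0 : ℝ) 1) ≤ ENNReal.ofReal 0.000001 := by
  obtain ⟨U0, hQ, hU0, hm⟩ := (range ((↑) : ℚ → ℝ)).exists_isOpen_lt_of_lt (μ := volume)
    (ENNReal.ofReal 0.000001) (by
      rw [(countable_range _).measure_zero]; exact ENNReal.ofReal_pos.2 (by norm_num))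
  obtain ⟨g, hs, hg, hr⟩ := (hU0.inter isOpen_Ioo (t := Ioo (0 : ℝ) 1)).exists_contDiff_support_eq
    (n := ⊤)
  have hz : ∀ y, y ∉ Ioo (0 : ℝ) 1 → g y = 0 := fun y hy => by
    by_contra h
    exact hy (hs ▸ Function.mem_support.2 h).2
  let A : ℝ → ℝ := fun y => g (Int.fract y)
  have A1 : ContDiff ℝ ∞ A := by
    rw [contDiff_iff_contDiffAt]
    intro y
    have h1 : ContDiff ℝ ∞ fun z => g (z - ⌊y⌋) + g (z - ⌊y⌋ + 1) := by fun_prop
    refine h1.contDiffAt.congr_of_eventuallyEq ?_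
    have : Ioo ((⌊y⌋ : ℝ) - 1) (⌊y⌋ + 1) ∈ 𝓝 y :=
      Ioo_mem_nhds (by linarith [Int.floor_le y]) (Int.lt_floor_add_one y)
    filter_upwards [this] with z hz'
    by_cases h : (⌊y⌋ : ℝ) ≤ z
    · have e : ⌊z⌋ = ⌊y⌋ := Int.floor_eq_iff.2 ⟨h, hz'.2⟩
      simp only [A, Int.fract, e]
      rw [hz (z - ⌊y⌋ + 1) fun h' => by linarith [h'.2], add_zero]
    · have e : ⌊z⌋ = ⌊y⌋ - 1 := Int.floor_eq_iff.2
        ⟨by push_cast; exact hz'.1.le, by push_cast; linarith [not_le.1 h]⟩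
      simp only [A, Int.fract, e]
      rw [hz (z - ⌊y⌋) fun h' => by linarith [h'.1, not_le.1 h], zero_add]
      push_cast; ring_nf
  have A2 : ∀ y, A (y + 1) = A y := fun y => by simp only [A, Int.fract_add_one]
  have A3 : Function.Periodic (deriv A) 1 := deriv_per A2
  obtain ⟨C, hC⟩ := (A3.isBounded_of_continuous one_ne_zero
    (A1.continuous_deriv (by simp))).exists_pos_norm_le
  have hC1 : 0 < C + 1 := by linarith [hC.1]
  have hne : ∀ y, A y / (C + 1) ≠ 0 ↔ Int.fract y ∈ U0 ∩ Ioo (0 : ℝ) 1 := fun y => by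
    rw [← hs, Function.mem_support]; simp [A, hC1.ne']
  refine ⟨fun y => A y / (C + 1), ⟨A1.div_const _, fun y => by rw [A2], fun y => ?_, fun y => ?_,
    fun y => ?_⟩, fun n => ?_, ?_, ?_⟩
  · exact div_nonneg (hr (mem_range_self _)).1 hC1.le
  · rw [div_le_one hC1]; linarith [(hr (mem_range_self (Int.fract y))).2, hC.1]
  · rw [deriv_div_const, abs_div, abs_of_pos hC1, div_le_one hC1]
    linarith [hC.2 _ (mem_range_self y), Real.norm_eq_abs (deriv A y)]
  · simp only [A, Int.fract_intCast]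
    rw [hz 0 (by simp), zero_div]
  · rw [dense_iff_inter_open]
    rintro V hV ⟨y, hy⟩
    obtain ⟨ε, hε, hb⟩ := Metric.isOpen_iff.1 hV y hy
    obtain ⟨q, hq1, hq2⟩ := exists_rat_btwn (lt_min (lt_add_of_pos_right y hε)
      (Int.lt_floor_add_one y))
    rw [lt_min_iff] at hq2
    have e : ⌊(q : ℝ)⌋ = ⌊y⌋ := Int.floor_eq_iff.2 ⟨by linarith [Int.floor_le y], hq2.2⟩
    refine ⟨q, hb ?_, (hne q).2 ⟨hQ ⟨q - ⌊y⌋, ?_⟩, ?_, Int.fract_lt_one _⟩⟩
    · rw [Metric.mem_ball, Real.dist_eq, abs_lt]; constructor <;> linarith [hq2.1]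
    · rw [Int.fract, e]; push_cast; rfl
    · rw [Int.fract, e]; linarith [Int.floor_le y]
  · refine (measure_mono fun y hy => ?_).trans hm.le
    have h := (hne y).1 hy.1
    rcases hy.2.2.eq_or_lt with h1 | h1
    · rw [h1] at h; simp at h
    · rw [Int.fract_eq_self.2 ⟨hy.2.1.le, h1⟩] at h; exact h.1

theorem Good.lip {a : ℝ → ℝ} (ha : Good a) : LipschitzWith 1 a :=
  lipschitzWith_of_nnnorm_deriv_le (ha.smooth.differentiable (by simp)) fun y => by
    rw [← NNReal.coe_le_coe]; simpa using ha.deriv_le y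

theorem exists_flow {a : ℝ → ℝ} (ha : Good a) (y : ℝ) :
    ∃ φ : ℝ → ℝ, φ 0 = y ∧ ∀ t, HasDerivAt φ (a (φ t)) t := by
  have h : ∀ n : ℕ, ∃ φ : ℝ → ℝ, φ 0 = y ∧
      ∀ t ∈ Ioo (-(n : ℝ)) n, HasDerivAt φ (a (φ t)) t := by
    intro n
    have hp : IsPicardLindelof (fun _ => a) (tmin := -(n : ℝ)) (tmax := n)
        ⟨0, by simp⟩ y n 0 1 1 :=
      IsPicardLindelof.of_time_independent
        (fun x _ => by simpa [abs_of_nonneg (ha.nonneg x)] using ha.le_one x)
        ha.lip.lipschitzOnWith (by simp)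
    obtain ⟨φ, h0, h1⟩ := hp.exists_eq_forall_mem_Icc_hasDerivWithinAt₀
    exact ⟨φ, h0, fun t ht =>
      (h1 t (Ioo_subset_Icc_self ht)).hasDerivAt (Icc_mem_nhds ht.1 ht.2)⟩
  choose φ h0 h1 using h
  have hc : ∀ n m : ℕ, n ≤ m → ∀ t ∈ Ioo (-(n : ℝ)) n, φ n t = φ m t := by
    intro n m hnm t ht
    have hnm' : (n : ℝ) ≤ m := by exact_mod_cast hnm
    refine ODE_solution_unique_of_mem_Ioo (v := fun _ => a) (s := fun _ => univ) (K := 1) (t₀ := 0)
      (fun _ _ => ha.lip.lipschitzOnWith) ⟨by linarith [ht.1, ht.2], by linarith [ht.1, ht.2]⟩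
      (fun s hs => ⟨h1 n s hs, trivial⟩)
      (fun s hs => ⟨h1 m s ⟨by linarith [hs.1], by linarith [hs.2]⟩, trivial⟩)
      (by rw [h0, h0]) ht
  have hN : ∀ t : ℝ, t ∈ Ioo (-((⌊|t|⌋₊ + 1 : ℕ) : ℝ)) (⌊|t|⌋₊ + 1 : ℕ) := fun t => by
    have := Nat.lt_floor_add_one |t|
    push_cast
    exact abs_lt.1 this
  have he : ∀ (n : ℕ) t, t ∈ Ioo (-(n : ℝ)) n → φ (⌊|t|⌋₊ + 1) t = φ n t := by
    intro n t ht
    rw [hc _ _ (le_max_left _ n) t (hN t), hc _ _ (le_max_right (⌊|t|⌋₊ + 1) n) t ht]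
  refine ⟨fun t => φ (⌊|t|⌋₊ + 1) t, h0 _, fun t => ?_⟩
  refine (h1 _ t (hN t)).congr_of_eventuallyEq ?_
  filter_upwards [Ioo_mem_nhds (hN t).1 (hN t).2] with s hs
  exact he _ s hs

theorem flow_const {a : ℝ → ℝ} (ha : Good a) {φ : ℝ → ℝ} (h : ∀ t, HasDerivAt φ (a (φ t)) t)
    {t0 : ℝ} (h0 : a (φ t0) = 0) (t : ℝ) : φ t = φ t0 :=
  congrFun (ODE_solution_unique_univ (v := fun _ => a) (s := fun _ => univ) (K := 1) (t₀ := t0)
    (g := fun _ => φ t0) (fun _ => ha.lip.lipschitzOnWith) (fun t => ⟨h t, trivial⟩)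
    (fun t => ⟨h0 ▸ hasDerivAt_const t _, trivial⟩) rfl) t

theorem holonomy {a : ℝ → ℝ} (ha : Good a) (hz : ∀ n : ℤ, a n = 0) (hd : Dense {y | a y ≠ 0})
    {Φ : ℝ → ℝ → ℝ} (hΦ : ∀ y, Φ y 0 = y ∧ ∀ t, HasDerivAt (Φ y) (a (Φ y t)) t) (y : ℝ) (n : ℤ)
    (hn : n ≠ 0) : ¬∀ᶠ z in 𝓝 y, ∃ m : ℤ, Φ z n = z + m := by
  intro h
  obtain ⟨z, hz1, m, hm⟩ := hd.inter_nhds_nonempty h
  have hne : ∀ t, a (Φ z t) ≠ 0 := fun t ht => by
    have := flow_const ha (hΦ z).2 ht 0
    rw [(hΦ z).1] at this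
    exact hz1 (this ▸ ht)
  have hmono : StrictMono (Φ z) := strictMono_of_deriv_pos fun t => by
    rw [((hΦ z).2 t).deriv]; exact lt_of_le_of_ne (ha.nonneg _) (hne t).symm
  have hc : Continuous (Φ z) := continuous_iff_continuousAt.2 fun t => ((hΦ z).2 t).continuousAt
  have hiv : ∀ k : ℤ, (k : ℝ) ∉ uIcc z (z + m) := fun k hk => by
    rw [← hm, ← (hΦ z).1] at hk
    rw [(hΦ z).1] at hk
    nth_rewrite 1 [← (hΦ z).1] at hk
    obtain ⟨t, -, ht⟩ := intermediate_value_uIcc hc.continuousOn hk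
    exact hne t (ht ▸ hz k)
  rcases lt_trichotomy m 0 with h1 | h1 | h1
  · have : (m : ℝ) ≤ -1 := by exact_mod_cast Int.le_sub_one_of_lt h1
    exact hiv ⌊z⌋ (mem_uIcc.2 (Or.inr
      ⟨by linarith [Int.lt_floor_add_one z], Int.floor_le z⟩))
  · rw [h1, Int.cast_zero, add_zero] at hm
    exact hn (by exact_mod_cast hmono.injective (hm.trans (hΦ z).1.symm))
  · have : (1 : ℝ) ≤ m := by exact_mod_cast h1
    exact hiv ⌈z⌉ (mem_uIcc.2 (Or.inl
      ⟨Int.le_ceil z, by linarith [Int.ceil_lt_add_one z]⟩))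

theorem Good.deriv_eq_zero {a : ℝ → ℝ} (ha : Good a) {y : ℝ} (h : a y = 0) : deriv a y = 0 :=
  IsLocalMin.deriv_eq_zero (Eventually.of_forall fun z => h ▸ ha.nonneg z)

end Pool.Agent.P.MP_e0a138_an
end

-- part Pool.Agent.P.MP_e0a138_an.Main
section

set_option autoImplicit false

open MeasureTheory Filter Topology
open scoped ENNReal ContDiff

namespace Pool.Agent.P.MP_e0a138_an

/-- The adiabatic Weyl formula fails for a foliation of the torus by the orbits of
`X = ∂x + a(y) ∂y`, with the metric making `X, ∂y` orthonormal. -/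
theorem main : ∃ (a : ℝ → ℝ) (Φ : ℝ → ℝ → ℝ) (f : ℝ → ℝ),
    ContDiff ℝ ∞ a ∧ Function.Periodic a 1 ∧
    (∀ y, Φ y 0 = y ∧ ∀ t, HasDerivAt (Φ y) (a (Φ y t)) t) ∧
    (∀ (y : ℝ) (n : ℤ), n ≠ 0 → ¬∀ᶠ z in 𝓝 y, ∃ m : ℤ, Φ z n = z + m) ∧
    (∀ h u v, IsForm u → IsForm v →
      ip (Dh a h u) v = ip (dh a h u) v + ip u (dh a h v)) ∧
    (∀ y τ, (∃! R, IsRes (fun t => deriv a (Φ y t)) τ R) ∧
      ∀ R, IsRes (fun t => deriv a (Φ y t)) τ R →
        IsStarNormal R ∧ R - star R = (-2 * Complex.I) • (star R * R)) ∧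
    ContDiff ℝ ∞ f ∧ HasCompactSupport f ∧ (∀ x, f (-x) = f x) ∧ (∀ x, 0 ≤ f x) ∧
    (∀ᶠ h in 𝓝[>] (0 : ℝ), ENNReal.ofReal h * trM a h f ≤ ENNReal.ofReal 7.8) ∧
    ∀ R : ∀ y : ℝ, ℝ →
        Lp (EuclideanSpace ℂ (Fin 4)) 2 (leafMeas fun t => deriv a (Φ y t)) →L[ℂ]
          Lp (EuclideanSpace ℂ (Fin 4)) 2 (leafMeas fun t => deriv a (Φ y t)),
      (∀ y τ, IsRes (fun t => deriv a (Φ y t)) τ (R y τ)) →
        8 ≤ ENNReal.ofReal (2 * Real.pi)⁻¹ * ∫⁻ y in Set.Ioc (0 : ℝ) 1, ∫⁻ τ,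
          diag (fun t => deriv a (Φ y t)) (fc f (R y τ)) := by
  obtain ⟨a, ha, hz, hd, hm⟩ := exists_slope
  choose Φ hΦ using exists_flow ha
  let f : ContDiffBump (0 : ℝ) := ⟨5.95, 6, by norm_num, by norm_num⟩
  have hf6 : ∀ x, 6 < |x| → f x = 0 := fun x hx => f.zero_of_le_dist (by simpa using hx.le)
  have hfc : ∀ x, |x| ≤ 5.95 → f x = 1 := fun x hx => f.one_of_mem_closedBall (by simpa using hx)
  have hb : ∀ y, Continuous fun t => deriv a (Φ y t) := fun y =>
    (ha.smooth.continuous_deriv (by simp)).comp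
      (continuous_iff_continuousAt.2 fun t => ((hΦ y).2 t).continuousAt)
  have hU : MeasurableSet {y | a y ≠ 0} :=
    (isOpen_ne_fun ha.smooth.continuous continuous_const).measurableSet
  have hπ := Real.pi_gt_d2
  have hπ' := Real.pi_lt_d2
  refine ⟨a, Φ, f, ha.smooth, ha.per, hΦ, holonomy ha hz hd hΦ,
    fun h u v hu hv => ip_Dh ha.smooth ha.per h hu hv,
    fun y τ => ⟨existsUnique_res (hb y) τ, fun R hR => res_normal (hb y) hR⟩,
    f.contDiff, f.hasCompactSupport, f.neg, f.nonneg', ?_, fun R hR => ?_⟩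
  · filter_upwards [Ioo_mem_nhdsGT (show (0 : ℝ) < 0.02 by norm_num)] with h hh
    have h0 := hh.1
    have hI : ∫ y in (0 : ℝ)..1, ({y | a y ≠ 0} : Set ℝ).indicator (fun _ => (1 : ℝ)) y ≤
        0.000001 := by
      rw [intervalIntegral.integral_of_le zero_le_one, integral_indicator hU, setIntegral_const,
        smul_eq_mul, mul_one, measureReal_def, Measure.restrict_apply hU]
      exact ENNReal.toReal_le_of_le_ofReal (by norm_num) hm
    refine (mul_le_mul_right (trM_le ha h0 (by linarith [hh.2]) (fun x => f.le_one) hf6) _).trans ?_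
    rw [← ENNReal.ofReal_mul h0.le]
    apply ENNReal.ofReal_le_ofReal
    have e1 : h * (24 / (Real.pi * h)) = 24 / Real.pi := by field_simp
    have e2 : 24 / Real.pi ≤ 7.65 := by rw [div_le_iff₀ Real.pi_pos]; linarith
    have e3 : ∀ x, h * (6 * (2888 / h * x)) = 17328 * x := fun x => by field_simp; ring
    rw [mul_add, mul_add, e1, e3]
    linarith [hh.2]
  · have h1 : ENNReal.ofReal 53.28 * volume ({y | a y ≠ 0}ᶜ ∩ Set.Ioc (0 : ℝ) 1) ≤
        ∫⁻ y in Set.Ioc (0 : ℝ) 1, ∫⁻ τ, diag (fun t => deriv a (Φ y t)) (fc f (R y τ)) := by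
      rw [← Measure.restrict_apply hU.compl, ← lintegral_indicator_const hU.compl]
      refine lintegral_mono fun y => ?_
      by_cases hy : y ∈ {y | a y ≠ 0}ᶜ
      · rw [Set.indicator_of_mem hy]
        have hy' : a (Φ y 0) = 0 := by rw [(hΦ y).1]; simpa using hy
        exact lint_ge (fun t => ha.deriv_eq_zero (by rw [flow_const ha (hΦ y).2 hy' t, hy']))
          (hR y) f.continuous hf6 f.nonneg' (fun x => f.le_one) hfc
      · rw [Set.indicator_of_notMem hy]; exact zero_le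
    have h2 : ENNReal.ofReal 0.999999 ≤ volume ({y | a y ≠ 0}ᶜ ∩ Set.Ioc (0 : ℝ) 1) := by
      have e := measure_inter_add_sdiff (μ := volume) (Set.Ioc (0 : ℝ) 1) hU
      rw [Set.inter_comm, Set.sdiff_eq, Set.inter_comm (Set.Ioc _ _), Real.volume_Ioc] at e
      have e2 : ENNReal.ofReal 0.000001 + ENNReal.ofReal 0.999999 ≤ ENNReal.ofReal 0.000001 +
          volume ({y | a y ≠ 0}ᶜ ∩ Set.Ioc (0 : ℝ) 1) := by
        rw [← ENNReal.ofReal_add (by norm_num) (by norm_num)]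
        calc _ = ENNReal.ofReal (1 - 0) := by norm_num
          _ ≤ _ := by rw [← e]; gcongr
      exact (ENNReal.add_le_add_iff_left ENNReal.ofReal_ne_top).1 e2
    calc (8 : ℝ≥0∞) = ENNReal.ofReal 8 := by simp
      _ ≤ ENNReal.ofReal (2 * Real.pi)⁻¹ * (ENNReal.ofReal 53.28 * ENNReal.ofReal 0.999999) := by
          rw [← ENNReal.ofReal_mul (by norm_num), ← ENNReal.ofReal_mul (by positivity)]
          apply ENNReal.ofReal_le_ofReal
          rw [le_inv_mul_iff₀ (by positivity)]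
          linarith
      _ ≤ _ := by
          gcongr
          exact le_trans (by gcongr) h1

end Pool.Agent.P.MP_e0a138_an
end
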